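import Pool.Agent.MP_e23604_nt.Z.GS

set_option autoImplicit false

open Finset QuadraticAlgebra Polynomial
open scoped Classical

namespace Pool.Agent.MP_e23604_nt.Z.G

open B R S W Un

section

variable {V : Plc} {E E' : WeierstrassCurve Qb}

theorem add_GCT1 (h : Gw V E) {P Q : PW E} {r : ℝ} (a : zs V P ≤ r) (b : zs V Q ≤ r) :
    zs V (P + Q) ≤ r := by
  by_cases e : E1 V.v P
  swap
  · exact (h.zs_le _).trans (zs_not e ▸ a)
  by_cases e' : E1 V.v Q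
  swap
  · exact (h.zs_le _).trans (zs_not e' ▸ b)
  obtain ⟨k1, k2⟩ := E1_add V.na h.int e e'
  rw [zs_of e] at a
  rw [zs_of e'] at b
  have k3 := max_lt (E1_lt V.na h.int e) (E1_lt V.na h.int e')
  have k4 := max_le a b
  have k5 : 0 ≤ max (V.v (zz P)) (V.v (zz Q)) := le_max_of_le_left (V.v.nonneg _)
  have := bLocA_add_le V.na (bLocA_add_le V.na (k2.trans (by nlinarith)) b) a
  rwa [sub_add_cancel, sub_add_cancel, ← zs_of k1] at this

theorem neg_GCT1 (h : Gw V E) {P : PW E} {r : ℝ} (a : zs V P ≤ r) : zs V (-P) ≤ r := by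
  by_cases e : E1 V.v P
  swap
  · exact (h.zs_le _).trans (zs_not e ▸ a)
  obtain ⟨k1, k2⟩ := E1_neg V.na h.int e
  rw [zs_of e] at a
  have k3 := E1_lt V.na h.int e
  have := bLocA_sub_le V.na (k2.trans (by nlinarith [V.v.nonneg (zz P)])) a
  rwa [add_sub_cancel_right, ← zs_of k1] at this

theorem zero_GCT1 {e : ℕ} {s : ℝ} {D : AddSubgroup (PW E × PW E')} (h : Ap V e s D) (he : e ≠ 0)
    (hs : 0 ≤ s) {X : PW E'} (hX : (0, X) ∈ D) : E1 V.v X ∧ V.v (zz X) ≤ s := by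
  have k := h.dist 0 X hX (E1_zero _)
  rw [zz_zero, map_zero, zero_pow he, max_eq_right hs] at k
  exact ⟨(h.one 0 X hX).1 (E1_zero _), k ▸ le_max_left _ _⟩

end

theorem CT1_pf (hVGR : VGR_st) (hSIG : SIG_st) : CT1_st := by
  intro V σ d d' φ φ' s D F h a b k t ht hH
  have hS := hSIG V σ h.iq.inr
  obtain ⟨-, -, -, -, -, -, -, -, -, hG, hφ⟩ := hVGR V d' h.tm'.gd
  obtain ⟨hφ1, hφ2⟩ := hφ φ' h.vl'
  have hq : V.l ≠ 0 := V.hl.out.ne_zero
  have q0 := hS.q0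
  have q1 := hS.q1
  set s' := max s (V.v V.l * V.v (W.io b)) with hs'
  have step : ∀ ρ τ : ℝ, V.v V.l ≤ ρ → ρ < 1 → τ ≤ ρ → Hm V φ φ' D F τ a b k →
      Hm V φ φ' D F (max s' (ρ * τ)) a b k := fun ρ τ r1 r2 r3 H P P₁ P₃ m1 m3 => by
    obtain ⟨Q, rfl⟩ := smul_onto (Nat.cast_ne_zero.2 hq : (V.l : Zw) ≠ 0) P
    rw [Nat.cast_smul_eq_nsmul] at *
    obtain ⟨Q₁, n1⟩ := h.hF.onto Q
    obtain ⟨Y₃, n3⟩ := h.hD.onto (φ (k • Q))
    obtain ⟨Q₃, rfl⟩ := h.vl'.sur Y₃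
    have y1 := H Q Q₁ Q₃ n1 n3
    obtain ⟨x1, x2⟩ := zero_GCT1 h.hF hq q0.le (X := P₁ - V.l • Q₁)
      (by simpa using F.sub_mem m1 (F.nsmul_mem n1 V.l))
    obtain ⟨x3, x4⟩ := zero_GCT1 h.hD one_ne_zero h.s0 (X := φ' P₃ - V.l • φ' Q₃)
      (by simpa [smul_comm k V.l Q] using D.sub_mem m3 (D.nsmul_mem n3 V.l))
    have e : φ' (a • V.l • Q + b • P₁ - P₃) = V.l • φ' (a • Q + b • Q₁ - Q₃) +
        φ' (b • (P₁ - V.l • Q₁)) + -(φ' P₃ - V.l • φ' Q₃) := by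
      rw [← map_nsmul, ← map_nsmul, ← map_sub, ← map_neg, ← map_add, ← map_add]
      congr 1
      module
    rw [e]
    refine add_GCT1 hG (add_GCT1 hG (le_max_of_le_right ?_) (le_max_of_le_left (le_max_of_le_right ?_)))
      (neg_GCT1 hG (le_max_of_le_left (le_max_of_le_left (zs_of x3 ▸ x4))))
    · generalize φ' (a • Q + b • Q₁ - Q₃) = Y at y1
      have y2 := hG.zs_lt.1 (y1.trans_lt (r3.trans_lt r2))
      obtain ⟨y3, y4, -⟩ := bLocA_nsmul V.na hG.int y2 V.l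
      rw [zs_of y2] at y1
      have y0 := V.v.nonneg (zz Y)
      have := bLocA_add_le V.na (c := ρ * τ) (b := V.l * zz Y) (y4.trans (by nlinarith))
        (by rw [map_mul]; nlinarith)
      rwa [sub_add_cancel, ← zs_of y3] at this
    · have x5 := (E1m x1 b).1
      have x0 := V.v.nonneg (zz (P₁ - V.l • Q₁))
      rw [zs_of ((hφ1 _).2 ⟨0, zero_mem _, by rwa [sub_zero]⟩), hφ2 _ x5, mul_comm]
      refine ((ZEQ_ok' V V.l _ hS.pr (Ov_l V) x1).2.1 ?_ b).trans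
        (mul_le_mul_of_nonneg_left x2 (V.v.nonneg _))
      rw [map_natCast]
      exact (pow_le_of_le_one x0 (x2.trans q1.le) three_ne_zero).trans x2
  have s0 : 0 ≤ s' := le_max_of_le_left h.s0
  have s1 : s' ≤ V.v V.l := max_le h.s1 (mul_le_of_le_one_right q0.le (V.io_le b))
  set ρ := max (V.v V.l) t
  have r1 : V.v V.l ≤ ρ := le_max_left _ _
  have r2 : ρ < 1 := max_lt q1 ht
  have r0 : 0 < ρ := q0.trans_le r1
  have it : ∀ n : ℕ, Hm V φ φ' D F (max s' (ρ ^ (n + 1))) a b k := fun n => by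
    induction n with
    | zero => exact fun P P₁ P₃ m1 m3 => (hH P P₁ P₃ m1 m3).trans (by simp [ρ])
    | succ n ih =>
      intro P P₁ P₃ m1 m3
      refine (step ρ _ r1 r2 (max_le (s1.trans r1) (pow_le_of_le_one r0.le r2.le n.succ_ne_zero))
        ih P P₁ P₃ m1 m3).trans (max_le (le_max_left _ _) ?_)
      rw [mul_max_of_nonneg _ _ r0.le, ← pow_succ']
      exact max_le_max (mul_le_of_le_one_left s0 r2.le) le_rfl
  intro P P₁ P₃ m1 m3
  by_contra hc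
  rw [not_le] at hc
  obtain ⟨n, hn⟩ := exists_pow_lt_of_lt_one (s0.trans_lt hc) r2
  exact (max_lt hc ((pow_le_pow_of_le_one r0.le r2.le n.le_succ).trans_lt hn)).not_ge
    (it n P P₁ P₃ m1 m3)

end Pool.Agent.MP_e23604_nt.Z.G
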