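import Pool.Agent.MP_e23604_nt.Z.GS

set_option autoImplicit false

open Finset QuadraticAlgebra Polynomial
open scoped Classical

namespace Pool.Agent.MP_e23604_nt.Z.G

open B R S W Un

theorem unit_GCT2 {V : Plc} {P : Pt} (h : E1 V.v P) {c : Zw} (hc : ¬ Ov V c) :
    V.v (zz (c • P)) = V.v (zz P) := by
  obtain ⟨-, k1, k2⟩ := E1m h c
  have e : V.v (W.io c * zz P) = V.v (zz P) := by rw [map_mul, not_Ov.1 hc, one_mul]
  rcases (V.v.nonneg (zz P)).eq_or_lt with z | z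
  · exact le_antisymm k2 (z ▸ V.v.nonneg _)
  · have := bLocA_add_eq V.na (a := W.io c * zz P) (k1.trans_lt (by
      rw [e]
      nlinarith [zz_lt h]))
    rwa [add_sub_cancel, e] at this

theorem neg_GCT2 {V : Plc} {P : Pt} (h : E1 V.v P) : V.v (zz (-P)) = V.v (zz P) := by
  simpa using unit_GCT2 h (not_Ov_unit V isUnit_one.neg)

theorem le_GCT2 {V : Plc} {P Q : Pt} (h : E1 V.v P) (h' : E1 V.v Q)
    (e : V.v (zz Q) < V.v (zz P)) : V.v (zz P) ≤ V.v (zz (P + Q)) := by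
  refine not_lt.1 fun k => (max_lt k e).not_ge ?_
  simpa using zz_add_le (E1a h h') (E1n h') (le_max_left _ _)
    ((neg_GCT2 h').le.trans (le_max_right (V.v (zz (P + Q))) _))

theorem zero_GCT2 {V : Plc} {E E' : WeierstrassCurve Qb} {e : ℕ} {s : ℝ}
    {D : AddSubgroup (PW E × PW E')} (h : Ap V e s D) (he : e ≠ 0) (hs : 0 ≤ s) {X : PW E'}
    (k : (0, X) ∈ D) : E1 V.v X ∧ V.v (zz X) ≤ s := by
  have z : E1 V.v (0 : PW E) := trivial
  have := h.dist _ _ k z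
  rw [zz_zero, map_zero, zero_pow he, max_eq_right hs] at this
  exact ⟨(h.one _ _ k).1 z, (le_max_left _ _).trans this.le⟩

theorem vl_GCT2 (hVGR : VGR_st) {V : Plc} {d : Lv} {φ : Pt →+ PW (Wd d.pt)} (h : d.Tm V)
    (k : Vl d φ) : (∀ X : Pt, E1 V.v X → E1 V.v (φ X) ∧ V.v (zz (φ X)) = V.v (zz X) ∧
      zs V (φ X) = V.v (zz X)) ∧ (∀ Y, E1 V.v (φ Y) → ∃ X : Pt, E1 V.v X ∧ φ X = φ Y) ∧
      ∀ Y, zs V (φ Y) < 1 → E1 V.v (φ Y) := by
  obtain ⟨-, -, -, -, -, -, -, -, -, g, k'⟩ := hVGR V d h.gd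
  obtain ⟨k1, k2⟩ := k' φ k
  refine ⟨fun X e => ?_, fun Y e => ?_, fun Y e => g.zs_lt.1 e⟩
  · have := (k1 X).2 ⟨0, zero_mem _, by rwa [sub_zero]⟩
    exact ⟨this, k2 X e, (zs_of this).trans (k2 X e)⟩
  · obtain ⟨c, hc, e⟩ := (k1 Y).1 e
    exact ⟨_, e, by rw [map_sub, (k.ker c).2 hc, sub_zero]⟩

theorem div_GCT2 (hVGR : VGR_st) {V σ d d' φ φ' s D F} (h : Cx V σ d d' φ φ' s D F)
    {a b k : Zw} {t : ℝ} (ht : t < 1) (H : Hm V φ φ' D F t (V.l * a) (V.l * b) (V.l * k)) :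
    Hm V φ φ' D F (max t (V.v V.l)) a b k := fun P P₁ P₃ h1 h3 => by
  have q0 := V.hl.out.ne_zero
  obtain ⟨Q, rfl⟩ := smul_onto (b := V.l) (Nat.cast_ne_zero.2 q0) P
  obtain ⟨Q₁, hQ⟩ := h.hF.onto Q
  obtain ⟨v1, v2, v3⟩ := vl_GCT2 hVGR h.tm' h.vl'
  obtain ⟨x1, x2⟩ := zero_GCT2 h.hF q0 (V.v.nonneg _) (X := P₁ - (V.l : Zw) • Q₁) (by
    simpa [Nat.cast_smul_eq_nsmul] using F.sub_mem h1 (F.nsmul_mem hQ V.l))
  have k1 := H Q Q₁ P₃ hQ (by rwa [mul_comm, mul_smul])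
  obtain ⟨X, y1, y2⟩ := v2 _ (v3 _ (k1.trans_lt ht))
  rw [← y2, (v1 X y1).2.2] at k1
  have e : φ' (a • (V.l : Zw) • Q + b • P₁ - P₃) = φ' (X + b • (P₁ - (V.l : Zw) • Q₁)) := by
    rw [map_add φ' X, y2, ← map_add]
    congr 1
    module
  rw [e, (v1 _ (E1a y1 (E1m x1 b).1)).2.2]
  exact zz_add_le y1 (E1m x1 b).1 (k1.trans (le_max_left _ _))
    (((E1m x1 b).2.2.trans x2).trans (le_max_right _ _))

theorem prim_GCT2 (hVGR : VGR_st) (hSIG : SIG_st) (hTAU : TAU_st) {V σ d d' φ φ' s D F}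
    (h : Cx V σ d d' φ φ' s D F) {a b k : Zw} (hp : ¬ (Ov V a ∧ Ov V b ∧ Ov V k))
    (H : Hm V φ φ' D F (max s (V.v V.l * V.v (W.io b))) a b k) :
    ¬ Ov V k ∧ ¬ Ov V a ∧ (b = 0 ∨ V.v (W.io b) * V.v V.l ^ 2 < s) := by
  have g := hSIG V σ h.iq.inr
  obtain ⟨T, t0, -, t1, t2, t3⟩ := hTAU V σ h.iq
  obtain ⟨u1, -, -⟩ := vl_GCT2 hVGR h.tm h.vl
  obtain ⟨v1, v2, -⟩ := vl_GCT2 hVGR h.tm' h.vl'
  have q2 := V.hl.out.two_le
  have q0 := g.q0
  have q1 := g.q1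
  have b1 := V.io_le b
  have b0 := V.v.nonneg (W.io b)
  have s1 : max s (V.v V.l * V.v (W.io b)) ≤ V.v V.l := max_le h.s1 (by nlinarith)
  have r1 := zz_lt t1
  have n1 : V.l < V.l ^ 2 - 1 := by
    have : V.l * 2 ≤ V.l * V.l := Nat.mul_le_mul_left _ q2
    have := h.iq.n2
    rw [sq]
    omega
  have r0 : 0 < V.v (zz T) := (V.v.nonneg _).lt_of_ne fun e => by
    rw [← e, zero_pow (by omega)] at t2
    exact q0.ne t2
  have r2 : V.v V.l < V.v (zz T) ^ V.l := t2 ▸ pow_lt_pow_right_of_lt_one₀ r0 r1 n1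
  have r3 : V.v (zz T) ^ V.l < V.v (zz T) := pow_lt_self_of_lt_one₀ r0 r1 q2
  have ov : ∀ c, Ov V c → c • T = 0 := fun c e => dvd_smul t0 ((g.ov c).1 e)
  obtain ⟨T₁, hT⟩ := h.hF.onto T
  have e1 := (h.hF.one _ _ hT).1 t1
  have z1 : V.v (zz T₁) = V.v (zz T) ^ V.l := by
    have := h.hF.dist _ _ hT t1
    rw [max_eq_left r2.le] at this
    exact (max_eq_iff.1 this).elim And.left fun e => absurd e.1 r2.ne
  obtain ⟨eb, -, zb⟩ := E1m e1 b
  have ea := (E1m t1 a).1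
  have hk : ¬ Ov V k := fun e => by
    have := (H T T₁ 0 hT (by
      rw [ov k e, map_zero, map_zero]
      exact zero_mem D)).trans s1
    rw [sub_zero, (v1 _ (E1a ea eb)).2.2] at this
    by_cases ha : Ov V a
    · rw [ov a ha, zero_add, unit_GCT2 e1 fun hb => hp ⟨ha, hb, e⟩] at this
      linarith
    · have k1 := unit_GCT2 t1 ha
      have := le_GCT2 ea eb (by linarith)
      linarith
  obtain ⟨P', hP⟩ := h.hD.onto (φ (k • T))
  obtain ⟨Y, rfl⟩ := h.vl'.sur P'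
  obtain ⟨w1, w2, -⟩ := u1 _ (E1m t1 k).1
  obtain ⟨T₃, e3, y2⟩ := v2 Y ((h.hD.one _ _ hP).1 w1)
  rw [← y2] at hP
  have z3 : V.v (zz T₃) = V.v (zz T) := by
    have := h.hD.dist _ _ hP w1
    have k1 : s < V.v (zz T) := by linarith [h.s1]
    rw [pow_one, w2, unit_GCT2 t1 hk, max_eq_left k1.le, (v1 _ e3).2.1] at this
    exact (max_eq_iff.1 this).elim And.left fun e => absurd e.1 k1.ne
  have ee := E1s (E1a ea eb) e3
  have ze := H T T₁ T₃ hT hP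
  rw [(v1 _ ee).2.2] at ze
  refine ⟨hk, fun ha => ?_, or_iff_not_imp_left.2 fun hb => not_le.1 fun hs => ?_⟩
  · have k1 := neg_GCT2 e3
    have := le_GCT2 (E1n e3) eb (by linarith)
    rw [ov a ha, zero_add, sub_eq_neg_add] at ze
    linarith
  · have b2 : 0 < V.v (W.io b) := by
      rw [g.vb b hb]
      positivity
    have k1 : V.v (zz (a • T + b • T₁ - T₃)) ≤ V.v V.l * V.v (W.io b) :=
      ze.trans (max_le (by nlinarith [mul_pos b2 q0]) le_rfl)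
    have k2 := t3 _ ee (by linarith)
    have k3 := t3 _ e1 (by linarith)
    have e4 := (E1m e1 V.l).1
    have k4 := (ZEQ_ok' V V.l _ g.pr (Ov_l V) e4).1 (by
      rw [map_natCast]
      refine (pow_le_of_le_one (V.v.nonneg _) (zz_lt e4).le three_ne_zero).trans_lt ?_
      nlinarith) b
    have e5 := (E1m e3 V.l).1
    have k5 := (zero_GCT2 h.hD one_ne_zero h.s0 (X := φ' ((V.l : Zw) • T₃)) (by
      have := D.nsmul_mem hP V.l
      rwa [Prod.smul_mk, ← map_nsmul, ← map_nsmul, ← Nat.cast_smul_eq_nsmul Zw,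
        ← Nat.cast_smul_eq_nsmul Zw, smul_comm, t0, smul_zero, map_zero] at this)).2
    rw [(v1 _ e5).2.1] at k5
    have k6 := zz_add_le (E1m ee V.l).1 e5 (s := V.v (W.io b) * V.v V.l ^ 2) (by nlinarith)
      (k5.trans hs)
    rw [show (V.l : Zw) • (a • T + b • T₁ - T₃) + (V.l : Zw) • T₃ =
      b • (V.l : Zw) • T₁ + a • (V.l : Zw) • T by module, t0, smul_zero, add_zero, k4, k3,
      z1] at k6
    nlinarith [mul_pos (mul_pos b2 q0) (sub_pos.2 r2)]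

theorem CT2_pf (hVGR : VGR_st) (hSIG : SIG_st) (hTAU : TAU_st) (hCT1 : CT1_st) : CT2_st := by
  intro V σ d d' φ φ' s D F h a b k t
  have g := hSIG V σ h.iq.inr
  induction hn : nn a + nn b + nn k using Nat.strong_induction_on generalizing a b k t with
  | _ n ih =>
  intro ht h0 H
  by_cases hp : Ov V a ∧ Ov V b ∧ Ov V k
  · obtain ⟨⟨a, rfl⟩, ⟨b, rfl⟩, k, rfl⟩ := hp.imp (g.ov a).1 (And.imp (g.ov b).1 (g.ov k).1)
    have h1 : (a, b, k) ≠ 0 := fun e => h0 (by simp_all)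
    refine ih _ ?_ a b k _ rfl (max_lt ht g.q1) h1 (div_GCT2 hVGR h ht H)
    have h2 : 0 < nn a + nn b + nn k := by
      by_contra e
      have : ∀ c, nn c = 0 → c = 0 := fun c e => by_contra fun k => (nn_pos k).ne' e
      exact h1 (by rw [this a (by omega), this b (by omega), this k (by omega)]; rfl)
    rw [← hn, nn_mul, nn_mul, nn_mul, ← mul_add, ← mul_add, nn_nat]
    exact (Nat.lt_mul_iff_one_lt_left h2).2 (Nat.one_lt_pow two_ne_zero V.hl.out.one_lt)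
  · exact ⟨a, b, k, t, ht, H, prim_GCT2 hVGR hSIG hTAU h hp (hCT1 _ _ _ _ _ _ _ _ _ h _ _ _ _ ht H)⟩

end Pool.Agent.MP_e23604_nt.Z.G
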