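import Pool.Agent.MP_e23604_nt.Z.GS

set_option autoImplicit false

open Finset QuadraticAlgebra Polynomial
open scoped Classical

namespace Pool.Agent.MP_e23604_nt.Z.G

open B R S W Un

theorem fp_GDEP (x y z u : Qb) : fp x y z u = fp x z y u := by
  have a : fa x y z = fa x z y := by unfold fa; ring
  have b : fb x y z = fb x z y := by unfold fb; rw [a, mul_right_comm]
  unfold fp fc
  rw [a, b, mul_right_comm x, add_right_comm x]

section quot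

variable {A : Type} [AddCommGroup A] {F : A → Qb} {s ρ : A}

/-- admissible classes -/
def O_GDEP (s ρ : A) : Prop :=
  9 • ρ = 0 ∧ 3 • s = 0 ∧ 3 • ρ ≠ 0 ∧ s ≠ 0 ∧ s + 3 • ρ ≠ 0 ∧ s - 3 • ρ ≠ 0

/-- the point as a function of the classes -/
noncomputable def G_GDEP (F : A → Qb) (s ρ : A) : Pt :=
  fp (F s - F (3 • ρ)) (F (s + 3 • ρ) - F (3 • ρ)) (F (s - 3 • ρ) - F (3 • ρ))
    (F ρ - F (3 • ρ) + (F (ρ + 3 • ρ) - F (3 • ρ)) + (F (ρ - 3 • ρ) - F (3 • ρ)))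

theorem neg_GDEP (hF : ∀ a, F (-a) = F a) (h : O_GDEP s ρ) :
    O_GDEP (-s) ρ ∧ G_GDEP F (-s) ρ = G_GDEP F s ρ := by
  have e1 : -s + 3 • ρ = -(s - 3 • ρ) := by abel
  have e2 : -s - 3 • ρ = -(s + 3 • ρ) := by abel
  obtain ⟨a, b, c, d, e, f⟩ := h
  simp only [O_GDEP, G_GDEP, e1, e2, smul_neg, hF, neg_ne_zero, neg_eq_zero]
  exact ⟨⟨a, b, c, d, f, e⟩, fp_GDEP _ _ _ _⟩

theorem two_GDEP (hF : ∀ a, F (-a) = F a) (h : O_GDEP s ρ) :
    O_GDEP s (2 • ρ) ∧ G_GDEP F s (2 • ρ) = G_GDEP F s ρ := by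
  obtain ⟨a, b, c, d, e, f⟩ := h
  have e0 : (3 : ℕ) • (2 : ℕ) • ρ = -((3 : ℕ) • ρ) := by linear_combination (norm := abel) a
  have e1 : F (2 • ρ) = F (ρ - 3 • ρ) := by rw [← hF]; congr 1; abel
  have e2 : F (2 • ρ - 3 • ρ) = F ρ := by rw [← hF]; congr 1; abel
  have e3 : F (2 • ρ + 3 • ρ) = F (ρ + 3 • ρ) := by
    rw [← hF]; congr 1; linear_combination (norm := abel) -a
  simp only [O_GDEP, G_GDEP, e0, ← sub_eq_add_neg, sub_neg_eq_add, hF, neg_ne_zero, e1, e2, e3]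
  refine ⟨⟨by rw [smul_comm, a, smul_zero], b, c, d, f, e⟩, (fp_GDEP _ _ _ _).trans ?_⟩
  congr 1
  ring

theorem pow_GDEP (hF : ∀ a, F (-a) = F a) (h : O_GDEP s ρ) (i : ℕ) :
    O_GDEP s (2 ^ i • ρ) ∧ G_GDEP F s (2 ^ i • ρ) = G_GDEP F s ρ := by
  induction i with
  | zero => simpa using h
  | succ i ih =>
    rw [pow_succ', mul_smul]
    exact ⟨(two_GDEP hF ih.1).1, (two_GDEP hF ih.1).2.trans ih.2⟩

theorem all_GDEP (hF : ∀ a, F (-a) = F a) (h : O_GDEP s ρ) {s' : A} (hs : s' = s ∨ s' = -s) {u : ℤ}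
    (hu : ¬ 3 ∣ u) : O_GDEP s' (u • ρ) ∧ G_GDEP F s' (u • ρ) = G_GDEP F s ρ := by
  obtain ⟨i, m, e⟩ : ∃ (i : ℕ) (m : ℤ), u = (2 ^ i : ℕ) + m * (9 : ℕ) := by
    have : u % 9 = 1 ∨ u % 9 = 2 ∨ u % 9 = 4 ∨ u % 9 = 8 ∨ u % 9 = 7 ∨ u % 9 = 5 := by omega
    rcases this with e | e | e | e | e | e
    exacts [⟨0, u / 9, by omega⟩, ⟨1, u / 9, by omega⟩, ⟨2, u / 9, by omega⟩, ⟨3, u / 9, by omega⟩,
      ⟨4, u / 9 - 1, by omega⟩, ⟨5, u / 9 - 3, by omega⟩]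
  rw [e, add_smul, mul_smul, natCast_zsmul, natCast_zsmul, h.1, smul_zero, add_zero]
  have k := pow_GDEP hF h i
  rcases hs with rfl | rfl
  exacts [k, ⟨(neg_GDEP hF k.1).1, (neg_GDEP hF k.1).2.trans k.2⟩]

end quot

theorem DEP_pf (hVUN : VUN_st) : DEP_st := by
  rintro ⟨C, S, R⟩ S' R' u h hS hu hR
  have hV := (hVUN C).1 h.fin
  let π := QuotientAddGroup.mk' C
  have h0 : ∀ P, π P = 0 ↔ P ∈ C := fun P => QuotientAddGroup.eq_zero_iff P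
  have h1 : ∀ P : Pt, sX C (π P).out = sX C P := fun P => by
    obtain ⟨c, e⟩ := QuotientAddGroup.mk_out_eq_add C P
    exact (congrArg (sX C) e).trans ((hV P).2 c c.2)
  have hO : ∀ S R, DD C S R ↔ O_GDEP (π S) (π R) := fun S R => by
    simp only [O_GDEP, ← map_nsmul, ← map_add, ← map_sub, Ne, h0]
    exact ⟨fun e => ⟨e.r9, e.s3, e.r3, e.s0, e.s1, e.s2⟩,
      fun ⟨a, b, c, d, e, f⟩ => ⟨h.fin, a, b, c, d, e, f⟩⟩
  have hG : ∀ S R, Hp C S R = G_GDEP (fun a => sX C a.out) (π S) (π R) := fun S R => by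
    simp only [G_GDEP, ← map_nsmul, ← map_add, ← map_sub, h1]
    rfl
  have := all_GDEP (F := fun a => sX C a.out) (s' := π S') (fun a => by
    obtain ⟨P, rfl⟩ := QuotientAddGroup.mk'_surjective C a
    rw [← map_neg, h1, h1, (hV P).1]) ((hO S R).1 h) (hS.imp
      (fun e => by rw [← sub_eq_zero, ← map_sub]; exact (h0 _).2 e)
      fun e => by rw [← add_eq_zero_iff_eq_neg, ← map_add]; exact (h0 _).2 e) hu
  rw [← map_zsmul, ← sub_eq_zero.1 ((map_sub π _ _).symm.trans ((h0 _).2 hR)), ← hO, ← hG,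
    ← hG] at this
  exact this

end Pool.Agent.MP_e23604_nt.Z.G
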