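import Pool.Agent.MP_e23604_nt.Z.GS

set_option autoImplicit false

open Finset QuadraticAlgebra Polynomial
open scoped Classical

namespace Pool.Agent.MP_e23604_nt.Z.G

open B R S W Un

theorem alg_GDEU {a c x y z u : Qb} (hc : c ≠ 0) (hD : a ^ 3 - 27 * c ≠ 0)
    (h1 : x + y + z = -a ^ 2 / 3) (h2 : x * y + x * z + y * z = a * c) (h3 : x * y * z = -c ^ 2)
    (h4 : ∀ N D : Qb, N = 3 * u + a ^ 2 → D = a ^ 3 - 27 * c →
      N ^ 3 - 3 * a ^ 2 * N ^ 2 + 3 * a * D * N - D ^ 2 = 0) :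
    ∃ g : Qb, g ≠ 0 ∧ -x / (9 * y * z) = g ^ 2 ∧ Rl (g ^ 2) x y z u (fp x y z u) ∧
      da (fp x y z u) = g * a ∧ dc (fp x y z u) = g ^ 3 * c := by
  obtain ⟨g, rfl⟩ : ∃ g, x = -3 * c * g := ⟨-x / (3 * c), by field_simp⟩
  have hp : 3 * g * (y * z) = c := mul_left_cancel₀ hc (by linear_combination -h3)
  have g0 : g ≠ 0 := fun e => hc (by rw [← hp, e]; ring)
  have p0 : y * z ≠ 0 := fun e => hc (by rw [← hp, e]; ring)
  have hg : 27 * c * g ^ 3 = 3 * a ^ 2 * g ^ 2 - 3 * a * g + 1 :=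
    mul_left_cancel₀ (pow_ne_zero 2 hc) (by
      linear_combination -(3 * c * g) ^ 2 * h1 - 3 * c * g * h2 - h3)
  replace h4 := h4 _ _ rfl rfl
  have N0 : 3 * u + a ^ 2 ≠ 0 := fun e => hD (pow_eq_zero_iff two_ne_zero |>.1 (by
    rw [e] at h4; linear_combination -h4))
  obtain ⟨M, hM⟩ : ∃ M, a ^ 3 - 27 * c = M * (3 * u + a ^ 2) := ⟨_, (div_mul_cancel₀ _ N0).symm⟩
  have hN : 3 * u + a ^ 2 = M ^ 2 - 3 * a * M + 3 * a ^ 2 :=
    mul_left_cancel₀ (pow_ne_zero 2 N0) (by rw [hM] at h4; linear_combination h4)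
  have hX : ((M - a) * g) ^ 3 = -27 * (g ^ 3 * c) := by
    linear_combination -g ^ 3 * hM - g ^ 3 * M * hN
  have hb : (a * c - 3 * y * z) ^ 3 = c ^ 3 * (M * (3 * u + a ^ 2)) :=
    mul_left_cancel₀ (pow_ne_zero 3 g0) (by
      rw [← hM, ← mul_pow, show g * (a * c - 3 * y * z) = c * (a * g - 1) by
        linear_combination -hp]
      linear_combination c ^ 3 * hg)
  have e1 : fc (-3 * c * g) y z u = c * (a - M) := by
    rw [fc, fb, fa, h1, h2, h3, hb, show 3 * -c ^ 2 * (-a ^ 2 / 3 - u) = c ^ 2 * (3 * u + a ^ 2) by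
      ring]
    field_simp
  have p1 : a * c - 3 * y * z - a * c ≠ 0 := fun e => p0 (by linear_combination -e / 3)
  have e2 : fp (-3 * c * g) y z u = pt 0 1 ((M - a) * g) (w3 ^ 2 + (w3 - w3 ^ 2) * a * g) := by
    rw [fp, fm, e1, fb, fa, h2]
    congr 1 <;> rw [div_eq_iff p1]
    · linear_combination (M - a) * hp
    · linear_combination (w3 - w3 ^ 2) * a * hp
  have on : On 0 1 ((M - a) * g) (w3 ^ 2 + (w3 - w3 ^ 2) * a * g) := by
    rw [W.on_iff, hX]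
    linear_combination hg + (w3 ^ 2 - w3 + 1 - (2 * w3 ^ 2 - 4 * w3 + 3) * a * g +
      (w3 ^ 2 - 3 * w3 + 3) * a ^ 2 * g ^ 2) * w3_spec
  have e3 : da (fp (-3 * c * g) y z u) = g * a := by
    rw [da, e2, yc_pt on, div_eq_iff (sub_ne_zero.2 w3_ne_one.symm)]
    linear_combination (w3 + (1 - w3) * a * g) * w3_cube
  have e4 : dc (fp (-3 * c * g) y z u) = g ^ 3 * c := by
    rw [dc, e2, xc_pt on, hX]; ring
  refine ⟨g, g0, ?_, ⟨e2 ▸ pt_ne_zero G01 on, e4 ▸ mul_ne_zero (pow_ne_zero 3 g0) hc, fun e => ?_,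
    pow_ne_zero 2 g0, ?_, ?_, ?_, ?_, ?_⟩, e3, e4⟩
  · rw [div_eq_iff fun e => p0 (by linear_combination e / 9)]
    linear_combination -3 * g * hp
  · rw [e3] at e
    refine mul_ne_zero (pow_ne_zero 3 g0) hD ?_
    linear_combination -hg + (g * a - 1) ^ 2 * e
  · rw [e3, h1]; ring
  · rw [e3, e4, h2]; ring
  · rw [e4, h3]; ring
  · rw [e4]; ring
  · rw [e3, e2, xc_pt on]; linear_combination g ^ 2 * hN

theorem vc_GDEU (E E' : WeierstrassCurve Qb) (C : WeierstrassCurve.VariableChange Qb)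
    (hC : C • E = E') : ∃ Ψ : PW E ≃+ PW E', ∀ P, P ≠ 0 →
      xw (Ψ P) = (xw P - C.r) / (C.u : Qb) ^ 2 ∧
      yw (Ψ P) = (yw P - C.s * (xw P - C.r) - C.t) / (C.u : Qb) ^ 3 := by
  obtain ⟨Ψ, h⟩ := vc_equiv E E' C hC
  refine ⟨Ψ, fun P hP => ?_⟩
  rcases P with _ | ⟨x, y, k⟩
  · exact absurd rfl hP
  · obtain ⟨_, e⟩ := h x y k
    rw [e]
    exact ⟨rfl, rfl⟩

theorem nf_GDEU {E : WeierstrassCurve Qb} {T : PW E} (h0 : T ≠ 0) (h3 : 3 • T = 0) :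
    ∃ s a c : Qb, (⟨1, xw T, s, yw T⟩ : WeierstrassCurve.VariableChange Qb) • E =
      ⟨a, 0, c, 0, 0⟩ := by
  have e : T + T = -T := by
    rw [eq_neg_iff_add_eq_zero, ← h3]; abel
  rcases T with _ | ⟨x, y, k⟩
  · exact absurd rfl h0
  have hy : y ≠ E.toAffine.negY x y := fun e' => h0 (neg_eq_zero.1
    (e ▸ WeierstrassCurve.Affine.Point.add_self_of_Y_eq e'))
  rw [WeierstrassCurve.Affine.Point.add_self_of_Y_ne hy] at e
  have e1 : E.toAffine.addX x x (E.toAffine.slope x x y y) = x := congrArg xw e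
  have e2 := WeierstrassCurve.Affine.slope_of_Y_ne rfl hy
  rw [eq_div_iff (sub_ne_zero.2 hy), WeierstrassCurve.Affine.negY] at e2
  rw [WeierstrassCurve.Affine.addX] at e1
  have e3 := (WeierstrassCurve.Affine.equation_iff ..).1 k.1
  refine ⟨E.toAffine.slope x x y y, _, _, WeierstrassCurve.ext rfl ?_ rfl ?_ ?_⟩ <;>
    simp only [WeierstrassCurve.variableChange_def, xw, yw, inv_one, Units.val_one]
  · linear_combination -e1
  · linear_combination -e2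
  · linear_combination -e3

theorem DEU_pf (hDEU1 : DEU1_st) : DEU_st := by
  intro E S R x y z u hΔ h9 h3 hT hS hp hm hx hy hz hu
  obtain ⟨s, a, c, hC⟩ := nf_GDEU hT (by rw [← mul_nsmul', h9])
  obtain ⟨Ψ, hΨ⟩ := vc_GDEU _ _ _ hC
  simp only [Units.val_one, one_pow, div_one] at hΨ
  have hΔ' : (⟨a, 0, c, 0, 0⟩ : WeierstrassCurve Qb).Δ ≠ 0 := by
    rw [← hC, WeierstrassCurve.variableChange_Δ]
    simpa using hΔ
  have hd : c ^ 3 * (a ^ 3 - 27 * c) ≠ 0 := by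
    convert hΔ' using 1
    simp only [WeierstrassCurve.Δ, WeierstrassCurve.b₂, WeierstrassCurve.b₄, WeierstrassCurve.b₆,
      WeierstrassCurve.b₈]
    ring
  have n0 : ∀ {P}, P ≠ 0 → Ψ P ≠ 0 := fun h => (map_ne_zero_iff Ψ Ψ.injective).2 h
  have hR : R ≠ 0 := fun e => hT (by rw [e, nsmul_zero])
  have hRp : R + 3 • R ≠ 0 := fun e => hR (by
    rw [show R = 9 • R - 2 • (R + 3 • R) by abel, h9, e, nsmul_zero, sub_zero])
  have hRm : R - 3 • R ≠ 0 := fun e => hR (by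
    rw [show R = 9 • R + 4 • (R - 3 • R) by abel, h9, e, nsmul_zero, add_zero])
  have y0 : yw (Ψ (3 • R)) = 0 := by rw [(hΨ _ hT).2]; ring
  have k := hDEU1 a c (Ψ S) (Ψ R) hΔ'
  simp only [← map_nsmul, ← map_add, ← map_sub] at k
  replace k := k (by rw [h9, map_zero]) (by rw [h3, map_zero]) (n0 hT) (n0 hS) (n0 hp) (n0 hm)
    (by rw [(hΨ _ hT).1, sub_self]) y0
  rw [(hΨ _ hS).1, (hΨ _ hp).1, (hΨ _ hm).1, (hΨ _ hR).1, (hΨ _ hRp).1, (hΨ _ hRm).1, ← hx, ← hy,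
    ← hz, ← hu] at k
  obtain ⟨g, g0, hg, hr, ha, hc⟩ := alg_GDEU (fun e => hd (by rw [e]; ring))
    (right_ne_zero_of_mul hd) k.1 k.2.1 k.2.2.1 k.2.2.2
  obtain ⟨Φ, hΦ⟩ := vc_GDEU ⟨a, 0, c, 0, 0⟩ (Wd (fp x y z u)) ⟨(Units.mk0 g g0)⁻¹, 0, 0, 0⟩ (by
    simp [WeierstrassCurve.variableChange_def, Wd, ha, hc])
  rw [hg]
  refine ⟨hr, Ψ.trans Φ, fun P hP => ?_, ?_⟩
  · rw [AddEquiv.trans_apply, (hΦ _ (n0 hP)).1, (hΨ _ hP).1]
    simp [mul_comm]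
  · rw [AddEquiv.trans_apply, (hΦ _ (n0 hT)).2, y0]
    simp

end Pool.Agent.MP_e23604_nt.Z.G
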