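import Pool.Agent.MP_e23604_nt.Z.GS

set_option autoImplicit false

open Finset QuadraticAlgebra Polynomial
open scoped Classical

namespace Pool.Agent.MP_e23604_nt.Z.G

open B R S W Un

section

variable {a c : Qb} (h : (⟨a, 0, c, 0, 0⟩ : WeierstrassCurve Qb).Δ ≠ 0) {P Q : PW ⟨a, 0, c, 0, 0⟩}
include h

theorem add_GDEU1 (hP : P ≠ 0) (hQ : Q ≠ 0) (h1 : P + Q ≠ 0) {u v : Qb}
    (e : (P - Q).xRep = ![u, v]) : ∃ k : Qb, k ≠ 0 ∧
    (xw P * xw Q) ^ 2 - a * c * (xw P * xw Q) - c ^ 2 * (xw P + xw Q) = k * (xw (P + Q) * u) ∧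
    2 * (xw P + xw Q) * (xw P * xw Q) + a ^ 2 * (xw P * xw Q) + a * c * (xw P + xw Q) + c ^ 2 =
      k * (xw (P + Q) * v + u) ∧ (xw P - xw Q) ^ 2 = k * v := by
  have : (⟨a, 0, c, 0, 0⟩ : WeierstrassCurve Qb).IsElliptic := ⟨Ne.isUnit h⟩
  obtain ⟨k, h0, e'⟩ := addSub P Q
  simp only [WeierstrassCurve.Affine.Point.sym2x, xRep_xw hP, xRep_xw hQ, xRep_xw h1, e] at e'
  rw [BDiv_eval] at e'
  have f0 := congrFun e' 0
  have f1 := congrFun e' 1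
  have f2 := congrFun e' 2
  simp [BDivU, BDivV, BDivW, WeierstrassCurve.b₂, WeierstrassCurve.b₄, WeierstrassCurve.b₆,
    WeierstrassCurve.b₈] at f0 f1 f2
  exact ⟨k, h0, by linear_combination f0, by linear_combination f1, by linear_combination f2⟩

theorem tr_GDEU1 (hP : P ≠ 0) (hQ : Q ≠ 0) (h1 : P + Q ≠ 0) (h2 : P - Q ≠ 0) (e : xw Q = 0) :
    xw P ≠ 0 ∧ xw (P + Q) * xw (P - Q) * xw P ^ 2 = -c ^ 2 * xw P ∧
      (xw (P + Q) + xw (P - Q)) * xw P ^ 2 = a * c * xw P + c ^ 2 := by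
  obtain ⟨k, h0, e0, e1, e2⟩ := add_GDEU1 h hP hQ h1 (xRep_xw h2)
  rw [e] at e0 e1 e2
  exact ⟨fun k => h0 (by rw [k] at e2; linear_combination -e2),
    by linear_combination xw (P + Q) * xw (P - Q) * e2 - e0,
    by linear_combination (xw (P + Q) + xw (P - Q)) * e2 - e1⟩

theorem dbl_GDEU1 (hP : P ≠ 0) (h1 : P + P ≠ 0) : xw P ^ 4 - a * c * xw P ^ 2 - 2 * c ^ 2 * xw P =
    xw (P + P) * (4 * xw P ^ 3 + a ^ 2 * xw P ^ 2 + 2 * a * c * xw P + c ^ 2) := by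
  obtain ⟨k, -, e0, e1, -⟩ := add_GDEU1 h hP hP h1 (u := 1) (v := 0) (by rw [sub_self]; rfl)
  linear_combination e0 - xw (P + P) * e1

end

theorem DEU1_pf : DEU1_st := by
  intro a c S R h h9 h3 hT hS h1 h2 x0 _
  obtain ⟨s0, s1, s2⟩ := tr_GDEU1 h hS hT h1 h2 x0
  have s3 : S + S = -S := by linear_combination (norm := abel) h3
  have s4 := dbl_GDEU1 h hS (s3 ▸ neg_ne_zero.2 hS)
  rw [s3, show xw (-S) = xw S by cases S <;> rfl] at s4
  have k0 := pow_ne_zero 2 s0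
  refine ⟨mul_right_cancel₀ (pow_ne_zero 3 s0) (by linear_combination xw S * s2 - s4 / 3),
    mul_right_cancel₀ k0 (by linear_combination xw S * s2 + s1),
    mul_right_cancel₀ k0 (by linear_combination xw S * s1), fun N D hN hD => ?_⟩
  have r0 : R ≠ 0 := fun e => hT (by rw [e, nsmul_zero])
  have r1 : R + 3 • R ≠ 0 := fun e => r0 (by linear_combination (norm := abel) h9 - e - e)
  have r2 : R + R ≠ 0 := fun e => r1 (by linear_combination (norm := abel) e + e)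
  have r3 : R + R + R = 3 • R := by abel
  obtain ⟨t0, -, t2⟩ := tr_GDEU1 h r0 hT r1 (fun e => r2 (by linear_combination (norm := abel) -e)) x0
  have t3 := dbl_GDEU1 h r0 r2
  obtain ⟨k, -, t4, -⟩ := add_GDEU1 h r2 r0 (r3 ▸ hT) (xRep_xw (by rwa [add_sub_cancel_right]))
  rw [r3, x0, zero_mul, mul_zero] at t4
  have t5 : N * xw R ^ 2 = 3 * (xw R ^ 3 + a * c * xw R + c ^ 2) + a ^ 2 * xw R ^ 2 := by
    linear_combination xw R ^ 2 * hN + 3 * t2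
  generalize xw (R + R) = y at t3 t4
  generalize xw R = x at *
  obtain ⟨p, hp⟩ : ∃ p, p = x ^ 4 - a * c * x ^ 2 - 2 * c ^ 2 * x := ⟨_, rfl⟩
  obtain ⟨q, hq⟩ : ∃ q, q = 4 * x ^ 3 + a ^ 2 * x ^ 2 + 2 * a * c * x + c ^ 2 := ⟨_, rfl⟩
  have t6 : (p * x) ^ 2 - a * c * p * x * q - c ^ 2 * (p + q * x) * q = 0 := by
    rw [← hp, ← hq] at t3
    rw [t3]
    linear_combination q ^ 2 * t4
  refine mul_left_cancel₀ (pow_ne_zero 7 t0) ?_
  calc _ = x * ((N * x ^ 2) ^ 3 - 3 * a ^ 2 * (N * x ^ 2) ^ 2 * x ^ 2 +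
        3 * a * D * (N * x ^ 2) * x ^ 4 - D ^ 2 * x ^ 6) := by ring
    _ = _ := by
      rw [t5, hD]
      rw [hp, hq] at t6
      linear_combination 27 * t6

end Pool.Agent.MP_e23604_nt.Z.G
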