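import Pool.Agent.MP_e23604_nt.Z.GS

set_option autoImplicit false

open Finset QuadraticAlgebra Polynomial
open scoped Classical

namespace Pool.Agent.MP_e23604_nt.Z.G

open B R S W Un

theorem DXE_pf (hGH : GH_st) (hVGR : VGR_st) : DXE_st := by
  refine fun V => ⟨fun d d' s h h' v2 s1 hs => ?_, fun σ h => ?_⟩
  · have n3 := h.fg.n3
    have s0 := (zs_nonneg V _).trans hs
    have e := (gw_EQ n3).zs_lt.1 (hs.trans_lt s1)
    obtain ⟨-, -, -, -, -, -, -, x1, -, g1, -⟩ := hVGR V d h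
    obtain ⟨-, -, -, -, -, -, n2, x2, -, g2, -⟩ := hVGR V d' h'
    obtain ⟨-, -, a, b⟩ := EXP_ok V _ _ n2 e
    rw [zs_of e] at hs
    rw [add_sub_cancel, V.v.map_sub] at a b
    have w1 : V.v (1 - w3) = 1 := by
      have := not_Ov.1 fun k => n3 (Ov_three.2 k)
      rwa [io_pw, show 1 + 2 * w3 = w3 * (1 - w3) by linear_combination w3_spec, map_mul, v_w3,
        one_mul] at this
    refine ⟨a.trans hs, b.trans hs, hGH V _ _ 1 s g1 g2 v2
      ⟨one_pos, s0, s1, fun x y _ _ => by simpa using s0⟩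
      ⟨?_, by simpa [Wd] using s0, ?_, by simpa [Wd] using s0, by simpa [Wd] using s0⟩⟩
    · change V.v (da _ - da _ ^ 1) ≤ s
      rw [pow_one, da, da, ← sub_div, sub_sub_sub_cancel_right, ← mul_sub, map_div₀, w1, div_one,
        map_mul, map_pow, v_w3, one_pow, one_mul]
      exact b.trans hs
    · change V.v (dc _ - dc _ ^ 1) ≤ s
      rw [show dc d'.pt - dc d.pt ^ 1 = -((xc d'.pt * xc d'.pt + xc d'.pt * xc d.pt +
        xc d.pt * xc d.pt) * (xc d'.pt - xc d.pt)) / 3 ^ 3 by unfold dc; ring, map_div₀, map_pow,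
        v_three n3, one_pow, div_one, V.v.map_neg]
      exact (bLocA_mul_le (bLocA_add_le V.na (bLocA_add_le V.na (bLocA_mul_one x2.le x2.le)
        (bLocA_mul_one x2.le x1.le)) (bLocA_mul_one x1.le x1.le))).trans (a.trans hs)
  · have hp : V.l.Prime := V.hl.out
    have n3 : ¬ Ov V 3 := NC.not_Ov_nat (n := 3) fun k => by
      have := h.inr.l3
      rw [(Nat.prime_dvd_prime_iff_eq hp Nat.prime_three).1 k] at this
      omega
    have v2 : V.v 2 = 1 := by
      simpa [map_ofNat] using not_Ov.1 (NC.not_Ov_nat (n := 2) fun k =>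
        h.n2 ((Nat.prime_dvd_prime_iff_eq hp Nat.prime_two).1 k))
    refine ⟨v2, hGH V _ _ _ _ (gw_EQ n3) (gw_EQ n3) v2
      ⟨hp.pos, V.v.nonneg _, by simpa [Ov] using Ov_l V, fun x y hx hy => ?_⟩
      (by simp [Cw, E3, WeierstrassCurve.baseChange, hp.ne_zero])⟩
    obtain ⟨r, hr⟩ := exists_add_pow_prime_eq hp (⟨x, hx⟩ : BDivO V.v V.na) ⟨y, hy⟩
    have := congrArg Subtype.val hr
    push_cast at this
    rw [this, show x ^ V.l + y ^ V.l + V.l * x * y * r - x ^ V.l - y ^ V.l = x * y * r * V.l by ring]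
    exact bLocA_mul_le (bLocA_mul_one (bLocA_mul_one hx hy) r.2)

end Pool.Agent.MP_e23604_nt.Z.G
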