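import Pool.Agent.MP_e23604_nt.Z.GS

set_option autoImplicit false

open Finset QuadraticAlgebra Polynomial
open scoped Classical

namespace Pool.Agent.MP_e23604_nt.Z.G

open B R S W Un

theorem deg_GEG1 {p s d w : Qb[X]} {n : ℕ} (hp : p.Monic) (e : p.natDegree = n + 1)
    (hs : s.natDegree ≤ n) (hd : d.natDegree ≤ n) (hw : w.natDegree ≤ n) (z : Qb) :
    (p * p - s * w - C z * (s * p + s * p + w * w) + C (z ^ 2) * (d * d)).Monic ∧
    (p * p - s * w - C z * (s * p + s * p + w * w) + C (z ^ 2) * (d * d)).natDegree =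
      2 * (n + 1) := by
  have a : (p * p).natDegree = 2 * (n + 1) := by rw [hp.natDegree_mul hp, e, two_mul]
  have b1 := natDegree_mul_le_of_le hs e.le
  have b : (C (z ^ 2) * (d * d) - s * w - C z * (s * p + s * p + w * w)).natDegree <
      (p * p).natDegree := by
    refine (natDegree_sub_le_of_le (natDegree_sub_le_of_le ((natDegree_C_mul_le _ _).trans
      (natDegree_mul_le_of_le hd hd)) (natDegree_mul_le_of_le hs hw))
      ((natDegree_C_mul_le _ _).trans (natDegree_add_le_of_le (natDegree_add_le_of_le b1 b1)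
        (natDegree_mul_le_of_le hw hw)))).trans_lt ?_
    omega
  rw [show p * p - s * w - C z * (s * p + s * p + w * w) + C (z ^ 2) * (d * d) =
    p * p + (C (z ^ 2) * (d * d) - s * w - C z * (s * p + s * p + w * w)) by ring]
  exact ⟨(hp.mul hp).add_of_left (degree_lt_degree b),
    (natDegree_add_eq_left_of_natDegree_lt b).trans a⟩

theorem sub_GEG1 {V : Plc} {a b c d : Qb} (h : NC.Cg V a b) (h' : NC.Cg V c d) :
    NC.Cg V (a - c) (b - d) := by
  simpa only [neg_one_mul, ← sub_eq_add_neg] using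
    h.add ((NC.Cg.rfl' (a := -1) (by simp)).mul h')

theorem EG1_pf (hLAG : LAG_st) (hPARW : PARW_st) (hPIK : PIK_st) (hSIG : SIG_st) : EG1_st := by
  intro V σ a b hI ha hb
  have g := hSIG V σ hI
  have hq := V.hl.out.pos
  obtain ⟨hx, -, hR⟩ := (hPIK V).2 g.n3
  obtain ⟨A₁, B₁, r₁, a₁, b₁, n₁⟩ := hR a ha
  obtain ⟨A₂, B₂, r₂, a₂, b₂, n₂⟩ := hR b hb
  have L := (hLAG V).2
  have ex : ∀ f, Bd V f 1 → Bd V (expand Qb V.l f) 1 := fun f h i => by
    rw [coeff_expand hq]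
    split_ifs
    exacts [h _, by simp]
  have op : ∀ {f h}, Bd V f 1 → Bd V h 1 → Bd V (f * h) 1 ∧ Bd V (f + h) 1 ∧ Bd V (f - h) 1 :=
    fun {f h} x y => by simpa only [mul_one, max_self] using (L f 1).2.2.2 h 1 x y
  have a₃ := ex _ a₂
  have b₃ := ex _ b₂
  have hp := (op a₁ a₃).1
  have hw := (op b₁ b₃).1
  obtain ⟨-, hs, hd⟩ := op (op a₁ b₃).1 (op a₃ b₁).1
  refine ⟨_, _, _, (op (op hp hp).1 (op hs hw).1).2.2,
    (op (op (op hs hp).1 (op hs hp).1).2.1 (op hw hw).1).2.1, (op hd hd).1, fun z => ?_,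
    fun P hP h0 => ?_⟩
  · obtain ⟨i, hi⟩ := Nat.exists_eq_add_one_of_ne_zero (nn_pos ha).ne'
    obtain ⟨j, hj⟩ := Nat.exists_eq_add_one_of_ne_zero (nn_pos hb).ne'
    have d₁ := r₁.dA
    have d₂ := r₁.dB
    have d₃ := natDegree_expand V.l A₂
    have d₄ := natDegree_expand V.l B₂
    rw [r₂.dA, hj, add_mul, one_mul] at d₃
    rw [r₂.dB, hj, Nat.add_sub_cancel] at d₄
    have m := r₂.mon.expand hq
    have c₁ := natDegree_mul_le (p := A₁) (q := expand Qb V.l B₂)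
    have c₂ := natDegree_mul_le (p := expand Qb V.l A₂) (q := B₁)
    have c₃ := natDegree_mul_le (p := B₁) (q := expand Qb V.l B₂)
    rw [show nq V a b = i + (j * V.l + V.l) + 1 by rw [nq, hi, hj]; ring]
    exact deg_GEG1 (r₁.mon.mul m) (by rw [r₁.mon.natDegree_mul m]; omega)
      ((natDegree_add_le _ _).trans (by omega)) ((natDegree_sub_le _ _).trans (by omega))
      (by omega) z
  have hP' := (g.tt P hP).1
  have h0' := mt (gal_ne σ).1 h0
  have x1 := (hx P hP h0).1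
  have x2 := (hx _ hP' h0').1
  have cg : ∀ f, Bd V f 1 →
      NC.Cg V ((expand Qb V.l f).eval (xc P)) (f.eval (xc (gal σ P))) := fun f h => by
    have := (L f 1).2.2.1 h _ x2
    refine NC.Cg.symm ⟨this.1, ((L _ 1).2.2.1 (ex f h) _ x1).1, ?_⟩
    rw [expand_eval]
    refine (this.2 _ (by rw [map_pow]; exact pow_le_one₀ (V.v.nonneg _) x1)).trans_lt ?_
    rw [one_mul, (xc_gal σ P).1]
    exact g.fr _ x1
  have u₁ := NC.Cg.rfl' ((L _ 1).2.2.1 a₁ _ x1).1
  have v₁ := NC.Cg.rfl' ((L _ 1).2.2.1 b₁ _ x1).1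
  have u₂ := cg _ a₂
  have v₂ := cg _ b₂
  have cp := u₁.mul u₂
  have cw := v₁.mul v₂
  have cs := (u₁.mul v₂).add (u₂.mul v₁)
  have cd := sub_GEG1 (u₁.mul v₂) (u₂.mul v₁)
  obtain ⟨k₁, k₂⟩ := (hPARW V EQ (gw_EQ g.n3)).2.2.2.2 _ _ _ _ _ _
    (n₁ P fun e => h0 (TT_E1 hP e)) (n₂ _ fun e => h0' (TT_E1 hP' e))
  have z0 : zs V (0 : PW EQ) = 0 := by
    rw [zs_of (show E1 V.v (0 : PW EQ) from trivial), zz_zero, map_zero]
  simp only [be_apply, neg_smul, ← sub_eq_add_neg, eval_add, eval_sub, eval_mul, eval_C]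
  refine ⟨fun e => ?_, fun Q hQ q0 e => ?_⟩
  · rw [e, z0, mul_zero, map_eq_zero] at k₁
    simpa only [k₁, mul_zero, sub_zero] using (cd.mul cd).2.2
  · have k₃ := k₂ Q _ _ (Nr.int fun e => q0 (TT_E1 hQ e))
    have cz := NC.Cg.rfl' (hx Q hQ q0).1
    have k₄ : z4 V (E := EQ) (a • P) (b • gal σ P) Q = 0 := by
      rcases e with e | e <;> simp only [z4, e, sub_self, z0, mul_zero, zero_mul]
    have k₅ := ((sub_GEG1 (sub_GEG1 (cp.mul cp) (cs.mul cw))
      (cz.mul (((cs.mul cp).add (cs.mul cp)).add (cw.mul cw)))).add ((cz.pow 2).mul (cd.mul cd))).2.2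
    rw [k₄, map_eq_zero, xw_xc] at k₃
    simp [s3, E3, WeierstrassCurve.baseChange, WeierstrassCurve.b₂, WeierstrassCurve.b₄,
      WeierstrassCurve.b₆, WeierstrassCurve.b₈] at k₃
    convert k₅ using 2
    linear_combination k₃

end Pool.Agent.MP_e23604_nt.Z.G
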