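import Pool.Agent.MP_e23604_nt.Z.GS

set_option autoImplicit false

open Finset QuadraticAlgebra Polynomial
open scoped Classical

namespace Pool.Agent.MP_e23604_nt.Z.G

open B R S W Un

theorem EX_pf (hVUN : VUN_st) (hDEP : DEP_st) (hSCL : SCL_st) (hCGP : CGP_st) (hSIG : SIG_st) (hKERN : KERN_st) (hISA : ISA_st) (hEXG : EXG_st) (hEXT : EXT_st) (hDXE : DXE_st) : EX_st := by
  intro V σ d d' a b k hq t t' hk hi
  have sg := hSIG V σ hq.inr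
  obtain ⟨ha, hker, -⟩ := (hISA V σ hq.inr d d' a b k).2.2.2 t t' hk hi
  obtain ⟨S, hS⟩ := smul_onto (ne_of_not_Ov hk) d.S
  obtain ⟨R, hR⟩ := smul_onto (ne_of_not_Ov hk) d.R
  obtain ⟨o₁, p₁⟩ := hSCL d k S R t.ok (ne_of_not_Ov hk) hS hR
  obtain ⟨n, hn, hn'⟩ := hi.hR
  obtain ⟨o₂, p₂⟩ := hDEP d' _ _ n t'.ok (hi.hS S hS) hn (hn' R hR)
  rw [show qC k d.C = pb V σ a b d'.C from AddSubgroup.ext fun P =>
    ⟨fun h => ⟨TT_of hk (t.le h), hi.ker P h⟩, fun h => hker P h.1 h.2⟩] at o₁ p₁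
  rw [← p₁, ← p₂]
  by_cases hb : b = 0
  · have e : ∀ P, a • P = be σ a b P := fun P => by rw [be_apply, hb, zero_smul, add_zero]
    rw [show pb V σ a b d'.C = qC a d'.C from AddSubgroup.ext fun P =>
      ⟨fun h => mem_qC.2 (e P ▸ h.2), fun h => ⟨TT_of ha (t'.le h),
        show be σ a b P ∈ d'.C from e P ▸ mem_qC.1 h⟩⟩,
      (hSCL _ a S R o₂ (ne_of_not_Ov ha) (e S) (e R)).2, sub_self]
    exact ⟨trivial, fun _ => rfl⟩
  refine ⟨?_, fun e => absurd e hb⟩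
  obtain ⟨u, r, B, hB, hu, hr, hg⟩ := hEXG V σ a b hq ha hb
  have hx := hEXT V _ (be σ a b) u r B sg.n3 ((hDXE V).2 σ hq).1
    (hKERN V σ a b ⊥ hq.inr ha (by simp) bot_le).1 inf_le_left
    (fun P hP => ⟨sg.bt a b P hP, fun h => ⟨hP, h⟩, fun h => h.2⟩) hB hu hr hg
  choose! p hp hp' using sg.su a b ha
  have key : ∀ P ∈ TT V, P ∉ pb V σ a b d'.C → V.v (sX (pb V σ a b d'.C) P -
      (u * sX d'.C (be σ a b P) + ∑ _ ∈ els d'.C, r)) < 1 := fun P hP h => by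
    rw [(hKERN V σ a b d'.C hq.inr ha t'.ok.fin t'.le).2.2 p
      (fun c hc => ⟨hp c (t'.le hc), hp' c (t'.le hc)⟩), sX.eq_1 d'.C, mul_sum, ← sum_add_distrib,
      ← sum_sub_distrib]
    refine sum_induction _ (V.v · < 1) (fun _ _ => bLocA_add_lt V.na) (by simp) fun c hc => ?_
    have hc := (mem_els t'.ok.fin).1 hc
    have e : be σ a b (P + p c) = be σ a b P + c := by rw [map_add, hp' c (t'.le hc)]
    exact e ▸ hx _ (add_mem hP (hp c (t'.le hc))) fun h' => h ⟨hP, (d'.C.add_mem_cancel_right hc).1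
      (e.symm.trans h'.2 ▸ d'.C.zero_mem)⟩
  have t₁ : Lv.Tm ⟨pb V σ a b d'.C, S, R⟩ V := ⟨o₁, t.n3, inf_le_left⟩
  have ky : ∀ P ∈ TT V, P ∉ pb V σ a b d'.C → V.v (vX (pb V σ a b d'.C) (3 • R) P -
      u * vX d'.C (3 • be σ a b R) (be σ a b P)) < 1 := fun P hP h => by
    refine (congrArg _ ?_).trans_lt (bLocA_sub_lt V.na (key P hP h) (key (3 • R) t₁.T o₁.r3))
    rw [vX_eq, vX_eq, map_nsmul]
    ring
  have r0 : ∀ i : ℤ, ∀ P, R = (9 • R : Pt) + i • P → P ∉ pb V σ a b d'.C := fun i P e h =>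
    o₁.r3 (nsmul_mem (e ▸ add_mem o₁.r9 (zsmul_mem h i)) 3)
  refine hCGP V _ _ u t₁.gd (Lv.Tm.gd ⟨o₂, t.n3, t'.le⟩) hu (ky S t₁.S o₁.s0) ?_ ?_ ?_
  · simpa only [Lv.x2, Lv.T, map_add, map_nsmul] using ky _ (add_mem t₁.S t₁.T) o₁.s1
  · simpa only [Lv.x3, Lv.T, map_sub, map_nsmul] using ky _ (sub_mem t₁.S t₁.T) o₁.s2
  · refine (congrArg _ ?_).trans_lt (bLocA_add_lt V.na (bLocA_add_lt V.na
      (ky R t₁.R (r0 (-8) _ (by abel))) (ky _ (add_mem t₁.R t₁.T) (r0 (-2) (R + 3 • R) (by abel))))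
      (ky _ (sub_mem t₁.R t₁.T) (r0 4 (R - 3 • R) (by abel))))
    simp only [Lv.x4, Lv.T, map_add, map_sub, map_nsmul]
    ring

end Pool.Agent.MP_e23604_nt.Z.G
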