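import Pool.Agent.MP_e23604_nt.Z.GS

set_option autoImplicit false

open Finset QuadraticAlgebra Polynomial
open scoped Classical

namespace Pool.Agent.MP_e23604_nt.Z.G

open B R S W Un

theorem lag_GEXG (hLAG : LAG_st) (V : Plc) {ι : Type} {s : Finset ι} (hs : s.Nonempty) (x : ι → Qb)
    {H : Qb[X]} (hm : H.Monic) (hd : H.natDegree = s.card)
    (h1 : ∀ i ∈ s, V.v (x i) ≤ 1 ∧ V.v (H.eval (x i)) < 1)
    (h2 : ∀ i ∈ s, ∀ j ∈ s, i ≠ j → V.v (x i - x j) = 1) {y : Qb} (hy : V.v y ≤ 1) :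
    V.v (H.eval y - ∏ i ∈ s, (y - x i)) < 1 := by
  obtain ⟨i₀, hi, e⟩ := s.exists_max_image (fun i => V.v (H.eval (x i))) hs
  have m := monic_prod_X_sub_C x s
  have ev : ∀ y, (H - ∏ i ∈ s, (X - C (x i))).eval y = H.eval y - ∏ i ∈ s, (y - x i) := by
    simp [eval_prod]
  obtain ⟨k1, -, k2, -⟩ := (hLAG V).2 (H - ∏ i ∈ s, (X - C (x i))) (V.v (H.eval (x i₀)))
  refine (ev y ▸ (k2 (k1 (s.image x) ?_ ?_ ?_) y hy).1).trans_lt (h1 i₀ hi).2
  · rw [card_image_of_injOn fun i a j b e => by_contra fun n => by simpa [e] using h2 i a j b n]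
    by_cases z : H - ∏ i ∈ s, (X - C (x i)) = 0
    · rw [z, natDegree_zero]
      exact hs.card_pos
    · exact hd ▸ natDegree_lt_natDegree z (degree_sub_lt_left (by
        rw [degree_eq_natDegree hm.ne_zero, degree_eq_natDegree m.ne_zero, hd,
          natDegree_finsetProd_X_sub_C_eq_card]) hm.ne_zero (hm.trans m.symm))
  · refine forall_mem_image.2 fun i a => ⟨(h1 i a).1, ?_⟩
    rw [ev, prod_eq_zero a (sub_self _), sub_zero]
    exact e i a
  · exact forall_mem_image.2 fun i a => forall_mem_image.2 fun j b n =>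
      h2 i a j b fun e => n (e ▸ rfl)

theorem gam_GEXG (hVPF : VPF_st) {K : AddSubgroup Pt} (f : (K : Set Pt).Finite) {c₀ P Q : Pt}
    (h : c₀ ∈ K) (h0 : c₀ ≠ 0) (hP : P ∉ K) (hQ : Q ∉ K) :
    ∏ c ∈ els K, (xc c₀ - xc (P + c)) = ∏ c ∈ els K, (xc c₀ - xc (Q + c)) := by
  have e := eq_of_infinite_eval_eq
    (∏ c ∈ els K, (X - C (xc (P + c))) - ∏ c ∈ els K, (X - C (xc (Q + c))))
    (C (sX K Q - sX K P) * ∏ c ∈ (els K).erase 0, (X - C (xc c)))
    ((f.image xc).infinite_compl.mono fun x hx => by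
      obtain ⟨T, -, rfl⟩ := ex_pt x
      have hT : T ∉ K := fun e => hx ⟨T, e, rfl⟩
      simp only [Set.mem_ofPred_eq, eval_sub, eval_mul, eval_prod, eval_X, eval_C, hVPF K T P f hT hP,
        hVPF K T Q f hT hQ, Un.kk]
      ring)
  have := congrArg (eval (xc c₀)) e
  simp only [eval_sub, eval_mul, eval_prod, eval_X, eval_C] at this
  rwa [prod_eq_zero (mem_erase.2 ⟨h0, (mem_els f).2 h⟩) (sub_self _), mul_zero, sub_eq_zero] at this

theorem two_GEXG {σ : GQ} (h : σ ∉ GK) (a b : Zw) (Z : Pt) :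
    (be σ a b Z = be σ a (-b) Z → (2 * star b) • Z = 0) ∧
      (be σ a b Z = -be σ a (-b) Z → (2 * a) • Z = 0) := by
  simp only [be_apply, neg_smul, two_mul, add_smul]
  refine ⟨fun e => ?_, fun e => by linear_combination (norm := abel1) e⟩
  rw [← gal_ne σ, map_add, gal_star h, star_star]
  linear_combination (norm := abel1) e

theorem EXG_pf (hLAG : LAG_st) (hPIK : PIK_st) (hVPF : VPF_st) (hVUN : VUN_st) (hSIG : SIG_st)
    (hKER0 : KER0_st) (hEG1 : EG1_st) : EXG_st := by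
  intro V σ a b hI ha hb
  have S := hSIG V σ hI.inr
  obtain ⟨f1, c1⟩ := hKER0 V σ a b hI.inr ha
  obtain ⟨f2, c2⟩ := hKER0 V σ a (-b) hI.inr ha
  obtain ⟨E₀, E₁, E₂, b0, b1, -, hH, hE⟩ := hEG1 V σ a b hI.inr (ne_of_not_Ov ha) hb
  obtain ⟨pa, pb', -⟩ := (hPIK V).2 S.n3
  have nq' : nq V a (-b) = nq V a b := by rw [nq, nn_neg, nq]
  have m1 : ∀ {P}, P ∈ pb V σ a b ⊥ ↔ P ∈ TT V ∧ be σ a b P = 0 := Iff.rfl
  have m2 : ∀ {P}, P ∈ pb V σ a (-b) ⊥ ↔ P ∈ TT V ∧ be σ a (-b) P = 0 := Iff.rfl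
  generalize pb V σ a b ⊥ = K at *
  generalize pb V σ a (-b) ⊥ = K' at *
  have sb : 2 * star b ≠ 0 := mul_ne_zero two_ne_zero (star_ne_zero.2 hb)
  have M0 : 2 * star b * a * nq V a b ≠ 0 := mul_ne_zero (mul_ne_zero sb (ne_of_not_Ov ha))
    (ne_of_not_Ov fun e => ha ((S.on a b).1 e))
  obtain ⟨c₀, hc, hc'⟩ : ∃ c ∈ K', c ∉ K := by
    by_contra! e
    have := card_le_card (t := tor (2 * star b)) fun c hc => (mem_tor sb).2
      ((two_GEXG S.nk a b c).1 ((m1.1 (e c ((mem_els f2).1 hc))).2.trans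
        (m2.1 ((mem_els f2).1 hc)).2.symm))
    rw [CARD_ok _ sb, nn_mul, nn_star, nn_two, ← cd, c2, nq', nq] at this
    have h5 : 5 ≤ V.l := by have := hI.inr.l3; have := hI.n2; omega
    nlinarith [nn_pos hb]
  have c0 : c₀ ≠ 0 := fun e => hc' (e ▸ K.zero_mem)
  have ct := (m2.1 hc).1
  have x0 := (pa c₀ ct c0).1
  have fr : ∀ {P}, P ∈ TT V → P ∉ K → _ := fun {P} h h' =>
    ((hVUN K).2 V ⟨f1, S.n3, fun c hc => TT_E1 (m1.1 hc).1⟩ P).2.2.2
      (((hVUN K).2 V ⟨f1, S.n3, fun c hc => TT_E1 (m1.1 hc).1⟩ P).2.1 (fun _ h => (m1.1 h).1) h h')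
  have fr' : ∀ {P}, P ∈ TT V → P ∉ K → Fr V K P := fun {P} h h' =>
    ((hVUN K).2 V ⟨f1, S.n3, fun c hc => TT_E1 (m1.1 hc).1⟩ P).2.1 (fun _ h => (m1.1 h).1) h h'
  have pk : ∀ B : Set Pt, B.Finite → ∃ P ∈ TT V, P ∉ B := fun B hB => by
    obtain ⟨X, h1, h2⟩ := pb' B 0 hB
    obtain ⟨P, hP⟩ := card_pos.1 h1
    exact ⟨P, (h2 P hP).1, (h2 P hP).2.1⟩
  obtain ⟨P₀, t0, n0⟩ := pk K' f2
  have vγ : V.v (∏ c ∈ els K', (xc c₀ - xc (P₀ + c))) = 1 := by
    rw [map_prod]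
    refine prod_eq_one fun c h => ?_
    have h := (mem_els f2).1 h
    have k : P₀ + c ∉ K' := fun e => n0 ((K'.add_mem_cancel_right h).1 e)
    exact (pa c₀ ct c0).2 _ (add_mem t0 (m2.1 h).1) (fun e => k (e ▸ K'.zero_mem))
      (fun e => k (e ▸ hc)) fun e => k (neg_mem_iff.1 (e ▸ hc))
  obtain ⟨w, hw⟩ : ∃ w, w = Un.kk K (xc c₀) * ∏ c ∈ els K', (xc c₀ - xc (P₀ + c)) := ⟨_, rfl⟩
  have vw : V.v w = 1 := by rw [hw, map_mul, (fr ct hc').2.2.1, vγ, one_mul]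
  have w0 : w ≠ 0 := fun e => by simp [e] at vw
  have key : ∀ P ∈ TT V, P ∉ {P : Pt | (2 * star b * a * nq V a b) • P = 0} → P ∉ K ∧
      V.v (xc (be σ a b P)) ≤ 1 ∧ V.v (sX K P - (E₁.eval (xc c₀) / w * xc (be σ a b P) +
        (sX K c₀ - E₀.eval (xc c₀) / w))) < 1 := fun P t hP => by
    have g1 : ∀ Z ∈ TT V, be σ a b Z = be σ a b P → (2 * star b * a) • Z ≠ 0 := fun Z h e z =>
      hP (show _ = _ by
        rw [mul_smul, ← (S.ad a b P t).1, ← e, (S.ad a b Z h).1, smul_comm, z, smul_zero])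
    have g2 : be σ a b P ≠ -be σ a b P := fun e => hP (show _ = _ by
      have := congrArg (be σ (star a) (-b)) e
      rw [map_neg, (S.ad a b P t).1, eq_neg_iff_add_eq_zero, ← two_smul Zw, smul_smul] at this
      exact dvd_smul this ⟨star b * a, by ring⟩)
    have g3 : be σ a b P ≠ 0 := fun e => g2 (by rw [e, neg_zero])
    have tQ := S.bt a b P t
    obtain ⟨P', t', e'⟩ := S.su a (-b) ha _ tQ
    have nP : P ∉ K := fun e => g3 (m1.1 e).2
    have xQ := (pa _ tQ g3).1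
    obtain ⟨z, hz⟩ : ∃ z : Pt ⊕ Pt → Pt, z = Sum.elim (P + ·) (P' + ·) := ⟨_, rfl⟩
    have zl : ∀ c ∈ els K, z (.inl c) ∈ TT V ∧ be σ a b (z (.inl c)) = be σ a b P := fun c h => by
      have h := m1.1 ((mem_els f1).1 h)
      rw [hz, Sum.elim_inl, map_add, h.2, add_zero]
      exact ⟨add_mem t h.1, rfl⟩
    have zr : ∀ c ∈ els K', z (.inr c) ∈ TT V ∧ be σ a (-b) (z (.inr c)) = be σ a b P :=
      fun c h => by
        have h := m2.1 ((mem_els f2).1 h)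
        rw [hz, Sum.elim_inr, map_add, h.2, add_zero]
        exact ⟨add_mem t' h.1, e'⟩
    have z1 : ∀ i ∈ (els K).disjSum (els K'), z i ∈ TT V ∧
        (be σ a b (z i) = be σ a b P ∨ be σ a (-b) (z i) = be σ a b P) := by
      rintro (c | c) h
      exacts [(zl c (inl_mem_disjSum.1 h)).imp_right .inl,
        (zr c (inr_mem_disjSum.1 h)).imp_right .inr]
    have z0 : ∀ i ∈ (els K).disjSum (els K'), z i ≠ 0 := fun i h e =>
      (z1 i h).2.elim (fun k => g3 (by rw [← k, e, map_zero])) fun k => g3 (by rw [← k, e, map_zero])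
    have mx : ∀ c ∈ els K, ∀ c' ∈ els K', z (.inl c) ≠ z (.inr c') ∧ z (.inl c) ≠ -z (.inr c') :=
      fun c h c' h' => ⟨fun e => g1 _ (zl c h).1 (zl c h).2 (dvd_smul ((two_GEXG S.nk a b _).1
        (by rw [(zl c h).2, e, (zr c' h').2])) ⟨a, rfl⟩), fun e => g1 _ (zl c h).1 (zl c h).2
          (dvd_smul ((two_GEXG S.nk a b _).2 (by rw [(zl c h).2, e, map_neg, (zr c' h').2, neg_neg]))
            ⟨star b, by ring⟩)⟩
    have z2 : ∀ i ∈ (els K).disjSum (els K'), ∀ j ∈ (els K).disjSum (els K'), i ≠ j →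
        z i ≠ z j ∧ z i ≠ -z j := by
      rintro (c | c) h (c' | c') h' n <;> simp only [inl_mem_disjSum, inr_mem_disjSum] at h h'
      · exact ⟨fun e => n (congrArg _ (by simpa [hz] using e)), fun e =>
          g2 (by rw [← (zl c' h').2, ← map_neg, ← e, (zl c h).2, (zl c' h').2])⟩
      · exact mx c h c' h'
      · exact ⟨(mx c' h' c h).1.symm, fun e => (mx c' h' c h).2 (by rw [e, neg_neg])⟩
      · exact ⟨fun e => n (congrArg _ (by simpa [hz] using e)), fun e =>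
          g2 (by rw [← (zr c' h').2, ← map_neg, ← e, (zr c h).2, (zr c' h').2])⟩
    have := lag_GEXG hLAG V (s := (els K).disjSum (els K'))
      ⟨_, inr_mem_disjSum.2 ((mem_els f2).2 hc)⟩ (fun i => xc (z i)) (hH (xc (be σ a b P))).1
      (by rw [(hH _).2, card_disjSum, ← cd, ← cd, c1, c2, nq', two_mul])
      (fun i h => ⟨(pa _ (z1 i h).1 (z0 i h)).1,
        (hE _ (z1 i h).1 (z0 i h)).2 _ tQ g3 (z1 i h).2⟩)
      (fun i h j h' n => (pa _ (z1 i h).1 (z0 i h)).2 _ (z1 j h').1 (z0 j h') (z2 i h j h' n).1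
        (z2 i h j h' n).2) x0
    rw [prod_disjSum, hz] at this
    simp only [Sum.elim_inl, Sum.elim_inr, eval_add, eval_sub, eval_mul, eval_C] at this
    rw [hVPF K c₀ P f1 hc' nP, gam_GEXG hVPF f2 hc c0 (fun e => g3 (e' ▸ (m2.1 e).2)) n0,
      mul_assoc, ← hw] at this
    have k := bLocA_sub_lt V.na this ((bLocA_mul_le (a := xc (be σ a b P) ^ 2) (by
      rw [map_pow]; exact pow_le_one₀ (V.v.nonneg _) xQ)).trans_lt ((hE c₀ ct c0).1 (m2.1 hc).2))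
    refine ⟨nP, xQ, ?_⟩
    rw [← mul_one (V.v _), ← vw, ← map_mul]
    convert k using 2
    field_simp
    ring
  have vd : ∀ E : Qb[X], Bd V E 1 → V.v (E.eval (xc c₀) / w) ≤ 1 := fun E h => by
    rw [map_div₀, vw, div_one]
    exact (((hLAG V).2 E 1).2.2.1 h _ x0).1
  refine ⟨_, _, _, fin_tor M0, le_antisymm (vd _ b1) (not_lt.1 fun u1 => ?_),
    bLocA_sub_le V.na (fr ct hc').2.1 (vd _ b0), fun P t h => (key P t h).2.2⟩
  obtain ⟨P, t, h⟩ := pk _ (fin_tor M0)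
  obtain ⟨Q, t', h'⟩ := pk _ ((fin_tor M0).union ((f1.image (P - ·)).union (f1.image (· - P))))
  simp only [Set.mem_union, not_or] at h'
  have sm : ∀ P ∈ TT V, P ∉ {P : Pt | (2 * star b * a * nq V a b) • P = 0} →
      V.v (sX K P - (sX K c₀ - E₀.eval (xc c₀) / w)) < 1 := fun P t h => by
    convert bLocA_add_lt V.na (key P t h).2.2 ((bLocA_mul_le (key P t h).2.1).trans_lt u1) using 2
    ring
  have := (fr t (key P t h).1).2.2.2.2 Q (fr' t' (key Q t' h'.1).1)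
    (fr' (sub_mem t t') fun e => h'.2.1 ⟨_, e, sub_sub_cancel _ _⟩)
    (fr' (add_mem t t') fun e => h'.2.2 ⟨_, e, add_sub_cancel_left _ _⟩)
  have k := bLocA_sub_lt V.na (sm P t h) (sm Q t' h'.1)
  rw [sub_sub_sub_cancel_right, this] at k
  exact k.false

end Pool.Agent.MP_e23604_nt.Z.G
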