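import Pool.Agent.MP_e23604_nt.Z.GS

set_option autoImplicit false

open Finset QuadraticAlgebra Polynomial
open scoped Classical

namespace Pool.Agent.MP_e23604_nt.Z.G

open B R S W Un

/-- the part of the addition law that does not depend on the curve -/
noncomputable def F_GEXT (p m x y : Qb) : Qb := (p + m) * (x - y) ^ 2 - 2 * (x + y) * (x * y)

theorem law_GEXT {E : WeierstrassCurve Qb} [E.IsElliptic] {P Q : PW E} (h1 : P ≠ 0) (h2 : Q ≠ 0)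
    (h3 : P + Q ≠ 0) (h4 : P - Q ≠ 0) : F_GEXT (xw (P + Q)) (xw (P - Q)) (xw P) (xw Q) =
      E.b₂ * (xw P * xw Q) + E.b₄ * (xw P + xw Q) + E.b₆ := by
  obtain ⟨c, -, e⟩ := addSub P Q
  simp only [WeierstrassCurve.Affine.Point.sym2x, xRep_xw h1, xRep_xw h2, xRep_xw h3, xRep_xw h4]
    at e
  rw [BDiv_eval] at e
  have e1 := congrFun e 1
  have e2 := congrFun e 2
  simp [BDivV, BDivW] at e1 e2
  unfold F_GEXT
  linear_combination (xw (P + Q) + xw (P - Q)) * e2 - e1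

theorem sub_GEXT {V : Plc} {a b c d : Qb} (h : NC.Cg V a b) (h' : NC.Cg V c d) :
    NC.Cg V (a - c) (b - d) := by
  simpa only [neg_one_mul, ← sub_eq_add_neg] using
    h.add ((NC.Cg.rfl' (a := -1) (by simp)).mul h')

theorem cg_GEXT {V : Plc} {p m x y p' m' x' y' : Qb} (hp : NC.Cg V p p') (hm : NC.Cg V m m')
    (hx : NC.Cg V x x') (hy : NC.Cg V y y') : NC.Cg V (F_GEXT p m x y) (F_GEXT p' m' x' y') :=
  sub_GEXT ((hp.add hm).mul ((sub_GEXT hx hy).pow 2))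
    (((NC.Cg.rfl' (bLocA_two V.na)).mul (hx.add hy)).mul (hx.mul hy))

theorem can_GEXT {V : Plc} {a b c : Qb} (h : V.v c < 1) (hb : V.v b = 1) (e : c = a * b) :
    V.v a < 1 := by rwa [e, map_mul, hb, mul_one] at h

theorem gam_GEXT {V : Plc} {g₂ g₄ g₆ a b c : Qb} (ha : V.v a ≤ 1) (hb : V.v b ≤ 1)
    (h1 : V.v (b - a) = 1) (h2 : V.v (c - a) = 1) (h3 : V.v (c - b) = 1)
    (e1 : V.v (g₂ * (b * a) + g₄ * (b + a) + g₆ - 1) < 1)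
    (e2 : V.v (g₂ * (c * a) + g₄ * (c + a) + g₆ - 1) < 1)
    (e3 : V.v (g₂ * (c * b) + g₄ * (c + b) + g₆ - 1) < 1) {x y : Qb} (hx : V.v x ≤ 1)
    (hy : V.v y ≤ 1) : V.v (g₂ * (x * y) + g₄ * (x + y) + g₆ - 1) < 1 := by
  have k1 := can_GEXT (a := g₂ * a + g₄) (bLocA_sub_lt V.na e2 e1) h3 (by ring)
  have k2 := can_GEXT (a := g₂ * b + g₄) (bLocA_sub_lt V.na e3 e1) h2 (by ring)
  have k3 := can_GEXT (a := g₂) (bLocA_sub_lt V.na k2 k1) h1 (by ring)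
  have k4 := bLocA_sub_lt V.na k1 ((bLocA_mul_le ha).trans_lt k3)
  have k5 := bLocA_add_lt V.na e1 (bLocA_add_lt V.na ((bLocA_mul_le (bLocA_sub_le V.na
    (bLocA_mul_one hx hy) (bLocA_mul_one hb ha))).trans_lt k3) ((bLocA_mul_le (bLocA_sub_le V.na
      (bLocA_add_le V.na hx hy) (bLocA_add_le V.na hb ha))).trans_lt k4))
  exact can_GEXT k5 (map_one _) (by ring)

theorem fin_GEXT {G : Pt → Prop} {K : AddSubgroup Pt}
    (h : ∀ Y : Finset Pt, ∃ Z, G Z ∧ ∀ P ∈ Y, Z + P ∉ K ∧ Z - P ∉ K) (n : ℕ) :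
    ∃ X : Finset Pt, X.card = n ∧ ∀ Z ∈ X, G Z ∧ ∀ P ∈ X, Z ≠ P → Z + P ∉ K ∧ Z - P ∉ K := by
  induction n with
  | zero => exact ⟨∅, rfl, by simp⟩
  | succ n ih =>
    obtain ⟨X, rfl, hX⟩ := ih
    obtain ⟨Z, g, hZ⟩ := h X
    refine ⟨insert Z X, card_insert_of_notMem fun e => (hZ Z e).2 (by simp), ?_⟩
    simp only [forall_mem_insert]
    exact ⟨⟨g, fun e => absurd rfl e, fun P e _ => hZ P e⟩, fun P e => ⟨(hX P e).1,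
      fun _ => ⟨add_comm Z P ▸ (hZ P e).1, fun k => (hZ P e).2 (by simpa using K.neg_mem k)⟩,
      (hX P e).2⟩⟩

theorem EXT_pf (hLAG : LAG_st) (hPIK : PIK_st) (hVEL0 : VEL0_st) (hVUN : VUN_st) : EXT_st := by
  intro V K β u r B n3 v2 fK le hβ fB vu vr hB P hP hK
  obtain ⟨E, φ, r₀, hΔ, -, ker, hx⟩ := hVEL0 K fK
  have : E.IsElliptic := ⟨Ne.isUnit hΔ⟩
  have u0 : u ≠ 0 := fun e => by simp [e] at vu
  obtain ⟨k1, k2, -⟩ := (hPIK V).2 n3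
  have vn := (hVUN K).2 V ⟨fK, n3, fun c hc => TT_E1 (le hc)⟩
  have fr : ∀ Z ∈ TT V, Z ∉ K → Fr V K Z := fun Z a b => (vn Z).2.1 le a b
  obtain ⟨h, hh⟩ : ∃ h : Pt → Qb, ∀ Z, sX K Z = u * h Z + r :=
    ⟨fun Z => (sX K Z - r) / u, fun Z => by field_simp; ring⟩
  have sm : ∀ Z, V.v (sX K Z - (u * xc (β Z) + r)) = V.v (h Z - xc (β Z)) := fun Z => by
    rw [hh, add_sub_add_right_eq_sub, ← mul_sub, map_mul, vu, one_mul]
  have b0 : ∀ Z ∈ TT V, Z ∉ K → β Z ≠ 0 := fun Z a b e => b ((hβ Z a).2.1 e)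
  have ih : ∀ Z ∈ TT V, Z ∉ K → V.v (h Z) ≤ 1 := fun Z a b => by
    have := bLocA_sub_le V.na ((vn Z).2.2.2 (fr Z a b)).2.1 vr
    rwa [hh, add_sub_cancel_right, map_mul, vu, one_mul] at this
  have jf : ∀ Z ∈ TT V, Z ∉ K → V.v (xc (β Z)) ≤ 1 := fun Z a b => (k1 _ (hβ Z a).1 (b0 Z a b)).1
  have cg : ∀ Z ∈ TT V, Z ∉ B ∪ K → NC.Cg V (h Z) (xc (β Z)) := fun Z a b =>
    NC.Cg.mk' (jf Z a fun e => b (Or.inr e)) (sm Z ▸ hB Z a fun e => b (Or.inl e))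
  have sel : ∀ Y : Finset Pt, ∃ Z, (Z ∈ TT V ∧ Z ∉ B ∪ K) ∧
      ∀ Q ∈ Y, Z + Q ∉ B ∪ K ∧ Z - Q ∉ B ∪ K := fun Y => by
    have f := fB.union fK
    obtain ⟨X, c, hX⟩ := k2 _ 0 ((f.union (f.image2 (· - ·) Y.finite_toSet)).union
      (f.image2 (· + ·) Y.finite_toSet))
    obtain ⟨Z, hZ⟩ := card_pos.1 c
    obtain ⟨a, b, -⟩ := hX Z hZ
    exact ⟨Z, ⟨a, fun e => b (Or.inl (Or.inl e))⟩, fun Q hQ =>
      ⟨fun e => b (Or.inl (Or.inr ⟨_, e, Q, hQ, add_sub_cancel_right _ _⟩)),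
        fun e => b (Or.inr ⟨_, e, Q, hQ, sub_add_cancel _ _⟩)⟩⟩
  obtain ⟨g₂, g₄, g₆, lh⟩ : ∃ g₂ g₄ g₆ : Qb, ∀ Z Q, Z ∉ K → Q ∉ K → Z + Q ∉ K → Z - Q ∉ K →
      F_GEXT (h (Z + Q)) (h (Z - Q)) (h Z) (h Q) = g₂ * (h Z * h Q) + g₄ * (h Z + h Q) + g₆ := by
    refine ⟨(12 * (r + r₀) + E.b₂) / u, (6 * (r + r₀) ^ 2 + E.b₂ * (r + r₀) + E.b₄) / u ^ 2,
      (4 * (r + r₀) ^ 3 + E.b₂ * (r + r₀) ^ 2 + 2 * E.b₄ * (r + r₀) + E.b₆) / u ^ 3,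
      fun Z Q a b c d => ?_⟩
    have e := law_GEXT (mt (ker Z).1 a) (mt (ker Q).1 b) (map_add φ Z Q ▸ mt (ker _).1 c)
      (map_sub φ Z Q ▸ mt (ker _).1 d)
    rw [← map_add, ← map_sub, hx _ a, hx _ b, hx _ c, hx _ d] at e
    simp only [hh, F_GEXT] at e ⊢
    field_simp
    linear_combination e
  have lf : ∀ Z ∈ TT V, ∀ Q ∈ TT V, Z ∉ K → Q ∉ K → Z + Q ∉ K → Z - Q ∉ K →
      F_GEXT (xc (β (Z + Q))) (xc (β (Z - Q))) (xc (β Z)) (xc (β Q)) = 1 := fun Z a Q b c d e f => by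
    have := law_GEXT (E := EQ) (b0 Z a c) (b0 Q b d) (map_add β Z Q ▸ b0 _ (add_mem a b) e)
      (map_sub β Z Q ▸ b0 _ (sub_mem a b) f)
    simp only [xw_xc] at this
    rw [map_add, map_sub, this]
    simp [E3, WeierstrassCurve.baseChange, WeierstrassCurve.b₂, WeierstrassCurve.b₄,
      WeierstrassCurve.b₆]
  have st : ∀ Z Q, Z ∈ TT V ∧ Z ∉ B ∪ K → Q ∈ TT V ∧ Q ∉ B ∪ K → Z + Q ∉ B ∪ K ∧ Z - Q ∉ B ∪ K →
      V.v (h Z - h Q) = 1 ∧ V.v (g₂ * (h Z * h Q) + g₄ * (h Z + h Q) + g₆ - 1) < 1 :=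
    fun Z Q a b c => by
    have a' : Z ∉ K := fun e => a.2 (Or.inr e)
    have b' : Q ∉ K := fun e => b.2 (Or.inr e)
    have c' : Z + Q ∉ K := fun e => c.1 (Or.inr e)
    have d' : Z - Q ∉ K := fun e => c.2 (Or.inr e)
    have e1 := ((vn Z).2.2.2 (fr Z a.1 a')).2.2.2.2 Q (fr Q b.1 b') (fr _ (sub_mem a.1 b.1) d')
      (fr _ (add_mem a.1 b.1) c')
    rw [hh, hh, add_sub_add_right_eq_sub, ← mul_sub, map_mul, vu, one_mul] at e1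
    have e2 := cg_GEXT (cg _ (add_mem a.1 b.1) c.1) (cg _ (sub_mem a.1 b.1) c.2) (cg Z a.1 a.2)
      (cg Q b.1 b.2)
    rw [lh Z Q a' b' c' d', lf Z a.1 Q b.1 a' b' c' d'] at e2
    exact ⟨e1, e2.2.2⟩
  obtain ⟨A₁, a1, -⟩ := sel ∅
  obtain ⟨A₂, a2, b2⟩ := sel {A₁}
  obtain ⟨A₃, a3, b3⟩ := sel {A₁, A₂}
  have s1 := st _ _ a2 a1 (b2 A₁ (by simp))
  have s2 := st _ _ a3 a1 (b3 A₁ (by simp))
  have s3 := st _ _ a3 a2 (b3 A₂ (by simp))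
  have gm := @gam_GEXT V _ _ _ _ _ _ (cg _ a1.1 a1.2).1 (cg _ a2.1 a2.2).1 s1.1 s2.1 s3.1 s1.2 s2.2
    s3.2
  obtain ⟨X, c5, hX⟩ := fin_GEXT (K := K)
    (G := fun Z => (Z ∈ TT V ∧ Z ∉ B ∪ K) ∧ Z + P ∉ B ∪ K ∧ Z - P ∉ B ∪ K) (fun Y => by
      obtain ⟨Z, a, b⟩ := sel (insert P Y)
      exact ⟨Z, ⟨a, b P (mem_insert_self _ _)⟩, fun Q e => (b Q (mem_insert_of_mem e)).imp
        (fun k e => k (Or.inr e)) fun k e => k (Or.inr e)⟩) 5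
  have un : ∀ Z ∈ X, ∀ Q ∈ X, Z ≠ Q → V.v (xc (β Z) - xc (β Q)) = 1 := fun Z a Q b c => by
    obtain ⟨⟨⟨a1, a2⟩, -⟩, a3⟩ := hX Z a
    obtain ⟨⟨⟨b1, b2⟩, -⟩, -⟩ := hX Q b
    exact (k1 _ (hβ Z a1).1 (b0 Z a1 fun e => a2 (Or.inr e))).2 _ (hβ Q b1).1
      (b0 Q b1 fun e => b2 (Or.inr e))
      (fun e => b0 _ (sub_mem a1 b1) (a3 Q b c).2 (by rw [map_sub, e, sub_self]))
      fun e => b0 _ (add_mem a1 b1) (a3 Q b c).1 (by rw [map_add, e, neg_add_cancel])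
  rw [sm]
  have i1 := ih P hP hK
  have i2 := jf P hP hK
  obtain ⟨f, hf⟩ : ∃ f : Qb[X], f = C (2 * (xc (β P) - h P)) * Polynomial.X ^ 4 +
    C (2 * (xc (β P) ^ 2 - h P ^ 2)) * Polynomial.X ^ 3 +
    C (6 * xc (β P) * h P * (h P - xc (β P))) * Polynomial.X ^ 2 +
    C (2 * (xc (β P) - h P)) * Polynomial.X + C (h P ^ 2 - xc (β P) ^ 2) := ⟨_, rfl⟩
  have ev : ∀ Z ∈ X, V.v (xc (β Z)) ≤ 1 ∧ V.v (f.eval (xc (β Z))) < 1 := fun Z a => by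
    obtain ⟨⟨⟨a1, a2⟩, a3, a4⟩, -⟩ := hX Z a
    have a' : Z ∉ K := fun e => a2 (Or.inr e)
    have c' : Z + P ∉ K := fun e => a3 (Or.inr e)
    have d' : Z - P ∉ K := fun e => a4 (Or.inr e)
    have e1 := cg_GEXT (cg _ (add_mem a1 hP) a3) (cg _ (sub_mem a1 hP) a4) (cg Z a1 a2)
      (NC.Cg.rfl' i1)
    rw [lh Z P a' hK c' d'] at e1
    have e2 := (e1.symm.trans (NC.Cg.mk' (by simp) (gm (ih Z a1 a') i1))).2.2
    have e3 := lf Z a1 P hP a' hK c' d'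
    have e4 := bLocA_sub_le V.na (jf Z a1 a') i2
    refine ⟨jf Z a1 a', can_GEXT ((bLocA_mul_le (bLocA_mul_one e4 e4)).trans_lt e2) (map_one _) ?_⟩
    simp only [hf, F_GEXT, eval_add, eval_mul, eval_pow, eval_C, eval_X] at e3 ⊢
    linear_combination (xc (β Z) - h P) ^ 2 * e3
  obtain ⟨Z₀, z0, hz⟩ := exists_max_image X (fun Z => V.v (f.eval (xc (β Z))))
    (card_pos.1 (by omega))
  have bd := ((hLAG V).2 f _).1 (X.image fun Z => xc (β Z)) (by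
      rw [card_image_of_injOn fun Z a Q b e => by_contra fun c => by simpa [e] using un Z a Q b c,
        c5, hf]
      exact Nat.lt_succ_of_le (by compute_degree))
    (forall_mem_image.2 fun Z a => ⟨(ev Z a).1, hz Z a⟩)
    (forall_mem_image.2 fun Z a => forall_mem_image.2 fun Q b c => un Z a Q b fun e => c (e ▸ rfl)) 4
  refine can_GEXT (bd.trans_lt (ev Z₀ z0).2) (b := -2) (by rw [V.v.map_neg, v2]) ?_
  simp only [hf, coeff_add, coeff_C_mul, coeff_X_pow, coeff_X, coeff_C]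
  norm_num
  ring

end Pool.Agent.MP_e23604_nt.Z.G
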