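import Pool.Agent.MP_e23604_nt.Z.GS

/-!
The geometric part from its steps.
-/

set_option autoImplicit false

open Finset QuadraticAlgebra
open scoped Classical

namespace Pool.Agent.MP_e23604_nt.Z.G

open B R S W Un

theorem sum_GFin (r : ℕ) (κ : Zw → ZMod 3) (e : ZMod 3) {k : ℕ} (lam : Zw)
    (L : Zw → ZMod (3 ^ k)) (f : ℕ → Zw) : AR r κ e lam L f =
      ∑ q ∈ Qs r (27 * r ^ 2 * nn lam), ((L q).val : Zw) * ∑ p ∈ (Sol q (27 * r ^ 2 * nn lam)).filter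
        (fun p => ¬ (lam ∣ p.1 ∧ lam ∣ p.2) ∧ ¬ (star lam ∣ p.1 ∧ star lam ∣ p.2)),
          (1 + (nn p.2).factorization q / 2 : ℕ) * Psi r κ e p.1 (p.2 * f q) := by
  rw [AR, Z.Tr, Qs, sum_filter, sum_product, sum_filter]
  refine sum_congr rfl fun q _ => ?_
  split_ifs with h
  · rw [Sol, filter_filter, sum_filter, mul_sum]
    refine sum_congr rfl fun p _ => ?_
    simp only [h.1, h.2.1, h.2.2, true_and, not_false_eq_true, and_assoc]
    split_ifs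
    · push_cast
      ring
    · rw [mul_zero]
  · exact sum_eq_zero fun p _ => if_neg fun e => h ⟨e.1, e.2.1, e.2.2.1⟩

theorem val_GFin {k : ℕ} {ι : Type} (s : Finset ι) (n : ι → ℕ) (x : ι → ZMod (3 ^ k)) :
    (3 : Zw) ^ k ∣ ((∑ i ∈ s, n i • x i).val : Zw) - ∑ i ∈ s, (n i : Zw) * (x i).val := by
  have : ((∑ i ∈ s, n i • x i).val : ℕ) ≡ ∑ i ∈ s, n i * (x i).val [MOD 3 ^ k] := by
    rw [← ZMod.natCast_eq_natCast_iff]
    simp
  obtain ⟨t, ht⟩ := this.symm.dvd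
  exact ⟨t, by exact_mod_cast congrArg (Int.cast : ℤ → Zw) ht⟩

theorem GEO_of (h1 : PAL_st) (h2 : NRA_st) (h3 : NRB_st) (h4 : QSUM_st) (h5 : RSM_st)
    (h6 : TOR_st) (h7 : HFO_st) (h8 : TR1_st) (h9 : TRS_st) : GEO_st := by
  intro χ κ r e G hT hc hl hG t1 t2
  obtain ⟨a1, a2, N, N0', a3, a4⟩ := h6 χ κ r e G hT hc hl hG t1 t2
  have n0 : N0 r ≠ 0 := mul_ne_zero (by norm_num) (pow_ne_zero _ hT.r0)
  have i0 : (UM (N0 r)).relIndex GK ≠ 0 := by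
    have tv := Xs_trv (UM_open (Nat.cast_ne_zero.2 n0)) (UM_le (N0 r))
    rw [← tv.card]
    obtain ⟨x, hx, -⟩ := tv.2 1 GK.one_mem
    exact card_ne_zero_of_mem hx.1
  obtain ⟨c, m, hm, hcm⟩ := Nat.exists_eq_pow_mul_and_not_dvd
    (mul_ne_zero (mul_ne_zero three_ne_zero N0') i0) 3 (by norm_num)
  refine ⟨c, fun k a lam V φ hS hL => ?_⟩
  have ax : Ax r lam := ⟨hT.r0, hT.n3, hL.pp, hL.deg, hL.n0, hL.big⟩
  have l0 : (nn lam : Zw) ≠ 0 := Nat.cast_ne_zero.2 hL.deg.ne_zero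
  obtain ⟨G₀, g1, g2⟩ := (CYG_ok _ hT.ne).2.2 G (9 * r * nn lam) hG (mul_ne_zero hT.ne l0)
  rw [show (9 * r * nn lam * (9 * r) : Zw) = N0 r * nn lam by rw [N0]; push_cast; ring] at g1
  obtain ⟨H, hH⟩ := (CYG_ok _ l0).1
  obtain ⟨Vq, σ, hF⟩ : ∃ Vq σ, Fam Vq σ := by
    have : ∀ q : ℕ, ∃ (V : Plc) (σ : GQ), q.Prime → q % 3 = 2 → V.l = q ∧ Y.In V σ := fun q => by
      by_cases h : q.Prime ∧ q % 3 = 2
      · have := Fact.mk h.1
        obtain ⟨σ, hσ⟩ := INF_ok'.2.1 ⟨q, 1⟩ h.2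
        exact ⟨_, σ, fun _ _ => ⟨rfl, hσ⟩⟩
      · exact ⟨V, 1, fun a b => absurd ⟨a, b⟩ h⟩
    choose Vq σ h using this
    exact ⟨Vq, σ, h⟩
  have m0 : (N0 r * nn lam : Zw) ≠ 0 := mul_ne_zero (Nat.cast_ne_zero.2 n0) l0
  obtain ⟨f, hf⟩ : ∃ f : ℕ → Zw, ∀ q : ℕ, q.Prime → q % 3 = 2 → gal (σ q) G₀ = -(f q • G₀) := by
    have : ∀ q : ℕ, ∃ f : Zw, q.Prime → q % 3 = 2 → gal (σ q) G₀ = -(f • G₀) := fun q => by
      by_cases h : q.Prime ∧ q % 3 = 2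
      · obtain ⟨u, hu⟩ := (CYG_ok _ m0).2.1 G₀ g1 (gal (σ q) G₀) (by
          have := gal_star (INF_ok'.2.2 _ _ (hF q h.1 h.2).2).2.2.2.1 (N0 r * nn lam) G₀
          rw [g1.zero, map_zero] at this
          simpa using this.symm)
        exact ⟨-u, fun _ _ => by rw [hu, neg_smul, neg_neg]⟩
      · exact ⟨0, fun a b => absurd ⟨a, b⟩ h⟩
    choose f h using this
    exact ⟨f, h⟩
  have tx : ∀ q : ℕ, q.Prime → q % 3 = 2 → ¬ q ∣ r → Tx r lam (Vq q) (σ q) G₀ (f q) :=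
    fun q b1 b2 b3 => ⟨ax, (hF q b1 b2).2, (hF q b1 b2).1.symm ▸ b3, g1, hf q b1 b2⟩
  refine ⟨f, fun q b1 b2 b3 => by
    have := (h8 _ _ _ _ _ _ (tx q b1 b2 b3)).1
    rwa [(hF q b1 b2).1] at this, ?_⟩
  obtain ⟨φ', p1, p2⟩ := h3 r k lam V φ ax hS fun b hb => hL.sm b (hb.mul_right _)
  have ab := (h2 r lam ax).1
  have tv := Xs_trv ab.opn ab.le
  generalize Xs (UL r (nn lam)) GK = X at tv
  obtain ⟨q1, q2⟩ := h1 k _ φ' X ab p1 tv
  have nd : ∀ n : ℕ, ¬ nn lam ∣ n → ¬ lam ∣ n := fun n hn e => hn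
    (hL.deg.dvd_of_dvd_pow (n := 2) (nn_nat n ▸ nn_dvd e))
  have six : ∀ b : Zw, b ∣ 6 * r → lk k φ' b = 0 := fun b hb => by
    rw [p2 b fun e => nd (6 * r) (fun e => ?_) (by simpa using e.trans hb), hL.sm b hb]
    have := Nat.le_of_dvd (by have := hT.r0; omega) e
    have := hL.big
    have := Nat.pos_of_ne_zero hT.r0
    nlinarith
  have gn : ∀ t ∈ Rs (N0 r), Gen (9 * r) (t • G) := fun t ht => hG.cop
    (((h5 _ n0).2.1 t ht).of_isCoprime_of_dvd_right ⟨9 * r, by rw [N0]; push_cast; ring⟩)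
  have ho := fun t ht u hu i j hi => h7 r i j lam (t • G) (u • G) H _ _ Vq σ X _ (lk k φ') ax
    (gn t ht) (gn u hu) hH hi rfl rfl hF tv q1 six
  obtain ⟨t₀, ht₀⟩ := (h5 _ n0).1
  have f0 := (h7 r 1 0 lam G G H _ _ Vq σ X _ (lk k φ') ax hG hG hH (by norm_num) rfl rfl hF tv q1
    six).1
  rw [lv_pt] at f0
  have key : ∀ u ∈ Rs (N0 r), ∀ i ∈ range 3, ∀ j ∈ range 3, (3 : Zw) ^ k ∣ 3 * N *
      ∑ t ∈ Rs (N0 r), ∑ q ∈ Qs r (27 * r ^ 2 * nn lam), ((lk k φ q).val : Zw) *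
        ((ω : Zw) ^ (κ u).val * (et i * (ω : Zw) ^ (e * j).val) * (ω : Zw) ^ (-κ t).val *
          (ls X (Vq q) (σ q) (lv r ⊥ (t • G) 0 0) (lv r (AddSubgroup.zmultiples H) (u • G) i j)
            (mu r * nn lam) (27 * r ^ 2 * nn lam) : ℕ)) := fun u hu i hi j _ => by
    by_cases h : 3 ∣ i
    · obtain rfl : i = 0 := by have := mem_range.1 hi; omega
      simp [et]
    have := h4 k N (Fp (UL r (nn lam))) (fun P => lk k φ' (Dn X P)) (Rs (N0 r))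
      (fun t => hq r ⊥ (t • G)) κ (lv r (AddSubgroup.zmultiples H) (u • G) i j).pt _
      (fun P hP Q hQ => (q2 P hP).2 Q hQ) (fun t ht => by
        obtain ⟨g, hg, e⟩ := a1 t ht
        rw [e]
        exact (q2 _ f0).1 g hg) (ho t₀ ht₀ u hu i j h).2.1 a3 a4 a2
    replace := this.mul_left ((ω : Zw) ^ (κ u).val * (et i * (ω : Zw) ^ (e * j).val))
    rw [mul_left_comm, mul_sum] at this
    refine (dvd_iff_dvd_of_dvd_sub (Dvd.dvd.trans ?_ (Dvd.intro_left _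
      (mul_sub _ _ _)))).1 this
    rw [← sum_sub_distrib]
    refine dvd_sum fun t ht => ?_
    rw [← lv_pt, (ho t ht u hu i j h).2.2]
    refine ((val_GFin (Qs r (27 * r ^ 2 * nn lam)) (fun q => ls X (Vq q) (σ q) (lv r ⊥ (t • G) 0 0)
      (lv r (AddSubgroup.zmultiples H) (u • G) i j) (mu r * nn lam) (27 * r ^ 2 * nn lam))
      fun q => lk k φ' q).mul_left ((ω : Zw) ^ (κ u).val * (et i * (ω : Zw) ^ (e * j).val) *
        (ω : Zw) ^ (-κ t).val)).trans (dvd_of_eq ?_)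
    rw [mul_sub, mul_sum, ← mul_assoc _ ((ω : Zw) ^ (-κ t).val)]
    refine congrArg (_ - ·) (sum_congr rfl fun q hq => ?_)
    obtain ⟨b1, b2, -⟩ := (mem_filter.1 hq).2
    rw [p2 q (nd q fun e => by
      have := nn_mod3 hL.pp.2.pw
      rw [(Nat.prime_dvd_prime_iff_eq hL.deg b1).1 e] at this
      omega)]
    ring
  have tot := dvd_sum fun u hu => dvd_sum fun i hi => dvd_sum fun j hj => key u hu i hi j hj
  simp only [← mul_sum _ _ (3 * N : Zw)] at tot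
  simp only [sum_comm (t := Qs r (27 * r ^ 2 * nn lam)), ← mul_sum] at tot
  replace tot : (3 : Zw) ^ k ∣ 3 * N * ((UM (N0 r)).relIndex GK * AR r κ e lam (lk k φ) f) := by
    refine tot.trans (dvd_of_eq (congrArg _ ?_))
    rw [sum_GFin, mul_sum]
    refine sum_congr rfl fun q hq => ?_
    obtain ⟨b1, b2, b3⟩ := (mem_filter.1 hq).2
    have := h9 _ _ _ _ _ _ (tx q b1 b2 b3) κ e H X hc hH tv
    rw [g2, (hF q b1 b2).1] at this
    rw [this, mul_left_comm]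
  have hm' : IsCoprime ((3 : Zw) ^ k) m := by
    simpa using ((Nat.prime_three.coprime_iff_not_dvd.2 hm).pow_left k).cast (R := Zw)
  refine hm'.dvd_of_dvd_mul_left ?_
  convert tot using 1
  have := congrArg (Nat.cast : ℕ → Zw) hcm
  push_cast at this
  linear_combination -AR r κ e lam (lk k φ) f * this

end Pool.Agent.MP_e23604_nt.Z.G
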