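import Pool.Agent.MP_e23604_nt.Z.GS

/-!
Congruent points and approximate homomorphisms.
-/

set_option autoImplicit false

open Finset QuadraticAlgebra Polynomial WeierstrassCurve
open scoped Classical

namespace Pool.Agent.MP_e23604_nt.Z.G

open B R S W Un

/-- congruent integers -/
def Cg_h7 (V : Plc) (e : ℕ) (s : ℝ) (a a' : Qb) : Prop :=
  V.v a ≤ 1 ∧ V.v a' ≤ 1 ∧ V.v (a' - a ^ e) ≤ s

section

variable {V : Plc} {e : ℕ} {s : ℝ} {a a' b b' : Qb} {E E' : WeierstrassCurve Qb}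

theorem Cg_h7.add (h : Ph V e s) (p : Cg_h7 V e s a a') (q : Cg_h7 V e s b b') :
    Cg_h7 V e s (a + b) (a' + b') :=
  ⟨bLocA_add_le V.na p.1 q.1, bLocA_add_le V.na p.2.1 q.2.1, by
    rw [show a' + b' - (a + b) ^ e = a' - a ^ e + (b' - b ^ e) - ((a + b) ^ e - a ^ e - b ^ e) by
      ring]
    exact bLocA_sub_le V.na (bLocA_add_le V.na p.2.2 q.2.2) (h.2.2.2 a b p.1 q.1)⟩

theorem Cg_h7.mul (p : Cg_h7 V e s a a') (q : Cg_h7 V e s b b') :
    Cg_h7 V e s (a * b) (a' * b') :=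
  ⟨bLocA_mul_one p.1 q.1, bLocA_mul_one p.2.1 q.2.1, by
    rw [show a' * b' - (a * b) ^ e = a' * (b' - b ^ e) + b ^ e * (a' - a ^ e) by ring]
    exact bLocA_add_le V.na ((bLocA_mul_le p.2.1).trans q.2.2) ((bLocA_mul_le (by
      rw [map_pow]; exact pow_le_one₀ (V.v.nonneg _) q.1)).trans p.2.2)⟩

theorem Cg_h7.neg (h : Ph V e s) (p : Cg_h7 V e s a a') : Cg_h7 V e s (-a) (-a') :=
  ⟨by simpa using p.1, by simpa using p.2.1, by
    have k := h.2.2.2 a (-a) p.1 (by simpa using p.1)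
    rw [add_neg_cancel, zero_pow h.1.ne'] at k
    rw [show -a' - (-a) ^ e = 0 - a ^ e - (-a) ^ e - (a' - a ^ e) by ring]
    exact bLocA_sub_le V.na k p.2.2⟩

theorem Cg_h7.sub (h : Ph V e s) (p : Cg_h7 V e s a a') (q : Cg_h7 V e s b b') :
    Cg_h7 V e s (a - b) (a' - b') := by
  simpa only [sub_eq_add_neg] using p.add h (q.neg h)

theorem Cg_h7.max (p : Cg_h7 V e s a a') : max (V.v a') s = max (V.v a ^ e) s := by
  rw [← map_pow]
  refine le_antisymm (max_le ?_ (le_max_right _ _)) (max_le ?_ (le_max_right _ _))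
  · rw [show a' = a ^ e + (a' - a ^ e) by ring]
    exact bLocA_add_le V.na (le_max_left _ _) (p.2.2.trans (le_max_right _ _))
  · rw [show a ^ e = a' - (a' - a ^ e) by ring]
    exact bLocA_sub_le V.na (le_max_left _ _) (p.2.2.trans (le_max_right _ _))

theorem Cg_h7.one (h : Ph V e s) (p : Cg_h7 V e s a a') (k : V.v a = 1) : V.v a' = 1 := by
  have := p.max
  rw [k, one_pow, max_eq_left h.2.2.1.le, max_eq_iff] at this
  exact this.elim (·.1) fun t => absurd t.1 h.2.2.1.ne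

theorem Cg_h7.div (h : Ph V e s) (p : Cg_h7 V e s a a') (q : Cg_h7 V e s b b') (k : V.v b = 1) :
    Cg_h7 V e s (a / b) (a' / b') := by
  have k' := q.one h k
  have n : b ≠ 0 := fun t => by simp [t] at k
  have n' : b' ≠ 0 := fun t => by simp [t] at k'
  rw [div_eq_mul_inv, div_eq_mul_inv]
  refine p.mul ⟨by simp [k], by simp [k'], ?_⟩
  rw [show b'⁻¹ - b⁻¹ ^ e = -(b' - b ^ e) / (b' * b ^ e) by rw [inv_pow]; field_simp; ring]
  rw [map_div₀, V.v.map_neg, map_mul, map_pow, k, k', one_pow, one_mul, div_one]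
  exact q.2.2

theorem cp_h7 (g : Gw V E) (g' : Gw V E') {P : PW E} {P' : PW E'} : Cp V e s P P' ↔
    ∃ x y h x' y' h', P = .some x y h ∧ P' = .some x' y' h' ∧ Cg_h7 V e s x x' ∧
      Cg_h7 V e s y y' := by
  constructor
  · rintro ⟨h1, h2, h3, h4⟩
    rcases P with _ | ⟨x, y, h⟩
    · exact absurd trivial h1
    rcases P' with _ | ⟨x', y', h'⟩
    · exact absurd trivial h2
    have k := not_lt.1 h1
    have k' := not_lt.1 h2
    exact ⟨x, y, h, x', y', h', rfl, rfl, ⟨k, k', h3⟩, y_le V.na g.int h.1 k,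
      y_le V.na g'.int h'.1 k', h4⟩
  · rintro ⟨x, y, h, x', y', h', rfl, rfl, p, q⟩
    exact ⟨not_lt.2 p.1, not_lt.2 p.2.1, p.2.2, q.2.2⟩

theorem two_h7 (g : Gw V E) {x y : Qb} (h : E.toAffine.Nonsingular x y) (hx : V.v x ≤ 1) :
    ¬ E1 V.v (2 • Affine.Point.some x y h) ↔ V.v (y - E.toAffine.negY x y) = 1 := by
  obtain ⟨a1, a2, a3, a4, -⟩ := g.int
  have hy := y_le V.na g.int h.1 hx
  have hn : V.v (y - E.toAffine.negY x y) ≤ 1 := bLocA_sub_le V.na hy
    (bLocA_sub_le V.na (bLocA_sub_le V.na (by simpa using hy) (bLocA_mul_one a1 hx)) a3)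
  rw [two_nsmul]
  constructor
  · intro k
    by_contra t
    have h' := (Affine.nonsingular_neg ..).2 h
    have := close V.na g.int h' h hx (ns_good V.na g.int g.disc h'.1 hx) (by simp)
      (hn.lt_of_ne t)
    rw [← Affine.Point.neg_some h, sub_neg_eq_add] at this
    exact k this
  · intro k
    have n : y ≠ E.toAffine.negY x y := fun t => by
      rw [← t, sub_self, map_zero] at k
      exact zero_ne_one k
    have l : V.v (E.toAffine.slope x x y y) ≤ 1 := by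
      rw [Affine.slope_of_Y_ne rfl n, map_div₀, k, div_one, sq]
      exact bLocA_sub_le V.na (bLocA_add_le V.na (bLocA_add_le V.na
        (bLocA_mul_one (bLocA_three V.na) (bLocA_mul_one hx hx))
        (bLocA_mul_one (bLocA_mul_one (bLocA_two V.na) a2) hx)) a4) (bLocA_mul_one a1 hy)
    rw [Affine.Point.add_self_of_Y_ne n, E1_some, not_lt, Affine.addX, sq]
    exact bLocA_sub_le V.na (bLocA_sub_le V.na (bLocA_sub_le V.na
      (bLocA_add_le V.na (bLocA_mul_one l l) (bLocA_mul_one a1 l)) a2) hx) hx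

end

theorem GHA_h7 : GHA_st := by
  intro V E E' e s g g' _ h ⟨w1, w2, w3, w4, w6⟩
  have c1 : Cg_h7 V e s E.a₁ E'.a₁ := ⟨g.int.1, g'.int.1, w1⟩
  have c2 : Cg_h7 V e s E.a₂ E'.a₂ := ⟨g.int.2.1, g'.int.2.1, w2⟩
  have c3 : Cg_h7 V e s E.a₃ E'.a₃ := ⟨g.int.2.2.1, g'.int.2.2.1, w3⟩
  have c4 : Cg_h7 V e s E.a₄ E'.a₄ := ⟨g.int.2.2.2.1, g'.int.2.2.2.1, w4⟩
  have c6 : Cg_h7 V e s E.a₆ E'.a₆ := ⟨g.int.2.2.2.2, g'.int.2.2.2.2, w6⟩
  have ng : ∀ {x x' y y' : Qb}, Cg_h7 V e s x x' → Cg_h7 V e s y y' →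
      Cg_h7 V e s (E.toAffine.negY x y) (E'.toAffine.negY x' y') := fun p q =>
    ((q.neg h).sub h (c1.mul p)).sub h c3
  refine ⟨fun P P' k => ?_, fun P Q P' Q' k k' => ?_, fun Q n n2 => ?_⟩
  · obtain ⟨x, y, a, x', y', a', rfl, rfl, p, q⟩ := (cp_h7 g g').1 k
    refine ⟨(cp_h7 g g').2 ⟨_, _, _, _, _, _, Affine.Point.neg_some a, Affine.Point.neg_some a', p,
      ng p q⟩, fun t => ?_⟩
    exact (two_h7 g' a' p.2.1).2 ((q.sub h (ng p q)).one h ((two_h7 g a p.1).1 t))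
  · obtain ⟨x, y, a, x', y', a', rfl, rfl, p, q⟩ := (cp_h7 g g').1 k
    obtain ⟨u, v, b, u', v', b', rfl, rfl, p', q'⟩ := (cp_h7 g g').1 k'
    refine ⟨(p.sub h p').max, fun (t : V.v (x - u) = 1) => ?_⟩
    have t' := (p.sub h p').one h t
    have n : x ≠ u := fun r => by simp [r] at t
    have n' : x' ≠ u' := fun r => by simp [r] at t'
    have l : Cg_h7 V e s (E.toAffine.slope x u y v) (E'.toAffine.slope x' u' y' v') := by
      rw [Affine.slope_of_X_ne n, Affine.slope_of_X_ne n']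
      exact (q.sub h q').div h (p.sub h p') t
    have m : Cg_h7 V e s (E.toAffine.addX x u (E.toAffine.slope x u y v))
        (E'.toAffine.addX x' u' (E'.toAffine.slope x' u' y' v')) := by
      rw [Affine.addX, Affine.addX, sq, sq]
      exact ((((l.mul l).add h (c1.mul l)).sub h c2).sub h p).sub h p'
    exact (cp_h7 g g').2 ⟨_, _, _, _, _, _, Affine.Point.add_of_X_ne n, Affine.Point.add_of_X_ne n',
      m, ng m ((l.mul (m.sub h p)).add h q)⟩
  · rcases Q with _ | ⟨x, y, a⟩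
    · exact absurd trivial n
    have hx := not_lt.1 n
    have hy := y_le V.na g.int a.1 hx
    have pw' : ∀ {z : Qb}, V.v z ≤ 1 → Cg_h7 V e s z (z ^ e) := fun k =>
      ⟨k, by rw [map_pow]; exact pow_le_one₀ (V.v.nonneg _) k, by simpa using h.2.1⟩
    have p := pw' hx
    have q := pw' hy
    have t := (q.sub h (ng p q)).one h ((two_h7 g a hx).1 n2)
    have f := ((((q.mul q).add h ((c1.mul p).mul q)).add h (c3.mul q)).sub h
      (((((p.mul p).mul p).add h (c2.mul (p.mul p))).add h (c4.mul p)).add h c6)).2.2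
    rw [show y * y + E.a₁ * x * y + E.a₃ * y - (x * x * x + E.a₂ * (x * x) + E.a₄ * x + E.a₆) = 0 by
      linear_combination (Affine.equation_iff _ _).1 a.1, zero_pow h.1.ne', sub_zero] at f
    generalize x ^ e = X at *
    generalize y ^ e = Y at *
    obtain ⟨d, hd⟩ := IsAlgClosed.exists_pow_nat_eq ((E'.a₁ * X + E'.a₃) ^ 2 +
      4 * (X ^ 3 + E'.a₂ * X ^ 2 + E'.a₄ * X + E'.a₆)) two_pos
    have eq : E'.toAffine.Equation X ((d - (E'.a₁ * X + E'.a₃)) / 2) := by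
      rw [Affine.equation_iff]
      linear_combination (1 / 4 : Qb) * hd
    generalize (d - (E'.a₁ * X + E'.a₃)) / 2 = z at eq
    have ns := (Affine.equation_iff_nonsingular_of_Δ_ne_zero (g'.ell.isUnit.ne_zero)).1 eq
    have ns' := (Affine.nonsingular_neg ..).2 ns
    have z1 := y_le V.na g'.int eq p.2.1
    have z2 := y_le V.na g'.int ns'.1 p.2.1
    rw [show Y * Y + E'.a₁ * X * Y + E'.a₃ * Y - (X * X * X + E'.a₂ * (X * X) + E'.a₄ * X + E'.a₆) =
      (Y - z) * (Y - E'.toAffine.negY X z) by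
        rw [Affine.negY]; linear_combination (Affine.equation_iff _ _).1 eq, map_mul] at f
    rw [show Y - E'.toAffine.negY X Y = Y - z + (Y - E'.toAffine.negY X z) by
      rw [Affine.negY, Affine.negY]; ring] at t
    have key : ∀ {w} (r : E'.toAffine.Nonsingular X w), V.v w ≤ 1 → V.v (Y - w) ≤ s →
        ∃ Q' : PW E', Cp V e s (Affine.Point.some x y a) Q' := fun {w} r k1 k2 =>
      ⟨_, (cp_h7 g g').2 ⟨_, _, _, _, _, r, rfl, rfl, p, hy, k1, by
        rw [show w - y ^ e = Y - y ^ e - (Y - w) by ring]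
        exact bLocA_sub_le V.na q.2.2 k2⟩⟩
    by_cases r : V.v (Y - z) = 1
    · exact key ns' z2 (by rwa [r, one_mul] at f)
    · have r' : V.v (Y - E'.toAffine.negY X z) = 1 := by_contra fun r' =>
        (bLocA_add_lt V.na ((bLocA_sub_le V.na q.2.1 z1).lt_of_ne r)
          ((bLocA_sub_le V.na q.2.1 z2).lt_of_ne r')).ne t
      exact key ns z1 (by rwa [r', mul_one] at f)

theorem GH_h7 (hP : PARW_st) (hK : PIK_st) : GH_st := by
  intro V E E' e s g g' h2 h w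
  obtain ⟨A1, A2, A3⟩ := GHA_h7 V E E' e s g g' h2 h w
  have d := (hP V E g).2.2.2.1
  have d' := (hP V E' g').2.2.2.1
  have ad : ∀ {P Q : PW E} {P' Q' : PW E'}, Cp V e s P P' → Cp V e s Q Q' → ¬ E1 V.v (P + Q) →
      ¬ E1 V.v (P - Q) → Cp V e s (P + Q) (P' + Q') := fun p q a b =>
    (A2 _ _ _ _ p q).2 (by rw [d _ _ p.1 q.1, zs_not a, zs_not b, one_mul])
  have pk : ∀ F : Finset (PW E), ∃ Q Q', Cp V e s Q Q' ∧ ¬ E1 V.v (2 • Q) ∧
      ∀ X ∈ F, ¬ E1 V.v (Q - X) := fun F => by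
    obtain ⟨Q, a, b, c⟩ := (hK V).1 E g h2 F
    obtain ⟨Q', k⟩ := A3 Q a b
    exact ⟨Q, Q', k, b, c⟩
  have pk2 : ∀ (F : Finset (PW E)) (Q : PW E) (Q' : PW E'), Cp V e s Q Q' → ∃ T T',
      Cp V e s T T' ∧ ¬ E1 V.v (2 • T) ∧ Cp V e s (T + Q) (T' + Q') ∧
      ∀ X ∈ F, ¬ E1 V.v (T + Q - X) := fun F Q Q' k => by
    obtain ⟨T, T', a, b, c⟩ := pk (insert Q (insert (-Q) (F.image (· - Q))))
    refine ⟨T, T', a, b, ad a k (by simpa using c (-Q) (by simp)) (c Q (by simp)), fun X hX => ?_⟩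
    rw [show T + Q - X = T - (X - Q) by abel]
    exact c _ (mem_insert_of_mem (mem_insert_of_mem (mem_image_of_mem _ hX)))
  have pk3 : ∀ (F : Finset (PW E)) (P : PW E), ∃ Q Q', Cp V e s Q Q' ∧ ¬ E1 V.v (2 • Q + P) ∧
      ∀ X ∈ F, ¬ E1 V.v (Q - X) := fun F P => by
    obtain ⟨Q, Q', a, -, c⟩ := pk F
    by_cases k : E1 V.v (2 • Q + P)
    · obtain ⟨T, T', -, b, a', c'⟩ := pk2 F Q Q' a
      refine ⟨_, _, a', fun t => b ?_, c'⟩
      rw [show 2 • T = 2 • (T + Q) + P - (2 • Q + P) by rw [nsmul_add]; abel]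
      exact g.sub t k
    · exact ⟨Q, Q', a, k, c⟩
  let D : AddSubgroup (PW E × PW E') :=
    { carrier := {p | ∃ F : Finset (PW E), ∀ Q Q', Cp V e s Q Q' → (∀ X ∈ F, ¬ E1 V.v (Q - X)) →
        Cp V e s (Q + p.1) (Q' + p.2)}
      zero_mem' := ⟨∅, fun Q Q' k _ => by simpa using k⟩
      add_mem' := by
        rintro ⟨P, P'⟩ ⟨T, T'⟩ ⟨F, a⟩ ⟨G, b⟩
        refine ⟨F ∪ G.image (· - P), fun Q Q' k c => ?_⟩
        rw [Prod.fst_add, Prod.snd_add, ← add_assoc, ← add_assoc]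
        refine b _ _ (a _ _ k fun X hX => c X (mem_union_left _ hX)) fun X hX => ?_
        rw [show Q + P - X = Q - (X - P) by abel]
        exact c _ (mem_union_right _ (mem_image_of_mem _ hX))
      neg_mem' := by
        rintro ⟨P, P'⟩ ⟨F, a⟩
        refine ⟨F.image (-·), fun Q Q' k c => ?_⟩
        have := (A1 _ _ (a _ _ (A1 _ _ k).1 fun X hX t =>
          c _ (mem_image_of_mem _ hX) (by simpa [add_comm] using g.neg t))).1
        simpa [add_comm] using this }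
  have cg : ∀ P P', ¬ E1 V.v P → ((P, P') ∈ D ↔ Cp V e s P P') := fun P P' n => by
    constructor
    · rintro ⟨F, a⟩
      obtain ⟨Q, Q', k, b, c⟩ := pk3 F P
      have := ad (a Q Q' k c) (A1 _ _ k).1 (by simpa using n)
        (by rwa [show Q + P - -Q = 2 • Q + P by rw [two_nsmul]; abel])
      simpa using this
    · intro k
      exact ⟨{P, -P}, fun Q Q' a c => ad a k (by simpa using c (-P) (by simp)) (c P (by simp))⟩
  have es : ∀ {P P' Q Q'}, Cp V e s Q Q' → Cp V e s (Q + P) (Q' + P') →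
      max (zs V (2 • Q' + P') * zs V P') s = max ((zs V (2 • Q + P) * zs V P) ^ e) s :=
    fun {P P' Q Q'} a b => by
      have := (A2 _ _ _ _ b a).1
      rwa [d _ _ b.1 a.1, d' _ _ b.2.1 a.2.1, add_sub_cancel_left, add_sub_cancel_left,
        add_right_comm Q, add_right_comm Q', ← two_nsmul, ← two_nsmul] at this
  have on : ∀ P P', (P, P') ∈ D → E1 V.v P → E1 V.v P' := by
    rintro P P' ⟨F, a⟩ n
    by_contra n'
    have k : ∀ Q Q', Cp V e s Q Q' → (∀ X ∈ F, ¬ E1 V.v (Q - X)) → E1 V.v (2 • Q' + P') :=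
      fun Q Q' b c => by
        have t := (le_max_left _ _).trans_eq (es b (a Q Q' b c))
        rw [zs_not n', mul_one] at t
        refine g'.zs_lt.1 (t.trans_lt (max_lt (pow_lt_one₀ (mul_nonneg (zs_nonneg _ _)
          (zs_nonneg _ _)) ?_ h.1.ne') h.2.2.1))
        exact mul_lt_one_of_nonneg_of_lt_one_right (g.zs_le _) (zs_nonneg _ _) (g.zs_lt.2 n)
    obtain ⟨Q, Q', b, -, c⟩ := pk F
    obtain ⟨T, T', b', n2, b2, c'⟩ := pk2 F Q Q' b
    refine (A1 _ _ b').2 n2 ?_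
    rw [show 2 • T' = 2 • (T' + Q') + P' - (2 • Q' + P') by rw [nsmul_add]; abel]
    exact g'.sub (k _ _ b2 c') (k _ _ b c)
  refine ⟨D, fun P => ?_, fun P P' k => ⟨on P P' k, fun t => by_contra fun n =>
    ((cg P P' n).1 k).2.1 t⟩, fun P P' k n => ?_, cg⟩
  · obtain ⟨Q, Q', k, b, c⟩ := pk3 {P} (-(2 • P))
    have n : ¬ E1 V.v (P - Q) := fun t => c P (by simp) (by simpa using g.neg t)
    obtain ⟨T', k'⟩ := A3 (P - Q) n fun t => b (by
      rw [show (2 • Q + -(2 • P) : PW E) = -(2 • (P - Q)) by rw [nsmul_sub]; abel]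
      exact g.neg t)
    exact ⟨Q' + T', by simpa using D.add_mem ((cg _ _ k.1).2 k) ((cg _ _ n).2 k')⟩
  · have n' := on P P' k n
    obtain ⟨F, a⟩ := k
    obtain ⟨Q, Q', b, n2, c⟩ := pk F
    have t := es b (a Q Q' b c)
    rwa [zs_not (P := 2 • Q + P) fun r => n2 (by simpa using g.sub r n),
      zs_not (P := 2 • Q' + P') fun r => (A1 _ _ b).2 n2 (by simpa using g'.sub r n'), one_mul,
      one_mul, zs_of n, zs_of n'] at t

end Pool.Agent.MP_e23604_nt.Z.G
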