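import Pool.Agent.MP_e23604_nt.Z.GS

set_option autoImplicit false

open Finset QuadraticAlgebra Polynomial
open scoped Classical

namespace Pool.Agent.MP_e23604_nt.Z.G

open B R S W Un

theorem log_GHFO {A : Type} [AddCommGroup A] {L : Zw → A}
    (h : ∀ x y, x ≠ 0 → y ≠ 0 → L (x * y) = L x + L y) (e : ℕ → ℕ) (s : Finset ℕ) :
    (∀ q ∈ s, q ≠ 0) → L (∏ q ∈ s, (q : Zw) ^ e q) = ∑ q ∈ s, e q • L q := by
  have h1 : L 1 = 0 := by simpa using h 1 1 one_ne_zero one_ne_zero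
  induction s using Finset.induction_on with
  | empty => simpa using h1
  | insert q s hq ih =>
    intro h0
    have q0 : (q : Zw) ≠ 0 := Nat.cast_ne_zero.2 (h0 q (mem_insert_self _ _))
    have h2 := fun p hp => h0 p (mem_insert_of_mem hp)
    rw [prod_insert hq, sum_insert hq, h _ _ (pow_ne_zero _ q0) (prod_ne_zero_iff.2 fun p hp =>
      pow_ne_zero _ (Nat.cast_ne_zero.2 (h2 p hp))), ih h2]
    congr 1
    induction e q with
    | zero => simpa using h1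
    | succ k ih => rw [pow_succ, h _ _ (pow_ne_zero _ q0) q0, ih, succ_nsmul]

theorem HFO_pf (hHGA : HGA_st) (hSIG : SIG_st) (hLOC : LOC_st) (hSPL : SPL_st) (hHT : HT_st) (hFACT : FACT_st) (hLVD : LVD_st) : HFO_st := by
  intro r i j lam G G' H d d' Vq σ X A _ L ax hG hG' hH hi hd hd' fam tX hL hL0
  have on := PLK_ok.2.2.2.1
  have m1 := fun y hy => ((hLVD r G 0 0 ax.r0 ax.n3 hG).1 ⊥ y hy).trans
    (congrArg (lv r · _ 0 0) (AddSubgroup.map_bot _))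
  have m2 := (hLVD r G' i j ax.r0 ax.n3 hG').1 (AddSubgroup.zmultiples H)
  rw [← hd] at m1
  rw [← hd'] at m2
  have k1 := fun y hy => m1 y hy ▸ (hLVD r _ 0 0 ax.r0 ax.n3 (hG.gal hy)).2.1
  have k2 := fun y hy => (hLVD r _ i j ax.r0 ax.n3 (hG'.gal hy)).2.2 lam _ (d'.mp y) ax (hH.gal hy)
    (by rw [m2 y hy, AddMonoidHom.map_zmultiples])
  have ga : ∀ e : Lv, e.Ok → ∀ y ∈ GK, gal y e.pt = (e.mp y).pt := fun e h y hy =>
    (hHGA _ _ _ h y hy).2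
  have o1 : d.Ok := hd ▸ (hLVD r G 0 0 ax.r0 ax.n3 hG).2.1.1
  have o2 : d'.Ok := ((hLVD r G' i j ax.r0 ax.n3 hG').2.2 lam H d' ax hH hd').1
  have fx : ∀ g ∈ UL r (nn lam), ∀ P, Gen (9 * r) P → gal g P = P := fun g hg P h =>
    hg.1.2 P (dvd_smul h.zero ⟨9 * r, by rw [N0]; push_cast; ring⟩)
  have f1 : d.pt ∈ Fp (UL r (nn lam)) := fun g hg => by
    rw [ga d o1 g hg.1.1, m1 g hg.1.1, fx g hg G hG, hd]
  have f2 : d'.pt ∈ Fp (UL r (nn lam)) := fun g hg => by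
    rw [ga d' o2 g hg.1.1, m2 g hg.1.1, fx g hg G' hG', hg.2 H hH.zero, hd']
  refine ⟨f1, f2, ?_⟩
  have sp : ∀ V : Plc, V.l % 3 = 1 → ¬ Ov V (3 * r) → ∀ y ∈ GK,
      ¬ E1 V.v ((d.mp y).pt - (d'.mp y).pt) := fun V h1 h3 y hy e => by
    obtain ⟨-, c1, -, c2, c3, c4⟩ := k2 y hy
    refine c2 hi (E1_tor (hSPL V _ _ h1 ((k1 y hy).2.2 V h3).gd (c4 V h3).1 e pw ?_)
      (fun o => h3 (Ov_mul.2 (.inl o))) ?_)
    · rw [m1 y hy, lv, zero_smul, add_zero, ← mul_smul]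
      exact dvd_smul (hG.gal hy).zero ⟨ω ^ 2, by
        have : pw * (ω - 1) = 3 * ω ^ 2 := by decide
        rw [e2]
        linear_combination (3 * r : Zw) * this⟩
    · rw [← mul_smul, c1]
      exact dvd_smul c3 ⟨pw, by push_cast; ring⟩
  have ne : ∀ y ∈ GK, (d.mp y).pt ≠ (d'.mp y).pt := fun y hy e => by
    obtain ⟨V, hV⟩ := PLK_ok.2.1 lam ax.pp.1
    have b := ax.big
    have r0 := Nat.pos_of_ne_zero ax.r0
    obtain s | s | s := (PLK_ok.2.2.1 V lam ax.pp.1 hV).2.2.1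
    · refine sp V s.1 (fun o => ?_) y hy ((E1_iff _ _).2 (.inl (sub_eq_zero.2 e)))
      have := Nat.le_of_dvd (by omega) ((on V (3 * r)).1 (by exact_mod_cast o))
      nlinarith [s.2.1]
    · exact Nat.Prime.not_prime_pow le_rfl (s.2 ▸ ax.deg)
    · nlinarith [s.2]
  obtain ⟨D0, hD⟩ := hHT _ X _ tX (sub_mem f1 f2)
  have q0 : ∀ q ∈ Qs r (27 * r ^ 2 * nn lam), q ≠ 0 := fun q hq => (mem_filter.1 hq).2.1.ne_zero
  rw [← log_GHFO hL _ _ q0]
  refine hFACT A L (6 * r) _ _ hL hL0 (mul_ne_zero (by decide) (Nat.cast_ne_zero.2 ax.r0)) D0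
    (prod_ne_zero_iff.2 fun q hq => pow_ne_zero _ (Nat.cast_ne_zero.2 (q0 q hq))) fun V hV => ?_
  have v1 : ∀ (U : Plc) (e : ℕ), ∀ q ∈ Qs r (27 * r ^ 2 * nn lam), q ≠ U.l →
      U.v (W.io (q ^ e)) = 1 := fun U e q hq h => not_Ov.1 fun o => h
    ((Nat.prime_dvd_prime_iff_eq U.hl.out (mem_filter.1 hq).2.1).1 ((on U q).1 (Ov_pow o))).symm
  have l6 : ¬ V.l ∣ 6 * r := fun h => hV (by exact_mod_cast (on V _).2 h)
  have n3 : ∀ W : Plc, W.l = V.l → ¬ Ov W (3 * r) := fun W e o =>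
    l6 (e ▸ ((on W (3 * r)).1 (by exact_mod_cast o)).trans ⟨2, by ring⟩)
  rw [map_prod, map_prod]
  by_cases h1 : V.l % 3 = 1
  · have := hD V
    rw [prod_eq_one fun y hy => by
      rw [map_sub, ga d o1 y (tX.1 y hy), ga d' o2 y (tX.1 y hy),
        max_eq_left (not_E1.1 (sp V h1 (n3 V rfl) y (tX.1 y hy))).2], mul_one] at this
    rw [this, prod_eq_one fun q hq => v1 V _ q hq fun e => by
      have := (mem_filter.1 hq).2.2.1
      omega]
  have h2 : V.l % 3 = 2 := by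
    have : ¬ 3 ∣ V.l := fun h => l6 ((Nat.prime_dvd_prime_iff_eq Nat.prime_three V.hl.out).1 h ▸
      ⟨2 * r, by ring⟩)
    omega
  obtain ⟨e, hI⟩ := fam V.l V.hl.out h2
  obtain ⟨-, g, hg, eg⟩ := (PLK_ok.2.2.1 V V.l (inert_prime V.hl.out h2) (Ov_l V)).2.1 (Vq V.l)
    ((on _ _).2 e.dvd)
  have ev : ∀ b, V.v (W.io b) = (Vq V.l).v (W.io b) := fun b => by rw [eg, V.mv_v, io_fix hg]
  have nl : ¬ Ov (Vq V.l) (nn lam) := fun o => by
    have := (Nat.prime_dvd_prime_iff_eq (Vq V.l).hl.out ax.deg).1 ((on _ _).1 o)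
    have := nn_mod3 ax.pp.2.pw
    omega
  have lo := fun y hy => hLOC (Vq V.l) (σ V.l) (d.mp y) (d'.mp y) (mu r * nn lam) (r * nn lam)
    (27 * r ^ 2 * nn lam) ⟨hI, fun c => l6 (e ▸ c ▸ ⟨3 * r, by ring⟩)⟩ ((k1 y hy).2.2 _ (n3 _ e))
    (((k2 y hy).2.2.2.2.2 _ (n3 _ e)).2 nl) (fun o => (Ov_mul.1 o).elim (fun o => n3 _ e (by
      rw [mu, mul_right_comm] at o
      exact (Ov_mul.1 o).elim id fun o => Ov_mul.2 (.inl (Ov_three.2 o)))) nl) (k2 y hy).2.2.1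
    ⟨3, by rw [mu]; ring⟩ (by simp) (by
      rw [(k1 y hy).2.1, (k2 y hy).2.1, mu, nn_mul, nn_mul, nn_mul, nn_pw, nn_nat, nn_nat,
        show nn 3 = 9 by decide]
      ring) (ne y hy)
  have key := prod_eq_one fun y hy => lo y (tX.1 y hy)
  rw [prod_mul_distrib, prod_pow_eq_pow_sum, ← ls] at key
  have k3 := hD (Vq V.l)
  rw [prod_congr rfl fun y hy => by rw [map_sub, ga d o1 y (tX.1 y hy), ga d' o2 y (tX.1 y hy)]] at k3
  simp only [ev]
  rw [prod_eq_single V.l (fun q hq h => v1 _ _ q hq (e.symm ▸ h)) fun h => ?_, map_pow, map_pow,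
    map_natCast]
  · rw [e] at key
    exact mul_left_cancel₀ (left_ne_zero_of_mul_eq_one key) ((mul_comm _ _).trans (k3.trans key.symm))
  · rw [show ls X (Vq V.l) (σ V.l) d d' (mu r * nn lam) (27 * r ^ 2 * nn lam) = 0 from
      sum_eq_zero fun y _ => sum_eq_zero fun p hp => (h ?_).elim, pow_zero, map_one, map_one]
    obtain ⟨-, p1, p2⟩ := mem_filter.1 hp
    have := Nat.le_mul_of_pos_right (Vq V.l).l (nn_pos p1)
    exact mem_filter.2 ⟨mem_range.2 (by omega), V.hl.out, h2, fun c => l6 (c.mul_left 6)⟩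

end Pool.Agent.MP_e23604_nt.Z.G
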