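import Pool.Agent.MP_e23604_nt.Z.GS

set_option autoImplicit false

open Finset QuadraticAlgebra Polynomial
open scoped Classical

namespace Pool.Agent.MP_e23604_nt.Z.G

open B R S W Un

theorem HO0_pf (_hSIG : SIG_st) (hPGH : PGH_st) (hVGR : VGR_st) : HO0_st := by
  intro V σ d d' φ φ' s D F h c
  obtain ⟨N, n1, n2⟩ := hPGH c V.l V.hl.out
  have oN := NC.not_Ov_nat n1
  have N0 : 0 < N := Nat.pos_of_ne_zero fun e => n1 (e ▸ dvd_zero _)
  have N1 : (N : Zw) ≠ 0 := Nat.cast_ne_zero.2 N0.ne'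
  obtain ⟨-, -, -, -, -, -, -, -, -, gw, hφ⟩ := hVGR V d' h.tm'.gd
  let Z : AddSubgroup (PW (Wd d'.pt)) :=
    { carrier := {P | E1 V.v P}, zero_mem' := trivial, add_mem' := gw.add, neg_mem' := gw.neg }
  let π := QuotientAddGroup.mk' Z
  have hπ : ∀ P, π P = 0 ↔ E1 V.v P := fun P => QuotientAddGroup.eq_zero_iff P
  choose p hp using h.hD.onto
  have key : ∀ P P', (P, P') ∈ D → π P' = π (p P) := fun P P' e => by
    rw [← sub_eq_zero, ← map_sub, hπ]
    exact (h.hD.one 0 _ (by simpa using D.sub_mem e (hp P))).1 trivial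
  let ψ : PW (Wd d.pt) →+ _ := AddMonoidHom.mk' (fun P => π (p P)) fun P Q => by
    rw [← key _ _ (D.add_mem (hp P) (hp Q)), map_add]
  let H : Zw × Zw × Zw → Pt →+ _ := fun x => π.comp (φ'.comp (be σ x.1 x.2.1)) -
    ψ.comp (φ.comp (DistribSMul.toAddMonoidHom Pt x.2.2))
  have hH : ∀ x P, H x P = π (φ' (be σ x.1 x.2.1 P)) - ψ (φ (x.2.2 • P)) := fun _ _ => rfl
  have ad : ∀ x y P, H (x + y) P = H x P + H y P := fun x y P => by
    simp only [hH, be_apply, Prod.fst_add, Prod.snd_add, add_smul, map_add]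
    abel
  have := gw.ell
  have tc := btors_card (Wd d'.pt) N0
  have : Finite {P : PW (Wd d'.pt) // N • P = 0} :=
    Nat.finite_of_card_ne_zero (tc ▸ (pow_pos N0 2).ne')
  have := Fintype.ofFinite {P : PW (Wd d'.pt) // N • P = 0}
  let Y := univ.image fun t : {P : PW (Wd d'.pt) // N • P = 0} => π t.1
  have cY : Y.card ≤ N ^ 2 := card_image_le.trans (by rw [card_univ, Fintype.card_eq_nat_card, tc])
  have rep : ∀ x P, (N : Zw) • P = 0 → H x P ∈ Y := fun x P e => by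
    obtain ⟨Q, e1⟩ := QuotientAddGroup.mk'_surjective Z (H x P)
    obtain ⟨Q, rfl⟩ := h.vl'.sur Q
    rw [Nat.cast_smul_eq_nsmul] at e
    obtain ⟨c, c1, c2⟩ := ((hφ φ' h.vl').1 (N • Q)).1 ((hπ _).1 (by
      rw [map_nsmul, map_nsmul]
      exact (congrArg (N • ·) e1).trans (by rw [← map_nsmul, e, map_zero])))
    obtain ⟨R, ⟨r1, r2, -⟩, -⟩ := DIV_ok V N 1 _ _ N1 c2 (by rw [not_Ov.1 oN, one_pow, one_mul])
      (not_Ov.1 oN ▸ pow_lt_one₀ (V.v.nonneg _) (zz_lt c2) three_ne_zero)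
    rw [pow_one, Nat.cast_smul_eq_nsmul] at r2
    refine mem_image.2 ⟨⟨φ' (Q - R), ?_⟩, mem_univ _, ?_⟩
    · rw [← map_nsmul, smul_sub, r2, sub_sub_cancel, h.vl'.ker]
      exact c1
    · change π (φ' (Q - R)) = _
      rw [map_sub, map_sub, (hπ (φ' R)).2 (((hφ φ' h.vl').1 R).2 ⟨0, zero_mem _, by simpa⟩),
        sub_zero]
      exact e1
  obtain ⟨⟨G, g1⟩, g2, -⟩ := CYG_ok N N1
  have g3 := (g1 N).2 dvd_rfl
  obtain ⟨x, x0, x1, x2⟩ := n2 _ (AddMonoidHom.mk' (fun x => (H x G, H x ((ω : Zw) • G)))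
    fun x y => Prod.ext (ad x y _) (ad x y _)) (Y ×ˢ Y)
    (by rw [card_product, show 4 = 2 + 2 from rfl, pow_add]; exact Nat.mul_le_mul cY cY)
    fun x => mem_product.2 ⟨rep x G g3, rep x _ (by rw [smul_comm, g3, smul_zero])⟩
  refine ⟨N, x.1, x.2.1, x.2.2, oN, x0, x2, fun P P₃ e e' => ?_⟩
  obtain ⟨u, rfl⟩ := g2 G g1 P e
  rw [← hπ, map_sub, map_sub, key _ _ e']
  change H x (u • G) = 0
  rw [Zw_eq u, add_smul, mul_smul, Int.cast_smul_eq_zsmul, Int.cast_smul_eq_zsmul, map_add,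
    map_zsmul, map_zsmul, show H x G = 0 from congrArg Prod.fst x1,
    show H x ((ω : Zw) • G) = 0 from congrArg Prod.snd x1, smul_zero, smul_zero, add_zero]

end Pool.Agent.MP_e23604_nt.Z.G
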