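import Pool.Agent.MP_e23604_nt.Z.GS

set_option autoImplicit false

open Finset QuadraticAlgebra Polynomial
open scoped Classical

namespace Pool.Agent.MP_e23604_nt.Z.G

open B R S W Un

/-- pairs of congruent integral elements -/
def Rg_GHO1 (V : Plc) (ρ : ℝ) (h : 0 ≤ ρ) : Subring (Qb × Qb) where
  carrier := {p | V.v p.1 ≤ 1 ∧ V.v p.2 ≤ 1 ∧ V.v (p.1 - p.2) ≤ ρ}
  mul_mem' {a b} h h' := ⟨bLocA_mul_one h.1 h'.1, bLocA_mul_one h.2.1 h'.2.1, by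
    convert bLocA_add_le V.na ((bLocA_mul_le h.1).trans h'.2.2)
      ((bLocA_mul_le h'.2.1).trans h.2.2) using 2
    simp only [Prod.fst_mul, Prod.snd_mul]
    ring⟩
  one_mem' := ⟨by simp, by simp, by simpa using h⟩
  add_mem' {a b} h h' := ⟨bLocA_add_le V.na h.1 h'.1, bLocA_add_le V.na h.2.1 h'.2.1, by
    convert bLocA_add_le V.na h.2.2 h'.2.2 using 2
    simp only [Prod.fst_add, Prod.snd_add]
    ring⟩
  zero_mem' := ⟨by simp, by simp, by simpa using h⟩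
  neg_mem' {a} h := ⟨by simpa using h.1, by simpa using h.2.1, by
    simpa [V.v.map_sub, neg_add_eq_sub] using h.2.2⟩

theorem map_GHO1 {A B : Type} [CommRing A] [CommRing B] (f : A →+* B)
    (b₂ b₄ b₆ b₈ u₁ v₁ u₂ v₂ u₃ v₃ : A) : f (s3 b₂ b₄ b₆ b₈ u₁ v₁ u₂ v₂ u₃ v₃) =
    s3 (f b₂) (f b₄) (f b₆) (f b₈) (f u₁) (f v₁) (f u₂) (f v₂) (f u₃) (f v₃) := by
  simp only [s3, map_add, map_sub, map_mul, map_pow, map_ofNat]

theorem cong_GHO1 {V : Plc} {ρ : ℝ} (h : 0 ≤ ρ) {E : WeierstrassCurve Qb} (hE : Gw V E)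
    {p₁ p₂ p₃ p₄ p₅ p₆ : Qb × Qb} (h₁ : p₁ ∈ Rg_GHO1 V ρ h) (h₂ : p₂ ∈ Rg_GHO1 V ρ h)
    (h₃ : p₃ ∈ Rg_GHO1 V ρ h) (h₄ : p₄ ∈ Rg_GHO1 V ρ h) (h₅ : p₅ ∈ Rg_GHO1 V ρ h)
    (h₆ : p₆ ∈ Rg_GHO1 V ρ h) : V.v (s3 E.b₂ E.b₄ E.b₆ E.b₈ p₁.1 p₂.1 p₃.1 p₄.1 p₅.1 p₆.1 -
      s3 E.b₂ E.b₄ E.b₆ E.b₈ p₁.2 p₂.2 p₃.2 p₄.2 p₅.2 p₆.2) ≤ ρ := by
  have k : ∀ x : Qb, V.v x ≤ 1 → algebraMap Qb (Qb × Qb) x ∈ Rg_GHO1 V ρ h :=
    fun x e => ⟨e, e, by simpa using h⟩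
  obtain ⟨a1, a2, a3, a4, a6⟩ := hE.int
  have := k _ a1
  have := k _ a2
  have := k _ a3
  have := k _ a4
  have := k _ a6
  have m : s3 (algebraMap Qb (Qb × Qb) E.b₂) (algebraMap Qb _ E.b₄) (algebraMap Qb _ E.b₆)
      (algebraMap Qb _ E.b₈) p₁ p₂ p₃ p₄ p₅ p₆ ∈ Rg_GHO1 V ρ h := by
    simp only [s3, WeierstrassCurve.b₂, WeierstrassCurve.b₄, WeierstrassCurve.b₆,
      WeierstrassCurve.b₈, map_add, map_sub, map_mul, map_pow, map_ofNat]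
    repeat with_reducible first
      | assumption | apply add_mem | apply sub_mem | apply mul_mem | apply pow_mem
      | exact ofNat_mem _ _
  exact m.2.2

theorem deg_GHO1 (b₂ b₄ b₆ b₈ : Qb) {u₁ v₁ u₂ v₂ u₃ v₃ : Qb[X]} {n₁ n₂ n₃ : ℕ}
    (h₁ : u₁.natDegree ≤ n₁) (h₂ : v₁.natDegree ≤ n₁) (h₃ : u₂.natDegree ≤ n₂)
    (h₄ : v₂.natDegree ≤ n₂) (h₅ : u₃.natDegree ≤ n₃) (h₆ : v₃.natDegree ≤ n₃) :
    (s3 (C b₂) (C b₄) (C b₆) (C b₈) u₁ v₁ u₂ v₂ u₃ v₃).natDegree ≤ 2 * (n₁ + n₂ + n₃) := by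
  unfold s3
  compute_degree
  omega

theorem smul_GHO1 {V : Plc} {E : WeierstrassCurve Qb} {P : PW E} {u w e : Qb} (h : Nr V P u w)
    (he : V.v e = 1) : Nr V P (e * u) (e * w) := by
  have e0 : e ≠ 0 := fun x => by simp [x] at he
  obtain ⟨⟨c, c0, hc⟩, m⟩ := h
  refine ⟨⟨c / e, div_ne_zero c0 e0, ?_⟩, by simpa [he] using m⟩
  rw [hc]
  ext i
  fin_cases i <;> simp <;> field_simp

theorem nr_GHO1 (hP : PARW_st) {V : Plc} {E E' : WeierstrassCurve Qb} (hE : Gw V E)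
    (hE' : Gw V E') {s : ℝ} (s0 : 0 ≤ s) (s1 : s < 1) {D : AddSubgroup (PW E × PW E')}
    (hD : Ap V 1 s D) {Q : PW E} {Q' : PW E'} (hQ : Q = 0 ∨ ¬ E1 V.v Q) (h : (Q, Q') ∈ D)
    {u w : Qb} (hn : Nr V Q u w) :
    ∃ u' w', Nr V Q' u' w' ∧ V.v (u - u') ≤ s ∧ V.v (w - w') ≤ s := by
  have hw := (hP V E hE).2.2.1 Q u w hn
  obtain ⟨⟨c, c0, hc⟩, m⟩ := hn
  rcases hQ with rfl | hQ
  · obtain ⟨u', w', hn'⟩ := (hP V E' hE').2.1 Q'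
    have e1 : E1 V.v Q' := (hD.one _ _ h).1 trivial
    have z0 : V.v (zz (0 : PW E)) = 0 := map_zero _
    have d := hD.dist _ _ h trivial
    rw [z0, pow_one, max_eq_right s0] at d
    have w1 : V.v w' ≤ s := by
      rw [(hP V E' hE').2.2.1 Q' u' w' hn', zs_of e1]
      have := le_max_left (V.v (zz Q')) s
      nlinarith [V.v.nonneg (zz Q')]
    rw [zs_of (show E1 V.v (0 : PW E) from trivial), z0] at hw
    have w0 : w = 0 := by simpa using hw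
    have u1 : V.v u = 1 := by simpa [w0] using m
    have u2 : V.v u' = 1 := by
      rcases max_choice (V.v u') (V.v w') with e | e <;> linarith [hn'.2]
    have u0 : u' ≠ 0 := fun x => by simp [x] at u2
    have := smul_GHO1 hn' (e := u / u') (by simp [u1, u2])
    exact ⟨_, _, this, by simpa [u0] using s0, by simpa [w0, u1, u2] using w1⟩
  · obtain ⟨-, n', e, -⟩ := (hD.cong _ _ hQ).1 h
    rw [zs_not hQ, one_pow] at hw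
    rw [xRep_xw (nE1_xw.1 hQ).1] at hc
    have c1 : xw Q = c * u := congrFun hc 0
    have c2 : 1 = c * w := congrFun hc 1
    refine ⟨_, _, smul_GHO1 (Nr.int n') hw, ?_, by simpa using s0⟩
    rw [show u - w * xw Q' = -w * (xw Q' - xw Q ^ 1) by linear_combination u * c2 - w * c1]
    simpa [hw] using e

theorem HO1_pf (hLAG : LAG_st) (hPARW : PARW_st) (hPIK : PIK_st) (hREPS : REPS_st)
    (hVGR : VGR_st) (hSIG : SIG_st) (hHO0 : HO0_st) : HO1_st := by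
  intro V σ d d' φ φ' s D F h
  have sg := hSIG V σ h.iq.inr
  obtain ⟨-, -, -, -, -, -, -, -, -, gE, hφ⟩ := hVGR V d h.tm.gd
  obtain ⟨-, -, -, -, -, -, -, -, -, gE', -⟩ := hVGR V d' h.tm'.gd
  obtain ⟨c, c1, c2, c3, c4⟩ : ∃ c, 4 * cd d'.C ≤ c ∧ 4 * (cd d'.C * V.l) ≤ c ∧ 5 * cd d.C ≤ c ∧
      1 ≤ c := ⟨4 * cd d'.C + 4 * (cd d'.C * V.l) + 5 * cd d.C + 1, by omega⟩
  obtain ⟨N, a, b, k, hN, ne, lt, h0⟩ := hHO0 V σ d d' φ φ' s D F h c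
  obtain ⟨A₁, B₁, d1, d1', b1, b1', n1⟩ := hREPS V d' φ' a h.tm'.gd h.vl'
  obtain ⟨A₂, B₂, d2, d2', b2, b2', n2⟩ := hREPS V d' φ' b h.tm'.gd h.vl'
  obtain ⟨A₃, B₃, d3, d3', -, -, n3⟩ := hREPS V d φ k h.tm.gd h.vl
  obtain ⟨H, hH⟩ : ∃ H, H = s3 (C (Wd d'.pt).b₂) (C (Wd d'.pt).b₄) (C (Wd d'.pt).b₆)
    (C (Wd d'.pt).b₈) A₁ B₁ (expand Qb V.l A₂) (expand Qb V.l B₂) A₃ B₃ := ⟨_, rfl⟩
  have dH : H.natDegree ≤ 2 * (cd d'.C * nn a + cd d'.C * nn b * V.l + cd d.C * nn k) :=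
    hH ▸ deg_GHO1 _ _ _ _ d1 d1' (by rw [natDegree_expand]; gcongr)
      (by rw [natDegree_expand]; gcongr) d3 d3'
  have key : ∀ ρ, V.v V.l ≤ ρ → ∀ P P₁ P₃ : Pt, ¬ E1 V.v P → ¬ E1 V.v P₁ →
      V.v (xc P₁ - xc P ^ V.l) ≤ ρ → (k = 0 ∨ ¬ E1 V.v (φ (k • P))) → (φ (k • P), φ' P₃) ∈ D →
      ∃ w, V.v w = z4 V (φ' (a • P)) (φ' (b • P₁)) (φ' P₃) ∧ V.v (H.eval (xc P) - w) ≤ ρ := by
    intro ρ hρ P P₁ P₃ nP nP₁ hx hk hD
    have r0 : 0 ≤ ρ := sg.q0.le.trans hρ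
    obtain ⟨u', w', n', e1, e2⟩ := nr_GHO1 hPARW gE gE' h.s0 (h.s1.trans_lt sg.q1) h.hD
      (hk.imp_left fun e => by rw [e, zero_smul, map_zero]) hD (n3 P nP)
    have x1 := (not_E1.1 nP).2
    have lip : ∀ A x y, Bd V A 1 → V.v x ≤ 1 → V.v y ≤ 1 → V.v (y - x) ≤ ρ →
        (A.eval x, A.eval y) ∈ Rg_GHO1 V ρ r0 := fun A x y hA hx hy e =>
      have l := ((hLAG V).2 A 1).2.2.1 hA
      ⟨(l x hx).1, (l y hy).1, ((l x hx).2 y hy).trans (by rwa [one_mul, V.v.map_sub])⟩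
    have xq : V.v (xc P ^ V.l) ≤ 1 := by
      rw [map_pow]
      exact pow_le_one₀ (V.v.nonneg _) x1
    refine ⟨_, ((hPARW V _ gE').2.2.2.2 _ _ _ _ _ _ (n1 P nP) (n2 P₁ nP₁)).2 _ _ _ n', ?_⟩
    rw [hH, ← coe_evalRingHom, map_GHO1]
    simpa only [coe_evalRingHom, eval_C, expand_eval] using cong_GHO1 r0 gE'
      (lip A₁ _ _ b1 x1 x1 (by simpa using r0)) (lip B₁ _ _ b1' x1 x1 (by simpa using r0))
      (lip A₂ _ _ b2 xq (not_E1.1 nP₁).2 hx) (lip B₂ _ _ b2' xq (not_E1.1 nP₁).2 hx)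
      (p₅ := (A₃.eval (xc P), u')) (p₆ := (B₃.eval (xc P), w'))
      ⟨le_of_max_le_left (n3 P nP).2.le, le_of_max_le_left n'.2.le, e1.trans (h.s1.trans hρ)⟩
      ⟨le_of_max_le_right (n3 P nP).2.le, le_of_max_le_right n'.2.le, e2.trans (h.s1.trans hρ)⟩
  have N0 : (N : Zw) ≠ 0 := ne_of_not_Ov hN
  obtain ⟨Z, cZ, hZ⟩ : ∃ Z : Finset Pt, Z.card ≤ nn k * cd d.C + 1 ∧
      ∀ P, P ∉ Z → P ≠ 0 ∧ (k = 0 ∨ k • P ∉ d.C) := by
    by_cases k0 : k = 0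
    · exact ⟨{0}, by simp, fun P e => ⟨by simpa using e, Or.inl k0⟩⟩
    · refine ⟨els (qC k d.C), qC_cd k0 h.tm.ok.fin ▸ Nat.le_succ _, fun P e => ?_⟩
      rw [mem_els (qC_fin k0 h.tm.ok.fin)] at e
      exact ⟨fun x => e (x ▸ zero_mem _), Or.inr e⟩
  have hS : ∀ P ∈ W.tor N \ Z, P ∈ TT V ∧ P ≠ 0 ∧ V.v (H.eval (xc P)) < 1 := fun P hP => by
    have e0 := (W.mem_tor N0).1 (mem_sdiff.1 hP).1
    obtain ⟨p0, hk⟩ := hZ P (mem_sdiff.1 hP).2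
    have t : P ∈ TT V := ⟨N, hN, e0⟩
    have nP : ¬ E1 V.v P := fun e => p0 (TT_E1 t e)
    have fr := sg.fr _ (not_E1.1 nP).2
    obtain ⟨Q, hQ⟩ := h.hD.onto (φ (k • P))
    obtain ⟨P₃, rfl⟩ := h.vl'.sur Q
    obtain ⟨w, e1, e2⟩ := key _ (le_max_left _ _) P (gal σ P) P₃ nP
      (fun e => p0 ((gal_ne σ).1 (TT_E1 (sg.tt P t).1 e))) (le_max_right _ _)
      (hk.imp_right fun n e => by
        obtain ⟨c, hc, e⟩ := ((hφ φ h.vl).1 _).1 e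
        exact n (sub_eq_zero.1 (TT_E1 (sub_mem (TT_smul t k) (h.tm.le hc)) e) ▸ hc)) hQ
    have z := gE'.zs_lt.2 (h0 P P₃ e0 hQ)
    rw [be_apply, map_sub, map_add] at z
    have w1 : V.v w < 1 := by
      rw [e1, z4]
      refine mul_lt_one_of_nonneg_of_lt_one_left ?_ (mul_lt_one_of_nonneg_of_lt_one_left ?_
        (mul_lt_one_of_nonneg_of_lt_one_right (gE'.zs_le _) (zs_nonneg _ _) z) (gE'.zs_le _))
        (gE'.zs_le _) <;> repeat first | apply mul_nonneg | apply zs_nonneg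
    rw [(xc_gal σ P).1] at e2
    exact ⟨t, p0, by simpa using bLocA_add_lt V.na (e2.trans_lt (max_lt sg.q1 fr)) w1⟩
  have cS := le_card_sdiff Z (W.tor N)
  have cY : (W.tor N \ Z).card ≤ 2 * ((W.tor N \ Z).image xc).card :=
    card_le_mul_card_image _ 2 fun y hy => by
      obtain ⟨Q, hQ, rfl⟩ := mem_image.1 hy
      refine (card_le_card fun P hP => ?_).trans (card_le_two (a := Q) (b := -Q))
      simpa using xc_eq (hS P (mem_filter.1 hP).1).2.1 (hS Q hQ).2.1 (mem_filter.1 hP).2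
  rw [CARD_ok N N0, nn_nat, tsub_le_iff_right] at cS
  have dY : H.natDegree < ((W.tor N \ Z).image xc).card := by
    linarith [Nat.mul_le_mul_right (nn a) c1, Nat.mul_le_mul_right (nn b) c2,
      Nat.mul_le_mul_right (nn k) c3]
  obtain ⟨y, hy, hm⟩ := exists_max_image ((W.tor N \ Z).image xc) (fun y => V.v (H.eval y))
    (card_pos.1 (by omega))
  have pk := ((hPIK V).2 sg.n3).1
  have bd := ((hLAG V).2 H _).1 _ dY (fun x hx => ⟨by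
    obtain ⟨Q, hQ, rfl⟩ := mem_image.1 hx
    exact (pk Q (hS Q hQ).1 (hS Q hQ).2.1).1, hm x hx⟩) fun x hx x' hx' n => by
      obtain ⟨Q, hQ, rfl⟩ := mem_image.1 hx
      obtain ⟨Q', hQ', rfl⟩ := mem_image.1 hx'
      exact (pk Q (hS Q hQ).1 (hS Q hQ).2.1).2 Q' (hS Q' hQ').1 (hS Q' hQ').2.1
        (fun e => n (e ▸ rfl)) fun e => n (e ▸ (xc_neg Q').1)
  obtain ⟨Q, hQ, rfl⟩ := mem_image.1 hy
  refine ⟨a, b, k, _, ne, max_lt (hS Q hQ).2.2 sg.q1, fun P P₁ P₃ nP hk hF hD => ?_⟩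
  obtain ⟨-, n₁, e, -⟩ := (h.hF.cong P P₁ nP).1 hF
  rw [xw_xc, xw_xc] at e
  obtain ⟨w, e1, e2⟩ := key _ le_rfl P P₁ P₃ nP n₁ e hk hD
  simpa only [sub_sub_cancel, e1] using bLocA_sub_le V.na
    ((((hLAG V).2 H _).2.2.1 bd _ (not_E1.1 nP).2).1.trans (le_max_left _ _))
    (e2.trans (le_max_right _ _))

end Pool.Agent.MP_e23604_nt.Z.G
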