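import Pool.Agent.MP_e23604_nt.Z.GS

/-!
The signs in the relation can be chosen once and for all.
-/

set_option autoImplicit false

open Finset QuadraticAlgebra Polynomial
open scoped Classical Pointwise

namespace Pool.Agent.MP_e23604_nt.Z.G

open B R S W Un

theorem cover_HO2 {A ι : Type} [AddCommGroup A] [Fintype ι] (H : ι → AddSubgroup A)
    (h : ∀ x, ∃ i, x ∈ H i) : ∃ (i : ι) (n : ℕ), n ≠ 0 ∧ ∀ x, n • x ∈ H i := by
  obtain ⟨i, -, hi⟩ := AddSubgroup.exists_finiteIndex_of_leftCoset_cover (H := H)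
    (g := fun _ => (0 : A)) (s := univ) (Set.eq_univ_of_forall fun x => by
      obtain ⟨i, hi⟩ := h x
      simp only [Set.mem_iUnion, zero_vadd]
      exact ⟨i, mem_univ _, hi⟩)
  exact ⟨i, _, hi.index_ne_zero, fun x => (H i).nsmul_index_mem x⟩

section curve

variable {V : Plc} {E : WeierstrassCurve Qb}

theorem zs_add_HO2 (h : Gw V E) {P Q : PW E} {r : ℝ} (hr : r < 1) (a : zs V P ≤ r)
    (b : zs V Q ≤ r) : zs V (P + Q) ≤ r := by
  have a' := h.zs_lt.1 (a.trans_lt hr)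
  have b' := h.zs_lt.1 (b.trans_lt hr)
  obtain ⟨k₁, k₂⟩ := E1_add V.na h.int a' b'
  rw [zs_of a'] at a
  rw [zs_of b'] at b
  have m := max_le a b
  have m0 : 0 ≤ max (V.v (zz P)) (V.v (zz Q)) := le_max_of_le_left (V.v.nonneg _)
  rw [zs_of k₁]
  convert bLocA_add_le V.na (bLocA_add_le V.na (k₂.trans (by nlinarith)) b) a using 2
  ring

theorem zs_neg_HO2 (h : Gw V E) {P : PW E} {r : ℝ} (hr : r < 1) (a : zs V P ≤ r) :
    zs V (-P) ≤ r := by
  have a' := h.zs_lt.1 (a.trans_lt hr)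
  obtain ⟨k₁, k₂⟩ := E1_neg V.na h.int a'
  rw [zs_of a'] at a
  have m0 := V.v.nonneg (zz P)
  rw [zs_of k₁]
  convert bLocA_sub_le V.na (k₂.trans (by nlinarith)) a using 2
  ring

/-- the points at distance at most `r` -/
noncomputable def Zr_HO2 (h : Gw V E) {r : ℝ} (r0 : 0 ≤ r) (hr : r < 1) : AddSubgroup (PW E) where
  carrier := {P | zs V P ≤ r}
  zero_mem' := by
    change zs V 0 ≤ r
    rwa [zs_of (show E1 V.v (0 : PW E) from trivial), zz_zero, map_zero]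
  add_mem' := zs_add_HO2 h hr
  neg_mem' := zs_neg_HO2 h hr

/-- the kernel of reduction -/
def E1s_HO2 (h : Gw V E) : AddSubgroup (PW E) where
  carrier := {P | E1 V.v P}
  zero_mem' := trivial
  add_mem' := h.add
  neg_mem' := h.neg

theorem four_HO2 {t : ℝ} (ht : t < 1) : ∃ r : ℝ, 0 ≤ r ∧ r < 1 ∧ ∀ a b c d : ℝ,
    a * b * c * d ≤ t → a ≤ r ∨ b ≤ r ∨ c ≤ r ∨ d ≤ r := by
  have m0 : 0 ≤ max t 0 := le_max_right _ _
  have m1 : max t 0 < 1 := max_lt ht one_pos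
  refine ⟨√(√(max t 0)), Real.sqrt_nonneg _, ?_, fun a b c d e => ?_⟩
  · rwa [Real.sqrt_lt' one_pos, one_pow, Real.sqrt_lt' one_pos, one_pow]
  · by_contra k
    simp only [not_or, not_le] at k
    obtain ⟨k1, k2, k3, k4⟩ := k
    have s0 := Real.sqrt_nonneg (√(max t 0))
    have s1 := Real.mul_self_sqrt (Real.sqrt_nonneg (max t 0))
    have s2 := Real.mul_self_sqrt m0
    have p1 := mul_lt_mul'' k1 k2 s0 s0
    have p2 := mul_lt_mul'' k3 k4 s0 s0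
    rw [s1] at p1 p2
    have p3 := mul_lt_mul'' p1 p2 (Real.sqrt_nonneg _) (Real.sqrt_nonneg _)
    rw [s2, ← mul_assoc] at p3
    linarith [le_max_left t 0]

end curve

theorem HO2_of (hV : VGR_st) (h1 : HO1_st) : HO2_st := by
  intro V σ d d' φ φ' s D F h
  obtain ⟨a, b, k, t, ne, ht, H⟩ := h1 V σ d d' φ φ' s D F h
  obtain ⟨r, r0, r1, hr⟩ := four_HO2 ht
  obtain ⟨-, -, -, -, -, -, -, -, -, g, hφ⟩ := hV V d h.tm.gd
  have g' := (hV V d' h.tm'.gd).2.2.2.2.2.2.2.2.2.1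
  have g0 := gw_EQ h.tm.n3
  have q1 : V.v V.l < 1 := by
    have := (PLK_ok.2.2.2.1 V V.l).2 dvd_rfl
    rwa [Ov, map_natCast] at this
  let Γ : AddSubgroup (Pt × Pt × Pt) :=
    { carrier := {x | (x.1, x.2.1) ∈ F ∧ (φ (k • x.1), φ' x.2.2) ∈ D}
      zero_mem' := ⟨F.zero_mem, by
        simp only [Prod.fst_zero, Prod.snd_zero, smul_zero, map_zero]
        exact D.zero_mem⟩
      add_mem' := fun {x y} p q => ⟨F.add_mem p.1 q.1, by simpa using D.add_mem p.2 q.2⟩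
      neg_mem' := fun {x} p => ⟨F.neg_mem p.1, by simpa using D.neg_mem p.2⟩ }
  have on : ∀ P : Pt, ∃ x : Γ, x.1.1 = P := fun P => by
    obtain ⟨P₁, e₁⟩ := h.hF.onto P
    obtain ⟨Q, e₂⟩ := h.hD.onto (φ (k • P))
    obtain ⟨P₃, rfl⟩ := h.vl'.sur Q
    exact ⟨⟨(P, P₁, P₃), e₁, e₂⟩, rfl⟩
  let f : ℤ → ℤ → Γ →+ PW (Wd d'.pt) := fun i j => AddMonoidHom.mk'
    (fun x => φ' (a • x.1.1) + i • φ' (b • x.1.2.1) + j • φ' x.1.2.2) fun x y => by
      simp only [AddSubgroup.coe_add, Prod.fst_add, Prod.snd_add, smul_add, map_add]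
      rw [zsmul_add, zsmul_add]
      abel
  let p : Γ →+ Pt := AddMonoidHom.mk' (fun x => x.1.1) fun _ _ => rfl
  let k' : Zw := if k = 0 then 1 else k
  let p' : Γ →+ PW (Wd d.pt) := AddMonoidHom.mk' (fun x => φ (k' • x.1.1)) fun x y => by
    simp only [AddSubgroup.coe_add, Prod.fst_add, smul_add, map_add]
  have nS : ∀ g : Zw, g ≠ 0 → ∃ x : Γ, ¬ E1 V.v (φ (g • x.1.1)) := fun g hg => by
    obtain ⟨P, e⟩ := smul_onto hg d.S
    obtain ⟨x, rfl⟩ := on P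
    refine ⟨x, fun e' => ?_⟩
    obtain ⟨c, hc, e''⟩ := ((hφ φ h.vl).1 _).1 (e ▸ e')
    exact h.tm.ok.s0 (sub_eq_zero.1 (TT_E1 (sub_mem h.tm.S (h.tm.le hc)) e'') ▸ hc)
  have fin : ∀ (i j : ℤ) (n : ℕ), i ≠ 0 → j * j = 1 → n ≠ 0 →
      (∀ x : Γ, n • x ∈ (Zr_HO2 g' r0 r1).comap (f i j)) →
      ∃ (a b k : Zw) (t : ℝ), (a, b, k) ≠ 0 ∧ t < 1 ∧ Hm V φ φ' D F t a b k := by
    intro i j n hi hj hn e
    have j0 : j ≠ 0 := by
      rintro rfl
      simp at hj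
    have m1 := max_lt r1 (h.s1.trans_lt q1)
    refine ⟨(-j * n : ℤ) * a, (-j * n * i : ℤ) * b, n * k, max r s, fun z => ne ?_, m1, ?_⟩
    · simp only [Prod.mk_eq_zero, mul_eq_zero, Int.cast_eq_zero, Nat.cast_eq_zero, neg_eq_zero,
        hi, j0, hn, false_or] at z ⊢
      exact z
    intro P P₁ P₃ e₁ e₃
    obtain ⟨Q, e₂⟩ := h.hD.onto (φ (k • P))
    obtain ⟨P₄, rfl⟩ := h.vl'.sur Q
    have e₄ : ((0 : PW (Wd d.pt)), φ' (n • P₄ - P₃)) ∈ D := by
      convert D.sub_mem (D.nsmul_mem e₂ n) e₃ using 1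
      simp [mul_smul, Nat.cast_smul_eq_nsmul]
    have e₅ := (h.hD.one _ _ e₄).1 trivial
    have e₆ := h.hD.dist _ _ e₄ trivial
    rw [zz_zero, map_zero, pow_one, max_eq_right h.s0, ← zs_of e₅] at e₆
    have e₇ : zs V _ ≤ r := (Zr_HO2 g' r0 r1).zsmul_mem (e ⟨(P, P₁, P₄), e₁, e₂⟩) (-j)
    convert zs_add_HO2 g' m1 (e₇.trans (le_max_left _ _))
      ((le_max_left _ _).trans (e₆.le.trans (le_max_right _ _))) using 2
    rw [map_nsmul]
    simp only [f, AddMonoidHom.mk'_apply, mul_smul, Int.cast_smul_eq_zsmul, map_add, map_sub,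
      map_zsmul, map_nsmul]
    have : (j * j) • n • φ' P₄ = n • φ' P₄ := by rw [hj, one_smul]
    linear_combination (norm := module) this
  obtain ⟨i, n, hn, e⟩ := cover_HO2 (ι := Fin 6)
    ![(Zr_HO2 g' r0 r1).comap (f 1 1), (Zr_HO2 g' r0 r1).comap (f 1 (-1)),
      (Zr_HO2 g' r0 r1).comap (f (-1) 1), (Zr_HO2 g' r0 r1).comap (f (-1) (-1)),
      (E1s_HO2 g0).comap p, (E1s_HO2 g).comap p'] fun x => by
    by_cases e₁ : E1 V.v x.1.1
    · exact ⟨4, e₁⟩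
    by_cases e₂ : E1 V.v (φ (k' • x.1.1))
    · exact ⟨5, e₂⟩
    have e₃ : k = 0 ∨ ¬ E1 V.v (φ (k • x.1.1)) :=
      or_iff_not_imp_left.2 fun z => by simpa only [k', if_neg z] using e₂
    rcases hr _ _ _ _ (H _ _ _ e₁ e₃ x.2.1 x.2.2) with z | z | z | z
    · exact ⟨0, show zs V _ ≤ r by simpa [f] using z⟩
    · exact ⟨1, show zs V _ ≤ r by simpa [f, sub_eq_add_neg] using z⟩
    · exact ⟨2, show zs V _ ≤ r by simpa [f, sub_eq_add_neg] using z⟩
    · exact ⟨3, show zs V _ ≤ r by simpa [f, sub_eq_add_neg] using z⟩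
  fin_cases i
  · exact fin 1 1 n (by simp) (by simp) hn e
  · exact fin 1 (-1) n (by simp) (by simp) hn e
  · exact fin (-1) 1 n (by simp) (by simp) hn e
  · exact fin (-1) (-1) n (by simp) (by simp) hn e
  · obtain ⟨x, z⟩ := nS n (Nat.cast_ne_zero.2 hn)
    refine (z (((hφ φ h.vl).1 _).2 ⟨0, zero_mem _, ?_⟩)).elim
    have : E1 V.v (p (n • x)) := e x
    rwa [sub_zero, Nat.cast_smul_eq_nsmul]
  · obtain ⟨x, z⟩ := nS (k' * n) (mul_ne_zero (by
      simp only [k']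
      split_ifs with z
      exacts [one_ne_zero, z]) (Nat.cast_ne_zero.2 hn))
    refine (z ?_).elim
    have : E1 V.v (p' (n • x)) := e x
    rwa [mul_smul, Nat.cast_smul_eq_nsmul]

end Pool.Agent.MP_e23604_nt.Z.G
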