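import Pool.Agent.MP_e23604_nt.Z.GS

set_option autoImplicit false

open Finset QuadraticAlgebra Polynomial
open scoped Classical

namespace Pool.Agent.MP_e23604_nt.Z.G

open B R S W Un

theorem gcd_GHT {x y : Qb} (hx : Fix GK x) (hy : Fix GK y) :
    ∃ z, Fix GK z ∧ ∀ V : Plc, V.v z = max (V.v x) (V.v y) := by
  obtain ⟨a, b, hb, rfl⟩ := (PLK_ok.2.2.2.2.2.2.1 x hx).1
  obtain ⟨a', b', hb', rfl⟩ := (PLK_ok.2.2.2.2.2.2.1 y hy).1
  have k : ∀ (V : Plc) (c d : Zw), c ∣ d → V.v (W.io d) ≤ V.v (W.io c) := by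
    rintro V c _ ⟨e, rfl⟩
    rw [map_mul, map_mul]
    exact mul_le_of_le_one_right (V.v.nonneg _) (V.io_le e)
  refine ⟨W.io (EuclideanDomain.gcd (a * b') (a' * b)) / W.io (b * b'), fun g hg => by
    rw [map_div₀, io_fix hg, io_fix hg], fun V => ?_⟩
  have h1 := io_ne hb
  have h2 := io_ne hb'
  rw [show W.io a / W.io b = W.io (a * b') / W.io (b * b') by simp only [map_mul]; field_simp,
    show W.io a' / W.io b' = W.io (a' * b) / W.io (b * b') by simp only [map_mul]; field_simp,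
    map_div₀, map_div₀, map_div₀, max_div_div_right (V.v.nonneg _)]
  congr 1
  refine le_antisymm ?_ (max_le (k V _ _ (EuclideanDomain.gcd_dvd_left _ _))
    (k V _ _ (EuclideanDomain.gcd_dvd_right _ _)))
  rw [EuclideanDomain.gcd_eq_gcd_ab, map_add]
  exact (V.na _ _).trans (max_le_max (k V _ _ (dvd_mul_right _ _)) (k V _ _ (dvd_mul_right _ _)))

theorem sup_GHT {f : ℕ → Qb} (h : ∀ i, Fix GK (f i)) (n : ℕ) :
    ∃ z, Fix GK z ∧ ∀ V : Plc, (∀ i ≤ n, V.v (f i) ≤ V.v z) ∧ ∃ i, V.v z = V.v (f i) := by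
  induction n with
  | zero => exact ⟨f 0, h 0, fun V => ⟨fun i hi => by rw [Nat.le_zero.1 hi], 0, rfl⟩⟩
  | succ n ih =>
    obtain ⟨z, hz, e⟩ := ih
    obtain ⟨w, hw, e'⟩ := gcd_GHT hz (h (n + 1))
    refine ⟨w, hw, fun V => ⟨fun i hi => ?_, ?_⟩⟩ <;> rw [e' V]
    · rcases Nat.le_succ_iff.1 hi with hi | rfl
      exacts [((e V).1 i hi).trans (le_max_left _ _), le_max_right _ _]
    · obtain ⟨i, hi⟩ := (e V).2
      rcases max_choice (V.v z) (V.v (f (n + 1))) with k | k <;> rw [k]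
      exacts [⟨i, hi⟩, ⟨_, rfl⟩]

theorem lin_GHT (V : Plc) (x : Qb) : (C x * X + 1 : Qb[X]).gaussNorm V.v 1 = max 1 (V.v x) := by
  have h := (C x * X + 1 : Qb[X]).le_gaussNorm V.v zero_le_one
  refine le_antisymm ?_ (max_le (by simpa using h 0) (by simpa [coeff_one] using h 1))
  obtain ⟨i, e⟩ := (C x * X + 1 : Qb[X]).exists_eq_gaussNorm V.v 1
  rw [e]
  rcases i with _ | _ | i <;> simp [coeff_one, coeff_X]

theorem HT_pf (hLAG : LAG_st) : HT_st := fun U Y P hY hP => by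
  refine Classical.epsilon_spec (p := fun D : Zw => D ≠ 0 ∧
    ∀ V : Plc, V.v (W.io D) * ∏ y ∈ Y, max 1 (V.v (xc (gal y P))) = 1) ?_
  set G : Qb[X] := ∏ y ∈ Y, (C (xc (gal y P)) * X + 1) with hG
  have hN : ∀ V : Plc, G.gaussNorm V.v 1 = ∏ y ∈ Y, max 1 (V.v (xc (gal y P))) := fun V => by
    rw [hG]
    clear hG hY
    induction Y using Finset.induction_on with
    | empty => simpa using gaussNorm_C V.v 1 (1 : Qb)
    | insert a s ha ih => rw [prod_insert ha, prod_insert ha, gaussNorm_mul V.na one_pos, ih, lin_GHT]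
  have hf : ∀ i, Fix GK (G.coeff i) := fun i g hg => by
    have : G.map (g : Qb →+* Qb) = G := by
      rw [hG, Polynomial.map_prod, ← hY.prod_mul (F := fun y => (C (xc (gal y P)) * X + 1 : Qb[X]))
        (fun a _ u hu => by rw [W.gal_mul, hP u hu]) hg]
      exact prod_congr rfl fun y _ => by simp [W.gal_mul, (xc_gal g _).1]
    simpa using congrArg (coeff · i) this
  obtain ⟨z, hz, e⟩ := sup_GHT hf G.natDegree
  have hv : ∀ V : Plc, V.v z = ∏ y ∈ Y, max 1 (V.v (xc (gal y P))) := fun V => by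
    rw [← hN]
    obtain ⟨i, hi⟩ := (e V).2
    obtain ⟨j, hj⟩ := G.exists_eq_gaussNorm V.v 1
    refine le_antisymm (by simpa [hi] using G.le_gaussNorm V.v zero_le_one i) ?_
    rw [hj, one_pow, mul_one]
    rcases le_or_gt j G.natDegree with k | k
    · exact (e V).1 j k
    · simp [coeff_eq_zero_of_natDegree_lt k]
  have h1 : ∀ V : Plc, 1 ≤ V.v z := fun V => hv V ▸ one_le_prod fun _ _ => le_max_left _ _
  obtain ⟨D, hD⟩ := (PLK_ok.2.2.2.2.2.2.1 z⁻¹ fun g hg => by rw [map_inv₀, hz g hg]).2 fun V => by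
    rw [map_inv₀]
    exact inv_le_one_of_one_le₀ (h1 V)
  have h2 : ∀ V : Plc, V.v (W.io D) * V.v z = 1 := fun V => by
    rw [← hD, map_inv₀, inv_mul_cancel₀ (one_pos.trans_le (h1 V)).ne']
  have V : Plc := @Plc.mk 2 ⟨Nat.prime_two⟩ 1
  exact ⟨D, fun k => by simpa [k] using h2 V, fun V => hv V ▸ h2 V⟩

end Pool.Agent.MP_e23604_nt.Z.G
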