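import Pool.Agent.MP_e23604_nt.Z.GS

set_option autoImplicit false

open Finset QuadraticAlgebra Polynomial
open scoped Classical

namespace Pool.Agent.MP_e23604_nt.Z.G

open B R S W Un

theorem ISA_pf (hSIG : SIG_st) (hKERN : KERN_st) : ISA_st := by
  intro V σ hV d d' a b k
  have s := hSIG V σ hV
  have n0 : nn 0 = 0 := by decide
  have e0 : ∀ P, be σ 1 0 P = P := fun P => by simp [be_apply]
  have e1 : ∀ P, be σ (-a) (-b) P = -be σ a b P := fun P => by simp [be_apply, add_comm]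
  refine ⟨⟨by simp [nq, n0], fun P h => by simpa [e0] using h, fun P h => .inl ?_, 1, by decide,
    fun P h => ?_⟩, fun ⟨h1, h2, h3, u, h4, h5⟩ => ⟨by simpa [nq, nn_neg] using h1,
      fun P h => e1 P ▸ neg_mem (h2 P h), fun P h => ?_, -u, by simpa using h4, fun P h => ?_⟩,
    fun j hj => ?_, fun t t' hk ⟨h1, h2, _, _⟩ => ?_⟩
  · simp [e0, ← h]
  · simp [e0, ← h]
  · rw [e1, ← neg_add', neg_add_eq_sub, neg_mem_iff, ← neg_mem_iff (x := _ - be σ a b P), neg_sub]
    exact (h3 P h).symm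
  · rw [e1, neg_smul, neg_sub_neg, ← neg_mem_iff, neg_sub]
    exact h5 P h
  · have e2 : cd d.C * nn k = cd d'.C * nq V a b ↔
        cd d.C * nn (k * j) = cd d'.C * nq V (a * j) (b * star j) := by
      rw [← mul_left_inj' (nn_pos hj).ne']
      simp only [nq, nn_mul, nn_star, mul_assoc, add_mul]
    have e3 : ∀ p : Pt → Pt → Prop, (∀ P, p (k • P) (be σ a b P)) ↔
        ∀ P, p ((k * j) • P) (be σ (a * j) (b * star j) P) := fun p => by
      simp only [← s.bs, mul_smul]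
      exact Function.Surjective.forall (smul_onto hj)
    exact ⟨fun ⟨h1, h2, h3, u, h4, h5⟩ => ⟨e2.1 h1, (e3 fun x y => x ∈ _ → y ∈ _).1 h2,
        (e3 fun x y => x = _ → y - _ ∈ _ ∨ y + _ ∈ _).1 h3, u, h4,
        (e3 fun x y => x = _ → y - _ ∈ _).1 h5⟩,
      fun ⟨h1, h2, h3, u, h4, h5⟩ => ⟨e2.2 h1, (e3 fun x y => x ∈ _ → y ∈ _).2 h2,
        (e3 fun x y => x = _ → y - _ ∈ _ ∨ y + _ ∈ _).2 h3, u, h4,
        (e3 fun x y => x = _ → y - _ ∈ _).2 h5⟩⟩
  have k0 := ne_of_not_Ov hk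
  have na : ¬ Ov V a := fun o => by
    have := ((s.on a b).2 o).dvd (dvd_mul_left _ (cd d'.C : Zw))
    rw [← Nat.cast_mul, ← h1, Nat.cast_mul, Ov_mul, ← mul_star_nn, Ov_mul] at this
    exact this.elim (s.cd _ t.ok.fin t.le) fun o => o.elim hk fun o => hk ((s.vs k).symm.trans_lt o)
  refine ⟨na, fun P hP h => ?_, fun m hs hm => ?_⟩
  · obtain ⟨f1, f2, -⟩ := hKERN V σ a b _ hV na t'.ok.fin t'.le
    have f3 := qC_fin k0 t.ok.fin
    have : els (qC k d.C) = els (pb V σ a b d'.C) := eq_of_subset_of_card_le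
      (fun Q hQ => (mem_els f1).2 ⟨TT_of hk (t.le ((mem_els f3).1 hQ)), h2 Q ((mem_els f3).1 hQ)⟩)
      (f2.trans ((mul_comm _ _).trans (h1.symm.trans
        ((mul_comm _ _).trans (qC_cd k0 t.ok.fin).symm)))).le
    exact (mem_els f3).1 (this ▸ (mem_els f1).2 ⟨hP, h⟩)
  · obtain ⟨⟨G, g⟩, g2, -⟩ := CYG_ok k k0
    obtain ⟨e, he⟩ := g2 G g (gal σ G) (by rw [← hs, ← gal_star s.nk, g.zero, map_zero])
    have key : ∀ x : Zw, k ∣ m * (a * x + b * (star x * e)) := fun x => (g _).1 (by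
      rw [mul_smul, add_smul, mul_smul, mul_smul, mul_smul, ← he, ← gal_star s.nk]
      exact hm _ (h2 _ (by rw [smul_comm, g.zero, smul_zero]; exact zero_mem _)))
    have a1 := key 1
    have a2 := key ω
    rw [show star (ω : Zw) = ω - pw by decide] at a2
    obtain ⟨c, hc⟩ := (g (star e * e + V.l)).1 (by
      rw [add_smul, mul_smul, ← he, ← gal_star s.nk, ← he, (s.tt G ⟨k, hk, g.zero⟩).2,
        neg_add_cancel])
    obtain ⟨x, y, hx⟩ := s.pr.coprime_iff_not_dvd.2 fun o => hk ((s.ov k).2 o)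
    refine ⟨?_, IsCoprime.dvd_of_dvd_mul_right (z := e) ⟨x * c + y, -x * star e, by
      linear_combination hx - x * hc⟩ ?_⟩
    · convert dvd_sub a2 (a1.mul_left (ω - pw)) using 1
      simp only [star_one]
      ring
    · convert dvd_sub (a1.mul_left ω) a2 using 1
      simp only [star_one]
      ring

end Pool.Agent.MP_e23604_nt.Z.G
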