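import Pool.Agent.MP_e23604_nt.Z.GS

set_option autoImplicit false

open Finset QuadraticAlgebra Polynomial
open scoped Classical

namespace Pool.Agent.MP_e23604_nt.Z.G

open B R S W Un

theorem ISB_pf (hSIG : SIG_st) (hKERN : KERN_st) (hISA : ISA_st) : ISB_st := by
  intro V σ hV
  have g := hSIG V σ hV
  refine ⟨fun d d' d'' a b k a' b' k' t t' t'' hk hk' h h' => ?_, fun d' a b t ha => ?_⟩
  · obtain ⟨ha, key, -⟩ := (hISA V σ hV d' d'' a' b' k').2.2.2 t' t'' hk' h'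
    have hn : ¬ Ov V (nq V a' b' * k) := fun e => (Ov_mul.1 e).elim (fun e => ha ((g.on _ _).1 e)) hk
    have e0 : ∀ P : Pt, (nq V a' b' * k : Zw) • P = k • nq V a' b' • P := fun P => by
      rw [mul_comm, mul_smul, Nat.cast_smul_eq_nsmul]
    have e1 : ∀ P, (nq V a' b' * k : Zw) • P ∈ TT V → ∀ Q ∈ TT V,
        be σ a b (nq V a' b' • P) - be σ a' b' Q ∈ d''.C →
        be σ (k' * (star a' * a + V.l * b' * star b)) (k' * (star a' * b - b' * star a)) P -
          k' • Q ∈ d'.C := fun P hP Q hQ e => by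
      have h1 := g.bt a b P (TT_of hn hP)
      have h2 := key _ (sub_mem (g.bt (star a') (-b') _ h1) hQ) (by
        rwa [map_sub, (g.ad a' b' _ h1).2, Nat.cast_smul_eq_nsmul, ← map_nsmul])
      rw [smul_sub, g.bb _ _ _ _ _ (TT_of hn hP), g.sb] at h2
      simpa [sub_eq_add_neg] using h2
    have k0 := ne_of_not_Ov hk'
    refine ⟨?_, fun P hP => ?_, fun P hP => ?_, ?_⟩
    · have h1 := g.nm a b (star a') (-b')
      have h2 : nq V (star a') (-b') = nq V a' b' := by rw [nq, nq, nn_star, nn_neg]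
      have h3 : ∀ x y, nq V (k' * x) (k' * y) = nn k' * nq V x y := fun x y => by
        rw [nq, nq, nn_mul, nn_mul]
        ring
      simp only [mul_neg, neg_mul, sub_neg_eq_add, ← sub_eq_add_neg] at h1
      rw [h3, h1, h2, nn_mul, nn_nat, ← mul_assoc (cd d'.C), h'.nrm, mul_left_comm, h.nrm]
      ring
    · simpa using e1 P (t.le hP) 0 (zero_mem _) (by
        rw [map_zero, sub_zero]; exact h.ker _ (e0 P ▸ hP))
    · obtain ⟨Q, hQ⟩ := smul_onto k0 d'.S
      have h1 := TT_of hk' (hQ ▸ t'.S)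
      have h2 := e1 P (hP ▸ t.S) Q h1
      have h3 := e1 P (hP ▸ t.S) (-Q) (neg_mem h1)
      rw [smul_neg, map_neg, sub_neg_eq_add, sub_neg_eq_add] at h3
      rw [hQ] at h2 h3
      rcases h.hS _ (e0 P ▸ hP) with e | e <;> rcases h'.hS Q hQ with e' | e'
      · exact Or.inl (h2 (by simpa using sub_mem e e'))
      · exact Or.inr (h3 (by simpa using add_mem e e'))
      · exact Or.inr (h3 (by simpa using add_mem e e'))
      · exact Or.inl (h2 (by simpa using sub_mem e e'))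
    · obtain ⟨u, hu, h1⟩ := h.hR
      obtain ⟨u', hu', h2⟩ := h'.hR
      obtain ⟨Q, hQ⟩ := smul_onto k0 d'.R
      obtain ⟨m, hm⟩ : 9 ∣ u' ^ 6 - 1 := by
        have : u' % 9 = 1 ∨ u' % 9 = 2 ∨ u' % 9 = 4 ∨ u' % 9 = 5 ∨ u' % 9 = 7 ∨ u' % 9 = 8 := by
          omega
        refine Int.ModEq.dvd (?_ : 1 % 9 = u' ^ 6 % 9)
        rcases this with e | e | e | e | e | e <;> simp [pow_succ, Int.mul_emod, e]
      refine ⟨u * u' ^ 5, fun e => (Int.prime_three.dvd_or_dvd e).elim hu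
        fun e => hu' (Int.prime_three.dvd_of_dvd_pow e), fun P hP => ?_⟩
      rw [← hQ, smul_comm]
      refine e1 P (hP ▸ t.R) _ (zsmul_mem (TT_of hk' (hQ ▸ t'.R)) _) ?_
      have := sub_mem (sub_mem (h1 _ (e0 P ▸ hP)) (zsmul_mem (h2 Q hQ) (u * u' ^ 5)))
        (zsmul_mem t''.ok.r9 (u * m))
      rw [map_zsmul]
      refine (congrArg (· ∈ d''.C) ?_).mp this
      linear_combination (norm := module) (u * hm) • d''.R
  · obtain ⟨S, h1, e1⟩ := g.su a b ha _ t.S
    obtain ⟨R, h2, e2⟩ := g.su a b ha _ t.R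
    obtain ⟨k1, k2, -⟩ := hKERN V σ a b d'.C hV ha t.ok.fin t.le
    have m : ∀ P, P ∈ pb V σ a b d'.C ↔ P ∈ TT V ∧ be σ a b P ∈ d'.C := fun P => Iff.rfl
    refine ⟨⟨pb V σ a b d'.C, S, R⟩, ⟨⟨k1, (m _).2 ⟨nsmul_mem h2 9, ?_⟩, (m _).2 ⟨nsmul_mem h1 3, ?_⟩,
      fun e => t.ok.r3 ?_, fun e => t.ok.s0 ?_, fun e => t.ok.s1 ?_, fun e => t.ok.s2 ?_⟩, t.n3,
      inf_le_left⟩, by rw [k2, nn_one, mul_one, mul_comm], fun P hP => ((m _).1 (by simpa using hP)).2,
      fun P hP => Or.inl ?_, 1, by decide, fun P hP => ?_⟩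
    · simpa only [map_nsmul, e2] using t.ok.r9
    · simpa only [map_nsmul, e1] using t.ok.s3
    iterate 4 simpa only [map_nsmul, map_add, map_sub, e1, e2] using ((m _).1 e).2
    all_goals
      rw [one_smul] at hP
      simp [hP, e1, e2]

end Pool.Agent.MP_e23604_nt.Z.G
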