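import Pool.Agent.MP_e23604_nt.Z.GSIG

/-!
The order of the kernel of `a + b σ`.
-/

set_option autoImplicit false

open Finset QuadraticAlgebra Polynomial
open scoped Classical

namespace Pool.Agent.MP_e23604_nt.Z.G

open B R S W Un

/-- the map `x ↦ a x + b star x` -/
def ph_KER (a b : Zw) : Zw →ₗ[ℤ] Zw where
  toFun x := a * x + b * star x
  map_add' x y := by rw [star_add]; ring
  map_smul' n x := by
    simp only [zsmul_eq_mul, star_mul', star_intCast, eq_intCast, Int.cast_id]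
    ring

theorem idx_KER (a b : Zw) (h : nw a - nw b ≠ 0) :
    (ph_KER a b).toAddMonoidHom.range.index = (nw a - nw b).natAbs := by
  have hi : Function.Injective (ph_KER a b) := (injective_iff_map_eq_zero _).2 fun x e => by
    have e1 : a * x + b * star x = 0 := e
    have e2 := congrArg star e1
    rw [star_add, star_mul', star_mul', star_star, star_zero] at e2
    have : ((nw a - nw b : ℤ) : Zw) * x = 0 := by
      rw [Int.cast_sub, ← mul_star_eq, ← mul_star_eq]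
      linear_combination star a * e1 - b * e2
    exact (mul_eq_zero.1 this).resolve_left (Int.cast_ne_zero.2 h)
  have k := Submodule.natAbs_det_equiv _ (LinearEquiv.ofInjective _ hi)
  have d : LinearMap.det (ph_KER a b) = nw a - nw b := by
    rw [← LinearMap.det_toMatrix (QuadraticAlgebra.basis _ _), Matrix.det_fin_two]
    simp [LinearMap.toMatrix_apply, ph_KER, QuadraticAlgebra.basis, nw_def]
    ring
  rw [← d]
  exact k.symm

theorem cm_KER {H K : AddSubgroup Pt} (h : H ≤ K) : Nat.card H * H.relIndex K = Nat.card K := by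
  rw [← AddSubgroup.relIndex_bot_left, ← AddSubgroup.relIndex_bot_left,
    AddSubgroup.relIndex_mul_relIndex _ _ _ bot_le h]

theorem ck_KER (f : Pt →+ Pt) (A : AddSubgroup Pt) :
    Nat.card (f.ker ⊓ A : AddSubgroup Pt) * Nat.card (A.map f) = Nat.card A := by
  rw [← cm_KER (inf_le_right (a := f.ker) (b := A)), AddSubgroup.inf_relIndex_right,
    AddSubgroup.relIndex_ker]

theorem ct_KER {b : Zw} (h : b ≠ 0) : Nat.card (DistribSMul.toAddMonoidHom Pt b).ker = nn b := by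
  rw [← CARD_ok b h, ← Nat.card_eq_finsetCard]
  exact Nat.card_congr (Equiv.subtypeEquivRight fun _ => (mem_tor h).symm)

variable {V : Plc} {σ : GQ}

theorem mem_pb {a b : Zw} {C : AddSubgroup Pt} {P : Pt} :
    P ∈ pb V σ a b C ↔ P ∈ TT V ∧ be σ a b P ∈ C := Iff.rfl

theorem inf_KER (hS : Sg V σ) {a b m : Zw} (hm : ¬ Ov V m) (h : (nq V a b : Zw) ∣ m) :
    (be σ a b).ker ⊓ (DistribSMul.toAddMonoidHom Pt m).ker = pb V σ a b ⊥ := by
  ext P
  refine ⟨fun k => ⟨⟨m, hm, k.2⟩, k.1⟩, fun k => ⟨k.2, dvd_smul ?_ h⟩⟩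
  rw [← (hS.ad a b P k.1).1, show be σ a b P = 0 from k.2, map_zero]

theorem mul_KER (hS : Sg V σ) {a b : Zw} (ha : ¬ Ov V a) :
    Nat.card (pb V σ a b ⊥) * Nat.card (pb V σ (star a) (-b) ⊥) = nq V a b ^ 2 := by
  have h0 := mt (hS.on a b).1 ha
  rw [← nn_nat, ← ct_KER (ne_of_not_Ov h0), ← ck_KER (be σ a b) (AddMonoidHom.ker _),
    inf_KER hS h0 dvd_rfl]
  congr 3
  ext Q
  refine ⟨fun k => ?_, ?_⟩
  · obtain ⟨P, h1, rfl⟩ := hS.su a b ha Q k.1
    exact ⟨P, (hS.ad a b P h1).1.symm.trans k.2, rfl⟩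
  · rintro ⟨P, h1, rfl⟩
    have t : P ∈ TT V := ⟨_, h0, h1⟩
    exact ⟨hS.bt a b P t, (hS.ad a b P t).1.trans h1⟩

theorem dvd_KER (hS : Sg V σ) {a b : Zw} (ha : ¬ Ov V a) :
    ∃ u : ℤ, IsCoprime (nq V a b : ℤ) u ∧ (Nat.card (pb V σ a b ⊥) : ℤ) ∣ nq V a b * u := by
  have h0 := mt (hS.on a b).1 ha
  have h2 : ¬ Ov V (nq V a b ^ 2) := fun e => h0 (Ov_pow e)
  have n0 := ne_of_not_Ov h2
  obtain ⟨⟨G, hG⟩, hc, -⟩ := CYG_ok _ n0
  obtain ⟨f, hf⟩ := hc G hG (gal σ G) (by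
    rw [← star_star (_ ^ 2 : Zw), ← gal_star hS.nk, star_pow, star_natCast, hG.zero, map_zero])
  have e := (hS.tt G ⟨_, h2, hG.zero⟩).2
  rw [hf, gal_star hS.nk, hf, ← mul_smul, ← neg_smul, hG.congr, mul_comm (star f), mul_star_eq,
    sub_neg_eq_add] at e
  obtain ⟨z, e⟩ := e
  have e' : nw f + V.l = nq V a b ^ 2 * z.re := by
    simpa [sq] using congrArg QuadraticAlgebra.re e
  have c : IsCoprime (nq V a b : ℤ) (1 - nq V a b * z.re * nw b) := ⟨z.re * nw b, 1, by ring⟩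
  have d : nw a - nw (b * f) = nq V a b * (1 - nq V a b * z.re * nw b) := by
    have : (nq V a b : ℤ) = nw a + V.l * nw b := by
      rw [nq, ← nn_cast, ← nn_cast]
      push_cast
      rfl
    rw [nw_mul]
    linear_combination -this - nw b * e'
  have n1 : nq V a b ≠ 0 := Nat.cast_ne_zero.1 (ne_of_not_Ov h0)
  refine ⟨_, c, ?_⟩
  by_cases d0 : nw a - nw (b * f) = 0
  · rw [← d, d0]
    exact dvd_zero _
  rw [← d, Int.natCast_dvd, ← idx_KER _ _ d0]
  set A := (DistribSMul.toAddMonoidHom Pt (nq V a b ^ 2 : Zw)).ker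
  let p : Zw →+ Pt := (LinearMap.toSpanSingleton Zw Pt G).toAddMonoidHom
  have hp : p.range = A := by
    ext P
    refine ⟨?_, fun k => (hc G hG P k).imp fun _ => Eq.symm⟩
    rintro ⟨x, rfl⟩
    show (nq V a b ^ 2 : Zw) • x • G = 0
    rw [smul_comm, hG.zero, smul_zero]
  have hb : ∀ x, be σ a b (p x) = p (ph_KER a (b * f) x) := fun x => by
    show be σ a b (x • G) = (a * x + b * f * star x) • G
    rw [be_apply, gal_star hS.nk, hf]
    module
  have le : A.map (be σ a b) ≤ A := by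
    rw [← hp]
    rintro _ ⟨_, ⟨x, rfl⟩, rfl⟩
    exact ⟨_, (hb x).symm⟩
  have k1 := ck_KER (be σ a b) A
  have k2 := cm_KER le
  have k3 : Nat.card (A.map (be σ a b)) ≠ 0 := fun e => (nn_pos n0).ne' (by
    rw [← ct_KER n0, ← k2, e, zero_mul])
  rw [inf_KER hS h2 (dvd_pow_self _ two_ne_zero), ← k2, mul_comm, mul_right_inj' k3] at k1
  rw [k1]
  conv_lhs => rw [← congrArg (AddSubgroup.relIndex _) hp, ← AddSubgroup.index_comap]
  refine AddSubgroup.index_dvd_of_le ?_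
  rintro _ ⟨x, rfl⟩
  exact ⟨p x, hp ▸ ⟨x, rfl⟩, hb x⟩

theorem card_KER (hS : Sg V σ) {a b : Zw} (ha : ¬ Ov V a) :
    Nat.card (pb V σ a b ⊥) = nq V a b := by
  have k : ∀ a b : Zw, ¬ Ov V a → Nat.card (pb V σ a b ⊥) ∣ nq V a b := fun a b ha => by
    obtain ⟨u, h1, h2⟩ := dvd_KER hS (b := b) ha
    have h3 : (Nat.card (pb V σ a b ⊥) : ℤ) ∣ nq V a b ^ 2 := by
      exact_mod_cast Dvd.intro _ (mul_KER hS ha)
    exact Int.natCast_dvd_natCast.1
      ((h1.pow_left.of_isCoprime_of_dvd_left h3).dvd_of_dvd_mul_right h2)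
  have n1 := Nat.pos_of_ne_zero (Nat.cast_ne_zero.1 (ne_of_not_Ov (mt (hS.on a b).1 ha)))
  have h1 := Nat.le_of_dvd n1 (k a b ha)
  have h2 := k (star a) (-b) (by rwa [Ov, hS.vs])
  rw [show nq V (star a) (-b) = nq V a b by rw [nq, nq, nn_star, nn_neg]] at h2
  have h3 := Nat.le_of_dvd n1 h2
  have h4 := mul_KER hS (b := b) ha
  nlinarith

theorem KERN_pf : KERN_st := by
  intro V σ a b C h ha hC le
  have hS := SIG_pf V σ h
  have n1 : nq V a b ≠ 0 := Nat.cast_ne_zero.1 (ne_of_not_Ov (mt (hS.on a b).1 ha))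
  have k : ∀ C : AddSubgroup Pt, (C : Set Pt).Finite → C ≤ TT V →
      (pb V σ a b C : Set Pt).Finite ∧ cd (pb V σ a b C) = nq V a b * cd C := fun C hC le => by
    have e1 : (be σ a b).ker ⊓ pb V σ a b C = pb V σ a b ⊥ := by
      ext P
      exact ⟨fun k => ⟨k.2.1, k.1⟩, fun k => ⟨k.2, mem_pb.2 ⟨k.1, by
        rw [show be σ a b P = 0 from k.2]
        exact zero_mem C⟩⟩⟩
    have e2 : (pb V σ a b C).map (be σ a b) = C := by
      ext Q
      refine ⟨?_, fun k => ?_⟩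
      · rintro ⟨P, h1, rfl⟩
        exact h1.2
      · obtain ⟨P, h1, rfl⟩ := hS.su a b ha Q (le k)
        exact ⟨P, ⟨h1, k⟩, rfl⟩
    have e3 := ck_KER (be σ a b) (pb V σ a b C)
    rw [e1, e2, card_KER hS ha] at e3
    have : Finite C := hC
    have f : Finite (pb V σ a b C) :=
      Nat.finite_of_card_ne_zero (e3 ▸ mul_ne_zero n1 Nat.card_pos.ne')
    exact ⟨f, by rw [cd_SIG f, cd_SIG hC, e3]⟩
  have f0 := (k ⊥ (by simp) bot_le).1
  refine ⟨(k C hC le).1, (k C hC le).2, fun p hp P => ?_⟩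
  rw [sX, ← sum_fiberwise_of_maps_to (g := be σ a b) (t := els C) fun x hx =>
    (mem_els hC).2 ((mem_els (k C hC le).1).1 hx).2]
  refine sum_congr rfl fun c hc => ?_
  obtain ⟨h1, h2⟩ := hp c ((mem_els hC).1 hc)
  refine sum_nbij' (fun x => x - p c) (fun x => p c + x) (fun x hx => ?_) (fun x hx => ?_)
    (fun _ _ => by abel) (fun _ _ => by abel) fun x _ => by congr 1; abel
  · rw [mem_filter, mem_els (k C hC le).1] at hx
    exact (mem_els f0).2 (mem_pb.2 ⟨sub_mem hx.1.1 h1, by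
      rw [map_sub, hx.2, h2, sub_self]
      exact zero_mem _⟩)
  · rw [mem_els f0] at hx
    have : be σ a b (p c + x) = c := by rw [map_add, h2, show be σ a b x = 0 from hx.2, add_zero]
    exact mem_filter.2 ⟨(mem_els (k C hC le).1).2 (mem_pb.2 ⟨add_mem h1 hx.1, by
      rw [this]
      exact (mem_els hC).1 hc⟩), this⟩

theorem KER0_pf : KER0_st := fun V σ a b h ha => by
  have f := (KERN_pf V σ a b ⊥ h ha (by simp) bot_le).1
  exact ⟨f, by rw [cd_SIG f, card_KER (SIG_pf V σ h) ha]⟩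

end Pool.Agent.MP_e23604_nt.Z.G
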