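import Pool.Agent.MP_e23604_nt.Z.GS

set_option autoImplicit false

open Finset QuadraticAlgebra Polynomial
open scoped Classical

namespace Pool.Agent.MP_e23604_nt.Z.G

open B R S W Un

theorem sum_GLAG (V : Plc) {ι : Type} {s : Finset ι} {f : ι → Qb} {ε : ℝ} (h0 : 0 ≤ ε)
    (h : ∀ i ∈ s, V.v (f i) ≤ ε) : V.v (∑ i ∈ s, f i) ≤ ε :=
  Finset.sum_induction f (fun a => V.v a ≤ ε) (fun _ _ => bLocA_add_le V.na) (by simpa) h

theorem mul_GLAG {V : Plc} {f g : Qb[X]} {ε δ : ℝ} (hf : Bd V f ε) (hg : Bd V g δ) :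
    Bd V (f * g) (ε * δ) := fun i => by
  have h0 : 0 ≤ ε := (V.v.nonneg _).trans (hf 0)
  rw [coeff_mul]
  refine sum_GLAG V (mul_nonneg h0 ((V.v.nonneg _).trans (hg 0))) fun p _ => ?_
  rw [map_mul]
  exact mul_le_mul (hf _) (hg _) (V.v.nonneg _) h0

theorem C_GLAG {V : Plc} {a : Qb} {ε : ℝ} (h : V.v a ≤ ε) : Bd V (C a) ε := fun i => by
  rw [coeff_C]
  split_ifs
  · exact h
  · simpa using (V.v.nonneg _).trans h

theorem new_GLAG (V : Plc) (Y : Finset Qb) (h : ∀ y ∈ Y, V.v y ≤ 1) :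
    ∃ x, V.v x ≤ 1 ∧ ∀ y ∈ Y, V.v (x - y) = 1 := by
  rcases Y.eq_empty_or_nonempty with rfl | hY
  · exact ⟨0, by simp, by simp⟩
  have d : (∏ y ∈ Y, (X - C y) : Qb[X]).degree = Y.card := by simp [degree_prod]
  have d0 : 0 < (∏ y ∈ Y, (X - C y) : Qb[X]).degree := by
    rw [d]; exact_mod_cast hY.card_pos
  obtain ⟨x, hx⟩ := IsAlgClosed.exists_root (∏ y ∈ Y, (X - C y) - C 1 : Qb[X])
    (by rw [degree_sub_C d0]; exact d0.ne')
  have e : ∏ y ∈ Y, V.v (x - y) = 1 := by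
    rw [← map_prod, show ∏ y ∈ Y, (x - y) = 1 by simpa [eval_prod, sub_eq_zero] using hx, map_one]
  have h1 : V.v x ≤ 1 := not_lt.1 fun k => by
    obtain ⟨y, hy⟩ := hY
    have k1 : ∀ y ∈ Y, 1 < V.v (x - y) := fun y hy => by
      rw [sub_eq_add_neg, bLocA_add_eq V.na (by rw [V.v.map_neg]; exact (h y hy).trans_lt k)]
      exact k
    rw [← mul_prod_erase _ _ hy] at e
    have := Finset.prod_induction (s := Y.erase y) (fun y => V.v (x - y)) (1 ≤ ·)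
      (fun _ _ => one_le_mul_of_one_le_of_one_le) le_rfl fun z hz => (k1 z (mem_of_mem_erase hz)).le
    nlinarith [k1 y hy]
  refine ⟨x, h1, fun y hy => le_antisymm (bLocA_sub_le V.na h1 (h y hy)) ?_⟩
  rw [← mul_prod_erase _ _ hy] at e
  have := prod_le_one (s := Y.erase y) (f := fun y => V.v (x - y)) (fun _ _ => V.v.nonneg _)
    fun z hz => bLocA_sub_le V.na h1 (h z (mem_of_mem_erase hz))
  nlinarith [V.v.nonneg (x - y)]

theorem lag_GLAG (V : Plc) (f : Qb[X]) (ε : ℝ) (Y : Finset Qb) (hd : f.natDegree < Y.card)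
    (h : ∀ x ∈ Y, V.v x ≤ 1 ∧ V.v (f.eval x) ≤ ε) (h' : ∀ x ∈ Y, ∀ y ∈ Y, x ≠ y → V.v (x - y) = 1) :
    Bd V f ε := fun i => by
  obtain ⟨z, hz⟩ := card_pos.1 (Nat.zero_lt_of_lt hd)
  rw [Lagrange.eq_interpolate (s := Y) (v := id) (f := f) (Set.injOn_id _)
    (degree_le_natDegree.trans_lt (by exact_mod_cast hd)), Lagrange.interpolate_apply,
    finsetSum_coeff]
  refine sum_GLAG V ((V.v.nonneg _).trans (h z hz).2) fun x hx => ?_
  rw [← mul_one ε]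
  refine mul_GLAG (C_GLAG (h x hx).2) ?_ i
  refine Finset.prod_induction _ (fun p => Bd V p 1) (fun _ _ a b => by simpa using mul_GLAG a b)
    (C_GLAG (by simp)) fun y hy => ?_
  obtain ⟨k1, k2⟩ := mem_erase.1 hy
  rw [← mul_one (1 : ℝ)]
  refine mul_GLAG (C_GLAG (by simp [h' x hx y k2 k1.symm])) fun j => ?_
  rw [coeff_sub]
  refine bLocA_sub_le V.na ?_ (C_GLAG (h y k2).1 j)
  rw [coeff_X]
  split_ifs <;> simp

theorem big_GLAG (V : Plc) (n : ℕ) : ∃ Y : Finset Qb, Y.card = n ∧ (∀ y ∈ Y, V.v y ≤ 1) ∧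
    ∀ x ∈ Y, ∀ y ∈ Y, x ≠ y → V.v (x - y) = 1 := by
  induction n with
  | zero => exact ⟨∅, rfl, by simp, by simp⟩
  | succ n ih =>
    obtain ⟨Y, h1, h2, h3⟩ := ih
    obtain ⟨x, k1, k2⟩ := new_GLAG V Y h2
    refine ⟨insert x Y, by rw [card_insert_of_notMem fun e => by simpa using k2 x e, h1],
      by simpa [k1] using h2, fun a ha b hb e => ?_⟩
    rcases mem_insert.1 ha with rfl | ha' <;> rcases mem_insert.1 hb with rfl | hb'
    exacts [absurd rfl e, k2 b hb', by rw [V.v.map_sub, k2 a ha'], h3 a ha' b hb' e]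

theorem LAG_pf : LAG_st := fun V => ⟨new_GLAG V, fun f ε => ⟨lag_GLAG V f ε, fun h => by
  obtain ⟨Y, h1, h2, h3⟩ := big_GLAG V (f.natDegree + 1)
  exact lag_GLAG V f ε Y (by omega) (fun x hx => ⟨h2 x hx, h x (h2 x hx)⟩) h3, fun h x hx => by
  have h0 : 0 ≤ ε := (V.v.nonneg _).trans (h 0)
  have p : ∀ {x : Qb}, V.v x ≤ 1 → ∀ i, V.v (x ^ i) ≤ 1 := fun hx i => by
    rw [map_pow]; exact pow_le_one₀ (V.v.nonneg _) hx
  refine ⟨?_, fun y hy => ?_⟩
  · rw [eval_eq_sum_range]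
    exact sum_GLAG V h0 fun i _ => by rw [mul_comm]; exact (bLocA_mul_le (p hx i)).trans (h i)
  · rw [eval_eq_sum_range, eval_eq_sum_range, ← sum_sub_distrib]
    refine sum_GLAG V (mul_nonneg h0 (V.v.nonneg _)) fun i _ => ?_
    rw [← mul_sub, map_mul, ← geom_sum₂_mul]
    exact mul_le_mul (h i) (bLocA_mul_le (sum_GLAG V zero_le_one fun j _ =>
      bLocA_mul_one (p hx _) (p hy _))) (V.v.nonneg _) h0, fun g δ hf hg =>
  ⟨mul_GLAG hf hg, fun i => by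
    rw [coeff_add]; exact bLocA_add_le V.na (le_max_of_le_left (hf i)) (le_max_of_le_right (hg i)),
    fun i => by
    rw [coeff_sub]; exact bLocA_sub_le V.na (le_max_of_le_left (hf i)) (le_max_of_le_right (hg i))⟩⟩⟩

end Pool.Agent.MP_e23604_nt.Z.G
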