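import Pool.Agent.MP_e23604_nt.Z.GS

set_option autoImplicit false

open Finset QuadraticAlgebra Polynomial
open scoped Classical

namespace Pool.Agent.MP_e23604_nt.Z.G

open B R S W Un

theorem LOC_pf (hPARW : PARW_st) (hSIG : SIG_st) (hISA : ISA_st) (hUNR : UNR_st) (hUB : UB_st)
    (hEX : EX_st) (hRAT : RAT_st) (hLBA : LBA_st) (hLBB : LBB_st) : LOC_st := by
  intro V σ d d' k m n hI hd hd' hk hm ⟨h, hh⟩ hsm hn hne
  have S := hSIG V σ hI.inr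
  have A := hISA V σ hI.inr d d'
  have hΔ := sub_ne_zero.2 hne
  have p1 := (hPARW V EQ (gw_EQ S.n3)).1 _ hΔ
  rw [xw_xc] at p1
  suffices e : V.v V.l ^ li V σ d d' k n = zs V (d.pt - d'.pt) ^ 2 by rw [e, mul_comm]; exact p1
  by_cases hE : E1 V.v (d.pt - d'.pt)
  swap
  · rw [zs_not hE, li, sum_eq_zero fun p _ => if_neg fun e => hE (hEX V σ d d' _ _ _ hI hd hd' hk e).1,
      pow_zero, one_pow]
  obtain ⟨R1, R2⟩ := hRAT V σ hI.inr
  obtain ⟨j, hj⟩ := R2 _ (sub_mem (R1 d hd) (R1 d' hd')) hE hΔ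
  obtain ⟨a₀, b₀, k₀, hk₀, i₀, -⟩ := hUB V σ d d' _ hI hd hd' (by
    rw [zs_of hE, hj, pow_succ]
    exact mul_le_of_le_one_left S.q0.le (pow_le_one₀ S.q0.le S.q1.le)) le_rfl
  have hk' : ¬ Ov V (star k₀) := not_Ov.2 (by rw [S.vs, not_Ov.1 hk₀])
  have hk₁ : ¬ Ov V (k₀ * star k₀) := fun e => (Ov_mul.1 e).elim hk₀ hk'
  have s₁ : star (k₀ * star k₀) = k₀ * star k₀ := by rw [star_mul, star_star]
  have i₁ := ((A _ _ _).2.2.1 _ (ne_of_not_Ov hk')).1 i₀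
  obtain ⟨⟨c₁, e₁⟩, c₂, e₂⟩ := ((A _ _ _).2.2.2 hd hd' hk₁ i₁).2.2 m s₁ hm
  have k0 := ne_of_not_Ov hk
  have k0' : star k ≠ 0 := star_ne_zero.2 k0
  have i₂ := ((A _ _ _).2.2.1 _ k0).1 i₁
  have f₁ : a₀ * star k₀ * k = c₁ * h * (k₀ * star k₀) := by rw [hh]; linear_combination h * e₁
  have f₂ : b₀ * star (star k₀) * star k = -(c₂ * star h) * star (k₀ * star k₀) := by
    rw [s₁, hh, star_mul, star_mul, hsm, star_pw]; linear_combination -star h * e₂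
  rw [f₁, f₂, mul_comm _ k] at i₂
  replace i₂ := ((A _ _ _).2.2.1 _ (ne_of_not_Ov hk₁)).2 i₂
  generalize c₁ * h = a at i₂
  generalize -(c₂ * star h) = b at i₂
  have n₁ : nn a + V.l * nn b = n :=
    Nat.eq_of_mul_eq_mul_left (cd_pos hd'.ok.fin) (i₂.nrm.symm.trans hn)
  have b0 : b ≠ 0 := fun e => hne ((hEX V σ d d' _ _ _ hI hd hd' hk i₂).2 e)
  have l0 : 0 < V.l := by have := hI.inr.l3; omega
  have n₂ : nn b ≤ n := (Nat.le_mul_of_pos_left _ l0).trans (by omega)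
  have hF : (Sol V.l n).filter (fun p => Iso V σ d d' p.1 p.2 k) = {(a, b), (-a, -b)} := by
    ext ⟨x, y⟩
    simp only [Sol, mem_filter, mem_product, mem_nb, mem_insert, mem_singleton, Prod.mk.injEq]
    refine ⟨fun e => (hUNR V σ d d' a b k x y k hI.inr hd hd' hk hk i₂ e.2).imp
      (fun u => ⟨mul_right_cancel₀ k0 u.1, mul_right_cancel₀ k0' u.2⟩) fun u =>
        ⟨mul_right_cancel₀ k0 (by rw [u.1, neg_mul]), mul_right_cancel₀ k0' (by rw [u.2, neg_mul])⟩, ?_⟩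
    rintro (⟨rfl, rfl⟩ | ⟨rfl, rfl⟩)
    · exact ⟨⟨⟨by omega, n₂⟩, b0, n₁⟩, i₂⟩
    · simp only [nn_neg]
      exact ⟨⟨⟨by omega, n₂⟩, neg_ne_zero.2 b0, n₁⟩, (A _ _ _).2.1 i₂⟩
  have hp : (a, b) ≠ (-a, -b) := fun e => mul_ne_zero two_prime.ne_zero b0 (by
    linear_combination (Prod.mk.inj e).2)
  rw [li, ← sum_filter, hF, sum_pair hp, nn_neg, le_antisymm (hLBB V σ d d' _ _ _ hI hd hd' hk i₂)
    (hLBA V σ d d' _ _ _ hI hd hd' hk i₂).1, S.vb b b0]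
  ring

end Pool.Agent.MP_e23604_nt.Z.G
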