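import Pool.Agent.MP_e23604_nt.Z.CD
import Pool.Agent.MP_e23604_nt.W.HPLc

/-!
Primes of the Eisenstein integers: tools.
-/

set_option autoImplicit false

open Finset QuadraticAlgebra
open scoped Classical BigOperators

namespace Pool.Agent.MP_e23604_nt.Z

open W Un

theorem ex_nn_prime {p : ℕ} (hp : p.Prime) (h3 : p % 3 = 1) : ∃ ϖ : Zw, nn ϖ = p := by
  have h0 : (p : Zw) ≠ 0 := Nat.cast_ne_zero.2 hp.ne_zero
  have h1 : ¬ Irreducible (p : Zw) := fun h => split_HPLc hp h3 h.prime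
  rw [irreducible_iff, not_and] at h1
  have h2 := h1 fun e => by
    have := nn_unit.1 e
    rw [nn_nat] at this
    exact hp.ne_one (Nat.pow_eq_one.1 this |>.resolve_right two_ne_zero)
  push Not at h2
  obtain ⟨x, y, e, hx, hy⟩ := h2
  have h4 := congrArg nn e
  rw [nn_nat, nn_mul] at h4
  obtain ⟨i, hi, e1⟩ := (Nat.dvd_prime_pow hp).1 (⟨_, h4⟩ : nn x ∣ p ^ 2)
  refine ⟨x, ?_⟩
  interval_cases i
  · exact absurd (nn_unit.2 e1) hx
  · simpa using e1
  · rw [e1] at h4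
    exact absurd (nn_unit.2 (Nat.eq_of_mul_eq_mul_left (pow_pos hp.pos 2) (by
      rw [← h4, mul_one]))) hy

theorem cop_conj {p : ℕ} {ϖ : Zw} (hp : p.Prime) (h3 : p ≠ 3) (h : nn ϖ = p) :
    IsCoprime ϖ (star ϖ) :=
  (prime_of_nn (h ▸ hp)).irreducible.coprime_iff_not_dvd.2
    (star_HPLc hp h3 (prime_of_nn (h ▸ hp)) h)

theorem card_el_one : (el 1).card = 6 := by
  have : el 1 = {1, -1, ω, -ω, ω ^ 2, -ω ^ 2} := by
    ext u
    rw [mem_el, ← nn_unit]
    refine ⟨fun h => ?_, fun h => ?_⟩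
    · obtain ⟨i, hi⟩ := unit6 h
      rw [← Nat.div_add_mod i 3, pow_add, pow_mul, www, one_pow, one_mul] at hi
      have := Nat.mod_lt i three_pos
      generalize i % 3 = j at *
      interval_cases j <;> rcases hi with rfl | rfl <;> simp
    · simp only [mem_insert, mem_singleton] at h
      rcases h with rfl | rfl | rfl | rfl | rfl | rfl <;> exact nn_unit.2 (by decide)
  rw [this]
  decide

/-- the residue map at a prime of degree one -/
theorem ex_rho {l : ℕ} [Fact l.Prime] {lam : Zw} (h : nn lam = l) :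
    ∃ ρ : Zw →+* ZMod l, ∀ x, ρ x = 0 ↔ lam ∣ x := by
  have hl : l.Prime := Fact.out
  have h0 : lam ≠ 0 := (prime_of_nn (h ▸ hl)).ne_zero
  have hc : Nat.card (Zw ⧸ Ideal.span {lam}) = l := (QUO_pf lam h0).trans h
  have : Finite (Zw ⧸ Ideal.span {lam}) := Nat.finite_of_card_ne_zero (hc ▸ hl.ne_zero)
  let _ := Fintype.ofFinite (Zw ⧸ Ideal.span {lam})
  let e := ZMod.ringEquivOfPrime (Zw ⧸ Ideal.span {lam}) hl (Nat.card_eq_fintype_card.symm.trans hc)
  exact ⟨e.symm.toRingHom.comp (Ideal.Quotient.mk _), fun x => by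
    simp [Ideal.Quotient.eq_zero_iff_mem, Ideal.mem_span_singleton]⟩

theorem rho_surj2 {l : ℕ} [Fact l.Prime] (h : l ≠ 3) (ρ : Zw →+* ZMod l) (x y : ZMod l) :
    ∃ a, ρ a = x ∧ ρ (star a) = y := by
  have h3 : (3 : ZMod l) ≠ 0 := fun e => h ((Nat.prime_dvd_prime_iff_eq Fact.out
    Nat.prime_three).1 ((ZMod.natCast_eq_zero_iff 3 l).1 (by exact_mod_cast e)))
  have h1 : ρ pw ^ 2 = -3 := by rw [← map_pow, pw_sq, map_neg, map_ofNat]
  have h2 : ρ pw ≠ 0 := fun e => h3 (by rw [e] at h1; linear_combination h1)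
  have h4 : ρ pw = 1 + 2 * ρ ω := by simp [pw, map_ofNat]
  obtain ⟨n, hn⟩ := ZMod.intCast_surjective ((x - y) / ρ pw)
  obtain ⟨m, hm⟩ := ZMod.intCast_surjective (x - (n : ZMod l) * ρ ω)
  have h5 : star (ω : Zw) = -1 - ω := by decide
  refine ⟨(m : Zw) + (n : Zw) * ω, by simp [hm], ?_⟩
  rw [eq_div_iff h2, h4] at hn
  simp only [star_add, star_mul, star_intCast, h5, map_add, map_mul, map_intCast, map_sub, map_neg,
    map_one, hm]
  linear_combination -hn

/-- every residue class modulo a prime is a norm -/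
theorem ex_norm {p : ℕ} (hp : p.Prime) (h : p ≠ 3) (t : ℤ) : ∃ y : Zw, (p : ℤ) ∣ nw y - t := by
  have := Fact.mk hp
  by_cases h2 : p = 2
  · subst h2
    exact ⟨t, by rw [nw_int]; simpa [pow_two, mul_sub] using (Int.even_mul_pred_self t).two_dvd⟩
  have h3 : (3 : ZMod p) ≠ 0 := fun e => h ((Nat.prime_dvd_prime_iff_eq hp
    Nat.prime_three).1 ((ZMod.natCast_eq_zero_iff 3 p).1 (by exact_mod_cast e)))
  obtain ⟨a, b, e⟩ := FiniteField.exists_root_sum_quadratic (R := ZMod p)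
    (f := Polynomial.X ^ 2) (g := Polynomial.C 3 * Polynomial.X ^ 2 - Polynomial.C (t : ZMod p))
    (Polynomial.degree_X_pow 2) (by
      rw [Polynomial.degree_sub_C (by rw [Polynomial.degree_C_mul_X_pow _ h3]; decide),
        Polynomial.degree_C_mul_X_pow _ h3]; rfl)
    (by rw [ZMod.card]; exact hp.eq_two_or_odd.resolve_left h2)
  obtain ⟨a, rfl⟩ := ZMod.intCast_surjective a
  obtain ⟨b, rfl⟩ := ZMod.intCast_surjective b
  refine ⟨⟨a + b, 2 * b⟩, (ZMod.intCast_zmod_eq_zero_iff_dvd _ p).1 ?_⟩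
  simp [nw_def] at e ⊢
  linear_combination e

end Pool.Agent.MP_e23604_nt.Z
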