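import Pool.Agent.MP_e23604_nt.Z.GS
import Pool.Agent.MP_e23604_nt.Z.C0

set_option autoImplicit false

open Finset QuadraticAlgebra Polynomial
open scoped Classical

namespace Pool.Agent.MP_e23604_nt.Z.G

open B R S W Un

theorem line_GLVD {m : ℕ} {P : Pt} (hm : m ≠ 0) (h : W.Gen m P) :
    ((AddSubgroup.zmultiples P : AddSubgroup Pt) : Set Pt).Finite ∧
      cd (AddSubgroup.zmultiples P) = m := by
  have e : addOrderOf P = m := Nat.dvd_antisymm
    (addOrderOf_dvd_of_nsmul_eq_zero (by rw [← Nat.cast_smul_eq_nsmul Zw, h.zero])) (by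
      have := (h (addOrderOf P)).1 (by rw [Nat.cast_smul_eq_nsmul, addOrderOf_nsmul_eq_zero])
      rw [← Int.cast_natCast, ← Int.cast_natCast (addOrderOf P), int_dvd_int] at this
      exact_mod_cast this)
  rw [← Nat.card_zmultiples] at e
  have f : ((AddSubgroup.zmultiples P : AddSubgroup Pt) : Set Pt).Finite :=
    Nat.finite_of_card_ne_zero (e.trans_ne hm)
  exact ⟨f, (cd_card f).trans e⟩

theorem gen_GLVD {r l : ℕ} {G : Pt} {L : AddSubgroup Pt} (i j : ℕ) (hr : r ≠ 0)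
    (hG : W.Gen (9 * r) G) (hf : (L : Set Pt).Finite) (hl : l.Coprime (3 * r))
    (hL : ∀ y ∈ L, (l : Zw) • y = 0) : (lv r L G i j).Ok ∧ cd (lv r L G i j).C = r * cd L ∧
    (∀ c ∈ (lv r L G i j).C, (r * l : Zw) • c = 0) ∧
    ∀ V, ¬ Ov V (3 * r) → ¬ Ov V l → (lv r L G i j).Tm V := by
  have g9 : W.Gen r ((9 : Zw) • G) := hG.smul (by norm_num)
  obtain ⟨f, c⟩ := line_GLVD hr g9
  have hc : IsCoprime (l : Zw) (9 * r) := by
    have : IsCoprime (l : Zw) (3 * r) := by exact_mod_cast Nat.Coprime.cast (R := Zw) hl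
    exact this.pow_right (n := 2) |>.of_isCoprime_of_dvd_right ⟨r, by ring⟩
  have k9 : ∀ T ∈ AddSubgroup.zmultiples ((9 : Zw) • G), (r : Zw) • T = 0 := by
    rintro _ ⟨n, rfl⟩
    rw [smul_comm, g9.zero, smul_zero]
  have d : ∀ T ∈ AddSubgroup.zmultiples ((9 : Zw) • G), T ∈ L → T = 0 := fun T a b =>
    cop_smul hc (hL T b) (dvd_smul (k9 T a) (dvd_mul_left _ _))
  have m : ∀ x : Zw, x • G ∈ AddSubgroup.zmultiples ((9 : Zw) • G) ⊔ L →
      ∃ (n : ℤ) (z : Zw), x - 9 * n = 9 * r * z := fun x hx => by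
    obtain ⟨_, ⟨n, rfl⟩, y, hy, e⟩ := AddSubgroup.mem_sup.1 hx
    have e1 : (x - 9 * n) • G = y := by
      rw [sub_smul, ← e, mul_comm, mul_smul, Int.cast_smul_eq_zsmul, add_sub_cancel_left]
    exact ⟨n, (hG _).1 (cop_smul hc (e1 ▸ hL y hy) (by rw [smul_comm, hG.zero, smul_zero]))⟩
  have s : ∀ k : ℤ, (3 * e2 r + 3 * i + k * (3 + 9 * j * e2 r)) • G ∉
      AddSubgroup.zmultiples ((9 : Zw) • G) ⊔ L := fun k h => by
    obtain ⟨n, z, e⟩ := m _ h
    have e1 := congrArg QuadraticAlgebra.im e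
    simp [e2] at e1
    have e3 : (r : ℤ) * (3 + k * (9 * j)) = r * (9 * z.im) := by linear_combination e1
    have e4 := mul_left_cancel₀ (Nat.cast_ne_zero.2 hr) e3
    rw [mul_left_comm] at e4
    omega
  have z : (9 * e2 r) • G = 0 := (hG _).2 ⟨ω - 1, by rw [e2]; ring⟩
  have kl : ∀ c ∈ (lv r L G i j).C, (r * l : Zw) • c = 0 := fun c h => by
    obtain ⟨x, hx, y, hy, rfl⟩ := AddSubgroup.mem_sup.1 h
    rw [smul_add, dvd_smul (k9 x hx) (dvd_mul_right _ _), dvd_smul (hL y hy) (dvd_mul_left _ _),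
      add_zero]
  have ok : (lv r L G i j).Ok := by
    refine ⟨(NC.els_sup f hf d).1, AddSubgroup.mem_sup_left ⟨1, ?_⟩,
      AddSubgroup.mem_sup_left ⟨i, ?_⟩, fun h => ?_, fun h => s 0 (Set.mem_of_eq_of_mem ?_ h),
      fun h => s 1 (Set.mem_of_eq_of_mem ?_ h), fun h => s (-1) (Set.mem_of_eq_of_mem ?_ h)⟩ <;>
      simp only [lv] at *
    · linear_combination (norm := module) -(3 * j : Zw) • z
    · linear_combination (norm := module) -z
    · obtain ⟨n, y, e⟩ := m (3 + 9 * j * e2 r) (Set.mem_of_eq_of_mem (by module) h)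
      have e1 := congrArg QuadraticAlgebra.re
        (show (3 : Zw) = 9 * (r * y + n - j * e2 r) by linear_combination e)
      generalize r * y + n - j * e2 r = w at e1
      simp at e1
      omega
    all_goals
      push_cast
      module
  refine ⟨ok, (NC.cd_sup f hf d).trans (by rw [c, mul_comm]), kl, fun V a b => ⟨ok,
    fun e => a (Ov_mul.2 (.inl e)), fun c h => ⟨_, fun e => ?_, kl c h⟩⟩⟩
  exact (Ov_mul.1 e).elim (fun e => a (Ov_mul.2 (.inr e))) b

theorem pw_GLVD {n : ℕ} (h : pw ∣ n) : 3 ∣ n :=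
  Nat.prime_three.dvd_of_dvd_pow (nn_nat n ▸ pw_dvd_iff.1 h)

theorem LVD_pf : LVD_st := by
  intro r G i j hr h3 hG
  refine ⟨fun L g hg => ?_, ?_, ?_⟩
  · simp only [lv, Lv.mp, AddSubgroup.map_sup, AddMonoidHom.map_zmultiples, map_add, map_nsmul,
      gal_smul hg]
  · have f : ((⊥ : AddSubgroup Pt) : Set Pt).Finite := by simp
    obtain ⟨a, b, -, c⟩ := gen_GLVD (l := 1) i j hr hG f (Nat.coprime_one_left _)
      fun y hy => by rw [AddSubgroup.mem_bot.1 hy, smul_zero]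
    exact ⟨a, by rw [b, cd_card f, AddSubgroup.card_bot, mul_one],
      fun V h => c V h (not_Ov_unit V (by simp))⟩
  rintro lam H d ax hH rfl
  have hp := ax.deg
  obtain ⟨f, c⟩ := line_GLVD hp.ne_zero hH
  have hl : (nn lam).Coprime (3 * r) := hp.coprime_iff_not_dvd.2 fun e => by
    have := Nat.le_of_dvd (by omega) e
    nlinarith [ax.big]
  have l3 : ¬ 3 ∣ nn lam := fun e => by simpa using Nat.eq_one_of_dvd_coprimes hl e ⟨r, rfl⟩
  obtain ⟨a, b, k, t⟩ := gen_GLVD (l := nn lam) i j hr hG f hl (by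
    rintro _ ⟨n, rfl⟩
    rw [smul_comm, hH.zero, smul_zero])
  have eS : (lv r (AddSubgroup.zmultiples H) G i j).S = (3 * e2 r + 3 * i) • G := by
    simp only [lv]
    module
  rw [c] at b
  refine ⟨a, b, k, fun hi e => ?_, ?_, fun V hV => ⟨⟨a, a.fin, fun e => hV (Ov_mul.2 (.inl e)),
    fun x hx e => ?_⟩, t V hV⟩⟩
  · rw [eS, b, ← mul_smul, hG] at e
    obtain ⟨z, e⟩ := e
    have e1 : (nn lam : Zw) * (e2 r + i) = pw * -z :=
      mul_left_cancel₀ (mul_ne_zero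
        (mul_ne_zero (show (3 : Zw) ≠ 0 by decide) (Nat.cast_ne_zero.2 hr))
        pw_prime.ne_zero) (by
          push_cast at e
          linear_combination e + 3 * r * z * pw_sq)
    rcases pw_prime.dvd_or_dvd ⟨_, e1⟩ with e2 | e2
    · exact l3 (pw_GLVD e2)
    · exact hi (pw_GLVD ((dvd_add_right (pw_w.mul_left _)).1 e2))
  · rw [eS, ← mul_smul, hG]
    exact ⟨nn lam * (e2 r + i), by ring⟩
  · have hr' : ¬ Ov V r := fun e => hV (Ov_mul.2 (.inr e))
    obtain ⟨μ, ν, h1, h2, h4⟩ : ∃ μ ν : Zw, μ * ν = nn lam ∧ nn μ = nn lam ∧ ¬ Ov V μ := by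
      by_cases h : Ov V lam
      · exact ⟨_, _, (mul_comm _ _).trans (mul_star_nn lam), W.nn_star lam,
          h.cop (cop_conj hp (fun e => l3 (e ▸ dvd_rfl)) rfl)⟩
      · exact ⟨_, _, mul_star_nn lam, rfl, h⟩
    have e0 := E1_tor (E1m e (ν * r)).1 h4 (by
      rw [← mul_smul, ← mul_assoc, h1, mul_comm, k x hx])
    refine E1_tor e hr' ?_
    obtain ⟨_, ⟨n, rfl⟩, _, ⟨m, rfl⟩, rfl⟩ := AddSubgroup.mem_sup.1 hx
    have e1 : (r : Zw) • (n • (9 : Zw) • G + m • H) = ((r * m : ℤ) : Zw) • H := by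
      rw [smul_add, smul_comm, ← mul_smul, mul_comm, hG.zero, smul_zero, zero_add, Int.cast_mul,
        Int.cast_natCast, mul_smul, Int.cast_smul_eq_zsmul]
    rw [mul_smul, e1, ← mul_smul, hH, ← h1, mul_comm μ, mul_dvd_mul_iff_left (by
      rintro rfl
      exact hp.ne_zero (Nat.cast_eq_zero.1 (h1.symm.trans (mul_zero _))))] at e0
    have e2 := Int.natCast_dvd_natCast.2 (h2 ▸ nn_dvd e0)
    rw [nn_cast ((r * m : ℤ) : Zw), nw_int] at e2
    rw [e1, hH, ← Int.cast_natCast, int_dvd_int]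
    exact (Nat.prime_iff_prime_int.1 hp).dvd_of_dvd_pow e2

end Pool.Agent.MP_e23604_nt.Z.G
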