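import Pool.Agent.MP_e23604_nt.Z.GS

set_option autoImplicit false

open Finset QuadraticAlgebra Polynomial
open scoped Classical

namespace Pool.Agent.MP_e23604_nt.Z.G

open B R S W Un

theorem mm_GMAT {C : AddSubgroup Pt} {X Y : Pt} (h : X ∈ C) (e : X = Y) : Y ∈ C := e ▸ h

/-- the group generated by `C` and `T` -/
noncomputable def C3_GMAT (C : AddSubgroup Pt) (T : Pt) : AddSubgroup Pt where
  carrier := {X | ∃ j : ℤ, X - j • T ∈ C}
  zero_mem' := ⟨0, by simp⟩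
  add_mem' := by
    rintro X Y ⟨i, h⟩ ⟨j, h'⟩
    exact ⟨i + j, mm_GMAT (C.add_mem h h') (by module)⟩
  neg_mem' := by
    rintro X ⟨i, h⟩
    exact ⟨-i, mm_GMAT (C.neg_mem h) (by module)⟩

theorem sum_GMAT {C : AddSubgroup Pt} {T : Pt} (hC : (C : Set Pt).Finite) (h3 : 3 • T ∈ C)
    (h0 : T ∉ C) : (C3_GMAT C T : Set Pt).Finite ∧
      ∀ Z, sX (C3_GMAT C T) Z = sX C Z + sX C (Z + T) + sX C (Z - T) := by
  have e : (C3_GMAT C T : Set Pt) =
      ↑(els C ∪ (els C).image (T + ·) ∪ (els C).image (-T + ·)) := by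
    ext X
    simp only [coe_union, coe_image, Set.mem_union, Set.mem_image, mem_coe, mem_els hC]
    constructor
    · rintro ⟨j, hj⟩
      obtain ⟨q, rfl | rfl | rfl⟩ : ∃ q, j = 3 * q ∨ j = 3 * q + 1 ∨ j = 3 * q - 1 :=
        ⟨(j + 1) / 3, by omega⟩ <;> have := C.add_mem hj (C.zsmul_mem h3 q)
      · exact .inl (.inl (mm_GMAT this (by module)))
      · exact .inl (.inr ⟨_, this, by module⟩)
      · exact .inr ⟨_, this, by module⟩
    · rintro ((h | ⟨c, h, rfl⟩) | ⟨c, h, rfl⟩)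
      exacts [⟨0, by simpa using h⟩, ⟨1, by simpa using h⟩, ⟨-1, by simpa using h⟩]
  have f : (C3_GMAT C T : Set Pt).Finite := e ▸ finite_toSet _
  refine ⟨f, fun Z => ?_⟩
  rw [sX, show els (C3_GMAT C T) = _ from coe_injective ((Set.ext fun _ => mem_els f).trans e),
    sum_union, sum_union, sum_image fun _ _ _ _ => add_left_cancel,
    sum_image fun _ _ _ _ => add_left_cancel]
  · simp only [sX, add_assoc, sub_eq_add_neg]
  all_goals simp only [disjoint_left, mem_union, mem_image, mem_els hC]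
  · rintro _ h ⟨c, h', rfl⟩
    exact h0 ((C.add_mem_cancel_right h').1 h)
  · rintro _ (h | ⟨c, h, e⟩) ⟨c', h', rfl⟩
    · exact h0 (neg_mem_iff.1 ((C.add_mem_cancel_right h').1 h))
    · exact h0 (mm_GMAT (C.add_mem h3 (C.sub_mem h h')) (by linear_combination (norm := module) e))

theorem nb_GMAT (hVUN : VUN_st) {V : Plc} {C : AddSubgroup Pt} (hC : (C : Set Pt).Finite)
    (h3 : ¬ Ov V 3) (hT : C ≤ TT V) {X Y : Pt} (hX : X ∈ TT V) (hY : Y ∈ TT V) (x : X ∉ C)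
    (y : Y ∉ C) (h : V.v (sX C X - sX C Y) < 1) : X - Y ∈ C ∨ X + Y ∈ C := by
  have u := (hVUN C).2 V ⟨hC, h3, fun _ hc => TT_E1 (hT hc)⟩
  by_contra e
  exact h.ne (((u X).2.2.2 ((u X).2.1 hT hX x)).2.2.2.2 Y ((u Y).2.1 hT hY y)
    ((u _).2.1 hT (sub_mem hX hY) fun k => e (.inl k))
    ((u _).2.1 hT (add_mem hX hY) fun k => e (.inr k)))

theorem ker_GMAT (hVGR : VGR_st) {V : Plc} {d : Lv} {φ : Pt →+ PW (Wd d.pt)} (h : d.Tm V)
    (l : Vl d φ) {X : Pt} (hX : X ∈ TT V) : E1 V.v (φ X) ↔ X ∈ d.C := by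
  rw [((hVGR V d h.gd).2.2.2.2.2.2.2.2.2.2 φ l).1]
  exact ⟨fun ⟨c, h1, h2⟩ => sub_eq_zero.1 (TT_E1 (sub_mem hX (h.le h1)) h2) ▸ h1,
    fun e => ⟨X, e, by rw [sub_self]; trivial⟩⟩

theorem un_GMAT {V : Plc} {u x y : Qb} (h : V.v u = 1) (e : u * x = y) (h' : V.v y < 1) :
    V.v x < 1 := by rwa [← e, map_mul, h, one_mul] at h'

theorem MAT_pf (hPARW : PARW_st) (hVUN : VUN_st) (hVEL : VEL_st) (hVGR : VGR_st) (hSIG : SIG_st)
    (hKERN : KERN_st) : MAT_st := by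
  intro V σ d d' φ φ' s D F h a b k t ht hm hk ha
  have g := hSIG V σ h.iq.inr
  obtain ⟨-, -, -, -, -, -, -, g1, g2, -⟩ := hVGR V d h.tm.gd
  obtain ⟨-, -, -, g3, -, -, -, g4, -, g5, g6⟩ := hVGR V d' h.tm'.gd
  have s1 := h.s1.trans_lt g.q1
  have M : ∀ P ∈ TT V, ∀ P₃, (φ (k • P), φ' P₃) ∈ D → E1 V.v (φ' (be σ a b P) - φ' P₃) := by
    intro P hP P₃ e
    obtain ⟨P₁, e1⟩ := h.hF.onto P
    have e2 : E1 V.v (P₁ - gal σ P) := by
      by_cases e0 : P = 0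
      · subst e0
        rw [map_zero, sub_zero]
        exact (h.hF.one _ _ e1).1 trivial
      obtain ⟨c1, c2, c3, c4⟩ := (h.hF.cong P P₁ fun e => e0 (TT_E1 hP e)).1 e1
      simp only [xw_xc, yw_yc] at c3 c4
      have c5 := (not_E1.1 c1).2
      refine CLO_ok V _ _ c2 (fun e => e0 ((gal_ne σ).1 (TT_E1 (g.tt P hP).1 e))) ?_ ?_ <;>
        rw [v_three g.n3]
      · simpa [(xc_gal σ P).1] using bLocA_sub_lt V.na (c3.trans_lt g.q1) (g.fr _ c5)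
      · simpa [(xc_gal σ P).2] using bLocA_sub_lt V.na (c4.trans_lt g.q1) (g.fr _ (yc_le c5))
    have e3 := g5.sub (g5.zs_lt.1 ((hm P P₁ P₃ e1 e).trans_lt ht))
      (((g6 φ' h.vl').1 _).2 ⟨0, zero_mem _, by simpa using (E1m e2 b).1⟩)
    rw [← map_sub] at e3 ⊢
    rwa [show be σ a b P - P₃ = a • P + b • P₁ - P₃ - b • (P₁ - gal σ P) by rw [be_apply]; module]
  have K : ∀ P ∈ TT V, k • P ∈ d.C ↔ be σ a b P ∈ d'.C := fun P hP => by
    obtain ⟨P', e⟩ := h.hD.onto (φ (k • P))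
    obtain ⟨P₃, rfl⟩ := h.vl'.sur P'
    rw [← ker_GMAT hVGR h.tm h.vl (TT_smul hP k), ← ker_GMAT hVGR h.tm' h.vl' (g.bt a b P hP),
      h.hD.one _ _ e]
    exact ⟨fun e' => by simpa using g5.add (M P hP P₃ e) e',
      fun e' => by simpa using g5.sub e' (M P hP P₃ e)⟩
  have K' : ∀ P, k • P ∈ d.C → be σ a b P ∈ d'.C := fun P e => (K P (TT_of hk (h.tm.le e))).1 e
  have X : ∀ P ∈ TT V, k • P ∉ d.C →
      V.v (d'.ka * vX d'.C d'.T (be σ a b P) - d.ka * vX d.C d.T (k • P)) < 1 := fun P hP n => by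
    obtain ⟨P', e⟩ := h.hD.onto (φ (k • P))
    obtain ⟨P₃, rfl⟩ := h.vl'.sur P'
    obtain ⟨-, c2, c3, -⟩ :=
      (h.hD.cong _ _ ((ker_GMAT hVGR h.tm h.vl (TT_smul hP k)).not.2 n)).1 e
    have n' := (K P hP).not.1 n
    have c4 := (hPARW V _ g5).2.2.2.1 _ _
      ((ker_GMAT hVGR h.tm' h.vl' (g.bt a b P hP)).not.2 n') c2
    have c5 := c4.trans_lt (mul_lt_one_of_nonneg_of_lt_one_right (g5.zs_le _) (zs_nonneg _ _)
      (g5.zs_lt.2 (M P hP P₃ e)))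
    simpa [h.vl.xx _ n, h.vl'.xx _ n'] using bLocA_add_lt V.na c5 (c3.trans_lt s1)
  have N := fun {X Y} => nb_GMAT hVUN (X := X) (Y := Y) h.tm'.ok.fin g.n3 h.tm'.le
  have r := (hVEL.2 d h.tm.ok).1
  have r' := (hVEL.2 d' h.tm'.ok).1
  have hx := h.hx.trans_lt s1
  have k0 := ne_of_not_Ov hk
  refine ⟨?_, K', fun P e => ?_, ?_⟩
  · have : qC k d.C = pb V σ a b d'.C := AddSubgroup.ext fun P =>
      ⟨fun e => ⟨TT_of hk (h.tm.le e), K' P e⟩, fun e => (K P e.1).2 e.2⟩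
    rw [mul_comm, ← qC_cd k0 h.tm.ok.fin, this,
      (hKERN V σ a b _ h.iq.inr ha h.tm'.ok.fin h.tm'.le).2.1, mul_comm]
  · have hP := TT_of hk (e ▸ h.tm.S)
    have n : k • P ∉ d.C := e ▸ h.tm.ok.s0
    have x := X P hP n
    have c : NC.Cg V (xc d'.pt) (xc d.pt) := ⟨g4.le, g1.le, hx⟩
    have y := un_GMAT (x := d'.ka * d'.x1 - d.ka * d.x1) (v_nine g.n3)
      (by rw [r.r4, r'.r4, dc, dc]; ring) (c.pow 3).2.2
    rw [e] at x
    exact N (g.bt a b P hP) h.tm'.S ((K P hP).not.1 n) h.tm'.ok.s0 (un_GMAT g3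
      (by simp only [Lv.x1, vX_eq]; ring) (bLocA_sub_lt V.na x y))
  obtain ⟨P, e⟩ := smul_onto k0 d.R
  have hP := TT_of hk (e ▸ h.tm.R)
  have n : ∀ j : ℤ, k • (P + j • 3 • P) ∉ d.C := fun j c => h.tm.ok.r3
    (mm_GMAT (d.C.sub_mem (d.C.nsmul_mem c 3) (d.C.zsmul_mem h.tm.ok.r9 j)) (by rw [← e]; module))
  have t3 : 3 • d'.T ∈ d'.C := mm_GMAT h.tm'.ok.r9 (by rw [Lv.T]; module)
  have e3 : k • 3 • P = d.T := by rw [smul_comm, e]; rfl
  have n3 : k • 3 • P ∉ d.C := e3 ▸ h.tm.ok.r3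
  have h3 := (TT V).nsmul_mem hP 3
  have n4 := (K _ h3).not.1 n3
  have q := N (g.bt a b _ h3) h.tm'.T n4 h.tm'.ok.r3 (un_GMAT g3
    (by rw [e3]; simp only [vX_eq]; ring) (X _ h3 n3))
  have x0 := X _ hP (by simpa using n 0)
  have x1 := X _ (add_mem hP h3) (by simpa using n 1)
  have x2 := X _ (sub_mem hP h3) (by simpa [sub_eq_add_neg] using n (-1))
  rw [smul_add, map_add, e, e3] at x1
  rw [smul_sub, map_sub (be σ a b), e, e3] at x2
  rw [e] at x0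
  rw [map_nsmul] at q n4 x1 x2
  have hQ := g.bt a b P hP
  suffices H : ∃ u : ℤ, ¬ 3 ∣ u ∧ be σ a b P - u • d'.R ∈ d'.C by
    refine H.imp fun u H => ⟨H.1, fun P' e' => ?_⟩
    have := d'.C.add_mem (K' (P' - P) (by rw [smul_sub, e, e', sub_self]; exact zero_mem _)) H.2
    rwa [map_sub, sub_add_sub_cancel] at this
  generalize be σ a b P = Q at *
  have i := fun Z => ((hVUN d'.C).1 h.tm'.ok.fin Z).2
  have z : sX d'.C (Q + 3 • Q) + sX d'.C (Q - 3 • Q) = sX d'.C (Q + d'.T) + sX d'.C (Q - d'.T) := by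
    rcases q with q | q
    · rw [← i (Q + d'.T) _ q, ← i (Q - d'.T) _ (neg_mem q)]
      congr 2 <;> abel
    · rw [← i (Q + d'.T) _ (neg_mem q), ← i (Q - d'.T) _ q, add_comm]
      congr 2 <;> abel
  have w1 : V.v (1 - w3) = 1 := (pow_eq_one_iff_of_nonneg (V.v.nonneg _) two_ne_zero).1 (by
    rw [← map_pow, show (1 - w3) ^ 2 = -(3 * w3) by linear_combination w3_spec, V.v.map_neg,
      map_mul, v_three g.n3, v_w3, one_mul])
  have w2 : V.v (da d'.pt - da d.pt) < 1 := un_GMAT (y := w3 ^ 2 * (yc d'.pt - yc d.pt)) w1 (by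
    have : 1 - w3 ≠ 0 := fun e => by simp [e] at w1
    rw [da, da]
    field_simp
    ring) (by rw [map_mul, map_pow, v_w3, one_pow, one_mul]; exact h.hy.trans_lt s1)
  have w3' : V.v (xc d.pt - da d.pt) ≤ 1 := bLocA_sub_le V.na g1.le (by
    simpa using bLocA_add_le V.na g2.le (map_one V.v).le)
  have y := un_GMAT (x := d'.ka * d'.x4 - d.ka * d.x4) (v_three g.n3)
    (by linear_combination r'.r5 - r.r5) (bLocA_add_lt V.na
      ((bLocA_mul_le w3').trans_lt hx) ((bLocA_mul_le g4.le).trans_lt (bLocA_sub_lt V.na hx w2)))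
  obtain ⟨f1, f2⟩ := sum_GMAT h.tm'.ok.fin t3 h.tm'.ok.r3
  have m : ∀ Z ∈ C3_GMAT d'.C d'.T, 3 • Z ∈ d'.C := fun Z ⟨j, c⟩ =>
    mm_GMAT (d'.C.add_mem (d'.C.nsmul_mem c 3) (d'.C.zsmul_mem t3 j)) (by module)
  rcases nb_GMAT hVUN f1 g.n3 (fun Z ⟨j, c⟩ => by
    simpa using add_mem (h.tm'.le c) ((TT V).zsmul_mem h.tm'.T j)) hQ h.tm'.R (fun c => n4 (m _ c))
    (fun c => h.tm'.ok.r3 (m _ c)) (un_GMAT g3 (by
      simp only [f2, Lv.x4, vX_eq]
      linear_combination -d'.ka * z) (bLocA_sub_lt V.na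
        (bLocA_add_lt V.na (bLocA_add_lt V.na x0 x1) x2) y)) with ⟨j, c⟩ | ⟨j, c⟩
  · exact ⟨3 * j + 1, by omega, mm_GMAT c (by rw [Lv.T]; module)⟩
  · exact ⟨3 * j - 1, by omega, mm_GMAT c (by rw [Lv.T]; module)⟩

end Pool.Agent.MP_e23604_nt.Z.G
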