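import Pool.Agent.MP_e23604_nt.Z.GS
import Pool.Agent.MP_e23604_nt.Z.C0

set_option autoImplicit false

open Finset QuadraticAlgebra Polynomial
open scoped Classical

namespace Pool.Agent.MP_e23604_nt.Z.G

open B R S W Un

theorem NRA_pf : NRA_st := by
  intro r lam hA
  obtain ⟨l, el⟩ : ∃ l, nn lam = l := ⟨_, rfl⟩
  have hl : l.Prime := el ▸ hA.deg
  have := Fact.mk hl
  have l0 : (l : Zw) ≠ 0 := Nat.cast_ne_zero.2 hl.ne_zero
  have N0' : (N0 r : Zw) ≠ 0 := Nat.cast_ne_zero.2 (N0_ne hA.r0)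
  have m0 := mul_ne_zero N0' l0
  have le : UM (N0 r * l) ≤ UL r l := fun g hg => ⟨UM_mono (dvd_mul_right _ _) hg, fun P e => by
    rw [AddMonoidHom.map_zmultiples, (UM_mono (dvd_mul_left _ _) hg).2 P e]⟩
  rw [el]
  refine ⟨⟨Subgroup.isOpen_mono le (UM_open m0), fun g hg => hg.1.1,
    fun g hg h hh => le (((PS_ok _ m0).1 g hg).2.2.2.2.2.2.1 h hh)⟩, fun V φ hV hφ => ?_⟩
  have co : IsCoprime lam (star lam) := cop_conj hl (by
    have := hA.big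
    have := Nat.pos_of_ne_zero (pow_ne_zero 2 hA.r0)
    omega) el
  have fa : lam * star lam = l := by rw [mul_star_nn, el]
  obtain ⟨ρ, hρ⟩ := ex_rho el
  obtain ⟨ρ', e'⟩ : ∃ ρ' : Zw →+* ZMod l, ∀ x, ρ' x = ρ (star x) :=
    ⟨ρ.comp (starRingEnd Zw), fun _ => rfl⟩
  have hρ' : ∀ x, ρ' x = 0 ↔ star lam ∣ x := fun x => by
    rw [e', hρ]
    constructor <;> exact fun h => by simpa [starRingEnd_apply] using map_dvd (starRingEnd Zw) h
  have P := (PS_ok _ l0).1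
  have sb : ∀ (θ : Zw →+* ZMod l) (a b : Zw), (l : Zw) ∣ a - b → θ a = θ b := fun θ a b h => by
    have := map_dvd θ h
    rwa [map_natCast, ZMod.natCast_self, zero_dvd_iff, map_sub, sub_eq_zero] at this
  have mu : ∀ θ : Zw →+* ZMod l, ∀ g ∈ GK, ∀ h ∈ GK, θ (ps l (g * h)) = θ (ps l g) * θ (ps l h) :=
    fun θ g hg h hh => (sb θ _ _ ((P g hg).2.2.2.2.2.1 h hh)).trans (map_mul _ _ _)
  have nz : ∀ θ : Zw →+* ZMod l, ∀ g ∈ GK, θ (ps l g) ≠ 0 := fun θ g hg e => by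
    have := (P g hg).2.1.map θ
    rw [e, map_natCast, ZMod.natCast_self] at this
    exact not_isCoprime_zero_zero this
  have ac : ∀ (θ : Zw →+* ZMod l) (ϖ : Zw) (T : Pt), (∀ x, θ x = 0 ↔ ϖ ∣ x) → Gen ϖ T →
      ∀ g ∈ GK, ∀ u : Zw, gal g T = u • T → θ (ps l g) = θ u := fun θ ϖ T h hT g hg u e => by
    rw [(P g hg).1 T ((hT _).2 ((h _).1 (by simp))), hT.congr, ← h, map_sub] at e
    exact sub_eq_zero.1 e
  have cr : ∀ g ∈ UM (N0 r), g ∈ UL r l ↔ ρ (ps l g) = ρ' (ps l g) := fun g hg => by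
    refine ⟨fun h => ?_, fun h => ⟨hg, fun Q hQ => ?_⟩⟩
    · obtain ⟨G, hG⟩ := (CYG_ok _ l0).1
      have h1 := h.2 G hG.zero
      rw [AddMonoidHom.map_zmultiples] at h1
      obtain ⟨n, hn⟩ := AddSubgroup.mem_zmultiples_iff.1 (h1 ▸ AddSubgroup.mem_zmultiples _)
      rw [(P g hg.1).1 G hG.zero, ← Int.cast_smul_eq_zsmul Zw, hG.congr] at hn
      rw [← sb _ _ _ hn, ← sb _ _ _ hn, map_intCast, map_intCast]
    · obtain ⟨n, hn⟩ := ZMod.intCast_surjective (ρ (ps l g))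
      obtain ⟨m, hm⟩ := ZMod.intCast_surjective (ρ (ps l g))⁻¹
      have K : ∀ x, ρ x = 0 → ρ' x = 0 → (l : Zw) ∣ x := fun x a b =>
        fa ▸ co.mul_dvd ((hρ x).1 a) ((hρ' x).1 b)
      rw [AddMonoidHom.map_zmultiples, (P g hg.1).1 Q hQ]
      refine le_antisymm (AddSubgroup.zmultiples_le_of_mem
        (AddSubgroup.mem_zmultiples_iff.2 ⟨n, ?_⟩)) (AddSubgroup.zmultiples_le_of_mem
        (AddSubgroup.mem_zmultiples_iff.2 ⟨m, ?_⟩))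
      · rw [← Int.cast_smul_eq_zsmul Zw]
        exact smul_congr hQ (K _ (by simp [hn]) (by simp [hn, h]))
      · rw [← Int.cast_smul_eq_zsmul Zw, ← mul_smul, smul_congr hQ (b := 1), one_smul]
        exact K _ (by simp [hm, nz ρ g hg.1]) (by simp [hm, ← h, nz ρ g hg.1])
  have nN : ¬ Ov V (N0 r) := hV.cop (by
    obtain ⟨c, hc⟩ := hA.n0
    exact ⟨1, -c, by linear_combination hc⟩)
  have I := INE_ok V fun e => nN (e.dvd (by exact_mod_cast Nat.cast_dvd_cast (N0_dvd r)))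
  obtain ⟨T, hT⟩ := (CYG_ok _ hA.pp.1.ne_zero).1
  obtain ⟨T', hT'⟩ := (CYG_ok (star lam) (star_ne_zero.2 hA.pp.1.ne_zero)).1
  have i0 : ∀ τ ∈ V.I, τ ∈ UM (N0 r) := fun τ h => (I τ h).2.2 _ nN
  have i1 : ∀ τ ∈ V.I, ρ' (ps l τ) = 1 := fun τ h => (ac ρ' _ T' hρ' hT' τ h.2 1
    (((I τ h).2.1 _ _ (hV.cop co) hT'.zero).trans (one_smul _ _).symm)).trans (map_one _)
  have ex : ∀ x : ZMod l, ∃ τ, x ≠ 0 → τ ∈ V.I ∧ ρ (ps l τ) = x := fun x => by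
    by_cases h : x = 0
    · exact ⟨1, fun e => absurd h e⟩
    obtain ⟨n, rfl⟩ := ZMod.intCast_surjective x
    obtain ⟨τ, h1, h2⟩ := RAMQ_ok' V lam T ((n : Zw) • T) hA.pp hA.deg hV hT.zero
      (by rw [smul_comm, hT.zero, smul_zero])
      (fun e => hA.pp.1.not_dvd_one ((hT 1).1 (by rw [e, smul_zero])))
      fun e => h (by simpa using (hρ _).2 ((hT _).1 e))
    exact ⟨τ, fun _ => ⟨h1, (ac ρ _ T hρ hT τ h1.2 _ h2).trans (map_intCast _ _)⟩⟩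
  choose τ hτ using ex
  have g0 := hφ.1.2
  have f0 : φ ∈ UM (N0 r) := ⟨g0, fun Q hQ => by
    rw [((FRB_ok V _ hA.pp hV).2 φ hφ).2 _ Q nN hQ, smul_congr hQ hA.n0, one_smul]⟩
  refine ⟨?_, (univ.erase 0).image τ, ⟨fun y hy => ?_, fun g hg => ?_⟩, fun y hy => ?_, ?_⟩
  · obtain ⟨t1, t2⟩ := hτ _ (div_ne_zero (nz ρ' φ g0) (nz ρ φ g0))
    refine ⟨_, t1, (cr _ (mul_mem f0 (i0 _ t1))).2 ?_⟩
    rw [mu _ _ g0 _ t1.2, mu _ _ g0 _ t1.2, t2, i1 _ t1, mul_div_cancel₀ _ (nz ρ φ g0), mul_one]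
  · obtain ⟨x, hx, rfl⟩ := mem_image.1 hy
    exact i0 _ (hτ x (ne_of_mem_erase hx)).1
  · have k : ∀ x, x ≠ 0 → ((τ x)⁻¹ * g ∈ UL r l ↔ x = ρ (ps l g) / ρ' (ps l g)) := fun x hx => by
      obtain ⟨t1, t2⟩ := hτ x hx
      have h1 := mul_mem (inv_mem (i0 _ t1)) hg
      have h2 := fun θ => mu θ _ t1.2 _ h1.1
      rw [mul_inv_cancel_left] at h2
      rw [cr _ h1, eq_div_iff (nz _ g hg.1), h2, h2, t2, i1 _ t1, one_mul, mul_right_inj' hx,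
        eq_comm]
    have h0 := div_ne_zero (nz ρ g hg.1) (nz ρ' g hg.1)
    refine ⟨_, ⟨mem_image_of_mem _ (mem_erase.2 ⟨h0, mem_univ _⟩), (k _ h0).2 rfl⟩, ?_⟩
    rintro y ⟨hy, e⟩
    obtain ⟨x, hx, rfl⟩ := mem_image.1 hy
    rw [← (k x (ne_of_mem_erase hx)).1 e]
  · obtain ⟨x, hx, rfl⟩ := mem_image.1 hy
    exact (hτ x (ne_of_mem_erase hx)).1
  · rw [card_image_of_injOn fun x hx y hy e => by
      rw [← (hτ x (ne_of_mem_erase hx)).2, e, (hτ y (ne_of_mem_erase hy)).2],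
      card_erase_of_mem (mem_univ _), card_univ, ZMod.card]

end Pool.Agent.MP_e23604_nt.Z.G
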