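import Pool.Agent.MP_e23604_nt.Z.GS

set_option autoImplicit false

open Finset QuadraticAlgebra Polynomial
open scoped Classical

namespace Pool.Agent.MP_e23604_nt.Z.G

open B R S W Un NC

theorem one_GNRB {V : Plc} {N : ℕ} (h0 : N ≠ 0) (hN : V.v N = 1) {g : GQ} (hg : g ∈ V.D)
    (hc : W.cy N g = 1) {ε : Qb} (he : g ε = ε) (h1 : Cg V ε 1) : km N g ε = 0 := by
  have e := (zt_prim h0).pow_sub_pow_eq_prod_sub_mul 1 (rt N ε) (Nat.pos_of_ne_zero h0)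
  rw [one_pow, rt_pow h0] at e
  obtain ⟨z, hz, hs⟩ : ∃ z ∈ nthRootsFinset N (1 : Qb), V.v (1 - z * rt N ε) < 1 := by
    by_contra! k
    exact h1.symm.2.2.not_ge (by rw [e, map_prod]; exact Finset.one_le_prod k)
  have c1 : Cg V (z * rt N ε) 1 := Cg.mk' (by simp) (by rwa [V.v.map_sub])
  have c2 : Cg V (g (z * rt N ε)) 1 :=
    Cg.mk' (by simp) (by rw [← map_one g, ← map_sub, hg.1]; exact c1.2.2)
  have c3 : (z * rt N ε) ^ N = ε := by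
    rw [mul_pow, rt_pow h0, (mem_nthRootsFinset (Nat.pos_of_ne_zero h0) 1).1 hz, one_mul]
  have e0 : ε ≠ 0 := fun k => by simpa [k] using h1.2.2
  rw [km_fix h0 e0 c3 he hc, ← lz_one h0]
  exact congrArg _ (root_one V hN (by rw [div_pow, ← map_pow, c3, he, div_self e0])
    (by simpa only [div_one] using (c2.div c1 (by simp)).2.2))

theorem fix_GNRB {U : Subgroup GQ} (h : Ab U) {x : Qb} (hx : Fix U x) {g : GQ} (hg : g ∈ GK) :
    Fix U (g x) := fun u hu => by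
  rw [← AlgEquiv.mul_apply, ← mul_inv_cancel_left (g * u) (u * g), AlgEquiv.mul_apply,
    hx _ (h.ab g hg u (h.le hu)), AlgEquiv.mul_apply, hx u hu]

theorem inv_GNRB {U H : Subgroup GQ} (h : Ab U) (hH : H ≤ GK) {Y : Finset GQ} (hY : Trv U H Y) :
    Trv U H (Y.image (·⁻¹)) := by
  have k : ∀ g ∈ GK, ∀ y ∈ GK, g * y ∈ U → y * g ∈ U := fun g hg y hy e => by
    simpa only [mul_inv_cancel_left] using U.mul_mem e (h.ab g hg y hy)
  refine ⟨fun y hy => ?_, fun g hg => ?_⟩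
  · obtain ⟨x, hx, rfl⟩ := mem_image.1 hy
    exact H.inv_mem (hY.1 x hx)
  obtain ⟨y, ⟨h1, h2⟩, h3⟩ := hY.2 _ (H.inv_mem hg)
  refine ⟨y⁻¹, ⟨mem_image_of_mem _ h1, ?_⟩, ?_⟩
  · simpa using k g (hH hg) y (hH (hY.1 y h1)) (by simpa using U.inv_mem h2)
  rintro _ ⟨hy, e⟩
  obtain ⟨x, hx, rfl⟩ := mem_image.1 hy
  rw [h3 x ⟨hx, by simpa using U.inv_mem (k x (hH (hY.1 x hx)) g (hH hg) (by simpa using e))⟩]

theorem nrm_GNRB {V : Plc} {U H : Subgroup GQ} (h : Ab U) (hH : H ≤ GK) {Y : Finset GQ}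
    (hY : Trv U H Y) (hI : ∀ y ∈ Y, y ∈ V.I) {θ : Qb} (h0 : θ ≠ 0) (hθ : Fix U θ) :
    Cg V ((∏ y ∈ Y, y θ) ^ 2 / θ ^ (2 * Y.card)) 1 := by
  have e : ∏ y ∈ Y, y⁻¹ θ = ∏ y ∈ Y, y θ := by
    rw [← (inv_GNRB h hH hY).prod_eq hY (F := fun y => y θ) fun g _ u hu => by
      rw [AlgEquiv.mul_apply, hθ u hu], prod_image fun _ _ _ _ e => inv_injective e]
  rw [sq, pow_mul, ← prod_const]
  nth_rw 2 [← e]
  rw [← prod_mul_distrib, ← prod_div_distrib, ← prod_const_one (s := Y)]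
  refine Cg.prod fun y hy => ?_
  have v1 : ∀ z ∈ V.I, V.v (z θ / θ) = 1 := fun z hz => by
    rw [map_div₀, (V.I_le hz).1, div_self (V.v.ne_zero h0)]
  have v2 := (v1 _ (V.I.inv_mem (hI y hy))).le
  have := (Cg.rfl' (v1 y (hI y hy)).le).mul (Cg.mk' v2 ((hI y hy).1 _ v2)).symm
  have y0 := (map_ne_zero y).2 h0
  rwa [div_mul_div_comm, ← sq, map_div₀, ← AlgEquiv.mul_apply, mul_inv_cancel, AlgEquiv.one_apply,
    div_mul_div_cancel₀ h0, div_self y0] at this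

theorem NRB_pf (hNRA : NRA_st) : NRB_st := by
  intro r k lam V φ ax sp six
  obtain ⟨ab, h⟩ := hNRA r lam ax
  obtain ⟨⟨τ, hτ, hU⟩, Y, hY, hI, hc⟩ := h V φ sp.ov sp.fr
  have h0 : 3 ^ k ≠ 0 := by positivity
  have big : 6 < nn lam := by
    have := ax.big
    have := Nat.pos_of_ne_zero ax.r0
    nlinarith
  have nl : ¬ V.l ∣ 3 ^ k := fun e => by
    have := Nat.le_of_dvd three_pos (V.hl.out.dvd_of_dvd_pow e)
    rw [← sp.deg] at this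
    omega
  have hN : V.v (3 ^ k : ℕ) = 1 := by simpa only [map_natCast] using not_Ov.1 (not_Ov_nat nl)
  have l0 : ((nn lam - 1 : ℕ) : ZMod (3 ^ k)) = 0 :=
    (ZMod.natCast_eq_zero_iff _ _).2 ((pow_dvd_pow 3 k.le_succ).trans (sp.deg ▸ sp.dvd))
  have fr := (((FRK_ok V lam sp.pp.1 sp.ov).2.2.2 φ sp.fr).2.1 τ hτ).1
  have cy1 : W.cy (3 ^ k) (φ * τ) = 1 := by
    rw [((KM_ok _ h0).2.2.2.2.2.2.2.2 V nl).2.2 lam _ fr, ← Nat.sub_add_cancel (by omega : 1 ≤ nn lam),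
      Nat.cast_succ, l0, zero_add]
  have eq : ∀ b, ¬ lam ∣ b → lk k (φ * τ) b = lk k φ b := fun b hb => by
    have := mt ((PLK_ok.2.2.1 V lam sp.pp.1 sp.ov).1 b).1 hb
    rw [lk, km_mul h0 _ _ (io_ne (ne_of_not_Ov this)),
      km_ine V hN hτ.1 (not_Ov.1 this) (io_fix hτ.2 b), io_fix hτ.2, mul_zero, zero_add, lk]
  refine ⟨φ * τ, ⟨ab.le hU, cy1, fun b hb => (eq b fun e => ?_).trans (six b hb),
    fun x X x0 hx hX => ?_⟩, eq⟩
  · have := nn_dvd (b := (6 : ℕ)) (e.trans hb)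
    rw [nn_nat] at this
    exact (Nat.le_of_dvd (by norm_num) (ax.deg.dvd_of_dvd_pow this)).not_gt big
  have hZ := Xs_trv (UM_open (M := N0 r) (by simp [N0, ax.r0])) (UM_le _)
  set θ := ∏ z ∈ Xs (UM (N0 r)) GK, z x with hθ
  have θ0 : θ ≠ 0 := prod_ne_zero_iff.2 fun z _ => (map_ne_zero z).2 x0
  have fp : ∀ (T : Finset GQ) (a : Qb), (∀ z ∈ T, z ∈ GK) → Fix (UL r (nn lam)) a →
      Fix (UL r (nn lam)) (∏ z ∈ T, z a) := fun T a hT ha u hu => by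
    rw [map_prod]
    exact prod_congr rfl fun z hz => fix_GNRB ab ha (hT z hz) u hu
  have θ1 : Fix _ θ := fp _ x hZ.1 hx
  have e : ∏ y ∈ X, y x = ∏ y ∈ Y, y θ := by
    rw [hZ.prod_tower hY hX (fun _ h => h.1) (UM_le _) (F := fun y => y x) fun g _ u hu => by
      rw [AlgEquiv.mul_apply, hx u hu], prod_comm]
    refine prod_congr rfl fun y hy => ?_
    rw [hθ, map_prod]
    refine prod_congr rfl fun z hz => ?_
    rw [← mul_inv_cancel_left (y * z) (z * y), AlgEquiv.mul_apply,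
      hx _ (ab.ab y (hI y hy).2 z (hZ.1 z hz)), AlgEquiv.mul_apply]
  have M0 : ∏ y ∈ Y, y θ ≠ 0 := prod_ne_zero_iff.2 fun z _ => (map_ne_zero z).2 θ0
  have M1 := fp Y θ (fun y hy => (hI y hy).2) θ1 _ hU
  have e1 := nrm_GNRB ab (UM_le _) hY hI θ0 θ1
  have f1 : ∀ i, (φ * τ) (θ ^ i) = θ ^ i := fun i => by rw [map_pow, θ1 _ hU]
  have f2 := map_div₀ (φ * τ) ((∏ y ∈ Y, y θ) ^ 2) (θ ^ (2 * Y.card))
  rw [f1, map_pow, M1] at f2
  have e2 := km_fix_mul h0 (div_ne_zero (pow_ne_zero 2 M0) (pow_ne_zero _ θ0)) (pow_ne_zero _ θ0)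
    f2 (f1 (2 * Y.card)) cy1
  rw [div_mul_cancel₀ _ (pow_ne_zero _ θ0), one_GNRB h0 hN fr.1 cy1 f2 e1, km_fix_pow h0 M0 M1 cy1,
    km_fix_pow h0 θ0 (θ1 _ hU) cy1, hc, Nat.cast_mul, l0, mul_zero, zero_mul, add_zero] at e2
  rw [e]
  exact ((ZMod.isUnit_iff_coprime 2 _).2 (Nat.Coprime.pow_right k (by norm_num))).mul_right_eq_zero.1
    e2

end Pool.Agent.MP_e23604_nt.Z.G
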