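import Pool.Agent.MP_e23604_nt.Z.GS

set_option autoImplicit false

open Finset QuadraticAlgebra Polynomial
open scoped Classical

namespace Pool.Agent.MP_e23604_nt.Z.G

open B R S W Un

/-- the local height -/
noncomputable def la_GPAL (V : Plc) (P : Pt) : ℝ := max 1 (V.v (xc P))

theorem la0_GPAL (V : Plc) : la_GPAL V 0 = 1 := by simp [la_GPAL]

theorem lan_GPAL (V : Plc) (P : Pt) : la_GPAL V (-P) = la_GPAL V P := by
  rw [la_GPAL, (xc_neg P).1, la_GPAL]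

theorem gen_GPAL (hP : PARW_st) {V : Plc} (h3 : ¬ Ov V 3) {P Q : Pt} (a : P ≠ 0) (b : Q ≠ 0)
    (c : P + Q ≠ 0) (d : P - Q ≠ 0) :
    V.v ((xc P - xc Q) ^ 2) * (la_GPAL V (P + Q) * la_GPAL V (P - Q)) =
      la_GPAL V P ^ 2 * la_GPAL V Q ^ 2 := by
  obtain ⟨h1, h2, h4, -, h5⟩ := hP V EQ (gw_EQ h3)
  obtain ⟨u₁, v₁, n1⟩ := h2 P
  obtain ⟨u₂, v₂, n2⟩ := h2 Q
  have e : ∀ (R : Pt) u v, R ≠ 0 → Nr (E := EQ) V R u v → u = xc R * v := by
    rintro R u v h ⟨⟨c, -, e⟩, -⟩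
    rw [xRep_eq h] at e
    have k0 := congrFun e 0
    have k1 := congrFun e 1
    simp at k0 k1
    linear_combination u * k1 - v * k0
  have k := (h5 P Q _ _ _ _ n1 n2).1
  rw [e P _ _ a n1, e Q _ _ b n2, show xc P * v₁ * v₂ - xc Q * v₂ * v₁ = v₁ * v₂ * (xc P - xc Q) by
    ring, map_mul, map_mul, h4 _ _ _ n1, h4 _ _ _ n2] at k
  have z : ∀ R : Pt, R ≠ 0 → zs (E := EQ) V R ^ 2 * la_GPAL V R = 1 := fun R h => by
    rw [la_GPAL, ← xw_xc]; exact h1 R h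
  rw [map_pow]
  calc _ = V.v (xc P - xc Q) ^ 2 * (la_GPAL V (P + Q) * la_GPAL V (P - Q)) *
        ((zs (E := EQ) V P ^ 2 * la_GPAL V P) ^ 2 * (zs (E := EQ) V Q ^ 2 * la_GPAL V Q) ^ 2) := by
        rw [z P a, z Q b]; ring
    _ = (zs (E := EQ) V P ^ 2 * zs (E := EQ) V Q ^ 2 * V.v (xc P - xc Q)) ^ 2 *
        (la_GPAL V (P + Q) * la_GPAL V (P - Q)) * (la_GPAL V P ^ 2 * la_GPAL V Q ^ 2) := by ring
    _ = (zs (E := EQ) V (P + Q) ^ 2 * la_GPAL V (P + Q)) *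
        (zs (E := EQ) V (P - Q) ^ 2 * la_GPAL V (P - Q)) *
        (la_GPAL V P ^ 2 * la_GPAL V Q ^ 2) := by rw [k]; ring
    _ = _ := by rw [z _ c, z _ d]; ring

theorem two_GPAL (P : Pt) : (2 : Zw) • P = P + P := two_smul _ _

theorem dbl_GPAL {V : Plc} (h3 : ¬ Ov V 3) {P : Pt} (c : P + P ≠ 0) :
    4 * xc P ^ 3 + 1 ≠ 0 ∧ V.v (4 * xc P ^ 3 + 1) * la_GPAL V (P + P) = la_GPAL V P ^ 4 := by
  have h := PBASE_pf.2.1
  rw [← two_GPAL] at c ⊢
  have e : (C 4 * X ^ 3 + 1 : Qb[X]).eval (xc P) = 4 * xc P ^ 3 + 1 := by simp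
  refine ⟨fun k => c ((h.zero (smul_ne c).2).2 (e.trans k)), ?_⟩
  have k := h.ht V h3 (xc P)
  rw [h.val c, e, map_mul, nn_two] at k
  rw [la_GPAL, la_GPAL, ← k, mul_max_of_nonneg _ _ (V.v.nonneg _), mul_one, max_comm,
    mul_comm (V.v _)]

theorem tor_GPAL (hP : PIK_st) {V : Plc} (h6 : ¬ Ov V 6) {P : Pt} (c : P + P = 0) :
    la_GPAL V P = 1 := by
  by_cases h : P = 0
  · rw [h, la0_GPAL]
  exact max_eq_left (((hP V).2 fun e => h6 (e.dvd ⟨2, by norm_num⟩)).1 P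
    ⟨2, fun e => h6 (e.dvd ⟨3, by norm_num⟩), (two_GPAL P).trans c⟩ h).1

theorem PAL_pf (hPARW : PARW_st) (hPIK : PIK_st) (hHT : HT_st) (hFACT : FACT_st) : PAL_st := by
  intro k U φ X hU hL hX
  have h0 : 3 ^ k ≠ 0 := pow_ne_zero _ three_ne_zero
  have add : ∀ x y, x ≠ 0 → y ≠ 0 → lk k φ (x * y) = lk k φ x + lk k φ y := fun x y a b => by
    rw [lk, map_mul]
    exact km_fix_mul h0 (io_ne a) (io_ne b) (io_fix hL.gk x) (io_fix hL.gk y) hL.cyc
  have nrm : ∀ g ∈ GK, ∀ u ∈ U, g⁻¹ * u * g ∈ U := fun g hg u hu => by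
    simpa [mul_assoc] using U.mul_mem hu (hU.ab g hg u (hU.le hu))
  have h3 : ∀ V, ¬ Ov V 6 → ¬ Ov V 3 := fun V h e => h (e.dvd ⟨2, by norm_num⟩)
  have key : ∀ P ∈ Fp U, ∀ Q ∈ Fp U, ∀ x : Qb, x ≠ 0 → Fix U x → (∀ V, ¬ Ov V 6 → ∀ y : GQ,
      V.v (y x) * (la_GPAL V (gal y P + gal y Q) * la_GPAL V (gal y P - gal y Q)) =
        la_GPAL V (gal y P) ^ 2 * la_GPAL V (gal y Q) ^ 2) →
      lk k φ (Dn X (P + Q)) + lk k φ (Dn X (P - Q)) =
        2 * lk k φ (Dn X P) + 2 * lk k φ (Dn X Q) := by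
    intro P hP Q hQ x hx hf hv
    have n0 : ∏ y ∈ X, y x ≠ 0 := prod_ne_zero_iff.2 fun y _ => (map_ne_zero y).2 hx
    have nf : Fix GK (∏ y ∈ X, y x) := fun g hg => by
      rw [map_prod]
      exact hX.prod_mul (F := fun g => g x)
        (fun g _ u hu => by rw [AlgEquiv.mul_apply, hf u hu]) hg
    obtain ⟨a, b, hb, e⟩ := (PLK_ok.2.2.2.2.2.2.1 _ nf).1
    have e' : W.io a = (∏ y ∈ X, y x) * W.io b := by rw [e, div_mul_cancel₀ _ (io_ne hb)]
    have ha : a ≠ 0 := fun k => mul_ne_zero n0 (io_ne hb) (by rw [← e', k, map_zero])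
    have ab : lk k φ a = lk k φ b := by
      rw [lk, e', km_fix_mul h0 n0 (io_ne hb) (nf φ hL.gk) (io_fix hL.gk b) hL.cyc,
        hL.nrm x X hx hf hX, zero_add, lk]
    obtain ⟨p0, p1⟩ := hHT U X P hX hP
    obtain ⟨q0, q1⟩ := hHT U X Q hX hQ
    obtain ⟨r0, r1⟩ := hHT U X _ hX (add_mem hP hQ)
    obtain ⟨s0, s1⟩ := hHT U X _ hX (sub_mem hP hQ)
    have := hFACT _ (lk k φ) 6 (Dn X P * Dn X P * (Dn X Q * Dn X Q) * a)
      (Dn X (P + Q) * Dn X (P - Q) * b) add hL.six (by decide) (by simp [*]) (by simp [*])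
      fun V h => by
        have t := prod_congr rfl fun y (_ : y ∈ X) => hv V h y
        simp only [← map_add, ← map_sub, prod_mul_distrib, prod_pow, ← map_prod, la_GPAL] at t
        simp only [map_mul, e']
        have p := p1 V
        have q := q1 V
        have r := r1 V
        have s := s1 V
        generalize (∏ y ∈ X, max 1 (V.v (xc (gal y P)))) = A at *
        generalize (∏ y ∈ X, max 1 (V.v (xc (gal y Q)))) = B at *
        generalize (∏ y ∈ X, max 1 (V.v (xc (gal y (P + Q))))) = A' at *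
        generalize (∏ y ∈ X, max 1 (V.v (xc (gal y (P - Q))))) = B' at *
        calc _ = (V.v (W.io (Dn X P)) * V.v (W.io (Dn X Q))) ^ 2 * V.v (∏ y ∈ X, y x) *
              V.v (W.io b) * ((V.v (W.io (Dn X (P + Q))) * A') *
                (V.v (W.io (Dn X (P - Q))) * B')) := by rw [r, s]; ring
          _ = (V.v (W.io (Dn X P)) * V.v (W.io (Dn X Q))) ^ 2 * (V.v (∏ y ∈ X, y x) * (A' * B')) *
              (V.v (W.io (Dn X (P + Q))) * V.v (W.io (Dn X (P - Q))) * V.v (W.io b)) := by ring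
          _ = (V.v (W.io (Dn X P)) * A) ^ 2 * (V.v (W.io (Dn X Q)) * B) ^ 2 *
              (V.v (W.io (Dn X (P + Q))) * V.v (W.io (Dn X (P - Q))) * V.v (W.io b)) := by
              rw [t]; ring
          _ = _ := by rw [p, q]; ring
    rw [add _ a (by simp [*]) ha, add _ b (by simp [*]) hb, add _ _ r0 s0,
      add _ _ (by simp [*]) (by simp [*]), add _ _ p0 p0, add _ _ q0 q0, ab] at this
    linear_combination -this
  have ne : ∀ (y : GQ) (P : Pt), P ≠ 0 → gal y P ≠ 0 := fun y P h e =>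
    h (gal_inj y (e.trans (map_zero _).symm))
  have f1 : Fix U 1 := fun g _ => map_one g
  have fx : ∀ P ∈ Fp U, Fix U (xc P) := fun P hP g hg => by rw [← (xc_gal g P).1, hP g hg]
  have dbl : ∀ P ∈ Fp U, lk k φ (Dn X (P + P)) + lk k φ (Dn X (P - P)) =
      2 * lk k φ (Dn X P) + 2 * lk k φ (Dn X P) := fun P hP => by
    by_cases h : P + P = 0
    · refine key P hP P hP 1 one_ne_zero f1 fun V h6 y => ?_
      have : gal y P + gal y P = 0 := by rw [← map_add, h, map_zero]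
      rw [tor_GPAL hPIK h6 this, this, sub_self, la0_GPAL]; simp
    refine key P hP P hP _ (dbl_GPAL V2_three h).1
      (fun g hg => by simp [fx P hP g hg, map_ofNat]) fun V h6 y => ?_
    have := (dbl_GPAL (h3 V h6) (P := gal y P) (by rw [← map_add]; exact ne y _ h)).2
    rw [(xc_gal y P).1] at this
    rw [sub_self, la0_GPAL, mul_one, ← pow_add, ← this]
    simp [map_ofNat]
  refine ⟨add, fun P hP => ⟨fun g hg => ⟨fun u hu => ?_, ?_⟩, fun Q hQ => ?_⟩⟩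
  · rw [← W.gal_mul, show u * g = g * (g⁻¹ * u * g) by group, W.gal_mul, hP _ (nrm g hg u hu)]
  · have : ∀ V : Plc, ∏ y ∈ X, max 1 (V.v (xc (gal y (gal g P)))) =
        ∏ y ∈ X, max 1 (V.v (xc (gal y P))) := fun V => by
      simp only [← W.gal_mul]
      exact hX.sum_mul_right (A := Additive ℝ) nrm (F := fun y => la_GPAL V (gal y P))
        (fun y _ u hu => by rw [W.gal_mul, hP u hu]) hg
    simp only [Dn, this]
  by_cases a : P = 0
  · exact key P hP Q hQ 1 one_ne_zero f1 fun V _ y => by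
      simp [a, la0_GPAL, lan_GPAL, sq]
  by_cases b : Q = 0
  · exact key P hP Q hQ 1 one_ne_zero f1 fun V _ y => by simp [b, la0_GPAL, sq]
  by_cases d : P - Q = 0
  · rw [← sub_eq_zero.1 d]; exact dbl P hP
  by_cases c : P + Q = 0
  · have e : Dn X (-P) = Dn X P := by simp only [Dn, map_neg, (xc_neg _).1]
    rw [eq_neg_of_add_eq_zero_right c, e, sub_neg_eq_add, ← sub_eq_add_neg, add_comm]
    exact dbl P hP
  refine key P hP Q hQ ((xc P - xc Q) ^ 2) (pow_ne_zero _ fun e => ?_)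
    (fun g hg => by rw [map_pow, map_sub, fx P hP g hg, fx Q hQ g hg]) fun V h6 y => ?_
  · exact (xc_eq a b (sub_eq_zero.1 e)).elim (fun k => d (sub_eq_zero.2 k))
      fun k => c (eq_neg_iff_add_eq_zero.1 k)
  · rw [map_pow y, map_sub y, ← (xc_gal y P).1, ← (xc_gal y Q).1]
    exact gen_GPAL hPARW (h3 V h6) (ne y P a) (ne y Q b) (by rw [← map_add]; exact ne y _ c)
      (by rw [← map_sub]; exact ne y _ d)

end Pool.Agent.MP_e23604_nt.Z.G
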