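import Pool.Agent.MP_e23604_nt.Z.GS

set_option autoImplicit false

open Finset QuadraticAlgebra Polynomial
open scoped Classical

namespace Pool.Agent.MP_e23604_nt.Z.G

open B R S W Un

theorem PARW_pf : PARW_st := fun V E hE => by
  have := hE.ell
  have c1 : ∀ P : PW E, P ≠ 0 → zs V P ^ 2 * max 1 (V.v (xw P)) = 1 := fun P h0 => by
    by_cases e : E1 V.v P
    · rcases P with _ | ⟨x, y, h⟩
      · exact absurd rfl h0
      have hx : 1 < V.v x := e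
      rw [zs_of e, zz_some, map_div₀, V.v.map_neg, div_pow, E1_xy V.na hE.int h.1 hx,
        show xw (.some x y h : PW E) = x from rfl, max_eq_right hx.le]
      field_simp
    · rw [zs_not e, max_eq_left (nE1_xw.1 e).2]
      norm_num
  have c2 : ∀ P : PW E, ∃ u v, Nr V P u v := fun P => by
    by_cases h0 : P = 0
    · exact ⟨1, 0, ⟨1, one_ne_zero, by simp [h0]⟩, by simp⟩
    by_cases e : E1 V.v P
    swap
    · exact ⟨_, _, Nr.int e⟩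
    have hx := ((E1_xw V P).1 e).resolve_left h0
    have x0 : xw P ≠ 0 := fun c => by simp [c] at hx; linarith
    exact ⟨1, (xw P)⁻¹, ⟨_, x0, by simp [xRep_xw h0, x0]⟩, by
      rw [map_one, map_inv₀, max_eq_left (inv_le_one_of_one_le₀ hx.le)]⟩
  have c3 : ∀ (P : PW E) u v, Nr V P u v → V.v v = zs V P ^ 2 := fun P u v ⟨⟨c, c0, e⟩, h⟩ => by
    by_cases h0 : P = 0
    · subst h0
      have e1 : v = 0 := by simpa [c0] using congrFun e 1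
      rw [e1, zs_of (show E1 V.v (0 : PW E) from trivial), show zz (0 : PW E) = 0 from rfl]
      simp
    rw [xRep_xw h0] at e
    have e0 : xw P = c * u := congrFun e 0
    have e1 : 1 = c * v := congrFun e 1
    have k := c1 P h0
    have k1 : V.v c * V.v v = 1 := by rw [← map_mul, ← e1, map_one]
    rw [e0, map_mul, ← k1, ← mul_max_of_nonneg _ _ (V.v.nonneg c), max_comm, h, k1, mul_one] at k
    linear_combination zs V P ^ 2 * k1 - V.v v * k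
  have c4 : ∀ (P Q : PW E) u₁ v₁ u₂ v₂ p q p' q', Nr V P u₁ v₁ → Nr V Q u₂ v₂ →
      Nr V (P + Q) p q → Nr V (P - Q) p' q' → ∃ c, V.v c = 1 ∧
        BDivU E (u₁ * u₂) (u₁ * v₂ + u₂ * v₁) (v₁ * v₂) = c * (p * p') ∧
        BDivV E (u₁ * u₂) (u₁ * v₂ + u₂ * v₁) (v₁ * v₂) = c * (p * q' + p' * q) ∧
        BDivW (u₁ * u₂) (u₁ * v₂ + u₂ * v₁) (v₁ * v₂) = c * (q * q') := by
    rintro P Q u₁ v₁ u₂ v₂ p q p' q' ⟨⟨a₁, n₁, e₁⟩, m₁⟩ ⟨⟨a₂, n₂, e₂⟩, m₂⟩ ⟨⟨a₃, -, e₃⟩, m₃⟩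
      ⟨⟨a₄, -, e₄⟩, m₄⟩
    obtain ⟨c, -, e⟩ := addSub P Q
    simp only [WeierstrassCurve.Affine.Point.sym2x, e₁, e₂, e₃, e₄, BDiv_eval] at e
    have k0 := congrFun e 0
    have k1 := congrFun e 1
    have k2 := congrFun e 2
    simp [BDivU, BDivV, BDivW] at k0 k1 k2
    have n := pow_ne_zero 2 (mul_ne_zero n₁ n₂)
    have g := BDiv_int E V.v V.na hE.int hE.disc
      ((BDiv_gauss V.v V.na u₁ v₁ u₂ v₂).trans (by rw [m₁, m₂, mul_one]))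
    have j : BDivU E (u₁ * u₂) (u₁ * v₂ + u₂ * v₁) (v₁ * v₂) =
          c * a₃ * a₄ / (a₁ * a₂) ^ 2 * (p * p') ∧
        BDivV E (u₁ * u₂) (u₁ * v₂ + u₂ * v₁) (v₁ * v₂) =
          c * a₃ * a₄ / (a₁ * a₂) ^ 2 * (p * q' + p' * q) ∧
        BDivW (u₁ * u₂) (u₁ * v₂ + u₂ * v₁) (v₁ * v₂) = c * a₃ * a₄ / (a₁ * a₂) ^ 2 * (q * q') := by
      simp only [div_mul_eq_mul_div, eq_div_iff n, BDivU, BDivV, BDivW]
      exact ⟨by linear_combination k0, by linear_combination k1, by linear_combination k2⟩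
    refine ⟨_, ?_, j⟩
    rw [j.1, j.2.1, j.2.2] at g
    generalize c * a₃ * a₄ / (a₁ * a₂) ^ 2 = t at g
    rwa [map_mul V.v t, map_mul V.v t, map_mul V.v t, ← mul_max_of_nonneg _ _ (V.v.nonneg t),
      ← mul_max_of_nonneg _ _ (V.v.nonneg t), BDiv_gauss V.v V.na, m₃, m₄, mul_one, mul_one] at g
  have c5 : ∀ (P Q : PW E) u₁ v₁ u₂ v₂, Nr V P u₁ v₁ → Nr V Q u₂ v₂ →
      V.v (u₁ * v₂ - u₂ * v₁) = zs V (P + Q) * zs V (P - Q) := fun P Q u₁ v₁ u₂ v₂ h₁ h₂ => by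
    obtain ⟨p, q, h₃⟩ := c2 (P + Q)
    obtain ⟨p', q', h₄⟩ := c2 (P - Q)
    obtain ⟨c, k, -, -, e⟩ := c4 P Q _ _ _ _ _ _ _ _ h₁ h₂ h₃ h₄
    refine (pow_left_inj₀ (V.v.nonneg _) (mul_nonneg (zs_nonneg _ _) (zs_nonneg _ _))
      two_ne_zero).1 ?_
    rw [← map_pow, show (u₁ * v₂ - u₂ * v₁) ^ 2 = c * (q * q') by rw [← e, BDivW]; ring, map_mul,
      map_mul, k, c3 _ _ _ h₃, c3 _ _ _ h₄, one_mul, mul_pow]
  refine ⟨c1, c2, c3, fun P Q h₁ h₂ => ?_, fun P Q u₁ v₁ u₂ v₂ h₁ h₂ =>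
    ⟨c5 P Q _ _ _ _ h₁ h₂, fun R u₃ v₃ h => ?_⟩⟩
  · simpa only [mul_one] using c5 P Q _ _ _ _ (Nr.int h₁) (Nr.int h₂)
  obtain ⟨p, q, h₃⟩ := c2 (P + Q)
  obtain ⟨p', q', h₄⟩ := c2 (P - Q)
  obtain ⟨c, k, e₁, e₂, e₃⟩ := c4 P Q _ _ _ _ _ _ _ _ h₁ h₂ h₃ h₄
  rw [show s3 E.b₂ E.b₄ E.b₆ E.b₈ u₁ v₁ u₂ v₂ u₃ v₃ =
      c * ((p * v₃ - u₃ * q) * (p' * v₃ - u₃ * q')) by
    simp only [BDivU, BDivV, BDivW] at e₁ e₂ e₃
    rw [s3]
    linear_combination v₃ ^ 2 * e₁ - u₃ * v₃ * e₂ + u₃ ^ 2 * e₃, map_mul, map_mul, k,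
    c5 _ _ _ _ _ _ h₃ h, c5 _ _ _ _ _ _ h₄ h, z4]
  ring

end Pool.Agent.MP_e23604_nt.Z.G
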