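import Pool.Agent.MP_e23604_nt.Z.GS

set_option autoImplicit false

open Finset QuadraticAlgebra Polynomial
open scoped Classical

namespace Pool.Agent.MP_e23604_nt.Z.G

open B R S W Un

theorem nn_GPGH {m : ℕ} (a b c d : Fin (m + 1)) :
    nn ((⟨(a : ℕ), (b : ℕ)⟩ : Zw) - ⟨(c : ℕ), (d : ℕ)⟩) ≤ 3 * m ^ 2 := by
  have h : ∀ a c : Fin (m + 1), (((a : ℕ) : ℤ) - (c : ℕ)) ^ 2 ≤ (m : ℤ) ^ 2 := fun a c =>
    sq_le_sq' (by have := c.2; omega) (by have := a.2; omega)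
  zify
  rw [nn_cast, nw_def]
  simp only [re_sub, im_sub]
  nlinarith [h a c, h b d, sq_nonneg ((((a : ℕ) : ℤ) - (c : ℕ)) + (((b : ℕ) : ℤ) - (d : ℕ)))]

theorem PGH_pf : PGH_st := fun c q hq => by
  obtain ⟨t, h1, h2⟩ : ∃ t : ℕ, ¬ q ∣ t ∧ 10 * c < t :=
    ⟨q * (10 * c + 1) + 1, fun h => hq.one_lt.ne' (Nat.dvd_one.1
      ((Nat.dvd_add_right (dvd_mul_right _ _)).1 h)), by nlinarith [hq.one_lt]⟩
  refine ⟨t ^ 3, fun h => h1 (hq.dvd_of_dvd_pow h), fun A _ f Y hY hf => ?_⟩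
  let g : (Fin 6 → Fin (t ^ 2 + 1)) → Zw × Zw × Zw := fun u =>
    (⟨(u 0 : ℕ), (u 1 : ℕ)⟩, ⟨(u 2 : ℕ), (u 3 : ℕ)⟩, ⟨(u 4 : ℕ), (u 5 : ℕ)⟩)
  obtain ⟨u, v, h3, h4⟩ := Fintype.exists_ne_map_eq_of_card_lt (fun u => (⟨f (g u), hf _⟩ : Y)) (by
    rw [Fintype.card_coe, Fintype.card_fun, Fintype.card_fin, Fintype.card_fin]
    exact hY.trans_lt (by
      rw [show (t ^ 3) ^ 4 = (t ^ 2) ^ 6 by ring]
      exact Nat.pow_lt_pow_left (Nat.lt_succ_self _) (by norm_num)))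
  refine ⟨g u - g v, fun e => h3 ?_, by rw [map_sub, sub_eq_zero]; exact congrArg Subtype.val h4, ?_⟩
  · rw [sub_eq_zero] at e
    simp only [g, Prod.mk.injEq, QuadraticAlgebra.mk.injEq, Nat.cast_inj, Fin.val_inj] at e
    funext i
    fin_cases i
    exacts [e.1.1, e.1.2, e.2.1.1, e.2.1.2, e.2.2.1, e.2.2.2]
  · have a1 : nn (g u - g v).1 ≤ _ := nn_GPGH (u 0) (u 1) (v 0) (v 1)
    have a2 : nn (g u - g v).2.1 ≤ _ := nn_GPGH (u 2) (u 3) (v 2) (v 3)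
    have a3 : nn (g u - g v).2.2 ≤ _ := nn_GPGH (u 4) (u 5) (v 4) (v 5)
    have t0 : 0 < t := by omega
    have t4 : 0 < (t ^ 2) ^ 2 := by positivity
    calc _ ≤ c * (10 * (t ^ 2) ^ 2) := Nat.mul_le_mul_left c (by omega)
      _ = 10 * c * (t ^ 2) ^ 2 := by ring
      _ < t * t * (t ^ 2) ^ 2 := Nat.mul_lt_mul_of_pos_right (h2.trans_le (Nat.le_mul_self t)) t4
      _ = _ := by ring

end Pool.Agent.MP_e23604_nt.Z.G
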