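import Pool.Agent.MP_e23604_nt.Z.GS

set_option autoImplicit false

open Finset QuadraticAlgebra Polynomial
open scoped Classical

namespace Pool.Agent.MP_e23604_nt.Z.G

open B R S W Un

theorem gen_GPIK (hLAG : LAG_st) (hPARW : PARW_st) {V : Plc} {E : WeierstrassCurve Qb}
    (h : Gw V E) (F : Finset (PW E)) : ∃ R : PW E, ¬ E1 V.v R ∧ ∀ P ∈ F, ¬ E1 V.v (R - P) := by
  have := h.ell
  obtain ⟨x, hx, hY⟩ := (hLAG V).1 ((F.filter fun P => ¬ E1 V.v P).image xw) fun y hy => by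
    obtain ⟨P, hP, rfl⟩ := mem_image.1 hy
    exact (nE1_xw.1 (mem_filter.1 hP).2).2
  obtain ⟨y, hy⟩ := btors_exists_y E x
  have k : ¬ E1 V.v (WeierstrassCurve.Affine.Point.some x y hy) := not_lt.2 hx
  refine ⟨_, k, fun P hP e => ?_⟩
  by_cases e' : E1 V.v P
  · exact k (by simpa only [sub_add_cancel] using h.add e e')
  · have a := (hPARW V E h).2.2.2.1 _ P k e'
    have b : V.v (x - xw P) = 1 := hY _ (mem_image_of_mem _ (mem_filter.2 ⟨hP, e'⟩))
    exact (b.symm.trans a).not_gt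
      ((mul_le_of_le_one_left (zs_nonneg _ _) (h.zs_le _)).trans_lt (h.zs_lt.2 e))

theorem inf_GPIK {V : Plc} (h : ¬ Ov V 3) : (TT V : Set Pt).Infinite := fun f => by
  have h0 : (3 : Zw) ^ f.toFinset.card ≠ 0 := pow_ne_zero _ (by decide)
  have k : tor (3 ^ f.toFinset.card) ⊆ f.toFinset := fun P hP =>
    f.mem_toFinset.2 ⟨_, fun e => h (Ov_pow e), (mem_tor h0).1 hP⟩
  have c := card_le_card k
  rw [CARD_ok _ h0, nn_pow, show nn 3 = 3 ^ 2 from nn_nat 3] at c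
  exact c.not_gt (Nat.lt_pow_self (by norm_num))

theorem PIK_pf (hLAG : LAG_st) (hPARW : PARW_st) : PIK_st := fun V => by
  refine ⟨fun E h _ F => ?_, fun h => ⟨fun P hP h0 => ?_, fun B n hB => ?_, fun g hg => ?_⟩⟩
  · have := h.ell
    obtain ⟨R, k, k'⟩ := gen_GPIK hLAG hPARW h (F.image (2 • ·))
    obtain ⟨Q, rfl⟩ := smul_surj two_pos R
    refine ⟨Q, fun e => k (two_nsmul Q ▸ h.add e e), k, fun P hP e =>
      k' _ (mem_image_of_mem _ hP) ?_⟩
    rw [← nsmul_sub, two_nsmul]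
    exact h.add e e
  · have a : ∀ P ∈ TT V, P ≠ 0 → ¬ E1 V.v P := fun P hP h0 e => h0 (TT_E1 hP e)
    refine ⟨xw_xc P ▸ (nE1_xw.1 (a P hP h0)).2, fun Q hQ h1 n1 n2 => ?_⟩
    rw [← xw_xc, ← xw_xc, (hPARW V EQ (gw_EQ h)).2.2.2.1 P Q (a P hP h0) (a Q hQ h1),
      zs_not (a _ (add_mem hP hQ) (add_eq_zero_iff_eq_neg.not.2 n2)),
      zs_not (a _ (sub_mem hP hQ) (sub_ne_zero.2 n1)), one_mul]
  · suffices ∀ m, ∃ X : Finset Pt, X.card = m ∧
        ∀ P ∈ X, P ∈ TT V ∧ P ∉ B ∧ P ≠ 0 ∧ ∀ Q ∈ X, P ≠ Q → P ≠ -Q from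
      (this (n + 1)).imp fun X k => ⟨(Nat.lt_succ_self n).trans_eq (And.left k).symm, And.right k⟩
    intro m
    induction m with
    | zero => exact ⟨∅, rfl, by simp⟩
    | succ m ih =>
      obtain ⟨X, c, k⟩ := ih
      obtain ⟨P, hP, e⟩ := (inf_GPIK h).exists_notMem_finite
        ((hB.insert 0).union (X ∪ X.image (-·)).finite_toSet)
      simp only [Set.mem_union, Set.mem_insert_iff, mem_coe, mem_union, mem_image, not_or,
        not_exists, not_and] at e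
      refine ⟨insert P X, by rw [card_insert_of_notMem e.2.1, c], fun Q hQ => ?_⟩
      rcases mem_insert.1 hQ with rfl | hQ'
      · refine ⟨hP, e.1.2, e.1.1, fun R hR n1 n2 => ?_⟩
        exact (mem_insert.1 hR).elim (fun a => n1 a.symm) fun a => e.2.2 R a n2.symm
      · obtain ⟨a, b, c, d⟩ := k Q hQ'
        refine ⟨a, b, c, fun R hR n1 n2 => ?_⟩
        rcases mem_insert.1 hR with rfl | hR
        exacts [e.2.2 Q hQ' (by rw [n2, neg_neg]), d R hR n1 n2]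
  · obtain ⟨A, B, r⟩ := POLY_ok g hg
    have a : ∀ x, V.v x ≤ 1 → max (V.v (A.eval x)) (V.v (B.eval x)) = 1 := fun x hx => by
      rw [r.ht V h, max_eq_left hx, one_pow]
    exact ⟨A, B, r, ((hLAG V).2 A 1).2.1 fun x hx => (le_max_left _ _).trans (a x hx).le,
      ((hLAG V).2 B 1).2.1 fun x hx => (le_max_right _ _).trans (a x hx).le, fun P e =>
        ⟨r.pt P (nE1_xw.1 e).1, a _ (xw_xc P ▸ (nE1_xw.1 e).2)⟩⟩

end Pool.Agent.MP_e23604_nt.Z.G
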