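import Pool.Agent.MP_e23604_nt.Z.GS

set_option autoImplicit false

open Finset QuadraticAlgebra Polynomial
open scoped Classical

namespace Pool.Agent.MP_e23604_nt.Z.G

open B R S W Un

theorem QSUM_pf : QSUM_st := by
  intro k N M h s P κ Q h₀ hq hP hQ h1 h2 h3
  have u2 : IsUnit (2 : ZMod (3 ^ k)) := by
    exact_mod_cast (ZMod.isUnit_iff_coprime 2 _).2 (Nat.Coprime.pow_right k (by norm_num))
  have ng : ∀ x ∈ M, ∀ y ∈ M, h (x - y) = h (y - x) := fun x hx y hy => by
    have a := hq x hx y hy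
    have b := hq y hy x hx
    rw [add_comm y] at b
    linear_combination a - b
  let D : M →+ ZMod (3 ^ k) := AddMonoidHom.mk' (fun x => h (x + Q) - h (x - Q)) fun x y => by
    have a := hq _ (M.add_mem x.2 hQ) y y.2
    have b := hq _ (M.sub_mem x.2 hQ) y y.2
    have c := hq _ (M.add_mem y.2 hQ) x x.2
    have d := hq _ (M.sub_mem y.2 hQ) x x.2
    rw [ng _ (M.add_mem y.2 hQ) x x.2, show y + Q + x = x + y + Q by abel,
      show x - (y + Q) = x - Q - y by abel] at c
    rw [ng _ (M.sub_mem y.2 hQ) x x.2, show y - Q + x = x + y - Q by abel,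
      show x - (y - Q) = x + Q - y by abel] at d
    rw [show x + Q + y = x + y + Q by abel] at a
    rw [show x - Q + y = x + y - Q by abel] at b
    refine u2.mul_left_cancel ?_
    rw [AddSubgroup.coe_add]
    linear_combination a - b + c - d
  have key : ∀ (c : ZMod 3 → ℤ) (a b : Zw), ∑ t ∈ s, c (κ t) = 0 →
      (∀ i, ((3 * c i : ℤ) : Zw) = a * ω ^ (-i).val + b * ω ^ i.val) →
      (3 : Zw) ^ k ∣ 3 * N * ∑ t ∈ s, (c (κ t) : Zw) * (h (P t - Q)).val := fun c a b c0 c1 => by
    have e1 : (3 * N : ℤ) • ∑ t ∈ s.attach, c (κ t) • (⟨P t, (hP t t.2).1⟩ : M) = 0 := by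
      refine Subtype.ext ?_
      have e := congrArg₂ (fun x y : Pt => a • x + b • y) h1 h2
      simp only [smul_zero, add_zero, smul_comm _ N, ← smul_add, smul_sum, ← sum_add_distrib,
        ← mul_smul, ← add_smul, ← c1, Int.cast_smul_eq_zsmul] at e
      rw [AddSubgroup.coe_zsmul, AddSubgroup.val_finsetSum, AddSubgroup.coe_zero, ← e, smul_sum,
        ← sum_attach s]
      exact sum_congr rfl fun t _ => by
        rw [AddSubgroup.coe_zsmul, ← mul_smul, ← natCast_zsmul, ← mul_smul]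
        congr 1
        ring
    have e2 := congrArg D e1
    rw [map_zsmul, map_sum, map_zero] at e2
    have e3 : ∀ t ∈ s.attach, D (c (κ t) • (⟨P t, (hP t t.2).1⟩ : M)) =
        c (κ t) * (2 * h₀ + 2 * h Q) - 2 * (c (κ t) * h (P t - Q)) := fun t _ => by
      have a := hq _ (hP t t.2).1 Q hQ
      rw [(hP t t.2).2] at a
      rw [map_zsmul, zsmul_eq_mul]
      change _ * (h (P t + Q) - h (P t - Q)) = _
      linear_combination (c (κ t) : ZMod (3 ^ k)) * a
    rw [sum_congr rfl e3, sum_attach s fun t => (c (κ t) : ZMod (3 ^ k)) * (2 * h₀ + 2 * h Q) -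
      2 * (c (κ t) * h (P t - Q)), sum_sub_distrib, ← sum_mul, ← Int.cast_sum, c0, ← mul_sum,
      zsmul_eq_mul] at e2
    have e4 := (ZMod.intCast_zmod_eq_zero_iff_dvd
      (3 * N * ∑ t ∈ s, c (κ t) * (h (P t - Q)).val) (3 ^ k)).1 (u2.mul_right_eq_zero.1 (by
        push_cast [ZMod.natCast_val, ZMod.cast_id', id] at e2 ⊢
        linear_combination -e2))
    exact_mod_cast Int.cast_dvd_cast (α := Zw) _ _ e4
  have k1 := key (fun i => ((ω : Zw) ^ (-i).val).re) (1 - ω) (1 - ω ^ 2) ((map_sum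
    (AddMonoidHom.mk' (M := Zw) re fun _ _ => rfl) _ _).symm.trans (congrArg re h3)) (by decide)
  have k2 := key (fun i => ((ω : Zw) ^ (-i).val).im) (ω ^ 2 - ω) (ω - ω ^ 2) ((map_sum
    (AddMonoidHom.mk' (M := Zw) im fun _ _ => rfl) _ _).symm.trans (congrArg im h3)) (by decide)
  convert (k1.add (k2.mul_left ω)) using 1
  rw [mul_left_comm, ← mul_add, mul_sum _ _ ω, ← sum_add_distrib]
  congr 1
  refine sum_congr rfl fun t _ => ?_
  rw [← mul_assoc, ← add_mul, (by decide : ∀ i : ZMod 3,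
    (((ω : Zw) ^ (-i).val).re : Zw) + ω * (((ω : Zw) ^ (-i).val).im : Zw) = ω ^ (-i).val)]

end Pool.Agent.MP_e23604_nt.Z.G
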