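import Pool.Agent.MP_e23604_nt.Z.GS

set_option autoImplicit false

open Finset QuadraticAlgebra Polynomial
open scoped Classical

namespace Pool.Agent.MP_e23604_nt.Z.G

open B R S W Un

theorem RAT_pf (hHGA : HGA_st) (hDEP : DEP_st) (hSIG : SIG_st) : RAT_st := fun V σ hi => by
  have hs := hSIG V σ hi
  refine ⟨fun d hd g hg => ?_, fun P hP e h0 => ?_⟩
  · have hk : ∀ c ∈ d.C, cd d.C • c = 0 := fun c hc => by
      rw [← Nat.cast_smul_eq_nsmul Zw, NC.cd_smul hd.ok.fin hc]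
    obtain ⟨u, ⟨a, b, hu⟩, hg'⟩ := hs.rat ((cd d.C * 9 : ℕ) : Zw) (fun k => by
      rw [Nat.cast_mul, Ov_mul, show ((9 : ℕ) : Zw) = 3 ^ 2 by norm_num] at k
      exact k.elim (hs.cd _ hd.ok.fin hd.le) fun k => hd.n3 (Ov_pow k)) g hg
    simp only [Nat.cast_smul_eq_nsmul] at hg'
    have h1 : a.re * u + b.re * (cd d.C * 9 : ℕ) = 1 := by
      simpa [-Nat.cast_mul] using congrArg QuadraticAlgebra.re hu
    have h3 : ¬ 3 ∣ u := fun ⟨m, e⟩ => by
      have : (3 : ℤ) ∣ 1 := ⟨a.re * m + b.re * cd d.C * 3, h1.symm.trans (by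
        rw [e]; push_cast; ring)⟩
      omega
    have hc : ∀ c ∈ d.C, (cd d.C * 9) • c = 0 := fun c hc => by
      rw [mul_nsmul, hk c hc, nsmul_zero]
    have hC : d.C.map (gal g) = d.C := by
      ext c
      refine ⟨?_, fun h => ⟨a.re • c, zsmul_mem h _, ?_⟩⟩
      · rintro ⟨c, h, rfl⟩
        exact hg' c (hc c h) ▸ zsmul_mem h _
      · rw [hg' _ (hc _ (zsmul_mem h _)), ← mul_zsmul, mul_comm, eq_sub_of_add_eq h1, sub_zsmul,
          mul_zsmul, natCast_zsmul, hc c h]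
        simp
    have hS : gal g d.S = u • d.S := hg' _ (by
      rw [show cd d.C * 9 = 3 * cd d.C * 3 by ring, mul_nsmul, mul_nsmul, hk _ hd.ok.s3, nsmul_zero])
    have hR : gal g d.R = u • d.R := hg' _ (by rw [mul_comm, mul_nsmul, hk _ hd.ok.r9])
    rw [Lv.pt, (hHGA _ _ _ hd.ok g (V.D_le hg)).2, hC]
    refine (hDEP d _ _ u hd.ok ?_ h3 (by rw [hR, sub_self]; exact zero_mem _)).2
    have h4 := fun m : ℤ => zsmul_mem hd.ok.s3 m
    simp only [← natCast_zsmul, ← mul_zsmul] at h4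
    rw [hS, ← add_one_zsmul,
      show u • d.S - d.S = (u - 1) • d.S by rw [sub_zsmul, one_zsmul, sub_eq_add_neg]]
    rcases (by omega : u - 1 = u / 3 * (3 : ℕ) ∨ u + 1 = (u / 3 + 1) * (3 : ℕ)) with e | e <;> rw [e]
    exacts [Or.inl (h4 _), Or.inr (h4 _)]
  · obtain ⟨m, hm⟩ := hs.val (zz P) (fun k => h0 ((zz_zero_iff e).1 k)) fun g hg => by
      rw [← zz_gal, hP g hg]
    have h1 := zz_lt e
    rw [hm, zpow_lt_one_iff_right_of_lt_one₀ hs.q0 hs.q1] at h1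
    refine ⟨(m - 1).toNat, ?_⟩
    rw [hm, ← zpow_natCast]
    congr 1
    omega

end Pool.Agent.MP_e23604_nt.Z.G
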