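import Pool.Agent.MP_e23604_nt.Z.GS

set_option autoImplicit false

open Finset QuadraticAlgebra Polynomial
open scoped Classical

namespace Pool.Agent.MP_e23604_nt.Z.G

open B R S W Un

theorem hom_GREPS (hLAG : LAG_st) (V : Plc) {n m : ℕ} {f A B : Qb[X]} (hf : f.natDegree ≤ n)
    (bf : Bd V f 1) (hA : A.natDegree ≤ m) (hB : B.natDegree ≤ m) (bA : Bd V A 1) (bB : Bd V B 1) :
    ∃ H : Qb[X], H.natDegree ≤ n * m ∧ Bd V H 1 ∧ ∀ x,
      (B.eval x = 0 → H.eval x = f.coeff n * A.eval x ^ n) ∧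
      ∀ y, A.eval x = y * B.eval x → H.eval x = B.eval x ^ n * f.eval y := by
  have e : ∀ x, (∑ i ∈ range (n + 1), C (f.coeff i) * A ^ i * B ^ (n - i)).eval x =
      ∑ i ∈ range (n + 1), f.coeff i * A.eval x ^ i * B.eval x ^ (n - i) := fun x => by
    simp [eval_finsetSum]
  refine ⟨∑ i ∈ range (n + 1), C (f.coeff i) * A ^ i * B ^ (n - i),
    natDegree_sum_le_of_forall_le _ _ fun i hi => ?_, ((hLAG V).2 _ 1).2.1 fun x hx => ?_,
    fun x => ⟨fun h => ?_, fun y h => ?_⟩⟩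
  · rw [mul_assoc]
    refine (natDegree_C_mul_le _ _).trans (natDegree_mul_le.trans ((add_le_add
      (natDegree_pow_le_of_le i hA) (natDegree_pow_le_of_le (n - i) hB)).trans_eq ?_))
    rw [← add_mul, Nat.add_sub_cancel' (Nat.lt_succ_iff.1 (mem_range.1 hi))]
  · rw [e]
    refine sum_induction _ (fun a => V.v a ≤ 1) (fun _ _ => bLocA_add_le V.na) (by simp)
      fun i _ => bLocA_mul_one (bLocA_mul_one (bf i) ?_) ?_ <;> rw [map_pow]
    · exact pow_le_one₀ (V.v.nonneg _) (((hLAG V).2 A 1).2.2.1 bA x hx).1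
    · exact pow_le_one₀ (V.v.nonneg _) (((hLAG V).2 B 1).2.2.1 bB x hx).1
  · rw [e, h, sum_range_succ, sum_eq_zero fun i hi => by
      rw [zero_pow (Nat.sub_ne_zero_of_lt (mem_range.1 hi)), mul_zero]]
    simp
  · rw [e, h, eval_eq_sum_range' (Nat.lt_succ_of_le hf), mul_sum]
    refine sum_congr rfl fun i hi => ?_
    rw [← pow_mul_pow_sub (B.eval x) (Nat.lt_succ_iff.1 (mem_range.1 hi))]
    ring

theorem REPS_pf (hLAG : LAG_st) (hPIK : PIK_st) (hREPA : REPA_st) : REPS_st := by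
  intro V d φ g hd hφ
  by_cases hg : g = 0
  · refine ⟨1, 0, by simp, by simp, ((hLAG V).2 _ 1).2.1 (by simp), fun i => by simp, fun P _ => ?_⟩
    rw [hg, zero_smul, map_zero]
    exact ⟨⟨1, one_ne_zero, by simp⟩, by simp⟩
  obtain ⟨A₀, B₀, r, a0, b0, h0⟩ := ((hPIK V).2 hd.fg.n3).2.2 g hg
  obtain ⟨A₁, B₁, dA, dB, cA, cB, a1, b1, hm, h1⟩ := hREPA V d φ hd hφ
  have d0 : B₀.natDegree ≤ nn g := r.dB.trans_le (Nat.sub_le _ _)
  obtain ⟨A, p1, p2, p3⟩ := hom_GREPS hLAG V dA a1 r.dA.le d0 a0 b0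
  obtain ⟨B, q1, q2, q3⟩ := hom_GREPS hLAG V dB b1 r.dA.le d0 a0 b0
  refine ⟨A, B, p1, q1, p2, q2, fun P hP => ?_⟩
  obtain ⟨⟨c, hc, e⟩, hx⟩ := h0 P hP
  by_cases k : g • P = 0
  · have e1 := congrFun e 1
    rw [k] at e1
    have w0 : B₀.eval (xc P) = 0 := by simpa [hc] using e1
    rw [w0, map_zero, max_eq_left (V.v.nonneg _)] at hx
    have v1 : V.v (A.eval (xc P)) = 1 := by
      rw [(p3 _).1 w0, map_mul, map_pow, cA, hx, one_pow, one_mul]
    have n1 : A.eval (xc P) ≠ 0 := fun z => by simp [z] at v1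
    rw [k, map_zero, (q3 _).1 w0, cB, zero_mul]
    exact ⟨⟨(A.eval (xc P))⁻¹, inv_ne_zero n1, by simp [n1]⟩, by simp [v1]⟩
  rw [xRep_eq k] at e
  have e0 : xc (g • P) = c * A₀.eval (xc P) := congrFun e 0
  have e1 : 1 = c * B₀.eval (xc P) := congrFun e 1
  have w0 : B₀.eval (xc P) ≠ 0 := fun z => by simp [z] at e1
  have e2 : A₀.eval (xc P) = xc (g • P) * B₀.eval (xc P) := by
    linear_combination A₀.eval (xc P) * e1 - B₀.eval (xc P) * e0
  obtain ⟨c₁, k1, k2⟩ := h1 _ k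
  rw [(p3 _).2 _ e2, (q3 _).2 _ e2]
  refine ⟨⟨c₁ / B₀.eval (xc P) ^ cd d.C, div_ne_zero k1 (pow_ne_zero _ w0), ?_⟩, ?_⟩
  · rw [k2]
    ext i
    fin_cases i <;> simp <;> field_simp
  · rw [map_mul, map_mul, ← mul_max_of_nonneg _ _ (V.v.nonneg _), hm, map_pow, ← mul_pow,
      mul_max_of_nonneg _ _ (V.v.nonneg _), mul_one, ← map_mul, mul_comm, ← e2, max_comm, hx,
      one_pow]

end Pool.Agent.MP_e23604_nt.Z.G
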