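import Pool.Agent.MP_e23604_nt.Z.GS

set_option autoImplicit false

open Finset QuadraticAlgebra Polynomial
open scoped Classical

namespace Pool.Agent.MP_e23604_nt.Z.G

open B R S W Un

/-- the box of residues -/
noncomputable def bx_GRES (n : ℕ) : Finset Zw :=
  (range n ×ˢ range n).image fun p : ℕ × ℕ => (⟨p.1, p.2⟩ : Zw)

theorem card_GRES (n : ℕ) : (bx_GRES n).card = n ^ 2 := by
  rw [bx_GRES, card_image_of_injective _ fun p p' e => Prod.ext
    (by simpa using congrArg QuadraticAlgebra.re e) (by simpa using congrArg QuadraticAlgebra.im e),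
    card_product, card_range, sq]

theorem ex_GRES {n : ℕ} (h : 0 < n) (z : Zw) : ∃ g ∈ bx_GRES n, (n : Zw) ∣ z - g := by
  have h0 : (0 : ℤ) < n := by exact_mod_cast h
  have k : ∀ a : ℤ, ((a % n).toNat : ℤ) = a % n ∧ (a % n).toNat ∈ range n := fun a => by
    have := Int.emod_nonneg a h0.ne'
    have := Int.emod_lt_of_pos a h0
    rw [mem_range]
    omega
  refine ⟨_, mem_image_of_mem _ (mk_mem_product (k z.re).2 (k z.im).2), ⟨z.re / n, z.im / n⟩, ?_⟩
  ext <;> simp [-Int.ofNat_toNat, (k _).1] <;> rw [Int.emod_def] <;> ring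

theorem inj_GRES {n : ℕ} {g g' : Zw} (h : g ∈ bx_GRES n) (h' : g' ∈ bx_GRES n)
    (e : (n : Zw) ∣ g - g') : g = g' := by
  obtain ⟨⟨a, b⟩, k, rfl⟩ := mem_image.1 h
  obtain ⟨⟨a', b'⟩, k', rfl⟩ := mem_image.1 h'
  obtain ⟨c, e⟩ := e
  simp only [mem_product, mem_range] at k k'
  have u : ∀ {i j : ℕ} {d : ℤ}, i < n → j < n → (i : ℤ) - j = n * d → (i : ℤ) = j :=
    fun {i j d} hi hj e => sub_eq_zero.1 (Int.eq_zero_of_abs_lt_dvd ⟨d, e⟩ (by
      rw [abs_lt]; omega))
  ext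
  · exact u k.1 k'.1 (by simpa using congrArg QuadraticAlgebra.re e)
  · exact u k.2 k'.2 (by simpa using congrArg QuadraticAlgebra.im e)

theorem RES_pf (hLAG : LAG_st) (hSIG : SIG_st) : RES_st := fun V σ m h => by
  have s := hSIG V σ h
  obtain ⟨-, -, e2, -, fk, -⟩ := INF_ok'.2.2 V σ h
  have l2 := V.hl.out.two_le
  have fio : ∀ b, Fix V.D (W.io b) := fun b g hg => io_fix (V.D_le hg) b
  have sm : ∀ x, Fix V.D x → V.v x < 1 → V.v x ≤ V.v V.l := fun x f k => by
    by_cases x0 : x = 0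
    · simp [x0]
    obtain ⟨j, e⟩ := s.val x x0 f
    rw [e] at k ⊢
    have := (zpow_lt_one_iff_right_of_lt_one₀ s.q0 s.q1).1 k
    simpa using zpow_le_zpow_right_of_le_one₀ s.q0 s.q1.le (show (1 : ℤ) ≤ j by omega)
  have fr : ∀ x, Fix V.D x → V.v x ≤ 1 → V.v (x ^ V.l ^ 2 - x) ≤ V.v V.l := fun x f k =>
    sm _ (fun g hg => by rw [map_sub, map_pow, f g hg]) (by
      have := fk.2 x k
      rwa [f _ fk.1, e2, V.v.map_sub] at this)
  have one : ∀ x, Fix V.D x → V.v x ≤ 1 → ∃ g, V.v (x - W.io g) ≤ V.v V.l := fun x f k => by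
    have ij : Function.Injective W.io := fun a b e => by
      by_contra n
      exact io_ne (sub_ne_zero.2 n) (by rw [map_sub, e, sub_self])
    set Y := (bx_GRES V.l).image W.io with hY
    have cY : Y.card = V.l ^ 2 := by rw [hY, card_image_of_injective _ ij, card_GRES]
    have q2 : 1 < V.l ^ 2 := by nlinarith
    have m1 : (X ^ V.l ^ 2 - X : Qb[X]).Monic := monic_X_pow_sub (by rw [degree_X]; exact_mod_cast q2)
    have m2 : (∏ y ∈ Y, (X - C y) : Qb[X]).Monic := monic_prod_X_sub_C _ _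
    have d1 : (X ^ V.l ^ 2 - X : Qb[X]).natDegree = V.l ^ 2 := by
      rw [natDegree_sub_eq_left_of_natDegree_lt] <;> simp [q2]
    have d2 : (∏ y ∈ Y, (X - C y) : Qb[X]).natDegree = V.l ^ 2 := by
      rw [natDegree_finsetProd_X_sub_C_eq_card, cY]
    have dg : (X ^ V.l ^ 2 - X - ∏ y ∈ Y, (X - C y) : Qb[X]).natDegree < Y.card := by
      rw [cY]
      by_cases z : (X ^ V.l ^ 2 - X - ∏ y ∈ Y, (X - C y) : Qb[X]) = 0
      · rw [z, natDegree_zero]; omega
      exact (natDegree_lt_natDegree z (degree_sub_lt_left (by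
        rw [degree_eq_natDegree m1.ne_zero, degree_eq_natDegree m2.ne_zero, d1, d2]) m1.ne_zero
        (m1.leadingCoeff.trans m2.leadingCoeff.symm))).trans_eq d1
    obtain ⟨a1, -, a3, -⟩ := (hLAG V).2 (X ^ V.l ^ 2 - X - ∏ y ∈ Y, (X - C y)) (V.v V.l)
    have b := (a3 (a1 Y dg (fun y hy => by
      obtain ⟨g, -, rfl⟩ := mem_image.1 hy
      refine ⟨V.io_le g, ?_⟩
      rw [eval_sub, eval_prod, prod_eq_zero hy (by simp), sub_zero]
      simpa using fr _ (fio g) (V.io_le g)) fun y hy y' hy' n => by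
        obtain ⟨g, k, rfl⟩ := mem_image.1 hy
        obtain ⟨g', k', rfl⟩ := mem_image.1 hy'
        rw [← map_sub, ← not_Ov, s.ov]
        exact fun e => n (by rw [inj_GRES k k' e])) x k).1
    have c := (bLocA_sub_le V.na (fr x f k) b).trans_lt s.q1
    simp only [eval_sub, eval_pow, eval_X, sub_sub_cancel, eval_prod, eval_C, map_prod] at c
    obtain ⟨y, hy, k⟩ : ∃ y ∈ Y, V.v (x - y) < 1 := by
      by_contra! n
      exact c.not_ge (one_le_prod (fun _ _ => n _ ‹_›))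
    obtain ⟨g, -, rfl⟩ := mem_image.1 hy
    exact ⟨g, sm _ (fun t ht => by rw [map_sub, f t ht, fio g t ht]) k⟩
  have all : ∀ (j : ℕ) x, Fix V.D x → V.v x ≤ 1 → ∃ g, V.v (x - W.io g) ≤ V.v V.l ^ j :=
    fun j x f k => by
    induction j with
    | zero => exact ⟨0, by simpa using k⟩
    | succ j ih =>
      obtain ⟨g, e⟩ := ih
      have p0 := pow_pos s.q0 j
      have l0 : ((V.l : Qb) ^ j) ≠ 0 := pow_ne_zero _ (Nat.cast_ne_zero.2 (by omega))
      obtain ⟨g', e'⟩ := one ((x - W.io g) / V.l ^ j)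
        (fun t ht => by rw [map_div₀, map_sub, f t ht, fio g t ht, map_pow, map_natCast])
        (by rwa [map_div₀, map_pow, div_le_one p0])
      refine ⟨g + V.l ^ j * g', ?_⟩
      rw [show x - W.io (g + V.l ^ j * g') = V.l ^ j * ((x - W.io g) / V.l ^ j - W.io g') by
        rw [map_add, map_mul, map_pow, map_natCast, mul_sub, mul_div_cancel₀ _ l0, sub_sub],
        map_mul, map_pow, pow_succ]
      exact mul_le_mul_of_nonneg_left e' p0.le
  have p0 : 0 < V.l ^ m := pow_pos (by omega) m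
  refine ⟨bx_GRES (V.l ^ m), mem_image.2 ⟨(0, 0), by simp [p0], rfl⟩, fun g k g' k' e =>
    inj_GRES k k' (by rw [Nat.cast_pow]; exact (s.dv _ _).2 e), fun x f k => ?_⟩
  obtain ⟨g, e⟩ := all m x f k
  obtain ⟨g', k', e'⟩ := ex_GRES p0 g
  rw [Nat.cast_pow, s.dv, map_sub] at e'
  exact ⟨g', k', by simpa using bLocA_add_le V.na e e'⟩

end Pool.Agent.MP_e23604_nt.Z.G
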