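import Pool.Agent.MP_e23604_nt.Z.GS

set_option autoImplicit false

open Finset QuadraticAlgebra
open scoped Classical

namespace Pool.Agent.MP_e23604_nt.Z.G

open B R S W Un

theorem rep_GRSM {N : ℕ} (hN : N ≠ 0) (x : Zw) (h : IsCoprime x N) :
    ∃ t ∈ Rs N, (N : Zw) ∣ x - t := by
  have n : (N : ℤ) ≠ 0 := Nat.cast_ne_zero.2 hN
  have k : ∀ a : ℤ, ((a % N).toNat : ℤ) = a % N ∧ (a % N).toNat < N := fun a => by
    have := Int.emod_nonneg a n
    have := Int.emod_lt_of_pos a (b := N) (by omega)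
    omega
  have e : x = ⟨(x.re % N).toNat, (x.im % N).toNat⟩ + N * ⟨x.re / N, x.im / N⟩ := by
    ext <;> simp [k, Int.emod_add_mul_ediv]
  refine ⟨⟨(x.re % N).toNat, (x.im % N).toNat⟩, mem_filter.2 ⟨mem_image.2
    ⟨((x.re % N).toNat, (x.im % N).toNat), by simp [k], rfl⟩, ?_⟩, _, sub_eq_of_eq_add' e⟩
  rwa [e, IsCoprime.add_mul_left_left_iff] at h

theorem inj_GRSM {N : ℕ} {t t' : Zw} (h : t ∈ Rs N) (h' : t' ∈ Rs N) (e : (N : Zw) ∣ t - t') :
    t = t' := by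
  obtain ⟨p, a, rfl⟩ := mem_image.1 (mem_filter.1 h).1
  obtain ⟨q, b, rfl⟩ := mem_image.1 (mem_filter.1 h').1
  simp only [mem_product, mem_range] at a b
  obtain ⟨z, e⟩ := e
  have k : ∀ (x y : ℕ) (c : ℤ), x < N → y < N → (x : ℤ) - y = N * c → (x : ℤ) = y :=
    fun x y c h1 h2 h3 => sub_eq_zero.1 (Int.eq_zero_of_abs_lt_dvd ⟨c, h3⟩ (by
      rw [abs_lt]; omega))
  ext
  · exact k _ _ z.re a.1 b.1 (by simpa using congrArg QuadraticAlgebra.re e)
  · exact k _ _ z.im a.2 b.2 (by simpa using congrArg QuadraticAlgebra.im e)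

theorem RSM_pf : RSM_st := by
  intro N hN
  have c : ∀ t ∈ Rs N, IsCoprime t N := fun t h => (mem_filter.1 h).2
  refine ⟨(rep_GRSM hN 1 isCoprime_one_left).imp fun _ h => h.1, c, fun A _ F s hs hF => ?_⟩
  choose g h1 h2 using fun t ht => rep_GRSM hN (s * t) (hs.mul_left (c t ht))
  have i : ∀ t ht t' ht', g t ht = g t' ht' → t = t' := fun t ht t' ht' e =>
    inj_GRSM ht ht' (hs.symm.dvd_of_dvd_mul_left (by
      simpa [e, mul_sub] using dvd_sub (h2 t ht) (h2 t' ht')))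
  exact sum_bij g h1 i (fun b hb => by
    obtain ⟨a, ha, e⟩ := surj_on_of_inj_on_of_card_le g h1 (fun a b ha hb => i a ha b hb) le_rfl b hb
    exact ⟨a, ha, e.symm⟩) fun t ht => hF _ _ (hs.mul_left (c t ht)) (h2 t ht)

end Pool.Agent.MP_e23604_nt.Z.G
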