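import Pool.Agent.MP_e23604_nt.Z.GS

set_option autoImplicit false

open Finset QuadraticAlgebra Polynomial
open scoped Classical

namespace Pool.Agent.MP_e23604_nt.Z.G

open B R S W Un

theorem tor_GSCL (hV : VPF_st) {g : Zw} {P Q : Pt} (hP : g • P ≠ 0) (hQ : g • Q ≠ 0) :
    ∑ T ∈ tor g, xc (P + T) - ∑ T ∈ tor g, xc (Q + T) = W.io g ^ 2 * (xc (g • P) - xc (g • Q)) := by
  have g0 := (smul_ne hP).1
  have f := qC_fin (C := ⊥) g0 (by simp)
  have e : els (qC g ⊥) = tor g := by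
    ext T
    rw [mem_els f, mem_tor g0, mem_qC, AddSubgroup.mem_bot]
  have k := hV _ P Q f hP hQ
  rw [sX, sX, Un.kk, e, fib_kk hQ hP, mul_comm] at k
  refine (mul_right_cancel₀ (prod_ne_zero_iff.2 fun T hT a => hP ?_) k).symm
  have t := (mem_tor g0).1 (mem_of_mem_erase hT)
  rcases xc_eq (smul_ne hP).2 (ne_of_mem_erase hT) (sub_eq_zero.1 a) with rfl | rfl
  exacts [t, by rw [smul_neg, t, neg_zero]]

theorem vX_GSCL (hV : VPF_st) {g : Zw} (g0 : g ≠ 0) {C : AddSubgroup Pt} (f : (C : Set Pt).Finite)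
    {P Q : Pt} (hP : g • P ∉ C) (hQ : g • Q ∉ C) :
    vX (qC g C) Q P = W.io g ^ 2 * vX C (g • Q) (g • P) := by
  choose q hq using smul_onto g0
  have n : ∀ P : Pt, g • P ∉ C → ∀ U ∈ els C, g • (P + q U) ≠ 0 := fun P hP U hU e => hP (by
    rw [smul_add, hq, add_eq_zero_iff_eq_neg] at e
    exact e ▸ C.neg_mem ((mem_els f).1 hU))
  rw [vX, vX, qC_sum g0 f q hq, qC_sum g0 f q hq, ← sum_sub_distrib, ← sum_sub_distrib, mul_sum]
  refine sum_congr rfl fun U hU => ?_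
  simpa only [add_assoc, smul_add, hq] using tor_GSCL hV (n P hP U hU) (n Q hQ U hU)

theorem fp_GSCL {t : Qb} (h : t ≠ 0) (x y z u : Qb) :
    fp (t * x) (t * y) (t * z) (t * u) = fp x y z u := by
  have a : fa (t * x) (t * y) (t * z) = t ^ 2 * fa x y z := by unfold fa; ring
  have b : fb (t * x) (t * y) (t * z) = t ^ 2 * fb x y z := by rw [fb, fb, a]; ring
  have c : fc (t * x) (t * y) (t * z) (t * u) = t ^ 2 * fc x y z u := by
    rw [fc, fc, a, b, mul_sub (t ^ 2), ← mul_div_assoc,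
      ← mul_div_mul_left (t ^ 2 * _) _ (pow_ne_zero 4 h)]
    congr 2 <;> ring
  rw [fp, fp, a, b, c, fm, fm, ← mul_sub, mul_div_mul_left _ _ (pow_ne_zero 2 h),
    mul_left_comm _ (t ^ 2), mul_left_comm _ (t ^ 2), ← mul_sub,
    mul_div_mul_left _ _ (pow_ne_zero 2 h)]

theorem SCL_pf (hVPF : VPF_st) : SCL_st := by
  rintro ⟨C, _, _⟩ g S R h g0 rfl rfl
  have e : ∀ n : ℕ, g • n • R = n • g • R := fun n => smul_comm _ _ _
  have e3 : ∀ n : ℕ, g • n • S = n • g • S := fun n => smul_comm _ _ _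
  have o : DD (qC g C) S R := ⟨qC_fin g0 h.fin, mem_qC.2 (e 9 ▸ h.r9), mem_qC.2 (e3 3 ▸ h.s3),
    fun a => h.r3 (e 3 ▸ mem_qC.1 a), h.s0, fun a => h.s1 (by rwa [mem_qC, smul_add, e] at a),
    fun a => h.s2 (by rwa [mem_qC, smul_sub, e] at a)⟩
  refine ⟨o, ?_⟩
  have n : ∀ k : ℕ, ¬ 3 ∣ k → k • R ∉ qC g C := fun k hk a => o.r3 (by
    have := (qC g C).sub_mem ((qC g C).nsmul_mem a (3 * k)) ((qC g C).nsmul_mem o.r9 (k * k / 3))
    rw [← mul_nsmul', ← mul_nsmul', show 3 * k * k = k * k / 3 * 9 + 3 by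
      have : k * k % 3 = 1 := by
        rw [Nat.mul_mod]
        rcases (by omega : k % 3 = 1 ∨ k % 3 = 2) with e | e <;> rw [e]
      rw [mul_assoc]
      omega, add_nsmul, add_sub_cancel_left] at this
    exact this)
  have n1 : R ∉ qC g C := by simpa using n 1 (by decide)
  have n2 : R + 3 • R ∉ qC g C := by rw [← succ_nsmul']; exact n 4 (by decide)
  have n3 : R - 3 • R ∉ qC g C := fun a => n 2 (by decide) (by
    rw [show 2 • R = -(R - 3 • R) by abel]; exact (qC g C).neg_mem a)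
  have v := fun P (hP : P ∉ qC g C) => vX_GSCL hVPF g0 h.fin (P := P) hP o.r3
  simp only [Lv.pt, Hp]
  rw [v _ o.s0, v _ o.s1, v _ o.s2, v _ n1, v _ n2, v _ n3, ← mul_add, ← mul_add,
    fp_GSCL (pow_ne_zero 2 (io_ne g0))]
  simp only [smul_add, smul_sub, e]

end Pool.Agent.MP_e23604_nt.Z.G
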