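import Pool.Agent.MP_e23604_nt.Z.GS

/-!
The action of a Frobenius element at an inert place.
-/

set_option autoImplicit false

open Finset QuadraticAlgebra Polynomial
open scoped Classical

namespace Pool.Agent.MP_e23604_nt.Z.G

open B R S W Un

theorem cd_SIG {C : AddSubgroup Pt} (h : (C : Set Pt).Finite) : cd C = Nat.card C := by
  rw [cd, els, dif_pos h, ← Set.ncard_eq_toFinset_card _ h]
  rfl

theorem SIG_pf : SIG_st := by
  intro V σ h
  have hl := V.hl.out
  obtain ⟨pp, o1, -, nk, fk, -⟩ := INF_ok'.2.2 V σ h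
  have pr := inert_prime hl h.l3
  obtain ⟨ov, -, -, -, -, dv, val⟩ := PLK_ok.2.2.1 V _ pr (Ov_l V)
  rw [map_natCast] at dv val
  have n3 : ¬ Ov V 3 := fun e => by
    have := (PLK_ok.2.2.2.1 V 3).1 (by rwa [Nat.cast_ofNat])
    have := (Nat.prime_dvd_prime_iff_eq hl Nat.prime_three).1 this
    have := h.l3
    omega
  have vs : ∀ b, V.v (W.io (star b)) = V.v (W.io b) := fun b => by
    rw [← W.io_star nk]
    exact h.fr.1 _
  have fr := ((FRB_ok V _ pp o1).2 _ fk).2
  have tt : ∀ P ∈ TT V, gal σ P ∈ TT V ∧ gal σ (gal σ P) = -((V.l : Zw) • P) := by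
    rintro P ⟨n, hn, e⟩
    refine ⟨⟨star n, by rwa [Ov, vs], by rw [← gal_star nk, e, map_zero]⟩, ?_⟩
    rw [← W.gal_mul, ← sq, fr n P hn e, neg_smul]
  have bt : ∀ a b, ∀ P ∈ TT V, be σ a b P ∈ TT V := fun a b P hP =>
    add_mem (TT_smul hP a) (TT_smul (tt P hP).1 b)
  have bb : ∀ a b a' b', ∀ P ∈ TT V, be σ a' b' (be σ a b P) =
      be σ (a' * a - V.l * b' * star b) (a' * b + b' * star a) P := fun a b a' b' P hP => by
    simp only [be_apply, map_add, gal_star nk, (tt P hP).2]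
    module
  have nc : ∀ a b, (nq V a b : Zw) = a * star a + V.l * (b * star b) := fun a b => by
    rw [mul_star_nn, mul_star_nn, nq]
    push_cast
    rfl
  have ad : ∀ a b, ∀ P ∈ TT V, be σ (star a) (-b) (be σ a b P) = (nq V a b : Zw) • P ∧
      be σ a b (be σ (star a) (-b) P) = (nq V a b : Zw) • P := fun a b P hP => by
    rw [bb _ _ _ _ P hP, bb _ _ _ _ P hP, nc, be_apply, be_apply, star_neg, star_star]
    constructor <;> module
  have on : ∀ a b, Ov V (nq V a b) ↔ Ov V a := fun a b => by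
    rw [nc, ov, dvd_add_left (dvd_mul_right _ _), ← ov, Ov_mul, Ov, Ov, vs, or_self]
  refine ⟨n3, nk, h.fr.1, h.fr.2, ov, pr, V.v.pos (Nat.cast_ne_zero.2 hl.ne_zero), nv_lt _ _, vs,
    fun b hb => ?_, dv, fun x hx e => val x hx fun g hg => e g (V.I_le hg), tt, bt,
    fun a b j P => ?_, fun a b j P => ?_, bb, fun a b a' b' => ?_, ad, on, fun a b ha Q hQ => ?_,
    fun C h1 h2 e => ?_, fun N hN g hg => ?_⟩
  · obtain ⟨m, c, hc, rfl⟩ := WfDvdMonoid.max_power_factor' hb pr.not_isUnit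
    have h1 : ¬ V.l ∣ nn c := fun e => hc (inert_dvd hl h.l3 e)
    rw [nn_mul, nn_pow, nn_nat, ← pow_mul, Nat.factorization_mul (pow_ne_zero _ hl.ne_zero)
      (fun e => h1 (by rw [e]; exact dvd_zero _)), Finsupp.add_apply, Nat.factorization_eq_zero_of_not_dvd h1,
      hl.factorization_pow, Finsupp.single_eq_same, map_mul, map_mul, map_pow, map_pow, map_natCast,
      not_Ov.1 (mt (ov c).1 hc), mul_one, add_zero, Nat.mul_div_cancel_left _ two_pos]
  · simp only [be_apply, gal_star nk, mul_smul]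
  · simp only [be_apply, smul_add, mul_smul]
  · refine Nat.cast_injective (R := Zw) ?_
    rw [Nat.cast_mul, nc, nc, nc]
    simp only [star_sub, star_add, star_mul', star_star, star_natCast]
    ring
  · have h0 := mt (on a b).1 ha
    obtain ⟨Q', rfl⟩ := smul_onto (ne_of_not_Ov h0) Q
    exact ⟨_, bt _ _ _ (TT_of h0 hQ), (ad a b _ (TT_of h0 hQ)).2⟩
  · have : Finite C := h1
    obtain ⟨c, hc⟩ := exists_prime_addOrderOf_dvd_card' (G := C) V.l
      (cd_SIG h1 ▸ (PLK_ok.2.2.2.1 V _).1 e)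
    obtain ⟨n, hn, e'⟩ := h2 c.2
    have k : (V.l : Zw) • (c : Pt) = 0 := by
      rw [Nat.cast_smul_eq_nsmul, ← AddSubgroup.coe_nsmul, ← hc, addOrderOf_nsmul_eq_zero]
      rfl
    have : c = 0 := Subtype.ext (cop_smul ((pr.irreducible.coprime_iff_not_dvd).2 (mt (ov n).2 hn))
      k e')
    rw [this, addOrderOf_zero] at hc
    exact hl.one_lt.ne hc
  · have n0 : (nn N : Zw) ≠ 0 := Nat.cast_ne_zero.2 (nn_pos (ne_of_not_Ov hN)).ne'
    obtain ⟨i, τ, hτ, e⟩ := ((FRK_ok V _ pp.1 o1).2.2.2 _ fk).2.2.2.1 _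
      ((PS_ok _ n0).2 (by rw [star_natCast])) g hg
    refine ⟨(-V.l) ^ i, ?_, fun P hP => ?_⟩
    · push_cast
      exact (pr.irreducible.coprime_iff_not_dvd.2 (mt (ov N).2 hN)).neg_left.pow_left
    have k : ∀ i : ℕ, gal ((σ ^ 2) ^ i) P = (-V.l : ℤ) ^ i • P := fun i => by
      induction i with
      | zero => rw [pow_zero, pow_zero, W.gal_one, one_smul]
      | succ i ih =>
        rw [pow_succ, W.gal_mul, fr N P hN hP, gal_smul (GK.pow_mem fk.1.2 i), ih, pow_succ',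
          mul_smul, ← Int.cast_smul_eq_zsmul Zw (-V.l : ℤ)]
        push_cast
        rfl
    rw [← mul_inv_cancel_left ((σ ^ 2) ^ i * τ) g, W.gal_mul,
      e.2 P (dvd_smul hP ⟨_, (mul_star_nn N).symm⟩), W.gal_mul, (INE_ok V n3 τ hτ).2.1 N P hN hP, k]

end Pool.Agent.MP_e23604_nt.Z.G
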