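import Pool.Agent.MP_e23604_nt.Z.GS
import Pool.Agent.MP_e23604_nt.Z.C0

set_option autoImplicit false

open Finset QuadraticAlgebra Polynomial
open scoped Classical

namespace Pool.Agent.MP_e23604_nt.Z.G

open B R S W Un

/-- an element of the decomposition group that acts as a number which is not rational -/
theorem ex_GSPL {V : Plc} (h : V.l % 3 = 1) {M : Zw} (hM : M ≠ 0) :
    ∃ g ∈ UM M, g ∈ V.D ∧ ∃ π : Zw, (π * π).im ≠ 0 ∧ ∀ P : Pt, E1 V.v (gal g P - π • P) := by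
  have h3 : V.l ≠ 3 := by omega
  obtain ⟨ϖ, p1, p2, -, p4⟩ := PLK_ok.1 V
  obtain ⟨σ, hσ⟩ := (FRK_ok V ϖ p1 p2).1
  have hn : nn ϖ = V.l := by
    rcases (PLK_ok.2.2.1 V ϖ p1 p2).2.2.1 with e | e | e
    exacts [e.2.1, by omega, by omega]
  have := (UM M).quotient_finite_of_isOpen (UM_open hM)
  obtain ⟨n, n0, -, hg⟩ := (UM M).exists_pow_mem_of_index_ne_zero Subgroup.index_ne_zero_of_finite σ
  refine ⟨_, hg, pow_mem hσ.1 n, ϖ ^ n, fun e => ?_, fun P => ?_⟩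
  · have e1 : star (ϖ ^ n * ϖ ^ n) = ϖ ^ n * ϖ ^ n := by
      generalize ϖ ^ n * ϖ ^ n = t at e
      ext <;> simp [e]
    rw [← pow_add, star_pow] at e1
    exact p1.not_unit ((cop_conj V.hl.out h3 hn).isUnit_of_dvd' dvd_rfl
      (p1.dvd_of_dvd_pow (e1 ▸ dvd_pow_self ϖ (by omega))))
  · clear hg n0
    induction n with
    | zero => rw [pow_zero, pow_zero, W.gal_one, one_smul, sub_self]; trivial
    | succ n ih =>
      have := E1a (((FRB_ok V ϖ (p4 h3) p2).2 σ hσ).1 (gal (σ ^ n) P)) (E1m ih ϖ).1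
      rwa [smul_sub, sub_add_sub_cancel, ← W.gal_mul, ← pow_succ', ← mul_smul, ← pow_succ'] at this

/-- the action on the quotient curve -/
theorem gal_GSPL (hVGR : VGR_st) {V : Plc} {d : Lv} {φ : Pt →+ PW (Wd d.pt)} (h : d.Gd V)
    (hφ : Vl d φ) {m : Zw} {g : GQ} (hg : g ∈ UM (9 * cd d.C * m)) (hD : g ∈ V.D) (P : Pt) :
    (E1 V.v (φ (gal g P)) ↔ E1 V.v (φ P)) ∧ (φ P ≠ 0 → xw (φ (gal g P)) = g (xw (φ P))) := by
  have f : ∀ Q : Pt, 9 • Q ∈ d.C → gal g Q = Q := fun Q e => hg.2 Q (dvd_smul (a := cd d.C * 9)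
    (by rw [mul_smul, show (9 : Zw) = (9 : ℕ) from rfl, Nat.cast_smul_eq_nsmul Zw 9,
      NC.cd_smul h.ok.fin e]) ⟨m, by ring⟩)
  have fc : ∀ c ∈ d.C, gal g c = c := fun c e => f c (d.C.nsmul_mem e 9)
  have fT : gal g d.T = d.T := by rw [Lv.T, map_nsmul, f _ h.ok.r9]
  have fS : gal g d.S = d.S := f _ (by simpa [← mul_nsmul] using d.C.nsmul_mem h.ok.s3 3)
  have sx : ∀ Q, sX d.C (gal g Q) = g (sX d.C Q) := fun Q => by
    rw [sX, sX, map_sum]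
    exact sum_congr rfl fun c e => by
      rw [← (xc_gal g _).1, map_add, fc c ((mem_els h.ok.fin).1 e)]
  have vx : ∀ Q, vX d.C d.T (gal g Q) = g (vX d.C d.T Q) := fun Q => by
    rw [vX_eq, vX_eq, map_sub, ← sx, ← sx, fT]
  have ka : g d.ka = d.ka := by
    simp only [Lv.ka, Lv.x1, Lv.x2, Lv.x3, map_div₀, map_neg, map_mul, map_ofNat, ← vx, map_add,
      map_sub, fS, fT]
  have k := ((hVGR V d h).2.2.2.2.2.2.2.2.2.2 φ hφ).1
  refine ⟨?_, fun e => ?_⟩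
  · rw [k, k]
    exact exists_congr fun c => and_congr_right fun e => by
      rw [← E1_dec (P := P - c) hD.1, map_sub, fc c e]
  · have e1 : P ∉ d.C := fun e1 => e ((hφ.ker P).2 e1)
    rw [hφ.xx P e1, hφ.xx _ fun e2 => e1 (by rwa [gal_inj g (fc _ e2)] at e2), map_mul, ka, vx]

theorem SPL_pf (hPARW : PARW_st) (hVEL : VEL_st) (hVGR : VGR_st) (hVUN : VUN_st)
    (hDXE : DXE_st) : SPL_st := by
  intro V d d' h1 hd hd' hE b hb
  obtain ⟨r, φ, hφ⟩ := hVEL.2 d hd.ok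
  obtain ⟨r', φ', hφ'⟩ := hVEL.2 d' hd'.ok
  obtain ⟨-, -, -, -, -, -, -, vx, -, -, k⟩ := hVGR V d hd
  obtain ⟨-, -, -, -, -, -, -, vx', -, gw, k'⟩ := hVGR V d' hd'
  replace k := (k φ hφ).1
  replace k' := (k' φ' hφ').1
  have v2 : V.v 2 = 1 := by
    simpa [map_ofNat] using not_Ov.1 (NC.not_Ov_nat (V := V) (n := 2) fun e => by
      have := Nat.le_of_dvd two_pos e
      have := V.hl.out.two_le
      omega)
  have s1 := (gw_EQ hd.fg.n3).zs_lt.2 hE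
  obtain ⟨hx, -, D, hD⟩ := (hDXE V).1 d d' _ hd hd' v2 s1 le_rfl
  let Ω : AddSubgroup (Pt × Pt) :=
    { carrier := {x | ∃ Q, (φ x.1, Q) ∈ D ∧ E1 V.v (φ' x.2 - Q)}
      zero_mem' := ⟨0, by rw [Prod.fst_zero, map_zero]; exact D.zero_mem, by simp⟩
      add_mem' := by
        rintro x y ⟨Q, a1, a2⟩ ⟨Q', b1, b2⟩
        exact ⟨Q + Q', by simpa using D.add_mem a1 b1, by
          rw [Prod.snd_add, map_add, add_sub_add_comm]; exact gw.add a2 b2⟩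
      neg_mem' := by
        rintro x ⟨Q, a1, a2⟩
        exact ⟨-Q, by simpa using D.neg_mem a1, by
          rw [Prod.snd_neg, map_neg, neg_sub_neg, ← neg_sub]; exact gw.neg a2⟩ }
  have o1 : ∀ P, ∃ P', (P, P') ∈ Ω := fun P => by
    obtain ⟨Q, e⟩ := hD.onto (φ P)
    obtain ⟨P', rfl⟩ := hφ'.sur Q
    exact ⟨P', _, e, by rw [sub_self]; trivial⟩
  have o2 : ∀ P P', (P, P') ∈ Ω → (E1 V.v (φ P) ↔ E1 V.v (φ' P')) := by
    rintro P P' ⟨Q, a1, a2⟩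
    exact (hD.one _ _ a1).trans ⟨fun e => by simpa using gw.add a2 e,
      fun e => by simpa using gw.sub e a2⟩
  have o3 : ∀ P P', E1 V.v (φ P) → E1 V.v (φ' P') → (P, P') ∈ Ω := fun P P' e e' => by
    obtain ⟨Q, a⟩ := hD.onto (φ P)
    exact ⟨Q, a, gw.sub e' ((hD.one _ _ a).1 e)⟩
  have pw4 := (hPARW V _ gw).2.2.2.1
  have oX : ∀ P P', (P, P') ∈ Ω → ¬ E1 V.v (φ P) → V.v (xw (φ' P') - xw (φ P)) < 1 := by
    intro P P' a e
    have e' := mt (o2 _ _ a).2 e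
    obtain ⟨Q, a1, a2⟩ := a
    obtain ⟨-, c2, c3, -⟩ := (hD.cong _ _ e).1 a1
    have := bLocA_add_lt V.na ((pw4 _ _ e' c2).trans_lt (mul_lt_one_of_nonneg_of_lt_one_right
      (gw.zs_le _) (zs_nonneg _ _) (gw.zs_lt.2 a2))) (c3.trans_lt s1)
    rwa [pow_one, sub_add_sub_cancel] at this
  have oY : ∀ P P', ¬ E1 V.v (φ P) → ¬ E1 V.v (φ' P') → V.v (xw (φ' P') - xw (φ P)) < 1 →
      (P, P') ∈ Ω ∨ (P, -P') ∈ Ω := fun P P' e e' a => by
    obtain ⟨Q, a1⟩ := hD.onto (φ P)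
    obtain ⟨-, c2, c3, -⟩ := (hD.cong _ _ e).1 a1
    have := bLocA_sub_lt V.na a (pow_one (xw (φ P)) ▸ c3.trans_lt s1)
    rw [sub_sub_sub_cancel_right, pw4 _ _ e' c2] at this
    by_cases a2 : E1 V.v (φ' P' - Q)
    · exact Or.inl ⟨Q, a1, a2⟩
    · rw [zs_not a2, mul_one, gw.zs_lt] at this
      exact Or.inr ⟨Q, a1, by rw [map_neg, ← neg_add']; exact gw.neg this⟩
  have c0 : ∀ {C : AddSubgroup Pt}, (C : Set Pt).Finite → (cd C : Zw) ≠ 0 := fun e =>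
    Nat.cast_ne_zero.2 (cd_pos e).ne'
  obtain ⟨g, g1, g2, π, p0, p1⟩ := ex_GSPL h1 (M := 9 * cd d.C * cd d'.C)
    (mul_ne_zero (mul_ne_zero (by decide) (c0 hd.ok.fin)) (c0 hd'.ok.fin))
  have a := gal_GSPL hVGR hd hφ g1 g2
  have a' := gal_GSPL hVGR hd' hφ' (m := cd d.C) (by rwa [mul_right_comm]) g2
  have e1 : ∀ P, E1 V.v (φ (gal g P - π • P)) := fun P => (k _).2 ⟨0, zero_mem _, by simpa using p1 P⟩
  have e2 : ∀ P, E1 V.v (φ' (gal g P - π • P)) := fun P =>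
    (k' _).2 ⟨0, zero_mem _, by simpa using p1 P⟩
  let f : Zw → Pt × Pt →+ Pt × Pt := fun ε =>
    (DistribSMul.toAddMonoidHom Pt π).prodMap (DistribSMul.toAddMonoidHom Pt (ε * π))
  have st : (Ω : Set (Pt × Pt)) ⊆ Ω.comap (f 1) ∪ Ω.comap (f (-1)) := by
    rintro ⟨P, P'⟩ x
    have : (gal g P, gal g P') ∈ Ω ∨ (gal g P, -gal g P') ∈ Ω := by
      by_cases e : E1 V.v (φ P)
      · exact Or.inl (o3 _ _ ((a P).1.2 e) ((a' P').1.2 ((o2 _ _ x).1 e)))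
      · have e' := mt (o2 _ _ x).2 e
        refine oY _ _ (mt (a P).1.1 e) (mt (a' P').1.1 e') ?_
        rw [(a P).2 (nE1_xw.1 e).1, (a' P').2 (nE1_xw.1 e').1, ← map_sub, g2.1]
        exact oX _ _ x e
    refine this.imp (fun y => ?_) fun y => ?_
    · simpa [f] using Ω.sub_mem y (o3 _ _ (e1 P) (e2 P'))
    · have z := Ω.sub_mem y (o3 _ (-_) (e1 P) (by rw [map_neg]; exact gw.neg (e2 P')))
      rw [Prod.mk_sub_mk, neg_sub_neg, sub_sub_cancel_left] at z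
      simpa [f] using z
  obtain ⟨ε, e0, hε⟩ : ∃ ε : Zw, ε * ε = 1 ∧ Ω ≤ Ω.comap (f ε) :=
    (AddSubgroupClass.subset_union.1 st).elim (fun e => ⟨1, by simp, e⟩) fun e => ⟨-1, by simp, e⟩
  have st2 : ∀ P P', (P, P') ∈ Ω → ∀ c : Zw,
      ((c * (π * π).im) • P, (c * (π * π).im) • P') ∈ Ω := fun P P' x c => by
    have y : ((π * π) • P, (π * π) • P') ∈ Ω := by
      have := hε (hε x)
      simp only [f, AddSubgroup.mem_comap, AddMonoidHom.coe_prodMap, Prod.map,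
        DistribSMul.toAddMonoidHom_apply, ← mul_smul] at this
      rwa [mul_mul_mul_comm, e0, one_mul] at this
    have z := Ω.add_mem (Ω.zsmul_mem y c.im) (Ω.zsmul_mem x (c.re * (π * π).im - c.im * (π * π).re))
    simp only [Prod.smul_mk, Prod.mk_add_mk, ← Int.cast_smul_eq_zsmul Zw, ← mul_smul,
      ← add_smul] at z
    rwa [show (c.im : Zw) * (π * π) + ((c.re * (π * π).im - c.im * (π * π).re : ℤ) : Zw) =
      c * (π * π).im by generalize π * π = t; ext <;> simp <;> ring] at z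
  have nS : ∀ {e : Lv} {ψ : Pt →+ PW (Wd e.pt)}, e.Gd V →
      (∀ P, E1 V.v (ψ P) ↔ ∃ c ∈ e.C, E1 V.v (P - c)) → ¬ E1 V.v (ψ e.S) := fun {e} {ψ} x y z => by
    obtain ⟨c, c1, c2⟩ := (y _).1 z
    exact ((hVUN e.C).2 V x.fg e.S).1 (by simpa [← mul_nsmul] using e.C.nsmul_mem x.ok.s3 3)
      x.ok.s0 c c1 c2
  have hS := oY _ _ (nS hd k) (nS hd' k') (by
    rw [hφ.xx _ hd.ok.s0, hφ'.xx _ hd'.ok.s0, ← Lv.x1, ← Lv.x1, r.r4, r'.r4, dc, dc,
      show -3 * (-xc d'.pt ^ 3 / 27) - -3 * (-xc d.pt ^ 3 / 27) = (xc d'.pt ^ 2 +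
        xc d'.pt * xc d.pt + xc d.pt ^ 2) * (xc d'.pt - xc d.pt) / 3 ^ 2 by ring, map_div₀, map_pow,
      v_three hd.fg.n3, one_pow, div_one]
    exact (bLocA_mul_le (bLocA_add_le V.na (bLocA_add_le V.na (by simp [vx']) (by simp [vx, vx']))
      (by simp [vx]))).trans_lt (hx.trans_lt s1))
  obtain ⟨Q, hQ⟩ := smul_onto (b := ((π * π).im : Zw)) (Int.cast_ne_zero.2 p0) d.S
  obtain ⟨Q', x⟩ := o1 Q
  have kl : ∀ X, (0, X) ∈ Ω → E1 V.v ((cd d'.C : Zw) • X) := fun X y => by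
    obtain ⟨c, c1, c2⟩ := (k' _).1 ((o2 _ _ y).1 (by rw [map_zero]; trivial))
    simpa [smul_sub, NC.cd_smul hd'.ok.fin c1] using (E1m c2 (cd d'.C)).1
  have y1 := st2 _ _ x b
  have y2 := st2 _ _ x 1
  rw [mul_smul, hQ, hb] at y1
  rw [one_mul, hQ] at y2
  generalize ((π * π).im : Zw) = t at y1 y2
  rcases hS with e | e
  · have := E1a (E1m (kl _ (by simpa using Ω.sub_mem e y2)) b).1 (kl _ y1)
    rwa [smul_sub, smul_sub, mul_smul, smul_comm _ b, sub_add_cancel, ← mul_smul] at this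
  · have := E1n (E1a (E1m (kl _ (by simpa using Ω.sub_mem e y2)) b).1 (kl _ y1))
    rwa [smul_sub, smul_sub, mul_smul, smul_comm _ b, sub_add_cancel, ← mul_smul, smul_neg,
      neg_neg] at this

end Pool.Agent.MP_e23604_nt.Z.G
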