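import Pool.Agent.MP_e23604_nt.Z.GS
import Pool.Agent.MP_e23604_nt.Y.RAMI

set_option autoImplicit false

open Finset QuadraticAlgebra Polynomial
open scoped Classical

namespace Pool.Agent.MP_e23604_nt.Z.G

open B R S W Un

theorem TAU_pf (hSIG : SIG_st) : TAU_st := by
  intro V σ h
  have l3 := h.inr.l3
  have hp := inert_prime V.hl.out l3
  have nd : ∀ p : ℕ, p.Prime → p ≠ V.l → ¬ p ∣ nn V.l := fun p h1 h2 e => h2 (by
    rw [nn_nat] at e
    exact (Nat.prime_dvd_prime_iff_eq h1 V.hl.out).1 (h1.dvd_of_dvd_pow e))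
  have n2 : ¬ (2 : Zw) ∣ V.l := fun e => nd 2 Nat.prime_two h.n2.symm (two_dvd_iff.1 e)
  have n3 : ¬ pw ∣ V.l := fun e => nd 3 Nat.prime_three (by omega) (pw_dvd_iff.1 e)
  have o3 : ¬ Ov V 3 := NC.not_Ov_nat (n := 3) fun e => by
    have := (Nat.prime_dvd_prime_iff_eq V.hl.out Nat.prime_three).1 e
    omega
  obtain ⟨T, hT⟩ := (CYG_ok _ hp.ne_zero).1
  have T0' : T ≠ 0 := fun e => hp.not_isUnit (isUnit_of_dvd_one ((hT 1).1 (by rw [e, smul_zero])))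
  have eT := NC.E1_l l3 hT.zero
  have fa : ∀ (P : Pt) (x : ℝ), (∀ y, V.v y = V.v (xc T) → V.v (xc P - y) = x) →
      V.v (Fa V.l P) = V.v V.l ^ 2 * x ^ (V.l ^ 2 - 1) := fun P x e => by
    rw [Fa, map_mul, map_pow, map_natCast, map_prod, prod_congr rfl fun S hS => e _ (by
      obtain ⟨s1, s2⟩ := (mem_tor0 hp.ne_zero).1 hS
      obtain ⟨τ, t1, rfl⟩ := Y.RAMI_pf V T S l3 hT.zero s2 T0' s1
      rw [(xc_gal τ T).1, (V.I_le t1).1]), prod_const,
      card_erase_of_mem ((mem_tor hp.ne_zero).2 (smul_zero _)), CARD_ok _ hp.ne_zero, nn_nat]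
  have f0 := fa T0 _ fun y e => by rw [xc_T0.1, zero_sub, V.v.map_neg, e]
  rw [((UNIT_ok _ V T0 (cop6.2 ⟨n2, n3⟩) o3).1 (((Gd_T0.smul n3).nE1 V))).1] at f0
  have z1 := (E1_xz eT T0').1
  have l0 : 0 < V.v V.l := V.v.pos (Nat.cast_ne_zero.2 V.hl.out.ne_zero)
  have l1 : V.v V.l < 1 := nv_lt _ _
  refine ⟨T, hT.zero, T0', eT, ?_, fun X eX hX => ?_⟩
  · refine (pow_left_inj₀ (by positivity) l0.le two_ne_zero).1 ?_
    have := congrArg (· ^ (V.l ^ 2 - 1)) z1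
    simp only [mul_pow, one_pow] at this
    rw [pow_right_comm]
    linear_combination (V.v (zz T) ^ 2) ^ (V.l ^ 2 - 1) * f0 + V.v V.l ^ 2 * this
  by_cases X0 : X = 0
  · simp [X0, zz_zero]
  have z2 := (E1_xz eX X0).1
  have x1 : 1 < V.v (xc X) := ((E1_iff _ _).1 eX).resolve_left X0
  have lt : V.v (xc T) < V.v (xc X) := by
    by_contra e
    have := mul_lt_mul' (not_lt.1 e) (pow_lt_pow_left₀ hX (V.v.nonneg _) two_ne_zero)
      (by positivity) (zero_lt_one.trans (x1.trans_le (not_lt.1 e)))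
    linarith
  have f1 := fa X _ fun y e => by
    rw [sub_eq_add_neg, bLocA_add_eq V.na (by rw [V.v.map_neg, e]; exact lt)]
  obtain ⟨A, B, hR⟩ := POLY_ok _ hp.ne_zero
  rw [← (BPR_ok _ A B hR n2).2] at f1
  have p0 : 0 < V.v (xc X) ^ (V.l ^ 2 - 1) := by positivity
  have q0 : (V.l : Zw) • X ≠ 0 := fun e => by
    rw [(hR.zero X0).1 e, map_zero] at f1
    exact (mul_pos (pow_pos l0 2) p0).ne f1
  have ht := hR.ht V o3 (xc X)
  rw [max_eq_right x1.le, nn_nat, ← Nat.sub_add_cancel (pow_pos V.hl.out.pos 2), pow_succ',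
    hR.val q0, map_mul, f1, ← mul_assoc, max_eq_iff] at ht
  have e : V.v (xc ((V.l : Zw) • X)) * V.v V.l ^ 2 = V.v (xc X) := by
    refine mul_right_cancel₀ p0.ne' (ht.resolve_right fun e => ?_).1
    have := mul_right_cancel₀ p0.ne' e.1
    nlinarith
  have z3 := (E1_xz (E1m eX V.l).1 q0).1
  refine (pow_left_inj₀ (V.v.nonneg _) (by positivity) two_ne_zero).1 ?_
  linear_combination (-V.v (zz ((V.l : Zw) • X)) ^ 2) * z2 - V.v (zz X) ^ 2 *
    V.v (zz ((V.l : Zw) • X)) ^ 2 * e + V.v V.l ^ 2 * V.v (zz X) ^ 2 * z3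

end Pool.Agent.MP_e23604_nt.Z.G
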