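import Pool.Agent.MP_e23604_nt.Z.Defs
import Pool.Agent.MP_e23604_nt.W.A0

/-!
Weights on pairs of Eisenstein integers and their transfer: definitions and statements.
-/

set_option autoImplicit false

open Finset QuadraticAlgebra
open scoped Classical BigOperators

namespace Pool.Agent.MP_e23604_nt.Z

open W Un

/-! ### The transfer -/

/-- the transfer of a weight to pairs of integers -/
noncomputable def tf (N : ℕ) (Φ : Zw → ℂ) (c d : ℤ) : ℂ :=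
  if IsCoprime (Int.gcd c d : ℤ) N then
    if c = 0 then et d * (Complex.I * (Real.sqrt 3 : ℝ) / N) * Φ 0
    else et (Int.gcd c d) * (c / (Int.gcd c d : ℕ)) * Mn fun b => Φ b * ex (d * nw b / (c * N))
  else 0

/-- the additive character modulo `l` -/
noncomputable def eZ {l : ℕ} (x : ZMod l) : ℂ := ex (x.val / l)

/-- the weight at the auxiliary prime -/
noncomputable def XL (N : ℕ) {l : ℕ} [Fact l.Prime] (ρ : Zw →+* ZMod l) (w : ZMod l → ℂ) (a : Zw)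
    (c d : ℤ) : ℂ :=
  ∑ ξ : ZMod l, if ρ (star a) = ξ * c then w ξ * eZ ((d : ZMod l) * ξ * ρ a * (N : ZMod l)⁻¹) else 0

/-- the global weight -/
noncomputable def XX (N : ℕ) {l : ℕ} [Fact l.Prime] (ρ : Zw →+* ZMod l) (w : ZMod l → ℂ)
    (Ψ : Zw → Zw → ℂ) (a : Zw) (c d : ℤ) : ℂ := tf N (Ψ a) c d * XL N ρ w a c d

/-- the Fourier transform in two variables -/
noncomputable def FF2 (N : ℕ) (Ψ : Zw → Zw → ℂ) (a b : Zw) : ℂ :=
  Fo N (fun y => Fo N (Ψ y) (-b)) a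

/-- weights in two variables with the transformation laws -/
structure Wl (N j : ℕ) (Ψ : Zw → Zw → ℂ) : Prop where
  pa : ∀ b, PN N fun a => Ψ a b
  pb : ∀ a, PN N (Ψ a)
  lawT : ∀ a b, Ψ a b ≠ 0 → ex ((nw a - nw b) / N) = ex (1 / 3)
  lawU : ∀ a b, FF2 N Ψ a b ≠ 0 → ex (3 * (nw a - nw b) / N) = ex (j / 3)
  zero : ∀ a, FF2 N Ψ a 0 = 0

/-! ### The weights -/

/-- the components of the weight of a matrix -/
noncomputable def ph1 (i e : ℤ) (v : Fin 4 → ℤ) : ℂ :=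
  if v 0 * v 3 % 3 = 1 then ex ((i * v 3 * v 1 + e * v 3 * v 2) / 3) else 0

/-- the cubic character -/
noncomputable def cx (r : ℕ) (κ : Zw → ZMod 3) (t : Zw) : Zw :=
  if IsCoprime t (3 * r) then ω ^ (κ t).val else 0

/-- the twisted average -/
noncomputable def Ps (r : ℕ) (κ : Zw → ZMod 3) (φ : (Fin 4 → ℤ) → ℂ) (a b : Zw) : ℂ :=
  ∑ t ∈ Rs (N0 r), ∑ u ∈ Rs (N0 r),
    iz (ω ^ (κ u - κ t).val) * onM r φ (star u * a * t) (star u * b * star t)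

/-- functions of period three -/
def P3 {R : Type} (φ : (Fin 4 → ℤ) → R) : Prop := ∀ v w : Fin 4 → ℤ, φ (v + 3 • w) = φ v

/-! ### The coefficient -/

/-- the numbers of norm `m` -/
noncomputable def el (m : ℕ) : Finset Zw := (bl (m + 1)).filter fun a => nn a = m

/-- the part of `n` made of primes that divide `N` -/
def nS (N n : ℕ) : ℕ := Nat.gcd n (N ^ n)

/-- the local density -/
noncomputable def Bs {R : Type} [CommRing R] (N : ℕ) (Φ : Zw → R) (n : ℕ) : R :=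
  if h : ∃ u : Zw, (N : ℤ) ∣ nw u + (n / nS N n : ℕ) then ∑ s ∈ el (nS N n), Φ (s * h.choose)
  else 0

/-- the coefficient of the weight of `ξ` -/
noncomputable def be {R : Type} [CommRing R] (N : ℕ) {l : ℕ} (ρ : Zw →+* ZMod l)
    (Ψ : Zw → Zw → R) (ξ : ZMod l) : R :=
  ∑ a ∈ bl (N * l / 3), Bs N (Ψ a) (N * l / 3 - nn a) *
    ∑ c ∈ ((N * l / 3 - nn a) / nS N (N * l / 3 - nn a)).divisors,
      if ρ (star a) = ξ * c ∧ ξ * ρ a + ((N * l / 3 - nn a) / c : ℕ) = 0 then (et c : R) else 0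

/-- the number of ideals of norm `m` -/
def rh (m : ℕ) : ℤ := ∑ c ∈ m.divisors, et c

/-- sums over the numbers of given norm do not depend on the unit -/
def Ind {R : Type} [CommRing R] (N : ℕ) (Φ : Zw → R) : Prop := ∀ (m : ℕ) (u u' : Zw),
  IsCoprime (nw u) N → (N : ℤ) ∣ nw u - nw u' → ∑ s ∈ el m, Φ (s * u) = ∑ s ∈ el m, Φ (s * u')

/-! ### Basic lemmas -/

theorem et_mul (m n : ℤ) : et (m * n) = et m * et n := by
  unfold et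
  rw [Int.mul_emod]
  have h1 : m % 3 = 0 ∨ m % 3 = 1 ∨ m % 3 = 2 := by omega
  have h2 : n % 3 = 0 ∨ n % 3 = 1 ∨ n % 3 = 2 := by omega
  rcases h1 with h | h | h <;> rcases h2 with h' | h' | h' <;> simp [h, h']

theorem et_neg (n : ℤ) : et (-n) = -et n := by
  unfold et
  split_ifs <;> omega

theorem et_one : et 1 = 1 := rfl

theorem et_congr {m n : ℤ} (h : 3 ∣ m - n) : et m = et n := by
  unfold et
  rw [show m % 3 = n % 3 by omega]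

theorem mem_el {m : ℕ} {a : Zw} : a ∈ el m ↔ nn a = m := by
  rw [el, mem_filter, mem_bl]
  omega

theorem nw_int (n : ℤ) : nw n = n ^ 2 := by simp

theorem nw_neg (a : Zw) : nw (-a) = nw a := by simp [nw_def]

theorem nn_star (a : Zw) : nn (star a) = nn a := by rw [nn, nw_star, nn]

/-- the norm respects congruences -/
theorem nw_congr {n : ℤ} {a b : Zw} (h : (n : Zw) ∣ a - b) : n ∣ nw a - nw b := by
  obtain ⟨z, hz⟩ := h
  rw [show a = b + n * z by linear_combination hz, nw_add, nw_mul, nw_int, star_mul, star_intCast,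
    ← mul_assoc, mul_comm _ (n : Zw), trw_int_mul]
  exact ⟨trw (b * star z) + n * nw z, by ring⟩

theorem int_dvd_int {m n : ℤ} : (m : Zw) ∣ n ↔ m ∣ n :=
  ⟨fun ⟨z, hz⟩ => ⟨z.re, by simpa using congrArg QuadraticAlgebra.re hz⟩,
    fun ⟨z, hz⟩ => ⟨z, by rw [hz, Int.cast_mul]⟩⟩

theorem cop_star {a b : Zw} (h : IsCoprime a b) : IsCoprime (star a) (star b) :=
  h.map (starRingEnd Zw)

theorem cop_iff {a : Zw} {n : ℤ} : IsCoprime a n ↔ IsCoprime (nw a) n := by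
  refine ⟨fun h => ?_, fun h => ?_⟩
  · have h2 := cop_star h
    rw [star_intCast] at h2
    obtain ⟨u, v, e⟩ := h.mul_left h2
    rw [mul_star_eq] at e
    exact ⟨u.re, v.re, by simpa using congrArg QuadraticAlgebra.re e⟩
  · have h2 := h.map (Int.castRingHom Zw)
    rw [eq_intCast, eq_intCast, ← mul_star_eq] at h2
    exact h2.of_mul_left_left

theorem ex_crt {u v m n : ℤ} (x : ℂ) (hm : m ≠ 0) (hn : n ≠ 0) (h : u * n + v * m = 1) :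
    ex (x / (m * n)) = ex (u * x / m) * ex (v * x / n) := by
  have h1 : (m : ℂ) ≠ 0 := by exact_mod_cast hm
  have h2 : (n : ℂ) ≠ 0 := by exact_mod_cast hn
  have h3 : (u : ℂ) * n + v * m = 1 := by exact_mod_cast h
  rw [← ex_add]
  congr 1
  field_simp
  linear_combination (-x) * h3

theorem ex_mod {x y n : ℤ} (h : n ∣ x - y) : ex (x / n) = ex (y / n) := by
  obtain ⟨k, hk⟩ := h
  by_cases hn : n = 0
  · simp [hn]
  have h1 : (n : ℂ) ≠ 0 := by exact_mod_cast hn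
  refine ex_congr k ?_
  rw [show x = y + n * k by linear_combination hk]
  push_cast
  field_simp

theorem eZ_int {l : ℕ} [NeZero l] (n : ℤ) : eZ (n : ZMod l) = ex (n / l) := by
  have : (l : ℤ) ∣ (((n : ZMod l).val : ℕ) : ℤ) - n := by
    rw [← ZMod.intCast_zmod_eq_zero_iff_dvd]
    simp
  simpa [eZ] using ex_mod this

theorem eZ_add {l : ℕ} [NeZero l] (x y : ZMod l) : eZ (x + y) = eZ x * eZ y := by
  obtain ⟨x, rfl⟩ := ZMod.intCast_surjective x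
  obtain ⟨y, rfl⟩ := ZMod.intCast_surjective y
  rw [← Int.cast_add, eZ_int, eZ_int, eZ_int, ← ex_add, Int.cast_add, add_div]

theorem eZ_zero {l : ℕ} : eZ (0 : ZMod l) = 1 := by simp [eZ, ex_zero]

theorem eZ_eq_one {l : ℕ} [NeZero l] {x : ZMod l} : eZ x = 1 ↔ x = 0 := by
  obtain ⟨x, rfl⟩ := ZMod.intCast_surjective x
  rw [eZ_int, ZMod.intCast_zmod_eq_zero_iff_dvd, ← Int.cast_natCast,
    ex_div_eq_one (by exact_mod_cast NeZero.ne l)]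

/-- orthogonality -/
theorem eZ_sum {l : ℕ} [Fact l.Prime] (x : ZMod l) :
    ∑ y : ZMod l, eZ (y * x) = if x = 0 then (l : ℂ) else 0 := by
  split_ifs with h
  · simp [h, eZ_zero]
  · have e : ∑ y : ZMod l, eZ (y * x) = eZ x * ∑ y : ZMod l, eZ (y * x) := by
      rw [mul_sum]
      exact (Fintype.sum_equiv (Equiv.addLeft 1) _ _ fun y => by
        rw [← eZ_add, Equiv.coe_addLeft, add_mul, one_mul]).symm
    exact (mul_eq_zero.1 (show (eZ x - 1) * _ = 0 by linear_combination -e)).resolve_left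
      (sub_ne_zero.2 fun e => h (eZ_eq_one.1 e))

/-- splitting of the exponential -/
theorem ex_split {N l : ℕ} [Fact l.Prime] (hN : N ≠ 0) (h : (N : ℤ) ∣ l - 1) (x : ℤ) :
    ex (x / (N * l : ℕ)) = ex (x / N) * eZ ((x : ZMod l) * (N : ZMod l)⁻¹) := by
  obtain ⟨k, hk⟩ := h
  have e : (N : ZMod l)⁻¹ = ((-k : ℤ) : ZMod l) := by
    have := congrArg (Int.cast : ℤ → ZMod l) hk
    push_cast at this ⊢
    rw [ZMod.natCast_self] at this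
    exact inv_eq_of_mul_eq_one_right (by linear_combination this)
  have := ex_crt (u := 1) (v := -k) (m := N) (n := l) x (by exact_mod_cast hN)
    (by exact_mod_cast NeZero.ne l) (by linear_combination hk)
  rw [e, ← Int.cast_mul, eZ_int]
  simpa [mul_comm] using this

theorem rho_nw {l : ℕ} (ρ : Zw →+* ZMod l) (a : Zw) : ρ a * ρ (star a) = nw a := by
  rw [← map_mul, mul_star_eq, map_intCast]

theorem PN_Fo {N : ℕ} (g : Zw → ℂ) : PN N (Fo N g) := by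
  rintro x z ⟨y, hy⟩
  unfold Fo
  congr 2
  ext t
  congr 1
  have h3 : 3 * trw (z * star t) = N * trw (-(pw * y * star t)) := by
    rw [← Int.cast_natCast] at hy
    rw [← trw_int_mul, ← trw_int_mul]
    congr 1
    push_cast at hy ⊢
    linear_combination (-pw * star t) * hy + z * star t * pw_sq
  have h4 : trw (-(pw * y * star t)) = 3 * (y * star t).im := by
    rw [mul_assoc]
    generalize y * star t = s
    simp [trw, pw]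
    ring
  rw [← Int.cast_natCast N]
  refine ex_mod ⟨(y * star t).im, ?_⟩
  rw [add_mul, trw_add]
  rw [h4] at h3
  linarith

theorem sum_Rs {N : ℕ} (hN : N ≠ 0) {f : Zw → ℂ} (h : ∀ x y, f (x + N * y) = f x) :
    (AP fun t : Zw => if IsCoprime t (N : Zw) then f t else 0) ∧
      ∑ t ∈ Rs N, f t = N ^ 2 * Mn fun t : Zw => if IsCoprime t (N : Zw) then f t else 0 := by
  have h1 := Mn_zw (f := fun t : Zw => if IsCoprime t (N : Zw) then f t else 0) hN fun x y => by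
    simp only [h, IsCoprime.add_mul_left_left_iff]
  refine ⟨h1.1, ?_⟩
  rw [h1.2, Rs, sum_filter, sum_image fun p _ q _ e => by
    simpa [Prod.ext_iff, QuadraticAlgebra.ext_iff] using e]
  have : (N : ℂ) ≠ 0 := by exact_mod_cast hN
  field_simp

/-- change of variables in sums over prime residue classes -/
theorem sum_Rs_mul {N : ℕ} (hN : N ≠ 0) {f : Zw → ℂ} (h : ∀ x y, f (x + N * y) = f x) {u : Zw}
    (hu : IsCoprime u N) : ∑ t ∈ Rs N, f (t * u) = ∑ t ∈ Rs N, f t := by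
  rw [(sum_Rs hN h).2, (sum_Rs hN (f := fun t => f (t * u)) fun x y => by
    rw [add_mul, mul_assoc, h]).2, ← Mn_comp (sum_Rs hN h).1 (AddMonoidHom.mulRight u)]
  · simp [IsCoprime.mul_left_iff, hu]
  · intro b
    obtain ⟨x, y, e⟩ := hu
    refine ⟨b * x, fun t => ?_⟩
    rw [AddMonoidHom.mulRight_apply, show b * x * u - b = N * -(b * y) by linear_combination b * e]
    simp only [h, IsCoprime.add_mul_left_left_iff]

theorem mem_Rs {N : ℕ} {t : Zw} (h : t ∈ Rs N) : IsCoprime t N := (mem_filter.1 h).2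

theorem one_mem_Rs {N : ℕ} (h : 1 < N) : (1 : Zw) ∈ Rs N :=
  mem_filter.2 ⟨mem_image.2 ⟨(1, 0), by simp; omega, rfl⟩, isCoprime_one_left⟩

/-- the index of a principal ideal -/
theorem index_mul {s : Zw} (h : s ≠ 0) : (AddMonoidHom.mulLeft s).range.index = nn s := by
  rw [← QUO_pf s h, AddSubgroup.index]
  have : (AddMonoidHom.mulLeft s).range = (Ideal.span {s}).toAddSubgroup := by
    ext x
    simp [Ideal.mem_span_singleton, dvd_def, eq_comm]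
  rw [this]
  rfl

theorem N0_ne {r : ℕ} (h : r ≠ 0) : N0 r ≠ 0 := by simp [N0, h]

theorem N0_dvd (r : ℕ) : 3 ∣ N0 r := ⟨27 * r ^ 2, by rw [N0]; ring⟩

theorem cop_N0 {r : ℕ} {t : Zw} : IsCoprime t (N0 r) ↔ IsCoprime t (3 * r) := by
  rw [N0]
  push_cast
  refine ⟨fun h => h.of_isCoprime_of_dvd_right ⟨27 * r, by ring⟩, fun h => ?_⟩
  exact (h.pow_right (n := 4)).of_isCoprime_of_dvd_right ⟨r ^ 2, by ring⟩

/-! ### Statements: the transfer -/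

/-- the Gauss sum of the norm form -/
def GAU_st : Prop := ∀ c u : ℤ, IsCoprime c (3 * u) → c ≠ 0 →
  (Mn fun y : Zw => ex (u * nw y / c)) = et c / c

/-- elementary properties of the transfer -/
def TFB_st : Prop := ∀ (N : ℕ) (c d : ℤ), N ≠ 0 → 3 ∣ N →
  (∀ x : ℤ, PN N fun b => ex (x * nw b / N)) ∧
  (∀ Φ, AP Φ → c ≠ 0 → AP fun b => Φ b * ex (d * nw b / (c * N))) ∧
  (∀ (Φ : Zw → ℂ) (k : ℤ), tf N Φ c (d + k * c) = tf N (fun b => Φ b * ex (k * nw b / N)) c d) ∧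
  (∀ Φ, tf N Φ (-c) (-d) = -tf N Φ c d) ∧
  (∀ Φ, AP Φ → tf N (fun b => Φ (-b)) c d = tf N Φ c d) ∧
  (∀ (Φ : Zw → ℂ) (k : ℂ), AP Φ → tf N (fun b => k * Φ b) c d = k * tf N Φ c d) ∧
  (∀ Φ Φ', AP Φ → AP Φ' → tf N (fun b => Φ b + Φ' b) c d = tf N Φ c d + tf N Φ' c d) ∧
  ∀ F : Zw × Zw → ℂ, AP F → (AP fun y => tf N (fun b => F (y, b)) c d) ∧
    tf N (fun b => Mn fun y => F (y, b)) c d = Mn fun y => tf N (fun b => F (y, b)) c d

/-- the reciprocity law of the transfer -/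
def TFS_st : Prop := ∀ (N : ℕ) (Φ : Zw → ℂ) (c d : ℤ), N ≠ 0 → 3 ∣ N → PN N Φ →
  tf N Φ (-d) c = Complex.I * tf N (Fo N Φ) c d

/-- the local formula for the transfer -/
def TFL_st : Prop := ∀ (N : ℕ) (Φ : Zw → ℂ) (c₁ c₂ u d : ℤ) (k : ℕ), N ≠ 0 → 3 ∣ N → PN N Φ →
  c₁ ∣ N ^ k → c₂ ≠ 0 → c₁ * N ∣ u * c₂ - 1 →
  tf N Φ (c₁ * c₂) d = if IsCoprime d c₁ then
    et c₂ * c₁ * Mn fun b => Φ b * ex (d * u * nw b / (c₁ * N)) else 0

/-- the transfer is periodic -/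
def TFP_st : Prop := ∀ (N : ℕ) (Φ : Zw → ℂ) (c d : ℤ), N ≠ 0 → 3 ∣ N → PN N Φ →
  tf N Φ (c + N) d = tf N Φ c d ∧ tf N Φ c (d + N) = tf N Φ c d

/-- the laws of the weight at the auxiliary prime -/
def XLL_st : Prop := ∀ (N l : ℕ) [Fact l.Prime] (ρ : Zw →+* ZMod l) (w : ZMod l → ℂ) (a : Zw)
  (c d : ℤ), l ≠ 3 → (N : ZMod l) ≠ 0 → (∀ x, w (-x) = w x) →
  (∀ k : ℤ, XL N ρ w a c (d + k * c) =
    eZ (((k * nw a : ℤ) : ZMod l) * (N : ZMod l)⁻¹) * XL N ρ w a c d) ∧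
  XL N ρ w a (-c) (-d) = XL N ρ w a c d ∧
  (∀ (z : Zw) (k k' : ℤ), XL N ρ w (a + l * z) (c + l * k) (d + l * k') = XL N ρ w a c d) ∧
  (l * Mn fun y => XL N ρ w y (-d) c * eZ ((trw (a * star y) : ZMod l) * (N : ZMod l)⁻¹)) =
    XL N ρ w a c d

/-- the global weights form a system -/
def SYS_st : Prop := ∀ (N l j : ℕ) [Fact l.Prime] (ρ : Zw →+* ZMod l) (w : ZMod l → ℂ)
  (Ψ : Zw → Zw → ℂ), N ≠ 0 → 3 ∣ N → (N : ℤ) ∣ l - 1 → (∀ x, w (-x) = w x) → Wl N j Ψ →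
  Sys (N * l) j (XX N ρ w Ψ) (XX N ρ w (FF2 N Ψ))

/-! ### Statements: the weights -/

/-- the algebra of the matrices -/
def MTL_st : Prop := ∀ r : ℕ, r ≠ 0 →
  (∀ a b v v', Mx r a b v → Mx r a b v' → v = v') ∧
  (∀ a b v, Mx r a b v ↔
    a = 3 * (v 1 + v 3 * e2 r - star (e2 r) * (v 0 + 3 * v 2 * e2 r)) ∧
    b = -3 * (v 1 + v 3 * e2 r - e2 r * (v 0 + 3 * v 2 * e2 r))) ∧
  (∀ a b v, Mx r a b v → nw a - nw b = 27 * r ^ 2 * (v 0 * v 3 - 3 * v 1 * v 2)) ∧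
  (∀ a b v a' b' v', Mx r a b v → Mx r a' b' v' → Mx r (a + a') (b + b') (v + v')) ∧
  (∀ a b v (n : ℤ), Mx r a b v → Mx r (n * a) (n * b) (n • v)) ∧
  (∀ z z' : Zw, (N0 r : Zw) ∣ pw * z → (N0 r : Zw) ∣ pw * z' → ∃ v, Mx r z z' (3 • v)) ∧
  (∀ a b (n : ℤ), IsCoprime n (3 * r) → (∃ v, Mx r (n * a) (n * b) v) → ∃ v, Mx r a b v) ∧
  (∀ a v, Mx r a 0 v → a = mu r * (v 0 + 3 * v 2 * e2 r) ∧ v 1 = -9 * r ^ 2 * v 2 ∧
    v 3 = v 0 - 9 * r * v 2) ∧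
  ∀ (R : Type) [Zero R] (φ : (Fin 4 → ℤ) → R), (∀ a b v, Mx r a b v → onM r φ a b = φ v) ∧
    (P3 φ → ∀ a b z z', (N0 r : Zw) ∣ pw * z → (N0 r : Zw) ∣ pw * z' →
      onM r φ (a + z) (b + z') = onM r φ a b)

/-- the character -/
def CXL_st : Prop := ∀ (r : ℕ) (κ : Zw → ZMod 3) (e : ZMod 3), Ch r κ e →
  (∀ u v, cx r κ (u * v) = cx r κ u * cx r κ v) ∧ (∀ u, cx r κ (star u) = star (cx r κ u)) ∧
  (∀ u z, cx r κ (u + 9 * r * z) = cx r κ u) ∧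
  (∀ u : Zw, IsCoprime u (3 * r) → cx r κ u * star (cx r κ u) = 1) ∧
  (∀ n : ℤ, cx r κ n = if IsCoprime n (3 * r) then 1 else 0) ∧
  (∀ u, IsUnit u → cx r κ u = 1) ∧
  (∀ t u : Zw, IsCoprime t (3 * r) → IsCoprime u (3 * r) →
    (ω : Zw) ^ (κ u - κ t).val = cx r κ u * star (cx r κ t)) ∧
  ∃ e' : ℤ, ¬ 3 ∣ e' ∧ (∀ n : ℤ, iz (ω ^ (e * n).val) = ex (e' * n / 3)) ∧
    ∀ x y : ℤ, IsCoprime (x + 3 * y * e2 r : Zw) (3 * r) →
      iz (cx r κ (x + 3 * y * e2 r)) = ex (e' * x * y / 3)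

/-- the laws of the twisted average -/
def PSA_st : Prop := ∀ (r : ℕ) (κ : Zw → ZMod 3) (e : ZMod 3) (φ : (Fin 4 → ℤ) → ℂ), Ch r κ e →
  P3 φ → (∀ b, PN (N0 r) fun a => Ps r κ φ a b) ∧ (∀ a, PN (N0 r) (Ps r κ φ a)) ∧
  (∀ a b t : Zw, IsCoprime t (3 * r) →
    Ps r κ φ (a * t) (b * star t) = iz (cx r κ t) * Ps r κ φ a b ∧
    Ps r κ φ (a * t) (b * t) = iz (cx r κ t) * Ps r κ φ a b ∧
    Ps r κ φ a (b * star t) = Ps r κ φ a (b * t)) ∧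
  ((∀ v, φ v ≠ 0 → v 0 * v 3 % 3 = 1) →
    ∀ a b, Ps r κ φ a b ≠ 0 → ex ((nw a - nw b) / (N0 r : ℕ)) = ex (1 / 3))

/-- the components of the geometric weight -/
def PSE_st : Prop := ∀ (r : ℕ) (κ : Zw → ZMod 3) (e : ZMod 3) (e' : ℤ), r ≠ 0 →
  (∀ n : ℤ, iz (ω ^ (e * n).val) = ex (e' * n / 3)) → (∀ i, P3 (ph1 i e')) ∧ P3 (wt e) ∧
  (∀ a b, iz (Psi r κ e a b) = Ps r κ (fun v => iz (wt e v)) a b) ∧
  (∀ a b, 3 * pw ∣ a → Psi r κ e a b = 0) ∧ ∃ β : ℂ, β ≠ 0 ∧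
    ∀ a b, iz (Psi r κ e a b) = β * Ps r κ (ph1 1 e') a b + -β * Ps r κ (ph1 (-1) e') a b

/-- the support of the Fourier transform of a component -/
def PSG_st : Prop := ∀ (r : ℕ) (i e : ℤ) (a b : Zw), r ≠ 0 → ¬ 3 ∣ e →
  (Mn fun p : Zw × Zw => onM r (ph1 i e) p.1 p.2 *
    ex ((trw (a * star p.1) - trw (b * star p.2)) / (N0 r : ℕ))) ≠ 0 →
  ex (3 * (nw a - nw b) / (N0 r : ℕ)) = ex (-(i * e) / 3) ∧ ¬ (N0 r : Zw) ∣ b

/-- the Fourier transform of the twisted average -/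
def PSF_st : Prop := ∀ (r : ℕ) (κ : Zw → ZMod 3) (e : ZMod 3) (i e' : ℤ) (j : ℕ) (β : ℂ),
  Ch r κ e → ¬ 3 ∣ e' → 3 ∣ i * e' + j → Wl (N0 r) j fun a b => β * Ps r κ (ph1 i e') a b

/-- the values on the first axis -/
def PSZ_st : Prop := ∀ (r : ℕ) (κ : Zw → ZMod 3) (e : ZMod 3) (i e' : ℤ), Ch r κ e →
  (∀ x y : ℤ, IsCoprime (x + 3 * y * e2 r : Zw) (3 * r) →
    iz (cx r κ (x + 3 * y * e2 r)) = ex (e' * x * y / 3)) →
  (∀ a, ¬ mu r ∣ a → Ps r κ (ph1 i e') a 0 = 0) ∧ ∃ β : ℂ, β ≠ 0 ∧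
    ∀ α, Ps r κ (ph1 i e') (mu r * α) 0 = β * iz (cx r κ α)

/-! ### Statements: the coefficient -/

/-- Ramanujan sums -/
def RAM_st : Prop := ∀ (R : ℕ) (x : ℤ), R ≠ 0 →
  ∑ c ∈ R.divisors, (c * Mn fun d : ℤ => if IsCoprime d c then ex (d * x / c) else 0) =
    if (R : ℤ) ∣ x then (R : ℂ) else 0

/-- numbers of norm one -/
def H90_st : Prop := ∀ (N : ℕ) (v : Zw), N ≠ 0 → 3 ∣ N → (N : ℤ) ∣ nw v - 1 →
  ∃ t ε : Zw, IsCoprime t N ∧ (ε = 1 ∨ ε = -1) ∧ (N : Zw) ∣ v * t - ε * star t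

/-- the independence of the unit -/
def IND_st : Prop := ∀ (R : Type) [CommRing R] (N : ℕ) (Φ : Zw → R), N ≠ 0 → 3 ∣ N →
  (∀ x y, Φ (x + N * y) = Φ x) → (∀ b t : Zw, IsCoprime t N → Φ (b * star t) = Φ (b * t)) →
  Ind N Φ

/-- divisors of given norm -/
def FCT_st : Prop := ∀ (R : ℕ) (m : ℤ) (y : Zw), R ≠ 0 → nw y = R * m → IsCoprime (R : ℤ) m →
  ((el R).filter (· ∣ y)).card = 6

/-- the parts of a number -/
def NSL_st : Prop := ∀ N n : ℕ, N ≠ 0 → n ≠ 0 → nS N n ∣ n ∧ nS N n ∣ N ^ n ∧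
  (n / nS N n).Coprime N ∧ (nS N n).Coprime (n / nS N n) ∧
  ∀ m, m.Coprime N → m ∣ n → nS N (n / m) = nS N n ∧ m ∣ n / nS N n

/-- the local density -/
def DEN_st : Prop := ∀ N : ℕ, N ≠ 0 → 3 ∣ N → ∃ κ : ℂ, κ ≠ 0 ∧ ∀ (Φ : Zw → ℂ) (n : ℕ),
  PN N Φ → Ind N Φ → n ≠ 0 →
  (nS N n * Mn fun b => if (nS N n * N : ℤ) ∣ nw b + n then Φ b else 0) = κ * Bs N Φ n

/-- the coefficient, one term -/
def COA_st : Prop := ∀ (N l : ℕ) [Fact l.Prime] (ρ : Zw →+* ZMod l) (w : ZMod l → ℂ) (Φ : Zw → ℂ)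
  (a : Zw) (c₁ c₂ n k : ℕ) (u : ℤ), N ≠ 0 → 3 ∣ N → (N : ℤ) ∣ l - 1 →
  (∀ p : ℕ, p.Prime → p ∣ N → ∀ x, w (p * x) = w x) → PN N Φ →
  (∀ b, Φ b ≠ 0 → (N : ℤ) ∣ nw b + n) → n ≠ 0 → c₁ * c₂ ∣ n → c₁ ∣ N ^ k →
  (c₁ * N : ℤ) ∣ u * c₂ - 1 →
  (Mn fun d : ℤ => tf N Φ (c₁ * c₂ : ℕ) d * XL N ρ w a (c₁ * c₂ : ℕ) d *
    ex (d * (n / (c₁ * c₂) : ℕ) / (N * l : ℕ))) =
  et c₂ * (Mn fun b => Φ b * (c₁ * Mn fun d : ℤ =>
    if IsCoprime d c₁ then ex (d * (u * ((nw b + n) / N) : ℤ) / c₁) else 0)) *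
  ∑ ξ : ZMod l, if ρ (star a) = ξ * c₂ ∧ ξ * ρ a + (n / c₂ : ℕ) = 0 then w ξ else 0

/-- the coefficient -/
def COE_st : Prop := ∀ N : ℕ, N ≠ 0 → 3 ∣ N → ∃ κ : ℂ, κ ≠ 0 ∧ ∀ (l : ℕ) [Fact l.Prime]
  (ρ : Zw →+* ZMod l) (w : ZMod l → ℂ) (Ψ : Zw → Zw → ℂ), (N : ℤ) ∣ l - 1 →
  (∀ p : ℕ, p.Prime → p ∣ N → ∀ x, w (p * x) = w x) → (∀ a, PN N (Ψ a)) → (∀ a, Ind N (Ψ a)) →
  (∀ a b, Ψ a b ≠ 0 → ex ((nw a - nw b) / N) = ex (1 / 3)) →
  co (N * l) (XX N ρ w Ψ) = κ * ∑ ξ : ZMod l, w ξ * be N ρ Ψ ξ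

/-- numbers prime to a split prime -/
def RPL_st : Prop := ∀ (ϖ : Zw) (p v m : ℕ), p.Prime → p ≠ 3 → nn ϖ = p → ¬ p ∣ m →
  ((el (p ^ v * m)).filter fun y => ¬ ϖ ∣ y).card = (el m).card

/-- the number of representations -/
def REP_st : Prop := ∀ m : ℕ, ¬ 3 ∣ m → ((el m).card : ℤ) = 6 * rh m

/-- the tame derivative of the divisor sum -/
def DLG_st : Prop := ∀ (R : Type) [CommRing R] (L : ℕ → R) (n : ℕ), n % 3 = 2 →
  (∀ x y, x * y ∣ n → L (x * y) = L x + L y) → rh n = 0 ∧ ∑ c ∈ n.divisors, (et c : R) * L c =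
    -∑ q ∈ n.primeFactors with q % 3 = 2,
      L q * ((1 + (n / q).factorization q / 2 : ℕ) * (rh (n / q) : R))

/-- logarithms -/
structure Lgz (N : ℕ) {l : ℕ} {R : Type} [CommRing R] (L : ZMod l → R) : Prop where
  add : ∀ x y, x ≠ 0 → y ≠ 0 → L (x * y) = L x + L y
  bad : ∀ p : ℕ, p.Prime → p ∣ N → L p = 0

/-- the sum over the residue classes, one term -/
def SMA_st : Prop := ∀ (R : Type) [CommRing R] (l : ℕ) [Fact l.Prime] (ρ : Zw →+* ZMod l)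
  (F : ZMod l → R) (a : Zw) (n m v m₃ : ℕ), n ≠ 0 → m ∣ n → m = l ^ v * m₃ → ¬ l ∣ m₃ →
  ¬ l ∣ n / m → l % 3 = 1 → ((n : ZMod l) + nw a = 0) → (ρ a ≠ 0 ∨ ρ (star a) ≠ 0) →
  ∑ ξ ∈ univ.erase (0 : ZMod l), F ξ * (∑ c ∈ m.divisors,
    if ρ (star a) = ξ * c ∧ ξ * ρ a + (n / c : ℕ) = 0 then (et c : R) else 0) =
  ∑ c ∈ m₃.divisors, (et c : R) * F (if ρ (star a) ≠ 0 then ρ (star a) / c
    else -((n / l ^ v : ℕ) : ZMod l) / ρ a / c)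

/-- the count of the second variable -/
def SMB_st : Prop := ∀ (N l q : ℕ) (lam f a : Zw) (Φ : Zw → Zw) (n v m₃ : ℕ), N ≠ 0 → 3 ∣ N →
  l.Prime → l ≠ 3 → nn lam = l → q.Coprime N → q ≠ l → q.Prime → Ind N Φ → (N : ℤ) ∣ nw f + q →
  n ≠ 0 → q ∣ n → n / nS N n = l ^ v * m₃ → ¬ l ∣ m₃ → l.Coprime N → l ∣ n + nn a →
  ¬ (lam ∣ a ∧ star lam ∣ a) →
  ∑ y ∈ el (n / q) with ¬ (lam ∣ a ∧ lam ∣ y) ∧ ¬ (star lam ∣ a ∧ star lam ∣ y), Φ (y * f) =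
    rh (m₃ / q) * Bs N Φ n

/-- the sum identity, one term -/
def SMC_st : Prop := ∀ (R : Type) [CommRing R] (φ : Zw →+* R) (N l : ℕ) [Fact l.Prime] (lam a : Zw)
  (ρ : Zw →+* ZMod l) (Φ : Zw → Zw) (n : ℕ), N ≠ 0 → 3 ∣ N → (N : ℤ) ∣ l - 1 → nn lam = l →
  (∀ x, ρ x = 0 ↔ lam ∣ x) → Ind N Φ → n ≠ 0 → l ∣ n + nn a → ¬ (lam ∣ a ∧ star lam ∣ a) →
  Bs N Φ n * ∑ ξ ∈ univ.erase (0 : ZMod l), (∑ c ∈ (n / nS N n).divisors,
    if ρ (star a) = ξ * c ∧ ξ * ρ a + (n / c : ℕ) = 0 then (et c : Zw) else 0) = 0 ∧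
  ∀ (L : ZMod l → R) (f : ℕ → Zw), Lgz N L →
    (∀ q : ℕ, q.Prime → q % 3 = 2 → ¬ q ∣ N → N ∣ nn (f q) + q) →
    φ (Bs N Φ n) * ∑ ξ ∈ univ.erase (0 : ZMod l), L ξ * (∑ c ∈ (n / nS N n).divisors,
      if ρ (star a) = ξ * c ∧ ξ * ρ a + (n / c : ℕ) = 0 then (et c : R) else 0) =
    ∑ q ∈ n.primeFactors with q % 3 = 2 ∧ ¬ q ∣ N,
      ∑ y ∈ el (n / q) with ¬ (lam ∣ a ∧ lam ∣ y) ∧ ¬ (star lam ∣ a ∧ star lam ∣ y),
        L q * (1 + (nn y).factorization q / 2 : ℕ) * φ (Φ (y * f q))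

/-- the sum identity -/
def SUM_st : Prop := ∀ (R : Type) [CommRing R] (φ : Zw →+* R) (r l : ℕ) [Fact l.Prime] (lam : Zw)
  (ρ : Zw →+* ZMod l) (Ψ : Zw → Zw → Zw), r ≠ 0 → (N0 r : ℤ) ∣ l - 1 → nn lam = l →
  (∀ x, ρ x = 0 ↔ lam ∣ x) → (∀ a, Ind (N0 r) (Ψ a)) → (∀ b, Ψ 0 b = 0) →
  ∑ ξ ∈ univ.erase (0 : ZMod l), be (N0 r) ρ Ψ ξ = 0 ∧
  ∀ (L : ZMod l → R) (f : ℕ → Zw), Lgz (N0 r) L → Fq r f →
    ∑ ξ ∈ univ.erase (0 : ZMod l), L ξ * φ (be (N0 r) ρ Ψ ξ) = ∑ x ∈ Tr r lam,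
      L x.1 * (1 + (nn x.2.2).factorization x.1 / 2 : ℕ) * φ (Ψ x.2.1 (x.2.2 * f x.1))

end Pool.Agent.MP_e23604_nt.Z
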