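import Pool.Agent.MP_e23604_nt.Z.GS
import Pool.Agent.MP_e23604_nt.Z.CD

set_option autoImplicit false

open Finset QuadraticAlgebra Polynomial
open scoped Classical

namespace Pool.Agent.MP_e23604_nt.Z.G

open B R S W Un

variable {r : ℕ}

theorem c9_GTOR {t : Zw} : IsCoprime t (9 * r) ↔ IsCoprime t (3 * r) :=
  ⟨fun h => h.of_isCoprime_of_dvd_right ⟨3, by ring⟩, fun h =>
    (h.pow_right (n := 2)).of_isCoprime_of_dvd_right ⟨r, by ring⟩⟩

theorem n0_GTOR : (9 * r : Zw) ∣ N0 r := ⟨9 * r, by rw [N0]; push_cast; ring⟩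

theorem cu_GTOR {u : Zw} (h : IsUnit u) (b : Zw) : IsCoprime u b :=
  isCoprime_one_left.of_isCoprime_of_dvd_left h.dvd

theorem gen_GTOR {M t : Zw} {G : Pt} (h : Gen M G) (ht : IsCoprime t M) : Gen M (t • G) :=
  fun b => by
    rw [← mul_smul, h]
    exact ⟨ht.symm.dvd_of_dvd_mul_right, fun e => e.mul_right t⟩

theorem ex_GTOR (h0 : (9 * r : Zw) ≠ 0) {t : Zw} (ht : IsCoprime t (3 * r)) :
    ∃ g ∈ GK, ∃ u, IsUnit u ∧ (9 * r : Zw) ∣ ps (9 * r) g - u * t := by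
  obtain ⟨u, hu, e⟩ := ex_pry (a := t) fun e =>
    pw_prime.not_isUnit (ht.isUnit_of_dvd' e (pw_dvd3.mul_right _))
  obtain ⟨g, hg, e'⟩ := W.SURJ_ok _ _ h0 e ((cu_GTOR hu _).mul_left (c9_GTOR.2 ht))
  exact ⟨g, hg, u, hu, (((PS_ok _ h0).1 g hg).2.2.2.2.1 _).1 e'⟩

theorem avg_GTOR (hRSM : RSM_st) (h0 : r ≠ 0) {A : Type} [AddCommMonoid A] {Φ : Zw → A}
    (h1 : ∀ t t' : Zw, IsCoprime t (3 * r) → (9 * r : Zw) ∣ t - t' → Φ t = Φ t')
    (h2 : ∀ u t : Zw, IsUnit u → IsCoprime t (3 * r) → Φ (u * t) = Φ t) :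
    (Xs (UM (9 * r)) GK).card • ∑ t ∈ Rs (N0 r), Φ t =
      (Rs (N0 r)).card • ∑ y ∈ Xs (UM (9 * r)) GK, Φ (ps (9 * r) y) := by
  have h9 : (9 * r : Zw) ≠ 0 := mul_ne_zero (by decide) (Nat.cast_ne_zero.2 h0)
  have hX := Xs_trv (UM_open h9) (UM_le _)
  have hP := (PS_ok _ h9).1
  have hc : ∀ g ∈ GK, IsCoprime (ps (9 * r) g) (3 * r) := fun g hg => c9_GTOR.1 (hP g hg).2.1
  rw [← sum_const, ← sum_const, ← sum_congr rfl fun y hy =>
    (hRSM (N0 r) (mul_ne_zero (by decide) (pow_ne_zero 2 h0))).2.2 A Φ _ (cop_N0.2 (hc y (hX.1 y hy)))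
      fun t t' a b => h1 t t' (cop_N0.1 a) (n0_GTOR.trans b), sum_comm]
  refine sum_congr rfl fun t ht => ?_
  have ht := cop_N0.1 (mem_Rs ht)
  obtain ⟨g, hg, u, hu, e⟩ := ex_GTOR h9 ht
  rw [← hX.sum_mul (F := fun y => Φ (ps (9 * r) y)) (fun y hy v hv => ?_) hg]
  · refine sum_congr rfl fun y hy => ?_
    have hy := hX.1 y hy
    rw [← h2 u _ hu ((hc y hy).mul_left ht)]
    refine (h1 _ _ (hc _ (GK.mul_mem hg hy)) ?_).symm
    have := ((hP g hg).2.2.2.2.2.1 y hy).add (e.mul_right (ps (9 * r) y))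
    rwa [show ∀ a b c d f : Zw, a - b * c + (b - d * f) * c = a - d * (c * f) by intros; ring] at this
  · refine h1 _ _ (hc _ (GK.mul_mem hy hv.1)) ?_
    have := ((hP y hy).2.2.2.2.2.1 v hv.1).add
      (((hP v hv.1).2.2.2.1.1 hv).mul_left (ps (9 * r) y))
    rwa [show ∀ a b c : Zw, a - b * c + b * (c - 1) = a - b by intros; ring] at this

theorem TOR_pf (hHGA : HGA_st) (hSCL : SCL_st) (hRSM : RSM_st) (hLVD : LVD_st) : TOR_st := by
  intro χ κ r e G _ hκ hL hG t1 t2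
  have h0 : r ≠ 0 := hκ.sf.ne_zero
  have h9 : (9 * r : Zw) ≠ 0 := mul_ne_zero (by decide) (Nat.cast_ne_zero.2 h0)
  have hP := (PS_ok _ h9).1
  have g0 := (hG _).2 dvd_rfl
  have un : ∀ u t : Zw, IsUnit u → IsCoprime t (3 * r) → hq r ⊥ ((u * t) • G) = hq r ⊥ (t • G) := by
    intro u t hu ht
    have k := gen_GTOR hG (c9_GTOR.2 ht)
    rw [mul_smul]
    generalize t • G = Q at k
    rw [← lv_pt, ← (hSCL _ u ((3 * e2 r) • Q) Q
      (hLVD r _ 0 0 h0 hκ.n3 (gen_GTOR k (cu_GTOR hu _))).2.1.1 hu.ne_zero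
      (by simp only [lv, zero_smul, add_zero, smul_comm u]) (by simp [lv])).2, Lv.pt, hq]
    congr 1
    ext P
    simp only [lv, qC, sup_bot_eq, AddSubgroup.mem_comap, AddSubgroup.mem_zmultiples_iff,
      DistribSMul.toAddMonoidHom_apply, ← smul_comm u, hu.smul_left_cancel]
  have k1 : κ 1 = 0 := by simpa using hκ.int 1 (by simpa using isCoprime_one_left)
  have uw : IsUnit (ω : Zw) := .of_mul_eq_one (ω ^ 2) (by decide)
  have kw : ∀ i : ℕ, κ (ω ^ i) = 0 := fun i => by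
    induction i with
    | zero => rwa [pow_zero]
    | succ i ih => rw [pow_succ, hκ.add _ _ (cu_GTOR (uw.pow i) _) (cu_GTOR uw _), ih, hκ.w, add_zero]
  have ku : ∀ u t : Zw, IsUnit u → IsCoprime t (3 * r) → κ (u * t) = κ t := fun u t hu ht => by
    rw [hκ.add _ _ (cu_GTOR hu _) ht, add_eq_right]
    obtain ⟨i, rfl | rfl⟩ := unit6 hu
    · exact kw i
    · have := hκ.int (-1) (cu_GTOR (by simp) _)
      rw [Int.cast_neg, Int.cast_one] at this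
      rw [← neg_one_mul, hκ.add _ _ (cu_GTOR isUnit_one.neg _) (cu_GTOR (uw.pow i) _), this, kw,
        add_zero]
  have key : ∀ (f : ZMod 3 → ZMod 3) (χ' : GQ → ZMod 3), (∀ g, f (-χ g) = χ' g) →
      Tor (hv χ' r ⊥ G) → Tor (∑ t ∈ Rs (N0 r), (ω : Zw) ^ (f (κ t)).val • hq r ⊥ (t • G)) := by
    rintro f χ' hf ⟨n, n0, e⟩
    have hX := Xs_trv (UM_open h9) (UM_le _)
    obtain ⟨y, ⟨hy, -⟩, -⟩ := hX.2 1 GK.one_mem
    refine ⟨n * _, mul_ne_zero n0 (card_ne_zero_of_mem hy), ?_⟩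
    rw [mul_smul, avg_GTOR hRSM h0 (fun t t' a b => by rw [hκ.per t t' a b, smul_congr g0 b])
      (fun u t a b => by rw [ku u t a b, un u t a b]), smul_comm, sum_congr rfl fun y hy => by
        rw [hL y (hX.1 y hy), hf, ← (hP y (hX.1 y hy)).1 G g0], ← hv, e, smul_zero]
  refine ⟨fun t ht => ?_, ?_, ?_⟩
  · have ht := cop_N0.1 (mem_Rs ht)
    obtain ⟨g, hg, u, hu, e⟩ := ex_GTOR h9 ht
    obtain ⟨l1, ⟨l2, -⟩, -⟩ := hLVD r G 0 0 h0 hκ.n3 hG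
    refine ⟨g, hg, ?_⟩
    rw [← un u t hu ht, ← smul_congr g0 e, ← (hP g hg).1 G g0, ← lv_pt, ← lv_pt,
      ← AddSubgroup.map_bot (gal g), ← l1 ⊥ g hg, AddSubgroup.map_bot]
    exact (hHGA _ _ _ l2 g hg).2.symm
  · have hs : IsCoprime (1 + 3 * e2 r) (3 * r) := ⟨1, 1 - ω, by rw [e2]; ring⟩
    have := (hRSM (N0 r) (mul_ne_zero (by decide) (pow_ne_zero 2 h0))).2.2 Zw
      (fun t => (ω : Zw) ^ (-κ t).val) _ (cop_N0.2 hs)
      fun t t' a b => by rw [hκ.per t t' (cop_N0.1 a) (n0_GTOR.trans b)]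
    rw [sum_congr rfl fun t ht => by
      rw [hκ.add _ _ hs (cop_N0.1 (mem_Rs ht)), hκ.he, neg_add, w_add], ← mul_sum] at this
    exact eq_zero_of_mul_eq_self_left
      ((by decide : ∀ e : ZMod 3, e ≠ 0 → (ω : Zw) ^ (-e).val ≠ 1) e hκ.ne) this
  · obtain ⟨n, n0, e⟩ := key (fun a => -a) χ (fun g => neg_neg _) t1
    obtain ⟨m, m0, e'⟩ := key (fun a => a) _ (fun g => rfl) t2
    exact ⟨n * m, mul_ne_zero n0 m0, by rw [mul_comm, mul_smul, e, smul_zero],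
      by rw [mul_smul, e', smul_zero]⟩

end Pool.Agent.MP_e23604_nt.Z.G
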