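import Pool.Agent.MP_e23604_nt.Z.GTRA

/-!
Matrices give isomorphisms of level structures; the weights.
-/

set_option autoImplicit false

open Finset QuadraticAlgebra Polynomial
open scoped Classical

namespace Pool.Agent.MP_e23604_nt.Z.G

open B R S W Un

section

variable {r : ℕ} {lam : Zw} {V : Plc} {σ : GQ} {G₀ : Pt} {f : Zw}

theorem exc_TRB (h : Ax r lam) {u : Zw} (hu : IsCoprime u (N0 r)) :
    ∃ c e : ℤ, c * (nn lam * nn u) + e * (9 * r) = 1 := by
  have h1 : IsCoprime (nn u : ℤ) (N0 r : ℤ) :=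
    cop_TRA (mul_star_nn u ▸ hu.mul_left (cst_TRA hu))
  refine (h.copN.symm.mul_left h1).of_isCoprime_of_dvd_right ⟨9 * r, ?_⟩
  rw [N0]
  push_cast
  ring

theorem nine_TRB (h : Tx r lam V σ G₀ f) (u : Zw) (L : AddSubgroup Pt) (i j : ℕ) (m n : ℤ) :
    (9 * (m + n * e2 r) : Zw) • u • (9 * r * nn lam : Zw) • G₀ ∈
      (lv r L (u • (9 * r * nn lam : Zw) • G₀) i j).C := by
  refine AddSubgroup.mem_sup_left ⟨m, ?_⟩
  dsimp only
  rw [← Int.cast_smul_eq_zsmul Zw]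
  simp only [← mul_smul]
  exact h.gen.congr.2 ⟨-(n : Zw) * ((ω : Zw) - 1) * u, by rw [N0_cast, e2]; ring⟩

theorem lemA_TRB (hS : Sg V σ) (h : Tx r lam V σ G₀ f) {t u a b y w : Zw} {H : Pt} {c e : ℤ}
    (hu : IsCoprime u (N0 r)) (hc : c * (nn lam * nn u) + e * (9 * r) = 1)
    (hL : ∀ P : Pt, (nn lam : Zw) • P = 0 → be σ a b P ∈ AddSubgroup.zmultiples H)
    (hw : star u * a * t * y + star u * (b * f) * star t * star y = mu r * w) :
    be σ a b ((-pw * t * y) • G₀) - (c * w) • u • (9 * r * nn lam : Zw) • G₀ ∈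
      AddSubgroup.zmultiples H := by
  refine mem_TRA h.ax.copN ?_ ?_
  · have : N0 r • (c * w) • u • (9 * r * nn lam : Zw) • G₀ = 0 := by
      rw [← Nat.cast_smul_eq_nsmul Zw]
      simp only [← mul_smul]
      exact (h.gen _).2 ⟨c * w * u * 9 * r, by ring⟩
    rw [smul_sub, this, sub_zero, ← map_nsmul, ← Nat.cast_smul_eq_nsmul Zw]
    refine hL _ ?_
    simp only [← mul_smul]
    exact (h.gen _).2 ⟨-pw * t * y, by ring⟩
  · rw [be_TRA hS h]
    simp only [← mul_smul, ← sub_smul]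
    rw [h.gen, mul_comm, mul_dvd_mul_iff_left h.ax.l0]
    refine (cst_TRA hu).symm.dvd_of_dvd_mul_left ⟨w * e, ?_⟩
    have hc' : (c : Zw) * (nn lam * nn u) + e * (9 * r) = 1 := by exact_mod_cast hc
    simp only [star_mul', star_neg, star_pw, N0_cast, mu] at hw ⊢
    linear_combination -pw * hw - 3 * r * w * pw_sq - c * w * 9 * r * nn lam * mul_star_nn u -
      9 * r * w * hc'

theorem lemB_TRB (hS : Sg V σ) (h : Tx r lam V σ G₀ f) {t u a b : Zw} {H : Pt} {c e : ℤ}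
    {v : Fin 4 → ℤ} (i j : ℕ) (ht : IsCoprime t (N0 r)) (hu : IsCoprime u (N0 r))
    (hc : c * (nn lam * nn u) + e * (9 * r) = 1)
    (hL : ∀ P : Pt, (nn lam : Zw) • P = 0 → be σ a b P ∈ AddSubgroup.zmultiples H)
    (hv : Mx r (star u * a * t) (star u * (b * f) * star t) v) (m n : ℤ) (P : Pt)
    (hP : (mu r * nn lam) • P = (m + n * e2 r : Zw) • t • (9 * r * nn lam : Zw) • G₀)
    (y : Zw) (m₀ n₀ : ℤ)
    (hy : c * (m * (v 0 + 3 * v 2 * e2 r) + n * (v 1 + v 3 * e2 r)) = y + 9 * (m₀ + n₀ * e2 r)) :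
    be σ a b P - y • u • (9 * r * nn lam : Zw) • G₀ ∈
      (lv r (AddSubgroup.zmultiples H) (u • (9 * r * nn lam : Zw) • G₀) i j).C := by
  have r0 : (r : Zw) ≠ 0 := Nat.cast_ne_zero.2 h.ax.r0
  have k0 : mu r * nn lam ≠ 0 :=
    mul_ne_zero (mul_ne_zero (show 3 * pw ≠ 0 by decide) r0) h.ax.l0
  have kN : (N0 r * nn lam : Zw) = mu r * nn lam * (-9 * pw * r) := by
    rw [N0_cast, mu]
    linear_combination 27 * r ^ 2 * nn lam * pw_sq
  have e0 : (mu r * nn lam) • (P - (-pw * t * (m + n * e2 r)) • G₀) = 0 := by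
    rw [smul_sub, hP, p1_TRA, sub_self]
  obtain ⟨x, hx⟩ := (CYG_ok _ (kN ▸ mul_ne_zero k0
    (mul_ne_zero (show -9 * pw ≠ 0 by decide) r0))).2.1 _ h.gen _ (dvd_smul e0 ⟨_, kN⟩)
  rw [hx, ← mul_smul, h.gen, kN, mul_dvd_mul_iff_left k0] at e0
  obtain ⟨z, rfl⟩ := e0
  obtain ⟨α, γ, hα⟩ := ht
  obtain ⟨m', n', e'⟩ := ord_TRA r (α * z)
  have eP : P = (-pw * t * ((m + 9 * m' : ℤ) + (n + 9 * n' : ℤ) * e2 r)) • G₀ +
      (-9 * pw * r * γ * z * N0 r) • G₀ := by
    rw [sub_eq_iff_eq_add.1 hx, ← add_smul, ← add_smul]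
    congr 1
    push_cast
    linear_combination 9 * pw * r * z * hα - 9 * pw * t * e'
  have a1 := lemA_TRB hS h (t := t) (y := (m + 9 * m' : ℤ) + (n + 9 * n' : ℤ) * e2 r)
    (w := (m + 9 * m' : ℤ) * (v 0 + 3 * v 2 * e2 r) + (n + 9 * n' : ℤ) * (v 1 + v 3 * e2 r))
    hu hc hL (by
      simp only [star_add, star_mul', star_intCast]
      linear_combination ((m + 9 * m' : ℤ) : Zw) * hv.1 + ((n + 9 * n' : ℤ) : Zw) * hv.2)
  have a2 := hL ((-9 * pw * r * γ * z * N0 r) • G₀) (by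
    rw [← mul_smul]
    exact (h.gen _).2 ⟨-9 * pw * r * γ * z, by ring⟩)
  have a3 := nine_TRB h u (AddSubgroup.zmultiples H) i j (m₀ + c * (m' * v 0 + n' * v 1))
    (n₀ + c * (m' * 3 * v 2 + n' * v 3))
  have a4 : _ ∈ (lv r (AddSubgroup.zmultiples H) (u • (9 * r * nn lam : Zw) • G₀) i j).C :=
    AddSubgroup.mem_sup_right (add_mem a1 a2)
  convert add_mem a4 a3 using 1
  rw [eP, map_add, show y = c * (m * (v 0 + 3 * v 2 * e2 r) + n * (v 1 + v 3 * e2 r)) -
    9 * (m₀ + n₀ * e2 r) by linear_combination -hy]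
  push_cast
  module

/-- matrices give isomorphisms -/
theorem TRB_of (hs : SIG_st) (hl : LVD_st) : TRB_st := by
  intro r lam V σ G₀ f h t u a b H i j v ht hu hH hn hL hv hd hi hj
  have hS := hs V σ h.inr
  obtain ⟨c, e, hc⟩ := exc_TRB h.ax hu
  have B := lemB_TRB hS h i j ht hu hc hL hv
  have r0 : (r : Zw) ≠ 0 := Nat.cast_ne_zero.2 h.ax.r0
  have g1 : Gen (9 * r) ((9 * r * nn lam : Zw) • G₀) :=
    Gen.smul (by convert h.gen using 1; rw [N0_cast]; ring)
      (mul_ne_zero (mul_ne_zero (by decide) r0) h.ax.l0)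
  have d9 : (9 * r : Zw) ∣ N0 r := ⟨9 * r, by rw [N0_cast]; ring⟩
  obtain ⟨x, hx⟩ : ∃ x : ℤ, c = 3 * x + 1 := by
    obtain ⟨y, hy⟩ : ∃ x : ℤ, (nn lam : ℤ) * nn u = 3 * x + 1 := ⟨nn lam * nn u / 3, by
      have := Nat.mul_mod (nn lam) (nn u) 3
      rw [h.ax.l3, nn3_TRA hu] at this
      omega⟩
    exact ⟨-c * y - e * 3 * r, by linear_combination hc - c * hy⟩
  obtain ⟨d, hd'⟩ : ∃ d : ℤ, v 0 * v 3 = 3 * d + 1 :=
    ⟨_, by rw [← hd]; exact (Int.mul_ediv_add_emod _ 3).symm⟩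
  obtain ⟨i', hi⟩ := hi
  obtain ⟨j', hj⟩ := hj
  refine ⟨?_, fun P hP => ?_, fun P hP => ?_, c * v 0, fun k => ?_, fun P hP => ?_⟩
  · rw [(hl r _ 0 0 h.ax.r0 h.ax.n3 (g1.cop (ht.of_isCoprime_of_dvd_right d9))).2.1.2.1,
      ((hl r _ i j h.ax.r0 h.ax.n3 (g1.cop (hu.of_isCoprime_of_dvd_right d9))).2.2 lam H _ h.ax hH
        rfl).2.1, nq, hn, mu, nn_mul, nn_mul, nn_nat, nn_nat, show nn (3 * pw) = 27 by decide]
    ring
  · obtain ⟨_, ⟨m, rfl⟩, _, rfl, k⟩ := AddSubgroup.mem_sup.1 hP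
    simpa using B (9 * m) 0 P (by
      rw [← k]
      dsimp only
      rw [← Int.cast_smul_eq_zsmul Zw]
      push_cast
      module) 0 (c * m * v 0) (c * m * 3 * v 2) (by push_cast; ring)
  · obtain ⟨s, hs, s', k⟩ : ∃ s : ℤ, (s = 1 ∨ s = -1) ∧ ∃ s', v 3 = s + 3 * s' := by
      have : ¬ 3 ∣ v 3 := fun k => by
        have := k.mul_left (v 0)
        omega
      rcases (show v 3 % 3 = 1 ∨ v 3 % 3 = 2 by omega) with k | k
      exacts [⟨1, Or.inl rfl, v 3 / 3, by omega⟩, ⟨-1, Or.inr rfl, v 3 / 3 + 1, by omega⟩]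
    have ss : (s : Zw) * s = 1 := by rcases hs with rfl | rfl <;> simp
    have := B 0 3 P (by rw [hP]; simp [lv]) (s * (3 * e2 r + 3 * i))
      (x * v 1 + s * i' - s * s' * v 1) (x * v 3 + s') (by
        have hx' : (c : Zw) = 3 * x + 1 := by exact_mod_cast hx
        have hi' : (v 3 : Zw) * v 1 - i = 3 * i' := by exact_mod_cast hi
        have k' : (v 3 : Zw) = s + 3 * s' := by exact_mod_cast k
        push_cast
        linear_combination 3 * (v 1 + v 3 * e2 r) * hx' + 3 * s * hi' +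
          (3 * e2 r - 3 * s * v 1) * k' - 3 * v 1 * ss)
    rcases hs with rfl | rfl
    · left
      convert this using 2
      simp only [lv]
      rw [← Nat.cast_smul_eq_nsmul Zw i, ← Nat.cast_smul_eq_nsmul Zw 3]
      push_cast
      module
    · right
      rw [← sub_neg_eq_add]
      convert this using 2
      simp only [lv]
      rw [← Nat.cast_smul_eq_nsmul Zw i, ← Nat.cast_smul_eq_nsmul Zw 3]
      push_cast
      module
  · rcases Int.prime_three.dvd_or_dvd k with k | k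
    · omega
    · have := k.mul_right (v 3)
      omega
  · convert B 1 0 P (by rw [hP]; simp [lv]) (c * v 0 * (1 + j * (3 * e2 r))) 0
      (c * (v 0 * j' - d * v 2)) (by
        have hd' : (v 0 : Zw) * v 3 = 3 * d + 1 := by exact_mod_cast hd'
        have hj' : (v 3 : Zw) * v 2 - j = 3 * j' := by exact_mod_cast hj
        push_cast
        linear_combination 3 * c * e2 r * v 0 * hj' - 3 * c * e2 r * v 2 * hd') using 2
    simp only [lv]
    rw [← Int.cast_smul_eq_zsmul Zw, ← Nat.cast_smul_eq_nsmul Zw j]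
    push_cast
    module

theorem sum_TR1 (F : ℕ → Zw) (x : ℤ) :
    ∑ i ∈ range 3, F i * (if 3 ∣ x - i then 1 else 0) = F (x % 3).toNat := by
  rw [sum_eq_single_of_mem (x % 3).toNat (mem_range.2 (by omega)) fun i hi e => by
    rw [if_neg (by have := mem_range.1 hi; omega), mul_zero], if_pos (by omega), mul_one]

end

/-- the weights -/
theorem TR1_of (hs : SIG_st) (hl : LVD_st) : TR1_st := by
  intro r lam V σ G₀ f h
  have hS := hs V σ h.inr
  refine ⟨nf_TRA hS h, fun e t u a b H ht hu hH hn => ?_⟩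
  have A := fun i j => TRA_of hS h (i := i) (j := j) ht hu hH.zero hn
  have M := MTL_pf r h.ax.r0
  by_cases hL : ∀ P : Pt, (nn lam : Zw) • P = 0 → be σ a b P ∈ AddSubgroup.zmultiples H
  swap
  · rw [if_neg hL]
    exact sum_eq_zero fun i _ => sum_eq_zero fun j _ => by
      rw [if_neg fun k => hL (A i j k).1, mul_zero]
  rw [if_pos hL]
  by_cases hv : ∃ v, Mx r (star u * a * t) (star u * (b * f) * star t) v
  swap
  · rw [onM, dif_neg hv]
    exact sum_eq_zero fun i _ => sum_eq_zero fun j _ => by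
      rw [if_neg fun k => hv ((A i j k).2.imp fun _ => And.left), mul_zero]
  obtain ⟨v, hv⟩ := hv
  have hd := det_TRA hS h ht hu hn hv
  have k : ∀ i j : ℕ, (if Iso V σ (lv r ⊥ (t • (9 * r * nn lam : Zw) • G₀) 0 0)
      (lv r (AddSubgroup.zmultiples H) (u • (9 * r * nn lam : Zw) • G₀) i j) a b (mu r * nn lam)
      then 1 else 0 : Zw) = (if 3 ∣ v 3 * v 1 - i then 1 else 0) *
        if 3 ∣ v 3 * v 2 - j then 1 else 0 := fun i j => by
    rw [ite_zero_mul_ite_zero, one_mul]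
    refine if_congr ⟨fun k => ?_, fun k => ?_⟩ rfl rfl
    · obtain ⟨v', h1, h2⟩ := (A i j k).2
      rwa [M.1 _ _ _ _ hv h1]
    · exact TRB_of hs hl r lam V σ G₀ f h t u a b H i j v ht hu hH hn hL hv hd k.1 k.2
  simp only [k, mul_mul_mul_comm (et _ : Zw), ← sum_mul_sum]
  rw [sum_TR1 (fun i => (et i : Zw)), sum_TR1 fun j => (ω : Zw) ^ (e * j).val,
    (M.2.2.2.2.2.2.2.2 _ _).1 _ _ _ hv, wt, if_pos hd]
  have e1 : ∀ x : ℤ, et (x % 3).toNat = et x := fun x => by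
    unfold et
    rw [Int.toNat_of_nonneg (by omega), Int.emod_emod_of_dvd _ dvd_rfl]
  have e3 : ∀ x : ℤ, ((x % 3).toNat : ZMod 3) = x := fun x => by
    rw [← Int.cast_natCast, Int.toNat_of_nonneg (by omega)]
    exact ZMod.intCast_mod _ 3
  rw [e1, e3]

end Pool.Agent.MP_e23604_nt.Z.G
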