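import Pool.Agent.MP_e23604_nt.Z.GS
import Pool.Agent.MP_e23604_nt.Z.C0

set_option autoImplicit false

open Finset QuadraticAlgebra AddSubgroup
open scoped Classical

namespace Pool.Agent.MP_e23604_nt.Z.G

open B R S W Un

theorem mp_GTR2 (g h : GQ) (P : Pt) :
    (zmultiples (gal h P)).map (gal g) = zmultiples (gal (g * h) P) := by
  rw [AddMonoidHom.map_zmultiples, W.gal_mul]

theorem UL_GTR2 {r l : ℕ} {g u : GQ} {H : Pt} (hH : (l : Zw) • H = 0) (hu : u ∈ UL r l) :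
    zmultiples (gal (g * u) H) = zmultiples (gal g H) := by
  rw [← mp_GTR2, ← AddMonoidHom.map_zmultiples, hu.2 H hH, AddMonoidHom.map_zmultiples]

theorem TR2_pf (hS : SIG_st) : TR2_st := by
  intro r lam V σ H J a b ax hV hH hJ hn
  have sg := hS V σ hV
  have := Fact.mk ax.deg
  obtain ⟨ρ, hρ⟩ := ex_rho (lam := lam) rfl
  have l1 : nn lam % 3 = 1 := nn_mod3 ax.pp.2.pw
  have l3 : nn lam ≠ 3 := fun e => by omega
  have l0 : (nn lam : Zw) ≠ 0 := Nat.cast_ne_zero.2 ax.deg.ne_zero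
  have hρ' : ∀ x, ρ (star x) = 0 ↔ star lam ∣ x := fun x => by
    rw [hρ]
    exact ⟨fun ⟨y, h⟩ => ⟨star y, by rw [← star_star x, h, star_mul']⟩,
      fun ⟨y, h⟩ => ⟨star y, by rw [h, star_mul', star_star]⟩⟩
  have dl : ∀ x, (nn lam : Zw) ∣ x ↔ ρ x = 0 ∧ ρ (star x) = 0 := fun x => by
    rw [hρ, hρ', ← mul_star_nn]
    exact ⟨fun h => ⟨(dvd_mul_right _ _).trans h, (dvd_mul_left _ _).trans h⟩,
      fun h => (cop_conj ax.deg l3 rfl).mul_dvd h.1 h.2⟩
  have cp : ∀ x : Zw, IsCoprime x (nn lam) ↔ ρ x ≠ 0 ∧ ρ (star x) ≠ 0 := fun x => by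
    rw [← mul_star_nn, IsCoprime.mul_right_iff, isCoprime_comm, isCoprime_comm (x := x),
      ax.pp.1.coprime_iff_not_dvd, (prime_of_nn (nn_star lam ▸ ax.deg)).coprime_iff_not_dvd, Ne, Ne,
      hρ, hρ']
  have ql : ¬ nn lam ∣ V.l := fun e => by
    have := hV.l3
    rw [← (Nat.prime_dvd_prime_iff_eq ax.deg Fact.out).1 e] at this
    omega
  have cy := (CYG_ok _ l0).2.1 H hH
  obtain ⟨g, hg⟩ := cy (gal σ H) (by
    have := gal_star sg.nk (nn lam) H
    rw [hH.zero, map_zero] at this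
    simpa using this.symm)
  have q0 : ρ g * ρ (star g) = -V.l := by
    have := (sg.tt H ⟨_, fun e => ql ?_, hH.zero⟩).2
    · rw [hg, gal_star sg.nk, hg, ← mul_smul, ← neg_smul, hH.congr, dl] at this
      have := this.1
      simp only [map_sub, map_mul, map_neg, map_natCast] at this
      linear_combination this
    · have h1 := nn_dvd ((sg.ov _).1 e)
      rw [nn_nat, nn_nat, Nat.pow_dvd_pow_iff two_ne_zero] at h1
      rw [(Nat.prime_dvd_prime_iff_eq Fact.out ax.deg).1 h1]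
  have g0 : ρ g * ρ (star g) ≠ 0 := by
    rw [q0, neg_ne_zero, Ne, ZMod.natCast_eq_zero_iff]
    exact ql
  have dt : ρ a * ρ (star a) = ρ b * ρ g * (ρ (star b) * ρ (star g)) := by
    have := congrArg (Nat.cast : ℕ → ZMod (nn lam)) hn
    push_cast at this
    rw [ZMod.natCast_self, ← map_natCast ρ (nn a), ← map_natCast ρ (nn b), ← mul_star_nn,
      ← mul_star_nn, map_mul, map_mul] at this
    linear_combination this - ρ b * ρ (star b) * q0
  have ln : ∀ x u : Zw, IsCoprime u (nn lam) →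
      (x • H ∈ zmultiples (u • H) ↔ ρ x * ρ (star u) = ρ (star x) * ρ u) := fun x u hu => by
    have k : ∀ n : ℤ, n • u • H = x • H ↔ n * ρ u = ρ x ∧ n * ρ (star u) = ρ (star x) := fun n => by
      rw [← Int.cast_smul_eq_zsmul Zw, ← mul_smul, hH.congr, dl]
      simp [sub_eq_zero, mul_comm]
    simp only [mem_zmultiples_iff, k]
    refine ⟨fun ⟨n, a, b⟩ => by rw [← a, ← b]; ring, fun e => ?_⟩
    obtain ⟨n, hn⟩ := ZMod.intCast_surjective (ρ x / ρ u)
    have := ((cp u).1 hu).1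
    exact ⟨n, by rw [hn]; field_simp, by rw [hn]; field_simp; linear_combination e⟩
  have cd : ∀ u : Zw, IsCoprime u (nn lam) →
      ((∀ P : Pt, (nn lam : Zw) • P = 0 → be σ a b P ∈ zmultiples (u • H)) ↔
        ρ a * ρ (star u) = ρ (star b) * ρ (star g) * ρ u ∧
          ρ b * ρ g * ρ (star u) = ρ (star a) * ρ u) := fun u hu => by
    have k : ∀ x : Zw, be σ a b (x • H) ∈ zmultiples (u • H) ↔
        (ρ a * ρ x + ρ b * ρ g * ρ (star x)) * ρ (star u) =
          (ρ (star a) * ρ (star x) + ρ (star b) * ρ (star g) * ρ x) * ρ u := fun x => by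
      rw [be_apply, gal_star sg.nk, hg, ← mul_smul, ← mul_smul, ← mul_smul, ← add_smul, ln _ _ hu]
      simp only [star_add, star_mul', star_star, map_add, map_mul, mul_right_comm _ (ρ g),
        mul_right_comm _ (ρ (star g))]
    refine ⟨fun h => ?_, fun h P hP => ?_⟩
    · have k' := fun x => (k x).1 (h _ (by rw [smul_comm, hH.zero, smul_zero]))
      obtain ⟨x, a1, a2⟩ := rho_surj2 l3 ρ 1 0
      obtain ⟨y, a3, a4⟩ := rho_surj2 l3 ρ 0 1
      exact ⟨by simpa [a1, a2] using k' x, by simpa [a3, a4] using k' y⟩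
    · obtain ⟨x, rfl⟩ := cy P hP
      rw [k]
      linear_combination ρ x * h.1 + ρ (star x) * h.2
  have ac : ∀ y ∈ GK, gal y H = ps (nn lam) y • H ∧ IsCoprime (ps (nn lam) y) (nn lam) :=
    fun y hy => ⟨((PS_ok _ l0).1 y hy).1 H hH.zero, ((PS_ok _ l0).1 y hy).2.1⟩
  have g1 := left_ne_zero_of_mul g0
  have g2 := right_ne_zero_of_mul g0
  simp only [← hρ, ← hρ']
  split_ifs with h
  · obtain ⟨t, t0, t1, t2⟩ : ∃ t, t ≠ 0 ∧ ρ a * t = ρ (star b) * ρ (star g) ∧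
        ρ b * ρ g * t = ρ (star a) := by
      by_cases e : ρ a = 0
      · have b0 : ρ b * ρ g ≠ 0 := mul_ne_zero (fun e' => h.1 ⟨e, e'⟩) g1
        rw [e, zero_mul, eq_comm, mul_eq_zero, or_iff_right b0] at dt
        exact ⟨ρ (star a) / (ρ b * ρ g), div_ne_zero (fun e' => h.2 ⟨e', by simpa [g2] using dt⟩) b0,
          by rw [e, dt, zero_mul], mul_div_cancel₀ _ b0⟩
      · refine ⟨ρ (star b) * ρ (star g) / ρ a, div_ne_zero (fun e' => h.2 ⟨by simpa [e, e'] using dt,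
          by simpa [g2] using e'⟩) e, mul_div_cancel₀ _ e, ?_⟩
        field_simp
        linear_combination -dt
    have un : ∀ u : Zw, IsCoprime u (nn lam) → (ρ a * ρ (star u) = ρ (star b) * ρ (star g) * ρ u ∧
        ρ b * ρ g * ρ (star u) = ρ (star a) * ρ u ↔ ρ (star u) = t * ρ u) := fun u hu => by
      refine ⟨fun k => ?_, fun k => by rw [k, ← t1, ← t2]; constructor <;> ring⟩
      by_cases e : ρ a = 0
      · exact mul_left_cancel₀ (mul_ne_zero (fun e' => h.1 ⟨e, e'⟩) g1) (by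
          linear_combination k.2 - ρ u * t2)
      · exact mul_left_cancel₀ e (by linear_combination k.1 - ρ u * t1)
    have N0' : (N0 r : ZMod (nn lam)) ≠ 0 := fun e => ax.pp.1.not_isUnit (isUnit_of_dvd_one (by
      simpa using dvd_sub (dvd_refl lam) (((hρ (N0 r)).1 (by simpa using e)).trans ax.n0)))
    obtain ⟨z, z1, z2⟩ := rho_surj2 l3 ρ 0 ((t - 1) / N0 r)
    have u1 : ρ (1 + N0 r * z) = 1 ∧ ρ (star (1 + N0 r * z)) = t := by
      simp [z1, z2, mul_div_cancel₀ _ N0']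
    have u2 : IsCoprime (1 + N0 r * z) (nn lam : Zw) := (cp _).2 ⟨u1.1 ▸ one_ne_zero, u1.2 ▸ t0⟩
    obtain ⟨s, s1, s2⟩ := SURJ_ok (N0 r * nn lam) (1 + N0 r * z)
      (mul_ne_zero (Nat.cast_ne_zero.2 (N0_ne ax.r0)) l0)
      (by simpa [Pry] using (Nat.cast_dvd_cast (α := Zw) (N0_dvd r)).mul_right z)
      ((isCoprime_one_left.add_mul_left_left z).mul_right u2)
    have s3 : s ∈ UM (N0 r) := ⟨s1, fun P hP => by
      rw [s2 P (dvd_smul hP (dvd_mul_right _ _)), add_smul, one_smul, mul_comm, mul_smul, hP,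
        smul_zero, add_zero]⟩
    obtain ⟨y, ⟨y1, y2⟩, y3⟩ := hJ.2 s s3
    refine card_eq_one.2 ⟨y, eq_singleton_iff_unique_mem.2 ⟨mem_filter.2 ⟨y1, ?_⟩, fun x hx => ?_⟩⟩
    · rw [← UL_GTR2 hH.zero y2, mul_inv_cancel_left, s2 H (dvd_smul hH.zero (dvd_mul_left _ _)),
        cd _ u2, un _ u2, u1.1, u1.2, mul_one]
    · obtain ⟨x1, x2⟩ := mem_filter.1 hx
      have x3 := hJ.1 x x1
      have x4 := ac x x3.1
      rw [x4.1, cd _ x4.2, un _ x4.2] at x2
      obtain ⟨n, hn⟩ := mem_zmultiples_iff.1 ((ln (ps (nn lam) x) _ u2).2 (by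
        rw [x2, u1.1, u1.2]; ring))
      obtain ⟨m, hm⟩ := mem_zmultiples_iff.1 ((ln (1 + N0 r * z) _ x4.2).2 (by
        rw [x2, u1.1, u1.2]; ring))
      rw [← x4.1, ← s2 H (dvd_smul hH.zero (dvd_mul_left _ _))] at hn hm
      refine y3 x ⟨x1, mul_mem (inv_mem x3) s3, fun P hP => ?_⟩
      obtain ⟨c, rfl⟩ := cy P hP
      have : zmultiples (gal s (c • H)) = zmultiples (gal x (c • H)) := by
        rw [gal_smul s1, gal_smul x3.1]
        exact le_antisymm (zmultiples_le_of_mem ⟨m, by rw [← hm, smul_comm c]⟩)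
          (zmultiples_le_of_mem ⟨n, by rw [← hn, smul_comm c]⟩)
      rw [AddMonoidHom.map_zmultiples, ← mp_GTR2, this, mp_GTR2, inv_mul_cancel, W.gal_one]
  · refine card_eq_zero.2 (filter_eq_empty_iff.2 fun y hy => ?_)
    have y4 := ac y (hJ.1 y hy).1
    obtain ⟨y5, y6⟩ := (cp _).1 y4.2
    rw [y4.1, cd _ y4.2]
    intro k
    have : ρ a = 0 ∧ ρ b = 0 ∧ ρ (star a) = 0 ∧ ρ (star b) = 0 := by
      rw [not_and_or, not_not, not_not] at h
      rcases h with h | h <;> simp_all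
    obtain ⟨x, rfl⟩ := (dl a).2 ⟨this.1, this.2.2.1⟩
    obtain ⟨y, rfl⟩ := (dl b).2 ⟨this.2.1, this.2.2.2⟩
    rw [nn_mul, nn_mul, nn_nat] at hn
    have h1 : nn lam ∣ 27 * r ^ 2 := ⟨nn x + V.l * nn y, Nat.eq_of_mul_eq_mul_right ax.deg.pos (by
      rw [← hn]; ring)⟩
    exact (Nat.le_of_dvd (by have := ax.r0; positivity) h1).not_gt ax.big

end Pool.Agent.MP_e23604_nt.Z.G
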