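import Pool.Agent.MP_e23604_nt.Z.GTR2

set_option autoImplicit false

open Finset QuadraticAlgebra AddSubgroup
open scoped Classical

namespace Pool.Agent.MP_e23604_nt.Z.G

open B R S W Un

theorem w_GTRS : ∀ s t u : ZMod 3, (ω : Zw) ^ (s + u).val * ω ^ (-(s + t)).val =
    ω ^ (u - t).val := by decide

theorem TRS_pf (h1 : TR1_st) (h2 : TR2_st) (h3 : RSM_st) (h4 : LVD_st) (h5 : NRA_st) : TRS_st := by
  intro r lam V σ G₀ f tx κ e H X hc hH hX
  have ax := tx.ax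
  have n0 := N0_ne ax.r0
  have n1 : (N0 r : Zw) ≠ 0 := Nat.cast_ne_zero.2 n0
  have l0 : (nn lam : Zw) ≠ 0 := Nat.cast_ne_zero.2 ax.deg.ne_zero
  have r9 : (9 * r : Zw) ≠ 0 := mul_ne_zero (by decide) (Nat.cast_ne_zero.2 ax.r0)
  have d9 : (9 * r : Zw) ∣ N0 r := ⟨9 * r, by rw [N0]; push_cast; ring⟩
  have hG : Gen (9 * r) ((9 * r * nn lam : Zw) • G₀) := Gen.smul (by
    rw [show (9 * r * nn lam * (9 * r) : Zw) = N0 r * nn lam by rw [N0]; push_cast; ring]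
    exact tx.gen) (mul_ne_zero r9 l0)
  obtain ⟨-, c1, c2⟩ := h3 _ n0
  have k1 := (h1 _ _ _ _ _ _ tx).2 e
  set G := (9 * r * nn lam : Zw) • G₀
  set n := 27 * r ^ 2 * nn lam
  set Φ : GQ → Zw → Zw → Zw := fun y t u => ∑ i ∈ range 3, ∑ j ∈ range 3,
    (et i * (ω : Zw) ^ (e * j).val) * (li V σ (lv r ⊥ (t • G) 0 0)
      (lv r (zmultiples (gal y H)) (u • G) i j) (mu r * nn lam) n : ℕ) with hΦ
  have s1 : ∀ y ∈ X, ∑ u ∈ Rs (N0 r), ∑ i ∈ range 3, ∑ j ∈ range 3, ∑ t ∈ Rs (N0 r),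
      (ω : Zw) ^ (κ u).val * (et i * (ω : Zw) ^ (e * j).val) * (ω : Zw) ^ (-κ t).val *
        (li V σ ((lv r ⊥ (t • G) 0 0).mp y) ((lv r (zmultiples H) (u • G) i j).mp y)
          (mu r * nn lam) n : ℕ) =
      ∑ t ∈ Rs (N0 r), ∑ u ∈ Rs (N0 r), ω ^ (κ u - κ t).val * Φ y t u := fun y hy => by
    have p := (PS_ok _ n1).1 y (hX.1 y hy)
    have pe : ∀ {t t' : Zw}, IsCoprime t (N0 r) → (N0 r : Zw) ∣ t - t' →
        κ t = κ t' ∧ t • G = t' • G := fun a b =>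
      ⟨hc.per _ _ (cop_N0.1 a) (d9.trans b), hG.congr.2 (d9.trans b)⟩
    rw [← c2 _ (fun t => ∑ u ∈ Rs (N0 r), ω ^ (κ u - κ t).val * Φ y t u) _ p.2.1 fun t t' a b => by
      simp only [hΦ, pe a b], sum_congr rfl fun u _ => sum_congr rfl fun i _ => sum_comm,
      sum_congr rfl fun u _ => sum_comm, sum_comm]
    refine sum_congr rfl fun t ht => ?_
    rw [← c2 _ (fun u => ω ^ (κ u - κ _).val * Φ y _ u) _ p.2.1 fun t t' a b => by
      simp only [hΦ, pe a b]]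
    refine sum_congr rfl fun u hu => ?_
    have gn : ∀ t ∈ Rs (N0 r), Gen (9 * r) (t • G) ∧ gal y (t • G) = (ps (N0 r) y * t) • G :=
      fun t ht => ⟨hG.cop ((c1 t ht).of_isCoprime_of_dvd_right d9), by
        rw [p.1 _ (by rw [smul_comm, dvd_smul hG.zero d9, smul_zero]), mul_smul]⟩
    simp only [(h4 r _ _ _ ax.r0 ax.n3 (gn t ht).1).1 _ y (hX.1 y hy), (gn t ht).2,
      (h4 r _ _ _ ax.r0 ax.n3 (gn u hu).1).1 _ y (hX.1 y hy), (gn u hu).2, AddSubgroup.map_bot,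
      AddMonoidHom.map_zmultiples, hΦ, mul_sum, hc.add _ _ (cop_N0.1 p.2.1) (cop_N0.1 (c1 t ht)),
      hc.add _ _ (cop_N0.1 p.2.1) (cop_N0.1 (c1 u hu))]
    refine sum_congr rfl fun i _ => sum_congr rfl fun j _ => ?_
    have := w_GTRS 0 (κ t) (κ u)
    rw [add_sub_add_left_eq_sub, ← this, zero_add, zero_add]
    ring
  have s2 : ∀ y ∈ X, ∀ t ∈ Rs (N0 r), ∀ u ∈ Rs (N0 r), Φ y t u = ∑ p ∈ Sol V.l n,
      (if ∀ P : Pt, (nn lam : Zw) • P = 0 → be σ p.1 p.2 P ∈ zmultiples (gal y H) then 1 else 0) *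
        ((1 + (nn p.2).factorization V.l / 2 : ℕ) *
          onM r (wt e) (star u * p.1 * t) (star u * (p.2 * f) * star t)) := fun y hy t ht u hu => by
    simp only [hΦ, li, Nat.cast_sum, mul_sum, sum_comm (t := Sol V.l n)]
    refine sum_congr rfl fun p hp => ?_
    have := k1 t u p.1 p.2 _ (c1 t ht) (c1 u hu) (hH.gal (hX.1 y hy)) (mem_filter.1 hp).2.2
    rw [boole_mul, ← mul_ite_zero, ← this, mul_sum]
    refine sum_congr rfl fun i _ => ?_
    rw [mul_sum]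
    refine sum_congr rfl fun j _ => ?_
    split_ifs <;> simp [mul_comm]
  have s3 : ∀ p ∈ Sol V.l n, ∑ y ∈ X, (if ∀ P : Pt, (nn lam : Zw) • P = 0 →
      be σ p.1 p.2 P ∈ zmultiples (gal y H) then (1 : Zw) else 0) = ((UM (N0 r)).relIndex GK : ℕ) *
        if ¬ (lam ∣ p.1 ∧ lam ∣ p.2) ∧ ¬ (star lam ∣ p.1 ∧ star lam ∣ p.2) then 1 else 0 :=
    fun p hp => by
    have ul : UL r (nn lam) ≤ UM (N0 r) := fun _ h => h.1
    have t1 := Xs_trv (UM_open n1) (UM_le _)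
    have t2 := Xs_trv (h5 r lam ax).1.opn ul
    rw [t1.sum_tower t2 hX ul (UM_le _) fun g _ u hu => by rw [UL_GTR2 hH.zero hu], ← t1.card,
      ← nsmul_eq_mul, ← sum_const]
    refine sum_congr rfl fun x hx => ?_
    have a := t1.1 x hx
    have := h2 r lam V σ _ _ p.1 p.2 ax tx.inr (hH.gal a) t2 (mem_filter.1 hp).2.2
    rw [← Nat.cast_inj (R := Zw), Nat.cast_ite, Nat.cast_one, Nat.cast_zero, ← sum_boole] at this
    rw [← this]
    refine sum_congr rfl fun y hy => ?_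
    have b := (t2.1 y hy).1
    rw [W.gal_mul, ((PS_ok _ l0).1 y b).1 H hH.zero, gal_smul a,
      ((PS_ok _ l0).1 y b).1 _ (hH.gal a).zero]
  simp only [ls, Nat.cast_sum, mul_sum, sum_comm (t := X)]
  rw [sum_congr rfl s1, sum_filter, sum_congr rfl fun y hy => sum_congr rfl fun t ht =>
    sum_congr rfl fun u hu => by rw [s2 y hy t ht u hu]]
  simp only [mul_sum, sum_comm (t := Sol V.l n)]
  refine sum_congr rfl fun p hp => ?_
  simp only [mul_left_comm ((ω : Zw) ^ _), ← mul_sum, ← sum_mul]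
  rw [s3 p hp, Psi]
  split_ifs <;> simp

end Pool.Agent.MP_e23604_nt.Z.G
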