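import Pool.Agent.MP_e23604_nt.Z.GS

set_option autoImplicit false

open Finset QuadraticAlgebra Polynomial
open scoped Classical

namespace Pool.Agent.MP_e23604_nt.Z.G

open B R S W Un

theorem gcd_GUNQ {C : AddSubgroup Pt} (hC : (C : Set Pt).Finite) {k : ℕ} (k0 : k ≠ 0) {t : ℤ}
    (h : ∀ P : Pt, k • P ∈ C → t • P ∈ C) : (k : ℤ) ∣ t := by
  have g0 : Int.gcd t k ≠ 0 := fun e => k0 (by simpa using (Int.gcd_eq_zero_iff.1 e).2)
  have f1 := qC_fin (Nat.cast_ne_zero.2 k0) hC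
  have f2 := qC_fin (Nat.cast_ne_zero.2 g0) hC
  have h1 : cd (qC k C) ≤ cd (qC (Int.gcd t k) C) := card_le_card fun P hP => by
    rw [mem_els f1, mem_qC, Nat.cast_smul_eq_nsmul] at hP
    rw [mem_els f2, mem_qC, Nat.cast_smul_eq_nsmul, ← natCast_zsmul, Int.gcd_eq_gcd_ab, add_zsmul,
      mul_comm t, mul_comm (k : ℤ), mul_zsmul, mul_zsmul, natCast_zsmul]
    exact C.add_mem (C.zsmul_mem (h P hP) _) (C.zsmul_mem hP _)
  rw [qC_cd (Nat.cast_ne_zero.2 k0) hC, qC_cd (Nat.cast_ne_zero.2 g0) hC, nn_nat, nn_nat,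
    Nat.mul_le_mul_right_iff (cd_pos hC), Nat.pow_le_pow_iff_left two_ne_zero] at h1
  have h2 : Int.gcd t k = k := le_antisymm (Nat.le_of_dvd (Nat.pos_of_ne_zero k0)
    (Int.natCast_dvd_natCast.1 (Int.gcd_dvd_right _ _))) h1
  exact h2 ▸ Int.gcd_dvd_left t k

theorem bez_GUNQ (u t : ℤ) (h : t = -1 ∨ t = 0 ∨ t = 1) :
    ∃ x y : ℤ, x * ((t - u) * u - 1) - 3 = 9 * y := by
  have k : ∀ u t : ZMod 9, t = -1 ∨ t = 0 ∨ t = 1 → ∃ x, x * ((t - u) * u - 1) - 3 = 0 := by decide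
  obtain ⟨x, e⟩ := k u t (by rcases h with rfl | rfl | rfl <;> simp)
  obtain ⟨x, rfl⟩ := ZMod.intCast_surjective x
  exact ⟨x, (ZMod.intCast_zmod_eq_zero_iff_dvd _ 9).1 (by push_cast; exact e)⟩

theorem UNQ_pf (hSIG : SIG_st) (hISA : ISA_st) : UNQ_st := by
  intro V σ d a b k hV hd hk h
  have S := hSIG V σ hV
  have k0 : k ≠ 0 := fun e => hk (by simp [e, Ov])
  have k1 : (k : Zw) ≠ 0 := Nat.cast_ne_zero.2 k0
  have hn : nq V a b = k ^ 2 := by
    rw [← nn_nat, Nat.eq_of_mul_eq_mul_left (cd_pos hd.ok.fin) h.nrm]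
  have cm : ∀ a b P, be σ a b ((k : Zw) • P) = (k : Zw) • be σ a b P := fun a b P => by
    simp only [Nat.cast_smul_eq_nsmul, map_nsmul]
  have ad : ∀ P, be σ a b P + be σ (star a) (-b) P = trw a • P := fun P => by
    rw [← Int.cast_smul_eq_zsmul Zw, trw_cast, be_apply, be_apply]
    module
  obtain ⟨t, ht⟩ := gcd_GUNQ hd.ok.fin k0 (t := trw a) fun P hP => by
    rw [← Nat.cast_smul_eq_nsmul Zw] at hP
    obtain ⟨Q, rfl⟩ := smul_onto k1 P
    have hQ := TT_of hk (TT_of hk (hd.le hP))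
    rw [← ad, cm (star a)]
    refine d.C.add_mem (h.ker _ hP) (((hISA V σ hV d d a b k).2.2.2 hd hd hk h).2.1 _
      (S.bt _ _ _ hQ) ?_)
    rwa [(S.ad a b Q hQ).2, hn, Nat.cast_pow, sq, mul_smul]
  have e : (k : ℤ) ^ 2 * t ^ 2 + 3 * a.im ^ 2 + 4 * (V.l * nn b) = 4 * k ^ 2 := by
    have := congrArg (Nat.cast : ℕ → ℤ) hn
    rw [nq, Nat.cast_add, nn_cast, nw_def] at this
    rw [trw] at ht
    push_cast at this
    linear_combination 4 * this - (2 * a.re - a.im + k * t) * ht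
  by_cases h1 : t = -1 ∨ t = 0 ∨ t = 1
  · obtain ⟨u, -, hu⟩ := h.hR
    obtain ⟨P, hP⟩ := smul_onto k1 d.R
    obtain ⟨Q, rfl⟩ := smul_onto k1 P
    have hQ := TT_of hk (TT_of hk (hP ▸ hd.R))
    have h2 := hu _ hP
    have h3 := h.ker (be σ a b Q - u • (k : Zw) • Q) (by
      rwa [smul_sub, ← cm, smul_comm, hP])
    have h4 := ad (be σ a b Q)
    rw [(S.ad a b Q hQ).1, hn, Nat.cast_pow, sq, mul_smul, hP, ht, mul_comm, mul_zsmul,
      natCast_zsmul, ← Nat.cast_smul_eq_nsmul Zw, ← cm, ← eq_sub_iff_add_eq] at h4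
    rw [map_sub, map_zsmul, h4] at h3
    obtain ⟨x, y, hx⟩ := bez_GUNQ u t h1
    refine absurd ?_ hd.ok.r3
    have h5 := d.C.sub_mem (d.C.zsmul_mem (d.C.sub_mem h3 (d.C.zsmul_mem h2 (t - u))) x)
      (d.C.zsmul_mem hd.ok.r9 y)
    refine (congrArg (· ∈ d.C) ?_).mp h5
    linear_combination (norm := module) hx • d.R
  · have h2 : 4 ≤ t ^ 2 := by
      rcases le_or_gt t (-2) with h | h
      · nlinarith
      · nlinarith [show 2 ≤ t by omega]
    have h3 := mul_le_mul_of_nonneg_left h2 (sq_nonneg (k : ℤ))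
    have h4 : (0 : ℤ) ≤ V.l * nn b := by positivity
    have h5 : a.im = 0 := by nlinarith [sq_nonneg a.im]
    have h6 : V.l * nn b = 0 := by
      have : (V.l : ℤ) * nn b = 0 := by nlinarith [sq_nonneg a.im]
      exact_mod_cast this
    refine ⟨by_contra fun e => (mul_pos V.hl.out.pos (nn_pos e)).ne' h6, sq_eq_sq_iff_eq_or_eq_neg.1 ?_⟩
    rw [nq, h6, add_zero] at hn
    rw [← Nat.cast_pow, ← hn, ← mul_star_nn, sq]
    congr 1
    ext <;> simp [h5]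

end Pool.Agent.MP_e23604_nt.Z.G
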