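import Pool.Agent.MP_e23604_nt.Z.GS

set_option autoImplicit false

open Finset QuadraticAlgebra Polynomial
open scoped Classical

namespace Pool.Agent.MP_e23604_nt.Z.G

open B R S W Un

theorem UNR_pf (hSIG : SIG_st) (hISA : ISA_st) (hISB : ISB_st) (hUNQ : UNQ_st) : UNR_st := by
  intro V σ d d' a b k a' b' k' hV h1 h2 hk hk' i1 i2
  have hS := hSIG V σ hV
  have k0 := ne_of_not_Ov hk
  have k1 := ne_of_not_Ov hk'
  have k2 : star k ≠ 0 := star_ne_zero.2 k0
  have hn : ¬ Ov V (nq V a' b') := fun e =>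
    ((hISA V σ hV d d' a' b' k').2.2.2 h1 h2 hk' i2).1 ((hS.on a' b').1 e)
  have n0 := ne_of_not_Ov hn
  have i3 := ((hISA V σ hV d d _ _ _).2.2.1 _ k2).1
    ((hISB V σ hV).1 d d d' a b k a' b' k' h1 h1 h2 hk hk' i1 i2)
  have e0 : (nq V a' b' : Zw) * k * star k = (nq V a' b' * nn k : ℕ) := by
    rw [mul_assoc, mul_star_nn, Nat.cast_mul]
  rw [e0] at i3
  obtain ⟨e1, e2⟩ := hUNQ V σ d _ _ _ hV h1 (by
    rw [← e0, Ov_mul, Ov_mul, Ov, Ov, Ov, hS.vs]
    exact fun e => e.elim (fun e => e.elim hn hk) hk) i3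
  rw [star_star, mul_eq_zero, mul_eq_zero, or_iff_left k0, or_iff_right k1] at e1
  have e3 := congrArg star e1
  have e4 : (nq V a' b' : Zw) = a' * star a' + V.l * (b' * star b') := by
    rw [mul_star_nn, mul_star_nn, nq]
    push_cast
    rfl
  rw [← e0, ← neg_mul, mul_left_inj' k2, mul_left_inj' k2] at e2
  simp only [star_sub, star_mul, star_star, star_zero] at e3
  refine e2.imp (fun e => ?_) fun e => ?_ <;>
  · have e5 := congrArg star e
    simp only [star_add, star_mul, star_star, star_natCast, star_neg] at e5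
    constructor <;> apply mul_left_cancel₀ n0 <;> rw [e4] at *
    · first
      | linear_combination -a' * e + k' * V.l * b' * e3
      | linear_combination a' * e - k' * V.l * b' * e3
    · first
      | linear_combination -b' * e5 - star k' * a' * e1
      | linear_combination b' * e5 + star k' * a' * e1

end Pool.Agent.MP_e23604_nt.Z.G
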