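import Pool.Agent.MP_e23604_nt.Z.GS

set_option autoImplicit false

open Finset QuadraticAlgebra Polynomial
open scoped Classical

namespace Pool.Agent.MP_e23604_nt.Z.G

open B R S W Un

theorem VEL_pf (hVEL0 : VEL0_st) (hDEU : DEU_st) : VEL_st := by
  refine ⟨fun P _ => ?_, fun d h => ?_⟩
  · have w := w3_spec
    have h2 : da P * (1 - w3) = w3 ^ 2 * yc P - w3 :=
      div_mul_cancel₀ _ (sub_ne_zero.2 w3_ne_one.symm)
    have h3 : yc P = w3 ^ 2 + (w3 - w3 ^ 2) * da P := by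
      linear_combination -w3 * h2 + (1 - w3) * yc P * w
    have h4 := xy_eq P
    have h5 : da P ^ 3 - 27 * dc P = (da P - 1) ^ 3 := by
      rw [h3] at h4
      rw [dc]
      linear_combination -h4 + (w3 ^ 2 - w3 + 1 + (-2 * w3 ^ 2 + 4 * w3 - 3) * da P +
        (w3 ^ 2 - 3 * w3 + 3) * da P ^ 2) * w
    refine ⟨h5, ?_⟩
    rw [← h5]
    simp only [Wd, WeierstrassCurve.Δ, WeierstrassCurve.b₂, WeierstrassCurve.b₄,
      WeierstrassCurve.b₆, WeierstrassCurve.b₈]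
    ring
  obtain ⟨E, φ, r, hΔ, hs, hk, hx⟩ := hVEL0 d.C h.fin
  have hT : φ d.T = 3 • φ d.R := map_nsmul _ _ _
  have hv : ∀ P, P ∉ d.C → vX d.C d.T P = xw (φ P) - xw (3 • φ d.R) := fun P e => by
    rw [← hT, hx P e, hx d.T h.r3, vX_eq, add_sub_add_right_eq_sub]
  have k : ∀ P, 3 • P - 3 • d.R ∈ d.C → P ∉ d.C := fun P e e' =>
    h.r3 (by simpa using d.C.sub_mem (d.C.nsmul_mem e' 3) e)
  have k0 := hv d.R (k _ (by simp))
  have k1 := hv (d.R + d.T) (k _ (by convert h.r9 using 1; rw [Lv.T]; abel))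
  have k2 := hv (d.R - d.T) (k _ (by convert d.C.neg_mem h.r9 using 1; rw [Lv.T]; abel))
  obtain ⟨a, Ψ, b, c⟩ := hDEU E (φ d.S) (φ d.R) d.x1 d.x2 d.x3 d.x4 hΔ
    (by rw [← map_nsmul, hk]; exact h.r9) (by rw [← map_nsmul, hk]; exact h.s3)
    (by rw [← hT, Ne, hk]; exact h.r3) (mt (hk _).1 h.s0)
    (by rw [← hT, ← map_add, Ne, hk]; exact h.s1) (by rw [← hT, ← map_sub, Ne, hk]; exact h.s2)
    (hv _ h.s0) (by rw [← hT, ← map_add, hT]; exact hv _ h.s1)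
    (by rw [← hT, ← map_sub, hT]; exact hv _ h.s2)
    (by rw [Lv.x4, k0, k1, k2, map_add, map_sub, hT])
  refine ⟨a, Ψ.toAddMonoidHom.comp φ, Ψ.surjective.comp hs, fun P => ?_, fun P e => ?_, ?_⟩
  · exact Ψ.map_eq_zero_iff.trans (hk P)
  · rw [hv P e]
    exact b _ (mt (hk _).1 e)
  · exact (hT ▸ c :)

end Pool.Agent.MP_e23604_nt.Z.G
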