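import Pool.Agent.MP_e23604_nt.Z.GS

set_option autoImplicit false

open Finset QuadraticAlgebra Polynomial
open scoped Classical

namespace Pool.Agent.MP_e23604_nt.Z.G

open B R S W Un

theorem one_GVGR {a b : ℝ} (ha : a ≤ 1) (hb : b ≤ 1) (b0 : 0 ≤ b) (h : a * b = 1) : a = 1 := by
  rwa [le_antisymm hb (by nlinarith), mul_one] at h

theorem VGR_pf (hPARW : PARW_st) (hVUN : VUN_st) (hVEL : VEL_st) : VGR_st := fun V d hd => by
  have U := (hVUN d.C).2 V hd.fg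
  obtain ⟨-, r9, s3, r3, s0, s1, s2⟩ := id hd.ok
  have na := V.na
  have v3 := v_three hd.fg.n3
  have fr : ∀ (P X : Pt) (i j m a b : ℤ), X ∉ d.C → P = i • d.S + j • d.R →
      X = m • P + a • 9 • d.R + b • 3 • d.S → Fr V d.C P := fun P X i j m a b h e e' =>
    (U P).1 (by
      rw [show 9 • P = j • 9 • d.R + (3 * i) • 3 • d.S by rw [e]; module]
      exact add_mem (zsmul_mem r9 _) (zsmul_mem s3 _))
      fun k => h (e' ▸ add_mem (add_mem (zsmul_mem k _) (zsmul_mem r9 _)) (zsmul_mem s3 _))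
  have eT : d.T = 3 • d.R := rfl
  have fT : Fr V d.C d.T := fr _ _ 0 3 1 0 0 r3 (by rw [eT]; module) (by rw [eT]; module)
  have fS : Fr V d.C d.S := fr _ _ 1 0 1 0 0 s0 (by module) (by module)
  have f1 : Fr V d.C (d.S + d.T) := fr _ _ 1 3 1 0 0 s1 (by rw [eT]; module) (by rw [eT]; module)
  have f2 : Fr V d.C (d.S - d.T) :=
    fr _ _ 1 (-3) 1 0 0 s2 (by rw [eT]; module) (by rw [eT]; module)
  have df := fun P Q (h : Fr V d.C P) => ((U P).2.2.2 h).2.2.2.2 Q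
  have le := fun P (h : Fr V d.C P) => ((U P).2.2.2 h).2.1
  have lx : ∀ P, Fr V d.C P → V.v (vX d.C d.T P) ≤ 1 := fun P h =>
    bLocA_sub_le na (le P h) (le _ fT)
  have h1 : V.v d.x1 = 1 := df _ _ fS fT f2 f1
  have h2 : V.v d.x2 = 1 := df _ _ f1 fT (by rwa [add_sub_cancel_right])
    (fr _ _ 1 6 1 (-1) 0 s2 (by rw [eT]; module) (by rw [eT]; module))
  have h3 : V.v d.x3 = 1 := df _ _ f2 fT
    (fr _ _ 1 (-6) 1 1 0 s1 (by rw [eT]; module) (by rw [eT]; module)) (by rwa [sub_add_cancel])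
  have h12 : V.v (d.x1 - d.x2) = 1 := by
    rw [Lv.x1, Lv.x2, vX_eq, vX_eq, sub_sub_sub_cancel_right]
    exact df _ _ fS f1 (fr _ _ 0 (-3) (-1) 0 0 r3 (by rw [eT]; module) (by rw [eT]; module))
      (fr _ _ 2 3 (-1) 0 1 s2 (by rw [eT]; module) (by rw [eT]; module))
  have h13 : V.v (d.x1 - d.x3) = 1 := by
    rw [Lv.x1, Lv.x3, vX_eq, vX_eq, sub_sub_sub_cancel_right]
    exact df _ _ fS f2 (by rwa [sub_sub_cancel])
      (fr _ _ 2 (-3) (-1) 0 1 s1 (by rw [eT]; module) (by rw [eT]; module))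
  have h4 : V.v d.x4 ≤ 1 := bLocA_add_le na (bLocA_add_le na
    (lx _ (fr _ _ 0 1 3 0 0 r3 (by module) (by module)))
    (lx _ (fr _ _ 0 4 3 (-1) 0 r3 (by rw [eT]; module) (by rw [eT]; module))))
    (lx _ (fr _ _ 0 (-2) 3 1 0 r3 (by rw [eT]; module) (by rw [eT]; module)))
  have hk : V.v d.ka = 1 := by
    rw [Lv.ka, map_div₀, V.v.map_neg, map_mul, map_mul, h1, h2, h3, v_nine hd.fg.n3]
    norm_num
  obtain ⟨ρ, -⟩ := hVEL.2 d hd.ok
  obtain ⟨e, eΔ⟩ := hVEL.1 _ ρ.ne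
  have hc : V.v (dc d.pt) = 1 := by
    have := congrArg V.v ρ.r4
    rwa [map_mul, map_mul, V.v.map_neg, hk, h1, v3, one_mul, one_mul, eq_comm] at this
  have ec : xc d.pt ^ 3 = -3 ^ 3 * dc d.pt := by rw [dc]; ring
  have hx : V.v (xc d.pt) = 1 := by
    have := congrArg V.v ec
    rw [map_mul, V.v.map_neg, map_pow, map_pow, hc, v3, one_pow, one_mul] at this
    exact (pow_eq_one_iff_of_nonneg (V.v.nonneg _) three_ne_zero).1 this
  have ha1 : V.v (da d.pt - 1) = 1 := by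
    have := congrArg V.v (show d.ka ^ 2 * (d.x1 - d.x2) * (d.x1 - d.x3) =
      dc d.pt * (da d.pt - 1) ^ 2 by
        linear_combination (3 * (d.ka * d.x1 - 3 * dc d.pt) + 2 * da d.pt ^ 2 / 3) * ρ.r4 -
          2 * d.ka * d.x1 * ρ.r1 + ρ.r2 - dc d.pt * e)
    simp only [map_mul, map_pow, hk, h12, h13, hc, one_pow, one_mul] at this
    exact (pow_eq_one_iff_of_nonneg (V.v.nonneg _) two_ne_zero).1 this.symm
  have ha : V.v (da d.pt) ≤ 1 := by simpa using bLocA_add_le na ha1.le (map_one V.v).le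
  have hs : V.v (d.x1 + d.x2 + d.x3 - d.x4) = 1 := by
    have := congrArg V.v (show (d.x1 + d.x2 + d.x3 - d.x4) * (xc d.pt + da d.pt) * (3 * d.ka) =
      -(da d.pt - 1) ^ 3 by
        linear_combination (xc d.pt + da d.pt) * (3 * ρ.r1 - ρ.r5) - ec - e)
    simp only [map_mul, V.v.map_neg, map_pow, hk, ha1, v3, one_pow, mul_one] at this
    exact one_GVGR (bLocA_sub_le na (bLocA_add_le na (bLocA_add_le na h1.le h2.le) h3.le) h4)
      (bLocA_add_le na hx.le ha) (V.v.nonneg _) this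
  have gw : Gw V (Wd d.pt) := ⟨⟨ha, by simp [Wd], hc.le, by simp [Wd], by simp [Wd]⟩, by
    rw [eΔ, map_mul, map_pow, map_pow, hc, ha1, one_pow, one_mul]⟩
  refine ⟨h1, h2, h3, hk, h4, hs, not_E1.2 ⟨ρ.ne, hx.le⟩, hx, ha1, gw, fun φ hφ => ?_⟩
  have ky : ∀ P : Pt, E1 V.v P → P ≠ 0 → φ P ≠ 0 ∧ 1 < V.v (xc P) ∧
      V.v (xw (φ P)) = V.v (xc P) := fun P h h0 => by
    have n : P ∉ d.C := fun k => h0 (hd.fg.inj P k h)
    have l := ((E1_iff _ _).1 h).resolve_left h0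
    have q := (U P).2.2.1 h h0
    refine ⟨fun k => n ((hφ.ker P).1 k), l, ?_⟩
    rw [hφ.xx P n, map_mul, hk, one_mul, vX_eq, sub_eq_add_neg, bLocA_add_eq na, q]
    rw [V.v.map_neg, q]
    exact (le _ fT).trans_lt l
  have e1 : ∀ P : Pt, E1 V.v P → E1 V.v (φ P) := fun P h => (E1_xw V _).2 (by
    by_cases h0 : P = 0
    · exact Or.inl (by rw [h0, map_zero])
    · exact Or.inr ((ky P h h0).2.2 ▸ (ky P h h0).2.1))
  refine ⟨fun P => ⟨fun h => by_contra fun k => ?_, fun ⟨c, hc', h⟩ => ?_⟩, fun P h => ?_⟩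
  · have f : Fr V d.C P := fun c hc' h' => k ⟨c, hc', h'⟩
    have n := ((U P).2.2.2 f).1
    refine nE1_xw.2 ⟨fun q => n ((hφ.ker P).1 q), ?_⟩ h
    rw [hφ.xx P n, map_mul, hk, one_mul]
    exact lx P f
  · have := e1 _ h
    rwa [map_sub, (hφ.ker c).2 hc', sub_zero] at this
  · by_cases h0 : P = 0
    · rw [h0, map_zero]; rfl
    obtain ⟨k0, k1, k2⟩ := ky P h h0
    have p := (hPARW V _ gw).1 _ k0
    rw [zs_of (e1 P h), k2, max_eq_right k1.le, ← (E1_xz h h0).1, mul_comm] at p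
    exact (pow_left_inj₀ (V.v.nonneg _) (V.v.nonneg _) two_ne_zero).1
      (mul_left_cancel₀ (by linarith) p)

end Pool.Agent.MP_e23604_nt.Z.G
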