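import Pool.Agent.MP_e23604_nt.Z.GS
import Pool.Agent.MP_e23604_nt.Un.Non

/-!
The quotient by a finite subgroup.
-/

set_option autoImplicit false

open Finset QuadraticAlgebra Polynomial WeierstrassCurve
open scoped Classical

namespace Pool.Agent.MP_e23604_nt.Z.G

open B R S W Un

/-- the lattice of a finite subgroup -/
theorem lat_GVPF {C : AddSubgroup Pt} (h : (C : Set Pt).Finite) : ∃ L, LC C L ∧
    Un.Rep L0 L (XC C) ∧ (∀ P, wp L (Un.lg P) = eC (sX C P - sX C 0)) ∧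
    ∀ P, P ∉ C → wq L (Un.lg P) = eC (∑ c ∈ els C, (2 * yc (P + c) + 1)) := by
  obtain ⟨L, e⟩ := ex_pair L0 (((C.map iC).comap uE).toIntSubmodule)
    (fun z hz => ⟨0, zero_mem _, (map_zero _).trans (ue_eq_zero.2 hz).symm⟩) (N := cd C)
    (Nat.cast_ne_zero.2 (cd_pos h).ne') (by
      rintro z ⟨T, hT, e⟩
      rw [← ue_eq_zero, ← nsmul_eq_mul]
      change uE _ = 0
      rw [map_nsmul, ← e, ← map_nsmul, cd_nsmul h hT, map_zero])
  have l : LC C L := fun z => by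
    rw [e]; exact ⟨fun ⟨T, a, b⟩ => ⟨T, a, b.symm⟩, fun ⟨T, a, b⟩ => ⟨T, a, b.symm⟩⟩
  have r : Un.Rep L0 L (XC C) := by
    refine ⟨fun z hz => (l z).2 ⟨0, zero_mem _, (ue_eq_zero.2 hz).trans (map_zero _).symm⟩,
      fun x hx => ?_, fun y hy => ?_⟩
    · obtain ⟨T, hT, rfl⟩ := mem_image.1 hx
      exact l.lg.2 ((mem_els h).1 hT)
    · obtain ⟨T, hT, e⟩ := (l y).1 hy
      refine ⟨Un.lg T, ⟨mem_image_of_mem _ ((mem_els h).2 hT), by rwa [← ue_eq, ue_lg]⟩, ?_⟩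
      rintro _ ⟨a, b⟩
      obtain ⟨T', -, rfl⟩ := mem_image.1 a
      rw [← ue_eq, ue_lg, e] at b
      rw [iC_inj b]
  refine ⟨L, l, r, fun P => ?_, fun P hP => ?_⟩
  · rw [r.wp_eq, XC, sum_image lg_inj.injOn, sX, sX, ← sum_sub_distrib, map_sum]
    exact sum_congr rfl fun c _ => by rw [wp_lg (lg_add P c), lg_x, map_sub, zero_add]
  · rw [r.wq_eq, XC, sum_image lg_inj.injOn, map_sum]
    refine sum_congr rfl fun c hc => ?_
    rw [← (lg_xy fun e => hP (by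
      rw [eq_neg_of_add_eq_zero_left e]; exact neg_mem ((mem_els h).1 hc))).2,
      ← wq_per (lg_add P c), add_sub_cancel]

theorem VPF_pf : VPF_st := by
  intro C P Q h hP hQ
  obtain ⟨L, l, r, w, -⟩ := lat_GVPF h
  have k := r.prod_p (fun e => hQ (l.lg.1 e)) fun e => hP (l.lg.1 e)
  rw [prod_XC fun x => wp L0 x - wp L0 (Un.lg P), XC, prod_image lg_inj.injOn, w, w] at k
  simp only [wp_lg (lg_add Q _), lg_x, ← map_sub, ← map_prod, ← map_mul] at k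
  have c := card_erase_add_one ((mem_els h).2 C.zero_mem)
  simp only [Un.kk, ← neg_sub (xc _) (xc P), prod_neg, eC.injective k, ← c]
  ring

theorem disc_GVPF (L : PeriodPair) : (WL L).Δ ≠ 0 := fun e => by
  have d : L.g₂ ^ 3 - 27 * L.g₃ ^ 2 = 0 := by
    simp only [WL, Δ, b₂, b₄, b₆, b₈] at e
    linear_combination e
  obtain ⟨x, h1, h2⟩ : ∃ x : ℂ, 0 ^ 2 = 4 * x ^ 3 - L.g₂ * x - L.g₃ ∧ 6 * x ^ 2 - L.g₂ / 2 = 0 := by
    by_cases g : L.g₂ = 0
    · refine ⟨0, ?_, by simp [g]⟩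
      simpa [g] using d
    · refine ⟨-3 * L.g₃ / (2 * L.g₂), ?_, ?_⟩ <;> field_simp
      · linear_combination (-4 * L.g₃) * d
      · linear_combination (-2 : ℂ) * d
  obtain ⟨z, hz, e1, e2⟩ := surj h1
  exact nonsing hz e2 (e1 ▸ h2)

theorem up_GVPF (L : PeriodPair) (E : WeierstrassCurve ℂ) (e : E = WL L) :
    ∃ u : ℂ →+ E.toAffine.Point, (∀ z, u z = 0 ↔ z ∈ L.lattice) ∧
      ∀ z, z ∉ L.lattice → ∃ h, u z = .some (wp L z) (wq L z / 2) h := by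
  subst e
  exact ⟨uH L, fun _ => uP_eq_zero, fun _ h => ⟨_, uP_of h⟩⟩

theorem sur_GVPF {C : AddSubgroup Pt} (h : (C : Set Pt).Finite) (x : Qb) :
    ∃ P, P ∉ C ∧ sX C P = x := by
  obtain ⟨Q, -, hQ, -⟩ := ex_generic (els C) ∅
  rw [mem_els h] at hQ
  have c := card_erase_add_one ((mem_els h).2 C.zero_mem)
  obtain ⟨t, ht⟩ := IsAlgClosed.exists_root (∏ c ∈ els C, (X - Polynomial.C (xc (Q + c))) -
      Polynomial.C (x - sX C Q) * ∏ c ∈ (els C).erase 0, (X - Polynomial.C (xc c)))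
    (natDegree_pos_iff_degree_pos.1 (by
      rw [natDegree_sub_eq_left_of_natDegree_lt ((natDegree_C_mul_le _ _).trans_lt ?_)] <;>
      simp only [natDegree_finsetProd_X_sub_C_eq_card, ← c] <;> omega)).ne'
  obtain ⟨P, h0, rfl⟩ := ex_pt t
  simp only [IsRoot.def, eval_sub, eval_mul, eval_prod, eval_X, eval_C] at ht
  have k : kk C (xc P) = 0 ↔ P ∈ C := by
    rw [Un.kk, prod_eq_zero_iff]
    refine ⟨fun ⟨c, a, b⟩ => ?_, fun a => ⟨P, mem_erase.2 ⟨h0, (mem_els h).2 a⟩, sub_self _⟩⟩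
    have m := (mem_els h).1 (mem_of_mem_erase a)
    rcases xc_eq h0 (ne_of_mem_erase a) (sub_eq_zero.1 b) with e | e <;> rw [e]
    exacts [m, neg_mem m]
  have hP : P ∉ C := fun a => by
    rw [← Un.kk, k.2 a, mul_zero, sub_zero, prod_eq_zero_iff] at ht
    obtain ⟨c, m, b⟩ := ht
    rw [mem_els h] at m
    refine hQ ((C.add_mem_cancel_right m).1 ?_)
    by_cases n : Q + c = 0
    · exact n ▸ zero_mem _
    rcases xc_eq h0 n (sub_eq_zero.1 b) with e | e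
    exacts [e ▸ a, neg_mem_iff.1 (e ▸ a)]
  rw [VPF_pf C P Q h hP hQ, ← Un.kk, ← sub_mul, mul_eq_zero] at ht
  exact ⟨P, hP, by linear_combination ht.resolve_right fun e => hP (k.1 e)⟩

theorem VEL0_pf : VEL0_st := by
  intro C h
  obtain ⟨L, l, r, w, q⟩ := lat_GVPF h
  obtain ⟨y, hy⟩ : ∃ y : Pt → Qb, ∀ P, P ∉ C → wq L (Un.lg P) / 2 = eC (y P) :=
    ⟨fun P => (∑ c ∈ els C, (2 * yc (P + c) + 1)) / 2, fun P n => by
      rw [q P n, map_div₀, map_ofNat]⟩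
  have s : ∀ P, P ∉ C → eC (y P) ^ 2 = eC (sX C P - sX C 0) ^ 3 -
      L.g₂ / 4 * eC (sX C P - sX C 0) - L.g₃ / 4 := fun P n => by
    rw [← hy P n, ← w]
    linear_combination wq_sq (fun e => n (l.lg.1 e)) / 4
  obtain ⟨P₀, n₀, e₀⟩ := sur_GVPF h (sX C 0)
  obtain ⟨P₁, n₁, e₁⟩ := sur_GVPF h (sX C 0 + 1)
  have s₀ := s P₀ n₀
  have s₁ := s P₁ n₁
  rw [e₀, sub_self, map_zero] at s₀
  rw [e₁, add_sub_cancel_left, map_one] at s₁
  let _ : Algebra Qb ℂ := eC.toAlgebra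
  obtain ⟨E, hE⟩ : ∃ E : WeierstrassCurve Qb, E.baseChange ℂ = WL L :=
    ⟨⟨0, 0, 0, y P₁ ^ 2 - 1 - y P₀ ^ 2, y P₀ ^ 2⟩, by
      ext <;> simp only [baseChange, WeierstrassCurve.map, WL, RingHom.algebraMap_toAlgebra,
        map_zero, map_sub, map_pow, map_one]
      · linear_combination s₁ - s₀
      · linear_combination s₀⟩
  obtain ⟨u, u0, u1⟩ := up_GVPF L _ hE
  let ι := Affine.Point.map (W' := E) (Algebra.ofId Qb ℂ)
  have inj : Function.Injective ι := Affine.Point.map_injective _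
  have ex : ∀ P, ∃ T, ι T = u (Un.lg P) ∧ (P ∉ C → ∃ h, T = .some (sX C P - sX C 0) (y P) h) := by
    intro P
    by_cases n : P ∈ C
    · exact ⟨0, by rw [map_zero, (u0 _).2 (l.lg.2 n)], fun m => absurd n m⟩
    · obtain ⟨a, b⟩ := u1 _ fun e => n (l.lg.1 e)
      simp only [w, hy P n] at a b
      exact ⟨.some _ _ ((E.toAffine.baseChange_nonsingular (Algebra.ofId Qb ℂ).injective _ _).1 a),
        b.symm, fun _ => ⟨_, rfl⟩⟩
  choose φ h1 h2 using ex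
  have ad : ∀ P Q, φ (P + Q) = φ P + φ Q := fun P Q => inj (by
    rw [map_add, h1, h1, h1, ← map_add, ← sub_eq_zero, ← map_sub, u0]
    exact r.le (lg_add P Q))
  refine ⟨E.baseChange Qb, AddMonoidHom.mk' φ ad, -sX C 0, fun e => disc_GVPF L ?_, ?_,
    fun P => ?_, fun P n => ?_⟩
  · rw [← hE, baseChange, map_Δ, show E.Δ = 0 by simpa [baseChange] using e, map_zero]
  · rintro (_ | ⟨a, b, k⟩)
    · exact ⟨0, map_zero _⟩
    obtain ⟨P, n, e⟩ := sur_GVPF h (a + sX C 0)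
    obtain ⟨k', e'⟩ := h2 P n
    simp only [e, add_sub_cancel_right] at k' e'
    rcases Affine.Y_eq_of_X_eq k.1 k'.1 rfl with rfl | rfl
    · exact ⟨P, e'⟩
    · exact ⟨-P, by rw [map_neg, AddMonoidHom.mk'_apply, e', Affine.Point.neg_some]⟩
  · rw [AddMonoidHom.mk'_apply, ← map_eq_zero_iff ι inj, h1, u0, l.lg]
  · obtain ⟨k, e⟩ := h2 P n
    rw [AddMonoidHom.mk'_apply, e, ← sub_eq_add_neg]
    rfl

end Pool.Agent.MP_e23604_nt.Z.G
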