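import Pool.Agent.MP_e23604_nt.Z.GS

set_option autoImplicit false

open Finset QuadraticAlgebra Polynomial
open scoped Classical

namespace Pool.Agent.MP_e23604_nt.Z.G

open B R S W Un

theorem add_GVUN {V : Plc} {C : AddSubgroup Pt} {P c : Pt} (h : Fr V C P) (hc : c ∈ C) :
    ¬ E1 V.v (P + c) := by simpa using h _ (C.neg_mem hc)

theorem nm_GVUN {V : Plc} {C : AddSubgroup Pt} {P : Pt} (h : Fr V C P) : P ∉ C := fun e =>
  h P e ((E1_iff _ _).2 (Or.inl (sub_self P)))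

theorem xx_GVUN (hP : PARW_st) {V : Plc} (h : ¬ Ov V 3) {P Q : Pt} (a : ¬ E1 V.v P)
    (b : ¬ E1 V.v Q) (c : ¬ E1 V.v (P + Q)) (d : ¬ E1 V.v (P - Q)) : V.v (xc P - xc Q) = 1 := by
  have := (hP V EQ (gw_EQ h)).2.2.2.1 P Q a b
  rwa [xw_xc, xw_xc, zs_not c, zs_not d, one_mul] at this

theorem VUN_pf (hPARW : PARW_st) (hVPF : VPF_st) : VUN_st := by
  refine fun C => ⟨fun h P => ⟨sum_equiv (Equiv.neg Pt) (by simp [mem_els h]) fun c _ => ?_,
    fun c hc => sum_equiv (Equiv.addLeft c) (by simp [mem_els h, C.add_mem_cancel_left hc])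
      fun c _ => by simp [add_assoc]⟩, fun V hF P => ⟨fun h9 hP c hc e => hP ?_,
    fun hT h hP c hc e => hP ?_, fun h h0 => ?_, fun h => ?_⟩⟩
  · rw [← (xc_neg _).1, neg_add, neg_neg, Equiv.neg_apply]
  · have e1 : (9 : Zw) • (P - c) ∈ C := by
      rw [ofNat_smul_eq_nsmul, smul_sub]
      exact C.sub_mem h9 (C.nsmul_mem hc 9)
    rwa [sub_eq_zero.1 (E1_tor e (n := 9) (fun k => hF.n3 (Ov_pow (n := 2) (by norm_num [k])))
      (hF.inj _ e1 (E1m e 9).1))]
  · rwa [sub_eq_zero.1 (TT_E1 ((TT V).sub_mem h (hT hc)) e)]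
  · rw [sX, ← add_sum_erase _ _ ((mem_els hF.fin).2 C.zero_mem), add_zero]
    refine bLocA_add_eq V.na ((sum_le_ATAY V _ _ zero_le_one fun c hc => ?_).trans_lt
      (((E1_iff _ _).1 h).resolve_left h0))
    obtain ⟨c0, hc⟩ := mem_erase.1 hc
    exact (not_E1.1 (add_comm c P ▸ not_E1_add (mt (hF.inj c ((mem_els hF.fin).1 hc)) c0) h)).2
  · have p0 : ¬ E1 V.v P := by simpa using h 0 C.zero_mem
    have k : V.v (kk C (xc P)) = 1 := by
      rw [Un.kk, map_prod]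
      refine prod_eq_one fun c hc => ?_
      obtain ⟨c0, hc⟩ := mem_erase.1 hc
      rw [mem_els hF.fin] at hc
      exact xx_GVUN hPARW hF.n3 p0 (mt (hF.inj c hc) c0) (add_GVUN h hc) (h c hc)
    refine ⟨nm_GVUN h, sum_le_ATAY V _ _ zero_le_one fun c hc =>
      (not_E1.1 (add_GVUN h ((mem_els hF.fin).1 hc))).2, k, fun e he => ⟨fun c hc =>
        add_sub_right_comm P e c ▸ not_E1_add (h c hc) he, ?_⟩, fun Q hQ h1 h2 => ?_⟩
    · rw [sX, sX, ← sum_sub_distrib]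
      refine (sum_le_ATAY V _ _ (V.v.nonneg _) fun c hc => ?_).trans_lt (zz_lt he)
      rw [add_right_comm]
      exact (EXP_ok V _ e (add_GVUN h ((mem_els hF.fin).1 hc)) he).2.2.1
    · have := congrArg V.v (hVPF C P Q hF.fin (nm_GVUN h) (nm_GVUN hQ))
      rw [map_mul, k, mul_one, map_prod] at this
      refine this ▸ prod_eq_one fun c hc => ?_
      rw [mem_els hF.fin] at hc
      exact xx_GVUN hPARW hF.n3 p0 (add_GVUN hQ hc) (add_assoc P Q c ▸ add_GVUN h2 hc)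
        (sub_sub P Q c ▸ h1 c hc)

end Pool.Agent.MP_e23604_nt.Z.G
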