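import Pool.Agent.MP_e23604_nt.Z.GCGP
import Pool.Agent.MP_e23604_nt.Z.GCT1
import Pool.Agent.MP_e23604_nt.Z.GCT2
import Pool.Agent.MP_e23604_nt.Z.GDEP
import Pool.Agent.MP_e23604_nt.Z.GDEU
import Pool.Agent.MP_e23604_nt.Z.GDEU1
import Pool.Agent.MP_e23604_nt.Z.GDXE
import Pool.Agent.MP_e23604_nt.Z.GEG1
import Pool.Agent.MP_e23604_nt.Z.GEX
import Pool.Agent.MP_e23604_nt.Z.GEXG
import Pool.Agent.MP_e23604_nt.Z.GEXT
import Pool.Agent.MP_e23604_nt.Z.GFACT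
import Pool.Agent.MP_e23604_nt.Z.GFin
import Pool.Agent.MP_e23604_nt.Z.GH7
import Pool.Agent.MP_e23604_nt.Z.GHFO
import Pool.Agent.MP_e23604_nt.Z.GHO0
import Pool.Agent.MP_e23604_nt.Z.GHO1
import Pool.Agent.MP_e23604_nt.Z.GHO2
import Pool.Agent.MP_e23604_nt.Z.GHT
import Pool.Agent.MP_e23604_nt.Z.GISA
import Pool.Agent.MP_e23604_nt.Z.GISB
import Pool.Agent.MP_e23604_nt.Z.GKER
import Pool.Agent.MP_e23604_nt.Z.GLAG
import Pool.Agent.MP_e23604_nt.Z.GLBB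
import Pool.Agent.MP_e23604_nt.Z.GLOC
import Pool.Agent.MP_e23604_nt.Z.GLVD
import Pool.Agent.MP_e23604_nt.Z.GMAT
import Pool.Agent.MP_e23604_nt.Z.GNRA
import Pool.Agent.MP_e23604_nt.Z.GNRB
import Pool.Agent.MP_e23604_nt.Z.GPAL
import Pool.Agent.MP_e23604_nt.Z.GPARW
import Pool.Agent.MP_e23604_nt.Z.GPGH
import Pool.Agent.MP_e23604_nt.Z.GPIK
import Pool.Agent.MP_e23604_nt.Z.GQSUM
import Pool.Agent.MP_e23604_nt.Z.GRAT
import Pool.Agent.MP_e23604_nt.Z.GREPA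
import Pool.Agent.MP_e23604_nt.Z.GREPS
import Pool.Agent.MP_e23604_nt.Z.GRES
import Pool.Agent.MP_e23604_nt.Z.GRSM
import Pool.Agent.MP_e23604_nt.Z.GSCL
import Pool.Agent.MP_e23604_nt.Z.GSIG
import Pool.Agent.MP_e23604_nt.Z.GSPL
import Pool.Agent.MP_e23604_nt.Z.GTAU
import Pool.Agent.MP_e23604_nt.Z.GTOR
import Pool.Agent.MP_e23604_nt.Z.GTR1
import Pool.Agent.MP_e23604_nt.Z.GTR2
import Pool.Agent.MP_e23604_nt.Z.GTRS
import Pool.Agent.MP_e23604_nt.Z.GUB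
import Pool.Agent.MP_e23604_nt.Z.GUNQ
import Pool.Agent.MP_e23604_nt.Z.GUNR
import Pool.Agent.MP_e23604_nt.Z.GVEL
import Pool.Agent.MP_e23604_nt.Z.GVGR
import Pool.Agent.MP_e23604_nt.Z.GVPF
import Pool.Agent.MP_e23604_nt.Z.GVUN
import Pool.Agent.MP_e23604_nt.Z.OOn

/-!
The geometric part: assembly.
-/

set_option autoImplicit false

namespace Pool.Agent.MP_e23604_nt.Z.G

theorem PIK_all : PIK_st := PIK_pf LAG_pf PARW_pf

theorem HT_all : HT_st := HT_pf LAG_pf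

theorem PAL_all : PAL_st := PAL_pf PARW_pf PIK_all HT_all FACT_pf

theorem NRB_all : NRB_st := NRB_pf NRA_pf

theorem SCL_all : SCL_st := SCL_pf VPF_pf

theorem TOR_all : TOR_st := TOR_pf HGA_pf SCL_all RSM_pf LVD_pf

theorem ISA_all : ISA_st := ISA_pf SIG_pf KERN_pf

theorem ISB_all : ISB_st := ISB_pf SIG_pf KERN_pf ISA_all

theorem UNQ_all : UNQ_st := UNQ_pf SIG_pf ISA_all

theorem UNR_all : UNR_st := UNR_pf SIG_pf ISA_all ISB_all UNQ_all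

theorem DEU_all : DEU_st := DEU_pf DEU1_pf

theorem VEL_all : VEL_st := VEL_pf VEL0_pf DEU_all

theorem GH_all : GH_st := GH_h7 PARW_pf PIK_all

theorem VUN_all : VUN_st := VUN_pf PARW_pf VPF_pf

theorem VGR_all : VGR_st := VGR_pf PARW_pf VUN_all VEL_all

theorem DXE_all : DXE_st := DXE_pf GH_all VGR_all

theorem REPA_all : REPA_st := REPA_pf LAG_pf PARW_pf VPF_pf VUN_all VGR_all

theorem REPS_all : REPS_st := REPS_pf LAG_pf PIK_all REPA_all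

theorem HO0_all : HO0_st := HO0_pf SIG_pf PGH_pf VGR_all

theorem HO1_all : HO1_st := HO1_pf LAG_pf PARW_pf PIK_all REPS_all VGR_all SIG_pf HO0_all

theorem HO2_all : HO2_st := HO2_of VGR_all HO1_all

theorem TAU_all : TAU_st := TAU_pf SIG_pf

theorem CT1_all : CT1_st := CT1_pf VGR_all SIG_pf

theorem CT2_all : CT2_st := CT2_pf VGR_all SIG_pf TAU_all CT1_all

theorem MAT_all : MAT_st := MAT_pf PARW_pf VUN_all VEL_all VGR_all SIG_pf KERN_pf

theorem UB_all : UB_st := UB_pf VEL_all DXE_all HO2_all CT2_all MAT_all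

theorem DEP_all : DEP_st := DEP_pf VUN_all

theorem CGP_all : CGP_st := CGP_pf VGR_all VEL_all

theorem EG1_all : EG1_st := EG1_pf LAG_pf PARW_pf PIK_all SIG_pf

theorem EXG_all : EXG_st := EXG_pf LAG_pf PIK_all VPF_pf VUN_all SIG_pf KER0_pf EG1_all

theorem EXT_all : EXT_st := EXT_pf LAG_pf PIK_all VEL0_pf VUN_all

theorem EX_all : EX_st :=
  EX_pf VUN_all DEP_all SCL_all CGP_all SIG_pf KERN_pf ISA_all EXG_all EXT_all DXE_all

theorem RAT_all : RAT_st := RAT_pf HGA_pf DEP_all SIG_pf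

theorem LBA_all : LBA_st := LBA_pf SIG_pf UB_all UNR_all EX_all RAT_all

theorem RES_all : RES_st := RES_pf LAG_pf SIG_pf

theorem LBB_all : LBB_st :=
  LBB_pf PARW_pf VGR_all SIG_pf ISA_all ISB_all EX_all RAT_all RES_all LBA_all

theorem LOC_all : LOC_st :=
  LOC_pf PARW_pf SIG_pf ISA_all UNR_all UB_all EX_all RAT_all LBA_all LBB_all

theorem SPL_all : SPL_st := SPL_pf PARW_pf VEL_all VGR_all VUN_all DXE_all

theorem HFO_all : HFO_st := HFO_pf HGA_pf SIG_pf LOC_all SPL_all HT_all FACT_pf LVD_pf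

theorem TR1_all : TR1_st := TR1_of SIG_pf LVD_pf

theorem TR2_all : TR2_st := TR2_pf SIG_pf

theorem TRS_all : TRS_st := TRS_pf TR1_all TR2_all RSM_pf LVD_pf NRA_pf

theorem GEO_ok : GEO_st :=
  GEO_of PAL_all NRA_pf NRB_all QSUM_pf RSM_pf TOR_all HFO_all TR1_all TRS_all

end Pool.Agent.MP_e23604_nt.Z.G
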