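import Pool.Agent.MP_e23604_nt.Z.KSt

/-!
Admissible Frobenius elements.
-/

set_option autoImplicit false

open Finset QuadraticAlgebra
open scoped Classical

namespace Pool.Agent.MP_e23604_nt.Z

open B R S W

theorem pw_pow_KCHO (n : ℕ) : ∀ x : Zw, 3 ^ n ∣ nn x → pw ^ n ∣ x := by
  induction n with
  | zero => intro x _; simp
  | succ n ih =>
    intro x hx
    obtain ⟨y, rfl⟩ := pw_dvd_iff.2 ((dvd_pow_self 3 n.succ_ne_zero).trans hx)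
    rw [nn_mul, nn_pw, pow_succ'] at hx
    rw [pow_succ']
    exact mul_dvd_mul_left _ (ih y (Nat.dvd_of_mul_dvd_mul_left (by norm_num) hx))

theorem km_pow_KCHO {N : ℕ} (hN : N ≠ 0) {g : GQ} (hg : g ∈ GK) {b : Zw} (hb : b ≠ 0)
    (h : km N g (W.io b) = 0) (i : ℕ) : km N (g ^ i) (W.io b) = 0 := by
  induction i with
  | zero => rw [pow_zero]; exact km_one hN (io_ne hb)
  | succ i ih => rw [pow_succ, km_mul hN _ _ (io_ne hb), h, io_fix hg, ih, mul_zero, add_zero]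

theorem km_fix_KCHO {N : ℕ} (hN : N ≠ 0) {g n : GQ} (hn : n ∈ GK) {b : Zw} (hb : b ≠ 0)
    (h : km N g (W.io b) = 0) (hf : n (rt N (W.io b)) = rt N (W.io b)) :
    km N (g * n) (W.io b) = 0 := by
  have h0 : km N n (W.io b) = 0 := by
    rw [km, io_fix hn, hf, div_self (rt_ne hN (io_ne hb)), lz_one hN]
  rw [km_mul hN _ _ (io_ne hb), h0, io_fix hn, h, mul_zero, add_zero]

theorem tr_KCHO {q : Zw} {m : ℕ} (h : q + star q = 2) (hq : q ≠ 0) (hm : m ∣ nn q - 1) :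
    m ∣ nn (q - 1) := by
  have h1 : ((nn (q - 1) : ℕ) : Zw) = (nn q : Zw) - 1 := by
    rw [← mul_star_nn, ← mul_star_nn, star_sub, star_one]
    linear_combination (-1 : Zw) * h
  have h2 : nn (q - 1) = nn q - 1 := by
    have h3 := nn_pos hq
    have h4 : ((nn (q - 1) : ℕ) : Zw) = ((nn q - 1 : ℕ) : Zw) := by
      rw [h1, Nat.cast_sub h3, Nat.cast_one]
    exact_mod_cast h4
  rwa [h2]

theorem CHO_pf (h : LGK_st) : Z.CHO_st := by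
  intro r k a N g hr ha hN hg
  have h3 : (3 ^ k : ℕ) ≠ 0 := pow_ne_zero _ three_ne_zero
  have hgK : g ∈ GK := hg.um.1
  have hN0 : ((N0 r : ℕ) : Zw) ≠ 0 := by
    rw [Nat.cast_ne_zero, N0]; positivity
  have hpw : pw ^ (k + 1) ≠ 0 := pow_ne_zero _ pw_ne
  have o1 : ON (UM (N0 r : Zw)) := (PS_ok _ hN0).2 (by rw [star_natCast])
  have o2 : ON (UM (pw ^ (k + 1))) := (PS_ok _ hpw).2 (by
    rw [star_pow, star_pw]; exact pow_dvd_pow_of_dvd (dvd_neg.2 dvd_rfl) _)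
  obtain ⟨N1, o3, hf⟩ := exists_ON_fix
    ((insert a (nb (nn (6 * r : Zw)))).image fun b => rt (3 ^ k) (W.io b))
  obtain ⟨V, q, σ, i, j, hs, hB, -, -, hi, hj⟩ := CHB_ok.1
    (N ⊓ (UM (N0 r : Zw) ⊓ (UM (pw ^ (k + 1)) ⊓ N1))) g (3 ^ (k + 1)) (81 * r ^ 2 + nn a) 1
    (hN.inf (o1.inf (o2.inf o3))) hgK (pow_ne_zero _ three_ne_zero) hg.c1 one_ne_zero
  have hl := V.hl.out
  have hq0 : q ≠ 0 := hs.pp.1.ne_zero
  obtain ⟨n, hn⟩ : ∃ n, n = (g ^ i)⁻¹ * σ := ⟨_, rfl⟩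
  rw [← hn] at hi
  have hσ : σ = g ^ i * n := by rw [hn]; group
  have hn1 : n ∈ UM (N0 r : Zw) := hi.2.1
  have hn2 : n ∈ N1 := hi.2.2.2
  have hkm : ∀ b : Zw, b ≠ 0 → b ∈ insert a (nb (nn (6 * r : Zw))) → lk k σ b = 0 := by
    intro b hb hm
    have h1 : Fix N1 (rt (3 ^ k) (W.io b)) := hf _ (mem_image.2 ⟨b, hm, rfl⟩)
    have h2 := km_fix_KCHO h3 hn1.1 hb (km_pow_KCHO h3 hgK hb (hg.k0 b hb) i) (h1 n hn2)
    rw [lk, hσ]
    exact h2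
  have hr1 : 1 ≤ r := Nat.one_le_iff_ne_zero.2 hr
  have hr2 : 1 ≤ r ^ 2 := Nat.one_le_pow _ _ hr1
  have hO1 : ¬ Ov V (N0 r : Zw) := fun e => by
    have h1 := Nat.le_of_dvd (Nat.pos_of_ne_zero (Nat.cast_ne_zero.1 hN0)) ((PLK_ok.2.2.2.1 V _).1 e)
    rw [N0] at h1
    omega
  have hO2 : ¬ Ov V (pw ^ (k + 1)) := fun e => by
    have h1 := hs.pp.1.dvd_of_dvd_pow (((PLK_ok.2.2.1 V q hs.pp.1 hs.ov).1 _).1 e)
    obtain ⟨c, hc⟩ := h1
    have h2 : nn q ∣ 3 := ⟨nn c, by rw [← nn_mul, ← hc, nn_pw]⟩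
    have h4 := Nat.le_of_dvd (by norm_num) h2
    rw [hs.deg] at h4
    omega
  have hfr := ((FRB_ok V q hs.pp hs.ov).2 σ hs.fr).2
  have hσK : σ ∈ GK := V.D_le hs.fr.1
  have hsm : ∀ b : Zw, b ∣ 6 * r → lk k σ b = 0 := fun b hb => by
    have h6 : (6 * r : Zw) ≠ 0 := mul_ne_zero (by norm_num) (Nat.cast_ne_zero.2 hr)
    obtain ⟨c, hc⟩ := hb
    refine hkm b (fun e => h6 (by rw [hc, e, zero_mul])) (mem_insert_of_mem (mem_nb.2 ?_))
    exact Nat.le_of_dvd (nn_pos h6) ⟨nn c, by rw [hc, nn_mul]⟩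
  obtain ⟨L1, L2, -, -⟩ := h k V q σ hs
  refine ⟨V, q, σ, j, hs, ⟨hs.pp, hs.deg ▸ hl, ?_, by rw [hs.deg]; omega, ?_, by rw [hs.deg]; omega,
    fun u v hu hv => L1 u v (fun e => hu (e ▸ dvd_zero _)) (fun e => hv (e ▸ dvd_zero _)), L2,
    fun b hb => hsm b ?_, hkm a ha (mem_insert_self _ _)⟩, hj.1⟩
  · have hU : σ ∈ UM (N0 r : Zw) := by
      rw [hσ]
      exact mul_mem (pow_mem hg.um i) hn1
    obtain ⟨Q, hQ⟩ := (CYG_ok _ hN0).1
    have hz : (N0 r : Zw) • Q = 0 := (hQ _).2 dvd_rfl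
    refine (hQ _).1 ?_
    rw [sub_smul, one_smul, ← hfr _ Q hO1 hz, hU.2 Q hz, sub_self]
  · intro e
    have h1 : pw ^ (k + 1) ∣ q - 1 :=
      pw_pow_KCHO _ _ (tr_KCHO e hq0 (by rw [hs.deg]; exact hs.dvd))
    have hU : σ ∈ UM (pw ^ (k + 1)) := ⟨hσK, fun P hP => by
      obtain ⟨c, hc⟩ := h1
      rw [hfr _ P hO2 hP, show q = c * pw ^ (k + 1) + 1 by linear_combination hc, add_smul,
        mul_smul, hP, smul_zero, zero_add, one_smul]⟩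
    refine hg.nm ?_
    rw [show g = σ ^ j * ((σ ^ j)⁻¹ * g) by group]
    exact mul_mem (pow_mem hU j) hj.2.2.1
  · first
      | exact hb
      | exact_mod_cast (Nat.cast_dvd_cast (α := Zw) hb)

end Pool.Agent.MP_e23604_nt.Z
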