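import Pool.Agent.MP_e23604_nt.Z.KSt

/-!
The derived cochain and the triple product.
-/

set_option autoImplicit false

open Finset QuadraticAlgebra
open scoped Classical

namespace Pool.Agent.MP_e23604_nt.Z

open B R S W

theorem lc_KDER {α : Type} {H : Subgroup GQ} {f f' : GQ → α} (h : Lc H f)
    (e : ∀ g ∈ H, f' g = f g) : Lc H f' :=
  h.imp fun _ hM => ⟨hM.1, fun g hg k hk e' => by rw [e g hg, e k hk, hM.2 g hg k hk e']⟩

theorem DER_pf : DER_st := by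
  intro R _ N j U lam A θ h hA hU θ0 hθ
  have h0 := h.pos
  have hT := h.trv
  have lc : Lc GK fun g => lam g⁻¹ := lc_of_open h.opn fun g hg u hu _ => h.mul_U hg hu
  have aU : ∀ g ∈ GK, ∀ u ∈ U, A (g * u) = A g := fun g hg u hu => by
    rw [hA g hg u (h.le hu), hU u hu, add_zero]
  have lA : Lc GK A := lc_of_open h.opn fun g hg u hu _ => aU g hg u hu
  have ne : ∀ (y : GQ) {x : Qb}, x ≠ 0 → y x ≠ 0 := fun y _ e => (map_ne_zero y).2 e
  have inv : ∀ g ∈ GK, ∀ y ∈ GK, ∀ u ∈ U,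
      A (g * (y * u)) * lam (g * (y * u))⁻¹ * j (km N g ((y * u) θ)) =
      A (g * y) * lam (g * y)⁻¹ * j (km N g (y θ)) := fun g hg y hy u hu => by
    rw [← mul_assoc g y u, h.mul_U (GK.mul_mem hg hy) hu, aU _ (GK.mul_mem hg hy) u hu,
      AlgEquiv.mul_apply, hθ u hu]
  refine ⟨lc_sum _ fun y hy => ?_, fun g hg k hk => ?_, fun V hN hI hv τ hτ => ?_⟩
  · refine lc_KDER ((lA.map₂ lc fun a b => (a + A y) * (b * lam y⁻¹)).map₂ (km_lc N GK (y θ))
      fun a b => a * j b) fun g hg => ?_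
    rw [h.inv_mul hg (hT.1 y hy), hA g hg y (hT.1 y hy)]
  · rw [zw, zw, zw, zc, ← hT.sum_mul (F := fun y => A (g * y) * lam (g * y)⁻¹ * j (km N g (y θ)))
      (inv g hg) hk, mul_sum, mul_sum, ← sum_add_distrib, ← sum_add_distrib]
    refine sum_congr rfl fun y hy => ?_
    have hky := GK.mul_mem hk (hT.1 y hy)
    rw [km_mul h0 g k (ne y θ0), mul_assoc g k y, h.inv_mul hg hky, hA g hg _ hky, rho, map_add,
      map_mul, AlgEquiv.mul_apply]
    ring
  · refine sum_eq_zero fun y hy => ?_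
    rw [km_ine V hN hτ.1 (hv y (hT.1 y hy)) (h.fix hθ (hT.1 y hy) τ (hI hτ)), map_zero, mul_zero]

theorem MAS_pf : MAS_st := by
  intro R _ H κ ρ lam z y γ A β T hA lA lβ hβ
  have hγ : ∀ g ∈ H, ∀ h ∈ H, γ (g * h) = κ g * γ h + γ g - z g * lam g * y h :=
    fun g hg h hh => by
      have := T.bd g hg h hh
      rw [W.cup] at this
      linear_combination this
  have lκ : Lc H κ := lc_KDER (T.mr.1.map₂ T.ml.1 (· * ·)) T.eq
  have l1 := lβ.map₂ T.ml.1 (· * ·)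
  refine ⟨⟨?_, fun g hg h hh k hk => ?_⟩, ?_, fun I le e g hg h hh τ hτ => ?_,
    fun D le l₀ y₀ e => ⟨⟨fun g _ h hh k hk => ?_, fun k _ g hg h hh => ?_⟩, ?_⟩⟩
  · obtain ⟨N, a1, a2⟩ := l1.map₂ (lA.map₂ lκ (· * ·)) Prod.mk
    obtain ⟨N', b1, b2⟩ := T.cl.1.map₂ T.lc Prod.mk
    refine ⟨N ⊓ N', a1.inf b1, fun g _ u hu v hv k => ?_, fun g _ u hu v hv k => ?_⟩
    · obtain ⟨e1, e2⟩ := Prod.mk.inj (b2 u hu v hv k.2)
      rw [mas, mas, e1, e2]
    · obtain ⟨e1, e2⟩ := Prod.mk.inj (a2 u hu v hv k.1)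
      show mas κ lam A β y γ u g = mas κ lam A β y γ v g
      rw [mas, mas, e1, e2]
  · simp only [mas]
    rw [hβ g hg h hh, hA g hg h hh, hγ h hh k hk, T.cl.2 h hh k hk, T.eq _ (H.mul_mem hg hh),
      T.mr.2.2 g hg h hh, T.ml.2.2 g hg h hh, T.eq g hg, T.eq h hh]
    ring
  · rintro D le a0 ⟨m, e⟩
    refine ⟨_, (l1.mono le).map (-· * m), fun g hg h hh => ?_⟩
    rw [mas, e h hh, hβ g (le hg) h (le hh), T.ml.2.2 g (le hg) h (le hh), a0 g hg, T.eq g (le hg)]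
    ring
  · obtain ⟨e1, e2, e3, e4, e5, e6, e7⟩ := e τ hτ
    have ht := le hτ
    simp only [mas]
    rw [hβ g hg τ ht, hA g hg τ ht, hγ h hh τ ht, T.cl.2 h hh τ ht, T.eq _ (H.mul_mem hg ht),
      T.mr.2.2 g hg τ ht, T.ml.2.2 g hg τ ht, T.eq g hg, e1, e2, e3, e4, e5, e6, e7]
    constructor <;> ring
  · have e1 : ρ h * lam h = 1 := by rw [← T.eq h (le hh), (e h hh).1]
    show -A g * _ = -A g * _ + -A g * _
    rw [hγ h (le hh) k (le hk), T.cz.2 h (le hh) k (le hk), T.ml.2.2 h (le hh) k (le hk),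
      (e h hh).1]
    linear_combination (A g * z h * lam h) * (e k hk).2 - A g * z k * lam k * y₀ * e1
  · show -A (g * h) * _ = -A g * _ + -A h * _
    rw [hA g (le hg) h (le hh)]
    ring
  · refine ⟨_, (l1.mono le).map (-· * y₀), fun g hg h hh => ?_⟩
    have e1 : ρ g * lam g = 1 := by rw [← T.eq g (le hg), (e g hg).1]
    simp only [mas]
    rw [hβ g (le hg) h (le hh), T.ml.2.2 g (le hg) h (le hh), (e g hg).1]
    linear_combination (β g * lam g) * (e h hh).2 -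
      (β h * lam h * y₀ + A g * z h * lam h * y₀) * e1

end Pool.Agent.MP_e23604_nt.Z
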