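import Pool.Agent.MP_e23604_nt.Z.KSt
import Pool.Agent.MP_e23604_nt.W.XEXR
import Pool.Agent.MP_e23604_nt.W.XNFA

/-!
The derived reciprocity law.
-/

set_option autoImplicit false

open Finset QuadraticAlgebra
open scoped Classical

namespace Pool.Agent.MP_e23604_nt.Z

open B R S W

theorem pow_KEXW (V : Plc) {a : Qb} {ε : ℝ} (h0 : 0 < ε) (h1 : V.v a ≤ 1) (h : V.v (a - 1) < ε)
    (i : ℕ) : V.v (a ^ i - 1) < ε := by
  simpa using prod_near_XEXR V (range i) (f := fun _ => a) (g := fun _ => 1) h0 (fun _ _ => h1)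
    (by simp) fun _ _ => h

theorem cy_KEXW {N : ℕ} {X : Plc} {q : Zw} {σ : GQ} (h : Sp N X q σ) (h0 : N ≠ 0)
    (hN : ¬ Ov X N) : ∀ g ∈ X.D, W.cy N g = 1 := fun g hg => by
  have h1 : X.v N = 1 := by simpa using not_Ov.1 hN
  have h2 : W.cy N σ = 1 := by
    rw [((KM_ok N h0).2.2.2.2.2.2.2.2 X fun e => hN ((PLK_ok.2.2.2.1 X N).2 e)).2.2 q σ h.fr, h.deg,
      ← Nat.sub_add_cancel X.hl.out.one_le, Nat.cast_add, (ZMod.natCast_eq_zero_iff _ _).2 h.dvd,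
      Nat.cast_one, zero_add]
  obtain ⟨L, l1, l2⟩ := cy_lc N ⊤
  obtain ⟨i, τ, hτ, e⟩ := ((FRK_ok X q h.pp.1 h.ov).2.2.2 σ h.fr).2.2.2.1 L l1 g hg
  rw [← l2 _ trivial _ trivial e, cy_mul h0, cy_ine X h1 hτ.1, mul_one]
  clear e
  induction i with
  | zero => rw [pow_zero, cy_one h0]
  | succ i ih => rw [pow_succ, cy_mul h0, ih, h2, mul_one]

theorem EXW_pf (hL : LCE_st) (hT : TFW_st) (hD : DER_st) (hM : MAS_st) (hUC : UCO_st) :
    EXW_st := by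
  intro R _ χ r p n a M b ϖ q Q' P' φ j V X₀ y γ A σ τ ε hX pr dv ov lp tri hVy hU hUγ aA A0 str
    hsp qM X0p hτ kτ hI hε
  have B := H5_ok
  have hC := COI_ok
  have hA := AHM_pf B hC
  have hN := NFA_pf B hA
  have hch := hX.chr B.LZ j
  have hp := hX.pp
  have n1 : 1 ≤ n := by have := hX.n2; omega
  have N0 : p ^ n ≠ 0 := hch.pos
  have pn0 : (p : Zw) ^ n ≠ 0 := pow_ne_zero _ hX.p0
  have tv := hch.trv
  obtain ⟨⟨ml, mr, hrl, hru⟩, hz⟩ := B.ZC R _ j _ _ hch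
  obtain ⟨θ0, θf⟩ := hX.th B.CYG B.THI
  obtain ⟨zco, -, -, zun, -⟩ := hz _ θ0 θf
  obtain ⟨A1, A2, A3, A4, -, -⟩ := hA R φ _ M Q' pn0 hX.ne hX.dn hX.gen hX.φn
  have hLy := hL R χ r p n a M b Q' P' φ j V hX lp
  obtain ⟨d1, d2, d3⟩ := hD R _ j _ _ (fun g => j (A g)) _ hch
    (fun g hg k hk => by beta_reduce; rw [aA g hg k hk, map_add])
    (fun g hg => by rw [A0 g hg, map_zero]) θ0 θf
  obtain ⟨m1, m2, m3, m4⟩ := hM R GK _ _ _ _ y γ (fun g => j (A g)) _ tri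
    (fun g hg k hk => by beta_reduce; rw [aA g hg k hk, map_add])
    (lc_of_open hch.opn fun g hg u hu _ => by rw [aA g hg u hu.1, A0 u hu, add_zero]) d1 d2
  set U := UM M with hUd
  set lam := lamZ φ χ M with hlam
  set θ := Th a ((p : Zw) ^ n • Q') with hθ
  set z := zc j U lam θ with hzd
  set β := zw j U lam (fun g => j (A g)) θ with hβ
  set m := mas (cj j) lam (fun g => j (A g)) β y γ with hm
  set t₀ := eP χ a ((p : Zw) ^ n • Q') ((p : Zw) ^ n • P') with ht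
  set t : GQ → Qb := fun x => t₀ x ^ (A x).val with ht'
  have AD : ∀ h ∈ V.D, ∀ x ∈ GK, A (h * x) = A x := fun h hh x hx => by
    rw [aA h (V.D_le hh) x hx, (hVy h hh).2, zero_add]
  have AU : ∀ x ∈ GK, ∀ u ∈ U, A (x * u) = A x := fun x hx u hu => by
    rw [aA x hx u hu.1, A0 u hu, add_zero]
  have vp0 : ∀ X : Plc, 0 < X.v p := fun X => X.v.pos (Nat.cast_ne_zero.2 hp.ne_zero)
  have vp1 : V.v p < 1 := by simpa [Ov] using lp.ov
  have v30 : 0 < V3.v 3 := V3.v.pos three_ne_zero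
  have t2 : ∀ x ∈ GK, V.v (t x - 1) < V.v p ^ 2 := fun x hx => pow_KEXW V (pow_pos (vp0 V) 2)
    (one_XEXR V ((hLy x hx).1.trans_le (pow_le_one₀ (vp0 V).le vp1.le))).le (hLy x hx).1 _
  have t1 : ∀ x ∈ GK, V.v (t x) = 1 := fun x hx => one_XEXR V
    ((t2 x hx).trans_le (pow_le_one₀ (vp0 V).le vp1.le))
  obtain ⟨δ, δ0, δ1, δ2, δ3⟩ : ∃ δ : ℝ, 0 < δ ∧ δ ≤ ε ∧ δ ≤ V.v p ^ (n + 1) ∧ δ ≤ V3.v 3 :=
    ⟨min ε (min (V.v p ^ (n + 1)) (V3.v 3)), lt_min hε (lt_min (pow_pos (vp0 V) _) v30),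
      min_le_left _ _, (min_le_right _ _).trans (min_le_left _ _),
      (min_le_right _ _).trans (min_le_right _ _)⟩
  set C := (nn M).primeFactors with hCd
  have CM : ∀ X : Plc, Ov X M → X.l ∈ C := fun X h => Nat.mem_primeFactors.2
    ⟨X.hl.out, (B.PLK.2.2.2.1 X _).1 (h.dvd ⟨_, (mul_star_nn M).symm⟩), (nn_pos hX.ne).ne'⟩
  obtain ⟨α, α0, αf, α1, αV, αC, αS⟩ := B.APXF U C {ϖ} (fun _ => V) (fun _ => t) δ hch.opn hch.le δ0
    (by simp [pr, ov]) fun _ _ x hx => ⟨t1 x hx, fun h hh => by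
      simp only [ht']
      rw [(hLy x hx).2.1 h hh, AD h hh x hx, map_pow], fun u hu => by
      simp only [ht']
      rw [(hLy x hx).2.2.1 u hu, AU x hx u hu]⟩
  replace αV : ∀ x ∈ GK, V.v (x α - t x) < δ := αV ϖ (mem_singleton_self _)
  replace αC : ∀ X : Plc, X.l ∈ C → ¬ Ov X ϖ → ∀ x ∈ GK, X.v (x α - 1) < δ := fun X h h' x hx => by
    have := αC (X.mv x) h (by simpa [(B.PLK.2.2.2.2.2.1 X x ϖ).1 hx] using h')
    rwa [Plc.mv_v, map_sub, map_one] at this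
  have αU : ∀ g ∈ GK, ∀ u ∈ U, (g * u) α = g α := fun g _ u hu => by
    rw [AlgEquiv.mul_apply, αf u hu]
  obtain ⟨c, hc⟩ : ∃ c : Zw, ∏ x ∈ Xs U GK, x α = W.io c :=
    (B.PLK.2.2.2.2.2.2.1 _ fun g hg => by
      rw [map_prod]
      exact tv.prod_mul (F := fun x => x α) αU hg).2 fun X => prod_le_XEXR X _ fun x _ => α1 (X.mv x)
  have cV : V.v (W.io c - ∏ x ∈ Xs U GK, t x) < δ := hc ▸ prod_near_XEXR V _ δ0
    (fun x _ => α1 (V.mv x)) (fun x hx => (t1 x (tv.1 x hx)).le) fun x hx => αV x (tv.1 x hx)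
  have cP : Pry c := by
    by_cases h3 : Ov V 3
    · obtain rfl : p = 3 :=
        ((Nat.prime_dvd_prime_iff_eq V.hl.out hp).1 ((B.PLK.2.2.2.1 V p).1 lp.ov)).symm.trans
        ((Nat.prime_dvd_prime_iff_eq V.hl.out Nat.prime_three).1
          ((B.PLK.2.2.2.1 V 3).1 (by simpa using h3)))
      have e := prod_near_XEXR V (Xs U GK) (g := fun _ => 1) (pow_pos (vp0 V) 2)
        (fun x hx => (t1 x (tv.1 x hx)).le) (by simp) fun x hx => t2 x (tv.1 x hx)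
      refine pry_XEXR B.PLK h3 ?_
      rw [prod_const_one] at e
      rw [← sub_add_sub_cancel _ (∏ x ∈ Xs U GK, t x)]
      refine bLocA_add_le V.na (cV.le.trans (δ2.trans ?_)) (e.le.trans ?_) <;>
        exact_mod_cast pow_le_of_le_one (vp0 V).le vp1.le (by omega)
    · have h4 : ¬ Ov V3 ϖ := fun e => h3 (by
        have := ((B.PLK.2.2.1 V ϖ pr ov).2.1 V3 e).1
        exact_mod_cast (B.PLK.2.2.2.1 V 3).2 (this ▸ dvd_rfl))
      have e := prod_near_XEXR V3 (Xs U GK) (f := fun x => x α) (g := fun _ => 1) δ0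
        (fun x _ => α1 (V3.mv x)) (by simp) fun x hx =>
          αC V3 (CM V3 (V3_three.dvd hX.three)) h4 x (tv.1 x hx)
      rw [prod_const_one, hc] at e
      exact pry_XEXR B.PLK V3_three (e.le.trans δ3)
  have cO : ∀ X : Plc, Ov X c ↔ ∃ x ∈ GK, X.v (x α) < 1 := fun X => by
    rw [Ov, ← hc, map_prod]
    refine ⟨fun h => by_contra fun h' => h.ne (prod_eq_one fun x hx => le_antisymm (α1 (X.mv x))
      (not_lt.1 fun e => h' ⟨x, tv.1 x hx, e⟩)), fun ⟨x, hx, e⟩ => ?_⟩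
    obtain ⟨x', ⟨h1, h2⟩, -⟩ := tv.2 x hx
    rw [← mul_inv_cancel_left x' x, αU _ (tv.1 _ h1) _ h2] at e
    rw [← mul_prod_erase _ _ h1]
    exact mul_lt_one_of_nonneg_of_lt_one_left (X.v.nonneg _) e
      (prod_le_one (fun _ _ => X.v.nonneg _) fun k _ => α1 (X.mv k))
  have cS : ∀ X : Plc, Ov X c → Dec X.v ≤ U ∧ X.l ∉ C := fun X h => by
    obtain ⟨x, hx, e⟩ := (cO X).1 h
    obtain ⟨h1, h2, -⟩ := αS (X.mv x) e
    refine ⟨fun g hg => ?_, h2⟩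
    have := hch.nrm (GK.inv_mem hx) (h1 ((mem_Dec_conj X.l X.γ x (x⁻¹ * g * x)).2
      (by simpa [mul_assoc, Plc.v] using hg)))
    simpa [mul_assoc] using this
  obtain ⟨ν, S, W', σ', τ', hν, hS, hS', hsum⟩ := hN R p n j φ M c Q' hp n1 hX.ne hX.three hX.dn
    hch.cyc hX.gen cP fun X h => ⟨(cS X h).1, fun e => (cS X h).2 (CM X e)⟩
  refine ⟨ν, by rw [← hν]; exact cV.trans_le δ1, ?_⟩
  obtain ⟨f, f1, f2, f3, f4, f5⟩ := hT R _ j U lam (Ah φ M Q') α hch A1 A2 A3 α0 αf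
  rw [hc] at f4
  have c0 : W.io c ≠ 0 := W.io_ne cP.ne
  have NR : ((p ^ n : ℕ) : R) = 0 := by simpa using hX.pn
  have nM : ∀ X : Plc, ¬ Ov X M → ¬ Ov X 3 ∧ X.v (p ^ n : ℕ) = 1 ∧ X.I ≤ U ∧
      (∀ g ∈ X.I, Ah φ M Q' g = 0) ∧ (∀ g ∈ X.I, z g = 0) ∧ ∀ g ∈ X.I, β g = 0 := fun X h => by
    have h3 : ¬ Ov X 3 := fun e => h (e.dvd hX.three)
    have hn : ¬ Ov X ((p ^ n : ℕ) : Zw) := fun e => h (e.dvd hX.dN)
    have h1 : X.v (p ^ n : ℕ) = 1 := by simpa using not_Ov.1 hn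
    have h2 : X.I ≤ U := fun g hg => (B.INE X h3 g hg).2.2 M h
    have h4 : ∀ x ∈ GK, X.v (x θ) = 1 := fun x hx => by
      rw [hθ, ← ((B.THI a hX.a0).2.1 x hx _).1]
      exact (B.UNIT a X _ hX.a6 h3).2 ((hX.gd B.CYG).gal hx)
    exact ⟨h3, h1, h2, fun g hg => A4 g ((B.INE X h3 g hg).2.2 _ fun e =>
      (Ov_mul.1 e).elim (fun e => hn (by simpa using e)) h), zun X h1 h2 h4, d3 X h1 h2 h4⟩
  have unb : ∀ (X : Plc) (F : GQ → GQ → R), ¬ Ov X M → Co2 (cj j) GK F → Un2 X.D X.I F →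
      Bo2 (cj j) X.D F := fun X F h h1 h2 =>
    B.UNB R _ _ X F N0 NR (Mu_cj_XEXR N0 j _) (fun g hg => by
      rw [cj, cy_ine X (nM X h).2.1 hg.1, map_one])
      ((((B.LIN R _ GK).1 F F 0).2.2.2 _ _ X.D_le (fun _ _ => rfl) fun _ _ _ _ => rfl).1 h1) h2
  have cupU : ∀ X : Plc, ¬ Ov X M → Bo2 (cj j) X.D m := fun X h => unb X _ h m1 fun g hg k hk =>
    m3 X.I (X.I_le.trans X.D_le) (fun g hg => ⟨hru g ((nM X h).2.2.1 hg),
      hch.one g ((nM X h).2.2.1 hg), (nM X h).2.2.2.2.1 g hg, hU X h g hg, hUγ X h g hg,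
      by rw [A0 g ((nM X h).2.2.1 hg), map_zero], (nM X h).2.2.2.2.2 g hg⟩)
      g (X.D_le hg) k (X.D_le hk)
  have fC : ∀ X : Plc, X.l ∈ C → ¬ Ov X ϖ → Bo2 (cj j) X.D f := fun X h h' =>
    f3 X.D X.D_le fun x hx g hg => by
      obtain ⟨⟨w, e1, e2⟩, -⟩ := B.POW p n X (X.D ⊓ U) (x α) hp (fun _ e => e.1.1)
        (fun k hk => hch.fix_XEXR αf hx k hk.2) ((αC X h h' x hx).trans_le (δ2.trans
          (pow_le_pow_left₀ (vp0 V).le (vp_XEXR B.PLK hp lp.ov X) _)))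
      have w0 : w ≠ 0 := fun e => (map_ne_zero x).2 α0 (by rw [← e1, e, zero_pow N0])
      rw [km_fix N0 ((map_ne_zero x).2 α0) e1 (hch.fix_XEXR αf hx g hg.2) (hch.cyc g hg.2), e2 g hg,
        div_self w0, lz_one N0]
  have X0M : Ov X₀ M := hsp.ov.dvd qM
  have qS : q ∉ S := fun h => (cS _ (hsp.ov.dvd (hS q h).2.1)).2 (CM _ X0M)
  have F0 : Co2 (cj j) GK fun g h => f g h + 2 * m g h :=
    (((B.LIN R _ GK).1 _ _ 0).1 f1 (((B.LIN R _ GK).1 _ _ 2).1 m1 m1).2.2).1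
  have F1 : Co2 (cj j) GK fun g h => (lam σ - 1) * (f g h + 2 * m g h) :=
    (((B.LIN R _ GK).1 _ _ _).1 F0 F0).2.2
  have mD := X₀.D_le
  obtain ⟨b1, b2⟩ := m4 X₀.D mD (lam σ) (y σ) fun g hg =>
    ⟨by rw [cj, cy_KEXW hsp N0 (fun e => X0p (Ov_pow (n := n) (by simpa using e))) g hg, map_one],
      hUC R X₀ q σ lam y hsp.pp.1 hsp.ov hsp.fr (ml.mono_XEXR mD) (tri.cl.mono_XEXR mD)
        (fun g hg => ⟨(hI g hg).1, (hI g hg).2.1⟩) g hg⟩
  have key := B.RCP R p n j _ (insert q S) (fun q' => if q' ∈ S then W' q' else X₀)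
    (fun q' => if q' ∈ S then σ' q' else σ) (fun q' => if q' ∈ S then τ' q' else τ) (fun _ => 1)
    (fun q' => if q' ∈ S then fun g h => (lam σ - 1) * (j (km (p ^ n) g (W.io c)) * Ah φ M Q' h)
      else fun g h => 2 * (-j (A g) * ((lam σ - 1) * γ h + z h * lam h * y σ))) hp n1 F1
    (fun q' hq => ?_) fun X hX' => ?_
  · rw [sum_insert qS, sum_congr rfl (g := fun q => (lam σ - 1) *
      (j (km (p ^ n) (τ' q) (W.io c)) * Ah φ M Q' (σ' q) -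
        j (km (p ^ n) (σ' q) (W.io c)) * Ah φ M Q' (τ' q))) fun q hq => by
        simp only [if_pos hq, map_one]; ring, ← mul_sum, hsum] at key
    simp only [if_neg qS, map_one, (hI τ hτ).2.2.1, (hI τ hτ).2.2.2] at key
    rw [La]
    linear_combination key
  · by_cases h : q' ∈ S
    · obtain ⟨h1, h2, h3, h4⟩ := hS q' h
      obtain ⟨h5, h6⟩ := cS _ (h1.ov.dvd h2)
      have h7 : (W' q').D ≤ U := fun g hg => h5 hg.1
      simp only [if_pos h]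
      refine ⟨h1, h3, by rw [h4, one_mul], ⟨fun g _ k hk k' hk' => ?_, fun k _ g hg g' hg' => ?_⟩, ?_⟩
      · beta_reduce
        rw [A1 k (h7 hk) k' (h7 hk')]
        ring
      · beta_reduce
        rw [km_mul N0 g g' c0, hch.cyc g (h7 hg), W.io_fix (hch.le (h7 hg')), map_add, one_mul]
        ring
      · have e := cupU (W' q') fun e => h6 (CM _ e)
        exact (e.lin_XEXR e (2 * (lam σ - 1)) 0).congr_XEXR fun g hg k hk => by
          rw [f4 g (h7 hg) k (h7 hk)]; ring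
    · obtain rfl := (mem_insert.1 hq).resolve_right h
      have e := fC _ (CM _ X0M) fun e => X0p (e.dvd dv)
      simp only [if_neg h]
      refine ⟨hsp, hτ, by rw [kτ, one_mul], ⟨fun g hg k hk k' hk' => ?_, fun k hk g hg g' hg' => ?_⟩,
        (e.lin_XEXR b2 (lam σ - 1) 2).congr_XEXR fun g _ k _ => by ring⟩
      · exact (congrArg (2 * ·) (b1.1 g hg k hk k' hk')).trans (mul_add _ _ _)
      · exact (congrArg (2 * ·) (b1.2 k hk g hg g' hg')).trans (mul_add _ _ _)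
  by_cases h : Ov X ϖ
  · refine (((B.CNJ R (cj j)).2 V X ϖ (Mu_cj_XEXR N0 j _) pr ov h).2 _ F1) ?_
    obtain ⟨k1, k2⟩ := ((((hC R φ _ _ pn0 hX.genG hX.φn).2.2 χ r M hX.tw hX.ne hX.dr
      hX.dn).2 V.D V.D_le).2.1 P' lp.fx).2
    have : NeZero (p ^ n) := ⟨N0⟩
    have e := f2 V.D θ (fun h => 2 * ic φ (M • Q') (bd χ P' h)) (fun g => j (A g)) V.D_le θ0 θf
      ⟨k1.map fun x => 2 * x, fun g hg k hk => by beta_reduce at *; rw [k2 g hg k hk]; ring⟩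
      (fun x hx => ⟨fun u hu => congrArg j (AU x hx u hu), fun k hk => congrArg j (AD k hk x hx)⟩)
      fun x hx => ((hLy x hx).2.2.2 (x α) (A x).val (fun k hk => hch.fix_XEXR αf hx k hk.2)
        ((αV x hx).trans_le δ2)).congr_XEXR fun g _ k _ => by
          rw [← map_natCast j, ZMod.natCast_zmod_val]
    exact (e.lin_XEXR e (lam σ - 1) 0).congr_XEXR fun g hg k hk => by
      simp only [W.cup, hm, mas, (hVy g hg).2, (hVy k hk).1, map_zero]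
      ring
  by_cases h' : Ov X M
  · obtain ⟨s1, s2⟩ := str X h' h (hX' q (mem_insert_self _ _))
    exact ((fC X (CM X h') h).lin_XEXR (m2 X.D X.D_le (fun g hg => by rw [s2 g hg, map_zero]) s1)
      (lam σ - 1) (2 * (lam σ - 1))).congr_XEXR fun g _ k _ => by ring
  refine ((unb X f h' f1 (f5 X (nM X h').2.1 (nM X h').2.2.1 (nM X h').2.2.2.1
    fun x hx => le_antisymm (α1 (X.mv x)) (not_lt.1 fun e => ?_))).lin_XEXR
    (cupU X h') (lam σ - 1) (2 * (lam σ - 1))).congr_XEXR fun g _ k _ => by ring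
  obtain ⟨q', hq, e'⟩ := hS' X ((cO X).2 ⟨x, hx, e⟩)
  exact hX' q' (mem_insert_of_mem hq) e'

end Pool.Agent.MP_e23604_nt.Z
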