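import Pool.Agent.MP_e23604_nt.Z.KSt

/-!
The cohomological part.
-/

set_option autoImplicit false

open Finset QuadraticAlgebra
open scoped Classical

namespace Pool.Agent.MP_e23604_nt.Z

open B R S W

theorem inv_KGAL {N : Zw} (h : N ≠ 0) : ∃ i : ℕ, ∀ n : ℕ, ∃ d : Zw, (3 : Zw) ^ n ∣ d * N - 3 ^ i := by
  obtain ⟨u, i, c, hu, hc, rfl⟩ := PLK_ok.2.2.2.2.2.2.2.2.2.2.2 N h
  refine ⟨i, fun n => ?_⟩
  have h1 : IsCoprime c 3 := by
    obtain ⟨t, e⟩ := hc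
    exact ⟨1, -t, by linear_combination e⟩
  obtain ⟨x, y, e⟩ := ((isCoprime_mul_unit_left_left hu _ _).2 h1).pow_right (n := n)
  obtain ⟨w, hw⟩ := pow_dvd_pow_of_dvd pw_dvd3 i
  exact ⟨x * w, -y * 3 ^ i, by linear_combination (3 : Zw) ^ i * e - (x * (u * c)) * hw⟩

theorem sah_KGAL {R : Type} [CommRing R] {N : ℕ} {j : ZMod N →+* R} {U : Subgroup GQ}
    {lam y : GQ → R} (h : Chr j U lam) (hy : Co lam GK y) {e : R} (h0 : ∀ u ∈ U, e * y u = 0)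
    {s g : GQ} (hs : s ∈ GK) (hg : g ∈ GK) :
    (lam s - 1) * (e * y g) = (lam g - 1) * (e * y s) := by
  have e1 := hy.2 _ (GK.mul_mem hg hs) _ (h.le (h.ab g hg s hs))
  rw [mul_inv_cancel_left, hy.2 s hs g hg, hy.2 g hg s hs] at e1
  linear_combination e * e1 + lam (g * s) * h0 _ (h.ab g hg s hs)

theorem GAL_of (h1 : KEY_st) (h2 : CHO_st) (h3 : TRA_st) (h4 : AEX_st) (h5 : COM_st)
    (h6 : R2N_st) : GAL_st := by
  intro χ r a hT ha ⟨c₁, m₁, hN⟩ ⟨c, hc⟩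
  obtain ⟨C, hC⟩ := h4 χ r a hT ha
  obtain ⟨N, N0', hE⟩ := MUL_ok.1 r hT.r0
  obtain ⟨i, hi⟩ := inv_KGAL N0'
  refine ⟨C + (c + 2 + 3 * C + 2 * c₁) + i, fun k x ⟨xc, xu, xb⟩ xk => ?_⟩
  obtain ⟨n, hn, hz⟩ := hN (C + 2 * k + 7)
  set M : Zw := 3 ^ (n + m₁) * (9 * r) with hM
  have M0 : M ≠ 0 := mul_ne_zero (pow_ne_zero _ (by decide)) hT.ne
  have pn0 : (3 : Zw) ^ n ≠ 0 := pow_ne_zero _ (by decide)
  obtain ⟨Q', hQ⟩ := (CYG_ok _ (mul_ne_zero pn0 M0)).1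
  have a3 : IsCoprime a 3 := ha.cop.of_isCoprime_of_dvd_right ⟨2 * r, by ring⟩
  have a6 : IsCoprime a (6 * M) := by
    rw [show 6 * M = 6 * r * 3 ^ (n + m₁ + 2) by rw [hM]; ring]
    exact ha.cop.mul_right a3.pow_right
  have hX : XD χ r 3 n (n + m₁) a M (3 ^ n) Q' (Ideal.Quotient.mk (Ideal.span {(3 : Zw) ^ n})) :=
    ⟨hT, Nat.prime_three, by omega, by omega, rfl, a6, hQ, qt_mk _, dvd_rfl⟩
  generalize Ideal.Quotient.mk (Ideal.span {(3 : Zw) ^ n}) = φ at hX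
  obtain ⟨j⟩ := hX.ex_j
  have hch := hX.chr LZ_ok j
  have dn : (3 : Zw) ^ n ∣ M := hX.dn
  have φn : φ (3 ^ n) = 0 := hX.φn
  have hG : Gen ((3 : Zw) ^ n) (M • Q') := hX.genG
  obtain ⟨⟨ml, mr, hrl, hru⟩, hzc⟩ := ZC_pf _ _ j _ _ hch
  obtain ⟨θ0, θf⟩ := hX.th CYG_ok THI_ok
  obtain ⟨zco, -, -, zun, -⟩ := hzc _ θ0 θf
  obtain ⟨i1, i2, i3⟩ := COI_ok _ φ _ _ pn0 hG φn
  obtain ⟨i4, i5⟩ := i3 χ r M hT M0 hX.dr dn
  have xk' : ∀ g ∈ GK, (3 : Zw) ^ k • x g = 0 := fun g hg => by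
    rw [← xk g hg, ← Nat.cast_smul_eq_nsmul Zw]; norm_cast
  have xn : ∀ g ∈ GK, (3 : Zw) ^ n • x g = 0 := fun g hg =>
    dvd_smul (xk' g hg) (pow_dvd_pow _ (by omega))
  obtain ⟨y, hy⟩ : ∃ y : GQ → _, y = fun g => φ N * ic φ (M • Q') (x g) := ⟨_, rfl⟩
  have yc : Co (lamZ φ χ M) GK y := by
    obtain ⟨k1, k2⟩ := (i5 GK le_rfl).1 x xc xn
    rw [hy]
    exact ⟨k1.map fun t => φ N * t, fun g hg h hh => by beta_reduce at *; rw [k2 g hg h hh]; ring⟩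
  have ic0 : ic φ (M • Q') 0 = 0 := by simpa using i1 0
  have yu : Unr (3 * r) y := fun V h τ hτ => by rw [hy]; simp only [xu V h τ hτ, ic0, mul_zero]
  have ys : ∀ W : Plc, Ov W r → Bo (lamZ φ χ M) W.D y := fun W h => by
    have h' : Ov W (3 * r) := h.dvd (dvd_mul_left _ _)
    rw [hy]
    refine STR_ok _ φ χ r M (3 ^ n) 1 N _ W x hT M0 hX.dr (by rwa [mul_one]) isCoprime_one_right
      (by rwa [mul_one]) φn (fun e => ?_) (xb W h') (fun g hg => by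
        rw [mul_one]; exact xn g (W.D_le hg)) fun P hP => hE χ W P hT.add h' hP
    exact (Ov_pow e).cop (b := r) (by
      simpa using ((Nat.prime_three.coprime_iff_not_dvd.2 hT.n3).cast (R := Zw))) h
  have nM : ∀ X : Plc, ¬ Ov X (3 * r) → ¬ Ov X M := fun X h e => by
    rw [show M = 3 ^ (n + m₁ + 1) * (3 * r) by rw [hM]; ring] at e
    exact (Ov_mul.1 e).elim (fun e => h ((Ov_pow e).dvd (dvd_mul_right _ _))) h
  have cup1 := fun (H : Subgroup GQ) (e : H ≤ GK) => CUP_ok _ (cj j) _ _ _ y H (mr.monoK e)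
    (ml.monoK e) (fun g hg => (hrl g (e hg)).symm) (zco.monoK e) (yc.monoK e)
  obtain ⟨γ, γ1, γ2, γ3⟩ := h6 _ _ _ n j _ (3 * r) (hX.qt.chn3 (by omega)).1 (by omega)
    (pw_dvd3.mul_right _) (cup1 GK le_rfl).1 (by rw [W.cup, yc.oneK ml.2.1, mul_zero])
    (fun X h => (cup1 GK le_rfl).2.2.1 _ (X.I_le.trans X.D_le) fun g hg => by
      have h3 : ¬ Ov X 3 := fun e => h (e.dvd (dvd_mul_right _ _))
      have h2 : X.I ≤ UM M := fun g hg => (INE_ok X h3 g hg).2.2 M (nM X h)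
      refine ⟨hch.one g (h2 hg), zun X (by rw [Nat.cast_pow, map_pow]; simp [v_three h3]) h2
        (fun t ht => ?_) g hg, yu X h g hg⟩
      rw [← ((THI_ok a hX.a0).2.1 t ht _).1]
      exact (UNIT_ok a X _ hX.a6 h3).2 ((hX.gd CYG_ok).gal ht))
    fun X h h' => (cup1 X.D X.D_le).2.1 (Or.inr (ys X ((Ov_mul.1 h).resolve_left fun e => h'
      ((Nat.prime_dvd_prime_iff_eq X.hl.out Nat.prime_three).1
        ((PLK_ok.2.2.2.1 X 3).1 (by simpa using e))))))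
  have tri : Tri GK (cj j) (rho j (lamZ φ χ M)) (lamZ φ χ M)
      (zc j (UM M) (lamZ φ χ M) (Th a ((3 : Zw) ^ n • Q'))) y γ :=
    ⟨mr, ml, fun g hg => (hrl g hg).symm, zco, yc, γ1, γ3⟩
  have o3 : Ov V3 (3 * r) := V3_three.dvd (dvd_mul_right _ _)
  obtain ⟨P₀, hP⟩ := xb V3 o3
  have f0 : Fx χ V3.D ((3 : Zw) ^ k • P₀) := fun g hg => by
    rw [eta_smul χ (V3.D_le hg), ← sub_eq_zero, ← smul_sub, ← hP g hg, xk' g (V3.D_le hg)]
  have e0 := hE χ V3 _ hT.add o3 f0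
  have f1 := f0.smul V3.D_le N
  obtain ⟨-, z2, z3⟩ := ZEQ_pf H5_ok V3 pw _ pw_prime (Ov_three.1 V3_three) e0
  have eq : (3 : Zw) ^ n • N • P₀ = (3 : Zw) ^ (n - k) • N • (3 : Zw) ^ k • P₀ := by
    rw [smul_comm N, ← mul_smul _ ((3 : Zw) ^ k), ← pow_add, Nat.sub_add_cancel (by omega)]
  have v1 : V3.v 3 < 1 := by simpa [Ov, map_ofNat] using V3_three
  have v0 : 0 < V3.v 3 := V3.v.pos three_ne_zero
  have lp : LP χ 3 n V3 ((3 : Zw) ^ n • N • P₀) := by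
    rw [eq]
    refine ⟨by simpa using V3_three, (E1m e0 _).1, f1.smul V3.D_le _, ?_⟩
    have b1 := z2 (z3 χ f1) (3 ^ (n - k))
    rw [map_pow, map_pow, map_ofNat] at b1
    have b2 := b1.trans (mul_le_of_le_one_right (pow_pos v0 _).le (zz_lt e0).le)
    refine (pow_le_pow_left₀ (V3.v.nonneg _) b2 2).trans_lt ?_
    rw [show (81 : Qb) = 3 ^ 4 by norm_num, map_pow, Nat.cast_ofNat, ← pow_add, ← pow_mul]
    exact pow_lt_pow_right_of_lt_one₀ v0 v1 (by omega)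
  have kd : KD χ r n (n + m₁) a M Q' (N • P₀) φ j y γ := ⟨hX, lp, tri, yu, γ2, ys, fun g hg => by
    rw [bd_smul (V3.D_le hg), bd, ← hP g hg, ((i2 _ (xn g (V3.D_le hg))).2.1 N), hy]⟩
  obtain ⟨N₁, n1, n2⟩ := h3 _ _ _ _ _ _ _ tri
  have c3 : ∀ g, W.cy (3 ^ (n + 1)) g = 1 → cj j g = 1 := fun g h => by
    have := cy_cast (pow_ne_zero n three_ne_zero) three_ne_zero g
    rw [show W.cy (3 ^ n * 3) g = 1 from h, map_one] at this
    rw [cj, this, map_one]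
  have adm : ∀ g, Ae r n g → 3 ^ (c + 2) * ((lamZ φ χ M g - 1) * La (lamZ φ χ M)
      (zc j (UM M) (lamZ φ χ M) (Th a ((3 : Zw) ^ n • Q'))) y γ g) = 0 := fun g hg => by
    obtain ⟨W, q, σ, t, s1, s2, s3⟩ := h2 r n a N₁ g hT.r0 hX.a0 n1 hg
    refine n2 _ σ g t (W.D_le s1.fr.1) hg.um.1 (c3 σ ?_) s3
      (h1 _ χ r n _ c a M q Q' _ φ j y γ W σ kd ha s1 s2 fun G hG => hc n q W σ G s1 s2 hG)
    have l3 : ¬ W.l ∣ 3 ^ (n + 1) := fun e => by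
      have := (Nat.prime_dvd_prime_iff_eq W.hl.out Nat.prime_three).1 (W.hl.out.dvd_of_dvd_pow e)
      exact s1.pp.l_neK s1.ov this
    rw [((KM_ok _ (pow_ne_zero _ three_ne_zero)).2.2.2.2.2.2.2.2 W l3).2.2 q σ s1.fr, s1.deg,
      ← Nat.sub_add_cancel W.hl.out.one_le, Nat.cast_add, (ZMod.natCast_eq_zero_iff _ _).2 s1.dvd,
      Nat.cast_one, zero_add]
  obtain ⟨g₀, s, hs, ⟨t1, d1⟩, ⟨t2, d2⟩, ⟨t3, d3⟩, g1, g2⟩ := hC _ n M φ j (by omega) M0 hX.dr dn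
    hX.aM (fun b hb e => by
      rw [show M = 3 ^ (n + m₁ + 1) * (3 * r) by rw [hM]; ring] at e
      exact (hb.dvd_or_dvd e).elim (fun e => (hb.dvd_of_dvd_pow e).mul_right _) id) hX.qt
  have com := h5 _ _ _ _ _ _ _ (UM M) _ g₀ s tri (UM_le M)
    (fun g hg u hu => ((PS_ok M M0).1 g hg).2.2.2.2.2.2.2.1 u hu)
    (fun u hu => ⟨hru u hu, hch.one u hu⟩) g1.um.1 hs (c3 _ g1.c1) fun u hu v hv => adm _ (g2 u hu v hv)
  obtain ⟨v, hv, hv'⟩ := hz _ φ j M _ hX.qt rfl hX.genQ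
  obtain ⟨t4, d4⟩ := ((hX.qt.chn3 (by omega)).1.dvd_total _ _).resolve_left hv'
  have kill : ∀ u ∈ UM M, 3 ^ (c + 2 + 3 * C + 2 * c₁) * y u = 0 := fun u hu => by
    have := congrArg (fun w => t1 ^ 2 * t3 * t4 ^ 2 * w) (com u hu v hv)
    rw [show c + 2 + 3 * C + 2 * c₁ = c + 2 + C * 2 + C + c₁ * 2 by ring, pow_add, pow_add, pow_add,
      pow_mul, pow_mul, d4]
    nth_rw 1 [d1]
    rw [d3]
    linear_combination this
  obtain ⟨w, hw⟩ := hX.qt.sur (t2 * (3 ^ (c + 2 + 3 * C + 2 * c₁) * y s))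
  obtain ⟨d, hd⟩ := hi n
  have T0' : (3 : Zw) ^ n • w • M • Q' = 0 := by rw [smul_comm, hG.zero, smul_zero]
  refine ⟨d • w • M • Q', ⟨n, ?_⟩, fun g hg => ?_⟩
  · rw [← Nat.cast_smul_eq_nsmul Zw, smul_comm, Nat.cast_pow, Nat.cast_ofNat, T0', smul_zero]
  have b0 : (3 : Zw) ^ n • bd χ (w • M • Q') g = 0 := by rw [← bd_smul hg, T0', bd]; simp
  have x0 : (3 : Zw) ^ n • (3 ^ (C + (c + 2 + 3 * C + 2 * c₁)) * N) • x g = 0 := by
    rw [smul_comm, xn g hg, smul_zero]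
  have key : (3 ^ (C + (c + 2 + 3 * C + 2 * c₁)) * N) • x g = bd χ (w • M • Q') g := by
    rw [← sub_eq_zero]
    refine (i2 _ (by rw [smul_sub, b0, x0, sub_zero])).2.2.1 hX.qt ?_
    rw [((i2 _ x0).2.2.2 _ b0).2, (i2 _ (xn g hg)).2.1, (i4 g hg _ T0').2, i1, hw, map_mul, map_pow,
      map_ofNat, pow_add, d2]
    have := sah_KGAL hch yc kill hs hg
    rw [hy] at this ⊢
    linear_combination t2 * this
  change _ = bd χ _ g
  rw [bd_smul hg, ← key, ← mul_smul, ← Nat.cast_smul_eq_nsmul Zw]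
  refine smul_congr (xn g hg) ?_
  obtain ⟨t, ht⟩ := hd
  exact ⟨-(3 ^ (C + (c + 2 + 3 * C + 2 * c₁)) * t), by
    push_cast
    linear_combination -(3 : Zw) ^ (C + (c + 2 + 3 * C + 2 * c₁)) * ht⟩

end Pool.Agent.MP_e23604_nt.Z
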