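import Pool.Agent.MP_e23604_nt.Z.KSt

/-!
The local term vanishes at admissible Frobenius elements.
-/

set_option autoImplicit false

open Finset QuadraticAlgebra
open scoped Classical

namespace Pool.Agent.MP_e23604_nt.Z

open B R S W

/-- the weight of a point of the orbit -/
theorem wt_KKEY {r k : ℕ} {a q : Zw} {L : Zw → ZMod (3 ^ k)} (hL : Lg r k a q L)
    (hu : ∀ u, IsUnit u → L u = 0) (χ : GQ → ZMod 3) {T : Pt} (hT : Gen q T) {x : GQ} (hx : x ∈ GK) :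
    L (W.co T (eta χ x T)) = L (ps q x) := by
  obtain ⟨p1, p2, -⟩ := (PS_ok q hL.pp.1.ne_zero).1 x hx
  have h1 : ¬ q ∣ ps q x := hL.pp.1.coprime_iff_not_dvd.1 p2.symm
  have h2 : ¬ q ∣ ω ^ (χ x).val := fun e =>
    hL.pp.1.not_isUnit (isUnit_of_dvd_unit e (w_unit.pow _))
  have e : eta χ x T = ((ω : Zw) ^ (χ x).val * ps q x) • T := by
    rw [eta_apply, p1 T hT.zero, mul_smul]
  rw [← hL.per _ _ (fun e => (hL.pp.1.dvd_or_dvd e).elim h2 h1)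
    (hT.congr.1 (e.symm.trans (co_spec ⟨_, e⟩))), hL.add _ _ h2 h1, hu _ (w_unit.pow _), zero_add]

theorem KEY_pf (hE : EXW_st) (hN : NRW_st) (hZ : ZNR_st) (hA : ALK_st) (hL : LGK_st) : KEY_st := by
  intro R _ χ r n m c a M q Q' P' φ j y γ U σ hK hAd hS hLg hT
  have hX := hK.xd
  have tw := hX.tw
  have hM : M = 3 ^ m * (9 * r) := hX.hM
  have qp := hS.pp.1
  have σK : σ ∈ GK := hS.fr.1.2
  have n9 : (9 * r : Zw) ^ 2 ∣ q - 1 := by
    have := hLg.n0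
    rw [N0] at this
    push_cast at this
    rwa [mul_pow, show (9 : Zw) ^ 2 = 81 by norm_num]
  have q9 : ¬ q ∣ 9 * r := fun e =>
    qp.not_dvd_one (by simpa using dvd_sub (dvd_refl q) ((e.pow two_ne_zero).trans n9))
  have qM : ¬ q ∣ M := fun e => (qp.dvd_or_dvd (hM ▸ e)).elim
    (fun e => q9 ((qp.dvd_of_dvd_pow e).trans ⟨3 * r, by ring⟩)) q9
  have aq : IsCoprime a q := hAd.pp.1.coprime_iff_not_dvd.2 fun e =>
    hLg.na ((Nat.prime_dvd_prime_iff_eq hAd.deg hLg.deg).1 (nn_dvd e)).symm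
  have cop : IsCoprime a (6 * (M * q)) := mul_assoc 6 M q ▸ hX.cop.mul_right aq
  have WM : ¬ Ov U M := fun e => qM (((PLK_ok.2.2.1 U q qp hS.ov).1 M).1 e)
  have W3 : ¬ Ov U 3 := fun e => WM (e.dvd hX.three)
  have Wl : U.l ≠ 3 := fun e => W3 (by simpa [e] using Ov_l U)
  have r3 : (3 * r : Zw) ∣ M := dvd_trans ⟨3, by ring⟩ hX.dr
  have Wr : ¬ Ov U (3 * r) := fun e => WM (e.dvd r3)
  have N0' : 3 ^ n ≠ 0 := pow_ne_zero _ three_ne_zero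
  obtain ⟨Q₁, g1, g2⟩ := (CYG_ok _ (mul_ne_zero (pow_ne_zero n hX.p0) hX.ne)).2.2 Q' q hX.gen
    qp.ne_zero
  have hY : XE χ r 3 n a (M * q) (3 ^ n) Q₁ φ :=
    ⟨tw, hX.pp, hX.n2, mul_ne_zero hX.ne qp.ne_zero, hX.dr.mul_right _, hX.dn.mul_right _, cop,
      by rwa [← mul_assoc, mul_comm], hX.qt, hX.bp⟩
  have gQ : Gen (M * q) ((3 : Zw) ^ n • Q₁) := hY.genQ
  obtain ⟨hl, m₀, hz⟩ := hZ R χ r n a M q _ φ j U σ tw hX.ne hX.dr hX.dn hX.φM cop hS.pp hS.ov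
    hS.fr qM gQ
  rw [smul_comm q, g2] at hz
  have ch := hX.chr LZ_ok j
  obtain ⟨⟨-, -, -, hru⟩, zc0⟩ := H5_ok.ZC R _ j _ _ ch
  obtain ⟨θ0, θf⟩ := hX.th CYG_ok THI_ok
  obtain ⟨-, -, -, zun, -⟩ := zc0 _ θ0 θf
  obtain ⟨⟨ml, mr, hrl, -⟩, zc1⟩ := H5_ok.ZC R _ j _ _ (hY.chr LZ_ok j)
  obtain ⟨θ1, θg⟩ := hY.th CYG_ok THI_ok
  have zco : Co (rho j (lamZ φ χ (M * q))) GK
    (zc j (UM (M * q)) (lamZ φ χ (M * q)) (Th a ((3 : Zw) ^ n • Q₁))) := (zc1 _ θ1 θg).1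
  replace zun : ∀ V : Plc, V.v (3 ^ n : ℕ) = 1 → V.I ≤ UM M →
    (∀ y ∈ GK, V.v (y (Th a ((3 : Zw) ^ n • Q'))) = 1) →
    ∀ τ ∈ V.I, zc j (UM M) (lamZ φ χ M) (Th a ((3 : Zw) ^ n • Q')) τ = 0 := zun
  have tri := hK.tri
  set lam := lamZ φ χ M with hlam
  set z := zc j (UM M) lam (Th a ((3 : Zw) ^ n • Q')) with hzd
  obtain ⟨A1, A2, A3, A4⟩ := hA r n a q U σ tw.r0 hS hLg
  obtain ⟨τ, τI, τ1⟩ := (TAME_ok 3 n U Nat.prime_three Wl Wl).2.1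
  have t0 : 0 < V3.v 3 := V3.v.pos three_ne_zero
  have t1 : V3.v 3 ≤ 1 := (v3_lt (Ov_three.1 V3_three)).le
  have IU : U.I ≤ UM M := fun g hg => (INE_ok U W3 g hg).2.2 M WM
  obtain ⟨ν, h1, h2⟩ := hE R χ r 3 n a (M * q) (3 ^ n) pw q Q₁ P' φ j V3 U y
    (fun g => (1 - lam σ⁻¹) * γ g + m₀ * y g) (fun g => lk n σ (ps q g)) σ τ
    (V3.v 3 ^ (2 * m + n + 2)) hY pw_prime pw_dvd3 (Ov_three.1 V3_three) hK.lp
    ⟨mr, ml, fun g hg => (hrl g hg).symm, zco,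
      ⟨tri.cl.1, fun g hg h hh => by rw [hl g hg]; exact tri.cl.2 g hg h hh⟩,
      tri.lc.map₂ tri.cl.1 fun u v => (1 - lam σ⁻¹) * u + m₀ * v, fun g hg h hh => by
        have b1 := tri.bd g hg h hh
        have b2 := tri.eq g hg
        have b3 := tri.cl.2 g hg h hh
        have b4 := hz g hg
        simp only [W.cup, Nat.cast_ofNat] at b1 ⊢
        rw [b4, hl g hg]
        linear_combination (1 - lam σ⁻¹) * b1 - m₀ * y h * b2 + m₀ * b3⟩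
    (fun g hg => ⟨by rw [mul_smul, g2]; exact hK.loc g hg,
      A3 V3 (V3_three.dvd (dvd_mul_right _ _)) g hg⟩)
    (fun V hV => hK.uy V fun e => hV (e.dvd (r3.mul_right _)))
    (fun V hV g hg => by
      have : ¬ Ov V (3 * r) := fun e => hV (e.dvd (r3.mul_right _))
      simp only [hK.uy V this g hg, hK.ug V this g hg, mul_zero, add_zero])
    A1 (fun g hg => A2 g (UM_mono (dvd_mul_left _ _) hg))
    (fun X e1 e2 e3 => by
      have e4 : ¬ Ov X 3 := fun e => e2 (Ov_three.1 e)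
      have e5 : Ov X r := by
        rw [hM, show (9 : Zw) = 3 ^ 2 by norm_num] at e1
        exact (Ov_mul.1 ((Ov_mul.1 ((Ov_mul.1 e1).resolve_right e3)).resolve_left
          fun e => e4 (Ov_pow e))).resolve_left fun e => e4 (Ov_pow e)
      obtain ⟨u, hu⟩ := hK.str X e5
      exact ⟨⟨u, fun g hg => by rw [hl g hg.2]; exact hu g hg⟩,
        A3 X (e5.dvd (dvd_mul_left _ _))⟩)
    ⟨hS.pp, hS.ov, hS.deg, (pow_dvd_pow 3 n.le_succ).trans hS.dvd, hS.fr⟩ (dvd_mul_left _ _) W3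
    τI τ1 (fun g hg => by
      have b1 := hK.uy U Wr g hg
      have b2 := hz g hg.2
      rw [hru g (IU hg), sub_self, zero_mul, add_zero, zun U
        (by rw [Nat.cast_pow, map_pow, Nat.cast_ofNat, v_three W3, one_pow]) IU (fun x hx => by
          rw [← ((THI_ok a hX.a0).2.1 x hx _).1]
          exact (UNIT_ok a U _ hX.a6 W3).2 ((hX.gd CYG_ok).gal hx)) g hg, mul_zero] at b2
      exact ⟨(hl g hg.2).trans (ch.one g (IU hg)), b1,
        by simp only [b1, hK.ug U Wr g hg, mul_zero, add_zero], b2⟩) (pow_pos t0 _)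
  simp only [Nat.cast_ofNat] at h1 h2
  have fr := (FRB_ok U q hS.pp hS.ov).2 σ hS.fr
  have l1 : lam σ = φ q := by
    obtain ⟨d, hd⟩ := (((PS_ok M hX.ne).1 σ σK).2.2.2.2.1 q).1 fun P => fr.2 M P WM
    rw [hlam, lamZ, tw.fac σ ⟨σK, fun P hP => by
      rw [fr.2 _ P (fun e => WM (e.dvd hX.dr)) hP,
        smul_congr hP ((dvd_pow_self _ two_ne_zero).trans n9), one_smul]⟩, ZMod.val_zero, pow_zero,
      one_mul, sub_eq_iff_eq_add.1 hd, map_add, map_mul, hX.φM, zero_mul, zero_add]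
  have l2 : cj j σ = 1 := by
    have b1 := ((KM_ok _ N0').2.2.2.2.2.2.2.2 U fun e =>
      Wl ((Nat.prime_dvd_prime_iff_eq U.hl.out Nat.prime_three).1
        (U.hl.out.dvd_of_dvd_pow e))).2.2 q σ hS.fr
    have b2 : ((U.l - 1 : ℕ) : ZMod (3 ^ n)) = 0 :=
      (ZMod.natCast_eq_zero_iff _ _).2 ((pow_dvd_pow 3 n.le_succ).trans hS.dvd)
    rw [cj, b1, hS.deg, ← Nat.sub_add_cancel U.hl.out.one_le, Nat.cast_succ, b2, zero_add, map_one]
  have l3 : lam σ⁻¹ * lam σ = 1 := by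
    rw [← tri.ml.2.2 _ (GK.inv_mem σK) _ σK, inv_mul_cancel, tri.ml.2.1]
  have l4 := (tri.eq σ σK).symm.trans l2
  have hM' : 3 ^ m * (9 * r * q) = M * q := by rw [hM]; ring
  have gG : Gen (9 * r * q) ((3 : Zw) ^ m • (3 : Zw) ^ n • Q₁) :=
    Gen.smul (hM' ▸ gQ) (pow_ne_zero _ hX.p0)
  obtain ⟨c₀, k1, k2⟩ := hN χ r n m a (9 * r * q) ((3 : Zw) ^ n • Q₁) ((3 : Zw) ^ n • P')
    (fun Y => (lk n σ (W.co ((9 * r : Zw) • (3 : Zw) ^ m • (3 : Zw) ^ n • Q₁)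
      ((9 * r : Zw) • Y))).val) tw (mul_ne_zero tw.ne qp.ne_zero) (dvd_mul_right _ _)
    (cop.of_isCoprime_of_dvd_right (mul_dvd_mul_left _ (hM' ▸ dvd_mul_left _ _))) (hM' ▸ gQ) hK.lp
  have w1 : ∀ x ∈ GK, lk n σ (W.co ((9 * r : Zw) • (3 : Zw) ^ m • (3 : Zw) ^ n • Q₁)
      ((9 * r : Zw) • eta χ x ((3 : Zw) ^ m • (3 : Zw) ^ n • Q₁))) = lk n σ (ps q x) :=
    fun x hx => by
      rw [← eta_smul χ hx]
      exact wt_KKEY hLg (hL n U q σ hS).2.2.1 χ (gG.smul tw.ne) hx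
  have tv := (Xs_trv (UM_open hY.ne) (UM_le _)).1
  have tv' := (Xs_trv (UM_open (mul_ne_zero tw.ne qp.ne_zero)) (UM_le _)).1
  rw [hM', prod_congr rfl fun x hx => by rw [← eta_smul χ (tv x hx), w1 x (tv x hx)],
    sum_congr rfl fun x hx => by rw [w1 x (tv' x hx)]] at k2
  have k3 := hT _ gG
  rw [Td] at k3
  set D := ∑ x ∈ Xs (UM (9 * r * q)) GK, ((lk n σ (ps q x)).val : Qb) *
    de a (eta χ x ((3 : Zw) ^ m • (3 : Zw) ^ n • Q₁))
  set E := ∏ x ∈ Xs (UM (M * q)) GK,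
    eP χ a ((3 : Zw) ^ n • Q₁) ((3 : Zw) ^ n • P') x ^ (lk n σ (ps q x)).val
  have k4 : V3.v (W.io (3 ^ c * (q - 1)) * W.io (M * q * ν)) ≤ V3.v 3 ^ m * V3.v 3 ^ n := by
    have b1 := (bLocA_add_le V3.na h1.le k2).trans
      (pow_le_pow_of_le_one t0.le t1 (show m + n ≤ 2 * m + n + 2 by omega))
    rw [show W.io (3 ^ c * (q - 1)) * W.io (M * q * ν) = W.io (3 ^ c * (q - 1)) *
        (W.io (1 + M * q * ν) - E + (E - 1 - 2 * c₀ * zz ((3 : Zw) ^ n • P') * D)) +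
        W.io 2 * (zz ((3 : Zw) ^ n • P') * (c₀ * (D * W.io (q - 1) * 3 ^ c))) by
      simp only [map_add, map_mul, map_pow, map_one, map_ofNat]
      ring]
    refine bLocA_add_le V3.na ((bLocA_mul_le (V3.io_le _)).trans (b1.trans_eq (pow_add _ _ _)))
      ((bLocA_mul_le (V3.io_le _)).trans ((bLocA_mul_le (zz_lt hK.lp.e1).le).trans ?_))
    rw [map_mul, map_mul, map_mul, map_pow]
    exact mul_le_mul k1 k3 (by positivity) (pow_pos t0 _).le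
  have k5 : pw ^ (2 * n) ∣ 3 ^ (c + 2) * (q - 1) * ν := by
    refine ((PLK_ok.2.2.1 V3 pw pw_prime (Ov_three.1 V3_three)).2.2.2.2.2.1 _ _).2
      ((le_of_mul_le_mul_left (le_of_eq_of_le ?_ k4) (pow_pos t0 m)).trans_eq ?_)
    · have b1 : V3.v (W.io r) = 1 := not_Ov.1 fun e => tw.n3 ((PLK_ok.2.2.2.1 V3 r).1 e)
      have b2 : V3.v (W.io q) = 1 := not_Ov.1 (V3_not hS.pp.2.pw)
      rw [show W.io (3 ^ c * (q - 1)) * W.io (M * q * ν) =
          W.io r * (W.io q * (3 ^ m * W.io (3 ^ (c + 2) * (q - 1) * ν))) by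
        rw [hM]
        simp only [map_mul, map_pow, map_ofNat]
        ring, map_mul V3.v, map_mul V3.v, map_mul V3.v, b1, b2, map_pow, one_mul, one_mul]
    · rw [pow_mul, ← map_pow V3.v (W.io pw), io_pw_sq, V3.v.map_neg]
  have k6 := (hX.qt.ker _).2 ((pw_three n).dvd.trans k5)
  rw [map_mul, map_mul, map_pow, map_ofNat, map_sub, map_one, ← l1] at k6
  have u2 : IsUnit ((3 : R) - 1) := IsNilpotent.isUnit_sub_one ⟨n, by simpa using hX.pn⟩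
  refine ((u2.pow 3).mul ((A4 τ τI τ1).map j)).mul_right_eq_zero.1 ?_
  rw [La, hl σ σK, hz σ σK] at h2
  rw [La]
  linear_combination (4 * lam σ) * k6 - 3 ^ (c + 2) * lam σ * h2 -
    8 * 3 ^ (c + 2) * j (lk n σ (ps q τ)) * lam σ * m₀ * y σ * l4 +
    8 * 3 ^ (c + 2) * j (lk n σ (ps q τ)) * ((lam σ - 1) * γ σ + z σ * lam σ * y σ) * l3

end Pool.Agent.MP_e23604_nt.Z
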