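import Pool.Agent.MP_e23604_nt.Z.KSt

/-!
The logarithm defined by a Frobenius element.
-/

set_option autoImplicit false

open Finset QuadraticAlgebra
open scoped Classical

namespace Pool.Agent.MP_e23604_nt.Z

open B R S W

section

variable {k : ℕ} {V : Plc} {lam : Zw} {φ : GQ}

theorem l3_KLGK (h : Sp (3 ^ (k + 1)) V lam φ) : V.l ≠ 3 := fun e => by
  have := (dvd_pow_self 3 (Nat.succ_ne_zero k)).trans h.dvd
  rw [e] at this
  norm_num at this

theorem nd_KLGK (h : Sp (3 ^ (k + 1)) V lam φ) (m : ℕ) : ¬ V.l ∣ 3 ^ m := fun e =>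
  l3_KLGK h ((Nat.prime_dvd_prime_iff_eq V.hl.1 Nat.prime_three).1 (V.hl.1.dvd_of_dvd_pow e))

theorem cy_KLGK (h : Sp (3 ^ (k + 1)) V lam φ) {m : ℕ} (hm : m ≤ k + 1) : W.cy (3 ^ m) φ = 1 := by
  rw [((KM_ok (3 ^ m) (by positivity)).2.2.2.2.2.2.2.2 V (nd_KLGK h m)).2.2 lam φ h.fr, h.deg]
  obtain ⟨c, hc⟩ := (pow_dvd_pow 3 hm).trans h.dvd
  rw [show V.l = 3 ^ m * c + 1 by have := V.hl.1.pos; omega, Nat.cast_add, Nat.cast_mul,
    ZMod.natCast_self, zero_mul, zero_add, Nat.cast_one]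

theorem ov_KLGK (h : Sp (3 ^ (k + 1)) V lam φ) (b : Zw) : Ov V b ↔ lam ∣ b :=
  (PLK_ok.2.2.1 V lam h.pp.1 h.ov).1 b

theorem key_KLGK (h : Sp (3 ^ (k + 1)) V lam φ) {m : ℕ} (hm : V.l - 1 = 3 ^ k * m) {u : Zw}
    (hu : ¬ lam ∣ u) : V.v (zt (3 ^ k) ^ (lk k φ u).val - W.io (u ^ m)) < 1 := by
  have hN : 3 ^ k ≠ 0 := by positivity
  have u0 : W.io u ≠ 0 := io_ne fun e => hu (e ▸ dvd_zero _)
  have e1 := km_spec hN φ u0
  rw [io_fix h.fr.1.2] at e1
  have e2 := rt_pow hN (W.io u)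
  have v1 : V.v (rt (3 ^ k) (W.io u)) = 1 := by
    have := congrArg V.v e2
    rw [map_pow, not_Ov.1 fun e => hu ((ov_KLGK h u).1 e)] at this
    exact (pow_eq_one_iff_of_nonneg (V.v.nonneg _) hN).1 this
  have e3 := h.fr.2 _ v1.le
  rw [e1, h.deg, show V.l = 3 ^ k * m + 1 by have := V.hl.1.pos; omega, pow_succ, pow_mul, e2,
    ← sub_mul, map_mul, v1, mul_one, ← map_pow] at e3
  exact e3

end

theorem LGK_pf : LGK_st := by
  intro k V lam φ h
  have hN : 3 ^ k ≠ 0 := by positivity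
  have hG : φ ∈ GK := h.fr.1.2
  have hc := cy_KLGK h (Nat.le_succ k)
  obtain ⟨m, hm⟩ := (pow_dvd_pow 3 (Nat.le_succ k)).trans h.dvd
  have a1 : ∀ u v, u ≠ 0 → v ≠ 0 → lk k φ (u * v) = lk k φ u + lk k φ v := fun u v hu hv => by
    rw [lk, map_mul, km_fix_mul hN (io_ne hu) (io_ne hv) (io_fix hG u) (io_fix hG v) hc]
    rfl
  refine ⟨a1, fun u v hu e => ?_, fun u hu => ?_, ?_⟩
  · have hv : ¬ lam ∣ v := fun e' => hu (by simpa using dvd_add e e')
    have e1 : V.v (W.io (u ^ m) - W.io (v ^ m)) < 1 := by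
      rw [← map_sub]
      exact (ov_KLGK h _).2 (e.trans (sub_dvd_pow_sub_pow u v m))
    refine zt_inj hN (((KM_ok (3 ^ k) hN).2.2.2.2.2.2.2.2 V (nd_KLGK h k)).1 _ _
      (zt_val_pow hN _) (zt_val_pow hN _) ?_)
    have := bLocA_sub_lt V.na (bLocA_add_lt V.na (key_KLGK h hm hu) e1) (key_KLGK h hm hv)
    rwa [sub_add_sub_cancel, sub_sub_sub_cancel_right] at this
  · obtain ⟨i, e⟩ := unit6 hu
    have s1 := rt_pow hN (W.io (ω ^ i))
    have s0 := rt_ne hN (io_ne (w_unit.pow i).ne_zero)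
    have s2 : φ (rt (3 ^ k) (W.io (ω ^ i))) = rt (3 ^ k) (W.io (ω ^ i)) :=
      (cy_eq_one (by positivity)).1 (cy_KLGK h le_rfl) _ (by
        rw [pow_succ, pow_mul, s1, ← map_pow, ← pow_mul, mul_comm, pow_mul, www, one_pow, map_one])
    rcases e with rfl | rfl
    · rw [lk, km_fix hN (io_ne hu.ne_zero) s1 (io_fix hG _) hc, s2, div_self s0, lz_one hN]
    · rw [lk, km_fix hN (io_ne hu.ne_zero) (s := -rt (3 ^ k) (W.io (ω ^ i)))
        (by rw [Odd.neg_pow (Odd.pow (by decide)), s1, map_neg]) (io_fix hG _) hc, map_neg, s2,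
        div_self (neg_ne_zero.2 s0), lz_one hN]
  · obtain ⟨g, hg⟩ := IsCyclic.exists_ofOrder_eq_natCard (α := (ZMod V.l)ˣ)
    rw [Nat.card_eq_fintype_card, ZMod.card_units, hm] at hg
    have g0 : (g : ZMod V.l).val ≠ 0 := (ZMod.val_ne_zero _).2 g.ne_zero
    have g1 : ∀ n : ℕ, lam ∣ (n : Zw) ↔ (n : ZMod V.l) = 0 := fun n => by
      rw [← ov_KLGK h, PLK_ok.2.2.2.1, ZMod.natCast_eq_zero_iff]
    have hu : ¬ lam ∣ ((g : ZMod V.l).val : Zw) := by
      rw [g1, ZMod.natCast_zmod_val]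
      exact g.ne_zero
    refine ⟨_, hu, ?_⟩
    have : NeZero (3 ^ k) := ⟨hN⟩
    rw [← ZMod.natCast_zmod_val (lk k φ _), ZMod.isUnit_iff_coprime]
    by_contra hn
    obtain ⟨j, rfl⟩ : ∃ j, k = j + 1 := Nat.exists_eq_succ_of_ne_zero fun e => hn (by
      subst e; exact Nat.coprime_one_right _)
    obtain ⟨c, e⟩ : 3 ∣ (lk (j + 1) φ ((g : ZMod V.l).val : Zw)).val := by_contra fun e =>
      hn (((Nat.Prime.coprime_iff_not_dvd Nat.prime_three).2 e).symm.pow_right _)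
    have e1 : lk (j + 1) φ (((g : ZMod V.l).val : Zw) ^ 3 ^ j) = 0 := by
      rw [lk, map_pow, km_fix_pow hN (io_ne (Nat.cast_ne_zero.2 g0)) (io_fix hG _) hc, ← lk,
        ← ZMod.natCast_zmod_val (lk (j + 1) φ _), e, ← Nat.cast_mul, ← mul_assoc, ← pow_succ,
        Nat.cast_mul, ZMod.natCast_self, zero_mul]
    have e2 := key_KLGK h hm (u := ((g : ZMod V.l).val : Zw) ^ 3 ^ j)
      fun e => hu (h.pp.1.dvd_of_dvd_pow e)
    rw [e1, ZMod.val_zero, pow_zero, AbsoluteValue.map_sub, ← map_one W.io, ← map_sub, ← pow_mul]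
      at e2
    have e3 : lam ∣ (((g : ZMod V.l).val ^ (3 ^ j * m) - 1 : ℕ) : Zw) := by
      rw [Nat.cast_sub (Nat.one_le_pow _ _ (Nat.pos_of_ne_zero g0))]
      exact_mod_cast (ov_KLGK h _).1 e2
    rw [g1, Nat.cast_sub (Nat.one_le_pow _ _ (Nat.pos_of_ne_zero g0)), Nat.cast_pow,
      ZMod.natCast_zmod_val, Nat.cast_one, sub_eq_zero, ← Units.val_pow_eq_pow_val,
      Units.val_eq_one, ← orderOf_dvd_iff_pow_eq_one, hg] at e3
    have m0 : 0 < 3 ^ j * m := by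
      have := V.hl.1.two_le
      rcases m with _ | m
      · omega
      · positivity
    have := Nat.le_of_dvd m0 e3
    rw [pow_succ, mul_right_comm] at this
    omega

theorem ALK_pf (h : LGK_st) : ALK_st := by
  intro r k a lam V φ hr hS hL
  obtain ⟨a1, -, a3, u, hu, hu'⟩ := h k V lam φ hS
  have hp := hS.pp.1
  have l0 := hp.ne_zero
  have nd : ∀ g ∈ GK, ¬ lam ∣ ps lam g := fun g hg =>
    hp.coprime_iff_not_dvd.1 ((PS_ok lam l0).1 g hg).2.1.symm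
  have act : ∀ g ∈ GK, ∀ c : Zw, (∀ P : Pt, lam • P = 0 → gal g P = c • P) →
      lk k φ (ps lam g) = lk k φ c := fun g hg c e =>
    hL.per _ _ (nd g hg) ((((PS_ok lam l0).1 g hg).2.2.2.2.1 c).1 e)
  have b1 : Adt GK fun g => lk k φ (ps lam g) := fun g hg g' hg' =>
    (hL.per _ _ (nd _ (GK.mul_mem hg hg')) (((PS_ok lam l0).1 g hg).2.2.2.2.2.1 g' hg')).trans
      (hL.add _ _ (nd g hg) (nd g' hg'))
  have b2 : ∀ g ∈ UM lam, lk k φ (ps lam g) = 0 := fun g hg =>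
    (act g hg.1 1 fun P e => by rw [hg.2 P e, one_smul]).trans (a3 1 isUnit_one)
  have d6 : (3 * r : Zw) ∣ 6 * r := ⟨2, by ring⟩
  refine ⟨b1, b2, fun X hX g hg => ?_, fun τ hτ e => ?_⟩
  · obtain ⟨ϖ, p1, p2, p3, p4⟩ := PLK_ok.1 X
    have p5 := (PLK_ok.2.2.1 X ϖ p1 p2).1
    have p6 := hL.sm ϖ (((p5 _).1 hX).trans d6)
    by_cases h3 : X.l = 3
    · obtain rfl := p3 h3
      obtain ⟨e, n, e1, e2, -⟩ := dpi_all p2 hS.pp.2.pw hg ∅
      have e3 : IsUnit ((e : Zw) * ω ^ (kum 2 g).val) :=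
        IsUnit.mul (by rcases e1 with rfl | rfl <;> simp) (w_unit.pow _)
      rw [act g hg.2 _ e2, a1 _ _ e3.ne_zero (pow_ne_zero _ pw_ne), a3 _ e3, zero_add]
      clear e2
      induction n with
      | zero => exact a3 _ (by simp)
      | succ n ih => rw [pow_succ, a1 _ _ (pow_ne_zero _ pw_ne) pw_ne, ih, p6, add_zero]
    · have n3 : ¬ Ov X 3 := fun e => h3 ((Nat.prime_dvd_prime_iff_eq X.hl.1 Nat.prime_three).1
        ((PLK_ok.2.2.2.1 X 3).1 (by exact_mod_cast e)))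
      have nl : ¬ Ov X lam := fun e => p1.not_dvd_one (by
        have d : (3 * r : Zw) ∣ N0 r := ⟨27 * r, by rw [N0]; push_cast; ring⟩
        simpa using dvd_sub ((p5 _).1 e) (((p5 _).1 hX).trans (d.trans hL.n0)))
      obtain ⟨⟨σ, hσ⟩, -, -, f⟩ := FRK_ok X ϖ p1 p2
      have f1 : lk k φ (ps lam σ) = 0 := (act σ hσ.1.2 ϖ
        fun P e => (((FRB_ok X ϖ (p4 h3) p2).2 σ hσ).2 lam P nl e)).trans p6
      obtain ⟨N, n1, n2⟩ := ex_ON (UM_open l0)
      obtain ⟨i, t, t1, t2⟩ := (f σ hσ).2.2.2.1 N n1 g hg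
      have t3 := (INE_ok X n3 t t1).2.2 lam nl
      have t4 : ∀ i : ℕ, lk k φ (ps lam (σ ^ i)) = 0 := fun i => by
        induction i with
        | zero => exact b2 _ (by simp)
        | succ i ih =>
          rw [pow_succ]
          exact (b1 _ (GK.pow_mem hσ.1.2 i) σ hσ.1.2).trans (by simp only [ih, f1, add_zero])
      have t5 := b1 _ (GK.mul_mem (GK.pow_mem hσ.1.2 i) t3.1) _ (n2 t2).1
      have t6 := b1 _ (GK.pow_mem hσ.1.2 i) _ t3.1
      simp only [mul_inv_cancel_left] at t5 t6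
      rw [t5, t6, t4, b2 _ t3, b2 _ (n2 t2), add_zero, add_zero]
  · have hI : V.I ≤ GK := V.I_le.trans V.D_le
    obtain ⟨⟨T, hT⟩, hc, -⟩ := CYG_ok lam l0
    obtain ⟨t, t1, t2⟩ := RAMQ_of PLK_ok V lam T (u • T) hS.pp hL.deg hS.ov hT.zero
      (by rw [smul_comm, hT.zero, smul_zero])
      (fun e => hp.not_dvd_one ((hT 1).1 (by rw [e, smul_zero]))) fun e => hu ((hT u).1 e)
    have t3 := (TAME_ok 3 k V Nat.prime_three (l3_KLGK hS) (l3_KLGK hS)).2.2.2.2.2 _ _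
      (b1.mono hI) (lc_of_open (UM_open l0) fun g hg v hv _ =>
        (b1 g (hI hg) v hv.1).trans (by simp only [b2 v hv, add_zero]))
      (fun v _ => by rw [nsmul_eq_mul, ZMod.natCast_self, zero_mul]) τ hτ e t t1
    rw [act t (hI t1) u fun P e => by
      obtain ⟨c, rfl⟩ := hc T hT P e
      rw [gal_smul (hI t1), t2, smul_comm], nsmul_eq_mul] at t3
    exact isUnit_of_mul_isUnit_right (t3 ▸ hu')

end Pool.Agent.MP_e23604_nt.Z
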