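import Pool.Agent.MP_e23604_nt.Z.KSt

/-!
The estimate for the weighted product.
-/

set_option autoImplicit false

open Finset QuadraticAlgebra
open scoped Classical

namespace Pool.Agent.MP_e23604_nt.Z

open B R S W

variable {V : Plc} {χ : GQ → ZMod 3} {r : ℕ} {a : Zw}

theorem pow_KNRW {F : Pt → Qb} {l : Qb} (h : Lin_XNRE V F l) (k : ℕ) :
    Lin_XNRE V (fun P => F P ^ k) (k * l) := by
  simpa using prod_XNRE (range k) (f := fun _ => F) (e := fun _ => l) fun _ _ => h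

theorem one_KNRW (a6 : IsCoprime a 6) (ha : ¬ Ov V a) {Q : Pt} {y : GQ}
    (hY : Gd (eta χ y Q)) : Lin_XNRE V (fun P => eP χ a Q P y) (2 * de a (eta χ y Q)) := by
  have k := fun P => H5_ok.TAY a V _ P a6 ha hY
  have z : V.v (zz (0 : Pt)) < V.v 9 := by
    rw [zz_zero, map_zero]
    exact (nine_XNRE V).1
  obtain ⟨k1, k2, -⟩ := k 0 ((E1_iff _ _).2 (Or.inl rfl)) z
  have l1 : Lin_XNRE V (fun P => Th a (eta χ y Q + P) / Th a (eta χ y Q)) (de a (eta χ y Q)) :=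
    ⟨k1, fun P h1 h2 => by rw [sub_sub]; exact (k P h1 h2).2.2.2.1⟩
  have l2 : Lin_XNRE V (fun P => Th a (eta χ y Q - P) / Th a (eta χ y Q)) (-de a (eta χ y Q)) :=
    ⟨by rwa [V.v.map_neg], fun P h1 h2 => by
      rw [sub_sub, neg_mul, ← sub_eq_add_neg]; exact (k P h1 h2).2.2.2.2.1⟩
  rw [two_mul, ← sub_neg_eq_add]
  exact congr_XNRE (div_XNRE l1 l2) fun P _ _ => by rw [eP, div_div_div_cancel_right₀ k2]

theorem dis_KNRW (h : Tw χ r) {b m : Zw} (hb : b ≠ 0) (hm : m ≠ 0) (hr : (9 * r : Zw) ∣ m)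
    (ha : IsCoprime a (6 * b)) {k : ℕ} (hk : b ∣ m ^ k) {Q P : Pt} (hQ : Gen (b * m) Q)
    (hP : E1 V.v P) (w : Pt → ℕ) :
    ∏ y ∈ Xs (UM (b * m)) GK, Th a (eta χ y Q + P) ^ w (b • eta χ y Q) =
      ∏ y ∈ Xs (UM m) GK, Th a (eta χ y (b • Q) + b • P) ^ w (eta χ y (b • Q)) := by
  have H := H5_ok
  have h1 := hQ.smul hb
  have h3 := (three_XNRS r).trans hr
  have hs := (Wc_sat χ hr).cop dvd_rfl
  rw [orb_XNRS H h (mul_ne_zero hb hm) (hr.mul_left b) hQ fun Y => Th a (Y + P) ^ w (b • Y),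
    orb_XNRS H h hm hr h1 fun Y => Th a (Y + b • P) ^ w Y,
    show {u | u ∈ Wc χ (9 * r) ∧ IsCoprime u (b * m)} = {u | u ∈ Wc χ (9 * r) ∧ IsCoprime u m} from
      Set.ext fun u => and_congr_right fun _ => ⟨fun e => e.of_mul_right_right,
        fun e => (e.pow_right.of_isCoprime_of_dvd_right hk).mul_right e⟩]
  refine (H.DIST.prod (fun Y => Th a (Y + P) ^ w (b • Y)) _ hb hm hQ hs).1 fun Y hY => ?_
  obtain ⟨u, hu, rfl⟩ := (mem_filter.1 hY).2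
  rw [← smul_add, ← H.NRM1 a b _ ha.of_mul_right_left ha.of_mul_right_right (Gd.two_add (by
    rw [smul_comm]
    exact (h1.gd H.CYG hm h3).smul fun e =>
      pw_prime.not_isUnit (hu.2.isUnit_of_dvd' e (pw_dvd3.trans h3))) hP), ← prod_pow]
  refine prod_congr rfl fun T hT => ?_
  rw [add_right_comm, smul_add, (mem_tor hb).1 hT, add_zero]

theorem NRW_pf : NRW_st := by
  intro χ r n m a M₀ Q P w hT hm hr hc hQ hL
  have H := H5_ok
  have b0 : (3 : Zw) ^ m ≠ 0 := pow_ne_zero _ (by decide)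
  have h3 := (three_XNRS r).trans hr
  have a6 : IsCoprime a 6 := hc.of_mul_right_left
  have a3 : IsCoprime a (6 * 3 ^ m) :=
    a6.mul_right (a6.of_isCoprime_of_dvd_right ⟨2, by norm_num⟩).pow_right
  have ha : ¬ Ov V3 a := V3_not (cop6.1 a6).2
  have d := fun (P : Pt) (hP : E1 V3.v P) =>
    dis_KNRW hT b0 hm hr a3 (pow_dvd_pow_of_dvd h3 m) hQ hP w
  have hG := (hQ.smul b0).gd H.CYG hm h3
  have L := prod_XNRE (V := V3) (Xs (UM M₀) GK) fun y hy => pow_KNRW (one_KNRW (χ := χ) a6 ha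
    (hG.eta χ ((Xs_trv (UM_open hm) (UM_le _)).1 y hy))) (w (eta χ y ((3 : Zw) ^ m • Q)))
  obtain ⟨n0, n1⟩ := nine_XNRE V3
  have p1 : V3.v 3 ≤ 1 := by simpa [map_ofNat] using V3.io_le 3
  have p2 := V3.v.nonneg 3
  have z0 := V3.v.nonneg (zz P)
  have z1 : V3.v (zz P) ^ 2 < V3.v 3 ^ (n + 2) * V3.v 9 ^ 2 := by
    rw [← map_pow V3.v 9, show (9 : Qb) ^ 2 = 81 by norm_num]
    simpa using hL.sm
  have z2 : V3.v (zz P) < V3.v 9 := by
    refine lt_of_pow_lt_pow_left₀ 2 n0.le (z1.trans_le ?_)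
    exact mul_le_of_le_one_left (sq_nonneg _) (pow_le_one₀ p2 p1)
  have Z := ZEQ_pf H V3 pw P pw_prime (Ov_three.1 V3_three) hL.e1
  have z3 : V3.v (zz ((3 : Zw) ^ m • P)) ≤ V3.v 3 ^ m * V3.v (zz P) := by
    simpa [map_ofNat] using Z.2.1 (Z.2.2 χ hL.fx) (3 ^ m)
  obtain ⟨c, c1, c2⟩ : ∃ c : Qb, V3.v c ≤ V3.v 3 ^ m ∧ c * zz P = zz ((3 : Zw) ^ m • P) := by
    by_cases z : zz P = 0
    · rw [z, map_zero, mul_zero] at z3
      exact ⟨0, by simp, by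
        rw [zero_mul, V3.v.eq_zero.1 (z3.antisymm (V3.v.nonneg _))]⟩
    · exact ⟨zz ((3 : Zw) ^ m • P) / zz P, by rwa [map_div₀, div_le_iff₀ (V3.v.pos z)],
        div_mul_cancel₀ _ z⟩
  obtain ⟨a1, -, a2⟩ := E1m hL.e1 (3 ^ m)
  refine ⟨c, c1, (le_of_eq ?_).trans ((L.2 _ a1 (a2.trans_lt z2)).trans ?_)⟩
  · simp only [eP, div_pow, prod_div_distrib, sub_eq_add_neg _ P]
    rw [d P hL.e1, d _ (E1n hL.e1), smul_neg, mul_assoc 2, c2]
    simp only [← sub_eq_add_neg, mul_left_comm _ (2 : Qb), ← mul_sum]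
    congr 1
    ring
  · rw [div_pow, div_le_iff₀ (pow_pos n0 2)]
    refine (pow_le_pow_left₀ (V3.v.nonneg _) z3 2).trans ?_
    rw [mul_pow, ← pow_mul, mul_comm m, add_assoc, pow_add _ (2 * m), mul_assoc]
    exact mul_le_mul_of_nonneg_left z1.le (pow_nonneg p2 _)

end Pool.Agent.MP_e23604_nt.Z
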