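import Pool.Agent.MP_e23604_nt.Z.KSt

/-!
The local-global principle without a condition at three, for all levels.
-/

set_option autoImplicit false

open Finset QuadraticAlgebra
open scoped Classical

namespace Pool.Agent.MP_e23604_nt.Z

open B R S W

theorem gen_KR2N (b : Zw) (hb : pw ∣ b) (R : Type) : ∀ [CommRing R] [Finite R] (θ : GQ → R)
    (f : GQ → GQ → R), IsNilpotent (3 : R) → Mu GK θ → (∀ g ∈ GK, IsNilpotent (θ g - 1)) →
    (∀ V : Plc, V.l ≠ 3 → (∀ τ ∈ V.I, θ τ = 1) ∧ ∀ ϖ σ, FK V ϖ σ → θ σ = nn ϖ) →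
    Co2 θ GK f → f 1 1 = 0 → (∀ V : Plc, ¬ Ov V b → Un2 GK V.I f) →
    (∀ V : Plc, Ov V b → V.l ≠ 3 → Bo2 θ V.D f) →
    ∃ γ, Lc GK γ ∧ Unr b γ ∧ ∀ g ∈ GK, ∀ h ∈ GK, f g h = θ g * γ h - γ (g * h) + γ g := by
  induction hn : Nat.card R using Nat.strong_induction_on generalizing R with
  | _ N ih =>
  intro _ _ θ f n3 hθ hu hr hc h11 hun hbo
  rcases subsingleton_or_nontrivial R with h0 | h0
  · exact ⟨0, Lc.const _ _, fun _ _ _ _ => rfl, fun _ _ _ _ => Subsingleton.elim _ _⟩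
  obtain ⟨w, hw0, hw⟩ := koch_soc R
  obtain ⟨n, hn3, hnu⟩ := koch_unip R n3
  let π := Ideal.Quotient.mk (Ideal.span {w})
  have fq : ∀ I : Ideal R, Finite (R ⧸ I) := fun I =>
    Finite.of_surjective _ Ideal.Quotient.mk_surjective
  have hlt : Nat.card (R ⧸ Ideal.span {w}) < N := by
    rw [← hn]
    refine (Nat.card_le_card_of_surjective π Ideal.Quotient.mk_surjective).lt_of_ne fun e => ?_
    exact hw0 (((Nat.bijective_iff_surjective_and_card π).2
      ⟨Ideal.Quotient.mk_surjective, e.symm⟩).1 (a₂ := 0) (by simp [π]))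
  obtain ⟨⟨M₀, n1, n2, n4⟩, n5⟩ := id hc
  obtain ⟨c', k1, k2, k3⟩ := ih _ hlt (R ⧸ Ideal.span {w}) rfl (fun g => π (θ g))
    (fun g h => π (f g h)) (map_ofNat π 3 ▸ n3.map π) (hθ.mapK π)
    (fun g hg => by simpa using (hu g hg).map π)
    (fun V hV => ⟨fun t ht => by simpa using congrArg π ((hr V hV).1 t ht),
      fun ϖ σ h => by simpa using congrArg π ((hr V hV).2 ϖ σ h)⟩)
    ⟨⟨M₀, n1, fun g hg x hx y hy e => congrArg π (n2 g hg x hx y hy e),
      fun g hg x hx y hy e => congrArg π (n4 g hg x hx y hy e)⟩, fun g hg h hh k hk => by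
        simpa using congrArg π (n5 g hg h hh k hk)⟩ (by rw [h11, map_zero])
    (fun V hV g hg h hh t ht => ⟨congrArg π (hun V hV g hg h hh t ht).1,
      congrArg π (hun V hV g hg h hh t ht).2⟩)
    fun V hV hl => by
      obtain ⟨c, c1, c2⟩ := hbo V hV hl
      exact ⟨fun g => π (c g), c1.map π, fun g hg h hh => by simp [c2 g hg h hh]⟩
  obtain ⟨sc, hs, hs0⟩ : ∃ sc : R ⧸ Ideal.span {w} → R, (∀ x, π (sc x) = x) ∧ sc 0 = 0 := by
    choose f hf using Ideal.Quotient.mk_surjective (I := Ideal.span {w})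
    exact ⟨fun x => if x = 0 then 0 else f x, fun x => by by_cases h : x = 0 <;> simp [π, h, hf],
      if_pos rfl⟩
  let J : Ideal R := LinearMap.ker (LinearMap.mul R R w)
  let ι : (R ⧸ J) →ₗ[R] R := J.liftQ (LinearMap.mul R R w) le_rfl
  have hι : Function.Injective ι := LinearMap.ker_eq_bot.1 (Submodule.ker_liftQ_eq_bot _ _ _ le_rfl)
  have hιθ : ∀ g ∈ GK, ∀ y, θ g * ι y = ι y := fun g hg y => by
    obtain ⟨y, rfl⟩ := Ideal.Quotient.mk_surjective y
    change θ g * (w * y) = w * y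
    linear_combination y * hw _ (hu g hg)
  obtain ⟨iv, hiv⟩ : ∃ iv : R → R ⧸ J, ∀ x, π x = 0 → ι (iv x) = x :=
    ⟨Function.invFun ι, fun x hx => Function.invFun_eq (by
      obtain ⟨y, rfl⟩ := Ideal.mem_span_singleton.1 (Ideal.Quotient.eq_zero_iff_mem.1 hx)
      exact ⟨Ideal.Quotient.mk J y, rfl⟩)⟩
  have hk3 : (3 : R ⧸ J) = 0 := by
    rw [← map_ofNat (Ideal.Quotient.mk J), Ideal.Quotient.eq_zero_iff_mem]
    exact (mul_comm _ _).trans (hw 3 n3)
  let d : GQ → GQ → R := fun g h => θ g * sc (c' h) - sc (c' (g * h)) + sc (c' g)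
  let F : GQ → GQ → R := fun g h => f g h - d g h
  have hf : ∀ g ∈ GK, ∀ h ∈ GK, ι (iv (F g h)) = F g h := fun g hg h hh =>
    hiv _ (by simp [F, d, hs, k3 g hg h hh])
  obtain ⟨⟨M, m1, m2, m3⟩, m4⟩ : Co2 θ GK F :=
    (((LIN_ok R θ GK).1 f d 0).1 hc
      (((LIN_ok R θ GK).1 d d 0).2.2.1 hθ ⟨_, k1.map sc, fun _ _ _ _ => rfl⟩)).2.1
  have hco : Co2 (fun _ => 1) GK fun g h => iv (F g h) :=
    ⟨⟨M, m1, fun g hg x hx y hy e => congrArg iv (m2 g hg x hx y hy e),
      fun g hg x hx y hy e => congrArg iv (m3 g hg x hx y hy e)⟩, fun g hg h hh k hk => hι (by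
        rw [one_mul, map_sub, map_add, map_sub, ← hιθ g hg, hf h hh k hk,
          hf _ (mul_mem hg hh) k hk, hf g hg _ (mul_mem hh hk), hf g hg h hh, map_zero]
        exact m4 g hg h hh k hk)⟩
  have c1 : c' 1 = 0 := by simpa [h11, hθ.2.1] using (k3 1 GK.one_mem 1 GK.one_mem).symm
  have hl3 : ∀ W : Plc, ¬ Ov W b → W.l ≠ 3 := fun W hW e =>
    hW ((Ov_three.1 (by simpa [e] using Ov_l W)).dvd hb)
  have hinv : ∀ W : Plc, ¬ Ov W b → ∀ t ∈ W.I, ∀ g ∈ GK, c' (g * t) = c' g :=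
    fun W hW t ht g hg => by
      have e1 : f g 1 = 0 := by
        simpa [h11] using n5 g hg 1 GK.one_mem 1 GK.one_mem
      have e2 := (hun W hW g hg 1 GK.one_mem t ht).2
      have e3 := k3 g hg t ht.2
      rw [one_mul, e1] at e2
      rw [e2, k2 W hW t ht, map_zero, mul_zero] at e3
      linear_combination e3
  obtain ⟨β, b1, b2, b3⟩ := R2_ok (R ⧸ J) (fun g h => iv (F g h)) b hk3 hb hco (hι (by
      rw [hf 1 GK.one_mem 1 GK.one_mem]
      simp [F, d, h11, c1, hs0]))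
    (fun W hW g hg h hh t ht => by
      have e1 : θ (g * t) = θ g := by
        rw [hθ.2.2 g hg t ht.2, (hr W (hl3 W hW)).1 t ht, mul_one]
      have e2 : c' (g * t * h) = c' (g * h) := by
        rw [show g * t * h = g * h * (h⁻¹ * t * h) by group]
        exact hinv (W.mv h) (by rwa [(PLK_ok.2.2.2.2.2.1 W h b).1 hh]) _
          ((W.mv_I h _).2 (by simpa [mul_assoc] using ht)) _ (mul_mem hg hh)
      simp only [F, d, e1, e2, hinv W hW t ht g hg, hinv W hW t ht h hh, ← mul_assoc,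
        hinv W hW t ht _ (mul_mem hg hh), (hun W hW g hg h hh t ht).1,
        (hun W hW g hg h hh t ht).2, and_self])
    fun V hV hl => by
      obtain ⟨ϖ, p1, p2, -⟩ := PLK_ok.1 V
      obtain ⟨σ, p3⟩ := (FRK_ok V ϖ p1 p2).1
      obtain ⟨τ, p4, p6⟩ := (TAME_ok 3 1 V Nat.prime_three hl hl).2.1
      have p5 : km 3 τ V.l ≠ 0 := by
        rw [show km 3 τ V.l = 1 from p6]
        decide
      obtain ⟨e, e1, e2⟩ := hbo V hV hl
      have hD := V.D_le
      have hx : Co (fun g => π (θ g)) V.D fun g => π (e g) - c' g :=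
        ⟨e1.map₂ (k1.mono hD) fun x y => π x - y, fun g hg h hh => by
          have := k3 g (hD hg) h (hD hh)
          rw [e2 g hg h hh, map_add, map_sub, map_mul] at this
          linear_combination -this⟩
      obtain ⟨c, q1, q2, q3⟩ := (TPR_ok 3 n R V ϖ σ τ θ Nat.prime_three hl hl p1 p2 p3 p4 p5 hn3
        (hθ.monoK hD) fun g hg => hnu _ (hu g (hD hg))).2 (e σ - sc (c' σ)) (e τ - sc (c' τ))
        (by simp [(hr V hl).1 τ p4, (hr V hl).2 ϖ σ p3])
      have q4 := ((TPR_ok 3 n _ V ϖ σ τ (fun g => π (θ g)) Nat.prime_three hl hl p1 p2 p3 p4 p5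
        (by rw [← map_natCast π, ← map_pow, hn3, map_zero]) ((hθ.mapK π).monoK hD)
        fun g hg => by rw [← map_pow, hnu _ (hu g (hD hg)), map_one]).1 _
          (hx.subK (q1.mapK π))).2.1
        (by rw [q2, map_sub, hs, sub_self]) (by rw [q3, map_sub, hs, sub_self])
      have q5 : ∀ g ∈ V.D, ι (iv (e g - sc (c' g) - c g)) = e g - sc (c' g) - c g := fun g hg =>
        hiv _ (by rw [map_sub, map_sub, hs]; exact q4 g hg)
      refine ⟨fun g => iv (e g - sc (c' g) - c g),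
        (e1.map₂ (k1.mono hD) fun x y => x - sc y).map₂ q1.1 fun x y => iv (x - y),
        fun g hg h hh => hι ?_⟩
      rw [one_mul, map_add, map_sub, ← hιθ g (hD hg) (iv (e h - sc (c' h) - c h)),
        hf g (hD hg) h (hD hh), q5 g hg, q5 h hh, q5 _ (mul_mem hg hh), q1.2 g hg h hh]
      simp only [F, d, e2 g hg h hh]
      ring
  refine ⟨fun g => sc (c' g) + ι (β g), k1.map₂ b1 fun x y => sc x + ι y,
    fun W hW t ht => ?_, fun g hg h hh => ?_⟩
  · simp [k2 W hW t ht, b2 W hW t ht, hs0]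
  · have e := hf g hg h hh
    rw [b3 g hg h hh] at e
    simp only [map_add, map_sub, F, d] at e ⊢
    linear_combination -e - hιθ g hg (β h)

theorem R2N_pf : R2N_st := by
  intro R _ t N n j f b hN h1 hb hc h11 hun hbo
  have := hN.fin
  obtain ⟨m, rfl⟩ : ∃ m, n = m + 1 := ⟨n - 1, by omega⟩
  have h0 : 3 ^ (m + 1) ≠ 0 := by positivity
  have h3 : IsNilpotent (3 : R) := ⟨m + 1, by simpa using j_zero j⟩
  have hK := KM_ok _ h0
  refine gen_KR2N b hb R (cj j) f h3 ((hK.1.mapK j).monoK le_top) (fun g hg => ?_)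
    (fun V hV => ?_) hc h11 hun hbo
  · have key : ∀ (K : ℕ) (j : ZMod K →+* R), K = 3 * 3 ^ m → 3 ∣ cj j g - 1 := by
      rintro _ j rfl
      have := red_HLOC3 (k := 3 ^ m) (by positivity) j (W.cy _ g)
      rw [← cy_cast three_ne_zero (by positivity), (hK.2.2.2.2.2.2.2.1 g hg).1] at this
      simpa [ZMod.val_one, cj] using this
    obtain ⟨c, e⟩ := key _ j (pow_succ' 3 m)
    rw [e]
    exact (Commute.all _ _).isNilpotent_mul_right h3
  · have hl : ¬ V.l ∣ 3 ^ (m + 1) := fun e =>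
      hV ((Nat.prime_dvd_prime_iff_eq V.hl.out Nat.prime_three).1 (V.hl.out.dvd_of_dvd_pow e))
    obtain ⟨-, a1, a2⟩ := hK.2.2.2.2.2.2.2.2 V hl
    exact ⟨fun τ h => by rw [cj, (a1 τ h.1).1, map_one],
      fun ϖ σ h => by rw [cj, a2 ϖ σ h, map_natCast]⟩

end Pool.Agent.MP_e23604_nt.Z
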