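import Pool.Agent.MP_e23604_nt.Z.KSt
import Pool.Agent.MP_e23604_nt.W.XTFR

set_option autoImplicit false

open Finset QuadraticAlgebra
open scoped Classical

namespace Pool.Agent.MP_e23604_nt.Z

open B R S W

theorem TFW_pf : TFW_st := by
  have H : H5 := H5_ok
  intro R _ N j U lam A α h hA ⟨M, hM, lA⟩ cA h0 hα
  have hT := h.trv
  obtain ⟨T, t1⟩ := ext_XTFR h hA
  have t2 : ∀ g ∈ GK, ∀ y ∈ GK, ∀ u ∈ U, T (g * u * y) = T (g * y) + A u := by
    intro g hg y hy u hu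
    rw [← cA y hy u hu, ← t1 _ (GK.mul_mem hg hy) _ (h.nrm hy hu)]
    congr 1
    group
  have t3 : ∀ y ∈ GK, ∀ u ∈ U, T (u * y) - T y = A u := fun y hy u hu => by
    have := t2 1 GK.one_mem y hy u hu
    rw [one_mul, one_mul] at this
    rw [this, add_sub_cancel_left]
  have t4 : ∀ y ∈ GK, ∀ u ∈ U, ∀ β : Qb, Fix U β → (u * y) β = y β := fun y hy u hu β hβ =>
    h.fix hβ hy u hu
  have A1 : A 1 = 0 := by simpa using hA 1 U.one_mem 1 U.one_mem
  have c1 : ∀ K ≤ GK, Tr_XTFR (cj j) U K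
      fun g k y => j (km N g ((k * y) α)) * (T (k * y) - T y) := fun K hK =>
    gen_XTFR h hK h0 hα (s := fun k y => T (k * y) - T y)
      (fun g _ k _ y _ => by rw [mul_assoc]; ring)
      (fun k hk y hy u hu => by
        rw [← mul_assoc, t1 _ (GK.mul_mem (hK hk) hy) u hu, t1 y hy u hu]; ring) hM
      fun y hy k hk u hu hu' _ => by
        rw [t2 k (hK hk) y hy u hu, ← lA 1 U.one_mem u hu (by simpa using hu'), A1, add_zero]
  have li : ∀ g ∈ GK, lam g⁻¹ * lam g = 1 := fun g hg => by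
    rw [← h.mul _ (GK.inv_mem hg) g hg, inv_mul_cancel, h.one 1 U.one_mem]
  refine ⟨fun g k => ∑ y ∈ Xs U GK, j (km N g ((k * y) α)) * (T (k * y) - T y),
    (grp_XTFR H.GRP h le_rfl (c1 _ le_rfl)).1,
    fun K θ κ w hK θ0 hθ ⟨⟨M', hM', lκ⟩, hκ⟩ hw hb => ?_,
    fun K hK hz => (grp_XTFR H.GRP h hK (c1 K hK)).2 fun y hy =>
      ⟨fun _ => 0, Lc.const _ _, fun g hg k hk => ?_⟩, fun g hg k hk => ?_,
    fun W hN hI hz hv g hg k hk τ hτ => ⟨sum_congr rfl fun y hy => ?_,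
      sum_congr rfl fun y hy => ?_⟩⟩
  · have c2 := gen_XTFR h hK θ0 hθ (s := fun k y => w y * (lam (k * y)⁻¹ * κ k))
      (fun g hg k hk y hy => by
        rw [hκ g hg k hk, mul_assoc, h.inv_mul (hK hg) (GK.mul_mem (hK hk) hy), (hw y hy).2 k hk]
        linear_combination w y * lam (k * y)⁻¹ * κ k * li g (hK hg))
      (fun k hk y hy u hu => by
        rw [← mul_assoc k, h.mul_U (GK.mul_mem (hK hk) hy) hu, (hw y hy).1 u hu]) hM'
      fun y hy k hk u hu hu' hk' => by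
        rw [h.inv_mul (hK hk') hy, h.mul_U (hK hk) hu, h.inv_mul (hK hk) hy,
          lκ k hk _ hk' (by rwa [inv_mul_cancel_left])]
    refine bo_XTFR ((grp_XTFR H.GRP h hK (add_XTFR (c1 K hK) c2)).2 fun y hy =>
      bo_XTFR (hb y hy) fun g _ k hk => ?_) fun g hg k hk => ?_
    · rw [t3 y hy k hk.2, t4 y hy k hk.2 α hα, t4 y hy k hk.2 θ hθ, h.inv_mul (hK hk.1) hy,
        h.one _ (U.inv_mem hk.2)]
      ring
    · have e : ∑ y ∈ Xs U GK, j (km N g ((k * y) θ)) * (w y * (lam (k * y)⁻¹ * κ k)) =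
          ∑ y ∈ Xs U GK, j (km N g ((k * y) θ)) * (w (k * y) * (lam (k * y)⁻¹ * κ k)) :=
        sum_congr rfl fun y hy => by rw [(hw y (hT.1 y hy)).2 k hk]
      rw [sum_add_distrib, e,
        hT.sum_mul (F := fun y => j (km N g (y θ)) * (w y * (lam y⁻¹ * κ k)))
        (fun y hy u hu => by
          simp only [h.mul_U hy hu, AlgEquiv.mul_apply, hθ u hu, (hw y hy).1 u hu]) (hK hk),
        W.cup, zw, sum_mul, sum_mul]
      refine congrArg _ (sum_congr rfl fun y hy => ?_)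
      rw [h.inv_mul (hK hg) (hT.1 y hy), (hw y (hT.1 y hy)).2 g hg]
      linear_combination w y * lam y⁻¹ * j (km N g (y θ)) * κ k * li g (hK hg)
  · beta_reduce
    rw [hz _ (GK.mul_mem (hK hk.1) hy) g hg]
    simp
  · beta_reduce
    rw [km_prod h.pos g _ fun y _ => (map_ne_zero y).2 h0, h.cyc g hg, one_mul,
      show df N (Xs U GK) (fun y => g (y α)) = df N (Xs U GK) fun y => y α by
        rw [df, df, prod_congr rfl fun y hy => h.fix hα (hT.1 y hy) g hg,
          prod_congr rfl fun y hy => congrArg (rt N) (h.fix hα (hT.1 y hy) g hg)],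
      add_sub_cancel_right, map_sum, sum_mul]
    exact sum_congr rfl fun y hy => by
      rw [t3 y (hT.1 y hy) k hk, t4 y (hT.1 y hy) k hk α hα]
  · have h1 := GK.mul_mem (W.D_le hk) (hT.1 y hy)
    have h2 := h.fix hα h1 τ (hI hτ)
    rw [km_mul h.pos g τ ((map_ne_zero _).2 h0), km_ine W hN hτ.1 (hv _ h1) h2, h2, mul_zero,
      zero_add]
  · rw [mid_XTFR h hα k (hT.1 y hy) (hI hτ), t2 k (W.D_le hk) y (hT.1 y hy) τ (hI hτ), hz τ hτ,
      add_zero]

end Pool.Agent.MP_e23604_nt.Z
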