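import Pool.Agent.MP_e23604_nt.Z.KSt

/-!
Unramified cocycles, powers of a generator, and commutators.
-/

set_option autoImplicit false

open Finset QuadraticAlgebra
open scoped Classical

namespace Pool.Agent.MP_e23604_nt.Z

open B R S W

theorem one_KUCO {R : Type} [CommRing R] {θ c : GQ → R} {H : Subgroup GQ} (h : Co θ H c)
    (h1 : θ 1 = 1) : c 1 = 0 := by
  simpa [h1] using h.2 1 H.one_mem 1 H.one_mem

theorem UCO_pf : UCO_st := by
  intro R _ V ϖ σ lam y pr ov hσ hl hy hI g hg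
  obtain ⟨N, n1, n2⟩ := hl.1.map₂ hy.1 Prod.mk
  obtain ⟨i, τ, hτ, e⟩ := ((FRK_ok V ϖ pr ov).2.2.2 σ hσ).2.2.2.1 N n1 g hg
  have hp : ∀ i : ℕ, (lam σ - 1) * y (σ ^ i) = (lam (σ ^ i) - 1) * y σ := fun i => by
    induction i with
    | zero => rw [pow_zero, one_KUCO hy hl.2.1, hl.2.1, sub_self, mul_zero, zero_mul]
    | succ i ih =>
      rw [pow_succ', hy.2 _ hσ.1 _ (pow_mem hσ.1 i), hl.2.2 _ hσ.1 _ (pow_mem hσ.1 i)]
      linear_combination lam σ * ih
  have h1 := pow_mem hσ.1 i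
  have h2 := V.I_le hτ
  obtain ⟨e1, e2⟩ := Prod.mk.inj (n2 _ (mul_mem h1 h2) g hg e)
  rw [← e1, ← e2, hy.2 _ h1 _ h2, hl.2.2 _ h1 _ h2, (hI τ hτ).1, (hI τ hτ).2, mul_zero, add_zero,
    mul_one, hp]

theorem TRA_pf : TRA_st := by
  intro R _ κ ρ lam z y γ T
  obtain ⟨N, n1, n2⟩ := (T.ml.1.map₂ T.cz.1 Prod.mk).map₂ (T.cl.1.map₂ T.lc Prod.mk) Prod.mk
  refine ⟨N, n1, fun c σ g i hσ hg k1 e h => ?_⟩
  have z1 := one_KUCO T.cz T.mr.2.1
  have y1 := one_KUCO T.cl T.ml.2.1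
  have g1 : γ 1 = 0 := by
    have := T.bd 1 GK.one_mem 1 GK.one_mem
    rw [T.eq 1 GK.one_mem, T.mr.2.1, T.ml.2.1, W.cup, y1, mul_one (1 : GQ)] at this
    linear_combination -this
  rw [T.eq σ hσ] at k1
  have hp : ∀ i : ℕ, ∃ S : R, lam (σ ^ i) - 1 = S * (lam σ - 1) ∧ y (σ ^ i) = S * y σ ∧
      ρ (σ ^ i) * lam (σ ^ i) = 1 ∧ (lam σ - 1) * γ (σ ^ i) + z (σ ^ i) * lam (σ ^ i) * y σ =
        i * La lam z y γ σ := fun i => by
    induction i with
    | zero => exact ⟨0, by simp [T.ml.2.1, T.mr.2.1, z1, y1, g1]⟩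
    | succ i ih =>
      obtain ⟨S, s1, s2, s3, s4⟩ := ih
      have h1 := pow_mem hσ i
      have b := T.bd _ h1 _ hσ
      rw [T.eq _ h1, s3, W.cup] at b
      rw [pow_succ, T.ml.2.2 _ h1 _ hσ, T.mr.2.2 _ h1 _ hσ, T.cl.2 _ h1 _ hσ, T.cz.2 _ h1 _ hσ,
        Nat.cast_succ]
      refine ⟨S + lam (σ ^ i), by linear_combination s1, by linear_combination s2,
        by linear_combination ρ σ * lam σ * s3 + k1, ?_⟩
      rw [add_mul (i : R), ← s4, La]
      linear_combination (lam σ - 1) * b + z σ * lam σ * y σ * s3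
  obtain ⟨S, s1, s2, -, s4⟩ := hp i
  have e0 := n2 _ (pow_mem hσ i) g hg e
  simp only [Prod.mk.injEq] at e0
  obtain ⟨⟨e1, e2⟩, e3, e4⟩ := e0
  rw [e1] at s1 s4
  rw [e2, e4] at s4
  rw [e3] at s2
  have s5 : La lam z y γ g = S * (i * La lam z y γ σ) := by
    rw [← s4, La, s1, s2]
    ring
  rw [s5, s1]
  linear_combination S * S * i * h

theorem COM_pf : COM_st := by
  intro R _ κ ρ lam z y γ U c g₀ s T le nm hU hg hs k0 h
  have za : ∀ u ∈ U, ∀ g ∈ GK, z (u * g) = z u + z g := fun u hu g hg => by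
    rw [T.cz.2 _ (le hu) _ hg, (hU u hu).1, one_mul]
  have ya : ∀ u ∈ U, ∀ g ∈ GK, y (u * g) = y u + y g := fun u hu g hg => by
    rw [T.cl.2 _ (le hu) _ hg, (hU u hu).2, one_mul]
  have ga : ∀ u ∈ U, ∀ g ∈ GK, γ (u * g) = γ u + γ g - z u * y g := fun u hu g hg => by
    have b := T.bd _ (le hu) _ hg
    rw [T.eq _ (le hu), (hU u hu).1, W.cup, (hU u hu).2] at b
    linear_combination b
  have h1 : ∀ u ∈ U, ∀ v ∈ U, c * ((lam g₀ - 1) * (La lam z y γ g₀ +
      (lam g₀ - 1) * (z v * y u - z u * y v))) = 0 := fun u hu v hv => by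
    have hk := mul_mem (mul_mem (mul_mem hu hv) (inv_mem hu)) (inv_mem hv)
    have e : u * v * u⁻¹ * v⁻¹ * (v * u) = u * v := by group
    have h2 := h u hu v hv
    generalize u * v * u⁻¹ * v⁻¹ = k at hk e h2
    have hw := le (mul_mem hv hu)
    have a1 := za k hk _ hw
    have a2 := ya k hk _ hw
    have a3 := ga k hk _ hw
    rw [e, za u hu v (le hv), za v hv u (le hu)] at a1
    rw [e, ya u hu v (le hv), ya v hv u (le hu)] at a2
    have z0 : z k = 0 := by linear_combination -a1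
    have y0 : y k = 0 := by linear_combination -a2
    rw [e, ga u hu v (le hv), ga v hv u (le hu), z0] at a3
    have b := T.bd _ hg _ (le hk)
    rw [k0, W.cup, y0] at b
    have a4 : γ (g₀ * k) = γ g₀ + (z v * y u - z u * y v) := by linear_combination b - a3
    rw [La, a4, T.ml.2.2 _ hg _ (le hk), T.cz.2 _ hg _ (le hk), T.cl.2 _ hg _ (le hk), z0, y0,
      (hU k hk).2] at h2
    rw [La]
    linear_combination h2
  have h2 : ∀ u ∈ U, c * (lam g₀ - 1) ^ 2 * (lam s - ρ s) * (z u * y u) = 0 := fun u hu => by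
    have hv := nm s hs u hu
    have e : s * u * s⁻¹ * s = s * u := by group
    have a1 := za _ hv s hs
    have a2 := ya _ hv s hs
    rw [e, T.cz.2 _ hs _ (le hu)] at a1
    rw [e, T.cl.2 _ hs _ (le hu)] at a2
    have a3 := h1 u hu _ hv
    rw [show z (s * u * s⁻¹) = ρ s * z u by linear_combination -a1,
      show y (s * u * s⁻¹) = lam s * y u by linear_combination -a2] at a3
    linear_combination h1 u hu u hu - a3
  intro u hu v hv
  have a := h2 _ (mul_mem hu hv)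
  rw [za u hu v (le hv), ya u hu v (le hv)] at a
  linear_combination z v * a - z v * h2 u hu - (z u + z v) * h2 v hv

end Pool.Agent.MP_e23604_nt.Z
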