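import Pool.Agent.MP_e23604_nt.Z.KSt

/-!
The norm relation for the bottom class.
-/

set_option autoImplicit false

open Finset QuadraticAlgebra
open scoped Classical

namespace Pool.Agent.MP_e23604_nt.Z

open B R S W

/-- the orbit of a generator under the relative group -/
theorem orb_KZNR {M q : Zw} {Q P : Pt} (F : Pt → Qb) (h0 : M ≠ 0) (h3 : 3 ∣ M) (hq : Prime q)
    (hn : ¬ q ∣ M) (hQ : Gen (M * q) Q) (hP : M • P = 0) (hP' : q • P = q • Q) :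
    F P * ∏ y ∈ Xs (UM (M * q)) (UM M), F (gal y Q) = ∏ T ∈ W.tor q, F (Q + T) := by
  have q0 := hq.ne_zero
  have h1 : M * q ≠ 0 := mul_ne_zero h0 q0
  have hX := Xs_trv (UM_open h1) (UM_mono (dvd_mul_right M q))
  have hY : M • q • Q = 0 := by rw [← mul_smul, hQ.zero]
  have hT : P - Q ∈ W.tor q := (W.mem_tor q0).2 (by rw [smul_sub, hP', sub_self])
  have hc : IsCoprime q M := (hq.coprime_iff_not_dvd).2 hn
  rw [← mul_prod_erase _ _ hT, add_sub_cancel]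
  congr 1
  refine prod_bij (fun y _ => gal y Q - Q) (fun y hy => ?_) (fun y hy y' hy' e => ?_)
    (fun T hT => ?_) fun y _ => by rw [add_sub_cancel]
  · have hy' := hX.1 y hy
    refine mem_erase.2 ⟨fun e => hq.not_isUnit ?_, (W.mem_tor q0).2 ?_⟩
    · have e1 : Gen (M * q) P := sub_left_injective e ▸ hQ.gal hy'.1
      exact isUnit_of_dvd_one ((mul_dvd_mul_iff_left h0).1 (by simpa using (e1 M).1 hP))
    · rw [smul_sub, ← gal_smul hy'.1, hy'.2 _ hY, sub_self]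
  · have e1 : gal y Q = gal y' Q := sub_left_injective e
    have g1 : y⁻¹ * y' ∈ GK := GK.mul_mem (GK.inv_mem (hX.1 y hy).1) (hX.1 y' hy').1
    refine (hX.2 y' (hX.1 y' hy')).unique ⟨hy, g1, fun T hT => ?_⟩ ⟨hy', by simp⟩
    obtain ⟨u, rfl⟩ := (CYG_ok _ h1).2.1 Q hQ T hT
    rw [gal_smul g1, W.gal_mul, ← e1, ← W.gal_mul, inv_mul_cancel, W.gal_one]
  · obtain ⟨t1, t2⟩ := mem_erase.1 hT
    rw [W.mem_tor q0] at t2
    obtain ⟨u, hu⟩ := (CYG_ok _ h1).2.1 Q hQ (Q + T)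
      (by rw [smul_add, hQ.zero, mul_smul, t2, smul_zero, add_zero])
    have u1 : M ∣ u - 1 := by
      have e : (q * u) • Q = q • Q := by rw [mul_smul, ← hu, smul_add, t2, add_zero]
      rw [hQ.congr, mul_comm M, ← mul_sub_one, mul_dvd_mul_iff_left q0] at e
      exact e
    have u2 : IsCoprime u M := by
      obtain ⟨c, hc⟩ := u1
      exact ⟨1, -c, by linear_combination hc⟩
    have u3 : IsCoprime u q := by
      refine ((hq.coprime_iff_not_dvd).2 fun e => t1 ?_).symm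
      have e1 : M • (Q + T - P) = 0 := by
        rw [smul_sub, hP, hu, ← mul_smul, (hQ _).2 (mul_dvd_mul_left M e), sub_zero]
      have e2 : q • (Q + T - P) = 0 := by rw [smul_sub, smul_add, t2, hP', add_zero, sub_self]
      obtain ⟨c, d, e3⟩ := hc
      have e4 : Q + T - P = 0 := by
        rw [← one_smul Zw (Q + T - P), ← e3, add_smul, mul_smul, mul_smul, e1, e2, smul_zero,
          smul_zero, add_zero]
      rw [← sub_eq_zero.1 e4, add_sub_cancel_left]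
    obtain ⟨g, hg, e⟩ := SURJ_ok (M * q) u h1 (h3.trans u1) (u2.mul_right u3)
    have g1 : g ∈ UM M := ⟨hg, fun S hS => by
      obtain ⟨c, hc⟩ := u1
      rw [e S (by rw [mul_comm, mul_smul, hS, smul_zero]),
        show u = 1 + c * M by linear_combination hc, add_smul, one_smul, mul_smul, hS, smul_zero,
        add_zero]⟩
    obtain ⟨y, ⟨hy, y1⟩, -⟩ := hX.2 g g1
    refine ⟨y, hy, ?_⟩
    have e1 : gal y Q = gal g Q := by
      conv_lhs => rw [← y1.2 Q hQ.zero, ← W.gal_mul, mul_inv_cancel_left]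
    rw [e1, e Q hQ.zero, ← hu, add_sub_cancel_left]

theorem th_KZNR {a M : Zw} {Q : Pt} (h6 : IsCoprime a 6) (h0 : M ≠ 0) (h3 : 3 ∣ M)
    (hQ : Gen M Q) : Th a Q ≠ 0 ∧ Fix (UM M) (Th a Q) :=
  ⟨(THI_ok a (cop6_ne h6)).2.2.2 h6 _ ((hQ.gd CYG_ok h0 h3).smul (cop6.1 h6).2).ne,
    fun g hg => by rw [← ((THI_ok a (cop6_ne h6)).2.1 g hg.1 _).1, hg.2 _ hQ.zero]⟩

theorem ZNR_pf : ZNR_st := by
  intro R _ χ r n a M q Q φ j V σ ht h0 h9 hn hφ ha hq hV hσ hd hQ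
  have q0 := hq.1.ne_zero
  have h1 : M * q ≠ 0 := mul_ne_zero h0 q0
  have h3 : 3 ∣ M := (dvd_trans ⟨3 * r, by ring⟩ h9)
  have h6 : IsCoprime a 6 := ha.of_mul_right_left
  have aq : IsCoprime a q := ha.of_mul_right_right.of_mul_right_right
  have hN : ((3 ^ n : ℕ) : Zw) ∣ M := by simpa using hn
  have hl : ∀ g ∈ GK, lamZ φ χ (M * q) g = lamZ φ χ M g := fun g hg => by
    obtain ⟨c, hc⟩ := ((PS_ok M h0).1 g hg).2.2.2.2.2.2.2.2 (M * q) h1 (dvd_mul_right _ _)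
    rw [lamZ, lamZ, show ps (M * q) g = ps M g + M * c by linear_combination hc, mul_add, map_add,
      mul_left_comm, map_mul φ M, hφ, zero_mul, add_zero]
  refine ⟨hl, ?_⟩
  have c1 : Chr j (UM M) (lamZ φ χ M) := (((LZ_ok χ r M ht h0 h9).2.2 R φ hφ).1 _ j hN).1
  have c2 : Chr j (UM (M * q)) (lamZ φ χ (M * q)) :=
    (((LZ_ok χ r _ ht h1 (h9.mul_right q)).2.2 R φ (by rw [map_mul, hφ, zero_mul])).1 _ j
      (hN.mul_right q)).1
  have hU := UM_mono (dvd_mul_right M q)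
  have c3 : Chr j (UM (M * q)) (lamZ φ χ M) :=
    ⟨c2.pos, c2.opn, c2.le, c2.ab, c1.mul, fun g hg => c1.one g (hU hg), c2.cyc⟩
  have hY : Gen M (q • Q) := Gen.smul (by rw [mul_comm]; exact hQ) q0
  have s1 : σ⁻¹ ∈ GK := GK.inv_mem (V.D_le hσ.1)
  have hP : Gen M (gal σ⁻¹ (q • Q)) := hY.gal s1
  have hP' : q • gal σ⁻¹ (q • Q) = q • Q := by
    rw [← gal_smul s1, ← ((FRB_ok V q hq hV).2 σ hσ).2 M _
      (fun e => hd (((PLK_ok.2.2.1 V q hq.1 hV).1 M).1 e)) hY.zero, ← W.gal_mul, inv_mul_cancel,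
      W.gal_one]
  have e1 := orb_KZNR (Th a) h0 h3 hq.1 hd hQ hP.zero hP'
  rw [NRM1_ok a q Q h6 aq (hY.gd CYG_ok h0 h3).two,
    prod_congr rfl fun y hy => ((THI_ok a (cop6_ne h6)).2.1 y
      ((Xs_trv (UM_open h1) hU).1 y hy).1 Q).1] at e1
  obtain ⟨t0, t1⟩ := th_KZNR h6 h1 (h3.mul_right q) hQ
  obtain ⟨y0, y1⟩ := th_KZNR h6 h0 h3 hY
  obtain ⟨p0, p1⟩ := th_KZNR h6 h0 h3 hP
  obtain ⟨m₁, e2⟩ := ((ZC_pf R _ j _ _ c3).2 _ t0 t1).2.2.2.2 _ hU c1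
  obtain ⟨m₂, e3⟩ := ((ZC_pf R _ j _ _ c1).2 _ p0 p1).2.1
    (∏ y ∈ Xs (UM (M * q)) (UM M), y (Th a Q)) (fun e => y0 (by rw [← e1, e, mul_zero]))
    fun g hg => mul_left_cancel₀ p0 (by
      conv_lhs => rw [← p1 g hg, ← map_mul, e1, y1 g hg, ← e1])
  refine ⟨m₁ - m₂, fun g hg => ?_⟩
  have e4 := e3 g hg
  have e5 : zc j (UM (M * q)) (lamZ φ χ (M * q)) (Th a Q) g =
      zc j (UM (M * q)) (lamZ φ χ M) (Th a Q) g :=
    sum_congr rfl fun y hy => by rw [hl _ (GK.inv_mem (GK.mul_mem hg (c2.trv.1 y hy)))]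
  simp only [e1] at e4
  rw [((THI_ok a (cop6_ne h6)).2.1 _ s1 _).1,
    ((ZC_pf R _ j _ _ c1).2 _ y0 y1).2.2.1 _ s1 g hg] at e4
  rw [e5]
  linear_combination e2 g hg - e4

end Pool.Agent.MP_e23604_nt.Z
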