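import Pool.Agent.MP_e23604_nt.Z.KLCE
import Pool.Agent.MP_e23604_nt.Z.KTFW
import Pool.Agent.MP_e23604_nt.Z.KNRW
import Pool.Agent.MP_e23604_nt.Z.KDER
import Pool.Agent.MP_e23604_nt.Z.KUCO
import Pool.Agent.MP_e23604_nt.Z.KR2N
import Pool.Agent.MP_e23604_nt.Z.KLGK
import Pool.Agent.MP_e23604_nt.Z.KEXW
import Pool.Agent.MP_e23604_nt.Z.KZNR
import Pool.Agent.MP_e23604_nt.Z.KKEY
import Pool.Agent.MP_e23604_nt.Z.KCHO
import Pool.Agent.MP_e23604_nt.Z.KAEX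
import Pool.Agent.MP_e23604_nt.Z.KGAL

/-!
The cohomological part holds.
-/

set_option autoImplicit false

namespace Pool.Agent.MP_e23604_nt.Z

theorem GAL_ok : GAL_st :=
  GAL_of (KEY_pf (EXW_pf LCE_pf TFW_pf DER_pf MAS_pf UCO_pf) NRW_pf ZNR_pf (ALK_pf LGK_pf) LGK_pf)
    (CHO_pf LGK_pf) TRA_pf AEX_pf COM_pf R2N_pf

end Pool.Agent.MP_e23604_nt.Z
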