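import Pool.Agent.MP_e23604_nt.Z.KEnd
import Pool.Agent.MP_e23604_nt.X.HeegN
import Pool.Agent.MP_e23604_nt.X.KW
import Pool.Agent.MP_e23604_nt.X.FACS
import Pool.Agent.MP_e23604_nt.X.UN3

/-!
A point of infinite order when the exponent of three is not a multiple of three.
-/

set_option autoImplicit false

open Finset QuadraticAlgebra
open scoped Classical

namespace Pool.Agent.MP_e23604_nt.Z

open B R S W X

theorem hb_KFin {χ χ' : GQ → ZMod 3} {r : ℕ} (e : ∀ g ∈ GK, χ' g = χ g) (h : HB χ r) : HB χ' r := by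
  have k : ∀ g ∈ GK, ∀ P, eta χ' g P = eta χ g P := fun g hg P => by
    rw [eta_apply, eta_apply, e g hg]
  refine h.imp fun k₀ h n x ⟨⟨x1, x2⟩, x3, x4⟩ hn => ?_
  refine (h n x ⟨⟨x1, fun g hg t ht => by rw [x2 g hg t ht, k g hg]⟩, x3, fun V hV =>
    (x4 V hV).imp fun P hP g hg => by rw [hP g hg, k g (V.D_le hg)]⟩ hn).imp fun P hP =>
    ⟨hP.1, fun g hg => by rw [hP.2 g hg, k g hg]⟩

theorem ex_KFin {D : ℕ} (h : D ≠ 0) (hv : ¬ 3 ∣ D.factorization 3) :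
    ∃ g ∈ UM (3 * rad3 D), ch D g ≠ 0 := by
  obtain ⟨v, m, hm, hD⟩ := Nat.exists_eq_pow_mul_and_not_dvd h 3 (by norm_num)
  have h0 : m ≠ 0 := fun e => hm (e ▸ dvd_zero 3)
  have e1 : D.factorization 3 = v := by
    have := fac_pow h0 v 1 3
    rwa [pow_one, ← hD, if_pos rfl, Nat.factorization_eq_zero_of_not_dvd hm] at this
  have er : rad3 D = rad3 m := by
    have := rad3_pow h0 v (.inl rfl)
    rwa [pow_one, ← hD] at this
  have T := tw_chD h
  have T3 := tw_chD (D := 3) three_ne_zero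
  rw [show rad3 3 = 1 from (eq_rad3 squarefree_one fun l hl => by
    rw [Nat.dvd_one, Nat.prime_three.factorization, Finsupp.single_apply]
    refine iff_of_false hl.ne_one fun e => e.2 ?_
    rw [if_neg e.1.symm]
    exact dvd_zero 3).symm] at T3
  obtain ⟨g₀, hg₀, k0⟩ : ∃ g ∈ GK, chD 3 g ≠ 0 := by
    by_contra! e
    exact absurd (X.IND_pf KW_pf 0 2 0 0 fun g hg => by simpa [chD] using e g hg.2).2.1 (by decide)
  obtain ⟨x, y, hxy⟩ : IsCoprime (rad3 D : Zw) 9 := by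
    simpa using ((Nat.prime_three.coprime_iff_not_dvd.2 T.n3).symm.pow_right 2).cast (R := Zw)
  obtain ⟨p1, p2, p3, -⟩ := (PS_ok _ T3.ne).1 g₀ hg₀
  obtain ⟨t, ht⟩ := p3 ⟨3, by norm_num⟩
  obtain ⟨g, hg, e⟩ := SURJ_ok (9 * rad3 D) (1 + 3 * rad3 D * (x * t)) T.ne ⟨rad3 D * (x * t), by ring⟩
    (by
      rw [show (9 * rad3 D : Zw) = 3 * (3 * rad3 D) by ring]
      exact IsCoprime.mul_right ⟨1, -(rad3 D * (x * t)), by ring⟩ ⟨1, -(x * t), by ring⟩)
  have hu : g ∈ UM (3 * rad3 D) := ⟨hg, fun P hP => by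
    rw [e P (dvd_smul hP ⟨3, by ring⟩), smul_congr hP (b := 1) ⟨x * t, by ring⟩, one_smul]⟩
  refine ⟨g, hu, ?_⟩
  have k1 : chD 3 g = chD 3 g₀ := by
    refine eq_KEnd T3 hg hg₀ ?_
    convert dvd_add ((((PS_ok _ T3.ne).1 g hg).2.2.2.2.1 _).1 fun P hP =>
      e P (dvd_smul hP ⟨rad3 D, by simp⟩)) (Dvd.intro (-(3 * y * t)) rfl) using 1
    push_cast at ht ⊢
    linear_combination -ht + 3 * t * hxy
  have k2 : kum m g = 0 := by
    rw [add_HeegN (fun a => kum a g) (fun a b ha hb => by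
      obtain ⟨t, ht⟩ := S.KAP_ok.2.2.1 a b (Nat.cast_ne_zero.2 fun e => ha (e ▸ dvd_zero 3))
        (Nat.cast_ne_zero.2 fun e => hb (e ▸ dvd_zero 3))
      rw [Nat.cast_mul, ht, ep_pos hg]
      ring) hm]
    refine sum_eq_zero fun l hl => ?_
    have h1 := Nat.dvd_of_mem_primeFactors hl
    rw [FACS_pf l (Nat.prime_of_mem_primeFactors hl) (fun e => ndv_HeegN m (e ▸ h1)) g hg 1 0
      fun P hP => by
        rw [hu.2 P (dvd_smul hP (Dvd.dvd.mul_left (er ▸ Nat.cast_dvd_cast h1) 3))]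
        simp]
    simp
  have := chD_pow h0 v 1 hg
  rw [pow_one, ← hD, k1, show chD m g = 0 by rw [chD, k2, mul_zero], mul_zero, add_zero] at this
  change chD D g ≠ 0
  rw [this]
  have := Fact.mk Nat.prime_three
  exact mul_ne_zero (fun e => hv (e1 ▸ (ZMod.natCast_eq_zero_iff _ _).1 e)) k0

/-- the classes that this system covers -/
def SZ : Finset ℕ := {3, 6, 9, 12, 15, 18, 21, 24}

theorem cls_KFin {D : ℕ} (h : D ≠ 0) (hc : cls3 D ∈ SZ) : ¬ 3 ∣ D.factorization 3 := by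
  rintro ⟨k, hk⟩
  rw [cls3, hk, Nat.mul_div_cancel_left _ three_pos, show 27 = 3 ^ 3 from rfl, ← pow_mul,
    ← hk] at hc
  have := Nat.not_dvd_ordCompl Nat.prime_three h
  simp only [SZ, mem_insert, mem_singleton] at hc
  omega

theorem heegZ_of (hE : END_st) (hS : HSX_st) (D : ℕ)
    (h : ∀ j, W.Nice (3 ^ j * D) ∧ W.Nice (3 ^ j * D ^ 2)) (hp : par3 D = 1)
    (hv : ¬ 3 ∣ D.factorization 3) : Heeg D := by
  have n1 : W.Nice D := by simpa using (h 0).1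
  have n2 := (h 0).2
  have c1 := par3_cmp n1.ne
  rw [cj3, if_neg hv] at c1
  have hP := pair_HeegN NHB_pf KW_pf n1 n2 (rad3_pow n1.ne _ (.inr rfl)) hp (by omega)
  have hb : HB (fun g => -ch D g) (rad3 D) := hb_KFin (fun g hg => by
    have := chD_pow n1.ne 0 2 hg
    rw [Nat.cast_zero, zero_mul, zero_add, show ((2 : ℕ) : ZMod 3) = -1 from rfl,
      neg_one_mul] at this
    exact this.symm) hP.hb
  have T := neg_KEnd hP.tw
  obtain ⟨a, ha, -⟩ := ex_adm PLK_ok hP.tw.r0 0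
  obtain ⟨G, hG⟩ := (CYG_ok _ hP.tw.ne).1
  exact ⟨_, _, _, _, _, T, hS _ _ G hP.tw hG, fun n hn e => hE _ _ a G hP.tw hP.an
    (ex_KFin n1.ne hv) ha (n1.nt ha) hP.nb (fun Q hQ => NZ_ok _ _ a Q T hb ha hQ)
    (fun _ hP => tor_KEnd T hb hP) hG ⟨n, hn, e⟩⟩

end Pool.Agent.MP_e23604_nt.Z
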