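import Pool.Agent.MP_e23604_nt.Z.CAll
import Pool.Agent.MP_e23604_nt.Z.GAll
import Pool.Agent.MP_e23604_nt.Z.KAll
import Pool.Agent.MP_e23604_nt.Z.KFin
import Pool.Agent.MP_e23604_nt.Z.OAll

/-!
The points of the modular curve of level twenty-seven have infinite order.
-/

set_option autoImplicit false

namespace Pool.Agent.MP_e23604_nt.Z

theorem END_ok : END_st := END_of ANA_ok G.GEO_ok GAL_ok HSX_pf

theorem heegZ (D : ℕ) (h : ∀ j, W.Nice (3 ^ j * D) ∧ W.Nice (3 ^ j * D ^ 2))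
    (hp : par3 D = 1) (hc : X.cls3 D ∈ SZ) : X.Heeg D :=
  heegZ_of END_ok HSX_pf D h hp (cls_KFin (by simpa using (h 0).1.ne) hc)

end Pool.Agent.MP_e23604_nt.Z
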