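import Pool.Agent.MP_e23604_nt.Z.BD

/-!
Elementary tools: Gaussian sums, integrals of series, regrouping.
-/

set_option autoImplicit false

open Finset QuadraticAlgebra Filter Topology MeasureTheory Complex
open scoped Classical BigOperators UpperHalfPlane MatrixGroups ComplexConjugate Real

namespace Pool.Agent.MP_e23604_nt.Z

open W Un

instance : Countable Zw :=
  Function.Injective.countable (f := fun a : Zw => (a.re, a.im)) fun _ _ h =>
    QuadraticAlgebra.ext (congrArg Prod.fst h) (congrArg Prod.snd h)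

/-! ### The embedding -/

theorem zc3_re : zc3.re = -1 / 2 := by
  have := congrArg Complex.im zc3_spec
  simp [pow_two] at this
  have h : zc3.im * (2 * zc3.re + 1) = 0 := by linarith
  have := (mul_eq_zero.1 h).resolve_left zc3_im
  linarith

theorem conj_zc3 : conj zc3 = -1 - zc3 := by
  apply Complex.ext <;> simp [zc3_re]
  norm_num

theorem conj_iz (a : Zw) : conj (iz a) = iz (star a) := by
  simp [iz_apply, conj_zc3]
  ring

theorem iz_mul_conj (a : Zw) : iz a * conj (iz a) = nw a := by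
  rw [conj_iz, ← map_mul, mul_star_eq, map_intCast]

theorem normSq_iz (a : Zw) : normSq (iz a) = nw a := by
  have := iz_mul_conj a
  rw [Complex.mul_conj] at this
  exact_mod_cast this

theorem norm_iz_sq (a : Zw) : ‖iz a‖ ^ 2 = nw a := by rw [← normSq_iz, Complex.normSq_eq_norm_sq]

theorem iz_ne {a : Zw} (h : a ≠ 0) : iz a ≠ 0 := (map_ne_zero_iff _ iz_inj).2 h

theorem one_le_nw {a : Zw} (h : a ≠ 0) : (1 : ℝ) ≤ nw a := by exact_mod_cast nw_pos h

theorem nw_nn (a : Zw) : (0 : ℝ) ≤ nw a := by exact_mod_cast nw_nonneg a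

theorem nw_zero : nw 0 = 0 := norm_zero

theorem norm_iz_le (a : Zw) : ‖iz a‖ ≤ nw a := by
  by_cases h : a = 0
  · simp [h]
  have h1 := one_le_nw h
  exact abs_le_of_sq_le_sq' (by rw [norm_iz_sq]; nlinarith) (nw_nn a) |>.2

theorem norm_ex (x : ℂ) : ‖ex x‖ = Real.exp (-2 * π * x.im) := by
  rw [ex, Complex.norm_exp]
  simp

theorem norm_ex_nw (N : ℕ) (a : Zw) (τ : ℂ) :
    ‖ex (τ * nw a / N)‖ = Real.exp (-(2 * π * τ.im / N) * nw a) := by
  rw [norm_ex, show τ * nw a / N = τ * ((nw a / N : ℝ) : ℂ) by push_cast; ring, Complex.im_mul_ofReal]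
  congr 1
  ring

/-! ### The unit `ep` -/

theorem ep_zero {a : Zw} (h : pw ∣ a) : ep a = 0 := if_pos h

theorem ep_spec {a : Zw} (h : ¬ pw ∣ a) : IsUnit (ep a) ∧ Pry (ep a * a) := by
  rw [ep, if_neg h]
  exact Classical.epsilon_spec (ex_pry h)

theorem ep_eq {a u : Zw} (hu : IsUnit u) (h : Pry (u * a)) : ep a = u := by
  obtain ⟨h1, h2⟩ := ep_spec (a := a) fun e => h.pw (e.mul_left u)
  obtain ⟨u, rfl⟩ := hu
  have : Pry (ep a * ↑u⁻¹) := by
    unfold Pry at *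
    convert dvd_sub h2 (h.mul_left (ep a * ↑u⁻¹)) using 1
    have := u.inv_mul
    linear_combination ep a * a * this
  have := this.unit (h1.mul (Units.isUnit _))
  rwa [Units.mul_inv_eq_one] at this

theorem ep_mul (a b : Zw) : ep (a * b) = ep a * ep b := by
  by_cases ha : pw ∣ a
  · rw [ep_zero ha, ep_zero (ha.mul_right b), zero_mul]
  by_cases hb : pw ∣ b
  · rw [ep_zero hb, ep_zero (hb.mul_left a), mul_zero]
  refine ep_eq ((ep_spec ha).1.mul (ep_spec hb).1) ?_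
  rw [mul_mul_mul_comm]
  exact (ep_spec ha).2.mul (ep_spec hb).2

/-! ### Gaussian sums -/

theorem exp_neg_le {x : ℝ} (hx : 0 < x) (m : ℕ) : Real.exp (-x) ≤ m.factorial / x ^ m := by
  have := Real.pow_div_factorial_le_exp x hx.le m
  rw [Real.exp_neg, ← one_div, div_le_div_iff₀ (Real.exp_pos _) (by positivity), one_mul]
  rw [div_le_iff₀ (by positivity)] at this
  linarith

/-- sums of exponentials -/
theorem GB {ι : Type} {n w : ι → ℝ} {m : ℕ} (hw : ∀ i, 0 ≤ w i) (hn : ∀ i, w i ≠ 0 → 1 ≤ n i)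
    (hs : Summable fun i => w i / n i ^ m) : ∃ C : ℝ, 0 ≤ C ∧ ∀ u : ℝ, 0 < u →
      (Summable fun i => w i * Real.exp (-u * n i)) ∧
        ∑' i, w i * Real.exp (-u * n i) ≤ C * Real.exp (-u / 2) / u ^ m := by
  have h0 : ∀ i, 0 ≤ w i / n i ^ m := fun i => by
    by_cases h : w i = 0
    · simp [h]
    · have := hn i h
      have := hw i
      positivity
  refine ⟨m.factorial * 2 ^ m * ∑' i, w i / n i ^ m, mul_nonneg (by positivity) (tsum_nonneg h0),
    fun u hu => ?_⟩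
  have key : ∀ i, w i * Real.exp (-u * n i) ≤
      m.factorial * 2 ^ m * Real.exp (-u / 2) / u ^ m * (w i / n i ^ m) := fun i => by
    by_cases h : w i = 0
    · simp [h]
    have h1 := hn i h
    have h2 := exp_neg_le (x := u / 2 * n i) (by positivity) m
    have h3 : Real.exp (-(u / 2 * n i)) ≤ Real.exp (-u / 2) := Real.exp_le_exp.2 (by nlinarith)
    rw [show -u * n i = -(u / 2 * n i) + -(u / 2 * n i) by ring, Real.exp_add]
    refine (mul_le_mul_of_nonneg_left (mul_le_mul h2 h3 (Real.exp_pos _).le (by positivity))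
      (hw i)).trans_eq ?_
    rw [mul_pow, div_pow]
    field_simp
  have s2 := hs.mul_left (m.factorial * 2 ^ m * Real.exp (-u / 2) / u ^ m)
  have s1 := s2.of_nonneg_of_le (fun i => mul_nonneg (hw i) (Real.exp_pos _).le) key
  refine ⟨s1, (s1.tsum_le_tsum key s2).trans_eq ?_⟩
  rw [tsum_mul_left]
  ring

theorem sum_sq2 : Summable fun v : ℤ × ℤ => 1 / ((v.1 : ℝ) ^ 2 + v.2 ^ 2) ^ 2 := by
  have := EisensteinSeries.summable_one_div_norm_rpow (k := 4) (by norm_num)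
  rw [← (finTwoArrowEquiv ℤ).summable_iff]
  refine this.of_nonneg_of_le (fun _ => by simp only [Function.comp]; positivity) fun x => ?_
  by_cases h : x = 0
  · simp [h]
  have h0 : 0 < ‖x‖ := norm_pos_iff.2 h
  have h1 : ‖x‖ ^ 2 ≤ (x 0 : ℝ) ^ 2 + (x 1 : ℝ) ^ 2 := by
    rw [EisensteinSeries.norm_eq_max_natAbs]
    rcases le_total (x 0).natAbs (x 1).natAbs with e | e
    · rw [max_eq_right e, Nat.cast_natAbs, Int.cast_abs, sq_abs]
      nlinarith [sq_nonneg (x 0 : ℝ)]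
    · rw [max_eq_left e, Nat.cast_natAbs, Int.cast_abs, sq_abs]
      nlinarith [sq_nonneg (x 1 : ℝ)]
  rw [Real.rpow_neg h0.le, show (4 : ℝ) = (4 : ℕ) by norm_num, Real.rpow_natCast, ← one_div]
  refine one_div_le_one_div_of_le (by positivity) ?_
  rw [show ‖x‖ ^ 4 = (‖x‖ ^ 2) ^ 2 by ring]
  exact pow_le_pow_left₀ (by positivity) h1 2

theorem sum_nw : Summable fun a : Zw => 1 / (nw a : ℝ) ^ 2 := by
  have hi : Function.Injective fun a : Zw => (a.re, a.im) := fun _ _ h =>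
    QuadraticAlgebra.ext (congrArg Prod.fst h) (congrArg Prod.snd h)
  refine ((sum_sq2.comp_injective hi).mul_left 4).of_nonneg_of_le (fun _ => by positivity)
    fun a => ?_
  by_cases h : a = 0
  · simp [h]
  have h1 := one_le_nw h
  have h2 : (nw a : ℝ) = a.re ^ 2 - a.re * a.im + a.im ^ 2 := by rw [nw_def]; push_cast; rfl
  have h3 : (a.re : ℝ) ^ 2 + a.im ^ 2 ≤ 2 * nw a := by nlinarith [sq_nonneg ((a.re : ℝ) - a.im)]
  have h4 : 0 < (a.re : ℝ) ^ 2 + a.im ^ 2 := by nlinarith [sq_nonneg ((a.re : ℝ) + a.im)]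
  simp only [Function.comp]
  rw [mul_one_div, div_le_div_iff₀ (by positivity) (by positivity)]
  nlinarith

/-- Gaussian sums over the Eisenstein integers -/
theorem GZ (k : ℕ) : ∃ C : ℝ, 0 ≤ C ∧ ∀ u : ℝ, 0 < u →
    (Summable fun a : Zw => (if a = 0 then 0 else (nw a : ℝ) ^ k) * Real.exp (-u * nw a)) ∧
      ∑' a : Zw, (if a = 0 then 0 else (nw a : ℝ) ^ k) * Real.exp (-u * nw a) ≤
        C * Real.exp (-u / 2) / u ^ (k + 2) := by
  refine GB (fun a => ?_) (fun a h => one_le_nw fun e => h (if_pos e)) (sum_nw.congr fun a => ?_)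
  · have := nw_nn a
    positivity
  · split_ifs with h
    · simp [h]
    · have := one_le_nw h
      field_simp
      ring

theorem sum_gz (k : ℕ) {u : ℝ} (hu : 0 < u) :
    Summable fun a : Zw => (nw a : ℝ) ^ k * Real.exp (-u * nw a) := by
  obtain ⟨C, -, h⟩ := GZ k
  refine (h u hu).1.congr_cofinite ?_
  filter_upwards [(Set.finite_singleton (0 : Zw)).compl_mem_cofinite] with a (ha : a ≠ 0)
  rw [if_neg ha]

/-- Gaussian sums over the integers -/
theorem GI (k m : ℕ) (hm : k + 2 ≤ 2 * m) : ∃ C : ℝ, 0 ≤ C ∧ ∀ u : ℝ, 0 < u →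
    (Summable fun n : ℤ => (if n = 0 then 0 else |(n : ℝ)| ^ k) * Real.exp (-u * n ^ 2)) ∧
      ∑' n : ℤ, (if n = 0 then 0 else |(n : ℝ)| ^ k) * Real.exp (-u * n ^ 2) ≤
        C * Real.exp (-u / 2) / u ^ m := by
  have h1 : ∀ n : ℤ, n ≠ 0 → (1 : ℝ) ≤ |(n : ℝ)| := fun n h => by exact_mod_cast Int.one_le_abs h
  refine GB (n := fun n : ℤ => (n : ℝ) ^ 2) (fun a => by positivity) (fun a h => ?_)
    ((Real.summable_one_div_int_pow.2 one_lt_two).of_nonneg_of_le (fun _ => by positivity)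
      fun a => ?_)
  · have := h1 a fun e => h (if_pos e)
    nlinarith [sq_abs (a : ℝ)]
  · split_ifs with h
    · simp [h]
    · have := h1 a h
      rw [← sq_abs, ← pow_mul, div_le_div_iff₀ (by positivity) (by positivity), ← pow_add, one_mul]
      exact pow_le_pow_right₀ this hm

theorem sum_gi (k : ℕ) {u : ℝ} (hu : 0 < u) :
    Summable fun n : ℤ => |(n : ℝ)| ^ k * Real.exp (-u * n ^ 2) := by
  obtain ⟨C, -, h⟩ := GI k (k + 1) (by omega)
  refine (h u hu).1.congr_cofinite ?_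
  filter_upwards [(Set.finite_singleton (0 : ℤ)).compl_mem_cofinite] with a (ha : a ≠ 0)
  rw [if_neg ha]

/-! ### Theta series -/

theorem th0_sum {N : ℕ} (hN : N ≠ 0) {g : Zw → ℂ} {K : ℝ} (h : ∀ a, ‖g a‖ ≤ K * (1 + nw a))
    {τ : ℂ} (hτ : 0 < τ.im) : Summable fun a : Zw => ‖g a * ex (τ * nw a / N)‖ := by
  have hu : 0 < 2 * π * τ.im / N := by have := Nat.pos_of_ne_zero hN; positivity
  refine (((sum_gz 0 hu).add (sum_gz 1 hu)).mul_left K).of_nonneg_of_le (fun _ => norm_nonneg _)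
    fun a => ?_
  rw [norm_mul, norm_ex_nw]
  refine (mul_le_mul_of_nonneg_right (h a) (Real.exp_pos _).le).trans_eq ?_
  ring

theorem bd_one {g : Zw → ℂ} {K : ℝ} (h : ∀ a, ‖g a‖ ≤ K) (a : Zw) : ‖g a‖ ≤ K * (1 + nw a) :=
  (h a).trans (le_mul_of_one_le_right ((norm_nonneg _).trans (h a)) (by linarith [nw_nn a]))

theorem th0_sub {N : ℕ} (hN : N ≠ 0) : ∃ C : ℝ, 0 ≤ C ∧ ∀ (g : Zw → ℂ) (K : ℝ) (τ : ℂ),
    (∀ a, ‖g a‖ ≤ K) → 1 / 2 ≤ τ.im → ‖th0 N g τ - g 0‖ ≤ C * K * Real.exp (-(π / N) * τ.im) := by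
  obtain ⟨C, C0, hC⟩ := GZ 0
  have hN' : (0 : ℝ) < N := by exact_mod_cast Nat.pos_of_ne_zero hN
  refine ⟨C / (π / N) ^ 2, by positivity, fun g K τ h hτ => ?_⟩
  have K0 : 0 ≤ K := (norm_nonneg _).trans (h 0)
  have hu : 0 < 2 * π * τ.im / N := by have : 0 < τ.im := by linarith
                                       positivity
  have s := th0_sum hN (bd_one h) (τ := τ) (by linarith)
  obtain ⟨s1, s2⟩ := hC _ hu
  rw [th0, s.of_norm.tsum_eq_add_tsum_ite 0, nw_zero]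
  simp only [Int.cast_zero, mul_zero, zero_div, ex_zero, mul_one, add_sub_cancel_left]
  refine (tsum_of_norm_bounded (s1.mul_left K).hasSum fun a => ?_).trans ?_
  · split_ifs
    · simp
    · rw [norm_mul, norm_ex_nw, pow_zero, one_mul]
      exact mul_le_mul_of_nonneg_right (h a) (Real.exp_pos _).le
  rw [tsum_mul_left, show -(π / N) * τ.im = -(2 * π * τ.im / N) / 2 by ring, mul_comm _ K,
    mul_assoc K, div_mul_eq_mul_div C]
  refine mul_le_mul_of_nonneg_left (s2.trans ?_) K0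
  refine div_le_div_of_nonneg_left (by positivity) (by positivity) ?_
  refine pow_le_pow_left₀ (by positivity) (div_le_div_of_nonneg_right ?_ hN'.le) 2
  nlinarith [Real.pi_pos]

theorem th0_bd {N : ℕ} (hN : N ≠ 0) : ∃ C : ℝ, 0 ≤ C ∧ ∀ (g : Zw → ℂ) (K : ℝ) (τ : ℂ),
    (∀ a, ‖g a‖ ≤ K) → 1 / 2 ≤ τ.im → ‖th0 N g τ‖ ≤ C * K := by
  obtain ⟨C, C0, hC⟩ := th0_sub hN
  refine ⟨C + 1, by positivity, fun g K τ h hτ => ?_⟩
  have K0 : 0 ≤ K := (norm_nonneg _).trans (h 0)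
  have h1 : Real.exp (-(π / N) * τ.im) ≤ 1 := Real.exp_le_one_iff.2 (by
    have : 0 ≤ π / N * τ.im := by have : 0 < τ.im := by linarith
                                  positivity
    linarith)
  have h2 := (hC g K τ h hτ).trans (mul_le_of_le_one_right (by positivity) h1)
  have := norm_add_le (th0 N g τ - g 0) (g 0)
  rw [sub_add_cancel] at this
  linarith [h 0]

/-- a bound at every point -/
theorem th0_bd' {N : ℕ} (hN : N ≠ 0) {τ : ℂ} (hτ : 0 < τ.im) : ∃ C : ℝ, 0 ≤ C ∧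
    ∀ (g : Zw → ℂ) (K : ℝ), (∀ a, ‖g a‖ ≤ K) → ‖th0 N g τ‖ ≤ C * K := by
  have s := th0_sum hN (g := fun _ => 1) (K := 1) (bd_one fun _ => by simp) hτ
  refine ⟨∑' a : Zw, ‖1 * ex (τ * nw a / N)‖, tsum_nonneg fun a => norm_nonneg _, fun g K h => ?_⟩
  refine tsum_of_norm_bounded (s.hasSum.mul_right K) fun a => ?_
  rw [norm_mul, one_mul, mul_comm]
  exact mul_le_mul_of_nonneg_left (h a) (norm_nonneg _)

theorem LIM_ok : LIM_st := fun N g hN hg => by
  obtain ⟨C, -, hC⟩ := th0_sub hN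
  obtain ⟨K, hK⟩ := hg.bdd
  have hN' : (0 : ℝ) < N := by exact_mod_cast Nat.pos_of_ne_zero hN
  rw [tendsto_iff_norm_sub_tendsto_zero]
  refine squeeze_zero' (.of_forall fun _ => norm_nonneg _)
    ((tendsto_comap.eventually (eventually_ge_atTop (1 / 2))).mono fun τ h => hC g K τ hK h) ?_
  have : Tendsto (fun y : ℝ => C * K * Real.exp (-(π / N) * y)) atTop (𝓝 (C * K * 0)) :=
    (Real.tendsto_exp_atBot.comp (tendsto_id.const_mul_atTop_of_neg
      (neg_neg_of_pos (by positivity)))).const_mul _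
  rw [mul_zero] at this
  exact this.comp tendsto_comap

theorem THS_of (h : TH2_st) : THS_st := fun N g τ h1 h2 h3 h4 => by
  simpa using h N g τ 1 0 h1 h2 h3 h4

/-! ### Integrals of series -/

theorem IT {α ι : Type} [MeasurableSpace α] [Countable ι] {μ : Measure α} {F : ι → α → ℂ}
    (h1 : ∀ i, Integrable (F i) μ) (h2 : Summable fun i => ∫ a, ‖F i a‖ ∂μ) :
    Integrable (fun a => ∑' i, F i a) μ ∧ (∀ᵐ a ∂μ, Summable fun i => ‖F i a‖) ∧
      ∫ a, ‖∑' i, F i a‖ ∂μ ≤ ∑' i, ∫ a, ‖F i a‖ ∂μ ∧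
      HasSum (fun i => ∫ a, F i a ∂μ) (∫ a, ∑' i, F i a ∂μ) := by
  have e : ∫⁻ a, ∑' i, ‖F i a‖ₑ ∂μ = ENNReal.ofReal (∑' i, ∫ a, ‖F i a‖ ∂μ) := by
    rw [lintegral_tsum fun i => (h1 i).1.enorm, ENNReal.ofReal_tsum_of_nonneg
      (fun i => integral_nonneg fun _ => norm_nonneg _) h2]
    exact tsum_congr fun i => (ofReal_integral_norm_eq_lintegral_enorm (h1 i)).symm
  have le : ∫⁻ a, ‖∑' i, F i a‖ₑ ∂μ ≤ ENNReal.ofReal (∑' i, ∫ a, ‖F i a‖ ∂μ) :=
    e ▸ lintegral_mono fun a => enorm_tsum_le_tsum_enorm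
  have hi : Integrable (fun a => ∑' i, F i a) μ :=
    ⟨.tsum fun i => (h1 i).1, le.trans_lt ENNReal.ofReal_lt_top⟩
  refine ⟨hi, ?_, ?_, hasSum_integral_of_summable_integral_norm h1 h2⟩
  · refine (ae_lt_top' (AEMeasurable.tsum fun i => (h1 i).1.enorm)
      (e ▸ ENNReal.ofReal_ne_top)).mono fun a ha => ?_
    simpa using ENNReal.summable_toReal ha.ne
  · rw [← ofReal_integral_norm_eq_lintegral_enorm hi] at le
    exact (ENNReal.ofReal_le_ofReal_iff
      (tsum_nonneg fun i => integral_nonneg fun _ => norm_nonneg _)).1 le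

/-- regrouping of a series of exponentials -/
theorem QG {ι : Type} {N : ℕ} {g : ℂ → ℂ} {A : ι → ℂ} {ν : ι → ℕ} {s : ℕ → Finset ι}
    (h1 : ∀ n, ∀ i ∈ s n, ν i = n) (h2 : ∀ i, A i ≠ 0 → i ∈ s (ν i))
    (h : ∀ τ : ℂ, 0 < τ.im → HasSum (fun i => A i * ex (ν i * τ / N)) (g τ)) :
    QE N g fun n => ∑ i ∈ s n, A i := fun τ hτ => by
  refine ((h τ hτ).tsum_fiberwise ν).congr_fun fun n => ?_
  rw [tsum_subtype (ν ⁻¹' ({n} : Set ℕ)) fun i => A i * ex (ν i * τ / N), tsum_eq_sum (s := s n), sum_mul]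
  · exact sum_congr rfl fun i hi => by rw [Set.indicator_of_mem (by exact h1 n i hi), h1 n i hi]
  · intro i hi
    rw [Set.indicator_apply_eq_zero]
    rintro rfl
    rw [not_not.1 fun e => hi (h2 i e), zero_mul]

theorem QE_th0 {N : ℕ} (hN : N ≠ 0) {g : Zw → ℂ} {K : ℝ} (h : ∀ a, ‖g a‖ ≤ K * (1 + nw a)) :
    QE N (th0 N g) fun n => ∑ a ∈ sp n, g a :=
  QG (ν := nn) (fun _ _ => mem_sp.1) (fun _ _ => mem_sp.2 rfl) fun τ hτ => by
    refine (th0_sum hN h hτ).of_norm.hasSum.congr_fun fun a => ?_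
    rw [← nn_cast, mul_comm τ, Int.cast_natCast]

/-- the Bessel integral -/
theorem JS {A B : ℝ} (hA : 0 < A) (hB : 0 < B) :
    IntegrableOn (fun y => Real.exp (-A / y - B * y) / y) (Set.Ioi 0) ∧
      ∫ y in Set.Ioi (0 : ℝ), Real.exp (-A / y - B * y) / y = K0 (A * B) := by
  constructor
  · refine ((exp_neg_integrableOn_Ioi 0 hB).const_mul A⁻¹).mono' (by
      apply Measurable.aestronglyMeasurable; fun_prop) ?_
    filter_upwards [ae_restrict_mem measurableSet_Ioi] with y (hy : 0 < y)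
    have := exp_neg_le (x := A / y) (by positivity) 1
    rw [Real.norm_of_nonneg (by positivity), sub_eq_add_neg, Real.exp_add, neg_div, neg_mul,
      div_le_iff₀ hy]
    refine (mul_le_mul_of_nonneg_right this (Real.exp_pos _).le).trans_eq ?_
    simp
    ring
  · have := integral_comp_mul_left_Ioi (fun y => Real.exp (-(A * B) / y - y) / y) 0 hB
    rw [mul_zero, smul_eq_mul, eq_inv_mul_iff_mul_eq₀ hB.ne', ← integral_const_mul] at this
    refine Eq.trans (setIntegral_congr_fun measurableSet_Ioi fun y (hy : 0 < y) => ?_) this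
    have : -(A * B) / (B * y) = -A / y := by field_simp
    simp only [this]
    field_simp

/-! ### The kernel -/

theorem norm_kr (t : ℝ) (c d : ℤ) {τ : ℂ} (hτ : 0 < τ.im) : ‖kr t c d τ‖ =
    ‖c * τ + d‖ * (Real.exp (-π * t * normSq (c * τ + d) / τ.im) * (π / τ.im)) := by
  rw [kr, norm_mul, Complex.norm_conj, Complex.norm_real, Real.norm_of_nonneg (by positivity)]

theorem normSq_ge {τ : ℂ} (hτ : 0 < τ.im) : ∃ κ : ℝ, 0 < κ ∧ ∀ c d : ℝ,
    κ * (c ^ 2 + d ^ 2) ≤ normSq (c * τ + d) := by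
  refine ⟨τ.im ^ 2 / (1 + τ.re ^ 2 + τ.im ^ 2), by positivity, fun c d => ?_⟩
  rw [div_mul_eq_mul_div, div_le_iff₀ (by positivity), Complex.normSq_apply]
  simp
  nlinarith [sq_nonneg (c * τ.re + d), sq_nonneg (c * (τ.re ^ 2 + τ.im ^ 2) + d * τ.re)]

theorem kr_sum {t : ℝ} (ht : 0 < t) {τ : ℂ} (hτ : 0 < τ.im) :
    Summable fun v : ℤ × ℤ => ‖kr t v.1 v.2 τ‖ := by
  obtain ⟨κ, h0, hκ⟩ := normSq_ge hτ
  have hu : 0 < π * t * κ / τ.im := by positivity
  have s0 := sum_gi 0 hu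
  have s1 := sum_gi 1 hu
  have p1 := s1.mul_of_nonneg s0 (fun _ => by positivity) fun _ => by positivity
  have p2 := s0.mul_of_nonneg s1 (fun _ => by positivity) fun _ => by positivity
  refine (((p1.mul_left ‖τ‖).add p2).mul_right (π / τ.im)).of_nonneg_of_le
    (fun _ => norm_nonneg _) fun v => ?_
  rw [norm_kr _ _ _ hτ, ← mul_assoc]
  refine mul_le_mul_of_nonneg_right ?_ (by positivity)
  have h1 : ‖v.1 * τ + v.2‖ ≤ ‖τ‖ * |(v.1 : ℝ)| + |(v.2 : ℝ)| := by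
    refine (norm_add_le _ _).trans_eq ?_
    rw [norm_mul, Complex.norm_intCast, Complex.norm_intCast, mul_comm]
  have h2 : Real.exp (-π * t * normSq (v.1 * τ + v.2) / τ.im) ≤
      Real.exp (-(π * t * κ / τ.im) * v.1 ^ 2) * Real.exp (-(π * t * κ / τ.im) * v.2 ^ 2) := by
    rw [← Real.exp_add, Real.exp_le_exp, div_le_iff₀ hτ]
    have := mul_le_mul_of_nonneg_left (hκ v.1 v.2) (show 0 ≤ π * t by positivity)
    push_cast at this
    refine le_of_le_of_eq (b := -(π * t * (κ * (v.1 ^ 2 + v.2 ^ 2)))) (by linarith) ?_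
    field_simp
    ring
  refine (mul_le_mul h1 h2 (Real.exp_pos _).le (by positivity)).trans_eq ?_
  ring

theorem Et_sum {f : ℤ → ℤ → ℂ} {K : ℝ} (h : ∀ c d, ‖f c d‖ ≤ K) {t : ℝ} (ht : 0 < t) {τ : ℂ}
    (hτ : 0 < τ.im) : Summable fun v : ℤ × ℤ => f v.1 v.2 * kr t v.1 v.2 τ :=
  .of_norm_bounded ((kr_sum ht hτ).mul_left K) fun v => by
    rw [norm_mul]
    exact mul_le_mul_of_nonneg_right (h _ _) (norm_nonneg _)

/-! ### Periodic weights -/

theorem per_St {h : ℤ → ℂ} {N : ℕ} (hh : ∀ n, h (n + N) = h n) (n k : ℤ) :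
    h (n + k * N) = h n := (St h).zsmul_mem (x := (N : ℤ)) hh k n

theorem hat_eq {N : ℕ} (hN : N ≠ 0) {h : ℤ → ℂ} (hh : ∀ n, h (n + N) = h n) (x : ℤ) :
    AP (fun d : ℤ => h d * ex (d * x / N)) ∧
      hat N h x = (∑ d ∈ range N, h d * ex (d * x / N)) / N := by
  have : (N : ℂ) ≠ 0 := Nat.cast_ne_zero.2 hN
  simpa [hat] using Mn_int (f := fun d : ℤ => h d * ex (d * x / N)) hN fun d => by
    rw [hh, ex_congr (y := d * x / N) x (by push_cast; field_simp)]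

theorem hat_le {N : ℕ} (hN : N ≠ 0) {h : ℤ → ℂ} (hh : ∀ n, h (n + N) = h n) {K : ℝ}
    (hK : ∀ n, ‖h n‖ ≤ K) (x : ℤ) : ‖hat N h x‖ ≤ K :=
  Mn_norm_le (hat_eq hN hh x).1 fun d => by
    have := norm_ex_rat (d * x) N
    push_cast at this
    rw [norm_mul, this, mul_one]
    exact hK d

theorem P2.ap {N : ℕ} (hN : N ≠ 0) {f : ℤ → ℤ → ℂ} (h : P2 N f) : AP fun p : ℤ × ℤ => f p.1 p.2 := by
  have : NeZero N := ⟨hN⟩
  let φ : ℤ × ℤ →+ ZMod N × ZMod N := (Int.castAddHom _).prodMap (Int.castAddHom _)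
  refine AP.of_le φ.ker fun v hv x => ?_
  have hv' : ((v.1 : ZMod N), (v.2 : ZMod N)) = 0 := hv
  obtain ⟨k, hk⟩ := (ZMod.intCast_zmod_eq_zero_iff_dvd _ _).1 (congrArg Prod.fst hv')
  obtain ⟨k', hk'⟩ := (ZMod.intCast_zmod_eq_zero_iff_dvd _ _).1 (congrArg Prod.snd hv')
  change f (x.1 + v.1) (x.2 + v.2) = _
  rw [hk, hk', mul_comm, per_St (h := fun c => f c _) fun c => (h c _).1, mul_comm,
    per_St fun d => (h _ d).2]

theorem P2.bdd {N : ℕ} (hN : N ≠ 0) {f : ℤ → ℤ → ℂ} (h : P2 N f) : ∃ K : ℝ, ∀ c d, ‖f c d‖ ≤ K :=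
  let ⟨K, hK⟩ := (h.ap hN).bdd
  ⟨K, fun c d => hK (c, d)⟩

theorem bd_of {N : ℕ} (hN : N ≠ 0) {X : Zw → ℤ → ℤ → ℂ} (h1 : ∀ c d, PN N fun a => X a c d)
    (h2 : ∀ a, P2 N (X a)) (h3 : ∀ a c d, X a (-c) (-d) = -X a c d) : Bd N X := by
  refine ⟨hN, ?_, h2, h3⟩
  choose K hK using fun c d => ((h1 c d).ap hN).bdd
  refine ⟨∑ c ∈ range N, ∑ d ∈ range N, K c d, fun a c d => ?_⟩
  have K0 : ∀ c d, 0 ≤ K c d := fun c d => (norm_nonneg _).trans (hK c d 0)
  have hN' : (0 : ℤ) < N := by exact_mod_cast Nat.pos_of_ne_zero hN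
  have key : ∀ c : ℤ, ∃ r ∈ range N, ∃ k : ℤ, c = r + k * N := fun c =>
    ⟨(c % N).toNat, mem_range.2 (by
      have := Int.emod_lt_of_pos c hN'
      have := Int.emod_nonneg c hN'.ne'
      omega), c / N, by
      rw [Int.toNat_of_nonneg (Int.emod_nonneg c hN'.ne'), Int.emod_add_ediv_mul]⟩
  obtain ⟨r, hr, k, rfl⟩ := key c
  obtain ⟨r', hr', k', rfl⟩ := key d
  rw [per_St (h := fun c => X a c _) fun c => (h2 a c _).1, per_St fun d => (h2 a _ d).2]
  exact (hK r r' a).trans ((single_le_sum (fun d _ => K0 r (d : ℕ)) hr').trans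
    (single_le_sum (f := fun c : ℕ => ∑ d ∈ range N, K c d)
      (fun c _ => sum_nonneg fun d _ => K0 _ _) hr))

theorem Sys.bd {N j : ℕ} {X X' : Zw → ℤ → ℤ → ℂ} (h : Sys N j X X') : Bd N X ∧ Bd N X' :=
  ⟨bd_of h.pos (fun c d => (h.pa c d).1) (fun a c d => ⟨(h.pc a c d).1, (h.pd a c d).1⟩)
      fun a c d => (h.odd a c d).1,
    bd_of h.pos (fun c d => (h.pa c d).2) (fun a c d => ⟨(h.pc a c d).2, (h.pd a c d).2⟩)
      fun a c d => (h.odd a c d).2⟩

theorem Bd.p2 {N : ℕ} {X : Zw → ℤ → ℤ → ℂ} (h : Bd N X) (τ : ℂ) : P2 N (GG N X τ) := fun c d => by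
  simp only [GG, (h.per _ c d).1, (h.per _ c d).2, and_self]

theorem Bd.neg {N : ℕ} {X : Zw → ℤ → ℤ → ℂ} (h : Bd N X) (τ : ℂ) (c d : ℤ) :
    GG N X τ (-c) (-d) = -GG N X τ c d := by
  simp only [GG, th0, h.odd, neg_mul, tsum_neg]

theorem Bd.le {N : ℕ} {X : Zw → ℤ → ℤ → ℂ} (h : Bd N X) :
    ∃ K : ℝ, ∀ τ : ℂ, 1 / 2 ≤ τ.im → ∀ c d, ‖GG N X τ c d‖ ≤ K := by
  obtain ⟨K, hK⟩ := h.bd
  obtain ⟨C, -, hC⟩ := th0_bd h.pos
  exact ⟨C * K, fun τ hτ c d => hC _ K τ (fun a => hK a c d) hτ⟩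

theorem Bd.le' {N : ℕ} {X : Zw → ℤ → ℤ → ℂ} (h : Bd N X) (τ : ℂ) :
    ∃ K : ℝ, ∀ c d, ‖GG N X τ c d‖ ≤ K := (h.p2 τ).bdd h.pos

theorem EFT_of (h1 : ET1_st) (h2 : EF1_st) (h3 : EF2_st) : EFT_st := fun N hN => by
  obtain ⟨γ, C, h2⟩ := h2 N hN
  obtain ⟨C', h3⟩ := h3 N hN
  refine ⟨γ, C + C', fun f K τ p b o hτ => ?_⟩
  obtain ⟨a1, a2, a3⟩ := h2 f K τ.im p b hτ
  obtain ⟨b1, b2, b3⟩ := h3 f K τ p b o hτ
  have e : Set.EqOn (fun t => ea N f τ.im t + ec N f τ t) (Et f τ) (Set.Ioi 0) :=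
    fun t ht => (h1 N f τ t hN p hτ ht).symm
  have i := (a1.add b1).congr_fun e measurableSet_Ioi
  refine ⟨i, fun h => ?_, ?_⟩
  · refine (setIntegral_mono_on i.norm (a1.norm.add b1.norm) measurableSet_Ioi
      fun t ht => ?_).trans ?_
    · rw [← e ht]
      exact norm_add_le _ _
    · rw [integral_add' a1.norm b1.norm]
      linarith [b2 h]
  · rw [← setIntegral_congr_fun measurableSet_Ioi e, integral_add a1 b1, a3, b3]
    ring

end Pool.Agent.MP_e23604_nt.Z
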