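import Pool.Agent.MP_e23604_nt.Z.B0

/-!
Bounds for the Bessel integral; one term of the integral over the strip.
-/

set_option autoImplicit false

open Finset QuadraticAlgebra Filter Topology MeasureTheory Complex
open scoped Classical BigOperators UpperHalfPlane MatrixGroups ComplexConjugate Real

namespace Pool.Agent.MP_e23604_nt.Z

open W Un

theorem K0_nn (s : ℝ) : 0 ≤ K0 s :=
  setIntegral_nonneg measurableSet_Ioi fun y (hy : 0 < y) => by positivity

theorem K0_le (k : ℕ) {s : ℝ} (hs : 0 < s) :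
    K0 s ≤ (k + 1).factorial * k.factorial / s ^ (k + 1) := by
  have h1 := (JS hs one_pos).1
  have h2 := Real.GammaIntegral_convergent (s := k + 1) (by positivity)
  have h3 := Real.Gamma_eq_integral (s := k + 1) (by positivity)
  rw [Real.Gamma_nat_eq_factorial] at h3
  simp only [one_mul, add_sub_cancel_right, Real.rpow_natCast] at h1 h2 h3
  rw [h3, mul_div_right_comm, ← integral_const_mul]
  refine setIntegral_mono_on h1 (h2.const_mul _) measurableSet_Ioi fun y (hy : 0 < y) => ?_
  have := exp_neg_le (x := s / y) (by positivity) (k + 1)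
  rw [sub_eq_add_neg, Real.exp_add, neg_div, div_le_iff₀ hy]
  refine (mul_le_mul_of_nonneg_right this (Real.exp_pos _).le).trans_eq ?_
  rw [div_pow]
  field_simp
  ring

/-- one term of the integrand on the strip -/
noncomputable def s1 (A : ℝ) (n m : ℤ) (p : ℝ × ℝ) : ℂ :=
  if 0 ≤ p.1 ∧ p.1 < 1 then ex ((p.1 + p.2 * I) * n / 3) * conj (ex ((p.1 + p.2 * I) * m / 3)) *
    (Real.exp (-A / p.2) / p.2 : ℝ) else 0

def RT1_st : Prop := ∀ (A : ℝ) (n m : ℤ), 0 < A → 0 < n → 0 < m → n % 3 = m % 3 →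
  IntegrableOn (s1 A n m) HP ∧ ∫ p in HP, ‖s1 A n m p‖ = K0 (A * (2 * π * (n + m) / 3)) ∧
    ∫ p in HP, s1 A n m p = if n = m then (K0 (A * (4 * π * m / 3)) : ℂ) else 0

end Pool.Agent.MP_e23604_nt.Z
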