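import Pool.Agent.MP_e23604_nt.Z.B1

/-!
The distribution relation for the regularised sum.
-/

set_option autoImplicit false

open Finset QuadraticAlgebra Filter Topology MeasureTheory Complex
open scoped Classical BigOperators UpperHalfPlane MatrixGroups ComplexConjugate Real

namespace Pool.Agent.MP_e23604_nt.Z

open W Un

/-- one term -/
noncomputable def F_BDIS (ε : ℝ) (w : ℂ) : ℂ := (Real.exp (-π * ε * normSq w) : ℝ) / w

theorem sc_BDIS {a : Zw} (ha : a ≠ 0) (ε : ℝ) (w : ℂ) :
    F_BDIS ε w = iz a * F_BDIS (ε / nn a) (iz a * w) := by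
  have h1 : (nn a : ℝ) = nw a := by exact_mod_cast nn_cast a
  have h2 := one_le_nw ha
  rw [F_BDIS, F_BDIS, mul_div_assoc', mul_div_mul_left _ _ (iz_ne ha), map_mul, normSq_iz, h1]
  congr 3
  field_simp

theorem sum_BDIS {ε : ℝ} (hε : 0 < ε) (z : ℂ) : Summable fun g : Zw => F_BDIS ε (z + iz g) := by
  have hp : 0 < π * ε := by positivity
  have hB := (sum_gz 0 (half_pos hp)).mul_left (Real.exp (π * ε * normSq z))
  refine hB.of_norm_bounded_eventually ?_
  filter_upwards [hB.tendsto_cofinite_zero.eventually_lt_const (Real.exp_pos (-(π * ε)))] with g hg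
  rw [pow_zero, one_mul, ← Real.exp_add, ← normSq_iz] at hg ⊢
  have h1 : normSq (iz g) / 2 - normSq z ≤ normSq (z + iz g) := by
    simp only [normSq_apply, add_re, add_im]
    nlinarith [sq_nonneg (2 * z.re + (iz g).re), sq_nonneg (2 * z.im + (iz g).im)]
  have h2 := mul_le_mul_of_nonneg_left h1 hp.le
  have h3 : 1 ≤ ‖z + iz g‖ := by
    rw [← sq_le_sq₀ zero_le_one (norm_nonneg _), one_pow, ← Complex.normSq_eq_norm_sq]
    exact le_of_mul_le_mul_left (by linarith [Real.exp_lt_exp.1 hg]) hp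
  rw [F_BDIS, norm_div, Complex.norm_real, Real.norm_of_nonneg (Real.exp_pos _).le]
  exact (div_le_self (Real.exp_pos _).le h3).trans (Real.exp_le_exp.2 (by linarith))

theorem cls_BDIS {m : Zw} (hm : m ≠ 0) (x : Zw) (H : Zw → ℂ) :
    ∑' g, H (x + m * g) = ∑' y, rc m x y * H y := by
  rw [← Function.Injective.tsum_eq (g := fun g => x + m * g) (f := fun y => rc m x y * H y)
    (fun _ _ e => mul_left_cancel₀ hm (add_left_cancel e)) fun y hy => by
      obtain ⟨c, hc⟩ : m ∣ y - x := by_contra fun e => hy (by simp [rc, e])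
      exact ⟨c, by simp [← hc]⟩]
  simp [rc]

theorem DIS_pf : DIS_st := by
  refine ⟨fun ε z l hl => ?_, fun ε z a hε ha => ?_, fun ε m x hm => ?_⟩
  · obtain ⟨b, rfl⟩ := mem_L1.1 hl
    rw [Ke, Ke, eq_comm, ← (Equiv.addLeft b).tsum_eq]
    simp only [Equiv.coe_addLeft, map_add, add_assoc]
  · have h0 : ∀ S, a • S = 0 ↔ iz a * lg S ∈ L0.lattice := fun S => by
      rw [← lg_mem]
      exact ⟨fun h => by simpa using sub_mem h (lg_smul a S),
        fun h => by simpa using add_mem (lg_smul a S) h⟩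
    choose! b hb using fun S (hS : S ∈ tor a) => mem_L0.1 ((h0 S).1 ((mem_tor ha).1 hS))
    have hs := sum_BDIS (ε := ε / nn a) (div_pos hε (by exact_mod_cast nn_pos ha)) (iz a * z)
    have e1 : ∀ S ∈ tor a, Ke ε (z + lg S / Om) =
        iz a * ∑' y, rc a (b S) y * F_BDIS (ε / nn a) (iz a * z + iz y) := fun S hS => by
      rw [← cls_BDIS ha, ← tsum_mul_left]
      refine tsum_congr fun g => (sc_BDIS ha ε _).trans ?_
      rw [mul_add, mul_add, mul_div_assoc', ← hb S hS, mul_div_cancel_left₀ _ Om_ne, map_add,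
        map_mul, add_assoc]
    rw [sum_congr rfl e1, ← mul_sum, ← Summable.tsum_finsetSum fun S _ =>
      hs.norm.of_norm_bounded fun y => by unfold rc; split_ifs <;> simp]
    refine congrArg _ (tsum_congr fun y => ?_)
    obtain ⟨P, -, hP⟩ := ex_lg (nn_pos ha) (z := Om * iz y / iz a) (mem_L0.2 ⟨y * star a, by
      rw [← map_natCast iz, ← mul_star_nn, map_mul, map_mul]
      field_simp [iz_ne ha]⟩)
    obtain ⟨c, hc⟩ := mem_L0.1 hP
    have e2 : Om * iz (y + a * c) = iz a * lg P := by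
      rw [map_add, map_mul, eq_add_of_sub_eq hc.symm]
      field_simp [iz_ne ha]
      ring
    have hP' := (mem_tor ha).2 ((h0 P).2 (mem_L0.2 ⟨_, e2⟩))
    have e3 := iz_inj (mul_left_cancel₀ Om_ne ((hb P hP').trans e2.symm))
    rw [← sum_mul, sum_eq_single_of_mem P hP' fun S hS hne => ?_, rc,
      if_pos ⟨-c, by rw [e3]; ring⟩, one_mul]
    · rfl
    refine if_neg fun ⟨d, hd⟩ => hne ?_
    refine lg_sub_mem.1 (mem_L0.2 ⟨-d - c, mul_left_cancel₀ (iz_ne ha) ?_⟩)
    rw [mul_sub (iz a), ← hb S hS, ← e2, show b S = y - a * d by rw [← hd]; ring]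
    simp only [map_sub, map_add, map_mul, map_neg]
    ring
  · simp only [mul_div_assoc, ← normSq_iz]
    refine Eq.trans ?_ (congrArg _ (cls_BDIS hm x fun y => F_BDIS (ε / nn m) (iz y)))
    rw [← tsum_mul_left]
    refine tsum_congr fun g => (sc_BDIS hm ε _).trans ?_
    rw [mul_add, mul_div_cancel₀ _ (iz_ne hm), map_add, map_mul]

end Pool.Agent.MP_e23604_nt.Z
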