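import Pool.Agent.MP_e23604_nt.Z.B1

/-!
The degenerate terms of the Eisenstein kernel.
-/

set_option autoImplicit false

open Finset QuadraticAlgebra Filter Topology MeasureTheory Complex
open scoped Classical BigOperators UpperHalfPlane MatrixGroups ComplexConjugate Real

namespace Pool.Agent.MP_e23604_nt.Z

open W Un

/-- indicator of a residue class -/
noncomputable def e_BEF1 (N r : ℕ) (n : ℤ) : ℂ := if (N : ℤ) ∣ n - r then 1 else 0

theorem per_BEF1 (N r : ℕ) (n : ℤ) : e_BEF1 N r (n + N) = e_BEF1 N r n := by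
  unfold e_BEF1
  rw [show n + N - r = n - r + N by ring]
  simp only [dvd_add_self_right]

theorem bd_BEF1 (N r : ℕ) (n : ℤ) : ‖e_BEF1 N r n‖ ≤ 1 := by
  unfold e_BEF1
  split_ifs <;> simp

theorem dec_BEF1 {N : ℕ} (hN : N ≠ 0) {h : ℤ → ℂ} (hh : ∀ n, h (n + N) = h n) (n : ℤ) :
    h n = ∑ r ∈ range N, h r * e_BEF1 N r n := by
  have hN' : (0 : ℤ) < N := by exact_mod_cast Nat.pos_of_ne_zero hN
  have h1 := Int.emod_lt_of_pos n hN'
  have h2 := Int.emod_nonneg n hN'.ne'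
  have h3 : (((n % N).toNat : ℕ) : ℤ) = n % N := Int.toNat_of_nonneg h2
  rw [sum_eq_single_of_mem (n % N).toNat (mem_range.2 (by omega))]
  · rw [e_BEF1, h3, if_pos (Int.dvd_self_sub_emod), mul_one, ← per_St hh (n % N) (n / N),
      Int.emod_add_ediv_mul]
  · intro r hr hne
    rw [e_BEF1, if_neg, mul_zero]
    intro hd
    have h4 : n % N = (r : ℤ) % N := (Int.modEq_iff_dvd.2 hd).symm
    have h5 : (r : ℤ) % N = r := Int.emod_eq_of_lt (by positivity) (by exact_mod_cast mem_range.1 hr)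
    omega

theorem lin_BEF1 {N : ℕ} (hN : N ≠ 0) {h : ℤ → ℂ} (hh : ∀ n, h (n + N) = h n) {u : ℝ}
    (hu : 0 < u) : ot h u = ∑ r ∈ range N, h r * ot (e_BEF1 N r) u := by
  have s1 := sum_gi 1 (show 0 < π * u by positivity)
  simp only [ot, ← tsum_mul_left]
  rw [← Summable.tsum_finsetSum]
  · refine tsum_congr fun n => ?_
    rw [dec_BEF1 hN hh n, sum_mul]
    exact sum_congr rfl fun r _ => mul_assoc _ _ _
  · intro r _
    refine Summable.mul_left _ (.of_norm_bounded s1 fun n => ?_)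
    rw [norm_mul, Complex.norm_real, Real.norm_eq_abs, abs_mul, abs_of_pos (Real.exp_pos _),
      pow_one, neg_mul π u]
    exact mul_le_of_le_one_left (by positivity) (bd_BEF1 N r n)

theorem gen_BEF1 (hO : OT_st) {N : ℕ} (hN : N ≠ 0) (w : ℝ → ℝ) (hw : ContinuousOn w (Set.Ioi 0))
    (h0 : ∀ u, 0 ≤ w u) (hi : IntegrableOn (fun u => Real.exp (-u) * w u) (Set.Ioi 0)) :
    ∃ (A : ℕ → ℂ) (C : ℝ), ∀ (h : ℤ → ℂ) (K : ℝ), (∀ n, h (n + N) = h n) → (∀ n, ‖h n‖ ≤ K) →
      IntegrableOn (fun u => w u * ot h u) (Set.Ioi 0) ∧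
      ∫ u in Set.Ioi (0 : ℝ), ‖w u * ot h u‖ ≤ C * K ∧
      ∫ u in Set.Ioi (0 : ℝ), w u * ot h u = ∑ r ∈ range N, A r * h r := by
  obtain ⟨C, hC⟩ := hO N hN
  have key : ∀ (h : ℤ → ℂ) (K : ℝ), (∀ n, h (n + N) = h n) → (∀ n, ‖h n‖ ≤ K) →
      IntegrableOn (fun u => w u * ot h u) (Set.Ioi 0) ∧
      ∫ u in Set.Ioi (0 : ℝ), ‖w u * ot h u‖ ≤
        C * (∫ u in Set.Ioi (0 : ℝ), Real.exp (-u) * w u) * K := by
    intro h K h1 h2
    obtain ⟨c1, c2⟩ := hC h K h1 h2
    have b : ∀ u ∈ Set.Ioi (0 : ℝ), ‖w u * ot h u‖ ≤ C * K * (Real.exp (-u) * w u) := by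
      intro u hu
      rw [norm_mul, Complex.norm_real, Real.norm_of_nonneg (h0 u)]
      exact (mul_le_mul_of_nonneg_left (c2 u hu) (h0 u)).trans_eq (by ring)
    have i : IntegrableOn (fun u => w u * ot h u) (Set.Ioi 0) := by
      refine (hi.const_mul (C * K)).mono'
        (((continuous_ofReal.comp_continuousOn hw).mul c1).aestronglyMeasurable measurableSet_Ioi) ?_
      filter_upwards [ae_restrict_mem measurableSet_Ioi] with u hu using b u hu
    refine ⟨i, (setIntegral_mono_on i.norm (hi.const_mul (C * K)) measurableSet_Ioi b).trans_eq ?_⟩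
    rw [integral_const_mul]
    ring
  refine ⟨fun r => ∫ u in Set.Ioi (0 : ℝ), w u * ot (e_BEF1 N r) u, _, fun h K h1 h2 =>
    ⟨(key h K h1 h2).1, (key h K h1 h2).2, ?_⟩⟩
  rw [setIntegral_congr_fun (g := fun u => ∑ r ∈ range N, w u * ot (e_BEF1 N r) u * h r)
    measurableSet_Ioi fun u hu => ?_, integral_finsetSum _ fun r _ =>
      (key _ 1 (per_BEF1 N r) (bd_BEF1 N r)).1.mul_const _]
  · exact sum_congr rfl fun r _ => integral_mul_const _ _
  · simp only
    rw [lin_BEF1 hN h1 hu, mul_sum]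
    exact sum_congr rfl fun r _ => by ring

theorem cv_BEF1 {G : ℝ → ℂ} (hG : IntegrableOn G (Set.Ioi 0)) {b : ℝ} (hb : 0 < b) :
    IntegrableOn (fun t => b * G (b * t)) (Set.Ioi 0) ∧
      ∫ t in Set.Ioi (0 : ℝ), ‖b * G (b * t)‖ = ∫ u in Set.Ioi (0 : ℝ), ‖G u‖ ∧
      ∫ t in Set.Ioi (0 : ℝ), b * G (b * t) = ∫ u in Set.Ioi (0 : ℝ), G u := by
  have hb' : (b : ℂ) ≠ 0 := ofReal_ne_zero.2 hb.ne'
  refine ⟨Integrable.const_mul ((integrableOn_Ioi_comp_mul_left_iff G 0 hb).2 (by simpa using hG)) _,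
    ?_, ?_⟩
  · simp only [norm_mul, Complex.norm_real, Real.norm_of_nonneg hb.le]
    rw [integral_const_mul, integral_comp_mul_left_Ioi (fun u => ‖G u‖) 0 hb, mul_zero, smul_eq_mul,
      mul_inv_cancel_left₀ hb.ne']
  · rw [integral_const_mul, integral_comp_mul_left_Ioi G 0 hb, mul_zero, real_smul, ofReal_inv,
      mul_inv_cancel_left₀ hb']

theorem EF1_pf (h : OT_st) : EF1_st := by
  intro N hN
  obtain ⟨A, C, hA⟩ := gen_BEF1 h hN (fun _ => 1) continuousOn_const (fun _ => zero_le_one)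
    (by simpa using exp_neg_integrableOn_Ioi 0 one_pos)
  obtain ⟨B, C', hB⟩ := gen_BEF1 h hN (fun u => (√u)⁻¹)
    (Real.continuous_sqrt.continuousOn.inv₀ fun u hu => (Real.sqrt_pos.2 hu).ne')
    (fun _ => by positivity)
    ((Real.GammaIntegral_convergent (s := 1 / 2) (by norm_num)).congr_fun (fun u hu => by
      simp only
      rw [Real.sqrt_eq_rpow, ← Real.rpow_neg (le_of_lt hu)]
      norm_num) measurableSet_Ioi)
  refine ⟨fun c d => (if c = 0 then π * A d else 0) - I * π * B c / N, π * C + π * C',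
    fun f K y p b hy => ?_⟩
  obtain ⟨a1, a2, a3⟩ := hA (f 0) K (fun n => (p 0 n).2) (b 0)
  obtain ⟨b1, b2, b3⟩ := hB (fun c => hat N (f c) 0) K
    (fun c => by simp only [show f (c + N) = f c from funext fun d => (p c d).1])
    fun c => hat_le hN (fun n => (p c n).2) (b c) 0
  obtain ⟨c1, c2, c3⟩ := cv_BEF1 a1 (inv_pos.2 hy)
  obtain ⟨d1, d2, d3⟩ := cv_BEF1 b1 hy
  set F : ℝ → ℂ := fun t => (y⁻¹ : ℝ) * (((1 : ℝ) : ℂ) * ot (f 0) (y⁻¹ * t))
  set G : ℝ → ℂ := fun t => y * ((((√(y * t))⁻¹ : ℝ) : ℂ) * ot (fun c => hat N (f c) 0) (y * t))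
  have e : Set.EqOn (fun t => π * F t - I * π * G t) (ea N f y) (Set.Ioi 0) := fun t ht => by
    have ht' : 0 < t := ht
    have e1 : y * (√(y * t))⁻¹ = √(y / t) := by
      rw [Real.sqrt_mul hy.le, Real.sqrt_div hy.le]
      have h1 := Real.sqrt_pos.2 hy
      have h2 := Real.sqrt_pos.2 ht'
      field_simp
      rw [Real.sq_sqrt hy.le]
    simp only [F, G, ea]
    rw [← e1, mul_comm t y, mul_comm y⁻¹ t, ← div_eq_mul_inv]
    push_cast
    ring
  have i1 := c1.const_mul (π : ℂ)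
  have i2 := d1.const_mul (I * π : ℂ)
  have i := IntegrableOn.congr_fun (i1.sub i2) e measurableSet_Ioi
  refine ⟨i, ?_, ?_⟩
  · refine (setIntegral_mono_on i.norm ((c1.norm.const_mul π).add (d1.norm.const_mul π))
      measurableSet_Ioi fun t ht => ?_).trans ?_
    · rw [← e ht]
      refine (norm_sub_le _ _).trans_eq ?_
      simp only [Pi.add_apply]
      rw [norm_mul (π : ℂ), norm_mul (I * π), norm_mul I, norm_I, one_mul, Complex.norm_real,
        Real.norm_of_nonneg Real.pi_pos.le]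
    · rw [integral_add' (c1.norm.const_mul π) (d1.norm.const_mul π), integral_const_mul,
        integral_const_mul, c2, d2]
      nlinarith [Real.pi_pos]
  · rw [← setIntegral_congr_fun measurableSet_Ioi e, integral_sub i1 i2,
      integral_const_mul (π : ℂ) F, integral_const_mul (I * π : ℂ) G, c3, d3, a3, b3]
    simp only [sub_mul, sum_sub_distrib]
    congr 1
    · rw [mul_sum, eq_comm,
        sum_eq_single_of_mem 0 (mem_range.2 (Nat.pos_of_ne_zero hN)) fun c _ hc => by simp [hc]]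
      exact sum_congr rfl fun d _ => by simp [mul_assoc]
    · rw [mul_sum]
      refine sum_congr rfl fun c _ => ?_
      rw [(hat_eq hN (fun n => (p c n).2) 0).2, ← mul_sum]
      simp [ex_zero]
      ring

end Pool.Agent.MP_e23604_nt.Z
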