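import Pool.Agent.MP_e23604_nt.Z.B1

/-!
The integral of the main terms.
-/

set_option autoImplicit false

open Finset QuadraticAlgebra Filter Topology MeasureTheory Complex
open scoped Classical BigOperators UpperHalfPlane MatrixGroups ComplexConjugate Real

namespace Pool.Agent.MP_e23604_nt.Z

open W Un

theorem abs_BEF2 (c x y : ℝ) {t : ℝ} (ht : 0 < t) : |sb c x y t| ≤ sb |c| |x| y t := by
  rw [sb, sb, abs_mul, abs_mul, sq_abs, sq_abs, abs_of_nonneg (Real.sqrt_nonneg _),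
    abs_of_pos (Real.exp_pos _)]
  gcongr
  refine (abs_add_le _ _).trans_eq ?_
  rw [abs_div, abs_of_pos ht]

theorem int_BEF2 (h : SUB_st) {c x y : ℝ} (hc : c ≠ 0) (hx : x ≠ 0) (hy : 0 < y) :
    ∫ t in Set.Ioi (0 : ℝ), |sb c x y t| ≤ 2 * Real.exp (-2 * π * |c| * |x| * y) := by
  obtain ⟨a1, a2⟩ := h |c| |x| y (abs_ne_zero.2 hc) (abs_ne_zero.2 hx) hy
  rw [if_pos (by positivity), if_pos (by positivity)] at a2
  rw [← a2]
  exact setIntegral_mono_on (h c x y hc hx hy).1.abs a1 measurableSet_Ioi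
    fun t ht => abs_BEF2 c x y ht

theorem geo_BEF2 {u : ℝ} (hu : 0 < u) : Summable fun v : ℤ × ℤ =>
    Real.exp (-u * |(v.1 : ℝ)|) * Real.exp (-u * |(v.2 : ℝ)|) := by
  have s0 : Summable fun n : ℕ => Real.exp (n * -u) :=
    Real.summable_exp_nat_mul_iff.2 (by linarith)
  have s1 : Summable fun n : ℤ => Real.exp (-u * |(n : ℝ)|) :=
    Summable.of_nat_of_neg (s0.congr fun n => by simp [mul_comm])
      (s0.congr fun n => by simp [mul_comm])
  exact s1.mul_of_nonneg s1 (fun _ => (Real.exp_pos _).le) fun _ => (Real.exp_pos _).le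

theorem odd_BEF2 {N : ℕ} (hN : N ≠ 0) {f : ℤ → ℤ → ℂ} (p : P2 N f)
    (o : ∀ c d, f (-c) (-d) = -f c d) (c x : ℤ) : hat N (f (-c)) (-x) = -hat N (f c) x := by
  rw [hat, hat, ← Mn_neg (hat_eq hN (fun d => (p _ d).2) _).1, neg_eq_neg_one_mul (Mn _),
    ← Mn_mul_left (hat_eq hN (fun d => (p _ d).2) _).1]
  congr 1
  ext d
  rw [o]
  push_cast
  rw [neg_mul_neg]
  ring

theorem ex_BEF2 (N : ℕ) (c x : ℤ) (τ : ℂ) : ex (c * x * τ.re / N) *
    (Real.exp (-2 * π * c * (x / N) * τ.im) : ℝ) = ex (c * x * τ / N) := by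
  rw [ex, ex, Complex.ofReal_exp, ← Complex.exp_add]
  congr 1
  conv_rhs => rw [← Complex.re_add_im τ]
  push_cast
  linear_combination (-2 * π * c * x * τ.im / N : ℂ) * Complex.I_mul_I

/-- the terms -/
noncomputable def F_BEF2 (N : ℕ) (f : ℤ → ℤ → ℂ) (τ : ℂ) (v : ℤ × ℤ) (t : ℝ) : ℂ :=
  if v.1 ≠ 0 ∧ v.2 ≠ 0 then
    hat N (f v.1) v.2 * ex (v.1 * v.2 * τ.re / N) * sb v.1 (v.2 / N) τ.im t else 0

/-- the terms with positive indices -/
noncomputable def G_BEF2 (N : ℕ) (f : ℤ → ℤ → ℂ) (τ : ℂ) (v : ℤ × ℤ) : ℂ :=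
  if 0 < v.1 ∧ 0 < v.2 then hat N (f v.1) v.2 * ex (v.1 * v.2 * τ / N) else 0

theorem bd_BEF2 (h : SUB_st) {N : ℕ} (hN : N ≠ 0) {f : ℤ → ℤ → ℂ} {K : ℝ} {τ : ℂ} (p : P2 N f)
    (b : ∀ c d, ‖f c d‖ ≤ K) (hτ : 0 < τ.im) (v : ℤ × ℤ) :
    IntegrableOn (F_BEF2 N f τ v) (Set.Ioi 0) ∧ ∀ y : ℝ, 0 < y → y ≤ τ.im →
      ∫ t in Set.Ioi (0 : ℝ), ‖F_BEF2 N f τ v t‖ ≤
        2 * K * (Real.exp (-(π * y / N) * |(v.1 : ℝ)|) * Real.exp (-(π * y / N) * |(v.2 : ℝ)|)) := by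
  have K0 : 0 ≤ K := (norm_nonneg _).trans (b 0 0)
  have hN' : (0 : ℝ) < N := by exact_mod_cast Nat.pos_of_ne_zero hN
  unfold F_BEF2
  by_cases hv : v.1 ≠ 0 ∧ v.2 ≠ 0
  · simp only [if_pos hv]
    have c0 : (v.1 : ℝ) ≠ 0 := by exact_mod_cast hv.1
    have x0 : (v.2 : ℝ) ≠ 0 := by exact_mod_cast hv.2
    have x1 : (v.2 : ℝ) / N ≠ 0 := div_ne_zero x0 hN'.ne'
    refine ⟨(h _ _ _ c0 x1 hτ).1.ofReal.const_mul _, fun y hy hy' => ?_⟩
    have e : ‖ex (v.1 * v.2 * τ.re / N)‖ = 1 := by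
      rw [norm_ex, show (v.1 * v.2 * τ.re / N : ℂ) = ((v.1 * v.2 * τ.re / N : ℝ) : ℂ) by
        push_cast; rfl, Complex.ofReal_im, mul_zero, Real.exp_zero]
    simp only [norm_mul, e, mul_one, Complex.norm_real, Real.norm_eq_abs]
    rw [integral_const_mul, mul_comm 2 K, mul_assoc K]
    refine mul_le_mul (hat_le hN (fun d => (p _ d).2) (b _) _) ((int_BEF2 h c0 x1 hτ).trans ?_)
      (integral_nonneg fun _ => abs_nonneg _) K0
    rw [← Real.exp_add]
    refine mul_le_mul_of_nonneg_left (Real.exp_le_exp.2 ?_) zero_le_two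
    have c1 : (1 : ℝ) ≤ |(v.1 : ℝ)| := by exact_mod_cast Int.one_le_abs hv.1
    have x2 : (1 : ℝ) ≤ |(v.2 : ℝ)| := by exact_mod_cast Int.one_le_abs hv.2
    rw [abs_div, abs_of_pos hN']
    generalize |(v.1 : ℝ)| = A at c1
    generalize |(v.2 : ℝ)| = B at x2
    have h1 : y * (A + B) ≤ τ.im * (2 * (A * B)) :=
      mul_le_mul hy' (by nlinarith) (by linarith) hτ.le
    have h2 := mul_le_mul_of_nonneg_left h1 (show 0 ≤ π / N by positivity)
    refine le_of_eq_of_le (b := -(π / N * (τ.im * (2 * (A * B))))) (by ring)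
      (le_of_le_of_eq (neg_le_neg h2) (by ring))
  · simp only [if_neg hv]
    refine ⟨integrableOn_zero, fun y _ _ => ?_⟩
    rw [_root_.norm_zero, integral_zero]
    positivity

theorem val_BEF2 (h : SUB_st) {N : ℕ} (hN : N ≠ 0) {f : ℤ → ℤ → ℂ} {τ : ℂ} (p : P2 N f)
    (o : ∀ c d, f (-c) (-d) = -f c d) (hτ : 0 < τ.im) (v : ℤ × ℤ) :
    ∫ t in Set.Ioi (0 : ℝ), F_BEF2 N f τ v t = 2 * (G_BEF2 N f τ v + G_BEF2 N f τ (-v)) := by
  have hN' : (0 : ℝ) < N := by exact_mod_cast Nat.pos_of_ne_zero hN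
  obtain ⟨c, x⟩ := v
  unfold F_BEF2 G_BEF2
  simp only [Prod.fst_neg, Prod.snd_neg]
  by_cases hv : c ≠ 0 ∧ x ≠ 0
  · have c0 : (c : ℝ) ≠ 0 := by exact_mod_cast hv.1
    have x0 : (x : ℝ) ≠ 0 := by exact_mod_cast hv.2
    have e : (0 : ℝ) < c * (x / N) ↔ 0 < c * x := by
      rw [← mul_div_assoc, div_pos_iff_of_pos_right hN']
      exact_mod_cast Iff.rfl
    simp only [if_pos hv]
    rw [integral_const_mul, integral_complex_ofReal, (h _ _ _ c0 (div_ne_zero x0 hN'.ne') hτ).2]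
    simp only [e, Int.cast_pos]
    rcases hv.1.lt_or_gt with c1 | c1 <;> rcases hv.2.lt_or_gt with x1 | x1
    · rw [if_pos (mul_pos_of_neg_of_neg c1 x1), if_neg c1.not_gt, if_neg (by omega),
        if_pos (by omega), odd_BEF2 hN p o, Int.cast_neg, Int.cast_neg, neg_mul_neg,
        ← ex_BEF2 N c x τ]
      push_cast
      ring
    · rw [if_neg (mul_neg_of_neg_of_pos c1 x1).not_gt, if_neg (by omega), if_neg (by omega)]
      simp
    · rw [if_neg (mul_neg_of_pos_of_neg c1 x1).not_gt, if_neg (by omega), if_neg (by omega)]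
      simp
    · rw [if_pos (mul_pos c1 x1), if_pos c1, if_pos ⟨c1, x1⟩, if_neg (by omega),
        ← ex_BEF2 N c x τ]
      push_cast
      ring
  · simp only [if_neg hv]
    rw [if_neg (by omega), if_neg (by omega)]
    simp

theorem hq_BEF2 (N : ℕ) (f : ℤ → ℤ → ℂ) (τ : ℂ) : ∑' v, G_BEF2 N f τ v = hqs N f τ := by
  have i : Function.Injective fun v : ℕ × ℕ => ((v.1 : ℤ), (v.2 : ℤ)) :=
    Function.Injective.prodMap Nat.cast_injective Nat.cast_injective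
  rw [← i.tsum_eq (f := G_BEF2 N f τ) fun v hv => ?_, hqs]
  · refine tsum_congr fun v => ?_
    simp only [G_BEF2, Int.cast_natCast, Int.natCast_pos, Nat.pos_iff_ne_zero]
  · have h : 0 < v.1 ∧ 0 < v.2 := by
      by_contra e
      exact hv (if_neg e)
    exact ⟨(v.1.toNat, v.2.toNat),
      Prod.ext (Int.toNat_of_nonneg h.1.le) (Int.toNat_of_nonneg h.2.le)⟩

theorem EF2_pf (h : SUB_st) : EF2_st := by
  intro N hN
  have hN' : (0 : ℝ) < N := by exact_mod_cast Nat.pos_of_ne_zero hN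
  refine ⟨π * (2 * ∑' v : ℤ × ℤ, Real.exp (-(π * (1 / 2) / N) * |(v.1 : ℝ)|) *
    Real.exp (-(π * (1 / 2) / N) * |(v.2 : ℝ)|)), fun f K τ p b o hτ => ?_⟩
  have s : Summable fun v => ∫ t in Set.Ioi (0 : ℝ), ‖F_BEF2 N f τ v t‖ :=
    ((geo_BEF2 (u := π * τ.im / N) (by positivity)).mul_left (2 * K)).of_nonneg_of_le
      (fun v => integral_nonneg fun _ => norm_nonneg _)
      fun v => (bd_BEF2 h hN p b hτ v).2 _ hτ le_rfl
  obtain ⟨a1, -, a3, a4⟩ := IT (fun v => (bd_BEF2 h hN p b hτ v).1) s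
  have e : ec N f τ = fun t => -I * π * ∑' v, F_BEF2 N f τ v t := rfl
  rw [e]
  refine ⟨a1.const_mul _, fun hy => ?_, ?_⟩
  · have s' := geo_BEF2 (u := π * (1 / 2) / N) (by positivity)
    simp only [norm_mul, _root_.norm_neg, Complex.norm_I, one_mul, Complex.norm_real,
      Real.norm_of_nonneg Real.pi_pos.le]
    rw [integral_const_mul, mul_assoc]
    refine mul_le_mul_of_nonneg_left (a3.trans ((s.tsum_le_tsum
      (fun v => (bd_BEF2 h hN p b hτ v).2 _ one_half_pos hy) (s'.mul_left _)).trans_eq ?_))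
      Real.pi_pos.le
    rw [tsum_mul_left]
    ring
  · simp only [val_BEF2 h hN p o hτ] at a4
    have g1 : Summable (G_BEF2 N f τ) := by
      refine .of_norm_bounded a4.summable.norm fun v => ?_
      by_cases hv : 0 < v.1 ∧ 0 < v.2
      · rw [show G_BEF2 N f τ (-v) = 0 from if_neg (by
          simp only [Prod.fst_neg, Prod.snd_neg]
          omega), add_zero, norm_mul, Complex.norm_two]
        linarith [norm_nonneg (G_BEF2 N f τ v)]
      · rw [show G_BEF2 N f τ v = 0 from if_neg hv, _root_.norm_zero]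
        exact norm_nonneg _
    have g2 := (Equiv.neg (ℤ × ℤ)).hasSum_iff.2 g1.hasSum
    rw [integral_const_mul, a4.unique ((g1.hasSum.add g2).mul_left 2), hq_BEF2]
    ring

end Pool.Agent.MP_e23604_nt.Z
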