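import Pool.Agent.MP_e23604_nt.Z.B1

set_option autoImplicit false

open Finset QuadraticAlgebra Filter Topology MeasureTheory Complex
open scoped Classical BigOperators UpperHalfPlane MatrixGroups ComplexConjugate Real

namespace Pool.Agent.MP_e23604_nt.Z

open W Un

theorem gs_BET1 {g : ℤ → ℂ} {K : ℝ} (hg : ∀ n, ‖g n‖ ≤ K) {a : ℂ} (ha : 0 < a.re) (b c α γ : ℂ) :
    Summable fun n : ℤ => g n * (α + γ * n) * cexp (-π * a * n ^ 2 + b * n + c) := by
  have hu : 0 < π * a.re / 2 := by positivity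
  refine .of_norm_bounded (((((sum_gi 0 hu).mul_left ‖α‖).add ((sum_gi 1 hu).mul_left ‖γ‖)).mul_left
    (K * Real.exp (b.re ^ 2 / (4 * (π * a.re / 2)) + c.re)))) fun n => ?_
  have h1 : ‖α + γ * n‖ ≤ ‖α‖ + ‖γ‖ * |(n : ℝ)| :=
    (norm_add_le _ _).trans_eq (by rw [norm_mul, Complex.norm_intCast])
  have h2 : ‖cexp (-π * a * n ^ 2 + b * n + c)‖ ≤
      Real.exp (b.re ^ 2 / (4 * (π * a.re / 2)) + c.re) * Real.exp (-(π * a.re / 2) * n ^ 2) := by
    have e : (-π * a * n ^ 2 + b * n + c : ℂ).re = -π * a.re * n ^ 2 + b.re * n + c.re := by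
      simp [pow_two]
    rw [Complex.norm_exp, e, ← Real.exp_add, Real.exp_le_exp]
    have : b.re * n - π * a.re / 2 * n ^ 2 ≤ b.re ^ 2 / (4 * (π * a.re / 2)) := by
      rw [le_div_iff₀ (by positivity)]
      nlinarith [sq_nonneg (π * a.re * n - b.re)]
    linarith
  have K0 : 0 ≤ K := (norm_nonneg _).trans (hg 0)
  rw [norm_mul, norm_mul]
  refine (mul_le_mul (mul_le_mul (hg n) h1 (norm_nonneg _) K0) h2 (norm_nonneg _)
    (by positivity)).trans_eq ?_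
  ring

theorem row_BET1 (h : PO1_st) {N : ℕ} (hN : N ≠ 0) {g : ℤ → ℂ} (hg : ∀ n, g (n + N) = g n) {K : ℝ}
    (hK : ∀ n, ‖g n‖ ≤ K) (c : ℤ) {τ : ℂ} {t : ℝ} (hτ : 0 < τ.im) (ht : 0 < t) :
    ∑' d : ℤ, g d * kr t c d τ =
      -I * π * ∑' x : ℤ, hat N g x * ex (c * x * τ.re / N) * sb c (x / N) τ.im t := by
  have hy : (τ.im : ℂ) ≠ 0 := by exact_mod_cast hτ.ne'
  have ht' : (t : ℂ) ≠ 0 := by exact_mod_cast ht.ne'
  have hN' : (N : ℂ) ≠ 0 := by exact_mod_cast hN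
  have hNr : (0 : ℝ) < N := by exact_mod_cast Nat.pos_of_ne_zero hN
  have ha : 0 < (((t / τ.im : ℝ) : ℂ)).re := by rw [ofReal_re]; positivity
  have ha' : 0 < (((τ.im / (t * N ^ 2) : ℝ) : ℂ)).re := by rw [ofReal_re]; positivity
  obtain ⟨e1, e2⟩ := h N g (t / τ.im : ℝ) (-(t / τ.im : ℝ) * c * τ.re) hN hg ha
  have hs : 1 / ((t / τ.im : ℝ) : ℂ) ^ (1 / 2 : ℂ) = (√(τ.im / t) : ℝ) := by
    rw [show (1 / 2 : ℂ) = ((1 / 2 : ℝ) : ℂ) by push_cast; rfl, ← ofReal_cpow (by positivity),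
      ← Real.sqrt_eq_rpow, ← inv_div t, Real.sqrt_inv, ofReal_inv, one_div]
  rw [hs] at e1 e2
  have s1 := (gs_BET1 hK ha (2 * π * (-(t / τ.im : ℝ) * c * τ.re)) 0 1 0).congr
    (g := fun n : ℤ => g n * cexp (-π * (t / τ.im : ℝ) * n ^ 2 +
      2 * π * (-(t / τ.im : ℝ) * c * τ.re) * n)) fun n => by simp
  have s2 := (gs_BET1 hK ha (2 * π * (-(t / τ.im : ℝ) * c * τ.re)) 0 0 1).congr
    (g := fun n : ℤ => g n * n * cexp (-π * (t / τ.im : ℝ) * n ^ 2 +
      2 * π * (-(t / τ.im : ℝ) * c * τ.re) * n)) fun n => by simp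
  have ee : ∀ x : ℤ, -π / ((t / τ.im : ℝ) : ℂ) * (x / N + I * (-(t / τ.im : ℝ) * c * τ.re)) ^ 2 =
      -π * ((τ.im / (t * N ^ 2) : ℝ) : ℂ) * x ^ 2 + 2 * π * I * c * τ.re / N * x +
        π * (t / τ.im) * c ^ 2 * τ.re ^ 2 := fun x => by
    push_cast
    field_simp
    linear_combination (-(t : ℂ) ^ 2 * N ^ 2 * c ^ 2 * τ.re ^ 2) * I_sq
  have s3 := (gs_BET1 (hat_le hN hg hK) ha' (2 * π * I * c * τ.re / N)
    (π * (t / τ.im) * c ^ 2 * τ.re ^ 2) 1 0).congr (g := fun x : ℤ => hat N g x *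
      cexp (-π / ((t / τ.im : ℝ) : ℂ) * (x / N + I * (-(t / τ.im : ℝ) * c * τ.re)) ^ 2))
    fun x => by rw [ee, zero_mul, add_zero, mul_one]
  have s4 := (gs_BET1 (hat_le hN hg hK) ha' (2 * π * I * c * τ.re / N)
    (π * (t / τ.im) * c ^ 2 * τ.re ^ 2) (I * (-(t / τ.im : ℝ) * c * τ.re)) (1 / N)).congr
    (g := fun x : ℤ => hat N g x * (x / N + I * (-(t / τ.im : ℝ) * c * τ.re)) *
      cexp (-π / ((t / τ.im : ℝ) : ℂ) * (x / N + I * (-(t / τ.im : ℝ) * c * τ.re)) ^ 2))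
    fun x => by rw [ee]; ring
  set P : ℂ := π / τ.im * cexp (-π * (t / τ.im) * c ^ 2 * τ.re ^ 2 - π * t * c ^ 2 * τ.im) with hP
  have l : ∀ d : ℤ, g d * kr t c d τ =
      P * (g d * d * cexp (-π * (t / τ.im : ℝ) * d ^ 2 + 2 * π * (-(t / τ.im : ℝ) * c * τ.re) * d) +
        (c * τ.re - I * c * τ.im) * (g d * cexp (-π * (t / τ.im : ℝ) * d ^ 2 +
          2 * π * (-(t / τ.im : ℝ) * c * τ.re) * d))) := fun d => by
    have a1 : conj (c * τ + d : ℂ) = d + (c * τ.re - I * c * τ.im) := by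
      apply Complex.ext <;> simp [add_comm]
    have a2 : normSq (c * τ + d : ℂ) = (d + c * τ.re) ^ 2 + c ^ 2 * τ.im ^ 2 := by
      simp [normSq_apply]; ring
    have a3 : cexp (-π * t * ((d + c * τ.re) ^ 2 + c ^ 2 * τ.im ^ 2) / τ.im) =
        cexp (-π * (t / τ.im) * c ^ 2 * τ.re ^ 2 - π * t * c ^ 2 * τ.im) *
          cexp (-π * (t / τ.im) * d ^ 2 + 2 * π * (-(t / τ.im) * c * τ.re) * d) := by
      rw [← Complex.exp_add]
      congr 1
      field_simp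
      ring
    rw [kr, a1, a2, hP]
    push_cast
    rw [a3]
    ring
  simp only [l]
  rw [tsum_mul_left, s2.tsum_add (s1.mul_left _), tsum_mul_left, e1, e2, ← tsum_mul_left,
    ← tsum_mul_left, ← tsum_mul_left, ← (s4.mul_left _).tsum_add ((s3.mul_left _).mul_left _),
    ← tsum_mul_left, ← tsum_mul_left]
  refine tsum_congr fun x => ?_
  have a4 : cexp (-π * (t / τ.im) * c ^ 2 * τ.re ^ 2 - π * t * c ^ 2 * τ.im) *
      cexp (-π * ((τ.im / (t * N ^ 2) : ℝ) : ℂ) * x ^ 2 + 2 * π * I * c * τ.re / N * x +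
        π * (t / τ.im) * c ^ 2 * τ.re ^ 2) =
      ex (c * x * τ.re / N) * cexp (-π * τ.im * ((x / N) ^ 2 / t + t * c ^ 2)) := by
    rw [ex, ← Complex.exp_add, ← Complex.exp_add]
    congr 1
    push_cast
    field_simp
    ring
  rw [ee, hP, sb]
  generalize cexp (-π * ((τ.im / (t * N ^ 2) : ℝ) : ℂ) * x ^ 2 + 2 * π * I * c * τ.re / N * x +
        π * (t / τ.im) * c ^ 2 * τ.re ^ 2) = E₂ at a4 ⊢
  generalize cexp (-π * (t / τ.im) * c ^ 2 * τ.re ^ 2 - π * t * c ^ 2 * τ.im) = E₁ at a4 ⊢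
  push_cast
  have a5 : -I / (t / τ.im) * (x / N + I * (-(t / τ.im) * c * τ.re)) + (c * τ.re - I * c * τ.im) =
      -I * τ.im * (c + x / N / t) := by
    field_simp
    linear_combination ((t : ℂ) * N * c * τ.re) * I_sq
  have a6 : (π : ℂ) / τ.im * τ.im = π := by field_simp
  linear_combination (π / τ.im * √(τ.im / t) * hat N g x * E₁ * E₂) * a5 +
    (-I * √(τ.im / t) * hat N g x * (c + x / N / t) * E₁ * E₂) * a6 +
    (-I * π * √(τ.im / t) * hat N g x * (c + x / N / t)) * a4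

theorem fam_BET1 {N : ℕ} (hN : N ≠ 0) {H : ℤ → ℤ → ℂ} {K : ℝ} (hK : ∀ c x, ‖H c x‖ ≤ K)
    (r : ℝ) {y t : ℝ} (hy : 0 < y) (ht : 0 < t) :
    Summable fun v : ℤ × ℤ => H v.1 v.2 * ex (v.1 * v.2 * r / N) * sb v.1 (v.2 / N) y t := by
  have hNr : (0 : ℝ) < N := by exact_mod_cast Nat.pos_of_ne_zero hN
  have hu : 0 < π * y * t := by positivity
  have hv : 0 < π * y / (t * N ^ 2) := by positivity
  have p1 := (sum_gi 1 hu).mul_of_nonneg (sum_gi 0 hv) (fun _ => by positivity)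
    fun _ => by positivity
  have p2 := (sum_gi 0 hu).mul_of_nonneg (sum_gi 1 hv) (fun _ => by positivity)
    fun _ => by positivity
  refine .of_norm_bounded ((p1.add (p2.mul_left (1 / (N * t)))).mul_left (K * √(y / t))) fun v => ?_
  have K0 : 0 ≤ K := (norm_nonneg _).trans (hK 0 0)
  have h1 : ‖ex (v.1 * v.2 * r / N)‖ = 1 := by
    rw [norm_ex, show (v.1 * v.2 * r / N : ℂ) = ((v.1 * v.2 * r / N : ℝ) : ℂ) by push_cast; rfl,
      ofReal_im, mul_zero, Real.exp_zero]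
  have h2 : |(v.1 : ℝ) + v.2 / N / t| ≤ |(v.1 : ℝ)| + 1 / (N * t) * |(v.2 : ℝ)| :=
    (abs_add_le _ _).trans_eq (by
      rw [abs_div, abs_div, abs_of_pos hNr, abs_of_pos ht]; field_simp)
  have h3 : Real.exp (-π * y * ((v.2 / N) ^ 2 / t + t * v.1 ^ 2)) =
      Real.exp (-(π * y * t) * v.1 ^ 2) * Real.exp (-(π * y / (t * N ^ 2)) * v.2 ^ 2) := by
    rw [← Real.exp_add]
    congr 1
    field_simp
    ring
  rw [norm_mul, norm_mul, h1, mul_one, Complex.norm_real, sb, Real.norm_eq_abs, abs_mul, abs_mul,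
    abs_of_nonneg (Real.sqrt_nonneg _), abs_of_pos (Real.exp_pos _), h3]
  refine (mul_le_mul (hK _ _) (mul_le_mul_of_nonneg_right (mul_le_mul_of_nonneg_right h2
    (Real.sqrt_nonneg _)) (by positivity)) (by positivity) K0).trans_eq ?_
  ring

theorem ET1_pf (h : PO1_st) : ET1_st := by
  intro N f τ t hN hf hτ ht
  obtain ⟨K, hK⟩ := hf.bdd hN
  have sE := Et_sum hK ht hτ
  have sT := fam_BET1 hN (H := fun c x => hat N (f c) x)
    (fun c x => hat_le hN (fun d => (hf c d).2) (hK c) x) τ.re hτ ht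
  have sU : Summable fun v : ℤ × ℤ => if v.1 ≠ 0 ∧ v.2 ≠ 0 then
      hat N (f v.1) v.2 * ex (v.1 * v.2 * τ.re / N) * sb v.1 (v.2 / N) τ.im t else 0 :=
    .of_norm_bounded sT.norm fun v => by
      split_ifs
      · exact le_rfl
      · exact norm_zero.trans_le (norm_nonneg _)
  have sV := sT.comp_injective (i := fun c : ℤ => (c, (0 : ℤ))) fun _ _ e => congrArg Prod.fst e
  have r0 : ∑' d : ℤ, f 0 d * kr t (0 : ℤ) d τ = π / τ.im * ot (f 0) (t / τ.im) := by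
    rw [ot, ← tsum_mul_left]
    refine tsum_congr fun d => ?_
    rw [kr, Int.cast_zero, zero_mul, zero_add, normSq_intCast, map_intCast,
      show -π * t * (d * d) / τ.im = -π * (t / τ.im) * d ^ 2 by ring]
    push_cast
    ring
  have rV : ∑' c : ℤ, hat N (f c) 0 * ex (c * (0 : ℤ) * τ.re / N) * sb c ((0 : ℤ) / N) τ.im t =
      √(τ.im / t) * ot (fun c => hat N (f c) 0) (t * τ.im) := by
    rw [ot, ← tsum_mul_left]
    refine tsum_congr fun c => ?_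
    rw [sb, Int.cast_zero, Int.cast_zero, mul_zero, zero_mul, zero_div, zero_div, ex_zero,
      show -π * τ.im * (0 ^ 2 / t + t * c ^ 2) = -π * (t * τ.im) * c ^ 2 by ring]
    push_cast
    ring
  rw [Et, sE.tsum_prod, sE.prod.tsum_eq_add_tsum_ite 0, r0, ea, ec, sU.tsum_prod, sub_add,
    sub_eq_add_neg, mul_assoc (I * π), ← rV]
  congr 1
  have := sV.tsum_add sU.prod
  simp only [Function.comp_def] at this
  rw [show ∀ A B : ℂ, -(I * π * A - -I * π * B) = -I * π * (A + B) from fun A B => by ring, ← this,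
    ← tsum_mul_left]
  refine tsum_congr fun c => ?_
  split_ifs with hc
  · simp [hc, sb]
  · rw [row_BET1 h hN (fun d => (hf c d).2) (hK c) c hτ ht, (sT.prod_factor c).tsum_eq_add_tsum_ite 0]
    congr 2
    exact tsum_congr fun x => by by_cases hx : x = 0 <;> simp [hx, hc]

end Pool.Agent.MP_e23604_nt.Z
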