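import Pool.Agent.MP_e23604_nt.Z.B1

set_option autoImplicit false

open Finset QuadraticAlgebra Filter Topology MeasureTheory Complex
open scoped Classical BigOperators UpperHalfPlane MatrixGroups ComplexConjugate Real

namespace Pool.Agent.MP_e23604_nt.Z

open W Un

theorem sum_BFAC {p : Zw → ℂ} (hp : AP p) {u : ℝ} (hu : 0 < u) :
    Summable fun g : Zw => ‖p g * conj (iz g) * (Real.exp (-π * u * nw g) : ℝ)‖ := by
  obtain ⟨K, hK⟩ := hp.bdd
  refine ((sum_gz 1 (u := π * u) (by positivity)).mul_left K).of_nonneg_of_le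
    (fun _ => norm_nonneg _) fun g => ?_
  rw [norm_mul, norm_mul, Complex.norm_conj, Complex.norm_real, Real.norm_of_nonneg (by positivity),
    pow_one, ← mul_assoc, neg_mul]
  exact mul_le_mul_of_nonneg_right (mul_le_mul (hK g) (norm_iz_le g) (norm_nonneg _)
    ((norm_nonneg _).trans (hK g))) (by positivity)

theorem FAC_pf : FAC_st := by
  intro p q t hp hq ht
  obtain ⟨c, hc⟩ : ∃ c : Zw × Zw → ℂ, ∀ v, c v = p v.1 * q v.2 * conj (iz v.1) * conj (iz v.2) :=
    ⟨_, fun _ => rfl⟩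
  obtain ⟨s, hs⟩ : ∃ s : Zw × Zw → ℝ, ∀ v, s v = 4 * π ^ 2 * t * nw v.1 * nw v.2 / 3 :=
    ⟨_, fun _ => rfl⟩
  have hne : ∀ v, c v ≠ 0 → (1 : ℝ) ≤ nw v.1 ∧ (1 : ℝ) ≤ nw v.2 := fun v h =>
    ⟨one_le_nw fun e => h (by simp [hc, e]), one_le_nw fun e => h (by simp [hc, e])⟩
  let F : Zw × Zw → ℝ → ℂ := fun v u =>
    c v * (Real.exp (-(4 * π * t * nw v.2 / 3) / u - π * nw v.1 * u) / u : ℝ)
  have h1 : ∀ v, Integrable (F v) (volume.restrict (Set.Ioi 0)) ∧
      ∫ u in Set.Ioi (0 : ℝ), F v u = c v * (K0 (s v) : ℝ) ∧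
      ∫ u in Set.Ioi (0 : ℝ), ‖F v u‖ = ‖c v‖ * K0 (s v) := fun v => by
    by_cases h : c v = 0
    · simp [F, h]
    obtain ⟨a1, a2⟩ := hne v h
    obtain ⟨b1, b2⟩ := JS (A := 4 * π * t * nw v.2 / 3) (B := π * nw v.1) (by positivity)
      (by positivity)
    rw [show 4 * π * t * nw v.2 / 3 * (π * nw v.1) = s v by rw [hs]; ring] at b2
    refine ⟨(Integrable.ofReal b1).const_mul _, ?_, ?_⟩
    · rw [integral_const_mul, integral_complex_ofReal, b2]
    · rw [← b2, ← integral_const_mul]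
      refine setIntegral_congr_fun measurableSet_Ioi fun u (hu : 0 < u) => ?_
      simp only [F]
      rw [norm_mul, Complex.norm_real, Real.norm_of_nonneg (by positivity)]
  obtain ⟨K, hK⟩ := hp.bdd
  obtain ⟨K', hK'⟩ := hq.bdd
  have K0' : 0 ≤ K := (norm_nonneg _).trans (hK 0)
  have K1' : 0 ≤ K' := (norm_nonneg _).trans (hK' 0)
  have h2 : Summable fun v => ∫ u in Set.Ioi (0 : ℝ), ‖F v u‖ := by
    refine ((sum_nw.mul_of_nonneg sum_nw (fun _ => by positivity) fun _ => by positivity).mul_left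
      (K * K' * 12 / (4 * π ^ 2 * t / 3) ^ 3)).of_nonneg_of_le
      (fun _ => integral_nonneg fun _ => norm_nonneg _) fun v => ?_
    rw [(h1 v).2.2]
    by_cases h : c v = 0
    · rw [h, _root_.norm_zero, zero_mul]
      positivity
    obtain ⟨a1, a2⟩ := hne v h
    have b1 : ‖c v‖ ≤ K * K' * nw v.1 * nw v.2 := by
      rw [hc, norm_mul, norm_mul, norm_mul, Complex.norm_conj, Complex.norm_conj]
      gcongr
      exacts [hK _, hK' _, norm_iz_le _, norm_iz_le _]
    have b2 := K0_le 2 (s := s v) (by rw [hs]; positivity)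
    refine (mul_le_mul b1 b2 (K0_nn _) (by positivity)).trans_eq ?_
    rw [hs]
    simp only [Nat.factorial]
    push_cast
    field_simp
    ring
  have h3 := (IT (fun v => (h1 v).1) h2).2.2.2
  simp only [fun v => (h1 v).2.1, hc, hs] at h3
  convert h3 using 1
  refine setIntegral_congr_fun measurableSet_Ioi fun u (hu : 0 < u) => ?_
  simp only [Tq]
  rw [tsum_mul_tsum_of_summable_norm (sum_BFAC hp hu) (sum_BFAC hq (by positivity)),
    ← tsum_div_const]
  refine tsum_congr fun v => ?_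
  simp only [F, hc]
  rw [show -(4 * π * t * nw v.2 / 3) / u - π * nw v.1 * u =
    -π * u * nw v.1 + -π * (4 * t / (3 * u)) * nw v.2 by field_simp; ring, Real.exp_add]
  push_cast
  ring

end Pool.Agent.MP_e23604_nt.Z
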