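import Pool.Agent.MP_e23604_nt.Z.B1

/-!
The transformation laws of the cusp form.
-/

set_option autoImplicit false

open Finset QuadraticAlgebra Filter Topology MeasureTheory Complex
open scoped Classical BigOperators UpperHalfPlane MatrixGroups ComplexConjugate Real

namespace Pool.Agent.MP_e23604_nt.Z

open W Un

/-- the indicator of `pw` times a primary number -/
noncomputable def g_BFF (a : Zw) : ℂ := if 3 * pw ∣ a - pw then 1 else 0

theorem pn_BFF : PN 9 g_BFF := fun x z ⟨c, h⟩ => by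
  have e : 3 * pw ∣ z := ⟨-c, mul_left_cancel₀ pw_ne (by
    push_cast at h
    linear_combination h + 3 * c * pw_sq)⟩
  simp only [g_BFF, add_sub_right_comm, dvd_add_left e]

theorem th_BFF (σ : ℂ) : th0 9 (fun a => g_BFF a * iz a) σ = iz pw * ff σ := by
  rw [th0, ff, th0, ← tsum_mul_left, ← (mul_right_injective₀ pw_ne).tsum_eq]
  · refine tsum_congr fun a => ?_
    have e : 3 * pw ∣ pw * a - pw ↔ Pry a := by
      rw [mul_comm 3, ← mul_sub_one, mul_dvd_mul_iff_left pw_ne, Pry]
    have e' : nw (pw * a) = 3 * nw a := by rw [nw_mul, show nw pw = 3 by decide]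
    simp only [g_BFF, e, e', map_mul]
    rw [show σ * ((3 * nw a : ℤ) : ℂ) / (9 : ℕ) = σ * nw a / (3 : ℕ) by push_cast; ring]
    split_ifs <;> ring
  · intro a ha
    have : 3 * pw ∣ a - pw := by_contra fun e => ha (by simp [g_BFF, e])
    obtain ⟨c, hc⟩ := this
    exact ⟨1 + 3 * c, by linear_combination -hc⟩

theorem bd_BFF (a : Zw) : ‖Fo 9 g_BFF a‖ ≤ ‖((9 : ℕ) / (Real.sqrt 3 : ℝ) : ℂ)‖ := by
  rw [Fo, norm_mul]
  refine mul_le_of_le_one_right (norm_nonneg _) (Mn_norm_le (Mn_zw (N := 9) (by norm_num)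
    fun x y => ?_).1 fun y => ?_)
  · rw [pn_BFF.per, ex_congr (y := trw (a * star x) / (9 : ℕ)) (trw (a * star y))]
    rw [show a * star (x + (9 : ℕ) * y) = a * star x + (9 : ℤ) * (a * star y) by
      simp only [star_add, star_mul, star_natCast]; push_cast; ring, trw_add, trw_int_mul]
    push_cast
    ring
  · have := norm_ex_rat (trw (a * star y)) 9
    rw [norm_mul, show ((9 : ℕ) : ℂ) = (9 : ℤ) by norm_num, this, g_BFF]
    split_ifs <;> simp

theorem rot_BFF {a : Zw} (h : pw ∣ a) : Fo 9 g_BFF (ω * a) = Fo 9 g_BFF a := by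
  obtain ⟨b, rfl⟩ := h
  rw [Fo, Fo]
  congr 2
  funext y
  rw [g_BFF]
  split_ifs with e
  · obtain ⟨c, e⟩ := e
    obtain rfl : y = pw * (1 + 3 * c) := by linear_combination e
    have h1 : ∀ w : Zw, trw (pw * w) = -3 * w.im := fun w => by simp [trw, pw]; ring
    have h2 : ω * (pw * b) * star (pw * (1 + 3 * c)) = pw * b * star (pw * (1 + 3 * c)) +
        ((-3 : ℤ) : Zw) * (pw * (ω ^ 2 * b * star (1 + 3 * c))) := by
      have : (ω : Zw) - 1 = pw * -ω ^ 2 := by decide
      rw [star_mul, star_pw]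
      push_cast
      linear_combination (-pw ^ 2 * b * star (1 + 3 * c)) * this +
        pw * ω ^ 2 * b * star (1 + 3 * c) * pw_sq
    rw [ex_congr (y := trw (pw * b * star (pw * (1 + 3 * c))) / (9 : ℕ))
      (ω ^ 2 * b * star (1 + 3 * c)).im]
    rw [h2, trw_add, trw_int_mul, h1]
    push_cast
    ring
  · simp

theorem ex_BFF {a : Zw} (h : ¬ pw ∣ a) (τ : ℂ) (m : ℕ) (hm : m ≠ 0) :
    ex ((τ + m) * nw a / (3 * m : ℕ)) = ex (1 / 3) * ex (τ * nw a / (3 * m : ℕ)) := by
  have : (m : ℂ) ≠ 0 := Nat.cast_ne_zero.2 hm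
  obtain ⟨k, hk⟩ : ∃ k : ℤ, nw a = 3 * k + 1 :=
    ⟨nw a / 3, by have := nn_mod3 h; have := nn_cast a; omega⟩
  rw [← ex_add]
  refine ex_congr k ?_
  rw [hk]
  push_cast
  field_simp
  ring

theorem FF_pf (h : TH2_st) : FF_st := by
  have i0 : iz pw ≠ 0 := iz_ne pw_ne
  set F : Zw → ℂ := fun a => I / iz pw * (Fo 9 g_BFF a * iz a) with hF
  have f1e : ∀ τ : ℂ, 0 < τ.im → f1 τ = th0 9 F τ := fun τ hτ => by
    have h0 : τ ≠ 0 := fun e => by simp [e] at hτ
    have := h 9 g_BFF τ 0 iz.toAddMonoidHom (by norm_num) (by norm_num) pn_BFF hτ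
    simp only [RingHom.toAddMonoidHom_eq_coe, AddMonoidHom.coe_coe, zero_add, zero_sub] at this
    rw [th_BFF] at this
    have e : th0 9 (fun a => Fo 9 g_BFF a * -(τ * iz a)) τ = -τ * iz pw / I * th0 9 F τ := by
      rw [th0, th0, ← tsum_mul_left]
      refine tsum_congr fun a => ?_
      rw [hF]
      field_simp
    rw [e] at this
    rw [f1, div_eq_iff (pow_ne_zero 2 h0)]
    refine mul_left_cancel₀ i0 (this.trans ?_)
    field_simp
    rw [I_sq]
    ring
  have bF : ∀ a, ‖F a‖ ≤ ‖I / iz pw‖ * ‖((9 : ℕ) / (Real.sqrt 3 : ℝ) : ℂ)‖ * (1 + nw a) :=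
    fun a => by
      rw [hF, norm_mul, norm_mul, mul_assoc]
      exact mul_le_mul_of_nonneg_left (mul_le_mul (bd_BFF a) (by linarith [norm_iz_le a])
        (norm_nonneg _) (norm_nonneg _)) (norm_nonneg _)
  have sp1 : ∀ σ : ℂ, 0 < σ.im → th0 9 F σ = th0 9 (fun a => if pw ∣ a then 0 else F a) σ :=
    fun σ hσ => by
      have s := (th0_sum (N := 9) (by norm_num) bF hσ).of_norm
      have z : ∑' a, (if pw ∣ a then F a * ex (σ * nw a / (9 : ℕ)) else 0) = 0 := by
        have := (w_unit.unit.mulLeft).tsum_eq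
          fun a => if pw ∣ a then F a * ex (σ * nw a / (9 : ℕ)) else 0
        have e : ∀ a : Zw, (if pw ∣ ω * a then F (ω * a) * ex (σ * nw (ω * a) / (9 : ℕ)) else 0) =
            zc3 * if pw ∣ a then F a * ex (σ * nw a / (9 : ℕ)) else 0 := fun a => by
          simp only [w_unit.dvd_mul_left]
          split_ifs with e
          · simp only [hF, rot_BFF e, map_mul, iz_w, show nw ω = 1 by decide, one_mul]
            ring
          · simp
        simp only [Units.mulLeft_apply, IsUnit.unit_spec, e, tsum_mul_left] at this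
        exact (mul_left_eq_self₀.1 this).resolve_left fun e => zc3_im (by simp [e])
      have s1 : Summable fun a => if pw ∣ a then F a * ex (σ * nw a / (9 : ℕ)) else 0 :=
        (s.indicator {a | pw ∣ a}).congr fun a => by
          simp only [Set.indicator_apply, Set.mem_ofPred_eq]
      have := s.tsum_sub s1
      rw [z, sub_zero] at this
      refine this.symm.trans (tsum_congr fun a => ?_)
      dsimp only
      split_ifs <;> simp
  refine ⟨⟨_, QE_th0 (K := 1) (by norm_num) fun a => ?_, ?_⟩,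
    ⟨_, fun τ hτ => f1e τ hτ ▸ QE_th0 (by norm_num) bF τ hτ⟩, fun τ hτ => ⟨?_, ?_, ?_⟩⟩
  · have := norm_iz_le a
    have := nw_nn a
    split_ifs
    · linarith
    · rw [_root_.norm_zero]
      linarith
  · rw [sum_eq_single 1, if_pos Pry.one, map_one]
    · exact fun a ha e => if_neg fun p => e (p.unit (nn_unit.2 (mem_sp.1 ha)))
    · exact fun e => absurd (mem_sp.2 nn_one) e
  · rw [ff, ff, th0, th0, ← tsum_mul_left]
    refine tsum_congr fun a => ?_
    split_ifs with e
    · have := ex_BFF e.pw τ 1 one_ne_zero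
      rw [Nat.cast_one, mul_one] at this
      rw [this]
      ring
    · simp
  · have h0 : τ ≠ 0 := fun e => by simp [e] at hτ
    rw [f1]
    field_simp
  · have h3 : 0 < (τ + 3).im := by simpa using hτ
    rw [f1e _ h3, f1e _ hτ, sp1 _ h3, sp1 _ hτ, th0, th0, ← tsum_mul_left]
    refine tsum_congr fun a => ?_
    split_ifs with e
    · simp
    · have := ex_BFF e τ 3 three_ne_zero
      rw [Nat.cast_ofNat] at this
      rw [this]
      ring

end Pool.Agent.MP_e23604_nt.Z
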