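import Pool.Agent.MP_e23604_nt.Z.B1

/-!
Total mass of a multiplicative convolution.
-/

set_option autoImplicit false

open Finset QuadraticAlgebra Filter Topology MeasureTheory Complex
open scoped Classical BigOperators UpperHalfPlane MatrixGroups ComplexConjugate Real

namespace Pool.Agent.MP_e23604_nt.Z

open W Un

theorem arg_BFUB (u t : ℝ) : 4 * t / (3 * u) = 4 / (3 * u) * t := by ring

theorem in_BFUB {E : Type} [NormedAddCommGroup E] [NormedSpace ℝ E] (g : ℝ → E) {u : ℝ}
    (hu : 0 < u) : ∫ t in Set.Ioi (0 : ℝ), g (4 * t / (3 * u)) =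
      (3 * u / 4) • ∫ t in Set.Ioi (0 : ℝ), g t := by
  simp only [arg_BFUB]
  rw [integral_comp_mul_left_Ioi g 0 (by positivity), mul_zero, inv_div]

theorem FUB_pf : FUB_st := by
  intro φ ψ hφ hψ
  have hpos : ∀ᵐ u ∂(volume.restrict (Set.Ioi (0 : ℝ))), 0 < u := ae_restrict_mem measurableSet_Ioi
  have hq : Measure.QuasiMeasurePreserving (fun x : ℝ × ℝ => 4 * x.2 / (3 * x.1))
      ((volume.restrict (Set.Ioi 0)).prod (volume.restrict (Set.Ioi 0)))
      (volume.restrict (Set.Ioi 0)) := by
    refine QuasiMeasurePreserving.prod_of_right (by fun_prop) (hpos.mono fun u hu => ?_)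
    simp only [arg_BFUB]
    have h0 : (0 : ℝ) < 4 / (3 * u) := by positivity
    exact (Measure.quasiMeasurePreserving_smul volume h0.ne').restrict
      fun t (ht : 0 < t) => mul_pos h0 ht
  have hm : AEStronglyMeasurable (fun x : ℝ × ℝ => φ x.1 * ψ (4 * x.2 / (3 * x.1)) / x.1)
      ((volume.restrict (Set.Ioi 0)).prod (volume.restrict (Set.Ioi 0))) := by
    simp only [div_eq_mul_inv (_ * _ : ℂ)]
    exact (hφ.1.comp_fst.mul (hψ.1.comp_quasiMeasurePreserving hq)).mul
      (Measurable.aestronglyMeasurable (by fun_prop))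
  have hI : Integrable (fun x : ℝ × ℝ => φ x.1 * ψ (4 * x.2 / (3 * x.1)) / x.1)
      ((volume.restrict (Set.Ioi 0)).prod (volume.restrict (Set.Ioi 0))) := by
    refine (integrable_prod_iff hm).2 ⟨hpos.mono fun u hu => ?_, ?_⟩
    · have h0 : (0 : ℝ) < 4 / (3 * u) := by positivity
      have h1 := (integrableOn_Ioi_comp_mul_left_iff ψ 0 h0).2 (by rwa [mul_zero])
      simp only [arg_BFUB]
      exact (Integrable.const_mul h1 _).div_const _
    · refine (hφ.norm.mul_const (3 / 4 * ∫ t in Set.Ioi (0 : ℝ), ‖ψ t‖)).congr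
        (hpos.mono fun u hu => ?_)
      simp only [norm_div, norm_mul, Complex.norm_real, Real.norm_of_nonneg hu.le]
      rw [integral_div, integral_const_mul, in_BFUB (fun t => ‖ψ t‖) hu, smul_eq_mul]
      field_simp
  refine ⟨hI.integral_prod_right, ?_⟩
  rw [← integral_integral_swap (f := fun (u t : ℝ) => φ u * ψ (4 * t / (3 * u)) / u) hI,
    ← integral_mul_const, ← integral_const_mul]
  refine integral_congr_ae (hpos.mono fun u hu => ?_)
  have h0 : (u : ℂ) ≠ 0 := by exact_mod_cast hu.ne'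
  simp only []
  rw [integral_div, integral_const_mul, in_BFUB ψ hu, Complex.real_smul]
  push_cast
  field_simp

end Pool.Agent.MP_e23604_nt.Z
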