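import Pool.Agent.MP_e23604_nt.Z.B1

/-!
The sum over four cosets is invariant.
-/

set_option autoImplicit false

open Finset QuadraticAlgebra Filter Topology MeasureTheory Complex
open scoped Classical BigOperators UpperHalfPlane MatrixGroups ComplexConjugate Real

namespace Pool.Agent.MP_e23604_nt.Z

open W Un

theorem im_BINV {σ : ℂ} (h : 0 < σ.im) : 0 < (-1 / σ).im := by
  have h0 : σ ≠ 0 := fun e => by simp [e] at h
  have h1 := normSq_pos.2 h0
  rw [neg_div, one_div, neg_im, inv_im, neg_div, neg_neg]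
  positivity

theorem INV_pf : INV_st := by
  intro H₀ H₁ h c d τ hτ
  have ne : ∀ σ : ℂ, 0 < σ.im → σ ≠ 0 := fun σ hσ e => by simp [e] at hσ
  have h1 : ∀ (a b : ℤ) (σ : ℂ), 0 < σ.im → H₁ a b σ = H₀ (-b) a (-1 / σ) := fun a b σ hσ => by
    rw [(h (-b) a σ hσ).2.1, neg_neg]
  refine ⟨?_, ?_⟩
  · have e1 := (h c (d - 2 * c) τ hτ).2.2.1
    unfold YY
    rw [(h c d τ hτ).1, show τ + 1 + 1 = τ + 2 by ring, show τ + 1 + 2 = τ + 3 by ring, e1,
      show d - 2 * c + 3 * c = d + c by ring, show d + c - c = d by ring,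
      show d + c - 2 * c = d - c by ring]
    ring
  · have h0 := ne τ hτ
    have i0 := im_BINV hτ
    have m1 : 0 < (τ - 1).im := by simpa using hτ
    have p1 : 0 < (τ + 1).im := by simpa using hτ
    have n1 := ne _ m1
    have n2 := ne _ p1
    have e1 : H₁ c d (-1 / τ) = H₀ d (-c) τ := by
      rw [h1 c d _ i0, show -1 / (-1 / τ) = τ by field_simp, ← (h d (-c) τ hτ).2.2.2, neg_neg]
    have e2 : H₁ c (d - c) (-1 / τ + 1) = H₁ d (-c - 2 * d) (τ + 2) := by
      have j1 : 0 < (-1 / τ + 1).im := by simpa using i0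
      have j2 : 0 < (-1 / (τ - 1) - 1).im := by simpa using im_BINV m1
      have q1 : -1 / (-1 / τ + 1) = -1 / (τ - 1) - 1 := by
        rw [show -1 / τ + 1 = (τ - 1) / τ by field_simp; ring]
        field_simp
        ring
      have q2 := (h (c - d) d _ j2).1
      have q3 := (h d (-c - 2 * d) _ m1).2.2.1
      rw [sub_add_cancel, show d + (c - d) = c by ring, (h _ _ _ m1).2.1] at q2
      rw [h1 _ _ _ j1, q1, neg_sub, ← q2, show τ + 2 = τ - 1 + 3 by ring, q3]
      congr 1
      ring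
    have e3 : H₁ c (d - 2 * c) (-1 / τ + 2) = H₁ d (-c - d) (τ + 1) := by
      have j1 : 0 < (-1 / τ - 1).im := by simpa using i0
      have j2 := im_BINV p1
      have q1 : -1 / (-1 / τ - 1) = -1 / (τ + 1) + 1 := by
        rw [show -1 / τ - 1 = -(τ + 1) / τ by field_simp; ring]
        field_simp
        ring
      rw [show -1 / τ + 2 = -1 / τ - 1 + 3 by ring, (h _ _ _ j1).2.2.1, h1 _ _ _ j1, q1,
        (h _ _ _ j2).1, show d - 2 * c + 3 * c = d + c by ring,
        show c + -(d + c) = -d by ring, (h _ _ _ j2).2.2.2, (h _ _ _ p1).2.1]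
      congr 1
      ring
    unfold YY
    rw [(h c d τ hτ).2.1, e1, e2, e3]
    ring

end Pool.Agent.MP_e23604_nt.Z
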