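import Pool.Agent.MP_e23604_nt.Z.B1

/-!
The logarithmic derivative at torsion points as a regularised sum.
-/

set_option autoImplicit false

open Finset QuadraticAlgebra Filter Topology MeasureTheory Complex
open scoped Classical BigOperators UpperHalfPlane MatrixGroups ComplexConjugate Real

namespace Pool.Agent.MP_e23604_nt.Z

open W Un

theorem mem_BKDE {w : ℂ} : w / Om ∈ L1.lattice ↔ w ∈ L0.lattice := by
  rw [← (scl_sc Om Om_ne L1).2, mul_div_cancel₀ _ Om_ne]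
  rfl

theorem mul_BKDE (b : Zw) {z : ℂ} (h : z ∈ L1.lattice) : iz b * z ∈ L1.lattice := by
  obtain ⟨c, rfl⟩ := mem_L1.1 h
  exact mem_L1.2 ⟨b * c, map_mul _ _ _⟩

theorem div_BKDE {c : ℝ} (hc : 0 < c) : Tendsto (fun ε : ℝ => ε / c) (𝓝[>] 0) (𝓝[>] 0) := by
  refine tendsto_nhdsWithin_iff.2 ⟨?_, ?_⟩
  · simpa using ((tendsto_id (x := 𝓝 (0 : ℝ))).div_const c).mono_left nhdsWithin_le_nhds
  · filter_upwards [self_mem_nhdsWithin] with ε (h : 0 < ε) using div_pos h hc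

theorem lim_BKDE (hM : MM_st) (hD : DIS_st) {m : Zw} (hm : m ≠ 0) (x : Zw) :
    Tendsto (fun ε => Ke ε (iz x / iz m)) (𝓝[>] 0) (𝓝 (iz m * Mq (rc m x))) := by
  have h1 : AP (rc m x) := AP_zw hm fun y t => by
    rw [rc, rc, show y + m * t - x = y - x + m * t by ring]
    simp only [dvd_add_left (dvd_mul_right m t)]
  have h2 := ((hM.2 _ h1).comp
    (div_BKDE (c := nn m) (by exact_mod_cast nn_pos hm))).const_mul (iz m)
  exact h2.congr fun ε => (hD.2.2 ε m x hm).symm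

theorem sum_BKDE (hD : DIS_st) (hC : CARD_st) {a : Zw} (ha : a ≠ 0) (z : ℂ) {ε : ℝ} (h : 0 < ε) :
    ∑ S ∈ (tor a).erase 0, (Ke ε (z + lg S / Om) + Ke ε (z - lg S / Om) - 2 * Ke ε z) =
      2 * (iz a * Ke (ε / nn a) (iz a * z) - nn a * Ke ε z) := by
  have h0 : lg 0 / Om ∈ L1.lattice := mem_BKDE.2 (lg_mem.2 rfl)
  have h1 : ∀ S, Ke ε (z - lg S / Om) = Ke ε (z + lg (-S) / Om) := fun S => by
    have e := lg_add S (-S)
    rw [add_neg_cancel] at e
    have e' := mem_BKDE.2 (L0.lattice.sub_mem (lg_mem.2 rfl) e)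
    rw [← hD.1 ε _ _ e']
    congr 1
    ring
  have h2 := sum_tor0 ha (-AddMonoidHom.id Pt) (fun S hS => by simp [hS]) (fun S _ e => by
    simpa using e) fun S => Ke ε (z + lg S / Om)
  have h3 := add_sum_erase _ (fun S => Ke ε (z + lg S / Om)) (zero_tor ha)
  have h4 : (((tor a).erase 0).card : ℂ) + 1 = nn a := by
    rw [← hC a ha, ← card_erase_add_one (zero_tor ha)]
    push_cast
    rfl
  simp only [AddMonoidHom.neg_apply, AddMonoidHom.id_apply] at h2
  rw [hD.2.1 ε z a h ha, hD.1 ε _ _ h0] at h3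
  simp only [h1, sum_sub_distrib, sum_add_distrib, h2, sum_const, nsmul_eq_mul]
  linear_combination 2 * h3 - 2 * Ke ε z * h4

theorem KDE_pf (hM : MM_st) (hT : TAN_st) (hW : WPI_st) (hD : DIS_st) (hC : CARD_st) : KDE_st := by
  intro a m x Q hm ha hQ hx
  have m0 := iz_ne hm
  have O0 := Om_ne
  set z := iz x / iz m with hz
  have n1 : ∀ w, iz a * w ∈ L1.lattice → z + w ∉ L1.lattice := fun w h1 h2 => by
    obtain ⟨b, hb⟩ := mem_L1.1 (L1.lattice.sub_mem (mul_BKDE a h2) h1)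
    refine hx ⟨b, iz_inj ?_⟩
    rw [map_mul, map_mul, hb, hz]
    field_simp
    ring
  have n0 : z ∉ L1.lattice := by simpa using n1 0 (by simp)
  have n2 : ∀ S, a • S = 0 → iz a * (lg S / Om) ∈ L1.lattice := fun S hS => by
    have e := lg_smul a S
    rw [hS] at e
    rw [← mul_div_assoc, mem_BKDE]
    simpa using L0.lattice.sub_mem (lg_mem.2 rfl) e
  have l1 : lg (x • Q) - Om * z ∈ L0.lattice := by
    have := L0.lattice.add_mem (lg_smul x Q) (L0_mul x hQ)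
    rwa [show lg (x • Q) - iz x * lg Q + iz x * (lg Q - Om / iz m) = lg (x • Q) - Om * z by
      rw [hz]; ring] at this
  have l2 : lg (x • Q) = Om * z + (lg (x • Q) - Om * z) := by ring
  have n3 : x • Q ≠ 0 := fun e => n0 (((scl_sc Om Om_ne L1).2 z).1 (by
    have := L0.lattice.sub_mem (lg_mem.2 e) l1
    rwa [sub_sub_cancel] at this))
  have e1 : eC (xc (x • Q)) = (Om ^ 2)⁻¹ * wp L1 z := by
    rw [← lg_x, l2, wp_per l1]
    exact (scl_sc Om Om_ne L1).wp_mul z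
  have e2 : eC (2 * yc (x • Q) + 1) = (Om ^ 3)⁻¹ * wq L1 z := by
    rw [← (lg_xy n3).2, l2, wq_per l1]
    exact (scl_sc Om Om_ne L1).wq_mul z
  have e3 : ∀ S, eC (xc S) = (Om ^ 2)⁻¹ * wp L1 (lg S / Om) := fun S => by
    rw [← lg_x, ← (scl_sc Om Om_ne L1).wp_mul, mul_div_cancel₀ _ O0]
    rfl
  have e4 : eC (de a (x • Q)) =
      -Om⁻¹ * ∑ S ∈ (tor a).erase 0, wq L1 z / (wp L1 z - wp L1 (lg S / Om)) := by
    rw [de, map_mul, map_neg, e2, map_sum, mul_sum, mul_sum]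
    refine sum_congr rfl fun S _ => ?_
    rw [map_div₀, map_one, map_sub, e1, e3, ← mul_sub, one_div, mul_inv, inv_inv, div_eq_mul_inv]
    generalize (wp L1 z - wp L1 (lg S / Om))⁻¹ = u
    field_simp
  have t1 : Tendsto (fun ε => ∑ S ∈ (tor a).erase 0,
      (Ke ε (z + lg S / Om) + Ke ε (z - lg S / Om) - 2 * Ke ε z)) (𝓝[>] 0)
      (𝓝 (∑ S ∈ (tor a).erase 0, wq L1 z / (wp L1 z - wp L1 (lg S / Om)))) :=
    tendsto_finsetSum _ fun S hS => by
      obtain ⟨s1, s2⟩ := (mem_tor0 ha).1 hS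
      rw [← hW z _ n0 (fun e => s1 (lg_mem.1 (mem_BKDE.1 e))) (n1 _ (n2 S s2)) (by
        rw [sub_eq_add_neg]
        exact n1 _ (by rw [mul_neg]; exact neg_mem (n2 S s2)))]
      exact hT z _
  have t2 := ((((lim_BKDE hM hD hm (a * x)).comp (div_BKDE (c := nn a)
    (by exact_mod_cast nn_pos ha))).const_mul (iz a)).sub
      ((lim_BKDE hM hD hm x).const_mul (nn a : ℂ))).const_mul 2
  have t3 := tendsto_nhds_unique_of_eventuallyEq t1 t2 (by
    filter_upwards [self_mem_nhdsWithin] with ε (h : 0 < ε)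
    rw [sum_BKDE hD hC ha z h, Function.comp, map_mul, mul_div_assoc])
  rw [e4, t3]
  field_simp
  ring

end Pool.Agent.MP_e23604_nt.Z
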