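import Pool.Agent.MP_e23604_nt.Z.B1

/-!
The space of forms is a line.
-/

set_option autoImplicit false

open Finset QuadraticAlgebra Filter Topology MeasureTheory Complex
open scoped Classical BigOperators UpperHalfPlane MatrixGroups ComplexConjugate Real

namespace Pool.Agent.MP_e23604_nt.Z

open W Un

theorem int_BLINE (hQ : QA_st) {N m j : ℕ} {g : ℂ → ℂ} {B : ℕ → ℂ} (hN : N ≠ 0) (h : QE N g B)
    (hp : ∀ τ : ℂ, 0 < τ.im → g (τ + m) = ex (j / 3) * g τ) {n : ℕ} (hn : B n ≠ 0) :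
    ∃ z : ℤ, 3 * (n * m : ℤ) = (3 * z + j) * N := by
  have e := (hQ N g B hN h).2.2 m _ hp n hn
  have hN' : (N : ℂ) ≠ 0 := Nat.cast_ne_zero.2 hN
  have e1 : ex (n * m / N - j / 3) = 1 := by
    rw [sub_eq_add_neg, ex_add, e, ex_neg, mul_inv_cancel₀ (ex_ne _)]
  obtain ⟨z, hz⟩ := ex_eq_one.1 e1
  refine ⟨z, ?_⟩
  have e2 : 3 * (n * m : ℂ) = (3 * z + j) * N := by
    rw [← hz]
    field_simp
    ring
  exact_mod_cast e2

theorem dkA_BLINE (hQ : QA_st) {N m j : ℕ} {g : ℂ → ℂ} {B : ℕ → ℂ} (hN : N ≠ 0) (h : QE N g B)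
    (hp : ∀ τ : ℂ, 0 < τ.im → g (τ + m) = ex (j / 3) * g τ) (hm : 0 < m) (hj : j < 3) :
    Dk (j / (3 * m)) g := by
  refine (hQ N g B hN h).2.1 _ fun n hn => by_contra fun h0 => ?_
  obtain ⟨z, hz⟩ := int_BLINE hQ hN h hp h0
  rw [div_mul_eq_mul_div, lt_div_iff₀ (by positivity)] at hn
  have h1 : (n : ℤ) * (3 * m) < j * N := by exact_mod_cast hn
  have h2 : (0 : ℤ) < N := by exact_mod_cast Nat.pos_of_ne_zero hN
  have h3 : z < 0 := by nlinarith
  have h4 : (0 : ℤ) ≤ n * m := by positivity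
  have h5 : 3 * z + j < 0 := by omega
  nlinarith

theorem dkB_BLINE (hQ : QA_st) {N : ℕ} {g : ℂ → ℂ} {B : ℕ → ℂ} (hN : N ≠ 0) (h3 : 3 ∣ N)
    (h : QE N g B) (hp : ∀ τ : ℂ, 0 < τ.im → g (τ + 1) = ex (1 / 3) * g τ) :
    Dk (4 / 3) fun τ => g τ - B (N / 3) * ex (τ / 3) := by
  obtain ⟨k, rfl⟩ := h3
  have hk : k ≠ 0 := by omega
  rw [Nat.mul_div_cancel_left k (by norm_num)]
  have hq : QE (3 * k) (fun τ => g τ - B k * ex (τ / 3)) fun n => if n = k then 0 else B n := by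
    intro τ hτ
    refine ((h τ hτ).sub (hasSum_ite_eq k (B k * ex (τ / 3)))).congr_fun fun n => ?_
    beta_reduce
    split_ifs with e
    · have : (k : ℂ) ≠ 0 := Nat.cast_ne_zero.2 hk
      rw [e, show (k : ℂ) * τ / ((3 * k : ℕ) : ℂ) = τ / 3 by push_cast; field_simp, sub_self,
        zero_mul]
    · rw [sub_zero]
  refine (hQ _ _ _ hN hq).2.1 _ fun n hn => ?_
  split_ifs with e
  · rfl
  by_contra h0
  obtain ⟨z, hz⟩ := int_BLINE hQ (m := 1) (j := 1) hN h (by simpa using hp) h0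
  have h1 : (n : ℝ) < 4 * k := by
    push_cast at hn
    linarith
  have h2 : (n : ℤ) < 4 * k := by exact_mod_cast h1
  have h4 : (0 : ℤ) < k := by exact_mod_cast Nat.pos_of_ne_zero hk
  have h5 : (n : ℤ) = (3 * z + 1) * k := by
    push_cast at hz
    linarith
  have h6 : (0 : ℤ) ≤ n := by positivity
  rcases lt_trichotomy z 0 with a | rfl | a
  · nlinarith
  · exact e (by omega)
  · nlinarith

theorem sub_BLINE {κ : ℝ} {g h : ℂ → ℂ} (hg : Dk κ g) (hh : Dk κ h) (α : ℂ) :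
    Dk κ fun τ => g τ - α * h τ := by
  obtain ⟨C, hC⟩ := hg
  obtain ⟨C', hC'⟩ := hh
  refine ⟨C + ‖α‖ * C', fun τ hτ => (norm_sub_le _ _).trans ?_⟩
  rw [norm_mul, add_mul, mul_assoc ‖α‖]
  exact add_le_add (hC τ hτ) (mul_le_mul_of_nonneg_left (hC' τ hτ) (norm_nonneg _))

theorem cube_BLINE (j : ℕ) (x : ℂ) : (ex (j / 3) * x) ^ 3 = x ^ 3 := by
  rw [mul_pow, ← ex_nat_mul, show ((3 : ℕ) : ℂ) * (j / 3) = ((j : ℤ) : ℂ) by push_cast; ring,
    ex_int, one_mul]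

theorem LINE_pf (hQ : QA_st) (hL : LN0_st) (hF : FF_st) : LINE_st := by
  obtain ⟨⟨A, hA, a1⟩, ⟨A', hA'⟩, hf⟩ := hF
  have c1 : ∀ x : ℂ, (ex (1 / 3) * x) ^ 3 = x ^ 3 := fun x => by simpa using cube_BLINE 1 x
  have d0 := (hQ 3 ff A (by norm_num) hA).1
  have d1 := (hQ 9 f1 A' (by norm_num) hA').1
  have k1 : Dk (1 / 9) f1 := by
    have := dkA_BLINE hQ (m := 3) (j := 1) (by norm_num) hA'
      (fun τ hτ => by simpa using (hf τ hτ).2.2) (by norm_num) (by norm_num)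
    norm_num at this ⊢
    exact this
  refine ⟨⟨?_, k1, d0.continuousOn, d1.continuousOn⟩,
    fun N j g g₁ B B₁ hN h3 hB hB₁ hg => ⟨?_, ?_⟩⟩
  · simpa using dkA_BLINE hQ (m := 1) (j := 1) (by norm_num) hA
      (fun τ hτ => by simpa using (hf τ hτ).1) (by norm_num) (by norm_num)
  · rintro rfl
    have e := hL g g₁ _ _ (hQ N g B hN hB).1 (hQ N g₁ B₁ hN hB₁).1
      (fun τ hτ => ⟨by rw [(hg τ hτ).1, c1], (hg τ hτ).2.1, by rw [(hg τ hτ).2.2, cube_BLINE]⟩)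
      (dkA_BLINE hQ (m := 1) (j := 1) hN hB (fun τ hτ => by simpa using (hg τ hτ).1)
        (by norm_num) (by norm_num))
      (dkA_BLINE hQ (m := 3) (j := 2) hN hB₁ (fun τ hτ => by simpa using (hg τ hτ).2.2)
        (by norm_num) (by norm_num)) (by norm_num)
    by_contra h0
    exact ex_ne _ ((hQ N g B hN hB).2.2 0 0 (fun τ hτ => by simp [e τ hτ]) _ h0)
  · rintro rfl
    have k2 : Dk (1 / 9) g₁ := by
      have := dkA_BLINE hQ (m := 3) (j := 1) hN hB₁ (fun τ hτ => by simpa using (hg τ hτ).2.2)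
        (by norm_num) (by norm_num)
      norm_num at this ⊢
      exact this
    have k3 : Dk (4 / 3) fun τ => g τ - B (N / 3) * ff τ := by
      have := sub_BLINE (dkB_BLINE hQ hN h3 hB fun τ hτ => (hg τ hτ).1)
        (dkB_BLINE hQ (by norm_num) dvd_rfl hA fun τ hτ => (hf τ hτ).1) (B (N / 3))
      rw [show A (3 / 3) = 1 from a1] at this
      convert this using 2
      ring
    have e := hL (fun τ => g τ - B (N / 3) * ff τ) (fun τ => g₁ τ - B (N / 3) * f1 τ) _ _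
      ((hQ N g B hN hB).1.sub (d0.const_mul _)) ((hQ N g₁ B₁ hN hB₁).1.sub (d1.const_mul _))
      (fun τ hτ => ⟨by
        rw [(hg τ hτ).1, (hf τ hτ).1, mul_left_comm, ← mul_sub, c1], by
        rw [(hg τ hτ).2.1, (hf τ hτ).2.1]
        ring, by
        rw [(hg τ hτ).2.2, (hf τ hτ).2.2, Nat.cast_one, mul_left_comm, ← mul_sub, c1]⟩)
      k3 (sub_BLINE k2 k1 _) (by norm_num)
    refine fun τ hτ => ⟨sub_eq_zero.1 (e τ hτ), ?_⟩
    have h0 : τ ≠ 0 := fun h => by simp [h] at hτ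
    have h1 : 0 < (-1 / τ).im := by
      have := normSq_pos.2 h0
      rw [neg_div, one_div, neg_im, inv_im, neg_div, neg_neg]
      positivity
    have h2 := e _ h1
    rw [(hg τ hτ).2.1, (hf τ hτ).2.1, mul_left_comm, ← mul_sub] at h2
    exact sub_eq_zero.1 ((mul_eq_zero.1 h2).resolve_left (pow_ne_zero 2 h0))

end Pool.Agent.MP_e23604_nt.Z
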