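import Pool.Agent.MP_e23604_nt.Z.B1

/-!
A form that decays too fast at both cusps is zero.
-/

set_option autoImplicit false

open Finset QuadraticAlgebra Filter Topology MeasureTheory Complex
open scoped Classical BigOperators UpperHalfPlane MatrixGroups ComplexConjugate Real

namespace Pool.Agent.MP_e23604_nt.Z

open W Un

open ModularForm Asymptotics UpperHalfPlane in
theorem one_BLN0 {G : ℂ → ℂ} {κ : ℝ} (h1 : DifferentiableOn ℂ G {τ | 0 < τ.im})
    (h2 : ∀ τ : ℂ, 0 < τ.im → G (τ + 1) = G τ ∧ G (-1 / τ) = τ ^ 24 * G τ) (h3 : Dk κ G)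
    (h4 : 2 < κ) (τ : ℂ) (hτ : 0 < τ.im) : G τ = 0 := by
  have a1 : ∀ γ : SL(2, ℤ), (fun z : ℍ => G z) ∣[(24 : ℤ)] γ = fun z : ℍ => G z := by
    refine SlashInvariantForm.slash_action_generators_SL2Z (funext fun z => ?_) (funext fun z => ?_)
    · have := (h2 z z.2).2
      rw [neg_div, one_div] at this
      rw [SL_slash_apply, modular_S_smul]
      simp only [ModularGroup.denom_S, inv_neg, this, zpow_neg, zpow_ofNat]
      field_simp [z.ne_zero]
    · rw [SL_slash_apply, denom, modular_T_smul, ModularGroup.T]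
      simp [add_comm, (h2 z z.2).1]
  have a2 : ∀ γ : SL(2, ℤ), ((fun z : ℍ => G z) / (discriminant * discriminant)) ∣[(0 : ℤ)] γ =
      (fun z : ℍ => G z) / (discriminant * discriminant) := fun γ => by
    rw [show (0 : ℤ) = 24 - (12 + 12) by norm_num, div_slash_SL2, mul_slash_SL2, a1,
      SlashInvariantForm.slash_action_generators_SL2Z discriminant_S_invariant
        discriminant_T_invariant]
  have a3 : (fun z : ℍ => G z) =o[atImInfty] (discriminant * discriminant) := by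
    obtain ⟨C, hC⟩ := h3
    have b1 : (fun z : ℍ => G z) =O[atImInfty] fun z => Real.exp (-2 * π * (κ - 2) * z.im) *
        (Real.exp (-2 * π * z.im) * Real.exp (-2 * π * z.im)) := by
      refine .of_bound C ((atImInfty_mem _).2 ⟨1 / 2, fun z hz => (hC z hz).trans_eq ?_⟩)
      rw [← Real.exp_add, ← Real.exp_add, Real.norm_of_nonneg (Real.exp_pos _).le]
      congr 2
      simp only [coe_im]
      ring
    have b2 : (fun z : ℍ => Real.exp (-2 * π * (κ - 2) * z.im)) =o[atImInfty] fun _ => (1 : ℂ) := by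
      refine (isLittleO_one_iff ℂ).2 (Real.tendsto_exp_atBot.comp
        (Tendsto.const_mul_atTop_of_neg ?_ tendsto_comap))
      nlinarith [Real.pi_pos]
    exact b1.trans_isLittleO ((b2.mul_isBigO (exp_isBigO_discriminant.mul
      exp_isBigO_discriminant)).congr_right fun z => one_mul _)
  have a4 : IsZeroAtImInfty ((fun z : ℍ => G z) / (discriminant * discriminant)) :=
    a3.tendsto_div_nhds_zero
  let F : ModularForm 𝒮ℒ 0 :=
    { toFun := (fun z : ℍ => G z) / (discriminant * discriminant)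
      slash_action_eq' := fun _ ⟨γ, hγ⟩ => hγ ▸ a2 γ
      holo' := (mdifferentiable_iff.2 (h1.congr fun z hz => by
          simp [ofComplex_apply_of_im_pos hz])).div
        (CuspForm.discriminant.holo'.mul CuspForm.discriminant.holo')
        fun z => mul_ne_zero (discriminant_ne_zero z) (discriminant_ne_zero z)
      bdd_at_cusps' := fun {c} hc => by
        rw [Subgroup.IsArithmetic.isCusp_iff_isCusp_SL2Z] at hc
        rw [OnePoint.isBoundedAt_iff_forall_SL2Z hc]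
        intro γ _
        rw [a2 γ]
        exact a4.isBoundedAtImInfty }
  obtain ⟨c, hc⟩ := ModularFormClass.levelOne_weight_zero_const F
  have a5 : (fun z : ℍ => G z) / (discriminant * discriminant) = fun _ => c := hc
  have a6 : c = 0 := by
    rw [a5] at a4
    exact tendsto_nhds_unique tendsto_const_nhds a4
  have := congrFun a5 ⟨τ, hτ⟩
  rw [a6, Pi.div_apply, div_eq_zero_iff] at this
  exact this.resolve_right (mul_ne_zero (discriminant_ne_zero _) (discriminant_ne_zero _))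

theorem mul_BLN0 {κ κ' : ℝ} {g g' : ℂ → ℂ} (h : Dk κ g) (h' : Dk κ' g') :
    Dk (κ + κ') fun τ => g τ * g' τ := by
  obtain ⟨C, h⟩ := h
  obtain ⟨C', h'⟩ := h'
  refine ⟨C * C', fun τ hτ => ?_⟩
  rw [norm_mul, show -2 * π * (κ + κ') * τ.im = -2 * π * κ * τ.im + -2 * π * κ' * τ.im by ring,
    Real.exp_add, mul_mul_mul_comm]
  exact mul_le_mul (h τ hτ) (h' τ hτ) (norm_nonneg _) ((norm_nonneg _).trans (h τ hτ))

theorem add_BLN0 {κ : ℝ} {g : ℂ → ℂ} (h : Dk κ g) (m : ℕ) : Dk κ fun τ => g (τ + m) :=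
  h.imp fun _ h τ hτ => by simpa using h (τ + m) (by simpa using hτ)

theorem inv_BLN0 {τ : ℂ} (h : 0 < τ.im) : τ ≠ 0 ∧ 0 < (-1 / τ).im := by
  have h0 : τ ≠ 0 := fun e => by simp [e] at h
  refine ⟨h0, ?_⟩
  rw [neg_div, one_div, neg_im, inv_im, neg_div, neg_neg]
  exact div_pos h (normSq_pos.2 h0)

theorem tr_BLN0 {a b : ℂ → ℂ} (h : ∀ τ : ℂ, 0 < τ.im → a (τ + 1) = a τ ∧
    a (-1 / τ) = τ ^ 6 * b τ ∧ b (τ + 3) = b τ) {τ : ℂ} (hτ : 0 < τ.im) :
    b (-1 / τ) = τ ^ 6 * a τ ∧ b (-1 / τ + 1) = τ ^ 6 * b (τ + 2) ∧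
      b (-1 / τ + 2) = τ ^ 6 * b (τ + 1) := by
  obtain ⟨a0, a1⟩ := inv_BLN0 hτ
  have b1 : 0 < (τ - 1).im := by simpa using hτ
  have b2 : 0 < (τ + 1).im := by simpa using hτ
  have b3 := (inv_BLN0 b1).1
  have b4 := (inv_BLN0 b2).1
  have c1 : 0 < (-1 / τ + 1).im := by simpa using a1
  have c2 : 0 < (-1 / τ - 1).im := by simpa using a1
  refine ⟨?_, ?_, ?_⟩
  · have := (h _ a1).2.1
    rw [show -1 / (-1 / τ) = τ by field_simp] at this
    rw [this]
    field_simp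
  · have e1 := (h _ c1).2.1
    have e2 := (h _ (inv_BLN0 c1).2).1
    have e3 : -1 / τ + 1 = (τ - 1) / τ := by field_simp; ring
    rw [show -1 / (-1 / τ + 1) + 1 = -1 / (τ - 1) by rw [e3]; field_simp; ring, (h _ b1).2.1, e1,
      ← (h _ b1).2.2, show τ - 1 + 3 = τ + 2 by ring] at e2
    refine mul_left_cancel₀ (pow_ne_zero 6 b3) ?_
    rw [mul_left_comm, e2, e3]
    field_simp
  · have e1 := (h _ c2).2.1
    have e2 := (h _ (inv_BLN0 b2).2).1
    have e3 : -1 / τ - 1 = -(τ + 1) / τ := by field_simp; ring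
    rw [show -1 / (τ + 1) + 1 = -1 / (-1 / τ - 1) by rw [e3]; field_simp; ring, (h _ b2).2.1, e1,
      ← (h _ c2).2.2, show -1 / τ - 1 + 3 = -1 / τ + 2 by ring] at e2
    refine mul_left_cancel₀ (pow_ne_zero 6 b4) ?_
    rw [mul_left_comm, ← e2, e3]
    field_simp

theorem LN0_pf : LN0_st := by
  intro g g₁ κ κ₁ d d₁ h k k₁ hκ
  have h' : ∀ τ : ℂ, 0 < τ.im → g (τ + 1) ^ 3 = g τ ^ 3 ∧
      g (-1 / τ) ^ 3 = τ ^ 6 * g₁ τ ^ 3 ∧ g₁ (τ + 3) ^ 3 = g₁ τ ^ 3 := fun τ hτ =>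
    ⟨(h τ hτ).1, by rw [(h τ hτ).2.1]; ring, (h τ hτ).2.2⟩
  have o : IsOpen {τ : ℂ | 0 < τ.im} := isOpen_lt continuous_const continuous_im
  have c : IsPreconnected {τ : ℂ | 0 < τ.im} := (convex_halfSpace_im_gt 0).isPreconnected
  have dm : ∀ m : ℕ, DifferentiableOn ℂ (fun τ => g₁ (τ + m)) {τ | 0 < τ.im} := fun m =>
    d₁.comp (differentiableOn_id.add_const _) fun τ hτ => by simpa using hτ
  have p := mul_BLN0 (mul_BLN0 (mul_BLN0 k k₁) (add_BLN0 k₁ 1)) (add_BLN0 k₁ 2)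
  have d1 := dm 1
  have d2 := dm 2
  push_cast at p d1 d2
  have q := ((d.mul d₁).mul d1).mul d2
  have z := one_BLN0 ((q.mul q).mul q) (fun τ hτ => by
    obtain ⟨e1, e2, e3⟩ := tr_BLN0 (a := fun τ => g τ ^ 3) (b := fun τ => g₁ τ ^ 3) h' hτ
    obtain ⟨e4, e5, e6⟩ := h' τ hτ
    have e : ∀ x y z w : ℂ, x * y * z * w * (x * y * z * w) * (x * y * z * w) =
      x ^ 3 * y ^ 3 * z ^ 3 * w ^ 3 := fun _ _ _ _ => by ring
    simp only [Pi.mul_apply, e] at e1 e2 e3 ⊢
    rw [e1, e2, e3, e4, e5, show τ + 1 + 1 = τ + 2 by ring, show τ + 1 + 2 = τ + 3 by ring, e6]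
    exact ⟨by ring, by ring⟩) (mul_BLN0 (mul_BLN0 p p) p) (by linarith)
  have z1 : ∀ m : ℕ, (∀ τ : ℂ, 0 < τ.im → g₁ (τ + m) = 0) → ∀ τ : ℂ, 0 < τ.im → g τ = 0 :=
    fun m e τ hτ => by
      obtain ⟨a0, a1⟩ := inv_BLN0 hτ
      have := (h _ a1).2.1
      rw [show -1 / (-1 / τ) = τ by field_simp] at this
      rw [this, ← sub_add_cancel (-1 / τ) m, e _ (by simpa using a1), mul_zero]
  rcases (((d.mul d₁).mul d1).analyticOnNhd o).eq_zero_or_eq_zero_of_mul_eq_zero
    (d2.analyticOnNhd o) (fun τ hτ => by simpa using z τ hτ) c with e | e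
  · rcases ((d.mul d₁).analyticOnNhd o).eq_zero_or_eq_zero_of_mul_eq_zero
      (d1.analyticOnNhd o) e c with e | e
    · exact ((d.analyticOnNhd o).eq_zero_or_eq_zero_of_mul_eq_zero (d₁.analyticOnNhd o) e c).elim
        id fun e => z1 0 (by simpa using e)
    · exact z1 1 (by simpa using e)
  · exact z1 2 (by simpa using e)

end Pool.Agent.MP_e23604_nt.Z
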