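import Pool.Agent.MP_e23604_nt.Z.B1

/-!
Unfolding of the regularised form against the cusp form.
-/

set_option autoImplicit false

open Finset QuadraticAlgebra Filter Topology MeasureTheory Complex
open scoped Classical BigOperators UpperHalfPlane MatrixGroups ComplexConjugate Real

namespace Pool.Agent.MP_e23604_nt.Z

open W Un

/-- the invariant terms -/
noncomputable def H_BM1A (N : ℕ) (X : Zw → ℤ → ℤ → ℂ) (t : ℝ) (f : ℂ → ℂ) (c d : ℤ) (τ : ℂ) : ℂ :=
  GG N X τ c d * kr t c d τ * conj (f τ) * τ.im ^ 2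

theorem sum_BM1A {N : ℕ} {X : Zw → ℤ → ℤ → ℂ} (h : Bd N X) {t : ℝ} (ht : 0 < t) (f : ℂ → ℂ)
    {τ : ℂ} (hτ : 0 < τ.im) (m : ℤ) : HasSum (fun v : ℤ × ℤ => H_BM1A N X t f v.1 (v.2 - m * v.1) τ)
      (It N X t τ * conj (f τ) * τ.im ^ 2) := by
  obtain ⟨K, hK⟩ := h.le' τ
  exact ((Equiv.refl ℤ).prodShear fun c => Equiv.subRight (m * c)).hasSum_iff.2
    (((Et_sum hK ht hτ).hasSum.mul_right _).mul_right _)

theorem M1A_pf (hL : LAW_st) (hF : FF_st) (hI : INV_st) (h0 : UF0_st) (h1 : UF1_st) (hM : MEAS_st) : M1A_st := by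
  intro w N X X' h t hw hX hh ht hi
  have e3 : ex (1 / 3) * conj (ex (1 / 3)) = 1 := by
    have := norm_ex_rat 1 3
    push_cast at this
    rw [mul_conj, normSq_eq_norm_sq, this]
    simp
  have iv := hI (H_BM1A N X t ff) (H_BM1A N X' t f1) fun c d τ hτ => by
    obtain ⟨a1, a2, a3, a4, -⟩ := (hL.2 N 1 X X' τ hX hτ).1 c d
    obtain ⟨b1, b2, b3⟩ := hF.2.2 τ hτ
    obtain ⟨c1, c2, c3⟩ := hL.1 t c d 1 τ hτ
    have c4 := (hL.1 t c d 3 τ hτ).1
    rw [Int.cast_one, one_mul] at c1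
    rw [Int.cast_ofNat] at c4
    rw [Nat.cast_one] at a3
    simp only [H_BM1A, a1, a2, a3, a4, b1, b2, b3, c1, c2, c3, c4, map_mul, add_im, one_im,
      im_ofNat, add_zero, neg_mul_neg, and_true]
    have key : ∀ x y z u : ℂ, ex (1 / 3) * x * y * (conj (ex (1 / 3)) * z) * u = x * y * z * u :=
      fun x y z u => by linear_combination x * y * z * u * e3
    refine ⟨key _ _ _ _, ?_, key _ _ _ _⟩
    have h0 : τ ≠ 0 := fun e => by simp [e] at hτ
    have h2 : conj τ ≠ 0 := (map_ne_zero _).2 h0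
    rw [show (-1 / τ).im = τ.im / normSq τ by
      rw [neg_div, one_div, neg_im, inv_im, neg_div, neg_neg], ofReal_div, ← mul_conj, map_pow]
    field_simp
  have hsY : ∀ σ, hs (YY (H_BM1A N X t ff) (H_BM1A N X' t f1)) σ = st h t σ * σ.im ^ 2 :=
    fun σ => by
      rw [st, hs, hs]
      split_ifs
      · rw [← tsum_mul_right]
        refine tsum_congr fun d => ?_
        rw [← hh]
        simp [YY, H_BM1A, GG, th0, hX.zero]
      · rw [zero_mul]
  rw [← (hM.1 _).2, ← h0 w _ hw ((hM.1 _).1.2 hi)]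
  refine congrArg _ (funext fun τ => congrArg _ ?_)
  have hτ : 0 < (τ : ℂ).im := τ.im_pos
  have s := (sum_BM1A hX.bd.1 ht ff hτ 0).add (((sum_BM1A hX.bd.2 ht f1 hτ 0).add
    (sum_BM1A hX.bd.2 ht f1 (τ := τ + 1) (by simpa using hτ) 1)).add
    (sum_BM1A hX.bd.2 ht f1 (τ := τ + 2) (by simpa using hτ) 2))
  simp only [zero_mul, sub_zero, one_mul, add_im, one_im, im_ofNat, add_zero, ← add_mul] at s
  have := h1 _ τ iv (by simp [YY, H_BM1A, kr]) s.summable
  simp only [hsY] at this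
  exact s.tsum_eq.symm.trans this

end Pool.Agent.MP_e23604_nt.Z
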