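import Pool.Agent.MP_e23604_nt.Z.B1

/-!
The unfolded sum as a sum of products of theta integrals.
-/

set_option autoImplicit false

open Finset QuadraticAlgebra Filter Topology MeasureTheory Complex
open scoped Classical BigOperators UpperHalfPlane MatrixGroups ComplexConjugate Real

namespace Pool.Agent.MP_e23604_nt.Z

open W Un

theorem M1B_pf (hB : BIJ_st) (hF : FAC_st) : M1B_st := by
  intro h t ι s p q R hf ht hR
  have h1 := (hasSum_sum fun i hi => hF (p i) (q i) t (hf.ap i hi).1 (hf.ap i hi).2 ht).mul_left
    (π : ℂ)
  have h2 := h1.unique (hB _ _ R hR (fun d a b e => by_contra fun k => e (if_neg k))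
    (fun k => by simp) fun d k g hg => by
      have e := hf.eq (d + 1) k g d.succ_pos hg
      push_cast at e
      simp only [← sum_mul, ← e]
      split_ifs with c
      · simp [ep_zero c]
      obtain ⟨u1, u2⟩ := ep_spec c
      have n1 : nw (ep (k * g)) = 1 := by rw [← nn_cast, nn_unit.1 u1, Nat.cast_one]
      have n2 : nw ((d : Zw) + 1) = (d + 1) ^ 2 := by
        have := nn_nat (d + 1)
        rw [← Nat.cast_inj (R := ℤ), nn_cast] at this
        exact_mod_cast this
      rw [tm, if_pos ⟨by simp only [nw_mul, nw_star, n1, one_mul], u2⟩]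
      simp only [n1, n2, map_mul, map_add, map_natCast, map_one]
      push_cast
      ring_nf)
  linear_combination -h2 / 6

end Pool.Agent.MP_e23604_nt.Z
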