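import Pool.Agent.MP_e23604_nt.Z.B1

/-!
Exchange of the two integrals.
-/

set_option autoImplicit false

open Finset QuadraticAlgebra Filter Topology MeasureTheory Complex
open scoped Classical BigOperators UpperHalfPlane MatrixGroups ComplexConjugate Real

namespace Pool.Agent.MP_e23604_nt.Z

open W Un

theorem int_BM2 (hE : EFT_st) {N : ℕ} {X : Zw → ℤ → ℤ → ℂ} (h : Bd N X) {σ : ℂ}
    (hσ : 0 < σ.im) : Integrable (fun t => It N X t σ) (volume.restrict (Set.Ioi 0)) := by
  obtain ⟨γ, C, k⟩ := hE N h.pos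
  obtain ⟨K, hK⟩ := h.le' σ
  exact (k _ K σ (h.p2 σ) hK (h.neg σ) hσ).1

theorem M2_pf (hP : PET_st) (hE : EFT_st) (hL : LINE_st) : M2_st := by
  intro w N X X' hw h h'
  obtain ⟨⟨d0, d1, c0, c1⟩, -⟩ := hL
  have i0 := hP w N X ff _ 0 hw h c0 (by norm_num) d0
  have i1 := hP w N X' f1 _ 0 hw h' c1 (by norm_num) d1
  have i2 := hP w N X' f1 _ 1 hw h' c1 (by norm_num) d1
  have i3 := hP w N X' f1 _ 2 hw h' c1 (by norm_num) d1
  have i : Integrable (Function.uncurry fun (τ : ℍ) (t : ℝ) =>
      w τ * S4 (It N X t) (It N X' t) τ) (volume.prod (volume.restrict (Set.Ioi 0))) := by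
    refine (i0.add ((i1.add i2).add i3)).congr (Eventually.of_forall fun x => ?_)
    simp only [Pi.add_apply, Function.uncurry, S4, ofReal_zero, add_zero, ofReal_one, ofReal_ofNat,
      UpperHalfPlane.coe_im]
    ring
  rw [← integral_integral_swap i]
  refine integral_congr_ae (Eventually.of_forall fun τ => ?_)
  have p0 : 0 < (τ : ℂ).im := τ.im_pos
  have j0 := (int_BM2 hE h p0).mul_const (conj (ff τ))
  have j1 := (int_BM2 hE h' p0).mul_const (conj (f1 τ))
  have j2 := (int_BM2 hE h' (σ := τ + 1) (by simpa using p0)).mul_const (conj (f1 (τ + 1)))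
  have j3 := (int_BM2 hE h' (σ := τ + 2) (by simpa using p0)).mul_const (conj (f1 (τ + 2)))
  simp only [S4, II]
  rw [integral_const_mul, integral_mul_const, integral_add j0 ((j1.fun_add j2).fun_add j3),
    integral_add (j1.fun_add j2) j3, integral_add j1 j2]
  simp only [integral_mul_const]

end Pool.Agent.MP_e23604_nt.Z
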