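import Pool.Agent.MP_e23604_nt.Z.B1

/-!
The main identity.
-/

set_option autoImplicit false

open Finset QuadraticAlgebra Filter Topology MeasureTheory Complex
open scoped Classical BigOperators UpperHalfPlane MatrixGroups ComplexConjugate Real

namespace Pool.Agent.MP_e23604_nt.Z

open W Un

theorem con_add_BMAIN {N : ℕ} {X Y : Zw → ℤ → ℤ → ℂ} (hX : Bd N X) (hY : Bd N Y) (n : ℕ) :
    con N (fun a c d => X a c d + Y a c d) n = con N X n + con N Y n := by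
  simp only [con, ← sum_add_distrib, add_mul]
  refine sum_congr rfl fun a _ => sum_congr rfl fun c _ => Mn_add ?_ ?_
  · simpa only [Int.cast_natCast] using (hat_eq hX.pos (fun d => (hX.per a c d).2) ((n - nn a) / c : ℕ)).1
  · simpa only [Int.cast_natCast] using (hat_eq hY.pos (fun d => (hY.per a c d).2) ((n - nn a) / c : ℕ)).1

theorem cusp_BMAIN {N : ℕ} {X : Zw → ℤ → ℤ → ℂ} {μ : Zw} (hN : N ≠ 0) (h : 3 * nn μ = N)
    (h0 : ∀ a d, ¬ μ ∣ a → X a 0 d = 0) (d : ℤ) (τ : ℂ) :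
    GG N X τ 0 d = th0 3 (fun a => X (μ * a) 0 d) τ := by
  have m0 : μ ≠ 0 := by
    rintro rfl
    exact hN (h.symm.trans (by decide))
  have n0 : (nn μ : ℂ) ≠ 0 := Nat.cast_ne_zero.2 (nn_pos m0).ne'
  rw [GG, th0, th0, ← (mul_right_injective₀ m0).tsum_eq]
  · refine tsum_congr fun a => ?_
    rw [nw_mul, ← nn_cast μ, ← h]
    congr 2
    push_cast
    field_simp
  · intro a ha
    by_contra e
    exact ha (by simp only [h0 a d fun ⟨b, hb⟩ => e ⟨b, hb.symm⟩, zero_mul])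

theorem mod_BMAIN {N : ℕ} {X X' : Zw → ℤ → ℤ → ℂ} {μ : Zw} (hS : Sys N 1 X X') (h : 3 * nn μ = N)
    (a : Zw) (d : ℤ) (h0 : X (μ * a) 0 d ≠ 0) : nw a % 3 = 1 := by
  have n0 : (nn μ : ℂ) ≠ 0 := Nat.cast_ne_zero.2 fun e => hS.pos (by rw [← h, e])
  have := hS.lawT (μ * a) 0 d
  rw [add_zero, mul_left_inj' h0] at this
  have e : ex (((nw a - 1 : ℤ) : ℂ) / (3 : ℤ)) = 1 := by
    rw [← mul_right_inj' (ex_ne (1 / 3)), ← ex_add, mul_one, this, nw_mul, ← nn_cast μ, ← h]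
    congr 1
    push_cast
    field_simp
    ring
  have := (ex_div_eq_one (by norm_num)).1 e
  omega

theorem MAIN_pf (hW : WT_st) (hQ : QEI_st) (hL : LINE_st) (hLa : LAW_st) (hR : RT_st)
    (hA : M1A_st) (hB : M1B_st) (h2 : M2_st) (hF : FUB_st) (hT : THI_st) : MAIN_st := by
  obtain ⟨w, hw⟩ := hW
  refine ⟨8 * π * (-4 * π * I) * ∫ τ : ℍ, w τ * S4 ff f1 τ,
    fun N X X' Y Y' μ ι s p q hX hY h0 hμ hc hf => ?_⟩
  obtain ⟨γ, hγ⟩ := hQ N
  have a1 := (hL.2 N 1 _ _ _ _ hX.pos hX.dvd (hγ X hX.bd.1) (hγ X' hX.bd.2)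
    fun τ hτ => (hLa.2 N 1 X X' τ hX hτ).2).2 rfl
  have a2 := (hL.2 N 2 _ _ _ _ hY.pos hY.dvd (hγ Y hY.bd.1) (hγ Y' hY.bd.2)
    fun τ hτ => (hLa.2 N 2 Y Y' τ hY hτ).2).1 rfl
  have a3 : ∑ a ∈ sp (N / 3), ∑ c ∈ range N, ∑ d ∈ range N, γ c d * X a c d +
      ∑ a ∈ sp (N / 3), ∑ c ∈ range N, ∑ d ∈ range N, γ c d * Y a c d = 0 := by
    simp only [← sum_add_distrib, ← mul_add]
    refine sum_eq_zero fun a ha => sum_eq_zero fun c _ => sum_eq_zero fun d _ => ?_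
    rw [h0 a c d (by have := mem_sp.1 ha; omega), mul_zero]
  rw [co_eq, con_add_BMAIN hX.bd.1 hY.bd.1]
  beta_reduce at a1 a2
  generalize hα : ∑ a ∈ sp (N / 3), ∑ c ∈ range N, ∑ d ∈ range N, γ c d * X a c d -
    4 * π * I * con N X (N / 3) = α at a1
  have e1 : ∫ τ : ℍ, w τ * S4 (II N X) (II N X') τ = α * ∫ τ : ℍ, w τ * S4 ff f1 τ := by
    rw [← integral_const_mul]
    refine integral_congr_ae (.of_forall fun τ => ?_)
    have h := τ.im_pos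
    simp only [S4]
    rw [(a1 τ h).1, (a1 τ h).2, (a1 (τ + 1) (by simpa using h)).2,
      (a1 (τ + 2) (by simpa using h)).2]
    ring
  obtain ⟨K, hK⟩ := hX.bd.1.bd
  have e2 : ∀ t ∈ Set.Ioi (0 : ℝ), ∫ τ : ℍ, w τ * S4 (It N X t) (It N X' t) τ = π / 6 *
      ∑ i ∈ s, ∫ u in Set.Ioi (0 : ℝ), Tq (p i) u * Tq (q i) (4 * t / (3 * u)) / u := fun t ht => by
    obtain ⟨r1, r2⟩ := hR (fun a d => X (μ * a) 0 d) K t (fun a d => hK _ _ _)
      (mod_BMAIN hX hμ) ht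
    rw [hA w N X X' _ t hw hX (cusp_BMAIN hX.pos hμ hc) ht r1]
    exact hB _ t ι s p q _ hf ht r2
  have e3 := h2 w N X X' hw hX.bd.1 hX.bd.2
  have f := fun i (hi : i ∈ s) => hF _ _ (hT _ (hf.ap i hi).1).2.2 (hT _ (hf.ap i hi).2).2.2
  rw [setIntegral_congr_fun measurableSet_Ioi e2, integral_const_mul,
    integral_finsetSum _ fun i hi => (f i hi).1, sum_congr rfl fun i hi => (f i hi).2, e1,
    ← mul_sum] at e3
  have e4 : ∑ i ∈ s, Mq (p i) * Mq (q i) = π ^ 2 *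
      ∑ i ∈ s, (∫ u in Set.Ioi (0 : ℝ), Tq (p i) u) * ∫ u in Set.Ioi (0 : ℝ), Tq (q i) u := by
    rw [mul_sum]
    exact sum_congr rfl fun i _ => by rw [Mq, Mq]; ring
  rw [e4]
  linear_combination 8 * π * e3 + (8 * π * ∫ τ : ℍ, w τ * S4 ff f1 τ) * (a3 - a2 - hα)

end Pool.Agent.MP_e23604_nt.Z
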