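import Pool.Agent.MP_e23604_nt.Z.B1

/-!
The invariant measure of the half plane in real coordinates.
-/

set_option autoImplicit false

open Finset QuadraticAlgebra Filter Topology MeasureTheory Complex
open scoped Classical BigOperators UpperHalfPlane MatrixGroups ComplexConjugate Real

namespace Pool.Agent.MP_e23604_nt.Z

open W Un

theorem mp_BMEAS : MeasurePreserving (measurableEquivRealProd ∘ UpperHalfPlane.coe)
    (volume.comap UpperHalfPlane.coe) (volume.restrict HP) := by
  have h1 : MeasurePreserving UpperHalfPlane.coe (volume.comap UpperHalfPlane.coe)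
      (volume.restrict (.range UpperHalfPlane.coe)) :=
    ⟨UpperHalfPlane.measurable_coe, by rw [UpperHalfPlane.measurableEmbedding_coe.map_comap]⟩
  have h2 := volume_preserving_equiv_real_prod.restrict_preimage (s := HP)
    (MeasurableSet.univ.prod measurableSet_Ioi)
  have e : measurableEquivRealProd ⁻¹' HP = .range UpperHalfPlane.coe := by
    ext z
    refine ⟨fun h => ⟨⟨z, h.2⟩, rfl⟩, ?_⟩
    rintro ⟨τ, rfl⟩
    exact ⟨trivial, τ.im_pos⟩
  rw [e] at h2
  exact h2.comp h1

theorem one_BMEAS (φ : ℂ → ℂ) : (Integrable (fun τ : ℍ => φ τ * τ.im ^ 2) ↔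
      IntegrableOn (fun p : ℝ × ℝ => φ (p.1 + p.2 * I)) HP) ∧
    ∫ τ : ℍ, φ τ * τ.im ^ 2 = ∫ p in HP, φ (p.1 + p.2 * I) := by
  have hm : Measurable fun z : ℍ => (1 / NNReal.mk z.im z.im_pos.le : NNReal) ^ 2 := by
    refine Continuous.measurable (.pow (.div₀ continuous_const ?_ ?_) _)
    · exact UpperHalfPlane.continuous_im.subtype_mk _
    · exact fun x => NNReal.ne_iff.mp x.im_ne_zero
  have he := measurableEquivRealProd.measurableEmbedding.comp
    UpperHalfPlane.measurableEmbedding_coe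
  have e : (fun τ : ℍ => ((1 / NNReal.mk τ.im τ.im_pos.le : NNReal) ^ 2) • (φ τ * τ.im ^ 2)) =
      (fun p : ℝ × ℝ => φ (p.1 + p.2 * I)) ∘ measurableEquivRealProd ∘ UpperHalfPlane.coe := by
    funext τ
    have h0 : (τ.im : ℂ) ≠ 0 := ofReal_ne_zero.2 τ.im_ne_zero
    have h1 : φ ((τ : ℂ).re + (τ : ℂ).im * I) = φ τ := by rw [re_add_im]
    refine Eq.trans ?_ h1.symm
    rw [NNReal.smul_def, real_smul]
    simp only [NNReal.coe_pow, NNReal.coe_div, NNReal.coe_one, NNReal.coe_mk]
    push_cast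
    field_simp
  rw [UpperHalfPlane.volume_def, integrable_withDensity_iff_integrable_smul hm,
    integral_withDensity_eq_integral_smul hm, e]
  exact ⟨mp_BMEAS.integrable_comp_emb he, mp_BMEAS.integral_comp he fun p => φ (p.1 + p.2 * I)⟩

theorem MEAS_pf : MEAS_st := by
  refine ⟨one_BMEAS, fun κ hκ => ?_⟩
  have h1 : Integrable ((Set.Icc (-(1 / 2) : ℝ) (1 / 2)).indicator fun _ => (1 : ℝ)) :=
    (integrableOn_const (by simp)).integrable_indicator measurableSet_Icc
  have h2 : Integrable ((Set.Ici (1 / 2 : ℝ)).indicator fun y => Real.exp (-κ * y)) :=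
    ((integrableOn_Ici_iff_integrableOn_Ioi).2
      (exp_neg_integrableOn_Ioi _ hκ)).integrable_indicator measurableSet_Ici
  have h3 := ((one_BMEAS fun z =>
    ((Set.Icc (-(1 / 2) : ℝ) (1 / 2)).indicator (fun _ => (1 : ℝ)) z.re *
      (Set.Ici (1 / 2 : ℝ)).indicator (fun y => Real.exp (-κ * y)) z.im : ℝ)).1.2 (by
        simpa [← Measure.volume_eq_prod] using
          ((h1.mul_prod h2).ofReal (𝕜 := ℂ)).integrableOn (s := HP))).re
  refine h3.congr (Eventually.of_forall fun τ => ?_)
  simp only [← ofReal_pow, ← ofReal_mul, RCLike.re_to_complex, ofReal_re, Set.indicator_apply,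
    Set.mem_Icc, Set.mem_Ici, ← abs_le, UpperHalfPlane.coe_re, UpperHalfPlane.coe_im, ite_and]
  split_ifs <;> simp

end Pool.Agent.MP_e23604_nt.Z
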