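import Pool.Agent.MP_e23604_nt.Z.B1

/-!
Additivity of the regularised sums and the limit formula.
-/

set_option autoImplicit false

open Finset QuadraticAlgebra Filter Topology MeasureTheory Complex
open scoped Classical BigOperators UpperHalfPlane MatrixGroups ComplexConjugate Real

namespace Pool.Agent.MP_e23604_nt.Z

open W Un

theorem sum_BMM {p : Zw → ℂ} (hp : AP p) {u : ℝ} (hu : 0 < u) :
    Summable fun g : Zw => p g * conj (iz g) * (Real.exp (-π * u * nw g) : ℝ) := by
  obtain ⟨K, hK⟩ := hp.bdd
  refine .of_norm_bounded ((sum_gz 1 (u := π * u) (by positivity)).mul_left K) fun g => ?_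
  rw [norm_mul, norm_mul, Complex.norm_conj, Complex.norm_real, Real.norm_of_nonneg (by positivity),
    pow_one, ← mul_assoc, neg_mul π]
  exact mul_le_mul_of_nonneg_right (mul_le_mul (hK g) (norm_iz_le g) (norm_nonneg _)
    ((norm_nonneg _).trans (hK g))) (Real.exp_pos _).le

theorem int_BMM {n : ℝ} (hn : 0 < n) (ε : ℝ) :
    IntegrableOn (fun u : ℝ => Real.exp (-π * u * n)) (Set.Ioi ε) ∧
      ∫ u in Set.Ioi ε, Real.exp (-π * u * n) = Real.exp (-π * ε * n) / (π * n) := by
  have : -π * n < 0 := by have := mul_pos Real.pi_pos hn; linarith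
  simp only [mul_right_comm (-π) _ n]
  exact ⟨integrableOn_exp_mul_Ioi this ε, by rw [integral_exp_mul_Ioi this, neg_mul π n, neg_div_neg_eq]⟩

theorem tail_BMM {p : Zw → ℂ} (hp : AP p) {ε : ℝ} (hε : 0 < ε) :
    π * ∫ u in Set.Ioi ε, Tq p u = ∑' g : Zw, p g * (Real.exp (-π * ε * nw g) : ℝ) / iz g := by
  obtain ⟨K, hK⟩ := hp.bdd
  have K0 : 0 ≤ K := (norm_nonneg _).trans (hK 0)
  have := hasSum_integral_of_summable_integral_norm (μ := volume.restrict (Set.Ioi ε))
    (F := fun (g : Zw) (u : ℝ) => p g * conj (iz g) * (Real.exp (-π * u * nw g) : ℝ))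
    (fun g => ?_) ?_
  · refine ((this.mul_left (π : ℂ)).congr_fun fun g => ?_).tsum_eq.symm
    by_cases h : g = 0
    · simp [h]
    have h1 := one_le_nw h
    have h2 := iz_ne h
    have h3 : (nw g : ℂ) ≠ 0 := by exact_mod_cast (by linarith : (nw g : ℝ) ≠ 0)
    have h4 : (π : ℂ) ≠ 0 := by exact_mod_cast Real.pi_ne_zero
    rw [integral_const_mul, integral_complex_ofReal, (int_BMM (by linarith) ε).2,
      eq_div_of_mul_eq h2 ((mul_comm _ _).trans (iz_mul_conj g))]
    push_cast
    field_simp
  · by_cases h : g = 0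
    · simp [h]
    exact ((int_BMM (by linarith [one_le_nw h]) ε).1.ofReal).const_mul _
  · refine ((sum_gz 0 (u := π * ε) (by positivity)).mul_left (K / π)).of_nonneg_of_le
      (fun g => integral_nonneg fun _ => norm_nonneg _) fun g => ?_
    by_cases h : g = 0
    · simp only [h, map_zero, mul_zero, zero_mul, _root_.norm_zero, integral_zero]
      positivity
    have h1 := one_le_nw h
    simp only [norm_mul, Complex.norm_conj, Complex.norm_real, Real.norm_eq_abs, Real.abs_exp]
    rw [integral_const_mul, (int_BMM (by linarith) ε).2, pow_zero, one_mul, neg_mul π]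
    refine (mul_le_mul_of_nonneg_right (mul_le_mul (hK g) (norm_iz_le g) (norm_nonneg _) K0)
      (by positivity)).trans_eq ?_
    field_simp

theorem MM_pf (h : THI_st) : MM_st := by
  refine ⟨fun ι s c p hp => ?_, fun p hp => ?_⟩
  · simp only [Mq, mul_comm (c _), mul_assoc, ← mul_sum]
    congr 1
    simp only [mul_comm _ (c _), ← integral_const_mul]
    rw [← integral_finsetSum _ fun i hi => ((h _ (hp i hi)).2.2).const_mul _]
    refine setIntegral_congr_fun measurableSet_Ioi fun u hu => ?_
    simp only [Tq, ← tsum_mul_left]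
    rw [← Summable.tsum_finsetSum fun i hi => (sum_BMM (hp i hi) hu).mul_left _]
    simp only [sum_mul, mul_assoc]
  · refine (((h p hp).2.2.continuousWithinAt_Ici_primitive_Ioi.mono_left
      (nhdsWithin_mono 0 Set.Ioi_subset_Ici_self)).const_mul (π : ℂ)).congr' ?_
    filter_upwards [self_mem_nhdsWithin] with ε hε using tail_BMM hp hε

end Pool.Agent.MP_e23604_nt.Z
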