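import Pool.Agent.MP_e23604_nt.Z.B1

/-!
Continuity and decay of the odd theta series.
-/

set_option autoImplicit false

open Finset QuadraticAlgebra Filter Topology MeasureTheory Complex
open scoped Classical BigOperators UpperHalfPlane MatrixGroups ComplexConjugate Real

namespace Pool.Agent.MP_e23604_nt.Z

open W Un

theorem bd_BOT : ∃ C : ℝ, 0 ≤ C ∧ ∀ (v K : ℝ) (f : ℤ → ℂ), 0 < v → 0 ≤ K →
    (∀ n : ℤ, ‖f n‖ ≤ K * (|(n : ℝ)| * Real.exp (-v * n ^ 2))) →
    ‖∑' n, f n‖ ≤ K * (C * Real.exp (-v / 2) / v ^ 2) := by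
  obtain ⟨C, h0, h⟩ := GI 1 2 (by norm_num)
  refine ⟨C, h0, fun v K f hv hK hf => ?_⟩
  obtain ⟨h1, h2⟩ := h v hv
  refine (tsum_of_norm_bounded (h1.hasSum.mul_left K) fun n => (hf n).trans_eq ?_).trans
    (mul_le_mul_of_nonneg_left h2 hK)
  split_ifs with e
  · simp [e]
  · rw [pow_one]

theorem tm_BOT {h : ℤ → ℂ} {K : ℝ} (hK : ∀ n, ‖h n‖ ≤ K) {ε u : ℝ} (hu : ε ≤ u) (n : ℤ) :
    ‖h n * (n * Real.exp (-π * u * n ^ 2) : ℝ)‖ ≤ K * (|(n : ℝ)| * Real.exp (-(π * ε) * n ^ 2)) := by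
  rw [norm_mul, Complex.norm_real, Real.norm_eq_abs, abs_mul, Real.abs_exp]
  refine mul_le_mul (hK n) (mul_le_mul_of_nonneg_left (Real.exp_le_exp.2 ?_) (abs_nonneg _))
    (by positivity) ((norm_nonneg _).trans (hK n))
  nlinarith [mul_nonneg (mul_nonneg Real.pi_pos.le (sub_nonneg.2 hu)) (sq_nonneg (n : ℝ))]

theorem OT_pf (h : PO1_st) : OT_st := by
  intro N hN
  obtain ⟨C, h0, hC⟩ := bd_BOT
  have hN1 : (1 : ℝ) ≤ N := by exact_mod_cast Nat.one_le_iff_ne_zero.2 hN
  have hπ := Real.pi_gt_three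
  refine ⟨C * N ^ 4 * Real.exp 1, fun f K hp hK => ⟨fun u (hu : 0 < u) => ?_, fun u hu => ?_⟩⟩
  · have hε : 0 < π * (u / 2) := by positivity
    have : ContinuousOn (ot f) (Set.Ioi (u / 2)) :=
      continuousOn_tsum (fun n => by fun_prop) ((sum_gi 1 hε).mul_left K) fun n x hx => by
        simpa only [pow_one] using tm_BOT hK (le_of_lt hx) n
    exact (this.continuousAt (Ioi_mem_nhds (by linarith))).continuousWithinAt
  have K0 : 0 ≤ K := (norm_nonneg _).trans (hK 0)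
  have hN4 : (1 : ℝ) ≤ N ^ 4 := one_le_pow₀ hN1
  rcases le_total 1 u with h1 | h1
  · refine (hC (π * u) K _ (by positivity) K0 (tm_BOT hK le_rfl)).trans ?_
    have e1 : Real.exp (-(π * u) / 2) / (π * u) ^ 2 ≤ N ^ 4 * Real.exp 1 * Real.exp (-u) := by
      refine (div_le_self (Real.exp_pos _).le (one_le_pow₀ (by nlinarith))).trans ?_
      refine (Real.exp_le_exp.2 (show _ ≤ -u by nlinarith)).trans
        (le_mul_of_one_le_left (Real.exp_pos _).le ?_)
      exact one_le_mul_of_one_le_of_one_le hN4 (Real.one_le_exp zero_le_one)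
    calc _ = K * C * (Real.exp (-(π * u) / 2) / (π * u) ^ 2) := by ring
      _ ≤ K * C * (N ^ 4 * Real.exp 1 * Real.exp (-u)) := by gcongr
      _ = _ := by ring
  · have e := (h N f u 0 hN hp (by simpa using hu)).2
    have e0 : ot f u = ∑' n : ℤ, f n * n * cexp (-π * u * n ^ 2 + 2 * π * 0 * n) :=
      tsum_congr fun n => by push_cast; rw [mul_zero, zero_mul, add_zero, ← mul_assoc]
    have hv : 0 < π / (N ^ 2 * u) := by positivity
    have b := hC _ K (fun x : ℤ => hat N f x * (x / N + I * 0) *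
      cexp (-π / u * (x / N + I * 0) ^ 2)) hv K0 fun x => by
        rw [mul_zero, add_zero, mul_assoc, norm_mul, norm_mul, norm_div, Complex.norm_intCast,
          Complex.norm_natCast, show -π / u * (x / N : ℂ) ^ 2 = (-(π / (N ^ 2 * u)) * x ^ 2 : ℝ) by
            push_cast; ring, Complex.norm_exp_ofReal]
        exact mul_le_mul (hat_le hN hp hK x) (mul_le_mul_of_nonneg_right
          (div_le_self (abs_nonneg _) hN1) (Real.exp_pos _).le) (by positivity) K0
    have r : u ≤ u ^ (1 / 2 : ℝ) := by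
      simpa using Real.rpow_le_rpow_of_exponent_ge hu h1 (show (1 / 2 : ℝ) ≤ 1 by norm_num)
    have n1 : ‖-I / u * (1 / (u : ℂ) ^ (1 / 2 : ℂ))‖ ≤ 1 / u ^ 2 := by
      rw [norm_mul, norm_div, norm_div, _root_.norm_neg, Complex.norm_I, NormOneClass.norm_one,
        Complex.norm_real, Real.norm_of_nonneg hu.le,
        Complex.norm_cpow_eq_rpow_re_of_pos hu, sq, ← one_div_mul_one_div,
        show (1 / 2 : ℂ).re = 1 / 2 by norm_num]
      gcongr
    have e1 : Real.exp (-(π / (N ^ 2 * u)) / 2) / π ^ 2 ≤ Real.exp 1 * Real.exp (-u) := by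
      refine (div_le_self (Real.exp_pos _).le (one_le_pow₀ (by linarith))).trans ?_
      rw [← Real.exp_add, Real.exp_le_exp]
      linarith
    rw [e0, e, norm_mul]
    calc _ ≤ 1 / u ^ 2 * (K * (C * Real.exp (-(π / (N ^ 2 * u)) / 2) / (π / (N ^ 2 * u)) ^ 2)) :=
          mul_le_mul n1 b (norm_nonneg _) (by positivity)
      _ = K * C * N ^ 4 * (Real.exp (-(π / (N ^ 2 * u)) / 2) / π ^ 2) := by field_simp
      _ ≤ K * C * N ^ 4 * (Real.exp 1 * Real.exp (-u)) := by gcongr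
      _ = _ := by ring

end Pool.Agent.MP_e23604_nt.Z
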