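import Pool.Agent.MP_e23604_nt.Z.B1

set_option autoImplicit false

open Finset QuadraticAlgebra Filter Topology MeasureTheory Complex
open scoped Classical BigOperators UpperHalfPlane MatrixGroups ComplexConjugate Real

namespace Pool.Agent.MP_e23604_nt.Z

open W Un

theorem ms_BPET (N : ℕ) (X : Zw → ℤ → ℤ → ℂ) : Measurable fun x : ℂ × ℝ => It N X x.2 x.1 := by
  unfold It Et GG th0 kr ex
  refine Measurable.tsum fun v => (Measurable.tsum fun a => ?_).mul ?_
  · fun_prop
  · simp only [normSq_apply]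
    fun_prop

theorem PET_pf (hE : EFT_st) (hM : MEAS_st) : PET_st := by
  intro w N X f κ m hw hX hf hκ ⟨D, hD⟩
  obtain ⟨γ, C, hE⟩ := hE N hX.pos
  obtain ⟨K, hK⟩ := hX.le
  have him : ∀ τ : ℍ, ((τ : ℂ) + m).im = τ.im := fun τ => by simp
  have h1 : Continuous fun τ : ℍ => (τ : ℂ) + m := by fun_prop
  have h2 : Continuous fun τ : ℍ => f (τ + m) :=
    hf.comp_continuous h1 fun τ => τ.im_pos.trans_eq (him τ).symm
  have h3 : Measurable fun x : ℍ × ℝ =>
      w x.1 * (It N X x.2 (x.1 + m) * conj (f (x.1 + m)) * x.1.im ^ 2) :=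
    (measurable_ofReal.comp (hw.ms.comp measurable_fst)).mul
      ((((ms_BPET N X).comp ((h1.measurable.comp measurable_fst).prodMk measurable_snd)).mul
        ((continuous_conj.comp h2).measurable.comp measurable_fst)).mul
        ((by fun_prop : Continuous fun τ : ℍ => (τ.im : ℂ) ^ 2).measurable.comp measurable_fst))
  refine (integrable_prod_iff h3.aestronglyMeasurable).2 ⟨ae_of_all _ fun τ => ?_,
    ((hM.2 (2 * π * κ) (by positivity)).const_mul (C * K * D)).mono'
      h3.aestronglyMeasurable.norm.integral_prod_right' (ae_of_all _ fun τ => ?_)⟩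
  · obtain ⟨K', hK'⟩ := hX.le' (τ + m)
    exact (((hE _ K' (τ + m) (hX.p2 _) hK' (hX.neg _) (τ.im_pos.trans_eq (him τ).symm)).1.mul_const
      (conj (f (τ + m)))).mul_const ((τ.im : ℂ) ^ 2)).const_mul (w τ : ℂ)
  · by_cases e : w τ = 0
    · have h4 := (norm_nonneg _).trans (hD I (by norm_num))
      have h5 := (integral_nonneg fun _ => norm_nonneg _).trans
        ((hE _ K I (hX.p2 _) (hK I (by norm_num)) (hX.neg _) (by norm_num)).2.1 (by norm_num))
      have h6 := nonneg_of_mul_nonneg_left h4 (Real.exp_pos _)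
      simp only [e, ofReal_zero, zero_mul, _root_.norm_zero, integral_zero]
      exact mul_nonneg (mul_nonneg h5 h6) (by positivity)
    have h4 : 1 / 2 ≤ ((τ : ℂ) + m).im := (him τ).symm ▸ (hw.sup τ e).2
    have h5 := (hE _ K (τ + m) (hX.p2 _) (hK _ h4) (hX.neg _) (by linarith)).2.1 h4
    have h6 := hD _ h4
    have h7 : 0 ≤ ∫ t in Set.Ioi (0 : ℝ), ‖Et (GG N X (τ + m)) (τ + m) t‖ :=
      integral_nonneg fun _ => norm_nonneg _
    rw [if_pos (hw.sup τ e), Real.norm_of_nonneg (integral_nonneg fun _ => norm_nonneg _)]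
    simp only [norm_mul, integral_const_mul, integral_mul_const, Complex.norm_conj, norm_pow,
      Complex.norm_real, Real.norm_of_nonneg (hw.nn τ), Real.norm_of_nonneg τ.im_pos.le, It]
    rw [him, show -2 * π * κ * τ.im = -(2 * π * κ) * τ.im by ring] at h6
    refine (mul_le_of_le_one_left (by positivity) (hw.le τ)).trans ?_
    have := mul_le_mul_of_nonneg_right (mul_le_mul h5 h6 (norm_nonneg _) (h7.trans h5))
      (sq_nonneg τ.im)
    linarith

end Pool.Agent.MP_e23604_nt.Z
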