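import Pool.Agent.MP_e23604_nt.Z.B1

/-!
Poisson summation in two variables.
-/

set_option autoImplicit false

open Finset QuadraticAlgebra Filter Topology MeasureTheory Complex
open scoped Classical BigOperators UpperHalfPlane MatrixGroups ComplexConjugate Real

namespace Pool.Agent.MP_e23604_nt.Z

open W Un

theorem g1_BPO2 {c : ℂ} (hc : 0 < c.re) :
    Summable fun n : ℤ => (1 + |(n : ℝ)|) * ‖cexp (-c * n ^ 2)‖ := by
  refine ((sum_gi 0 hc).add (sum_gi 1 hc)).congr fun n => ?_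
  rw [Complex.norm_exp, show (-c * n ^ 2 : ℂ) = -c * ((n ^ 2 : ℝ) : ℂ) by push_cast; rfl,
    Complex.re_mul_ofReal, Complex.neg_re]
  ring

theorem s2_BPO2 {H : ℤ × ℤ → ℂ} {K : ℝ} (hK : ∀ v, ‖H v‖ ≤ K) {c d : ℂ} (hc : 0 < c.re)
    (hd : 0 < d.re) (α β γ : ℂ) : Summable fun v : ℤ × ℤ =>
      H v * (α + β * v.1 + γ * v.2) * cexp (-c * v.1 ^ 2 + -d * v.2 ^ 2) := by
  refine .of_norm_bounded ((((g1_BPO2 hc).mul_of_nonneg (g1_BPO2 hd) (fun _ => by positivity)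
    fun _ => by positivity).mul_left (K * (‖α‖ + ‖β‖ + ‖γ‖)))) fun v => ?_
  have e : ‖α + β * v.1 + γ * v.2‖ ≤ (‖α‖ + ‖β‖ + ‖γ‖) * ((1 + |(v.1 : ℝ)|) * (1 + |(v.2 : ℝ)|)) := by
    refine norm_add₃_le.trans ?_
    rw [norm_mul, norm_mul, Complex.norm_intCast, Complex.norm_intCast]
    have h1 := abs_nonneg (v.1 : ℝ)
    have h2 := abs_nonneg (v.2 : ℝ)
    have h3 := mul_nonneg h1 h2
    nlinarith [mul_nonneg (norm_nonneg α) (add_nonneg (add_nonneg h1 h2) h3),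
      mul_nonneg (norm_nonneg β) (add_nonneg (add_nonneg zero_le_one h2) h3),
      mul_nonneg (norm_nonneg γ) (add_nonneg (add_nonneg h1 zero_le_one) h3)]
  rw [norm_mul, norm_mul, Complex.exp_add, norm_mul]
  refine (mul_le_mul_of_nonneg_right (mul_le_mul (hK v) e (norm_nonneg _)
    ((norm_nonneg _).trans (hK v))) (by positivity)).trans (le_of_eq ?_)
  ring

theorem s1_BPO2 {h : ℤ → ℂ} {K : ℝ} (hK : ∀ n, ‖h n‖ ≤ K) {d : ℂ} (hd : 0 < d.re) (α γ : ℂ) :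
    Summable fun n : ℤ => h n * (α + γ * n) * cexp (-d * n ^ 2) := by
  simpa using (s2_BPO2 (H := fun v => h v.2) (fun v => hK v.2) hd hd α 0 γ).prod_factor 0

theorem sp_BPO2 {h : ℤ → ℂ} {K : ℝ} (hK : ∀ n, ‖h n‖ ≤ K) {d : ℂ} (hd : 0 < d.re) (α γ : ℂ) :
    ∑' n : ℤ, h n * (α + γ * n) * cexp (-d * n ^ 2) = α * ∑' n : ℤ, h n * cexp (-d * n ^ 2) +
      γ * ∑' n : ℤ, h n * n * cexp (-d * n ^ 2) := by
  rw [← tsum_mul_left, ← tsum_mul_left, ← ((s1_BPO2 hK hd α 0).congr fun n => by ring).tsum_add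
    ((s1_BPO2 hK hd 0 γ).congr fun n => by ring)]
  exact tsum_congr fun n => by ring

theorem re_BPO2 {N : ℕ} (hN : N ≠ 0) {b : ℂ} (hb : 0 < b.re) :
    0 < (π * b).re ∧ 0 < (π / b / N ^ 2).re := by
  have b0 : b ≠ 0 := fun e => by simp [e] at hb
  have := Complex.normSq_pos.2 b0
  have := Nat.pos_of_ne_zero hN
  rw [show π / b / N ^ 2 = ((π / N ^ 2 : ℝ) : ℂ) * b⁻¹ by push_cast; ring, Complex.re_ofReal_mul,
    Complex.re_ofReal_mul, Complex.inv_re]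
  constructor <;> positivity

theorem p1_BPO2 (H : PO1_st) {N : ℕ} (hN : N ≠ 0) {h : ℤ → ℂ} (hh : ∀ n, h (n + N) = h n) {K : ℝ}
    (hK : ∀ n, ‖h n‖ ≤ K) {b : ℂ} (hb : 0 < b.re) (α γ : ℂ) :
    ∑' n : ℤ, h n * (α + γ * n) * cexp (-(π * b) * n ^ 2) = 1 / b ^ (1 / 2 : ℂ) *
      ∑' y : ℤ, hat N h y * (α + -I * γ / b / N * y) * cexp (-(π / b / N ^ 2) * y ^ 2) := by
  obtain ⟨e1, e2⟩ := H N h b 0 hN hh hb
  obtain ⟨r1, r2⟩ := re_BPO2 hN hb
  have k1 : ∀ n : ℤ, -π * b * n ^ 2 + 2 * π * 0 * n = -(π * b) * n ^ 2 := fun n => by ring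
  have k2 : ∀ y : ℤ, -π / b * (y / N + I * 0) ^ 2 = -(π / b / N ^ 2) * y ^ 2 := fun n => by ring
  simp only [k1, k2] at e1 e2
  rw [sp_BPO2 hK r1, sp_BPO2 (hat_le hN hh hK) r2, e1, e2,
    tsum_congr (g := fun y : ℤ => 1 / N * (hat N h y * y * cexp (-(π / b / N ^ 2) * y ^ 2)))
      (f := fun y : ℤ => hat N h y * (y / N + I * 0) * _) fun y => by ring, tsum_mul_left]
  ring

theorem st_BPO2 (H : PO1_st) {N : ℕ} (hN : N ≠ 0) {G : ℤ → ℤ → ℂ} (hG : ∀ m n, G m (n + N) = G m n)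
    {K : ℝ} (hK : ∀ m n, ‖G m n‖ ≤ K) {c b : ℂ} (hc : 0 < c.re) (hb : 0 < b.re) (α β γ : ℂ) :
    ∑' v : ℤ × ℤ, G v.1 v.2 * (α + β * v.1 + γ * v.2) * cexp (-c * v.1 ^ 2 + -(π * b) * v.2 ^ 2) =
      1 / b ^ (1 / 2 : ℂ) * ∑' v : ℤ × ℤ, hat N (G v.2) v.1 * (α + -I * γ / b / N * v.1 + β * v.2) *
        cexp (-(π / b / N ^ 2) * v.1 ^ 2 + -c * v.2 ^ 2) := by
  obtain ⟨r1, r2⟩ := re_BPO2 hN hb
  rw [(s2_BPO2 (fun v => hK v.1 v.2) hc r1 α β γ).tsum_prod, ← (Equiv.prodComm ℤ ℤ).tsum_eq,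
    ← (tsum_congr fun v => ?_).trans (s2_BPO2 (H := fun v => hat N (G v.1) v.2)
      (fun v => hat_le hN (hG v.1) (hK v.1) v.2) hc r2 α β (-I * γ / b / N)).tsum_prod.symm.symm
      |>.symm, ← tsum_mul_left]
  · refine tsum_congr fun m => ?_
    have := congrArg (cexp (-c * m ^ 2) * ·) (p1_BPO2 H hN (hG m) (hK m) hb (α + β * m) γ)
    simp only [← tsum_mul_left, Complex.exp_add] at this ⊢
    exact (tsum_congr fun n => by ring).trans (this.trans (tsum_congr fun n => by ring))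
  · simp only [Equiv.prodComm_apply, Prod.fst_swap, Prod.snd_swap, Complex.exp_add]
    ring

theorem PO2_pf (h : PO1_st) : PO2_st := by
  intro N G a b α β γ hN hG ha hb
  obtain ⟨K, hK⟩ := hG.bdd hN
  have n0 : (N : ℂ) ≠ 0 := Nat.cast_ne_zero.2 hN
  have e1 := st_BPO2 h hN (fun m n => (hG m n).2) hK (re_BPO2 hN ha).1 hb α β γ
  have e2 := st_BPO2 h hN (G := fun y m => hat N (G m) y)
    (fun y m => by simp only [hat, (hG m _).1]) (fun y m => hat_le hN (fun n => (hG m n).2) (hK m) y)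
    (re_BPO2 hN hb).2 ha α (-I * γ / b / N) β
  rw [e2, mul_left_comm, ← mul_assoc] at e1
  refine (tsum_congr fun v => by congr 2; ring).trans (e1.trans ?_)
  congr 1
  refine tsum_congr fun v => ?_
  have p : P2 N fun c d => G c d * ex ((c * v.1 + d * v.2) / N) := fun c d =>
    ⟨congrArg₂ _ (hG c d).1 (ex_congr v.1 (by push_cast; field_simp; ring)),
      congrArg₂ _ (hG c d).2 (ex_congr v.2 (by push_cast; field_simp; ring))⟩
  rw [Mn_prod (p.ap hN)]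
  congr 2
  · refine congrArg Mn (funext fun m => (Mn_mul_right (hat_eq hN (fun n => (hG m n).2) v.2).1
      _).symm.trans (congrArg Mn (funext fun n => ?_)))
    rw [mul_assoc, ← ex_add]
    congr 2
    ring
  · ring
  · ring

end Pool.Agent.MP_e23604_nt.Z
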