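import Pool.Agent.MP_e23604_nt.Z.B1

/-!
Expansions at infinity: holomorphy, decay, uniqueness.
-/

set_option autoImplicit false

open Finset QuadraticAlgebra Filter Topology MeasureTheory Complex
open scoped Classical BigOperators UpperHalfPlane MatrixGroups ComplexConjugate Real

namespace Pool.Agent.MP_e23604_nt.Z

open W Un

theorem nrm_BQA (N n : ℕ) (b τ : ℂ) :
    ‖b * ex (n * τ / N)‖ = ‖b‖ * Real.exp (-2 * π * (n / N * τ.im)) := by
  rw [norm_mul, norm_ex, show n * τ / N = ((n / N : ℝ) : ℂ) * τ by push_cast; ring,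
    Complex.im_ofReal_mul]

theorem sum_BQA {N : ℕ} {g : ℂ → ℂ} {B : ℕ → ℂ} (h : QE N g B) {y : ℝ} (hy : 0 < y) :
    Summable fun n : ℕ => ‖B n‖ * Real.exp (-2 * π * (n / N * y)) := by
  simpa only [nrm_BQA, Complex.mul_I_im, Complex.ofReal_re] using
    (h (y * I) (by simpa using hy)).summable.norm

theorem uniq_BQA (D : ℕ → ℂ) (h : ∀ q : ℂ, q ≠ 0 → ‖q‖ < 1 → HasSum (fun n => D n * q ^ n) 0)
    (n : ℕ) : D n = 0 := by
  have h1 : HasFPowerSeriesAt (0 : ℂ → ℂ)
      (FormalMultilinearSeries.ofScalars ℂ fun k => (Nat.casesOn k 0 D : ℂ)) 0 := by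
    rw [hasFPowerSeriesAt_iff]
    filter_upwards [Metric.ball_mem_nhds (0 : ℂ) one_pos] with q hq
    simp only [FormalMultilinearSeries.coeff_ofScalars, smul_eq_mul, Pi.zero_apply]
    rw [← hasSum_nat_add_iff' 1]
    by_cases e : q = 0
    · simp [e]
    · simpa [pow_succ', mul_comm, mul_left_comm] using
        (h q e (mem_ball_zero_iff.1 hq)).mul_left q
  have h2 := congrArg (fun p : FormalMultilinearSeries ℂ ℂ ℂ => p.coeff (n + 1)) h1.eq_zero
  rwa [FormalMultilinearSeries.coeff_ofScalars] at h2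

theorem QA_pf : QA_st := by
  intro N g B hN h
  have N0 : (0 : ℝ) < N := Nat.cast_pos.2 (Nat.pos_of_ne_zero hN)
  have N1 : (N : ℂ) ≠ 0 := Nat.cast_ne_zero.2 hN
  refine ⟨fun τ (hτ : 0 < τ.im) => ?_, fun κ hκ => ?_, fun m c hc n hn => ?_⟩
  · have o : IsOpen {z : ℂ | τ.im / 2 < z.im} := isOpen_lt continuous_const continuous_im
    have d := differentiableOn_tsum_of_summable_norm (F := fun (n : ℕ) z => B n * ex (n * z / N))
      (sum_BQA h (half_pos hτ)) (fun n => by unfold ex; fun_prop) o fun n z (hz : _ < z.im) => by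
        rw [nrm_BQA]
        refine mul_le_mul_of_nonneg_left (Real.exp_le_exp.2 ?_) (norm_nonneg _)
        have := mul_le_mul_of_nonneg_left hz.le (show (0 : ℝ) ≤ n / N by positivity)
        nlinarith [Real.pi_pos]
    exact ((d.congr fun z (hz : _ < z.im) => (h z (by linarith)).tsum_eq.symm).differentiableAt
      (o.mem_nhds (half_lt_self hτ))).differentiableWithinAt
  · have s := (sum_BQA h one_half_pos).hasSum
    refine ⟨(∑' n : ℕ, ‖B n‖ * Real.exp (-2 * π * (n / N * (1 / 2)))) * Real.exp (π * κ),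
      fun τ hτ => ?_⟩
    rw [mul_assoc]
    refine (h τ (by linarith)).norm_le_of_bounded (s.mul_right _) fun n => ?_
    rw [nrm_BQA, mul_assoc ‖B n‖, ← Real.exp_add, ← Real.exp_add]
    by_cases e : B n = 0
    · simp [e]
    refine mul_le_mul_of_nonneg_left (Real.exp_le_exp.2 ?_) (norm_nonneg _)
    have k : κ ≤ n / N := (le_div_iff₀ N0).2 (not_lt.1 fun k => e (hκ n k))
    nlinarith [mul_nonneg Real.pi_pos.le (mul_nonneg (sub_nonneg.2 k) (sub_nonneg.2 hτ))]
  · refine sub_eq_zero.1 ((mul_eq_zero.1 (uniq_BQA (fun n => B n * (ex (n * m / N) - c))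
      (fun q q0 q1 => ?_) n)).resolve_left hn)
    have e1 : ex (log q / (2 * π * I)) = q := by
      rw [ex, mul_div_cancel₀ _ two_pi_I_ne_zero, exp_log q0]
    generalize log q / (2 * π * I) = t at e1
    subst e1
    rw [norm_ex, Real.exp_lt_one_iff] at q1
    have e2 : 0 < (N * t : ℂ).im := by
      have : 0 < t.im := by nlinarith [Real.pi_pos]
      simpa using mul_pos N0 this
    have e3 := (h (N * t + m) (by simpa using e2)).sub ((h _ e2).mul_left c)
    rw [hc _ e2, sub_self] at e3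
    refine e3.congr_fun fun k => ?_
    rw [show k * (N * t + m) / N = k * m / N + k * t by field_simp; ring,
      show k * (N * t) / N = k * t by field_simp, ex_add, ex_nat_mul k t]
    ring

end Pool.Agent.MP_e23604_nt.Z
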