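import Pool.Agent.MP_e23604_nt.Z.B1

/-!
The expansion at infinity of the form of weight two.
-/

set_option autoImplicit false

open Finset QuadraticAlgebra Filter Topology MeasureTheory Complex
open scoped Classical BigOperators UpperHalfPlane MatrixGroups ComplexConjugate Real

namespace Pool.Agent.MP_e23604_nt.Z

open W Un

theorem hat_BQEI {N : ℕ} {X : Zw → ℤ → ℤ → ℂ} (h : Bd N X) {τ : ℂ} (hτ : 0 < τ.im) (c x : ℤ) :
    HasSum (fun a => hat N (X a c) x * ex (τ * nw a / N)) (hat N (GG N X τ c) x) := by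
  obtain ⟨K, hK⟩ := h.bd
  rw [(hat_eq h.pos (fun d => (h.p2 τ c d).2) x).2]
  have := (hasSum_sum (s := range N) fun (d : ℕ) _ =>
    (th0_sum h.pos (bd_one fun a => hK a c d) hτ).of_norm.hasSum.mul_right
      (ex (d * x / N))).div_const (N : ℂ)
  refine this.congr_fun fun a => ?_
  rw [(hat_eq h.pos (fun d => (h.per a c d).2) x).2, div_mul_eq_mul_div, sum_mul]
  congr 1
  exact sum_congr rfl fun d _ => by ring

/-- the coefficients of the triple series -/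
noncomputable def A_BQEI (N : ℕ) (X : Zw → ℤ → ℤ → ℂ) (i : (ℕ × ℕ) × Zw) : ℂ :=
  if i.1.1 ≠ 0 ∧ i.1.2 ≠ 0 then hat N (X i.2 i.1.1) i.1.2 else 0

theorem ex_BQEI (N : ℕ) (τ : ℂ) (i : (ℕ × ℕ) × Zw) :
    ex ((nn i.2 + i.1.1 * i.1.2 : ℕ) * τ / N) =
      ex (τ * nw i.2 / N) * ex (i.1.1 * i.1.2 * τ / N) := by
  rw [← ex_add, ← nn_cast]
  congr 1
  push_cast
  ring

theorem sum_BQEI {N : ℕ} {X : Zw → ℤ → ℤ → ℂ} (h : Bd N X) {τ : ℂ} (hτ : 0 < τ.im) :
    Summable fun i => A_BQEI N X i * ex ((nn i.2 + i.1.1 * i.1.2 : ℕ) * τ / N) := by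
  obtain ⟨K, hK⟩ := h.bd
  have K0 : 0 ≤ K := (norm_nonneg _).trans (hK 0 0 0)
  have hN : (0 : ℝ) < N := by exact_mod_cast Nat.pos_of_ne_zero h.pos
  have hu : 0 < π * τ.im / N := by positivity
  have s0 : Summable fun n : ℕ => Real.exp (n * -(π * τ.im / N)) :=
    Real.summable_exp_nat_mul_iff.2 (neg_neg_of_pos hu)
  have s1 := s0.mul_of_nonneg s0 (fun _ => (Real.exp_pos _).le) fun _ => (Real.exp_pos _).le
  have s2 := th0_sum h.pos (g := fun _ => 1) (K := 1) (bd_one fun _ => by simp) hτ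
  have s3 := s1.mul_of_nonneg s2 (fun _ => mul_nonneg (Real.exp_pos _).le (Real.exp_pos _).le)
    fun _ => norm_nonneg _
  refine .of_norm_bounded (s3.mul_left K) fun i => ?_
  unfold A_BQEI
  split_ifs with hi
  · rw [ex_BQEI, norm_mul, norm_mul, one_mul, mul_comm ‖ex (τ * _ / _)‖]
    refine mul_le_mul (hat_le h.pos (fun d => (h.per _ _ d).2) (fun d => hK _ _ d) _)
      (mul_le_mul_of_nonneg_right ?_ (norm_nonneg _)) (by positivity) K0
    rw [norm_ex, ← Real.exp_add, Real.exp_le_exp,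
      show (i.1.1 * i.1.2 * τ / N : ℂ) = τ * ((i.1.1 * i.1.2 / N : ℝ) : ℂ) by push_cast; ring,
      Complex.im_mul_ofReal]
    have h1 : (1 : ℝ) ≤ i.1.1 := by exact_mod_cast Nat.pos_of_ne_zero hi.1
    have h2 : (1 : ℝ) ≤ i.1.2 := by exact_mod_cast Nat.pos_of_ne_zero hi.2
    have h3 : (i.1.1 : ℝ) + i.1.2 ≤ 2 * (i.1.1 * i.1.2) := by nlinarith
    have h4 := mul_le_mul_of_nonneg_left h3 hu.le
    calc _ = -(π * τ.im / N * (2 * (i.1.1 * i.1.2))) := by ring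
      _ ≤ -(π * τ.im / N * (i.1.1 + i.1.2)) := neg_le_neg h4
      _ = _ := by ring
  · rw [zero_mul, _root_.norm_zero]
    positivity

theorem hqs_BQEI {N : ℕ} {X : Zw → ℤ → ℤ → ℂ} (h : Bd N X) :
    QE N (fun τ => hqs N (GG N X τ) τ) (con N X) := by
  have e : con N X = fun n => ∑ i ∈ ((bl n).sigma fun a => (n - nn a).divisors).image
      (fun p => (((p.2, (n - nn p.1) / p.2), p.1) : (ℕ × ℕ) × Zw)), A_BQEI N X i := by
    funext n
    rw [sum_image, sum_sigma]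
    · refine sum_congr rfl fun a ha => sum_congr rfl fun c hc => ?_
      have h1 := Nat.mem_divisors.1 hc
      have h2 : c ≠ 0 := (Nat.pos_of_mem_divisors hc).ne'
      have h3 : (n - nn a) / c ≠ 0 :=
        (Nat.div_pos (Nat.le_of_dvd (Nat.pos_of_ne_zero h1.2) h1.1) (Nat.pos_of_ne_zero h2)).ne'
      rw [A_BQEI, if_pos ⟨h2, h3⟩, hat, Int.cast_natCast]
    · rintro ⟨a, c⟩ _ ⟨a', c'⟩ _ e
      obtain rfl : a = a' := congrArg Prod.snd e
      obtain rfl : c = c' := congrArg (fun i => i.1.1) e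
      rfl
  rw [e]
  refine QG (ν := fun i => nn i.2 + i.1.1 * i.1.2) (fun n i hi => ?_) (fun i hi => ?_)
    fun τ hτ => ?_
  · obtain ⟨p, hp, rfl⟩ := mem_image.1 hi
    have h1 := mem_bl.1 (mem_sigma.1 hp).1
    have h2 := Nat.mul_div_cancel' (Nat.mem_divisors.1 (mem_sigma.1 hp).2).1
    change nn p.1 + p.2 * ((n - nn p.1) / p.2) = n
    omega
  · have h1 : i.1.1 ≠ 0 ∧ i.1.2 ≠ 0 := not_not.1 fun e => hi (if_neg e)
    have h2 := mul_ne_zero h1.1 h1.2
    refine mem_image.2 ⟨⟨i.2, i.1.1⟩, mem_sigma.2 ⟨mem_bl.2 ?_, ?_⟩, ?_⟩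
    · exact lt_add_of_pos_right _ (Nat.pos_of_ne_zero h2)
    · rw [Nat.add_sub_cancel_left]
      exact Nat.mem_divisors.2 ⟨dvd_mul_right _ _, h2⟩
    · rw [Nat.add_sub_cancel_left, Nat.mul_div_cancel_left _ (Nat.pos_of_ne_zero h1.1)]
  · have s := sum_BQEI h hτ
    convert s.hasSum using 1
    rw [s.tsum_prod]
    refine tsum_congr fun v => ?_
    unfold A_BQEI
    split_ifs with hv
    · simp only [ex_BQEI N τ (v, _), ← mul_assoc]
      exact ((hat_BQEI h hτ v.1 v.2).mul_right _).tsum_eq.symm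
    · simp only [zero_mul, tsum_zero]

theorem QEI_pf (h : EFT_st) : QEI_st := fun N => by
  by_cases hN : N = 0
  · exact ⟨0, fun X hX => absurd hN hX.pos⟩
  obtain ⟨γ, C, h⟩ := h N hN
  refine ⟨γ, fun X hX τ hτ => ?_⟩
  obtain ⟨K, hK⟩ := hX.bd
  obtain ⟨K', hK'⟩ := hX.le' τ
  have e : II N X τ = _ := (h _ K' τ (hX.p2 τ) hK' (hX.neg τ) hτ).2.2
  rw [e]
  have h1 := hasSum_sum (s := range N) fun (c : ℕ) _ => hasSum_sum (s := range N)
    fun (d : ℕ) _ => (QE_th0 hN (bd_one fun a => hK a c d) τ hτ).mul_left (γ c d)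
  refine (h1.sub ((hqs_BQEI hX τ hτ).mul_left (4 * π * I))).congr_fun fun n => ?_
  rw [sub_mul, mul_assoc _ (con N X n), sum_comm, sum_mul]
  congr 1
  refine sum_congr rfl fun c _ => ?_
  rw [sum_comm, sum_mul]
  refine sum_congr rfl fun d _ => ?_
  rw [← mul_sum, mul_assoc]

end Pool.Agent.MP_e23604_nt.Z
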