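import Pool.Agent.MP_e23604_nt.Z.B1

/-!
The integral over the strip as a series.
-/

set_option autoImplicit false

open Finset QuadraticAlgebra Filter Topology MeasureTheory Complex
open scoped Classical BigOperators UpperHalfPlane MatrixGroups ComplexConjugate Real

namespace Pool.Agent.MP_e23604_nt.Z

open W Un

/-- the coefficient of one term -/
noncomputable def cf_BRT (h : Zw → ℤ → ℂ) (i : ℕ × Zw × Zw) : ℂ :=
  if Pry i.2.2 then h i.2.1 (i.1 + 1) * conj (iz i.2.2) * (i.1 + 1) * π else 0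

theorem bd_BRT {K κ c D x y : ℝ} (hK : 0 ≤ K) (hκ : 0 < κ) (hD : 1 ≤ D) (hx : 1 ≤ x) (hy : 1 ≤ y)
    (hc : c ≤ K * y * D * π) : c * K0 (κ * (D ^ 2 * (x + y))) ≤
      K * π * 2880 / κ ^ 5 * (1 / D ^ 2 * (1 / x ^ 2 * (1 / y ^ 2))) := by
  have h1 := K0_le 4 (s := κ * (D ^ 2 * (x + y))) (by positivity)
  have h2 : D ^ 3 * (x ^ 2 * y ^ 3) ≤ (D ^ 2 * (x + y)) ^ 5 := by
    rw [mul_pow, ← pow_mul, show (x + y) ^ 5 = (x + y) ^ 2 * (x + y) ^ 3 by ring]
    gcongr <;> linarith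
  refine (mul_le_mul hc (h1.trans (div_le_div_of_nonneg_left (by positivity)
    (show 0 < κ ^ 5 * (D ^ 3 * (x ^ 2 * y ^ 3)) by positivity) ?_)) (K0_nn _)
    (by positivity)).trans_eq ?_
  · rw [mul_pow κ]
    gcongr
  · simp only [Nat.factorial]
    field_simp
    norm_num
    ring

theorem pt_BRT {h : Zw → ℤ → ℂ} {K : ℝ} (hK : ∀ a d, ‖h a d‖ ≤ K) (t : ℝ) {p : ℝ × ℝ}
    (hp : 0 < p.2) (s : Summable fun i : ℕ × Zw × Zw =>
      cf_BRT h i * s1 (π * t * (i.1 + 1) ^ 2) (nw i.2.1) (nw i.2.2) p) :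
    ∑' i : ℕ × Zw × Zw, cf_BRT h i * s1 (π * t * (i.1 + 1) ^ 2) (nw i.2.1) (nw i.2.2) p =
      st h t (p.1 + p.2 * I) := by
  have e1 : (p.1 + p.2 * I : ℂ).re = p.1 := by simp
  have e2 : (p.1 + p.2 * I : ℂ).im = p.2 := by simp
  rw [st, hs, e1]
  split_ifs with c
  swap
  · simp [s1, c]
  rw [s.tsum_prod]
  refine tsum_congr fun d => ?_
  have s1' := th0_sum three_ne_zero (bd_one fun a => hK a (d + 1)) (e2 ▸ hp)
  have s2 := th0_sum three_ne_zero (g := fun a => if Pry a then iz a else 0) (K := 1) (fun a => by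
    have := norm_iz_le a
    have := nw_nn a
    split_ifs
    · linarith
    · rw [_root_.norm_zero]; linarith) (e2 ▸ hp)
  rw [mul_right_comm, ff, th0, th0, Complex.conj_tsum,
    tsum_mul_tsum_of_summable_norm s1' (by simpa only [Complex.norm_conj] using s2),
    ← tsum_mul_right]
  refine tsum_congr fun v => ?_
  have e3 : ((0 : ℤ) * (p.1 + p.2 * I) + ((d : ℤ) + 1 : ℤ) : ℂ) = ((d + 1 : ℝ) : ℂ) := by simp
  rw [kr, e2, e3, conj_ofReal, normSq_ofReal, s1, if_pos c, cf_BRT]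
  split_ifs
  · rw [show -π * t * ((d + 1) * (d + 1)) / p.2 = -(π * t * (d + 1) ^ 2) / p.2 by ring]
    push_cast
    simp only [map_mul]
    ring
  · simp

theorem RT_pf (h : RT1_st) : RT_st := fun g K t hK h3 ht => by
  have K0' : 0 ≤ K := (norm_nonneg _).trans (hK 0 0)
  have k : ∀ i, cf_BRT g i ≠ 0 → Pry i.2.2 ∧ 0 < nw i.2.1 ∧ 0 < nw i.2.2 ∧
      nw i.2.1 % 3 = nw i.2.2 % 3 := fun i e => by
    unfold cf_BRT at e
    split_ifs at e with c
    swap
    · exact absurd rfl e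
    have a1 := h3 _ _ (left_ne_zero_of_mul (left_ne_zero_of_mul (left_ne_zero_of_mul e)))
    have a2 := nn_mod3 c.pw
    have a3 := nn_cast i.2.2
    have a4 := nw_nonneg i.2.1
    exact ⟨c, by omega, by omega, by omega⟩
  have r := fun (i : ℕ × Zw × Zw) (e : cf_BRT g i ≠ 0) => h (π * t * (i.1 + 1) ^ 2) _ _
    (by positivity) (k i e).2.1 (k i e).2.2.1 (k i e).2.2.2
  have n1 : Summable fun d : ℕ => 1 / ((d : ℝ) + 1) ^ 2 := by
    simpa using (summable_nat_add_iff 1).2 (Real.summable_one_div_nat_pow.2 one_lt_two)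
  have n2 := (n1.mul_of_nonneg (sum_nw.mul_of_nonneg sum_nw (fun _ => by positivity)
    fun _ => by positivity) (fun _ => by positivity) fun _ => by positivity).mul_left
    (K * π * 2880 / (2 * π ^ 2 * t / 3) ^ 5)
  obtain ⟨i1, i2, -, i4⟩ := IT (μ := volume.restrict HP)
    (F := fun (i : ℕ × Zw × Zw) p => cf_BRT g i * s1 (π * t * (i.1 + 1) ^ 2) (nw i.2.1) (nw i.2.2) p)
    (fun i => by
      by_cases e : cf_BRT g i = 0
      · simp [e]
      · exact (r i e).1.const_mul _)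
    (n2.of_nonneg_of_le (fun i => integral_nonneg fun _ => norm_nonneg _) fun i => by
      by_cases e : cf_BRT g i = 0
      · simp only [e, zero_mul, _root_.norm_zero, integral_zero]
        positivity
      obtain ⟨a1, a2, a3, -⟩ := k i e
      simp only [norm_mul]
      rw [integral_const_mul, (r i e).2.1, show π * t * (i.1 + 1) ^ 2 *
        (2 * π * (nw i.2.1 + nw i.2.2) / 3) = 2 * π ^ 2 * t / 3 *
          ((i.1 + 1) ^ 2 * (nw i.2.1 + nw i.2.2)) by ring]
      refine bd_BRT K0' (by positivity) (by simp) (by exact_mod_cast a2) (by exact_mod_cast a3) ?_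
      rw [cf_BRT, if_pos a1, norm_mul, norm_mul, norm_mul, Complex.norm_conj, Complex.norm_real,
        Real.norm_of_nonneg Real.pi_pos.le, show ‖(i.1 + 1 : ℂ)‖ = i.1 + 1 by
          exact_mod_cast Complex.norm_natCast (i.1 + 1)]
      have := norm_iz_le i.2.2
      have := hK i.2.1 (i.1 + 1)
      gcongr)
  have e : (fun p : ℝ × ℝ => ∑' i : ℕ × Zw × Zw,
      cf_BRT g i * s1 (π * t * (i.1 + 1) ^ 2) (nw i.2.1) (nw i.2.2) p) =ᵐ[volume.restrict HP]
      fun p => st g t (p.1 + p.2 * I) := by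
    filter_upwards [i2, ae_restrict_mem (MeasurableSet.univ.prod measurableSet_Ioi)] with p a b
    exact pt_BRT hK t b.2 a.of_norm
  refine ⟨i1.congr e, integral_congr_ae e ▸ i4.congr_fun fun i => ?_⟩
  rw [integral_const_mul, tm]
  by_cases c : cf_BRT g i = 0
  · rw [c, zero_mul]
    split_ifs with d
    · rw [cf_BRT, if_pos d.2] at c
      push_cast
      rw [← mul_assoc, c, zero_mul]
    · rfl
  rw [(r i c).2.2, cf_BRT, if_pos (k i c).1]
  simp only [(k i c).1, and_true]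
  split_ifs
  · rw [show π * t * (i.1 + 1) ^ 2 * (4 * π * nw i.2.2 / 3) =
      4 * π ^ 2 * t * (i.1 + 1) ^ 2 * nw i.2.2 / 3 by ring]
    push_cast
    ring
  · rw [mul_zero]

end Pool.Agent.MP_e23604_nt.Z
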