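import Pool.Agent.MP_e23604_nt.Z.B1

/-!
One term of the integral over the strip.
-/

set_option autoImplicit false

open Finset QuadraticAlgebra Filter Topology MeasureTheory Complex
open scoped Classical BigOperators UpperHalfPlane MatrixGroups ComplexConjugate Real

namespace Pool.Agent.MP_e23604_nt.Z

open W Un

theorem int_BRT1 (k : ℤ) : ∫ x in Set.Ico (0 : ℝ) 1, ex (x * k) = if k = 0 then 1 else 0 := by
  split_ifs with h
  · simp [h, ex_zero]
  · have h0 : (2 * π * I * k : ℂ) ≠ 0 :=
      mul_ne_zero Complex.two_pi_I_ne_zero (Int.cast_ne_zero.2 h)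
    have e := integral_exp_mul_complex (a := 0) (b := 1) h0
    have e1 := ex_int k
    rw [ex] at e1
    rw [ofReal_one, ofReal_zero, mul_one, mul_zero, Complex.exp_zero, e1, sub_self, zero_div,
      intervalIntegral.integral_of_le zero_le_one] at e
    rw [integral_Ico_eq_integral_Ioc, ← e]
    simp only [ex, mul_assoc, mul_comm (k : ℂ)]

theorem RT1_pf : RT1_st := by
  intro A n m hA hn hm h3
  obtain ⟨k, hk⟩ : ∃ k, n = m + 3 * k := ⟨(n - m) / 3, by omega⟩
  have hB : (0 : ℝ) < 2 * π * (n + m) / 3 := by positivity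
  obtain ⟨j1, j2⟩ := JS hA hB
  have hk0 : k = 0 ↔ n = m := by omega
  have e3 : n = m → 2 * π * ((n : ℝ) + m) / 3 = 4 * π * m / 3 := fun e => by rw [e]; ring
  have e : s1 A n m = fun p : ℝ × ℝ => (Set.Ico (0 : ℝ) 1).indicator (fun x => ex (x * k)) p.1 *
      (Real.exp (-A / p.2 - 2 * π * (n + m) / 3 * p.2) / p.2 : ℝ) := by
    funext p
    rw [s1, Set.indicator_apply]
    split_ifs with h1 h2 h2
    · rw [ex, ex, ex, ← Complex.exp_conj, ← Complex.exp_add, sub_eq_add_neg, add_comm (-A / p.2),
        Real.exp_add, mul_div_assoc (Real.exp _), ofReal_mul, ← mul_assoc, ofReal_exp,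
        ← Complex.exp_add]
      congr 2
      simp only [map_mul, map_add, map_div₀, conj_ofReal, conj_I, map_intCast, map_ofNat, hk]
      push_cast
      linear_combination (2 * π * p.2 * (2 * m + 3 * k) / 3) * I_sq
    · exact absurd h1 h2
    · exact absurd h2 h1
    · rw [zero_mul]
  have hn1 : ∀ x : ℝ, ‖ex (x * k)‖ = 1 := fun x => by
    rw [ex, show 2 * π * I * (x * k : ℂ) = (2 * π * (x * k) : ℝ) * I by push_cast; ring]
    exact Complex.norm_exp_ofReal_mul_I _
  have i1 : Integrable ((Set.Ico (0 : ℝ) 1).indicator fun x : ℝ => ex (x * k)) :=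
    (integrable_indicator_iff measurableSet_Ico).2
      ((Continuous.integrableOn_Icc (by unfold ex; fun_prop)).mono_set Set.Ico_subset_Icc_self)
  have hμ : (volume : Measure (ℝ × ℝ)).restrict HP =
      volume.prod (volume.restrict (Set.Ioi 0)) := by
    rw [HP, Measure.volume_eq_prod, ← Measure.prod_restrict, Measure.restrict_univ]
  rw [IntegrableOn, hμ, e]
  refine ⟨i1.mul_prod j1.ofReal, ?_, ?_⟩
  · simp only [norm_mul]
    rw [integral_prod_mul (fun x : ℝ => ‖(Set.Ico (0 : ℝ) 1).indicator (fun x => ex (x * k)) x‖)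
      fun y : ℝ => ‖((Real.exp (-A / y - 2 * π * (n + m) / 3 * y) / y : ℝ) : ℂ)‖, ← j2]
    simp only [norm_indicator_eq_indicator_norm, hn1]
    rw [integral_indicator measurableSet_Ico, setIntegral_const, Real.volume_real_Ico_of_le
      zero_le_one, sub_zero, one_smul, one_mul]
    exact setIntegral_congr_fun measurableSet_Ioi fun y (hy : 0 < y) => by
      simp only [Complex.norm_real]
      exact Real.norm_of_nonneg (by positivity)
  · rw [integral_prod_mul ((Set.Ico (0 : ℝ) 1).indicator fun x => ex (x * k))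
      fun y : ℝ => ((Real.exp (-A / y - 2 * π * (n + m) / 3 * y) / y : ℝ) : ℂ),
      integral_indicator measurableSet_Ico, int_BRT1, integral_complex_ofReal, j2]
    by_cases h : n = m
    · rw [if_pos (hk0.2 h), if_pos h, one_mul, e3 h]
    · rw [if_neg (mt hk0.1 h), if_neg h, zero_mul]

end Pool.Agent.MP_e23604_nt.Z
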