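import Pool.Agent.MP_e23604_nt.Z.B1

/-!
The integral of the Fourier transform of the kernel.
-/

set_option autoImplicit false

open Finset QuadraticAlgebra Filter Topology MeasureTheory Complex
open scoped Classical BigOperators UpperHalfPlane MatrixGroups ComplexConjugate Real

namespace Pool.Agent.MP_e23604_nt.Z

open W Un

/-- the error function -/
noncomputable def er_BSUB (y v : ℝ) : ℝ := ∫ s in (0 : ℝ)..v, Real.exp (-(π * y) * s ^ 2)

theorem lim_BSUB {y a : ℝ} (hy : 0 < y) (ha : a ≠ 0) {l : Filter ℝ} {s e : ℝ → ℝ}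
    (hs : Tendsto s l atTop) (he : Tendsto e l (𝓝 0)) :
    Tendsto (fun t => 2 * √y * er_BSUB y (a * s t + e t)) l (𝓝 (if 0 < a then 1 else -1)) := by
  have h1 : Tendsto (fun v => 2 * √y * er_BSUB y v) atTop (𝓝 1) := by
    have := (intervalIntegral_tendsto_integral_Ioi 0 (integrable_exp_neg_mul_sq
      (mul_pos Real.pi_pos hy)).integrableOn tendsto_id).const_mul (2 * √y)
    rw [integral_gaussian_Ioi, div_mul_cancel_left₀ Real.pi_ne_zero, Real.sqrt_inv] at this
    have q := Real.sqrt_pos.2 hy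
    rwa [show 2 * √y * ((√y)⁻¹ / 2) = 1 by field_simp] at this
  split_ifs with h
  · exact h1.comp ((hs.const_mul_atTop h).atTop_add he)
  · have h2 := (h1.comp ((hs.const_mul_atTop (neg_pos.2 ((not_lt.1 h).lt_of_ne ha))).atTop_add
      he.neg)).neg
    refine h2.congr fun t => ?_
    have := intervalIntegral.integral_comp_neg (a := 0) (b := a * s t + e t)
      fun s => Real.exp (-(π * y) * s ^ 2)
    simp only [neg_sq, neg_zero] at this
    simp only [Function.comp, er_BSUB]
    rw [this, intervalIntegral.integral_symm, neg_mul a, ← neg_add]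
    ring

theorem key_BSUB {c x y : ℝ} (hc : c ≠ 0) (hx : x ≠ 0) (hy : 0 < y) : ∃ F : ℝ → ℝ,
    ContinuousWithinAt F (Set.Ici 0) 0 ∧ (∀ t ∈ Set.Ioi 0, HasDerivAt F (sb c x y t) t) ∧
    Tendsto F atTop (𝓝 (Real.exp (-2 * π * c * x * y) * if 0 < c then 1 else -1)) ∧
    F 0 = Real.exp (-2 * π * c * x * y) * if 0 < -x then 1 else -1 := by
  set E := Real.exp (-2 * π * c * x * y)
  let F : ℝ → ℝ := fun t => E * (2 * √y * er_BSUB y (c * √t + -x * (√t)⁻¹))
  have ev : ∀ (m : ℝ) (t : ℝ), 0 < t → Function.update F 0 m t = F t := fun m t h =>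
    Function.update_of_ne h.ne' _ _
  have s0 : Tendsto (fun t : ℝ => √t) (𝓝[>] 0) (𝓝[>] 0) :=
    tendsto_nhdsWithin_iff.2 ⟨(Real.continuous_sqrt.tendsto' 0 0 Real.sqrt_zero).mono_left
      nhdsWithin_le_nhds, eventually_mem_nhdsWithin.mono fun t ht => Real.sqrt_pos.2 ht⟩
  refine ⟨Function.update F 0 _, continuousWithinAt_update_same.2 ?_, fun t (ht : 0 < t) => ?_, ?_,
    Function.update_self _ _ _⟩
  · rw [Set.Ici_sdiff_left]
    refine ((lim_BSUB hy (neg_ne_zero.2 hx) (tendsto_inv_nhdsGT_zero.comp s0) (e := fun t => c * √t)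
      (by simpa using (s0.mono_right nhdsWithin_le_nhds).const_mul c)).const_mul E).congr fun t => ?_
    simp only [F, Function.comp, add_comm]
  · refine HasDerivAt.congr_of_eventuallyEq (f := F) ?_ ((lt_mem_nhds ht).mono (ev _))
    have q := Real.sqrt_pos.2 ht
    have d := Real.hasDerivAt_sqrt ht.ne'
    have g : Continuous fun s : ℝ => Real.exp (-(π * y) * s ^ 2) := by fun_prop
    refine ((((g.integral_hasStrictDerivAt 0 _).hasDerivAt.comp t
      ((d.const_mul c).add ((d.inv q.ne').const_mul (-x)))).const_mul (2 * √y)).const_mul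
        E).congr_deriv ?_
    have e : -π * y * (x ^ 2 / t + t * c ^ 2) =
        -2 * π * c * x * y + -(π * y) * (c * √t + -x * (√t)⁻¹) ^ 2 := by
      conv_lhs => rw [← Real.sq_sqrt ht.le]
      field_simp
      ring
    rw [sb, e, Real.exp_add, Real.sqrt_div hy.le]
    simp only [Pi.add_apply, Pi.inv_apply]
    change _ = _ * (E * _)
    generalize Real.exp (-(π * y) * _) = A
    rw [show x / t = x / √t ^ 2 by rw [Real.sq_sqrt ht.le]]
    field_simp
  · refine Tendsto.congr' ((eventually_gt_atTop 0).mono fun t ht => (ev _ t ht).symm) ?_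
    exact (lim_BSUB hy hc Real.tendsto_sqrt_atTop (by simpa using
      (tendsto_inv_atTop_zero.comp Real.tendsto_sqrt_atTop).const_mul (-x))).const_mul E

theorem SUB_pf : SUB_st := by
  intro c x y hc hx hy
  obtain ⟨F, f1, f2, f3, f4⟩ := key_BSUB hc hx hy
  obtain ⟨G, g1, g2, g3, -⟩ := key_BSUB (abs_ne_zero.2 hc) (abs_ne_zero.2 hx) hy
  have I : IntegrableOn (sb c x y) (Set.Ioi 0) := by
    refine (integrableOn_Ioi_deriv_of_nonneg g1 g2 (fun t (ht : 0 < t) => by
      rw [sb]; positivity) g3).mono' ?_ ((ae_restrict_mem measurableSet_Ioi).mono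
        fun t (ht : 0 < t) => ?_)
    · exact Measurable.aestronglyMeasurable (by unfold sb; fun_prop)
    · simp only [sb, sq_abs, norm_mul, Real.norm_eq_abs, Real.abs_exp, abs_of_nonneg (Real.sqrt_nonneg _)]
      gcongr
      exact (abs_add_le _ _).trans_eq (by rw [abs_div, abs_of_pos ht])
  refine ⟨I, ?_⟩
  rw [integral_Ioi_of_hasDerivAt_of_tendsto f1 f2 I f3, f4]
  rcases hc.lt_or_gt with a | a <;> rcases hx.lt_or_gt with b | b
  · rw [if_neg a.not_gt, if_pos (neg_pos.2 b), if_pos (mul_pos_of_neg_of_neg a b), if_neg a.not_gt]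
    ring
  · rw [if_neg a.not_gt, if_neg (neg_lt_zero.2 b).not_gt, if_neg (mul_neg_of_neg_of_pos a b).not_gt,
      sub_self]
  · rw [if_pos a, if_pos (neg_pos.2 b), if_neg (mul_neg_of_pos_of_neg a b).not_gt, sub_self]
  · rw [if_pos a, if_neg (neg_lt_zero.2 b).not_gt, if_pos (mul_pos a b), if_pos a]
    ring

end Pool.Agent.MP_e23604_nt.Z
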