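import Pool.Agent.MP_e23604_nt.Z.B1

/-!
The second difference of the regularised Kronecker sum.
-/

set_option autoImplicit false

open Finset QuadraticAlgebra Filter Topology MeasureTheory Complex
open scoped Classical BigOperators UpperHalfPlane MatrixGroups ComplexConjugate Real

namespace Pool.Agent.MP_e23604_nt.Z

open W Un

theorem sec_BTAN {g g1 g2 : ℝ → ℂ} {M : ℝ} (h1 : ∀ t ∈ Set.Icc (-1 : ℝ) 1, HasDerivAt g (g1 t) t)
    (h2 : ∀ t ∈ Set.Icc (-1 : ℝ) 1, HasDerivAt g1 (g2 t) t)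
    (hM : ∀ t ∈ Set.Icc (-1 : ℝ) 1, ‖g2 t‖ ≤ M) : ‖g 1 + g (-1) - 2 * g 0‖ ≤ M * 2 := by
  have ng : ∀ t ∈ Set.Icc (-1 : ℝ) 1, -t ∈ Set.Icc (-1 : ℝ) 1 := fun t h =>
    ⟨by linarith [h.2], by linarith [h.1]⟩
  have := (convex_Icc (-1 : ℝ) 1).norm_image_sub_le_of_norm_hasDerivWithin_le
    (f := fun t => g t + g (-t)) (f' := fun t => g1 t - g1 (-t)) (C := M * 2) (x := 0) (y := 1)
    (fun t ht => (((h1 t ht).add ((h1 _ (ng t ht)).scomp t (hasDerivAt_neg t))).congr_deriv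
      (by simp [sub_eq_add_neg])).hasDerivWithinAt)
    (fun t ht => ((convex_Icc (-1 : ℝ) 1).norm_image_sub_le_of_norm_hasDerivWithin_le
      (fun t ht => (h2 t ht).hasDerivWithinAt) hM (ng t ht) ht).trans (by
        refine mul_le_mul_of_nonneg_left (abs_le.2 ⟨?_, ?_⟩) ((norm_nonneg _).trans (hM t ht)) <;>
        linarith [ht.1, ht.2])) (by simp) (by simp)
  simpa [two_mul] using this

/-- one term -/
noncomputable def tm_BTAN (a : ℝ) (w : ℂ) : ℂ := (Real.exp (-a * normSq w) : ℝ) / w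

theorem bd_BTAN {a : ℝ} (ha : 0 ≤ a) {w S : ℂ} (h : 2 * ‖S‖ + 1 ≤ ‖w‖) :
    ‖tm_BTAN a (w + S) + tm_BTAN a (w - S) - 2 * tm_BTAN a w‖ ≤ 128 * ‖S‖ ^ 2 * ‖w‖⁻¹ ^ 3 := by
  let u : ℂ → ℂ := fun t => w + t * S
  let v : ℂ → ℂ := fun t => conj w + t * conj S
  let p : ℂ → ℂ := fun t => S * v t + u t * conj S
  let E : ℂ → ℂ := fun t => cexp (-a * (u t * v t))
  have du : ∀ t, HasDerivAt u S t := fun t => (hasDerivAt_mul_const S).const_add w
  have dv : ∀ t, HasDerivAt v (conj S) t := fun t => (hasDerivAt_mul_const _).const_add _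
  have dE := fun t => (((du t).mul (dv t)).const_mul (-a : ℂ)).cexp
  have cv : ∀ t : ℝ, v t = conj (u t) := fun t => by simp [u, v]
  have eE : ∀ t : ℝ, E t = (Real.exp (-a * normSq (u t)) : ℝ) := fun t => by
    simp [E, cv, Complex.mul_conj]
  have S0 := norm_nonneg S
  have lo : ∀ t ∈ Set.Icc (-1 : ℝ) 1, ‖w‖ / 2 ≤ ‖u t‖ := fun t ht => by
    have a1 := norm_sub_le (u t) (t * S)
    have a2 : ‖(t : ℂ) * S‖ ≤ ‖S‖ := by
      rw [norm_mul, Complex.norm_real]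
      exact mul_le_of_le_one_left S0 (abs_le.2 ht)
    rw [show u t - t * S = w by simp [u]] at a1
    linarith
  have u0 : ∀ t ∈ Set.Icc (-1 : ℝ) 1, u t ≠ 0 := fun t ht =>
    norm_pos_iff.1 (by linarith [lo t ht])
  have key := sec_BTAN (g := fun t => E t / u t) (M := 64 * ‖S‖ ^ 2 * ‖w‖⁻¹ ^ 3)
    (g1 := fun t => E t * (-a * p t * u t - S) / u t ^ 2)
    (g2 := fun t => E t * (a ^ 2 * p t ^ 2 * u t ^ 2 + 2 * a * p t * S * u t -
      2 * a * S * conj S * u t ^ 2 + 2 * S ^ 2) / u t ^ 3) (fun t ht => ?_) (fun t ht => ?_)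
    fun t ht => ?_
  · simp only [eE] at key
    convert key using 1
    · simp [tm_BTAN, u, sub_eq_add_neg]
    · ring
  · refine (((dE t).div (du t) (u0 t ht)).congr_deriv ?_).comp_ofReal
    simp only [E, p, Pi.mul_apply]
    ring
  · refine ((((dE t).mul ((((((dv t).const_mul S).add ((du t).mul_const _)).const_mul (-a : ℂ)).mul
      (du t)).sub_const S)).div ((du t).pow 2) (pow_ne_zero 2 (u0 t ht))).congr_deriv ?_).comp_ofReal
    have := u0 t ht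
    simp only [E, p, Pi.mul_apply, Pi.add_apply, Pi.pow_apply]
    field_simp
    ring
  · have r0 : 0 < ‖u t‖ := norm_pos_iff.2 (u0 t ht)
    have w0 : 0 < ‖w‖ := by linarith
    have hp : ‖p t‖ ≤ 2 * ‖S‖ * ‖u t‖ := (norm_add_le _ _).trans_eq (by
      simp only [norm_mul, cv, Complex.norm_conj]
      ring)
    have hK : ‖a ^ 2 * p t ^ 2 * u t ^ 2 + 2 * a * p t * S * u t -
        2 * a * S * conj S * u t ^ 2 + 2 * S ^ 2‖ ≤ 8 * ‖S‖ ^ 2 * Real.exp (a * ‖u t‖ ^ 2) := by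
      refine ((norm_add_le _ _).trans (add_le_add_left ((norm_sub_le _ _).trans
        (add_le_add_left (norm_add_le _ _) _)) _)).trans ?_
      simp only [norm_mul, norm_pow, Complex.norm_conj, Complex.norm_real, Real.norm_of_nonneg ha,
        Complex.norm_ofNat]
      have q := Real.quadratic_le_exp_of_nonneg (show 0 ≤ a * ‖u t‖ ^ 2 by positivity)
      calc _ ≤ a ^ 2 * (2 * ‖S‖ * ‖u t‖) ^ 2 * ‖u t‖ ^ 2 + 2 * a * (2 * ‖S‖ * ‖u t‖) * ‖S‖ * ‖u t‖ +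
            2 * a * ‖S‖ * ‖S‖ * ‖u t‖ ^ 2 + 2 * ‖S‖ ^ 2 := by gcongr
        _ ≤ 8 * ‖S‖ ^ 2 * (1 + a * ‖u t‖ ^ 2 + (a * ‖u t‖ ^ 2) ^ 2 / 2) := by
          nlinarith [show 0 ≤ ‖S‖ ^ 2 * (a * ‖u t‖ ^ 2) by positivity, sq_nonneg ‖S‖]
        _ ≤ _ := by gcongr
    rw [norm_div, norm_mul, norm_pow, eE, Complex.norm_real, Real.norm_of_nonneg (Real.exp_pos _).le,
      Complex.normSq_eq_norm_sq]
    calc _ ≤ Real.exp (-a * ‖u t‖ ^ 2) * (8 * ‖S‖ ^ 2 * Real.exp (a * ‖u t‖ ^ 2)) / (‖w‖ / 2) ^ 3 := by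
          gcongr
          exact lo t ht
      _ = _ := by
          rw [neg_mul, Real.exp_neg]
          field_simp
          ring

theorem sum_BTAN (z : ℂ) : Summable fun g : Zw => ‖z + iz g‖⁻¹ ^ 3 := by
  have := (ZLattice.summable_norm_sub_inv_pow L1.lattice 3 (by simp) (-z)).comp_injective
    (i := fun g : Zw => ⟨iz g, mem_L1.2 ⟨g, rfl⟩⟩) fun a b e => iz_inj (congrArg Subtype.val e)
  simpa [Function.comp_def, add_comm] using this

theorem le_BTAN {a : ℝ} (ha : 0 < a) (w : ℂ) :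
    ‖tm_BTAN a w‖ ≤ ‖1 / w‖ ∧ ‖tm_BTAN a w‖ ≤ a⁻¹ * ‖w‖⁻¹ ^ 3 := by
  by_cases h : w = 0
  · simp [h, tm_BTAN]
  have := norm_pos_iff.2 h
  rw [tm_BTAN, norm_div, norm_div, NormOneClass.norm_one, Complex.norm_real,
    Real.norm_of_nonneg (Real.exp_pos _).le, Complex.normSq_eq_norm_sq, neg_mul]
  constructor
  · gcongr
    exact Real.exp_le_one_iff.2 (neg_nonpos.2 (by positivity))
  · refine (div_le_div_of_nonneg_right (exp_neg_le (by positivity) 1) this.le).trans_eq ?_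
    simp only [Nat.factorial_one]
    field_simp
    simp

theorem TAN_pf : TAN_st := by
  intro z S
  have sm : ∀ ε : ℝ, 0 < ε → ∀ x : ℂ, Summable fun g : Zw => tm_BTAN (π * ε) (x + iz g) :=
    fun ε h x => .of_norm_bounded ((sum_BTAN x).mul_left _) fun g => (le_BTAN (by positivity) _).2
  have eK : ∀ (ε : ℝ) (x : ℂ), Ke ε x = ∑' g : Zw, tm_BTAN (π * ε) (x + iz g) := fun ε x => by
    simp only [Ke, tm_BTAN, neg_mul]
  have lim : ∀ w : ℂ, Tendsto (fun ε : ℝ => tm_BTAN (π * ε) w) (𝓝[>] 0) (𝓝 (1 / w)) := fun w =>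
    ((show Continuous fun ε : ℝ => tm_BTAN (π * ε) w by unfold tm_BTAN; fun_prop).tendsto' 0 _
      (by simp [tm_BTAN])).mono_left nhdsWithin_le_nhds
  refine Tendsto.congr' (f₁ := fun ε => ∑' g : Zw, (tm_BTAN (π * ε) (z + S + iz g) +
    tm_BTAN (π * ε) (z - S + iz g) - 2 * tm_BTAN (π * ε) (z + iz g)))
    (eventually_mem_nhdsWithin.mono fun ε (h : 0 < ε) => ?_) ?_
  · simp only [eK]
    rw [((sm ε h _).add (sm ε h _)).tsum_sub ((sm ε h _).mul_left 2), (sm ε h _).tsum_add (sm ε h _),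
      tsum_mul_left]
  refine tendsto_tsum_of_dominated_convergence (bound := fun g : Zw =>
    if 2 * ‖S‖ + 1 ≤ ‖z + iz g‖ then 128 * ‖S‖ ^ 2 * ‖z + iz g‖⁻¹ ^ 3 else
      ‖1 / (z + S + iz g)‖ + ‖1 / (z - S + iz g)‖ + 2 * ‖1 / (z + iz g)‖) ?_ (fun g => ?_)
    (eventually_mem_nhdsWithin.mono fun ε (h : 0 < ε) g => ?_)
  · refine ((sum_BTAN z).mul_left (128 * ‖S‖ ^ 2)).congr_cofinite ?_
    obtain ⟨n, hn⟩ := exists_nat_gt ((2 * ‖S‖ + 1 + ‖z‖) ^ 2)
    refine (bl n).finite_toSet.subset fun g hg => mem_bl.2 ?_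
    have a : ‖z + iz g‖ < 2 * ‖S‖ + 1 := not_le.1 fun e => hg (if_pos e).symm
    have b := norm_sub_le (z + iz g) z
    rw [add_sub_cancel_left] at b
    have c : ‖iz g‖ ^ 2 ≤ (2 * ‖S‖ + 1 + ‖z‖) ^ 2 := by gcongr; linarith
    rw [norm_iz_sq, ← nn_cast] at c
    exact_mod_cast c.trans_lt hn
  · simpa only [mul_one_div] using ((lim _).add (lim _)).sub ((lim _).const_mul 2)
  · have p : 0 < π * ε := by positivity
    split_ifs with e
    · simpa only [add_right_comm z, sub_add_eq_add_sub] using bd_BTAN p.le e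
    · refine (norm_sub_le _ _).trans (add_le_add ((norm_add_le _ _).trans
        (add_le_add (le_BTAN p _).1 (le_BTAN p _).1)) ?_)
      rw [norm_mul, Complex.norm_ofNat]
      exact mul_le_mul_of_nonneg_left (le_BTAN p _).1 zero_le_two

end Pool.Agent.MP_e23604_nt.Z
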