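import Pool.Agent.MP_e23604_nt.Z.B1

set_option autoImplicit false

open Finset QuadraticAlgebra Filter Topology MeasureTheory Complex
open scoped Classical BigOperators UpperHalfPlane MatrixGroups ComplexConjugate Real

namespace Pool.Agent.MP_e23604_nt.Z

open W Un

/-- orthogonal coordinates -/
def ph_BTH2 : Zw →+ ℤ × ℤ where
  toFun a := (trw a, a.im)
  map_zero' := by simp [trw]
  map_add' x y := by simp [trw_add]

theorem mem_ph_BTH2 {p : ℤ × ℤ} : p ∈ ph_BTH2.range ↔ 2 ∣ p.1 + p.2 := by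
  constructor
  · rintro ⟨a, rfl⟩
    exact ⟨a.re, by simp [ph_BTH2, trw]⟩
  · rintro ⟨k, hk⟩
    exact ⟨⟨k, p.2⟩, Prod.ext (by simp [ph_BTH2, trw]; omega) rfl⟩

theorem idx_BTH2 : ph_BTH2.range.index = 2 :=
  AddSubgroup.index_eq_two_iff.2 ⟨(1, 0), fun b => by
    simp only [mem_ph_BTH2, Xor, Prod.fst_add, Prod.snd_add]
    omega⟩

/-- the weights in orthogonal coordinates -/
noncomputable def G_BTH2 (g : Zw → ℂ) (m n : ℤ) : ℂ :=
  if 2 ∣ m + n then g ⟨(m + n) / 2, n⟩ else 0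

theorem G_ph_BTH2 (g : Zw → ℂ) (a : Zw) : G_BTH2 g (trw a) a.im = g a := by
  have : trw a + a.im = 2 * a.re := by simp [trw]
  rw [G_BTH2, this, if_pos ⟨_, rfl⟩, Int.mul_ediv_cancel_left _ two_ne_zero]

theorem G_p2_BTH2 {N : ℕ} {g : Zw → ℂ} (h : PN N g) : P2 (2 * N) (G_BTH2 g) := fun c d => by
  constructor
  · refine if_congr (by push_cast; omega) ?_ rfl
    rw [← h.per ⟨(c + d) / 2, d⟩ 1]
    congr 1
    ext <;> simp
    omega
  · refine if_congr (by push_cast; omega) ?_ rfl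
    rw [← h.per ⟨(c + d) / 2, d⟩ ⟨1, 2⟩]
    congr 1
    ext <;> simp
    · omega
    · ring

theorem mean_BTH2 {N : ℕ} (hN : N ≠ 0) {g : Zw → ℂ} (h : PN N g) (ξ η : ℤ) :
    AP (fun y : Zw => g y * ex ((trw y * ξ + y.im * η) / (2 * N : ℕ))) ∧
    (Mn fun p : ℤ × ℤ => G_BTH2 g p.1 p.2 * ex ((p.1 * ξ + p.2 * η) / (2 * N : ℕ))) =
      Mn (fun y : Zw => g y * ex ((trw y * ξ + y.im * η) / (2 * N : ℕ))) / 2 := by
  have hM : 2 * N ≠ 0 := by omega
  have hM' : ((2 * N : ℕ) : ℂ) ≠ 0 := Nat.cast_ne_zero.2 hM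
  have hp : P2 (2 * N) fun c d => G_BTH2 g c d * ex ((c * ξ + d * η) / (2 * N : ℕ)) := fun c d => by
    constructor
    · beta_reduce
      rw [(G_p2_BTH2 h c d).1, ex_congr (y := (c * ξ + d * η) / (2 * N : ℕ)) ξ (by
        rw [Int.cast_add, Int.cast_natCast]; field_simp; ring)]
    · beta_reduce
      rw [(G_p2_BTH2 h c d).2, ex_congr (y := (c * ξ + d * η) / (2 * N : ℕ)) η (by
        rw [Int.cast_add, Int.cast_natCast]; field_simp; ring)]
  have ha := hp.ap hM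
  have : ph_BTH2.range.FiniteIndex := ⟨by rw [idx_BTH2]; norm_num⟩
  have e : (fun y : Zw => g y * ex ((trw y * ξ + y.im * η) / (2 * N : ℕ))) = fun y =>
      G_BTH2 g (ph_BTH2 y).1 (ph_BTH2 y).2 *
        ex (((ph_BTH2 y).1 * ξ + (ph_BTH2 y).2 * η) / (2 * N : ℕ)) :=
    funext fun y => by rw [← G_ph_BTH2 g y]; rfl
  rw [e]
  refine ⟨ha.comp ph_BTH2, ?_⟩
  rw [Mn_sub ha ph_BTH2 fun p hp => by rw [G_BTH2, if_neg (mt mem_ph_BTH2.2 hp), zero_mul],
    idx_BTH2, Nat.cast_ofNat]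

theorem van_BTH2 {N : ℕ} (hN : N ≠ 0) (h3 : 3 ∣ N) {g : Zw → ℂ} (h : PN N g) {ξ η : ℤ}
    (hv : ¬ (3 ∣ η ∧ 2 ∣ ξ + η)) :
    Mn (fun y : Zw => g y * ex ((trw y * ξ + y.im * η) / (2 * N : ℕ))) = 0 := by
  have key : ∀ (z : Zw) (m M : ℤ), (N : Zw) ∣ pw * z → M ≠ 0 → ¬ M ∣ m →
      (trw z * ξ + z.im * η) * M = m * (2 * N) →
      Mn (fun y : Zw => g y * ex ((trw y * ξ + y.im * η) / (2 * N : ℕ))) = 0 := by
    intro z m M hz hM hm e
    refine Mn_char (mean_BTH2 hN h ξ η).1 (v := z) (ζ := ex (m / M)) (fun y => ?_)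
      (mt (ex_div_eq_one hM).1 hm)
    have h1 : (M : ℂ) ≠ 0 := Int.cast_ne_zero.2 hM
    have h2 : (N : ℂ) ≠ 0 := Nat.cast_ne_zero.2 hN
    have e' : ((trw z : ℂ) * ξ + z.im * η) * M = m * (2 * N) := by exact_mod_cast e
    rw [h y z hz, mul_left_comm, ← ex_add, trw_add, QuadraticAlgebra.im_add]
    congr 2
    push_cast
    field_simp
    linear_combination e'
  obtain ⟨k, rfl⟩ := h3
  by_cases h1 : 3 ∣ η
  · refine key ((3 * k : ℕ) * ⟨0, 1⟩) (η - ξ) 2 ⟨pw * ⟨0, 1⟩, by ring⟩ two_ne_zero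
      (fun e => hv ⟨h1, by omega⟩) ?_
    simp [trw]
    ring
  · refine key (k * pw) η 3 ⟨-1, ?_⟩ three_ne_zero h1 ?_
    · push_cast
      linear_combination (k : Zw) * pw_sq
    · simp [trw, pw]
      ring

theorem cpow_BTH2 {a : ℂ} (ha : a ≠ 0) :
    a ^ (1 / 2 : ℂ) * (3 * a) ^ (1 / 2 : ℂ) = (Real.sqrt 3 : ℝ) * a := by
  have h3 : (3 : ℂ) = (3 : ℝ) := by simp
  rw [cpow_def_of_ne_zero (mul_ne_zero three_ne_zero ha), h3, log_ofReal_mul three_pos ha, add_mul,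
    Complex.exp_add, ← cpow_def_of_ne_zero ha, mul_left_comm, ← cpow_add _ _ ha, add_halves,
    cpow_one, Real.sqrt_eq_rpow, Real.rpow_def_of_pos three_pos]
  push_cast
  rfl

theorem TH2_pf (h : PO2_st) : TH2_st := by
  intro N g τ α L hN h3 hg hτ
  have hτ0 : τ ≠ 0 := fun e => by simp [e] at hτ
  have hN' : (N : ℂ) ≠ 0 := Nat.cast_ne_zero.2 hN
  have hs : ((Real.sqrt 3 : ℝ) : ℂ) ≠ 0 := by simp
  set A : ℂ := I / (2 * τ * N) with hA
  have hA0 : 0 < A.re := by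
    have h1 := normSq_pos.2 hτ0
    have h2 : (0 : ℝ) < N := by exact_mod_cast Nat.pos_of_ne_zero hN
    rw [show A = (I * τ⁻¹) * ((1 / (2 * N) : ℝ) : ℂ) by rw [hA]; push_cast; field_simp,
      re_mul_ofReal, I_mul_re, inv_im, neg_div, neg_neg]
    positivity
  have hA1 : A ≠ 0 := fun e => by simp [e] at hA0
  have hL : ∀ a : Zw, L a = L 1 / 2 * trw a + (L 1 / 2 + L ⟨0, 1⟩) * a.im := fun a => by
    have : a = a.re • (1 : Zw) + a.im • (⟨0, 1⟩ : Zw) := by ext <;> simp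
    conv_lhs => rw [this, map_add, map_zsmul, map_zsmul]
    simp [trw]
    ring
  have hn : ∀ a : Zw, (nw a : ℂ) = ((trw a : ℂ) ^ 2 + 3 * (a.im : ℂ) ^ 2) / 4 := fun a => by
    rw [nw_def, trw]
    push_cast
    ring
  have H := h (2 * N) (G_BTH2 g) A (3 * A) α (L 1 / 2) (L 1 / 2 + L ⟨0, 1⟩) (by omega)
    (G_p2_BTH2 hg) hA0 (by simpa using hA0)
  have i1 : Function.Injective fun a : Zw => (trw a, a.im) := fun a b e => by
    simp only [Prod.mk.injEq, trw] at e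
    ext <;> omega
  have i2 : Function.Injective fun a : Zw => (trw a, 3 * a.im) := fun a b e => by
    simp only [Prod.mk.injEq, trw] at e
    ext <;> omega
  rw [← i1.tsum_eq fun v hv => by
      by_contra hc
      refine hv ?_
      beta_reduce
      rw [G_BTH2, if_neg fun e => hc (mem_ph_BTH2.2 e), zero_mul, zero_mul],
    ← i2.tsum_eq fun v hv => by
      by_contra hc
      refine hv ?_
      beta_reduce
      rw [(mean_BTH2 hN hg _ _).2, van_BTH2 hN h3 hg, zero_div, zero_mul, zero_mul]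
      rintro ⟨⟨k, hk⟩, l, hl⟩
      exact hc ⟨⟨l - k, k⟩, Prod.ext (by simp only [trw]; omega) hk.symm⟩,
    one_div_mul_one_div, cpow_BTH2 hA1, ← tsum_mul_left] at H
  rw [th0, th0, ← tsum_mul_left]
  refine (tsum_congr fun a => ?_).trans (H.trans (tsum_congr fun a => ?_))
  · rw [G_ph_BTH2, hL, add_assoc, ex, hn]
    congr 2
    rw [hA]
    field_simp
    ring
  · have e1 : (fun y : Zw => g y * ex ((trw y * (trw a : ℤ) + y.im * (3 * a.im : ℤ)) / (2 * N : ℕ)))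
        = fun y => g y * ex (trw (a * star y) / N) := by
      ext y
      congr 2
      simp [trw]
      field_simp
      ring
    have e2 : ex (τ * nw a / N) = cexp (-π / A * ((trw a : ℤ) / (2 * N : ℕ)) ^ 2 -
        π / (3 * A) * ((3 * a.im : ℤ) / (2 * N : ℕ)) ^ 2) := by
      rw [ex, hn, hA]
      congr 1
      push_cast
      field_simp
      linear_combination (4 * (trw a : ℂ) ^ 2 + 12 * (a.im : ℂ) ^ 2) * I_sq
    rw [(mean_BTH2 hN hg _ _).2, e1, e2, Fo, hL a]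
    generalize cexp _ = E
    generalize Mn (A := Zw) _ = M
    rw [hA]
    push_cast
    field_simp
    ring

end Pool.Agent.MP_e23604_nt.Z
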