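import Pool.Agent.MP_e23604_nt.Z.B1

/-!
Theta series on the imaginary axis: continuity, decay and integrability.
-/

set_option autoImplicit false

open Finset QuadraticAlgebra Filter Topology MeasureTheory Complex
open scoped Classical BigOperators UpperHalfPlane MatrixGroups ComplexConjugate Real

namespace Pool.Agent.MP_e23604_nt.Z

open W Un

theorem bd_BTHI : ∃ C : ℝ, 0 ≤ C ∧ ∀ (F : Zw → ℂ) (K v : ℝ), 0 ≤ K → 0 < v →
    (∀ a, ‖F a‖ ≤ K * ‖iz a‖ * Real.exp (-v * nw a)) →
    ‖∑' a, F a‖ ≤ K * (C * Real.exp (-v / 2) / v ^ 3) := by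
  obtain ⟨C, C0, hC⟩ := GZ 1
  refine ⟨C, C0, fun F K v K0 hv h => ?_⟩
  obtain ⟨s1, s2⟩ := hC v hv
  refine (tsum_of_norm_bounded (s1.mul_left K).hasSum fun a => (h a).trans ?_).trans ?_
  · split_ifs with e
    · simp [e]
    · rw [pow_one, mul_assoc]
      gcongr
      exact norm_iz_le a
  · rw [tsum_mul_left]
    exact mul_le_mul_of_nonneg_left s2 K0

theorem per_BTHI {p : Zw → ℂ} (hp : AP p) : ∃ N : ℕ, N ≠ 0 ∧ 3 ∣ N ∧ PN N p := by
  have : (St p).FiniteIndex := hp
  refine ⟨3 * (St p).index, mul_ne_zero three_ne_zero this.1, dvd_mul_right _ _, ?_⟩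
  rintro x z ⟨c, hc⟩
  have e : z = (St p).index • (-(pw * c)) := by
    refine mul_left_cancel₀ (a := (3 : Zw)) (by decide) ?_
    rw [nsmul_eq_mul]
    push_cast at hc
    linear_combination (-pw) * hc + z * pw_sq
  rw [e]
  exact (St p).nsmul_index_mem _ x

theorem THI_pf (h : TH2_st) : THI_st := by
  intro p hp
  obtain ⟨K, hK⟩ := hp.bdd
  have K0 : 0 ≤ K := (norm_nonneg _).trans (hK 0)
  have nt : ∀ (u : ℝ) (g : Zw), ‖p g * conj (iz g) * (Real.exp (-π * u * nw g) : ℝ)‖ ≤
      K * ‖iz g‖ * Real.exp (-(π * u) * nw g) := fun u g => by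
    rw [norm_mul, norm_mul, Complex.norm_conj, Complex.norm_real,
      Real.norm_of_nonneg (Real.exp_pos _).le, neg_mul π u]
    gcongr
    exact hK g
  have ct : ContinuousOn (Tq p) (Set.Ioi 0) := fun u (hu : 0 < u) => by
    have : ContinuousOn (Tq p) (Set.Ioi (u / 2)) := by
      refine continuousOn_tsum (fun g => Continuous.continuousOn (by fun_prop))
        ((sum_gz 1 (u := π * (u / 2)) (by positivity)).mul_left K) fun g v (hv : u / 2 < v) => ?_
      refine (nt v g).trans ?_
      have := nw_nn g
      rw [pow_one, mul_assoc, neg_mul, neg_mul]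
      gcongr
      exact norm_iz_le g
    exact (this.continuousAt (Ioi_mem_nhds (by linarith))).continuousWithinAt
  obtain ⟨C, C0, hC⟩ := bd_BTHI
  obtain ⟨N, N0, N3, hN⟩ := per_BTHI hp
  have N1 : (1 : ℝ) ≤ N := by exact_mod_cast Nat.pos_of_ne_zero N0
  have fo : ∀ a, ‖Fo N p a‖ ≤ N * K := fun a => by
    have a1 : AP fun y : Zw => ex (trw (a * star y) / N) := (Mn_zw N0 fun x y => by
      refine ex_congr (trw (a * star y)) ?_
      have : (N : ℂ) ≠ 0 := Nat.cast_ne_zero.2 N0
      rw [star_add, star_mul', star_natCast, mul_add, trw_add, mul_left_comm, ← Int.cast_natCast,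
        trw_int_mul]
      push_cast
      field_simp).1
    have a2 := Mn_norm_le (hp.mul a1) (c := K) fun y => by
      have := norm_ex_rat (trw (a * star y)) N
      rw [Int.cast_natCast] at this
      rw [norm_mul, this, mul_one]
      exact hK y
    have a3 : (1 : ℝ) ≤ √3 := Real.one_le_sqrt.2 (by norm_num)
    rw [Fo, norm_mul, norm_div, Complex.norm_natCast, Complex.norm_real,
      Real.norm_of_nonneg (by positivity)]
    gcongr
    exact div_le_self (by positivity) a3
  have pi3 := Real.pi_gt_three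
  have bd : ∀ u : ℝ, 0 < u → ‖Tq p u‖ ≤ (K * C + N * K * C * N ^ 4 * Real.exp 1) * Real.exp (-u) := by
    intro u hu
    rcases le_total 1 u with h1 | h1
    · refine (hC _ K (π * u) K0 (by positivity) (nt u)).trans ?_
      have e1 : Real.exp (-(π * u) / 2) ≤ Real.exp (-u) := Real.exp_le_exp.2 (by nlinarith)
      have e2 : 1 ≤ (π * u) ^ 3 := one_le_pow₀ (by nlinarith)
      calc _ ≤ K * (C * Real.exp (-u)) := by
            gcongr
            exact (div_le_self (by positivity) e2).trans (by gcongr)
        _ = (K * C + 0) * Real.exp (-u) := by ring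
        _ ≤ _ := by gcongr; positivity
    · obtain ⟨s, hs⟩ : ∃ s : ℝ, s = 2 / (u * N) := ⟨_, rfl⟩
      have s0 : 0 < s := by rw [hs]; positivity
      have im : (s * I : ℂ).im = s := by simp
      have nm : ‖(s * I : ℂ)‖ = s := by simp [abs_of_pos s0]
      have e := h N p (s * I) 0 ((starRingEnd ℂ).comp iz).toAddMonoidHom N0 N3 hN (by rwa [im])
      have e' : Tq p u = th0 N (fun a => p a * (0 + ((starRingEnd ℂ).comp iz).toAddMonoidHom a))
          (-1 / (s * I)) := tsum_congr fun a => by
        have : (N : ℂ) ≠ 0 := Nat.cast_ne_zero.2 N0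
        have : (u : ℂ) ≠ 0 := Complex.ofReal_ne_zero.2 hu.ne'
        show _ = p a * (0 + conj (iz a)) * _
        rw [zero_add, ex, Complex.ofReal_exp, hs]
        congr 2
        push_cast
        field_simp
      have k := hC (fun a => Fo N p a * (0 - s * I * ((starRingEnd ℂ).comp iz).toAddMonoidHom a) *
          ex (s * I * nw a / N)) (N * K * s) (2 * π * s / N) (by positivity) (by positivity)
        fun a => by
          rw [norm_mul, norm_mul, norm_ex_nw, im, zero_sub, _root_.norm_neg, norm_mul, nm, ← mul_assoc]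
          gcongr
          · exact fo a
          · exact (Complex.norm_conj _).le
      rw [e', e, norm_mul, norm_div, nm, Complex.norm_I, div_one]
      have e1 : Real.exp (-(2 * π * s / N) / 2) ≤ 1 := Real.exp_le_one_iff.2 (by
        have : 0 < 2 * π * s / N := by positivity
        linarith)
      have e2 : 1 ≤ Real.exp 1 * Real.exp (-u) := by
        rw [← Real.exp_add]
        exact Real.one_le_exp (by linarith)
      have e3 : u * 4 / (4 * π) ^ 3 ≤ 1 := by
        rw [div_le_one (by positivity)]
        have : (4 * 3 : ℝ) ^ 3 ≤ (4 * π) ^ 3 := by gcongr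
        linarith
      calc _ ≤ s * (N * K * s * (C * 1 / (2 * π * s / N) ^ 3)) := by
            refine mul_le_mul_of_nonneg_left (k.trans ?_) s0.le
            gcongr
        _ = N * K * C * N ^ 4 * (u * 4 / (4 * π) ^ 3) := by
            rw [hs]
            field_simp
            ring
        _ ≤ N * K * C * N ^ 4 * (Real.exp 1 * Real.exp (-u)) := by
            gcongr
            exact e3.trans e2
        _ = (0 + N * K * C * N ^ 4 * Real.exp 1) * Real.exp (-u) := by ring
        _ ≤ _ := by gcongr; positivity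
  refine ⟨ct, ⟨_, bd⟩, Integrable.mono' ((exp_neg_integrableOn_Ioi 0 one_pos).const_mul
    (K * C + N * K * C * N ^ 4 * Real.exp 1)) (ct.aestronglyMeasurable measurableSet_Ioi) ?_⟩
  filter_upwards [ae_restrict_mem measurableSet_Ioi] with u hu
  simpa using bd u hu

end Pool.Agent.MP_e23604_nt.Z
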