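import Pool.Agent.MP_e23604_nt.Z.B1

/-!
Unfolding on the upper half plane.
-/

set_option autoImplicit false

open Finset QuadraticAlgebra Filter Topology MeasureTheory Complex
open scoped Classical BigOperators UpperHalfPlane MatrixGroups ComplexConjugate Real

namespace Pool.Agent.MP_e23604_nt.Z

open W Un

theorem mp_BUF0 (γ : SL(2, ℤ)) : MeasurePreserving (fun τ : ℍ => γ • τ) volume volume :=
  measurePreserving_smul (Matrix.SpecialLinearGroup.mapGL ℝ γ) volume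

theorem int_BUF0 {E : Type} [NormedAddCommGroup E] [NormedSpace ℝ E] (f : ℍ → E) (γ : SL(2, ℤ)) :
    ∫ τ : ℍ, f (γ • τ) = ∫ τ, f τ :=
  integral_smul_eq_self f (g := Matrix.SpecialLinearGroup.mapGL ℝ γ)

theorem cnt_BUF0 : Countable SL(2, ℤ) :=
  Function.Injective.countable (f := fun γ : SL(2, ℤ) => (fun i j => γ.1 i j : Fin 2 → Fin 2 → ℤ))
    fun _ _ h => Subtype.ext h

theorem UF0_pf : UF0_st := by
  intro w h hw hh
  have := cnt_BUF0
  have hs : ∀ τ : ℍ, HasSum (fun γ : SL(2, ℤ) => w (γ⁻¹ • τ)) 1 := fun τ =>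
    (Equiv.inv SL(2, ℤ)).hasSum_iff.2 (hw.sum τ)
  have hn : ∀ (σ : ℍ) (z : ℂ), ‖(w σ : ℂ) * z‖ = w σ * ‖z‖ := fun σ z => by
    rw [norm_mul, Complex.norm_real, Real.norm_of_nonneg (hw.nn σ)]
  have hG : ∀ γ : SL(2, ℤ), Integrable fun τ : ℍ => (w (γ⁻¹ • τ) : ℂ) * h τ := fun γ =>
    hh.bdd_mul (c := 1)
      (Complex.measurable_ofReal.comp (hw.ms.comp (mp_BUF0 γ⁻¹).measurable)).aestronglyMeasurable
      (.of_forall fun τ => by
        rw [Complex.norm_real, Real.norm_of_nonneg (hw.nn _)]; exact hw.le _)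
  have hF : ∀ γ : SL(2, ℤ), Integrable fun τ : ℍ => (w τ : ℂ) * h (γ • τ) := fun γ => by
    have := (mp_BUF0 γ).integrable_comp_of_integrable (hG γ)
    simpa only [Function.comp_def, inv_smul_smul] using this
  have e1 : ∀ γ : SL(2, ℤ), ∫ τ : ℍ, (w τ : ℂ) * h (γ • τ) = ∫ τ : ℍ, (w (γ⁻¹ • τ) : ℂ) * h τ :=
    fun γ => by
      have := int_BUF0 (fun τ : ℍ => (w (γ⁻¹ • τ) : ℂ) * h τ) γ
      simpa only [inv_smul_smul] using this
  have e2 : ∀ γ : SL(2, ℤ),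
      ∫ τ : ℍ, ‖(w τ : ℂ) * h (γ • τ)‖ = ∫ τ : ℍ, ‖(w (γ⁻¹ • τ) : ℂ) * h τ‖ := fun γ => by
    have := int_BUF0 (fun τ : ℍ => ‖(w (γ⁻¹ • τ) : ℂ) * h τ‖) γ
    simpa only [inv_smul_smul] using this
  have sG : Summable fun γ : SL(2, ℤ) => ∫ τ : ℍ, ‖(w (γ⁻¹ • τ) : ℂ) * h τ‖ := by
    refine summable_of_sum_le (c := ∫ τ, ‖h τ‖) (fun γ => integral_nonneg fun _ => norm_nonneg _)
      fun u => ?_
    rw [← integral_finsetSum u fun γ _ => (hG γ).norm]
    refine integral_mono (integrable_finsetSum u fun γ _ => (hG γ).norm) hh.norm fun τ => ?_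
    simp only [hn, ← Finset.sum_mul]
    exact mul_le_of_le_one_left (norm_nonneg _) (sum_le_hasSum u (fun γ _ => hw.nn _) (hs τ))
  have a1 := (IT hF (by simpa only [e2] using sG)).2.2.2
  have a2 := (IT hG sG).2.2.2
  simp only [e1] at a1
  have a3 := a1.unique a2
  simp only [tsum_mul_left, tsum_mul_right] at a3
  rw [a3]
  refine integral_congr_ae (.of_forall fun τ => ?_)
  have : ∑' γ : SL(2, ℤ), (w (γ⁻¹ • τ) : ℂ) = 1 := by
    simpa using (Complex.hasSum_ofReal.2 (hs τ)).tsum_eq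
  simp only [this, one_mul]

end Pool.Agent.MP_e23604_nt.Z
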