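import Pool.Agent.MP_e23604_nt.Z.B1

/-!
Unfolding a sum over pairs of integers as a sum over the modular group.
-/

set_option autoImplicit false

open Finset QuadraticAlgebra Filter Topology MeasureTheory Complex
open scoped Classical BigOperators UpperHalfPlane MatrixGroups ComplexConjugate Real

namespace Pool.Agent.MP_e23604_nt.Z

open W Un

theorem act_BUF1 {Y : ℤ → ℤ → ℂ → ℂ} (hY : Iv Y) (γ : SL(2, ℤ)) :
    ∀ (v : Fin 2 → ℤ) (σ : ℍ), Y (v 0) (v 1) (γ • σ : ℍ) =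
      Y (Matrix.vecMul v γ.1 0) (Matrix.vecMul v γ.1 1) σ := by
  have hγ : γ ∈ Subgroup.closure {ModularGroup.S, ModularGroup.T} := by
    simp [SpecialLinearGroup.SL2Z_generators]
  induction hγ using Subgroup.closure_induction with
  | one => intro v σ; simp
  | mem g hg =>
    intro v σ
    rcases hg with rfl | rfl
    · have h := (hY (v 0) (v 1) σ σ.im_pos).2
      rw [UpperHalfPlane.modular_S_smul, UpperHalfPlane.coe_mk, inv_neg, ← one_div, ← neg_div, h]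
      simp [ModularGroup.coe_S, Matrix.vecMul, dotProduct, Fin.sum_univ_two]
    · have h := (hY (v 0) (v 1) σ σ.im_pos).1
      rw [UpperHalfPlane.modular_T_smul, UpperHalfPlane.coe_vadd, ofReal_one, add_comm, h]
      simp [ModularGroup.coe_T, Matrix.vecMul, dotProduct, Fin.sum_univ_two, add_comm]
  | mul g g' _ _ h h' =>
    intro v σ
    rw [mul_smul, h, h', Matrix.vecMul_vecMul, Matrix.SpecialLinearGroup.coe_mul]
  | inv g _ h =>
    intro v σ
    have := h (Matrix.vecMul v (g⁻¹).1) (g⁻¹ • σ)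
    rw [smul_inv_smul, Matrix.vecMul_vecMul, ← Matrix.SpecialLinearGroup.coe_mul, inv_mul_cancel,
      Matrix.SpecialLinearGroup.coe_one, Matrix.vecMul_one] at this
    exact this.symm

theorem row_BUF1 {Y : ℤ → ℤ → ℂ → ℂ} (hY : Iv Y) (γ : SL(2, ℤ)) (n : ℤ) (σ : ℍ) :
    Y 0 n (γ • σ : ℍ) = Y (n * γ 1 0) (n * γ 1 1) σ := by
  simpa [Matrix.vecMul, dotProduct, Fin.sum_univ_two] using act_BUF1 hY γ ![0, n] σ

theorem same_BUF1 {γ γ' : SL(2, ℤ)} (h0 : γ 1 0 = γ' 1 0) (h1 : γ 1 1 = γ' 1 1) :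
    ∃ n : ℤ, γ' = ModularGroup.T ^ n * γ := by
  have d := γ.det_coe
  have d' := γ'.det_coe
  rw [Matrix.det_fin_two] at d d'
  rw [← h0, ← h1] at d'
  refine ⟨γ' 0 1 * γ 0 0 - γ' 0 0 * γ 0 1, ?_⟩
  ext i j
  rw [Matrix.SpecialLinearGroup.coe_mul, ModularGroup.coe_T_zpow]
  fin_cases i <;> fin_cases j <;> simp [Matrix.mul_apply, Fin.sum_univ_two, h0.symm, h1.symm]
  · linear_combination (-γ' 0 0) * d + γ 0 0 * d'
  · linear_combination (-γ' 0 1) * d + γ 0 1 * d'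

theorem gcd_BUF1 (γ : SL(2, ℤ)) (d : ℕ) :
    Int.gcd (((d : ℤ) + 1) * γ 1 0) (((d : ℤ) + 1) * γ 1 1) = d + 1 := by
  rw [Int.gcd_mul_left, Int.isCoprime_iff_gcd_eq_one.1 (γ.isCoprime_row 1), mul_one]
  rfl

theorem UF1_pf : UF1_st := by
  intro Y τ hY h0 hs'
  let A : Set (SL(2, ℤ) × ℕ) := {p | 0 ≤ (p.1 • τ : ℍ).re ∧ (p.1 • τ : ℍ).re < 1}
  let φ : SL(2, ℤ) × ℕ → ℤ × ℤ := fun p => (((p.2 : ℤ) + 1) * p.1 1 0, ((p.2 : ℤ) + 1) * p.1 1 1)
  let F : ℤ × ℤ → ℂ := fun v => Y v.1 v.2 τ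
  have hi : Function.Injective fun a : A => φ a.1 := by
    rintro ⟨⟨γ, d⟩, ha⟩ ⟨⟨γ', d'⟩, ha'⟩ e
    obtain ⟨e0, e1⟩ : ((d : ℤ) + 1) * γ 1 0 = ((d' : ℤ) + 1) * γ' 1 0 ∧
        ((d : ℤ) + 1) * γ 1 1 = ((d' : ℤ) + 1) * γ' 1 1 := Prod.mk.inj e
    have hd : d = d' := by
      have := gcd_BUF1 γ d
      rw [e0, e1, gcd_BUF1] at this
      omega
    subst hd
    have hp : (d : ℤ) + 1 ≠ 0 := by positivity
    obtain ⟨n, rfl⟩ := same_BUF1 (mul_left_cancel₀ hp e0) (mul_left_cancel₀ hp e1)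
    have h1 : 0 ≤ (γ • τ : ℍ).re ∧ (γ • τ : ℍ).re < 1 := ha
    have h2 : 0 ≤ ((ModularGroup.T ^ n * γ) • τ : ℍ).re ∧
      ((ModularGroup.T ^ n * γ) • τ : ℍ).re < 1 := ha'
    rw [mul_smul, ModularGroup.re_T_zpow_smul] at h2
    have h3 : (-1 : ℤ) < n := by exact_mod_cast (by linarith [h1.2, h2.1] : (-1 : ℝ) < n)
    have h4 : n < (1 : ℤ) := by exact_mod_cast (by linarith [h1.1, h2.2] : (n : ℝ) < 1)
    obtain rfl : n = 0 := by omega
    simp
  have hsup : Function.support F ⊆ Set.range fun a : A => φ a.1 := by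
    rintro ⟨c, d⟩ hv
    have hg : 0 < Int.gcd c d := Int.gcd_pos_iff.2 (by
      by_contra hn
      push Not at hn
      exact hv (by show Y c d τ = 0; rw [hn.1, hn.2, h0]))
    obtain ⟨a, b, hab, hc, hd⟩ := Int.exists_gcd_one hg
    obtain ⟨γ, g0, g1⟩ := (Int.isCoprime_iff_gcd_eq_one.2 hab).exists_SL2_row 1
    obtain ⟨m, hm⟩ : ∃ m, Int.gcd c d = m + 1 := ⟨_, (Nat.succ_pred_eq_of_pos hg).symm⟩
    refine ⟨⟨(ModularGroup.T ^ (-⌊(γ • τ : ℍ).re⌋) * γ, m), ?_⟩, ?_⟩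
    · show 0 ≤ ((_ * γ) • τ : ℍ).re ∧ ((_ * γ) • τ : ℍ).re < 1
      rw [mul_smul, ModularGroup.re_T_zpow_smul]
      push_cast
      constructor <;> linarith [Int.floor_le (γ • τ : ℍ).re, Int.lt_floor_add_one (γ • τ : ℍ).re]
    · show (((m : ℤ) + 1) * (_ * γ : SL(2, ℤ)) 1 0, ((m : ℤ) + 1) * (_ * γ : SL(2, ℤ)) 1 1) = (c, d)
      rw [ModularGroup.T_pow_mul_apply_one, g0, g1]
      rw [hm] at hc hd
      push_cast at hc hd
      exact Prod.ext ((mul_comm _ _).trans hc.symm) ((mul_comm _ _).trans hd.symm)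
  have s1 : Summable (A.indicator fun p => F (φ p)) :=
    summable_subtype_iff_indicator.1 (Summable.comp_injective (f := F) hs' hi)
  calc ∑' v, F v = ∑' a : A, F (φ a.1) := (hi.tsum_eq hsup).symm
    _ = ∑' p, A.indicator (fun p => F (φ p)) p := tsum_subtype A fun p => F (φ p)
    _ = ∑' γ, ∑' d, A.indicator (fun p => F (φ p)) (γ, d) := s1.tsum_prod
    _ = _ := tsum_congr fun γ => by
      unfold hs
      split_ifs with h
      · exact tsum_congr fun d => by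
          rw [Set.indicator_of_mem (show (γ, d) ∈ A from h), row_BUF1 hY]
      · exact (tsum_congr fun d => Set.indicator_of_notMem (show (γ, d) ∉ A from h) _).trans
          tsum_zero

end Pool.Agent.MP_e23604_nt.Z
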