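import Pool.Agent.MP_e23604_nt.Z.B1

/-!
The second difference of the zeta function of a lattice.
-/

set_option autoImplicit false

open Finset QuadraticAlgebra Filter Topology MeasureTheory Complex
open scoped Classical BigOperators UpperHalfPlane MatrixGroups ComplexConjugate Real

namespace Pool.Agent.MP_e23604_nt.Z

open W Un

/-- one term -/
noncomputable def tw_BWPI (S l z : ℂ) : ℂ := 1 / (z + S - l) + 1 / (z - S - l) - 2 / (z - l)

theorem bound_BWPI {r : ℝ} (hr : 0 < r) (S : ℂ) {z l : ℂ} (hz : ‖z‖ < r)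
    (h : 2 * (r + ‖S‖) ≤ ‖l‖) : ‖tw_BWPI S l z‖ ≤ 16 * ‖S‖ ^ 2 * ‖l‖ ^ (-3 : ℝ) := by
  have hS := norm_nonneg S
  have l0 : 0 < ‖l‖ := by linarith
  have k : ∀ w : ℂ, ‖w‖ ≤ r + ‖S‖ → ‖l‖ / 2 ≤ ‖w - l‖ := fun w hw => by
    have := norm_sub_norm_le l w
    rw [norm_sub_rev] at this
    linarith
  have a := k (z + S) ((norm_add_le _ _).trans (by linarith))
  have b := k (z - S) ((norm_sub_le _ _).trans (by linarith))
  have c := k z (by linarith)
  have a0 : z + S - l ≠ 0 := norm_pos_iff.1 (by linarith)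
  have b0 : z - S - l ≠ 0 := norm_pos_iff.1 (by linarith)
  have c0 : z - l ≠ 0 := norm_pos_iff.1 (by linarith)
  have e : tw_BWPI S l z = 2 * S ^ 2 / ((z + S - l) * (z - S - l) * (z - l)) := by
    rw [tw_BWPI]
    field_simp
    ring
  rw [e, norm_div, norm_mul, norm_mul, norm_mul, norm_pow, Complex.norm_ofNat,
    Real.rpow_neg l0.le, ← div_eq_mul_inv, show (3 : ℝ) = (3 : ℕ) by norm_num, Real.rpow_natCast]
  calc _ ≤ 2 * ‖S‖ ^ 2 / (‖l‖ / 2 * (‖l‖ / 2) * (‖l‖ / 2)) := by gcongr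
    _ = _ := by
      field_simp
      ring

theorem sum_BWPI (L : PeriodPair) (S : ℂ) :
    HasSumLocallyUniformly (fun (l : L.lattice) (z : ℂ) => tw_BWPI S l z)
      fun z => ∑' l : L.lattice, tw_BWPI S l z := by
  refine L.hasSumLocallyUniformly_aux (u := fun _ l => 16 * ‖S‖ ^ 2 * ‖l‖ ^ (-3 : ℝ)) _
    (fun _ _ => (ZLattice.summable_norm_rpow _ _ (by simp; norm_num)).mul_left _) fun r hr =>
    Filter.eventually_atTop.mpr ⟨2 * (r + ‖S‖), ?_⟩
  rintro _ h s hs l rfl
  exact bound_BWPI hr S hs h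

theorem der_BWPI {S l z : ℂ} (a : z + S - l ≠ 0) (b : z - S - l ≠ 0) (c : z - l ≠ 0) :
    HasDerivAt (tw_BWPI S l) (-(1 / (z + S - l) ^ 2 - 1 / l ^ 2) -
      (1 / (z - S - l) ^ 2 - 1 / l ^ 2) + 2 * (1 / (z - l) ^ 2 - 1 / l ^ 2)) z := by
  have h := hasDerivAt_id' z
  refine ((((hasDerivAt_const z (1 : ℂ)).div ((h.add_const S).sub_const l) a).add
    ((hasDerivAt_const z (1 : ℂ)).div ((h.sub_const S).sub_const l) b)).sub
    ((hasDerivAt_const z (2 : ℂ)).div (h.sub_const l) c)).congr_deriv ?_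
  ring

theorem gen_BWPI (L : PeriodPair) {S : ℂ} (hS : S ∉ L.lattice) {z : ℂ} (h0 : z ∉ L.lattice)
    (h1 : z + S ∉ L.lattice) (h2 : z - S ∉ L.lattice) :
    ∑' l : L.lattice, tw_BWPI S l z = wq L z / (wp L z - wp L S) := by
  let U : Set ℂ := ((L.lattice : Set ℂ) ∪ {t | t + S ∈ L.lattice} ∪ {t | t + -S ∈ L.lattice})ᶜ
  have mU : ∀ t, t ∈ U ↔ t ∉ L.lattice ∧ t + S ∉ L.lattice ∧ t - S ∉ L.lattice := fun t => by
    simp only [U, Set.mem_compl_iff, Set.mem_union, not_or, Set.mem_ofPred_eq, SetLike.mem_coe,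
      and_assoc, sub_eq_add_neg]
  have oU : IsOpen U := isOpen_iff_eventually.2 fun t ht => by
    obtain ⟨a, b, c⟩ := (mU t).1 ht
    filter_upwards [near a, near_s b, near_s (d := -S) (by rwa [← sub_eq_add_neg])] with w a b c
    exact (mU w).2 ⟨a, b, by rwa [sub_eq_add_neg]⟩
  have cU : IsPreconnected U := conn (((cnt L).union (cnt_shift L S)).union (cnt_shift L (-S)))
  have ne : ∀ {w : ℂ}, w ∉ L.lattice → ∀ l : L.lattice, w - l ≠ 0 := fun hw l e =>
    hw (sub_eq_zero.1 e ▸ l.2)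
  have dt := fun (l : L.lattice) t (ht : t ∈ U) =>
    der_BWPI (ne ((mU t).1 ht).2.1 l) (ne ((mU t).1 ht).2.2 l) (ne ((mU t).1 ht).1 l)
  have T := (sum_BWPI L S).tendstoLocallyUniformlyOn (s := U)
  have dF : ∀ᶠ s : Finset L.lattice in atTop,
      DifferentiableOn ℂ (fun z => ∑ l ∈ s, tw_BWPI S l z) U :=
    .of_forall fun s => .fun_sum fun l _ t ht => (dt l t ht).differentiableAt.differentiableWithinAt
  have dE : ∀ t ∈ U, HasDerivAt (fun z => ∑' l : L.lattice, tw_BWPI S l z)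
      (-wp L (t + S) - wp L (t - S) + 2 * wp L t) t := fun t ht => by
    refine ((T.differentiableOn dF oU).differentiableAt (oU.mem_nhds ht)).hasDerivAt.congr_deriv
      (tendsto_nhds_unique ((T.deriv dF oU).tendsto_at ht) ?_)
    refine Tendsto.congr (fun s => ?_) (((L.hasSum_weierstrassP (t + S)).neg.sub
      (L.hasSum_weierstrassP (t - S))).add ((L.hasSum_weierstrassP t).mul_left 2))
    exact (HasDerivAt.fun_sum fun l _ => dt l t ht).deriv.symm
  have dR : ∀ t ∈ U, HasDerivAt (fun z => wq L z / (wp L z - wp L S))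
      (-wp L (t + S) - wp L (t - S) + 2 * wp L t) t := fun t ht => by
    obtain ⟨a, b, c⟩ := (mU t).1 ht
    have hx : wp L t - wp L S ≠ 0 := fun e => by
      rcases wp_eq hS a (sub_eq_zero.1 e).symm with h | h
      exacts [c h, b h]
    refine ((hd_q a).div ((hd_p a).sub_const _) hx).congr_deriv ?_
    have e1 := (add_thm a hS b).1
    have e2 := (add_thm (w := -S) a (by simpa using hS) (by rwa [← sub_eq_add_neg])).1
    rw [show wp L (-S) = wp L S from L.weierstrassP_neg S,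
      show wq L (-S) = -wq L S from L.derivWeierstrassP_neg S, ← sub_eq_add_neg t S] at e2
    rw [div_eq_iff (pow_ne_zero 2 hx)]
    linear_combination (e1 + e2) / 4 + (wq_sq hS - wq_sq a) / 2
  have hz := (mU z).2 ⟨h0, h1, h2⟩
  have hz' := (mU (-z)).2 ⟨by simpa using h0,
    fun h => h2 (by simpa [neg_add_eq_sub] using neg_mem h),
    fun h => h1 (by simpa [add_comm] using neg_mem h)⟩
  have := oU.is_const_of_deriv_eq_zero (𝕜 := ℂ) cU
    (f := fun z => ∑' l : L.lattice, tw_BWPI S l z - wq L z / (wp L z - wp L S))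
    (fun t ht => ((dE t ht).sub (dR t ht)).differentiableAt.differentiableWithinAt)
    (fun t ht => (((dE t ht).sub (dR t ht)).congr_deriv (sub_self _)).deriv) hz hz'
  have od : ∑' l : L.lattice, tw_BWPI S l (-z) = -∑' l : L.lattice, tw_BWPI S l z := by
    rw [← tsum_neg, ← (Equiv.neg L.lattice).tsum_eq]
    refine tsum_congr fun l => ?_
    simp only [tw_BWPI, Equiv.neg_apply, NegMemClass.coe_neg]
    rw [show -z + S - -(l : ℂ) = -(z - S - l) by ring, show -z - S - -(l : ℂ) = -(z + S - l) by ring,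
      show -z - -(l : ℂ) = -(z - l) by ring, div_neg, div_neg, div_neg]
    ring
  rw [od, show wp L (-z) = wp L z from L.weierstrassP_neg z,
    show wq L (-z) = -wq L z from L.derivWeierstrassP_neg z, neg_div] at this
  linear_combination this / 2

theorem WPI_pf : WPI_st := fun z S h0 hS h1 h2 => by
  rw [← gen_BWPI L1 hS h0 h1 h2]
  let e : Zw → L1.lattice := fun g => ⟨iz (-g), mem_L1.2 ⟨_, rfl⟩⟩
  have he : Function.Bijective e := ⟨fun a b h => neg_injective (iz_inj (congrArg Subtype.val h)),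
    fun l => by
      obtain ⟨b, hb⟩ := mem_L1.1 l.2
      exact ⟨-b, Subtype.ext (by simp [e, hb])⟩⟩
  rw [← (Equiv.ofBijective e he).tsum_eq]
  exact tsum_congr fun g => by simp [tw_BWPI, e]

end Pool.Agent.MP_e23604_nt.Z
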