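import Pool.Agent.MP_e23604_nt.Z.B1

/-!
A weight function for the modular group.
-/

set_option autoImplicit false

open Finset QuadraticAlgebra Filter Topology MeasureTheory Complex
open scoped Classical BigOperators UpperHalfPlane MatrixGroups ComplexConjugate Real

namespace Pool.Agent.MP_e23604_nt.Z

open W Un

theorem fin_BWT (τ : ℍ) : {γ : SL(2, ℤ) | γ • τ ∈ ModularGroup.fd}.Finite := by
  obtain ⟨g, hg⟩ := ModularGroup.exists_smul_mem_fd τ
  let T := ModularGroup.T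
  let S := ModularGroup.S
  let L : List SL(2, ℤ) :=
    [1, T, T⁻¹, S, T * S, T⁻¹ * S * T⁻¹, S * T⁻¹, S * T, T * S * T, T⁻¹ * S]
  refine (((L.finite_toSet.union (L.finite_toSet.image Neg.neg))).image (· * g)).subset
    fun γ hγ => ⟨γ * g⁻¹, ?_, inv_mul_cancel_right γ g⟩
  have := ModularGroup.cases_of_mem_fd_smul_mem_fd (g := γ * g⁻¹) hg
    (by rwa [smul_smul, inv_mul_cancel_right])
  generalize γ * g⁻¹ = x at this
  have k : ∀ y ∈ L, x = y ∨ x = -y → x ∈ {y | y ∈ L} ∪ Neg.neg '' {y | y ∈ L} :=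
    fun y hy h => h.imp (fun e => by rw [e]; exact hy) fun e => ⟨y, hy, e.symm⟩
  rcases this with h | ⟨h, -⟩ | ⟨h, -⟩ | ⟨h, -⟩ | ⟨h, -⟩ | ⟨h, -⟩ | ⟨h, -⟩ | ⟨h, -⟩ | ⟨h, -⟩ |
    ⟨h, -⟩ <;> exact k _ (by simp [L, T, S]) h

theorem WT_pf : WT_st := by
  let e : ℍ → ℝ := ModularGroup.fd.indicator 1
  have e0 : ∀ τ, 0 ≤ e τ := fun τ => Set.indicator_nonneg (fun _ _ => zero_le_one) τ
  have em : Measurable e := measurable_one.indicator ModularGroup.isClosed_fd.measurableSet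
  have es : ∀ τ : ℍ, Summable fun γ : SL(2, ℤ) => e (γ • τ) := fun τ =>
    summable_of_hasFiniteSupport ((fin_BWT τ).subset fun γ h =>
      Set.mem_of_indicator_ne_zero (s := ModularGroup.fd) (a := γ • τ) h)
  let n : ℍ → ℝ := fun τ => ∑' γ : SL(2, ℤ), e (γ • τ)
  have n1 : ∀ (τ : ℍ) (γ : SL(2, ℤ)), e (γ • τ) ≤ n τ := fun τ γ =>
    (es τ).le_tsum γ fun _ _ => e0 _
  have n0 : ∀ τ, 0 < n τ := fun τ => by
    obtain ⟨g, hg⟩ := ModularGroup.exists_smul_mem_fd τ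
    exact (one_pos.trans_eq (Set.indicator_of_mem hg (1 : ℍ → ℝ)).symm).trans_le (n1 τ g)
  have ni : ∀ (τ : ℍ) (g : SL(2, ℤ)), n (g • τ) = n τ := fun τ g => by
    simp only [n, smul_smul]
    exact (Equiv.mulRight g).tsum_eq fun γ => e (γ • τ)
  have : Countable SL(2, ℤ) := inferInstanceAs (Countable {A : Fin 2 → Fin 2 → ℤ // _})
  have nm : Measurable n := Measurable.tsum fun γ => em.comp
    (continuous_const_smul (Matrix.SpecialLinearGroup.mapGL ℝ γ)).measurable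
  refine ⟨fun τ => e τ / n τ, em.div nm, fun τ => div_nonneg (e0 τ) (n0 τ).le,
    fun τ => (div_le_one (n0 τ)).2 (by simpa using n1 τ 1), fun τ h => ?_, fun τ => ?_⟩
  · have h1 : τ ∈ ModularGroup.fd := Set.mem_of_indicator_ne_zero (div_ne_zero_iff.1 h).1
    have h2 := ModularGroup.three_le_four_mul_im_sq_of_mem_fd h1
    exact ⟨h1.2, by nlinarith [τ.im_pos]⟩
  · simp only [ni]
    exact div_self (n0 τ).ne' ▸ (es τ).hasSum.div_const (n τ)

end Pool.Agent.MP_e23604_nt.Z
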