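import Pool.Agent.MP_e23604_nt.Z.BPO1
import Pool.Agent.MP_e23604_nt.Z.BPO2
import Pool.Agent.MP_e23604_nt.Z.BTH2
import Pool.Agent.MP_e23604_nt.Z.BOT
import Pool.Agent.MP_e23604_nt.Z.BTHI
import Pool.Agent.MP_e23604_nt.Z.BMM
import Pool.Agent.MP_e23604_nt.Z.BSUB
import Pool.Agent.MP_e23604_nt.Z.BET1
import Pool.Agent.MP_e23604_nt.Z.BEF1
import Pool.Agent.MP_e23604_nt.Z.BEF2
import Pool.Agent.MP_e23604_nt.Z.BQEI
import Pool.Agent.MP_e23604_nt.Z.BLAW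
import Pool.Agent.MP_e23604_nt.Z.BQA
import Pool.Agent.MP_e23604_nt.Z.BLN0
import Pool.Agent.MP_e23604_nt.Z.BFF
import Pool.Agent.MP_e23604_nt.Z.BLINE
import Pool.Agent.MP_e23604_nt.Z.BWT
import Pool.Agent.MP_e23604_nt.Z.BUF0
import Pool.Agent.MP_e23604_nt.Z.BUF1
import Pool.Agent.MP_e23604_nt.Z.BMEAS
import Pool.Agent.MP_e23604_nt.Z.BINV
import Pool.Agent.MP_e23604_nt.Z.BRT1
import Pool.Agent.MP_e23604_nt.Z.BRT
import Pool.Agent.MP_e23604_nt.Z.BBIJ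
import Pool.Agent.MP_e23604_nt.Z.BFAC
import Pool.Agent.MP_e23604_nt.Z.BFUB
import Pool.Agent.MP_e23604_nt.Z.BPET
import Pool.Agent.MP_e23604_nt.Z.BM1A
import Pool.Agent.MP_e23604_nt.Z.BM1B
import Pool.Agent.MP_e23604_nt.Z.BM2
import Pool.Agent.MP_e23604_nt.Z.BMAIN
import Pool.Agent.MP_e23604_nt.Z.BTAN
import Pool.Agent.MP_e23604_nt.Z.BWPI
import Pool.Agent.MP_e23604_nt.Z.BDIS
import Pool.Agent.MP_e23604_nt.Z.BKDE
import Pool.Agent.MP_e23604_nt.W.All1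

/-!
The analytic statements, proved.
-/

set_option autoImplicit false

namespace Pool.Agent.MP_e23604_nt.Z

theorem TH2_ok : TH2_st := TH2_pf (PO2_pf PO1_pf)

theorem THS_ok : THS_st := THS_of TH2_ok

theorem THI_ok : THI_st := THI_pf TH2_ok

theorem MM_ok : MM_st := MM_pf THI_ok

theorem EFT_ok : EFT_st := EFT_of (ET1_pf PO1_pf) (EF1_pf (OT_pf PO1_pf)) (EF2_pf SUB_pf)

theorem LAW_ok : LAW_st := LAW_pf THS_ok

theorem FF_ok : FF_st := FF_pf TH2_ok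

theorem LINE_ok : LINE_st := LINE_pf QA_pf LN0_pf FF_ok

theorem MAIN_ok : MAIN_st :=
  MAIN_pf WT_pf (QEI_pf EFT_ok) LINE_ok LAW_ok (RT_pf RT1_pf)
    (M1A_pf LAW_ok FF_ok INV_pf UF0_pf UF1_pf MEAS_pf) (M1B_pf BIJ_pf FAC_pf)
    (M2_pf (PET_pf EFT_ok MEAS_pf) EFT_ok LINE_ok) FUB_pf THI_ok

theorem KDE_ok : KDE_st := KDE_pf MM_ok TAN_pf WPI_pf DIS_pf W.CARD_ok

end Pool.Agent.MP_e23604_nt.Z
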