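import Pool.Agent.MP_e23604_nt.Z.B1

/-!
Pairs of numbers of equal norm and products.
-/

set_option autoImplicit false

open Finset QuadraticAlgebra Filter Topology MeasureTheory Complex
open scoped Classical BigOperators UpperHalfPlane MatrixGroups ComplexConjugate Real

namespace Pool.Agent.MP_e23604_nt.Z

open W Un

theorem prim_BBIJ {g : Zw} : IsCoprime g.re g.im ↔ ∀ n : ℤ, (n : Zw) ∣ g → IsUnit (n : Zw) := by
  constructor
  · rintro h n ⟨c, rfl⟩
    exact (h.isUnit_of_dvd' (x := n) ⟨c.re, by simp⟩ ⟨c.im, by simp⟩).map (Int.castRingHom Zw)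
  · intro h
    have := nn_unit.1 (h _ (intCast_dvd (Int.gcd_dvd_left g.re g.im) (Int.gcd_dvd_right _ _)))
    rw [Int.cast_natCast, nn_nat] at this
    exact Int.isCoprime_iff_gcd_eq_one.2 (Nat.pow_eq_one.1 this |>.resolve_right two_ne_zero)

theorem unit_BBIJ {g u : Zw} (hu : IsUnit u) (h : IsCoprime g.re g.im) :
    IsCoprime (u * g).re (u * g).im :=
  prim_BBIJ.2 fun n hn => prim_BBIJ.1 h n (hu.dvd_mul_left.1 hn)

theorem ex_BBIJ {z : Zw} (h : z ≠ 0) :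
    ∃ (d : ℕ) (g : Zw), IsCoprime g.re g.im ∧ z = (d + 1) * g := by
  have h0 : 0 < Int.gcd z.re z.im := Int.gcd_pos_iff.2 (by
    by_contra e
    push Not at e
    exact h (QuadraticAlgebra.ext e.1 e.2))
  obtain ⟨m, n, h1, h2, h3⟩ := Int.exists_gcd_one h0
  obtain ⟨d, hd⟩ := Nat.exists_eq_succ_of_ne_zero h0.ne'
  rw [hd] at h2 h3
  refine ⟨d, ⟨m, n⟩, Int.isCoprime_iff_gcd_eq_one.2 h1, ?_⟩
  ext <;> simp [h2, h3] <;> ring

theorem uniq_BBIJ {d d' : ℕ} {g g' : Zw} (h : IsCoprime g.re g.im) (h' : IsCoprime g'.re g'.im)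
    (e : (d + 1) * g = (d' + 1) * g') : d = d' := by
  have key : ∀ (d : ℕ) (g : Zw), IsCoprime g.re g.im →
      Int.gcd ((d + 1) * g).re ((d + 1) * g).im = d + 1 := fun d g h => by
    have e1 : ((d + 1) * g).re = (d + 1 : ℕ) * g.re := by simp
    have e2 : ((d + 1) * g).im = (d + 1 : ℕ) * g.im := by simp
    rw [e1, e2, Int.gcd_mul_left, Int.isCoprime_iff_gcd_eq_one.1 h, Int.natAbs_natCast, mul_one]
  have := key d g h
  rw [e, key d' g' h'] at this
  omega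

theorem cop_BBIJ {g : Zw} (h : IsCoprime g.re g.im) (h3 : ¬ pw ∣ g) : IsCoprime g (star g) := by
  obtain ⟨a, b, e⟩ := h
  obtain ⟨c, f, e'⟩ := pw_prime.coprime_iff_not_dvd.2 h3
  have e1 : g - star g = g.im * pw := by ext <;> simp [pw] <;> ring
  have e2 : (ω : Zw) * star g - (ω : Zw) ^ 2 * g = g.re * pw := by ext <;> simp [pw, pow_two] <;> ring
  have e3 : (a : Zw) * g.re + b * g.im = 1 := by exact_mod_cast congrArg (Int.cast : ℤ → Zw) e
  exact ⟨f + c * ((b : Zw) - (a : Zw) * (ω : Zw) ^ 2), c * ((a : Zw) * (ω : Zw) - (b : Zw)), by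
    linear_combination e' + c * b * e1 + c * a * e2 + c * pw * e3⟩

theorem ep_BBIJ {v b : Zw} (hv : IsUnit v) (h : Pry b) : ep (v * b) * (v * b) = b := by
  obtain ⟨v, rfl⟩ := hv
  rw [ep_eq (u := ↑v⁻¹) (Units.isUnit _) (by rwa [Units.inv_mul_cancel_left]),
    Units.inv_mul_cancel_left]

theorem us_BBIJ {u : Zw} (h : IsUnit u) : u * star u = 1 := by
  rw [mul_star_nn, nn_unit.1 h, Nat.cast_one]

theorem pry_BBIJ {g u : Zw} (h : Pry g) (hu : IsUnit u) (h' : Pry (u * g)) : u = 1 :=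
  (ep_eq hu h').symm.trans (ep_eq isUnit_one (by rwa [one_mul]))

/-- the six units -/
def un_BBIJ : Fin 6 → Zw := ![1, ω, ω ^ 2, -1, -ω, -ω ^ 2]

theorem un1_BBIJ (i : Fin 6) : IsUnit (un_BBIJ i) := nn_unit.2 (by revert i; decide)

theorem un2_BBIJ : Function.Injective un_BBIJ := by decide

theorem un3_BBIJ {u : Zw} (h : IsUnit u) : ∃ i, un_BBIJ i = u := by
  obtain ⟨i, e⟩ := unit6 h
  rw [pow_eq_pow_mod i www] at e
  have hi : i % 3 < 3 := Nat.mod_lt _ three_pos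
  generalize i % 3 = j at *
  interval_cases j <;> rcases e with rfl | rfl <;> decide

theorem BIJ_pf : BIJ_st := by
  intro F F' s hF h1 h2 h3
  let A := {x : ℕ × Zw × Zw // IsCoprime x.2.2.re x.2.2.im ∧ Pry x.2.2 ∧ ¬ pw ∣ x.2.1}
  let Φ : A → ℕ × Zw × Zw := fun x =>
    (x.1.1, x.1.2.1 * star x.1.2.2, ep (x.1.2.1 * x.1.2.2) * (x.1.2.1 * x.1.2.2))
  let Ψ : A × Fin 6 → Zw × Zw := fun x =>
    (x.1.1.2.1 * un_BBIJ x.2, (x.1.1.1 + 1) * (un_BBIJ x.2 * x.1.1.2.2))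
  have np : ∀ {k g : Zw}, ¬ pw ∣ k → Pry g → ¬ pw ∣ k * g := fun hk hg e =>
    (pw_prime.dvd_or_dvd e).elim hk hg.pw
  have i1 : Function.Injective Φ := by
    rintro ⟨⟨d, k, g⟩, c, p, hk⟩ ⟨⟨d', k', g'⟩, c', p', hk'⟩ e
    simp only [Φ, Prod.mk.injEq] at e
    obtain ⟨rfl, e1, e2⟩ := e
    have u := (ep_spec (np hk p)).1
    have u' := (ep_spec (np hk' p')).1
    have k0 : k * k' ≠ 0 := mul_ne_zero (fun e => hk (by rw [show k = 0 from e]; simp))
      fun e => hk' (by rw [show k' = 0 from e]; simp)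
    have e3 : ep (k * g) * (g * star g') = ep (k' * g') * (g' * star g) :=
      mul_left_cancel₀ k0 (by linear_combination k' * star g' * e2 - ep (k' * g') * k' * g' * e1)
    have d1 : g ∣ g' := (cop_BBIJ c p.pw).dvd_of_dvd_mul_right
      (u'.dvd_mul_left.1 (e3 ▸ (dvd_mul_right _ _).mul_left _))
    have d2 : g' ∣ g := (cop_BBIJ c' p'.pw).dvd_of_dvd_mul_right
      (u.dvd_mul_left.1 (e3 ▸ (dvd_mul_right _ _).mul_left _))
    obtain ⟨v, rfl⟩ := associated_of_dvd_dvd d1 d2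
    have hv := pry_BBIJ p v.isUnit (by rwa [mul_comm])
    simp only [hv, mul_one] at e1
    have := mul_right_cancel₀ (star_ne_zero.2 p.ne) e1
    simp only [hv, mul_one, this]
  have s1 : ∀ y, y ∉ Set.range Φ → F y = 0 := by
    rintro ⟨d, a, b⟩ hy
    by_contra h0
    obtain ⟨hn, pb⟩ := h1 d a b h0
    obtain ⟨s', r, k, c, rfl, rfl⟩ := UniqueFactorizationMonoid.exists_reduced_factors' a b pb.ne
    rw [nw_mul, nw_mul, mul_right_inj' (nw_pos (left_ne_zero_of_mul pb.ne)).ne'] at hn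
    have r0 := right_ne_zero_of_mul pb.ne
    obtain ⟨u, hu⟩ : r ∣ star s' := c.symm.dvd_of_dvd_mul_left (by
      rw [mul_star_eq, hn, ← mul_star_eq]
      exact dvd_mul_right _ _)
    have uu : IsUnit u := nn_unit.2 (by
      have := congrArg nw hu
      rw [nw_star, nw_mul, hn, ← nn_cast u] at this
      exact_mod_cast (mul_eq_left₀ (nw_pos r0).ne').1 this.symm)
    have g3 : ¬ pw ∣ star s' := fun e => pb.pw ((uu.dvd_mul_right.1 (hu ▸ e)).mul_left k)
    have gp : IsCoprime (star s').re (star s').im := prim_BBIJ.2 fun n hn =>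
      c (by
        obtain ⟨z, hz⟩ := hn
        exact ⟨star z, by simpa using congrArg star hz⟩) (uu.dvd_mul_right.1 (hu ▸ hn))
    obtain ⟨e1, e2⟩ := ep_spec g3
    refine hy ⟨⟨(d, k * ep (star s'), ep (star s') * star s'), unit_BBIJ e1 gp, e2, fun e =>
      pb.pw ((e1.dvd_mul_right.1 e).mul_right r)⟩, ?_⟩
    simp only [Φ, Prod.mk.injEq, true_and]
    constructor
    · rw [star_mul, star_star]
      linear_combination k * s' * us_BBIJ e1
    · rw [← ep_BBIJ ((e1.mul e1).mul uu) pb]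
      congr 1 <;> [congr 1; skip] <;> linear_combination k * ep (star s') ^ 2 * hu
  have i2 : Function.Injective Ψ := by
    rintro ⟨⟨⟨d, k, g⟩, c, p, hk⟩, i⟩ ⟨⟨⟨d', k', g'⟩, c', p', hk'⟩, i'⟩ e
    simp only [Ψ, Prod.mk.injEq] at e
    obtain ⟨e1, e2⟩ := e
    obtain rfl := uniq_BBIJ (unit_BBIJ (un1_BBIJ i) c) (unit_BBIJ (un1_BBIJ i') c') e2
    have e3 := mul_left_cancel₀ (Nat.cast_add_one_ne_zero d) e2
    obtain rfl : g = g' := (ep_BBIJ (un1_BBIJ i) p).symm.trans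
      ((congrArg (fun z => ep z * z) e3).trans (ep_BBIJ (un1_BBIJ i') p'))
    obtain rfl := un2_BBIJ (mul_right_cancel₀ p.ne e3)
    obtain rfl := mul_right_cancel₀ (un1_BBIJ i).ne_zero e1
    rfl
  have s2 : ∀ v, v ∉ Set.range Ψ → F' v = 0 := by
    rintro ⟨k, z⟩ hv
    by_cases z0 : z = 0
    · rw [z0, h2]
    obtain ⟨d, g, c, rfl⟩ := ex_BBIJ z0
    rw [h3 d k g c, if_pos]
    by_contra h0
    obtain ⟨e1, e2⟩ := ep_spec (a := g) fun e => h0 (e.mul_left k)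
    obtain ⟨i, hi⟩ := un3_BBIJ e1.star
    refine hv ⟨(⟨(d, k * ep g, ep g * g), unit_BBIJ e1 c, e2, fun e =>
      h0 ((e1.dvd_mul_right.1 e).mul_right g)⟩, i), ?_⟩
    simp only [Ψ, Prod.mk.injEq, hi]
    exact ⟨by linear_combination k * us_BBIJ e1, by linear_combination (d + 1) * g * us_BBIJ e1⟩
  have a : HasSum (fun x => F (Φ x)) s := (i1.hasSum_iff s1).2 hF
  have b : HasSum (fun x : A × Fin 6 => F (Φ x.1) * 1) (s * ∑ _ : Fin 6, (1 : ℂ)) :=
    a.mul (hasSum_fintype fun _ : Fin 6 => (1 : ℂ))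
      (summable_mul_of_summable_norm (f := fun x => F (Φ x)) (g := fun _ : Fin 6 => (1 : ℂ))
        a.summable.norm (hasSum_fintype _).summable)
  rw [show s * ∑ _ : Fin 6, (1 : ℂ) = 6 * s by simp [mul_comm]] at b
  refine (i2.hasSum_iff s2).1 (b.congr_fun ?_)
  rintro ⟨⟨⟨d, k, g⟩, c, p, hk⟩, i⟩
  have u := un1_BBIJ i
  simp only [Function.comp, Ψ, Φ, mul_one]
  rw [h3 d _ _ (unit_BBIJ u c), if_neg fun e => np hk p ((u.mul u).dvd_mul_left.1 (by
    convert e using 1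
    ring))]
  congr 2
  rw [star_mul, Prod.mk.injEq]
  refine ⟨by linear_combination k * star g * us_BBIJ u, ?_⟩
  obtain ⟨e1, e2⟩ := ep_spec (a := k * g) (np hk p)
  rw [← ep_BBIJ ((u.mul u).mul e1.star) e2]
  congr 1 <;> [congr 1; skip] <;> linear_combination -k * g * un_BBIJ i ^ 2 * us_BBIJ e1

end Pool.Agent.MP_e23604_nt.Z
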