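import Pool.Agent.MP_e23604_nt.Z.AD
import Pool.Agent.MP_e23604_nt.Un.Lio
import Pool.Agent.MP_e23604_nt.W.A0

/-!
Eisenstein kernels, theta integrals and unfolding: definitions and statements.
-/

set_option autoImplicit false

open Finset QuadraticAlgebra Filter Topology MeasureTheory Complex
open scoped Classical BigOperators UpperHalfPlane MatrixGroups ComplexConjugate Real

namespace Pool.Agent.MP_e23604_nt.Z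

open W Un

/-! ### Definitions -/

/-- periodic in both arguments -/
def P2 (N : ℕ) (f : ℤ → ℤ → ℂ) : Prop := ∀ c d, f (c + N) d = f c d ∧ f c (d + N) = f c d

/-- finite Fourier coefficients -/
noncomputable def hat (N : ℕ) (h : ℤ → ℂ) (x : ℤ) : ℂ := Mn fun d : ℤ => h d * ex (d * x / N)

/-- the odd theta series -/
noncomputable def ot (h : ℤ → ℂ) (u : ℝ) : ℂ :=
  ∑' n : ℤ, h n * (n * Real.exp (-π * u * n ^ 2) : ℝ)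

/-- the kernel -/
noncomputable def kr (t : ℝ) (c d : ℤ) (τ : ℂ) : ℂ :=
  conj (c * τ + d) * (Real.exp (-π * t * normSq (c * τ + d) / τ.im) * (π / τ.im) : ℝ)

/-- the regularised Eisenstein sum of weight one -/
noncomputable def Et (f : ℤ → ℤ → ℂ) (τ : ℂ) (t : ℝ) : ℂ :=
  ∑' v : ℤ × ℤ, f v.1 v.2 * kr t v.1 v.2 τ

/-- the Fourier transform of the kernel -/
noncomputable def sb (c x y t : ℝ) : ℝ :=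
  (c + x / t) * √(y / t) * Real.exp (-π * y * (x ^ 2 / t + t * c ^ 2))

/-- the degenerate terms -/
noncomputable def ea (N : ℕ) (f : ℤ → ℤ → ℂ) (y t : ℝ) : ℂ :=
  π / y * ot (f 0) (t / y) - I * π * √(y / t) * ot (fun c => hat N (f c) 0) (t * y)

/-- the main terms -/
noncomputable def ec (N : ℕ) (f : ℤ → ℤ → ℂ) (τ : ℂ) (t : ℝ) : ℂ :=
  -I * π * ∑' v : ℤ × ℤ, if v.1 ≠ 0 ∧ v.2 ≠ 0 then
    hat N (f v.1) v.2 * ex (v.1 * v.2 * τ.re / N) * sb v.1 (v.2 / N) τ.im t else 0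

/-- the holomorphic series -/
noncomputable def hqs (N : ℕ) (f : ℤ → ℤ → ℂ) (τ : ℂ) : ℂ :=
  ∑' v : ℕ × ℕ, if v.1 ≠ 0 ∧ v.2 ≠ 0 then hat N (f v.1) v.2 * ex (v.1 * v.2 * τ / N) else 0

/-- theta series as weights -/
noncomputable def GG (N : ℕ) (X : Zw → ℤ → ℤ → ℂ) (τ : ℂ) (c d : ℤ) : ℂ :=
  th0 N (fun a => X a c d) τ

/-- the regularised form of weight two -/
noncomputable def It (N : ℕ) (X : Zw → ℤ → ℤ → ℂ) (t : ℝ) (τ : ℂ) : ℂ := Et (GG N X τ) τ t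

/-- the form of weight two -/
noncomputable def II (N : ℕ) (X : Zw → ℤ → ℤ → ℂ) (τ : ℂ) : ℂ :=
  ∫ t in Set.Ioi (0 : ℝ), It N X t τ

/-- bounded, periodic, odd weights -/
structure Bd (N : ℕ) (X : Zw → ℤ → ℤ → ℂ) : Prop where
  pos : N ≠ 0
  bd : ∃ K : ℝ, ∀ a c d, ‖X a c d‖ ≤ K
  per : ∀ a, P2 N (X a)
  odd : ∀ a c d, X a (-c) (-d) = -X a c d

/-- the coefficients -/
noncomputable def con (N : ℕ) (X : Zw → ℤ → ℤ → ℂ) (n : ℕ) : ℂ :=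
  ∑ a ∈ bl n, ∑ c ∈ (n - nn a).divisors,
    Mn fun d : ℤ => X a c d * ex (d * ((n - nn a) / c : ℕ) / N)

theorem co_eq (N : ℕ) (X : Zw → ℤ → ℤ → ℂ) : co N X = con N X (N / 3) := rfl

/-- the numbers of norm `n` -/
noncomputable def sp (n : ℕ) : Finset Zw := (bl (n + 1)).filter fun a => nn a = n

theorem mem_sp {n : ℕ} {a : Zw} : a ∈ sp n ↔ nn a = n := by
  rw [sp, mem_filter, mem_bl]
  omega

/-- expansions at infinity -/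
def QE (N : ℕ) (g : ℂ → ℂ) (B : ℕ → ℂ) : Prop :=
  ∀ τ : ℂ, 0 < τ.im → HasSum (fun n : ℕ => B n * ex (n * τ / N)) (g τ)

/-- exponential decay -/
def Dk (κ : ℝ) (g : ℂ → ℂ) : Prop :=
  ∃ C : ℝ, ∀ τ : ℂ, 1 / 2 ≤ τ.im → ‖g τ‖ ≤ C * Real.exp (-2 * π * κ * τ.im)

/-- the cusp form -/
noncomputable def ff (τ : ℂ) : ℂ := th0 3 (fun a => if Pry a then iz a else 0) τ

/-- the cusp form at the other cusp -/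
noncomputable def f1 (τ : ℂ) : ℂ := ff (-1 / τ) / τ ^ 2

/-- the unit that makes a number primary -/
noncomputable def ep (a : Zw) : Zw :=
  if pw ∣ a then 0 else Classical.epsilon fun u => IsUnit u ∧ Pry (u * a)

/-- theta series on the imaginary axis -/
noncomputable def Tq (p : Zw → ℂ) (u : ℝ) : ℂ :=
  ∑' g : Zw, p g * conj (iz g) * (Real.exp (-π * u * nw g) : ℝ)

/-- the regularised sum of `p g / g` -/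
noncomputable def Mq (p : Zw → ℂ) : ℂ := π * ∫ u in Set.Ioi (0 : ℝ), Tq p u

/-- the Bessel integral -/
noncomputable def K0 (s : ℝ) : ℝ := ∫ y in Set.Ioi (0 : ℝ), Real.exp (-s / y - y) / y

/-- weight functions for the modular group -/
structure Wt (w : ℍ → ℝ) : Prop where
  ms : Measurable w
  nn : ∀ τ, 0 ≤ w τ
  le : ∀ τ, w τ ≤ 1
  sup : ∀ τ, w τ ≠ 0 → |τ.re| ≤ 1 / 2 ∧ 1 / 2 ≤ τ.im
  sum : ∀ τ : ℍ, HasSum (fun γ : SL(2, ℤ) => w (γ • τ)) 1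

/-- invariant families -/
def Iv (Y : ℤ → ℤ → ℂ → ℂ) : Prop := ∀ c d (τ : ℂ), 0 < τ.im →
  Y c d (τ + 1) = Y c (d + c) τ ∧ Y c d (-1 / τ) = Y d (-c) τ

/-- the unfolded function -/
noncomputable def hs (Y : ℤ → ℤ → ℂ → ℂ) (τ : ℂ) : ℂ :=
  if 0 ≤ τ.re ∧ τ.re < 1 then ∑' d : ℕ, Y 0 (d + 1) τ else 0

/-- the sum over four cosets -/
def YY (H₀ H₁ : ℤ → ℤ → ℂ → ℂ) (c d : ℤ) (τ : ℂ) : ℂ :=
  H₀ c d τ + (H₁ c d τ + H₁ c (d - c) (τ + 1) + H₁ c (d - 2 * c) (τ + 2))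

/-- the sum over four cosets of products with the cusp form -/
noncomputable def S4 (F₀ F₁ : ℂ → ℂ) (τ : ℂ) : ℂ :=
  (F₀ τ * conj (ff τ) + (F₁ τ * conj (f1 τ) + F₁ (τ + 1) * conj (f1 (τ + 1)) +
    F₁ (τ + 2) * conj (f1 (τ + 2)))) * τ.im ^ 2

/-- the integrand on the strip -/
noncomputable def st (h : Zw → ℤ → ℂ) (t : ℝ) (τ : ℂ) : ℂ :=
  hs (fun c d σ => th0 3 (fun a => h a d) σ * kr t c d σ * conj (ff σ)) τ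

/-- the half plane in real coordinates -/
def HP : Set (ℝ × ℝ) := Set.univ ×ˢ Set.Ioi 0

/-- the terms of the unfolded sum -/
noncomputable def tm (h : Zw → ℤ → ℂ) (t : ℝ) (i : ℕ × Zw × Zw) : ℂ :=
  if nw i.2.1 = nw i.2.2 ∧ Pry i.2.2 then h i.2.1 (i.1 + 1) * conj (iz i.2.2) * (i.1 + 1) *
    (π * K0 (4 * π ^ 2 * t * (i.1 + 1) ^ 2 * nw i.2.2 / 3) : ℝ) else 0

/-- the values at the cusp split into products -/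
structure Fac {ι : Type} (h : Zw → ℤ → ℂ) (s : Finset ι) (p q : ι → Zw → ℂ) : Prop where
  ap : ∀ i ∈ s, AP (p i) ∧ AP (q i)
  eq : ∀ (d : ℕ) (k g : Zw), 0 < d → IsCoprime g.re g.im →
    h (k * star g) d * conj (iz (ep (k * g))) = ∑ i ∈ s, p i k * q i (d * g)

/-- the regularised Eisenstein-Kronecker sum -/
noncomputable def Ke (ε : ℝ) (z : ℂ) : ℂ :=
  ∑' g : Zw, (Real.exp (-π * ε * normSq (z + iz g)) : ℝ) / (z + iz g)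

/-- the indicator of a residue class -/
noncomputable def rc (m x : Zw) (g : Zw) : ℂ := if m ∣ g - x then 1 else 0

/-! ### Results -/

/-- the main identity -/
def MAIN_st : Prop := ∃ C : ℂ, ∀ (N : ℕ) (X X' Y Y' : Zw → ℤ → ℤ → ℂ) (μ : Zw) (ι : Type)
  (s : Finset ι) (p q : ι → Zw → ℂ), Sys N 1 X X' → Sys N 2 Y Y' →
  (∀ a c d, 3 * nn a = N → X a c d + Y a c d = 0) → 3 * nn μ = N →
  (∀ a d, ¬ μ ∣ a → X a 0 d = 0) → Fac (fun a d => X (μ * a) 0 d) s p q →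
  ∑ i ∈ s, Mq (p i) * Mq (q i) = C * co N fun a c d => X a c d + Y a c d

/-- additivity and the limit formula -/
def MM_st : Prop :=
  (∀ (ι : Type) (s : Finset ι) (c : ι → ℂ) (p : ι → Zw → ℂ), (∀ i ∈ s, AP (p i)) →
    Mq (fun g => ∑ i ∈ s, c i * p i g) = ∑ i ∈ s, c i * Mq (p i)) ∧
  ∀ p : Zw → ℂ, AP p → Tendsto
    (fun ε : ℝ => ∑' g : Zw, p g * (Real.exp (-π * ε * nw g) : ℝ) / iz g) (𝓝[>] 0) (𝓝 (Mq p))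

/-- the logarithmic derivative at torsion points -/
def KDE_st : Prop := ∀ (a m x : Zw) (Q : Pt), m ≠ 0 → a ≠ 0 → lg Q - Om / iz m ∈ L0.lattice →
  ¬ m ∣ a * x →
  eC (de a (x • Q)) = 2 * iz m / Om * (nn a * Mq (rc m x) - iz a * Mq (rc m (a * x)))

/-! ### Poisson summation -/

def PO1_st : Prop := ∀ (N : ℕ) (h : ℤ → ℂ) (a b : ℂ), N ≠ 0 → (∀ n, h (n + N) = h n) → 0 < a.re →
  ∑' n : ℤ, h n * cexp (-π * a * n ^ 2 + 2 * π * b * n) =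
    1 / a ^ (1 / 2 : ℂ) * ∑' x : ℤ, hat N h x * cexp (-π / a * (x / N + I * b) ^ 2) ∧
  ∑' n : ℤ, h n * n * cexp (-π * a * n ^ 2 + 2 * π * b * n) =
    -I / a * (1 / a ^ (1 / 2 : ℂ)) *
      ∑' x : ℤ, hat N h x * (x / N + I * b) * cexp (-π / a * (x / N + I * b) ^ 2)

def PO2_st : Prop := ∀ (N : ℕ) (G : ℤ → ℤ → ℂ) (a b α β γ : ℂ), N ≠ 0 → P2 N G → 0 < a.re →
  0 < b.re →
  ∑' v : ℤ × ℤ, G v.1 v.2 * (α + β * v.1 + γ * v.2) * cexp (-π * a * v.1 ^ 2 - π * b * v.2 ^ 2) =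
    1 / a ^ (1 / 2 : ℂ) * (1 / b ^ (1 / 2 : ℂ)) * ∑' v : ℤ × ℤ,
      (Mn fun p : ℤ × ℤ => G p.1 p.2 * ex ((p.1 * v.1 + p.2 * v.2) / N)) *
        (α - I * β / a * (v.1 / N) - I * γ / b * (v.2 / N)) *
          cexp (-π / a * (v.1 / N) ^ 2 - π / b * (v.2 / N) ^ 2)

def TH2_st : Prop := ∀ (N : ℕ) (g : Zw → ℂ) (τ α : ℂ) (L : Zw →+ ℂ), N ≠ 0 → 3 ∣ N → PN N g →
  0 < τ.im → th0 N (fun a => g a * (α + L a)) (-1 / τ) =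
    τ / I * th0 N (fun a => Fo N g a * (α - τ * L a)) τ

def OT_st : Prop := ∀ N : ℕ, N ≠ 0 → ∃ C : ℝ, ∀ (h : ℤ → ℂ) (K : ℝ), (∀ n, h (n + N) = h n) →
  (∀ n, ‖h n‖ ≤ K) → ContinuousOn (ot h) (Set.Ioi 0) ∧
    ∀ u : ℝ, 0 < u → ‖ot h u‖ ≤ C * K * Real.exp (-u)

def THI_st : Prop := ∀ p : Zw → ℂ, AP p → ContinuousOn (Tq p) (Set.Ioi 0) ∧
  (∃ C : ℝ, ∀ u : ℝ, 0 < u → ‖Tq p u‖ ≤ C * Real.exp (-u)) ∧ IntegrableOn (Tq p) (Set.Ioi 0)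

/-! ### The Eisenstein kernel -/

def SUB_st : Prop := ∀ c x y : ℝ, c ≠ 0 → x ≠ 0 → 0 < y → IntegrableOn (sb c x y) (Set.Ioi 0) ∧
  ∫ t in Set.Ioi (0 : ℝ), sb c x y t =
    if 0 < c * x then (if 0 < c then 2 else -2) * Real.exp (-2 * π * c * x * y) else 0

def ET1_st : Prop := ∀ (N : ℕ) (f : ℤ → ℤ → ℂ) (τ : ℂ) (t : ℝ), N ≠ 0 → P2 N f → 0 < τ.im →
  0 < t → Et f τ t = ea N f τ.im t + ec N f τ t

def EF1_st : Prop := ∀ N : ℕ, N ≠ 0 → ∃ (γ : ℕ → ℕ → ℂ) (C : ℝ), ∀ (f : ℤ → ℤ → ℂ) (K y : ℝ),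
  P2 N f → (∀ c d, ‖f c d‖ ≤ K) → 0 < y → IntegrableOn (ea N f y) (Set.Ioi 0) ∧
    ∫ t in Set.Ioi (0 : ℝ), ‖ea N f y t‖ ≤ C * K ∧
    ∫ t in Set.Ioi (0 : ℝ), ea N f y t = ∑ c ∈ range N, ∑ d ∈ range N, γ c d * f c d

def EF2_st : Prop := ∀ N : ℕ, N ≠ 0 → ∃ C : ℝ, ∀ (f : ℤ → ℤ → ℂ) (K : ℝ) (τ : ℂ),
  P2 N f → (∀ c d, ‖f c d‖ ≤ K) → (∀ c d, f (-c) (-d) = -f c d) → 0 < τ.im →
    IntegrableOn (ec N f τ) (Set.Ioi 0) ∧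
    (1 / 2 ≤ τ.im → ∫ t in Set.Ioi (0 : ℝ), ‖ec N f τ t‖ ≤ C * K) ∧
    ∫ t in Set.Ioi (0 : ℝ), ec N f τ t = -4 * π * I * hqs N f τ

def EFT_st : Prop := ∀ N : ℕ, N ≠ 0 → ∃ (γ : ℕ → ℕ → ℂ) (C : ℝ), ∀ (f : ℤ → ℤ → ℂ) (K : ℝ)
  (τ : ℂ), P2 N f → (∀ c d, ‖f c d‖ ≤ K) → (∀ c d, f (-c) (-d) = -f c d) → 0 < τ.im →
    IntegrableOn (Et f τ) (Set.Ioi 0) ∧
    (1 / 2 ≤ τ.im → ∫ t in Set.Ioi (0 : ℝ), ‖Et f τ t‖ ≤ C * K) ∧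
    ∫ t in Set.Ioi (0 : ℝ), Et f τ t =
      ∑ c ∈ range N, ∑ d ∈ range N, γ c d * f c d - 4 * π * I * hqs N f τ

def QEI_st : Prop := ∀ N : ℕ, ∃ γ : ℕ → ℕ → ℂ, ∀ X : Zw → ℤ → ℤ → ℂ, Bd N X → QE N (II N X)
  fun n => ∑ a ∈ sp n, ∑ c ∈ range N, ∑ d ∈ range N, γ c d * X a c d - 4 * π * I * con N X n

def LAW_st : Prop :=
  (∀ (t : ℝ) (c d m : ℤ) (τ : ℂ), 0 < τ.im → kr t c d (τ + m) = kr t c (d + m * c) τ ∧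
    kr t c d (-1 / τ) = τ * kr t d (-c) τ ∧ kr t (-c) (-d) τ = -kr t c d τ) ∧
  ∀ (N j : ℕ) (X X' : Zw → ℤ → ℤ → ℂ) (τ : ℂ), Sys N j X X' → 0 < τ.im →
    (∀ c d, GG N X (τ + 1) c d = ex (1 / 3) * GG N X τ c (d + c) ∧
      GG N X (-1 / τ) c d = τ * GG N X' τ d (-c) ∧
      GG N X' (τ + 3) c d = ex (j / 3) * GG N X' τ c (d + 3 * c) ∧
      GG N X τ (-c) (-d) = -GG N X τ c d ∧ GG N X' τ 0 d = 0) ∧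
    II N X (τ + 1) = ex (1 / 3) * II N X τ ∧ II N X (-1 / τ) = τ ^ 2 * II N X' τ ∧
      II N X' (τ + 3) = ex (j / 3) * II N X' τ

/-! ### The space of forms is a line -/

def QA_st : Prop := ∀ (N : ℕ) (g : ℂ → ℂ) (B : ℕ → ℂ), N ≠ 0 → QE N g B →
  DifferentiableOn ℂ g {τ | 0 < τ.im} ∧
  (∀ κ : ℝ, (∀ n : ℕ, (n : ℝ) < κ * N → B n = 0) → Dk κ g) ∧
  ∀ (m : ℕ) (c : ℂ), (∀ τ : ℂ, 0 < τ.im → g (τ + m) = c * g τ) → ∀ n, B n ≠ 0 → ex (n * m / N) = c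

def LN0_st : Prop := ∀ (g g₁ : ℂ → ℂ) (κ κ₁ : ℝ), DifferentiableOn ℂ g {τ | 0 < τ.im} →
  DifferentiableOn ℂ g₁ {τ | 0 < τ.im} →
  (∀ τ : ℂ, 0 < τ.im → g (τ + 1) ^ 3 = g τ ^ 3 ∧ g (-1 / τ) = τ ^ 2 * g₁ τ ∧
    g₁ (τ + 3) ^ 3 = g₁ τ ^ 3) → Dk κ g → Dk κ₁ g₁ → 2 < 3 * κ + 9 * κ₁ →
  ∀ τ : ℂ, 0 < τ.im → g τ = 0

def FF_st : Prop := (∃ B, QE 3 ff B ∧ B 1 = 1) ∧ (∃ B, QE 9 f1 B) ∧
  ∀ τ : ℂ, 0 < τ.im → ff (τ + 1) = ex (1 / 3) * ff τ ∧ ff (-1 / τ) = τ ^ 2 * f1 τ ∧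
    f1 (τ + 3) = ex (1 / 3) * f1 τ

def LINE_st : Prop := (Dk (1 / 3) ff ∧ Dk (1 / 9) f1 ∧ ContinuousOn ff {τ | 0 < τ.im} ∧
    ContinuousOn f1 {τ | 0 < τ.im}) ∧
  ∀ (N j : ℕ) (g g₁ : ℂ → ℂ) (B B₁ : ℕ → ℂ), N ≠ 0 → 3 ∣ N → QE N g B →
  QE N g₁ B₁ → (∀ τ : ℂ, 0 < τ.im → g (τ + 1) = ex (1 / 3) * g τ ∧ g (-1 / τ) = τ ^ 2 * g₁ τ ∧
    g₁ (τ + 3) = ex (j / 3) * g₁ τ) → (j = 2 → B (N / 3) = 0) ∧
    (j = 1 → ∀ τ : ℂ, 0 < τ.im → g τ = B (N / 3) * ff τ ∧ g₁ τ = B (N / 3) * f1 τ)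

/-! ### Unfolding -/

def WT_st : Prop := ∃ w, Wt w

def UF0_st : Prop := ∀ (w : ℍ → ℝ) (h : ℍ → ℂ), Wt w → Integrable h →
  ∫ τ : ℍ, w τ * ∑' γ : SL(2, ℤ), h (γ • τ) = ∫ τ, h τ

def UF1_st : Prop := ∀ (Y : ℤ → ℤ → ℂ → ℂ) (τ : ℍ), Iv Y → Y 0 0 τ = 0 →
  (Summable fun v : ℤ × ℤ => Y v.1 v.2 τ) →
  ∑' v : ℤ × ℤ, Y v.1 v.2 τ = ∑' γ : SL(2, ℤ), hs Y (γ • τ : ℍ)

def MEAS_st : Prop :=
  (∀ φ : ℂ → ℂ, (Integrable (fun τ : ℍ => φ τ * τ.im ^ 2) ↔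
      IntegrableOn (fun p : ℝ × ℝ => φ (p.1 + p.2 * I)) HP) ∧
    ∫ τ : ℍ, φ τ * τ.im ^ 2 = ∫ p in HP, φ (p.1 + p.2 * I)) ∧
  ∀ κ : ℝ, 0 < κ → Integrable fun τ : ℍ =>
    if |τ.re| ≤ 1 / 2 ∧ 1 / 2 ≤ τ.im then Real.exp (-κ * τ.im) * τ.im ^ 2 else 0

def INV_st : Prop := ∀ H₀ H₁ : ℤ → ℤ → ℂ → ℂ, (∀ c d (τ : ℂ), 0 < τ.im →
  H₀ c d (τ + 1) = H₀ c (d + c) τ ∧ H₀ c d (-1 / τ) = H₁ d (-c) τ ∧
    H₁ c d (τ + 3) = H₁ c (d + 3 * c) τ ∧ H₀ (-c) (-d) τ = H₀ c d τ) → Iv (YY H₀ H₁)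

def RT_st : Prop := ∀ (h : Zw → ℤ → ℂ) (K t : ℝ), (∀ a d, ‖h a d‖ ≤ K) →
  (∀ a d, h a d ≠ 0 → nw a % 3 = 1) → 0 < t →
  IntegrableOn (fun p : ℝ × ℝ => st h t (p.1 + p.2 * I)) HP ∧
    HasSum (tm h t) (∫ p in HP, st h t (p.1 + p.2 * I))

def BIJ_st : Prop := ∀ (F : ℕ × Zw × Zw → ℂ) (F' : Zw × Zw → ℂ) (s : ℂ), HasSum F s →
  (∀ d a b, F (d, a, b) ≠ 0 → nw a = nw b ∧ Pry b) → (∀ k, F' (k, 0) = 0) →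
  (∀ (d : ℕ) (k g : Zw), IsCoprime g.re g.im → F' (k, (d + 1) * g) =
    if pw ∣ k * g then 0 else F (d, k * star g, ep (k * g) * (k * g))) → HasSum F' (6 * s)

def FAC_st : Prop := ∀ (p q : Zw → ℂ) (t : ℝ), AP p → AP q → 0 < t →
  HasSum (fun v : Zw × Zw => p v.1 * q v.2 * conj (iz v.1) * conj (iz v.2) *
    (K0 (4 * π ^ 2 * t * nw v.1 * nw v.2 / 3) : ℝ))
    (∫ u in Set.Ioi (0 : ℝ), Tq p u * Tq q (4 * t / (3 * u)) / u)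

def FUB_st : Prop := ∀ φ ψ : ℝ → ℂ, IntegrableOn φ (Set.Ioi 0) → IntegrableOn ψ (Set.Ioi 0) →
  IntegrableOn (fun t : ℝ => ∫ u in Set.Ioi (0 : ℝ), φ u * ψ (4 * t / (3 * u)) / u) (Set.Ioi 0) ∧
  ∫ t in Set.Ioi (0 : ℝ), ∫ u in Set.Ioi (0 : ℝ), φ u * ψ (4 * t / (3 * u)) / u =
    3 / 4 * ((∫ u in Set.Ioi (0 : ℝ), φ u) * ∫ u in Set.Ioi (0 : ℝ), ψ u)

def PET_st : Prop := ∀ (w : ℍ → ℝ) (N : ℕ) (X : Zw → ℤ → ℤ → ℂ) (f : ℂ → ℂ) (κ m : ℝ), Wt w →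
  Bd N X → ContinuousOn f {τ | 0 < τ.im} → 0 < κ → Dk κ f →
  Integrable (fun x : ℍ × ℝ => w x.1 * (It N X x.2 (x.1 + m) * conj (f (x.1 + m)) * x.1.im ^ 2))
    (volume.prod (volume.restrict (Set.Ioi 0)))

def M1A_st : Prop := ∀ (w : ℍ → ℝ) (N : ℕ) (X X' : Zw → ℤ → ℤ → ℂ) (h : Zw → ℤ → ℂ) (t : ℝ),
  Wt w → Sys N 1 X X' → (∀ d (τ : ℂ), GG N X τ 0 d = th0 3 (fun a => h a d) τ) → 0 < t →
  IntegrableOn (fun p : ℝ × ℝ => st h t (p.1 + p.2 * I)) HP →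
  ∫ τ : ℍ, w τ * S4 (It N X t) (It N X' t) τ = ∫ p in HP, st h t (p.1 + p.2 * I)

def M1B_st : Prop := ∀ (h : Zw → ℤ → ℂ) (t : ℝ) (ι : Type) (s : Finset ι) (p q : ι → Zw → ℂ)
  (R : ℂ), Fac h s p q → 0 < t → HasSum (tm h t) R →
  R = π / 6 * ∑ i ∈ s, ∫ u in Set.Ioi (0 : ℝ), Tq (p i) u * Tq (q i) (4 * t / (3 * u)) / u

def M2_st : Prop := ∀ (w : ℍ → ℝ) (N : ℕ) (X X' : Zw → ℤ → ℤ → ℂ), Wt w → Bd N X → Bd N X' →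
  ∫ t in Set.Ioi (0 : ℝ), ∫ τ : ℍ, w τ * S4 (It N X t) (It N X' t) τ =
    ∫ τ : ℍ, w τ * S4 (II N X) (II N X') τ

/-! ### The Kronecker sum -/

def TAN_st : Prop := ∀ z S : ℂ,
  Tendsto (fun ε => Ke ε (z + S) + Ke ε (z - S) - 2 * Ke ε z) (𝓝[>] 0)
    (𝓝 (∑' g : Zw, (1 / (z + S + iz g) + 1 / (z - S + iz g) - 2 / (z + iz g))))

def WPI_st : Prop := ∀ z S : ℂ, z ∉ L1.lattice → S ∉ L1.lattice → z + S ∉ L1.lattice →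
  z - S ∉ L1.lattice →
  ∑' g : Zw, (1 / (z + S + iz g) + 1 / (z - S + iz g) - 2 / (z + iz g)) =
    wq L1 z / (wp L1 z - wp L1 S)

def DIS_st : Prop := (∀ (ε : ℝ) (z l : ℂ), l ∈ L1.lattice → Ke ε (z + l) = Ke ε z) ∧
  (∀ (ε : ℝ) (z : ℂ) (a : Zw), 0 < ε → a ≠ 0 →
    ∑ S ∈ tor a, Ke ε (z + lg S / Om) = iz a * Ke (ε / nn a) (iz a * z)) ∧
  ∀ (ε : ℝ) (m x : Zw), m ≠ 0 → Ke ε (iz x / iz m) =
    iz m * ∑' g : Zw, rc m x g * (Real.exp (-π * (ε / nn m) * nw g) : ℝ) / iz g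

end Pool.Agent.MP_e23604_nt.Z
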