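import Pool.Agent.MP_e23604_nt.Z.B1

/-!
The transformation laws of the kernel and of the theta integrals.
-/

set_option autoImplicit false

open Finset QuadraticAlgebra Filter Topology MeasureTheory Complex
open scoped Classical BigOperators UpperHalfPlane MatrixGroups ComplexConjugate Real

namespace Pool.Agent.MP_e23604_nt.Z

open W Un

theorem krT_BLAW (t : ℝ) (c d m : ℤ) (τ : ℂ) : kr t c d (τ + m) = kr t c (d + m * c) τ := by
  rw [kr, kr, show c * (τ + m) + d = c * τ + (d + m * c : ℤ) by push_cast; ring]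
  simp

theorem krS_BLAW (t : ℝ) (c d : ℤ) {τ : ℂ} (hτ : 0 < τ.im) :
    kr t c d (-1 / τ) = τ * kr t d (-c) τ := by
  have h0 : τ ≠ 0 := fun e => by simp [e] at hτ
  have h1 := normSq_pos.2 h0
  have h2 : conj τ ≠ 0 := (map_ne_zero _).2 h0
  rw [kr, kr, show c * (-1 / τ) + d = (d * τ + (-c : ℤ)) / τ by push_cast; field_simp; ring,
    show (-1 / τ).im = τ.im / normSq τ by rw [neg_div, one_div, neg_im, inv_im, neg_div, neg_neg],
    map_div₀, map_div₀, show -π * t * (normSq (d * τ + (-c : ℤ)) / normSq τ) / (τ.im / normSq τ) =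
      -π * t * normSq (d * τ + (-c : ℤ)) / τ.im by field_simp,
    show π / (τ.im / normSq τ) = π / τ.im * normSq τ by field_simp, ← mul_assoc (Real.exp _),
    ofReal_mul _ (normSq τ), ← mul_conj]
  field_simp

theorem II_BLAW {N : ℕ} {X X' : Zw → ℤ → ℤ → ℂ} {τ τ' : ℂ} (e : ℂ) (s : ℤ × ℤ ≃ ℤ × ℤ)
    (h : ∀ t v, GG N X τ' v.1 v.2 * kr t v.1 v.2 τ' =
      e * (GG N X' τ (s v).1 (s v).2 * kr t (s v).1 (s v).2 τ)) : II N X τ' = e * II N X' τ := by
  rw [II, II, ← integral_const_mul]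
  refine congrArg _ (funext fun t => ?_)
  rw [It, It, Et, Et, ← s.tsum_eq fun v => GG N X' τ v.1 v.2 * kr t v.1 v.2 τ, ← tsum_mul_left]
  exact tsum_congr (h t)

theorem GG_BLAW {N : ℕ} {X : Zw → ℤ → ℤ → ℂ} (τ m : ℂ) {e : ℂ} {c d d' : ℤ}
    (h : ∀ a, e * X a c d' = ex (m * nw a / N) * X a c d) :
    GG N X (τ + m) c d = e * GG N X τ c d' := by
  rw [GG, GG, th0, th0, ← tsum_mul_left]
  refine tsum_congr fun a => ?_
  rw [← mul_assoc, h, add_mul, add_div, ex_add]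
  ring

theorem LAW_pf (h : THS_st) : LAW_st := by
  refine ⟨fun t c d m τ hτ => ⟨krT_BLAW t c d m τ, krS_BLAW t c d hτ, ?_⟩,
    fun N j X X' τ hX hτ => ?_⟩
  · rw [kr, kr, show (-c : ℤ) * τ + (-d : ℤ) = -(c * τ + d) by push_cast; ring, map_neg, normSq_neg,
      neg_mul]
  have a1 : ∀ c d, GG N X (τ + 1) c d = ex (1 / 3) * GG N X τ c (d + c) := fun c d =>
    GG_BLAW τ 1 fun a => by rw [hX.lawT, one_mul]
  have a2 : ∀ c d, GG N X (-1 / τ) c d = τ * GG N X' τ d (-c) := fun c d => by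
    have e := fun a => hX.lawS a d (-c)
    rw [neg_neg] at e
    rw [GG, h N _ τ hX.pos hX.dvd (hX.pa c d).1 hτ, GG, th0, th0]
    simp only [e, mul_assoc, tsum_mul_left]
    rw [← mul_assoc, div_mul_cancel₀ _ I_ne_zero]
  have a3 : ∀ c d, GG N X' (τ + 3) c d = ex (j / 3) * GG N X' τ c (d + 3 * c) := fun c d =>
    GG_BLAW τ 3 fun a => hX.lawU a c d
  refine ⟨fun c d => ⟨a1 c d, a2 c d, a3 c d, hX.bd.1.neg τ c d, by simp [GG, th0, hX.zero]⟩,
    II_BLAW _ ((Equiv.refl ℤ).prodShear fun c => Equiv.addRight c) fun t v => ?_,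
    II_BLAW _ ((Equiv.prodComm ℤ ℤ).trans ((Equiv.refl ℤ).prodCongr (Equiv.neg ℤ))) fun t v => ?_,
    II_BLAW _ ((Equiv.refl ℤ).prodShear fun c => Equiv.addRight (3 * c)) fun t v => ?_⟩
  · have := krT_BLAW t v.1 v.2 1 τ
    rw [Int.cast_one, one_mul] at this
    rw [a1, this, mul_assoc]
    rfl
  · rw [a2, krS_BLAW t _ _ hτ, mul_mul_mul_comm, ← pow_two]
    rfl
  · have := krT_BLAW t v.1 v.2 3 τ
    rw [Int.cast_ofNat] at this
    rw [a3, this, mul_assoc]
    rfl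

end Pool.Agent.MP_e23604_nt.Z
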