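import Pool.Agent.MP_e23604_nt.Z.B1

/-!
Poisson summation for Gaussians with periodic coefficients.
-/

set_option autoImplicit false

open Finset QuadraticAlgebra Filter Topology MeasureTheory Complex
open scoped Classical BigOperators UpperHalfPlane MatrixGroups ComplexConjugate Real

namespace Pool.Agent.MP_e23604_nt.Z

open W Un

/-- finite Fourier inversion -/
theorem inv_BPO1 {N : ℕ} (hN : N ≠ 0) {h : ℤ → ℂ} (hh : ∀ n, h (n + N) = h n) (n : ℤ) :
    ∑ k ∈ range N, hat N h k * ex (-(k * n) / N) = h n := by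
  have hc : (N : ℂ) ≠ 0 := Nat.cast_ne_zero.2 hN
  have hz : (N : ℤ) ≠ 0 := Nat.cast_ne_zero.2 hN
  have g : ∀ d : ℕ, ∑ k ∈ range N, h d * ex (d * (k : ℤ) / N) / N * ex (-(k * n) / N) =
      if (N : ℤ) ∣ d - n then h d else 0 := fun d => by
    have e : ∀ k : ℕ, h d * ex (d * (k : ℤ) / N) / N * ex (-(k * n) / N) =
        h d / N * ex (((d - n : ℤ) : ℂ) / (N : ℤ)) ^ k := fun k => by
      rw [← ex_nat_mul, mul_div_right_comm, mul_assoc, ← ex_add]
      congr 2
      push_cast
      ring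
    simp only [e, ← mul_sum]
    split_ifs with c
    · rw [(ex_div_eq_one hz).2 c]
      simp [hc]
    · rw [geom_sum_eq fun e' => c ((ex_div_eq_one hz).1 e'), ← ex_nat_mul, Int.cast_natCast,
        mul_div_cancel₀ _ hc, ex_int, sub_self, zero_div, mul_zero]
  have h0 := Int.emod_nonneg n hz
  have h1 := Int.emod_lt_of_pos n (by omega : (0 : ℤ) < N)
  simp only [(hat_eq hN hh _).2, sum_div, sum_mul]
  rw [sum_comm, sum_congr rfl fun d _ => g d, sum_eq_single_of_mem (n % N).toNat
    (mem_range.2 (by omega)) fun d hd e => if_neg fun c => e ?_, Int.toNat_of_nonneg h0,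
    if_pos (Int.dvd_emod_sub_self ..)]
  · conv_rhs => rw [← Int.emod_add_ediv_mul n N]
    exact (Function.Periodic.int_mul (f := h) (c := (N : ℤ)) hh (n / N) _).symm
  · rw [← (Int.modEq_iff_dvd.2 c).eq.symm, Int.emod_eq_of_lt (by omega)
      (by exact_mod_cast mem_range.1 hd), Int.toNat_natCast]

/-- gluing of the residue classes -/
theorem glue_BPO1 {N : ℕ} (hN : N ≠ 0) {h : ℤ → ℂ} (hh : ∀ n, h (n + N) = h n) {f g : ℤ → ℂ}
    {C : ℂ} (H : ∀ k : ℕ, Summable (fun n : ℤ => ex (-(k * n) / N) * f n) ∧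
      Summable (fun n : ℤ => g (n * N + k)) ∧
      ∑' n : ℤ, ex (-(k * n) / N) * f n = C * ∑' n : ℤ, g (n * N + k)) :
    ∑' n, h n * f n = C * ∑' x, hat N h x * g x := by
  have hc : (N : ℂ) ≠ 0 := Nat.cast_ne_zero.2 hN
  have hz : (N : ℤ) ≠ 0 := Nat.cast_ne_zero.2 hN
  have p : ∀ n k : ℤ, hat N h (n * N + k) = hat N h k := fun n k => by
    rw [(hat_eq hN hh _).2, (hat_eq hN hh _).2]
    congr 1
    refine sum_congr rfl fun d _ => ?_
    rw [ex_congr (y := d * k / N) (d * n) (by push_cast; field_simp; ring)]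
  have key : ∀ k ∈ range N, HasSum (fun x : ℤ => if x % N = k then hat N h x * g x else 0)
      (hat N h k * ∑' n : ℤ, g (n * N + k)) := fun k hk => by
    refine (Function.Injective.hasSum_iff (g := fun n : ℤ => n * N + k)
      (fun a b e => mul_right_cancel₀ hz (add_right_cancel e))
      fun x hx => if_neg fun e : x % N = k =>
        hx ⟨x / N, (congrArg _ e.symm).trans (Int.ediv_mul_add_emod x N)⟩).1 ?_
    refine ((H k).2.1.hasSum.mul_left _).congr_fun fun n => ?_
    rw [Function.comp_apply, p, if_pos]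
    rw [add_comm, Int.add_mul_emod_self_right]
    exact Int.emod_eq_of_lt (by omega) (by exact_mod_cast mem_range.1 hk)
  have e : ∀ x : ℤ, hat N h x * g x =
      ∑ k ∈ range N, if x % N = k then hat N h x * g x else 0 := fun x => by
    have h0 := Int.emod_nonneg x hz
    have h1 := Int.emod_lt_of_pos x (by omega : (0 : ℤ) < N)
    rw [sum_eq_single_of_mem (x % N).toNat (mem_range.2 (by omega))
      fun d _ e => if_neg (by omega), if_pos (by omega)]
  rw [((hasSum_sum key).congr_fun e).tsum_eq, mul_sum]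
  refine ((hasSum_sum fun k _ => (H k).1.hasSum.mul_left (hat N h k)).congr_fun
    fun n => ?_).tsum_eq.trans (sum_congr rfl fun k _ => by rw [(H k).2.2, mul_left_comm])
  rw [← inv_BPO1 hN hh n, sum_mul]
  exact sum_congr rfl fun k _ => mul_assoc _ _ _

theorem base_BPO1 {a : ℂ} (ha : 0 < a.re) (b : ℂ) :
    (Summable fun n : ℤ => cexp (-π * a * n ^ 2 + 2 * π * b * n)) ∧
    (Summable fun n : ℤ => n * cexp (-π * a * n ^ 2 + 2 * π * b * n)) ∧
    (Summable fun n : ℤ => cexp (-π / a * (n + I * b) ^ 2)) ∧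
    (Summable fun n : ℤ => (n + I * b) * cexp (-π / a * (n + I * b) ^ 2)) ∧
    ∑' n : ℤ, n * cexp (-π * a * n ^ 2 + 2 * π * b * n) = -I / a * (1 / a ^ (1 / 2 : ℂ)) *
      ∑' n : ℤ, (n + I * b) * cexp (-π / a * (n + I * b) ^ 2) := by
  have a0 : a ≠ 0 := fun e => by simp [e] at ha
  have p0 : (2 * π * I : ℂ) ≠ 0 := two_pi_I_ne_zero
  have t1 : 0 < (I * a).im := by simpa using ha
  have t2 : 0 < (-1 / (I * a)).im := by
    rw [neg_div, neg_im, one_div, inv_im, neg_div, neg_neg]
    exact div_pos t1 (normSq_pos.2 (mul_ne_zero I_ne_zero a0))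
  have e1 : ∀ n : ℤ, cexp (-π * a * n ^ 2 + 2 * π * b * n) =
      jacobiTheta₂_term n (-I * b) (I * a) := fun n => by
    rw [jacobiTheta₂_term]
    congr 1
    linear_combination (2 * π * b * n - π * a * n ^ 2) * I_mul_I
  have e2 : ∀ n : ℤ, cexp (-π / a * (n + I * b) ^ 2) = cexp (-π * I * (-I * b) ^ 2 / (I * a)) *
      jacobiTheta₂_term n (-I * b / (I * a)) (-1 / (I * a)) := fun n => by
    rw [jacobiTheta₂_term, ← Complex.exp_add]
    congr 1
    field_simp
    ring
  have s1 := hasSum_jacobiTheta₂_term (-I * b) t1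
  have s2 := (hasSum_jacobiTheta₂'_term (-I * b) t1).div_const (2 * π * I)
  have s3 := hasSum_jacobiTheta₂_term (-I * b / (I * a)) t2
  have s4 := (((hasSum_jacobiTheta₂'_term (-I * b / (I * a)) t2).sub
    (s3.mul_left (2 * π * I * (-I * b)))).mul_left
      (cexp (-π * I * (-I * b) ^ 2 / (I * a)))).div_const (2 * π * I)
  have u2 := s2.congr_fun (g := fun n : ℤ => n * cexp (-π * a * n ^ 2 + 2 * π * b * n)) fun n => by
    rw [e1, jacobiTheta₂'_term, mul_assoc _ (n : ℂ), mul_div_cancel_left₀ _ p0]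
  have u4 := s4.congr_fun (g := fun n : ℤ => (n + I * b) * cexp (-π / a * (n + I * b) ^ 2))
    fun n => by
      rw [e2, jacobiTheta₂'_term, eq_div_iff p0]
      ring
  refine ⟨(s1.congr_fun e1).summable, u2.summable, ((s3.mul_left _).congr_fun e2).summable,
    u4.summable, ?_⟩
  rw [u2.tsum_eq, u4.tsum_eq, jacobiTheta₂'_functional_equation,
    show -I * (I * a) = a by linear_combination -a * I_mul_I,
    show -I / a = 1 / (I * a) by field_simp; simp]
  ring

theorem PO1_pf : PO1_st := by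
  intro N h a b hN hh ha
  have hc : (N : ℂ) ≠ 0 := Nat.cast_ne_zero.2 hN
  have e1 : ∀ (k : ℕ) (n : ℤ), ex (-(k * n) / N) * cexp (-π * a * n ^ 2 + 2 * π * b * n) =
      cexp (-π * a * n ^ 2 + 2 * π * (b - I * k / N) * n) := fun k n => by
    rw [ex, ← Complex.exp_add]
    congr 1
    ring
  have e2 : ∀ (k : ℕ) (n : ℤ), ((n * N + k : ℤ) : ℂ) / N + I * b = n + I * (b - I * k / N) :=
    fun k n => by
      push_cast
      rw [add_div, mul_div_cancel_right₀ _ hc]
      linear_combination (k / N : ℂ) * I_mul_I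
  refine ⟨glue_BPO1 hN hh fun k => ?_, ?_⟩
  · obtain ⟨s1, -, s3, -⟩ := base_BPO1 ha (b - I * k / N)
    simp only [e1, e2]
    exact ⟨s1, s3, tsum_exp_neg_quadratic ha _⟩
  · simp only [mul_assoc (h _), mul_assoc (hat N h _)]
    refine glue_BPO1 hN hh fun k => ?_
    obtain ⟨-, s2, -, s4⟩ := base_BPO1 ha (b - I * k / N)
    simp only [mul_left_comm (ex _), e1, e2]
    exact ⟨s2, s4⟩

end Pool.Agent.MP_e23604_nt.Z
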