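import Pool.Agent.MP_e23604_nt.Z.CE

/-!
The values at the cusp.
-/

set_option autoImplicit false

open Finset QuadraticAlgebra
open scoped Classical BigOperators

namespace Pool.Agent.MP_e23604_nt.Z

open B R S W Un

theorem ep_CAFC (d : ℤ) : ep d = et d := by
  unfold et
  split_ifs with a b
  · exact ep_eq isUnit_one (by
      simpa [Pry] using (int_dvd_int (m := 3) (n := d - 1)).2 (by omega))
  · exact ep_eq isUnit_one.neg (by
      simpa [Pry] using (int_dvd_int (m := 3) (n := -d - 1)).2 (by omega))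
  · exact ep_zero (pw_dvd3.trans (by exact_mod_cast (int_dvd_int (m := 3)).2 (by omega)))

theorem AFC_pf (h1 : CXL_st) (h2 : WQ_st) : AFC_st := by
  intro r κ e Ψ β hc z1 z2 l hl lam ρ w _ ⟨z, hz⟩ l3
  obtain ⟨c1, c2, c3, -, c5, c6, -⟩ := h1 r κ e hc
  have r0 : (9 * r : Zw) ≠ 0 := by exact_mod_cast mul_ne_zero (by norm_num) hc.sf.ne_zero
  have l0 : (l : Zw) ≠ 0 := Nat.cast_ne_zero.2 hl.out.ne_zero
  have pe : ∀ u z, ep (u + 9 * r * z) = ep u := fun u z => by
    have d : (3 : Zw) ∣ 9 * r * z := ⟨3 * r * z, by ring⟩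
    by_cases hu : pw ∣ u
    · rw [ep_zero hu, ep_zero (dvd_add hu (pw_dvd3.trans d))]
    · refine ep_eq (ep_spec hu).1 ?_
      rw [Pry, mul_add, add_sub_right_comm]
      exact dvd_add (ep_spec hu).2 (d.mul_left _)
  have s1 : star lam = 1 + 9 * r * (9 * r * star z) := by
    have := congrArg star hz
    simp only [N0, star_sub, star_mul, star_one, star_natCast] at this
    push_cast at this
    linear_combination this
  have xx : ∀ a d, XX (N0 r) ρ w Ψ a 0 d = if IsCoprime d (3 * r) ∧ ρ (star a) = 0 then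
      et d * (Complex.I * (Real.sqrt 3 : ℝ) / (N0 r : ℕ)) * Ψ a 0 *
        wh w (d * ρ a * (N0 r : ZMod l)⁻¹) else 0 := fun a d => by
    have : IsCoprime (Int.gcd 0 d : ℤ) (N0 r) ↔ IsCoprime d (3 * r) := by
      have t : ∀ n : ℤ, IsCoprime (d : Zw) n ↔ IsCoprime d n := fun n => by
        rw [cop_iff, nw_int, IsCoprime.pow_left_iff two_pos]
      rw [Int.gcd_zero_left, Int.natCast_natAbs, IsCoprime.abs_left_iff, ← t, ← t]
      exact_mod_cast cop_N0
    simp only [XX, tf, XL, wh, this, Int.cast_zero, mul_zero, if_true]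
    by_cases a1 : IsCoprime d (3 * r) <;> by_cases a2 : ρ (star a) = 0 <;>
      simp [a1, a2, mul_assoc, mul_left_comm (d : ZMod l)]
  refine ⟨fun a d h => ?_, fun x _ => ⟨(AP_zw (mul_ne_zero r0 l0) fun g z => ?_).map _,
    AP_zw (mul_ne_zero r0 l0) fun g z => ?_⟩, fun d k g _ _ => ?_⟩
  · rw [xx]
    split_ifs with a1
    · rw [z1 a fun a2 => h (IsCoprime.mul_dvd ⟨9 * pw * r * star z, 1, ?_⟩ a2 ?_), mul_zero, zero_mul]
      · rw [s1, mu]
        linear_combination 27 * (r : Zw) ^ 2 * star z * pw_sq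
      · simpa [starRingEnd_apply] using map_dvd (starRingEnd Zw) ((l3 _).1 a1.2)
    · rfl
  · simp [rr, Pw, mul_assoc _ (l : Zw), c3, pe]
  · simp [rr, Qw, mul_assoc _ (l : Zw), c3, pe]
  · have e1 : cx r κ (star lam) = 1 := by rw [s1, c3, c6 1 isUnit_one]
    have e2 : ρ (star (mu r * star lam * (k * star g))) = 0 :=
      (l3 _).2 ⟨star (mu r) * star k * g, by simp only [star_mul, star_star]; ring⟩
    have e3 := c5 d
    have e4 := ep_CAFC d
    rw [Int.cast_natCast] at e3 e4
    rw [xx, e2, mul_assoc (mu r), z2, c1, e1, one_mul]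
    simp only [and_true, rr, Fintype.sum_prod_type, mul_ite, ite_mul, mul_zero, zero_mul,
      sum_ite_eq, mem_univ, if_true, conj_iz, Pw, Qw, c1, c2, e3, e4, ep_mul, cr_apply, map_mul,
      map_natCast, Int.cast_natCast]
    split_ifs
    · simp only [star_mul, map_mul, star_intCast, map_intCast, one_mul]
      ring_nf
    · simp

end Pool.Agent.MP_e23604_nt.Z
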