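import Pool.Agent.MP_e23604_nt.Z.CE

/-!
The analytic identity.
-/

set_option autoImplicit false

open Finset QuadraticAlgebra
open scoped Classical BigOperators

namespace Pool.Agent.MP_e23604_nt.Z

open B R S W Un

theorem mq_CAMN (c : ℂ) (p : Zw → ℂ) : Mq (fun g => c * p g) = c * Mq p := by
  simp only [Mq, Tq, mul_assoc, tsum_mul_left, MeasureTheory.integral_const_mul]
  ring

theorem dvd_CAMN {a : Zw} (h : 27 ∣ nn a) : 3 * pw ∣ a := by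
  obtain ⟨b, rfl⟩ := pw_dvd_iff.2 ((by decide : 3 ∣ 27).trans h)
  rw [nn_mul, nn_pw] at h
  obtain ⟨c, rfl⟩ := (pw_dvd_iff (a := b)).2 (by omega)
  rw [nn_mul, nn_pw] at h
  obtain ⟨d, rfl⟩ := (pw_dvd_iff (a := c)).2 (by omega)
  exact ⟨-d, by linear_combination pw * d * pw_sq⟩

theorem AMN_pf (h0 : MAIN_st) (h1 : MM_st) (h2 : SYS_st) (h3 : TFB_st) (h4 : COE_st) (h5 : PSE_st)
    (h6 : PSF_st) (h7 : PSZ_st) (h8 : CXL_st) (h9 : AFC_st) (h10 : PSI_st) (h11 : WQ_st) :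
    AMN_st := by
  intro r κ e hC
  have r0 : r ≠ 0 := hC.sf.ne_zero
  have n0 := N0_ne r0
  have n3 := N0_dvd r
  obtain ⟨-, -, -, -, -, -, -, e', a1, a2, a3⟩ := h8 r κ e hC
  obtain ⟨i, β, b0, b1, b2⟩ : ∃ (i : ℤ) (β : ℂ), β ≠ 0 ∧ 3 ∣ i * e' + 1 ∧ ∀ a b,
      iz (Psi r κ e a b) = β * Ps r κ (ph1 i e') a b + -β * Ps r κ (ph1 (-i) e') a b := by
    obtain ⟨-, -, -, -, β, b0, b2⟩ := h5 r κ e e' r0 a2
    by_cases h : 3 ∣ e' + 1
    · exact ⟨1, β, b0, by omega, b2⟩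
    · exact ⟨-1, -β, neg_ne_zero.2 b0, by omega, fun a b => by rw [b2, neg_neg, neg_neg, add_comm]⟩
  have w1 := h6 r κ e i e' 1 β hC a1 b1
  have w2 := h6 r κ e (-i) e' 2 (-β) hC a1 (by rw [neg_mul]; omega)
  obtain ⟨z1, β', z0, z2⟩ := h7 r κ e i e' hC a3
  obtain ⟨C, hM⟩ := h0
  obtain ⟨k, -, hk⟩ := h4 _ n0 n3
  obtain ⟨-, p1, p2, p3, p4, p5⟩ := h10 r κ e hC
  have g0 : Complex.I * (Real.sqrt 3 : ℝ) / (N0 r : ℕ) * (β * β') ≠ 0 := by
    simp [n0, b0, z0]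
  refine ⟨C * k / (Complex.I * (Real.sqrt 3 : ℝ) / (N0 r : ℕ) * (β * β')),
    fun l _ lam ρ l1 l2 l3 => ?_⟩
  have l4 : (N0 r : ℤ) ∣ l - 1 := by
    have := nw_congr (n := N0 r) (a := lam) (b := 1) (by exact_mod_cast l2)
    rwa [← nn_cast, ← nn_cast, l1, nn_one] at this
  have l5 : (N0 r : ZMod l) ≠ 0 := fun h => by
    obtain ⟨z, hz⟩ := l2
    simpa [h, (l3 lam).2 dvd_rfl] using congrArg ρ hz
  refine ⟨ρ (mu r * star lam) * (N0 r : ZMod l)⁻¹, mul_ne_zero ?_ (inv_ne_zero l5),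
    fun w v1 v2 => ?_⟩
  · rw [map_mul]
    refine mul_ne_zero (fun h => l5 ?_) fun h => (prime_of_nn (l1 ▸ Fact.out)).not_isUnit
      ((cop_conj Fact.out (fun h => ?_) l1).isUnit_of_dvd ((l3 _).1 h))
    · rw [← map_natCast ρ, show (N0 r : Zw) = mu r * (-9 * pw * r) by
        simp only [N0, mu]; push_cast; linear_combination 27 * (r : Zw) ^ 2 * pw_sq, map_mul, h,
        zero_mul]
    · have := (Int.natCast_dvd_natCast.2 n3).trans l4
      omega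
  have s1 : ∀ a c d, XX (N0 r) ρ w (fun a b => β * Ps r κ (ph1 i e') a b) a c d +
      XX (N0 r) ρ w (fun a b => -β * Ps r κ (ph1 (-i) e') a b) a c d =
      XX (N0 r) ρ w (fun a b => iz (Psi r κ e a b)) a c d := fun a c d => by
    simp only [XX, b2]
    rw [← add_mul, (h3 _ c d n0 n3).2.2.2.2.2.2.1 _ _ ((w1.pb a).ap n0) ((w2.pb a).ap n0)]
  obtain ⟨f1, f2⟩ := h9 r κ e (fun a b => β * Ps r κ (ph1 i e') a b) (β * β') hC
    (fun a h => by rw [z1 a h, mul_zero]) (fun a => by rw [z2, mul_assoc]) l lam ρ w l1 l2 l3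
  have m := hM _ _ _ _ _ _ _ _ _ _ (h2 _ l 1 ρ w _ n0 n3 l4 v1 w1) (h2 _ l 2 ρ w _ n0 n3 l4 v1 w2)
    (fun a c d h => by
      have t := (h3 _ c d n0 n3).2.2.2.2.2.1 (fun _ => 0) 0 (AP.const 0)
      simp only [zero_mul] at t
      have u := fun b => p4 a b (dvd_CAMN ⟨r ^ 2 * l, by rw [N0, mul_assoc] at h; omega⟩)
      rw [s1]
      simp only [XX, u, map_zero, t, zero_mul])
    (by
      rw [mu, nn_mul, nn_mul, nn_mul, nn_pw, nn_nat, W.nn_star, l1, N0,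
        show nn 3 = 9 by decide]
      ring) f1 f2
  simp only [s1, mq_CAMN, Fintype.sum_prod_type] at m
  rw [hk l ρ w _ l4 v2 p2 p1 p3] at m
  simp only [p5] at m
  rw [div_mul_eq_mul_div, eq_div_iff g0, mul_assoc C, ← m, sum_mul]
  refine sum_congr rfl fun x _ => ?_
  rw [sum_mul]
  exact sum_congr rfl fun y _ => by rw [Mr, Mr]; ring

end Pool.Agent.MP_e23604_nt.Z
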