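import Pool.Agent.MP_e23604_nt.Z.CE

/-!
The analytic part: assembly.
-/

set_option autoImplicit false

open Finset QuadraticAlgebra
open scoped Classical BigOperators

namespace Pool.Agent.MP_e23604_nt.Z

open B R S W Un

theorem alg_CANA (Γ : ℂ) : ∃ z : Qb, ∀ s y : Qb, eC s = Γ * eC y → s = z * y := by
  by_cases h : ∃ z, eC z = Γ
  · obtain ⟨z, rfl⟩ := h
    exact ⟨z, fun s y e => eC.injective (by rw [e, map_mul])⟩
  · refine ⟨0, fun s y e => eC.injective ?_⟩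
    by_cases hy : y = 0
    · simp [e, hy]
    · exact absurd ⟨s / y, by rw [map_div₀, e, mul_div_cancel_right₀ _ (by simpa using hy)]⟩ h

theorem smo_CANA {l : ℕ} [Fact l.Prime] {F M m : ZMod l → ℂ} {t : ZMod l} {c n s : ℂ} (ht : t ≠ 0)
    (hF : ∀ x, F (t * x) = F x) (h0 : m 0 = 0) (h : ∀ x ≠ 0, m x = c * (n * M x - s * M (t * x))) :
    ∑ x, F x * m x = c * (n - s) * (∑ x, F x * M x - F 0 * M 0) := by
  have h1 : ∑ x, F x * M (t * x) = ∑ x, F x * M x :=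
    Fintype.sum_equiv (Equiv.mulLeft₀ t ht) _ _ fun x => by simp [hF]
  have h2 : ∀ x, F x * m x = c * n * (F x * M x) - c * s * (F x * M (t * x)) -
      if x = 0 then c * (n - s) * (F 0 * M 0) else 0 := fun x => by
    split_ifs with e
    · rw [e, h0, mul_zero t]
      ring
    · rw [h x e]
      ring
  simp only [h2, sum_sub_distrib, ← mul_sum, h1, sum_ite_eq', mem_univ, if_true]
  ring

theorem bil_CANA {l : ℕ} [Fact l.Prime] {F M M' m m' : ZMod l → ℂ} {c c' : ℂ} {t : ZMod l}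
    (u : ZMod l) (hF : ∀ x, F (t * x) = F x) (h0 : M 0 = 0) (h1 : ∑ x, m x = 0)
    (h : ∀ G : ZMod l → ℂ, (∀ x, G (t * x) = G x) →
      ∑ x, G x * m x = c * (∑ x, G x * M x - G 0 * M 0))
    (h' : ∀ G : ZMod l → ℂ, (∀ x, G (t * x) = G x) →
      ∑ x, G x * m' x = c' * (∑ x, G x * M' x - G 0 * M' 0)) :
    ∑ x, ∑ y, F (u * x * y) * (m x * m' y) = c * c' * ∑ x, ∑ y, F (u * x * y) * (M x * M' y) := by
  have h2 : ∀ x, ∑ y, F (u * x * y) * (m x * m' y) =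
      c' * ((∑ y, F (u * x * y) * M' y) * m x) - c' * F 0 * M' 0 * m x := fun x => by
    have := h' (fun y => F (u * x * y)) fun y => by rw [mul_left_comm, hF]
    simp only [mul_left_comm _ (m x), ← mul_sum, this, mul_zero]
    ring
  have h3 := h (fun x => ∑ y, F (u * x * y) * M' y) fun x => by
    simp only [mul_left_comm u, mul_assoc t, hF]
  simp only [h2, sum_sub_distrib, ← mul_sum, h1, h3, h0, mul_zero, sub_zero, mul_left_comm _ (M _),
    mul_comm _ (M _)]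
  ring

theorem one_CANA {l : ℕ} [Fact l.Prime] (M M' : ZMod l → ℂ) {u : ZMod l} (hu : u ≠ 0) :
    ∑ x, ∑ y, wh (fun ξ => if ξ = 0 then 0 else 1) (u * x * y) * (M x * M' y) =
      l * (M 0 * ∑ y, M' y + (∑ x, M x) * M' 0 - M 0 * M' 0) - (∑ x, M x) * ∑ y, M' y := by
  have h1 : ∀ x : ZMod l, wh (fun ξ => if ξ = 0 then 0 else 1) x =
      (if x = 0 then (l : ℂ) else 0) - 1 := fun x => by
    rw [← eZ_sum, wh, eq_sub_iff_add_eq, show (1 : ℂ) = ∑ ξ : ZMod l, if ξ = 0 then 1 else 0 by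
      simp, ← sum_add_distrib]
    exact sum_congr rfl fun ξ _ => by split_ifs with e <;> simp [e, eZ_zero]
  have h2 : ∀ x y : ZMod l, ((if u * x * y = 0 then (l : ℂ) else 0) - 1) * (M x * M' y) =
      (if x = 0 then l * M 0 * M' y else 0) + (if y = 0 then l * M x * M' 0 else 0) -
        (if x = 0 then if y = 0 then l * M 0 * M' 0 else 0 else 0) - M x * M' y := fun x y => by
    by_cases a : x = 0 <;> by_cases b : y = 0 <;> simp [a, b, hu] <;> ring
  simp only [h1, h2, sum_sub_distrib, sum_add_distrib, sum_ite_eq', mem_univ, if_true,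
    sum_ite_irrel, sum_const_zero, ← mul_sum, ← sum_mul]
  ring

theorem wh_CANA {l : ℕ} [Fact l.Prime] {w : ZMod l → ℂ} {t : ZMod l} (ht : t ≠ 0)
    (h : ∀ x, w (t * x) = w x) (x : ZMod l) : wh w (t * x) = wh w x :=
  Fintype.sum_equiv (Equiv.mulLeft₀ t ht) _ _ fun ξ => by
    rw [Equiv.mulLeft₀_apply, h, mul_left_comm, mul_assoc]

theorem star_CANA (z : Zw) : V3.v (W.io (star z)) = V3.v (W.io z) := by
  by_cases h : z = 0
  · rw [h, star_zero]
  obtain ⟨n, y, hy, rfl⟩ := WfDvdMonoid.max_power_factor h pw_prime.irreducible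
  have e : star pw = -pw := by decide
  have h2 : ¬ pw ∣ star y := fun ⟨c, d⟩ => hy ⟨-star c, by
    rw [← star_star y, d, star_mul, e]; ring⟩
  simp only [star_mul', star_pow, e, map_mul, map_pow, map_neg, AbsoluteValue.map_neg,
    not_Ov.1 (V3_not hy), not_Ov.1 (V3_not h2)]

theorem sum_CANA {ι : Type} {s : Finset ι} {f : ι → Qb} {c : ℝ} (hc : 0 ≤ c)
    (h : ∀ i ∈ s, V3.v (f i) ≤ c) : V3.v (∑ i ∈ s, f i) ≤ c :=
  sum_induction f (fun x => V3.v x ≤ c) (fun _ _ => bLocA_add_le V3.na) (by simpa using hc) h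

theorem ne_CANA {b s : Zw} (hb : (nn b).Prime) (hs : s * star s = 1) :
    (nn b : ℂ) - iz (b * star s) ≠ 0 := fun e => by
  have h1 : nn s = 1 := by
    rw [mul_star_nn] at hs
    exact_mod_cast hs
  have h2 := congrArg nn (iz_inj ((map_natCast iz _).trans (sub_eq_zero.1 e)))
  rw [nn_nat, nn_mul, nn_star, h1, mul_one, pow_two] at h2
  exact hb.ne_one (Nat.eq_of_mul_eq_mul_left hb.pos (h2.trans (mul_one _).symm))

theorem ANA_pf (hWQ : WQ_st) (hS0 : SM0_st) (hST : SMT_st) (hEU : EUL_st) (hBI : BIL_st)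
    (hAM : AMN_st) (hWV : WV_st) (hAR : ARI_st) : ANA_st := by
  intro χ κ r e a hT hC hL hA hN
  have r0 : r ≠ 0 := hC.sf.ne_zero
  have M0 : (9 * r : Zw) ≠ 0 := mul_ne_zero (by decide) (Nat.cast_ne_zero.2 r0)
  have c3 : ∀ {b : Zw}, IsCoprime b (6 * r) → IsCoprime b (3 * r) := fun h =>
    h.of_isCoprime_of_dvd_right ⟨2, by ring⟩
  obtain ⟨w1, w2⟩ := hWQ χ κ r e hC hL
  obtain ⟨C, hC1⟩ := hAM r κ e hC
  obtain ⟨G₀, g0⟩ := (CYG_ok _ M0).1
  obtain ⟨ε₀, e0, hτ⟩ := hS0 r _ _ G₀ r0 w2 g0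
  have h6 : ∀ {ε : Zw}, IsUnit ε → 6 * W.io ε ≠ 0 := fun h =>
    mul_ne_zero (by norm_num) (io_ne h.ne_zero)
  have θ2 : (Mq fun g => iz (Qw r κ g)) ≠ 0 := fun z => by
    have := hτ a (c3 hA.cop)
    rw [z, mul_zero, map_eq_zero] at this
    exact mul_ne_zero (h6 e0) (hN G₀ g0) this
  have A2 := ne_CANA hA.star.deg (w2.uni _ (c3 hA.star.cop))
  have hτ := hτ _ (c3 hA.star.cop)
  set τ := 6 * W.io ε₀ * tr (fun g => -χ g) (star a) (9 * r) G₀
  set B₂ := (nn (star a) : ℂ) - iz (star a * star (Qw r κ (star a)))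
  set B₁ := (nn a : ℂ) - iz (a * star (Pw r κ a))
  have c0 : 2 * iz (9 * r) / Om ≠ 0 := div_ne_zero (mul_ne_zero two_ne_zero (iz_ne M0)) Om_ne
  have τ0 : 0 < V3.v (6 * τ) := V3.v.pos (mul_ne_zero (by norm_num) fun z => by
    rw [z, map_zero] at hτ
    exact mul_ne_zero (mul_ne_zero c0 A2) θ2 hτ.symm)
  obtain ⟨Γ, hΓ⟩ := alg_CANA ((2 * iz (9 * r) / Om) ^ 2 * B₁ * B₂ * C)
  have v3 : V3.v 3 < 1 := by simpa [Ov, map_ofNat] using V3_three
  have v9 : 0 < V3.v 9 := V3.v.pos (by norm_num)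
  have D0 : 0 < max (V3.v Γ) ((1 / V3.v 9) ^ 2) := lt_max_of_lt_right (by positivity)
  obtain ⟨c, hc⟩ := exists_pow_lt_of_lt_one (div_pos τ0 D0) v3
  refine ⟨c, fun k lam L f G hg hf hG => ?_⟩
  have := Fact.mk hg.deg
  obtain ⟨ρ, hρ⟩ := ex_rho (lam := lam) rfl
  have hρ' : ∀ x, cr ρ x = 0 ↔ star lam ∣ x := fun x => by
    rw [cr_apply, hρ]
    exact ⟨fun ⟨y, h⟩ => ⟨star y, by rw [← star_star x, h, star_mul']⟩,
      fun ⟨y, h⟩ => ⟨star y, by rw [h, star_mul', star_star]⟩⟩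
  have n9 : (9 * r : Zw) ∣ lam - 1 := dvd_trans ⟨9 * r, by rw [N0]; push_cast; ring⟩ hg.n0
  have n9' : (9 * r : Zw) ∣ star lam - 1 := by
    obtain ⟨y, h⟩ := n9
    exact ⟨star y, by simpa using congrArg star h⟩
  have l0 : lam ≠ 0 := hg.pp.1.ne_zero
  have la : ¬ lam ∣ a := fun h =>
    hg.na ((Nat.prime_dvd_prime_iff_eq hg.deg hA.deg).1 (nn_dvd h))
  have ρa : ρ a ≠ 0 := fun h => la ((hρ a).1 h)
  obtain ⟨u, u0, hu⟩ := hC1 _ lam ρ rfl hg.n0 hρ
  obtain ⟨E1, E2⟩ := hEU r _ _ _ lam ρ r0 w1 n9 hρ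
  obtain ⟨E3, E4⟩ := hEU r _ _ _ (star lam) (cr ρ) r0 w2 n9' hρ'
  obtain ⟨R1, R2⟩ := hAR r κ e k _ a lam L f ρ hC hg hf rfl hρ
  obtain ⟨V1, V2, V4⟩ := hWV r k _ a lam L ρ hg rfl hρ
  have sm : ∀ b : Zw, b ∣ 6 * r → b ∣ N0 r → ∀ x, wv L (ρ b * x) = wv L x := fun b h h' =>
    V4 b (fun d => hg.pp.1.not_isUnit (isUnit_of_dvd_one (by
      simpa using dvd_sub (dvd_refl lam) ((d.trans h').trans hg.n0)))) (hg.sm b h)
  have pl : ∀ p : ℕ, p.Prime → p ∣ N0 r → (p : Zw) ∣ 6 * r := fun p hp h => by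
    have : p ∣ 9 * r := hp.dvd_of_dvd_pow (n := 2) (by rwa [mul_pow])
    have : p ∣ 3 * r := hp.dvd_of_dvd_pow (n := 2) (this.trans ⟨r, by ring⟩)
    exact_mod_cast Nat.cast_dvd_cast (α := Zw) (this.trans (⟨2, by ring⟩ : _ ∣ 6 * r))
  have ll : iz lam * iz (star lam) = nn lam := by rw [← map_mul, mul_star_nn, map_natCast]
  have θ1 : (Mq fun g => iz (Pw r κ g)) = 0 := by
    have h1 := hu (fun ξ => if ξ = 0 then 0 else 1) (fun x => by simp) fun p hp h x => by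
      have : (p : ZMod (nn lam)) ≠ 0 := fun z => hg.pp.1.not_isUnit (isUnit_of_dvd_one (by
        simpa using dvd_sub (dvd_refl lam) ((((hρ p).1 (by simpa using z)).trans
          (Nat.cast_dvd_cast h)).trans hg.n0)))
      simp [this]
    have h2 : ∑ ξ : ZMod (nn lam), (if ξ = 0 then 0 else 1) * iz (be (N0 r) ρ (Psi r κ e) ξ) =
        0 := by
      rw [← sum_erase _ (a := 0) (by simp), ← map_zero iz, ← R1, map_sum]
      exact sum_congr rfl fun ξ h => by rw [if_neg (ne_of_mem_erase h), one_mul]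
    rw [one_CANA _ _ u0, h2, E1, E3, ← ll] at h1
    have h3 : iz (lam + star lam - 2) ≠ 0 := iz_ne (sub_ne_zero.2 hg.tr)
    rw [map_sub, map_add, map_ofNat] at h3
    refine (mul_eq_zero.1 ?_).resolve_left (mul_ne_zero h3 θ2)
    linear_combination h1 - iz (star lam) * ((Mq fun g => iz (Qw r κ g)) -
      Mr (Qw r κ) (cr ρ) 0) * E2 - (iz lam - 1) * (Mq fun g => iz (Pw r κ g)) * E4
  have Z1 : Mr (Pw r κ) ρ 0 = 0 := (mul_eq_zero.1 (E2.trans θ1)).resolve_left (iz_ne l0)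
  obtain ⟨G', g'⟩ := (CYG_ok _ (mul_ne_zero M0 (star_ne_zero.2 l0))).1
  obtain ⟨m, u₁, ε, lu, hε, m0, m1, m2, m3⟩ := hST r _ χ _ a lam ρ G r0 w1 hA.cop ρa rfl hρ hG
  obtain ⟨m', -, -, -, -, n0, n1, n2, -⟩ := hST r _ _ _ (star a) (star lam) (cr ρ) G' r0 w2
    hA.star.cop (by rwa [cr_apply, star_star]) (nn_star lam) hρ' g'
  rw [cr_apply, star_star] at n2
  have s1 := fun F hF => smo_CANA (F := F) (m := fun x => eC (m x)) ρa hF (by simp [m0]) m2
  have s2 := fun F hF => smo_CANA (F := F) (m := fun x => eC (m' x)) ρa hF (by simp [n0]) n2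
  have S1 : ∑ x, eC (m x) = 0 := by simpa [E1, θ1, Z1] using s1 (fun _ => 1) fun _ => rfl
  have S1' : ∑ x, m x = 0 := eC.injective (by rw [map_sum, S1, map_zero])
  have S2 : ∑ x, m' x = τ * W.io (star (lam - 1)) := eC.injective (by
    have := s2 (fun _ => 1) fun _ => rfl
    simp only [one_mul, E3] at this
    rw [map_sum, this, map_mul eC, hτ, map_mul iz _ (star lam)]
    change _ = _ * iz _
    rw [star_sub, star_one, map_sub, map_one]
    linear_combination -(2 * iz (9 * r) / Om * B₂) * E4)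
  have S3 := hΓ (∑ x, ∑ y, wa (wv L) (u * x * y) * (m x * m' y))
    (W.io (nn lam * ∑ ξ, wv L ξ * be (N0 r) ρ (Psi r κ e) ξ)) (by
    have h1 := hu (fun ξ => wv L ξ) (fun x => by simpa using sm (-1) (by simp) (by simp) x)
      fun p hp h x => by simpa using sm p (pl p hp h) (Nat.cast_dvd_cast h) x
    simp only [map_sum, map_mul eC, eC_wa]
    rw [bil_CANA u (wh_CANA ρa fun x => by rw [V4 a la hg.la]) Z1 S1 s1 s2, h1]
    change _ = _ * iz _
    simp only [map_sum, map_mul iz _ lam, map_mul iz _ (star lam), map_mul iz (↑(_ : ℕ)),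
      map_natCast, ← ll]
    ring)
  have K0 : ∀ {x : ℝ}, x * V3.v 9 ≤ 1 → x ≤ 1 / V3.v 9 := fun h => (le_div_iff₀ v9).2 h
  have S4 := hBI _ V3 (3 ^ k) (wv L) m m' u (1 / V3.v 9) u0 (if_pos rfl) V2 m0 n0 S1'
    fun x => ⟨K0 (m1 x), K0 (n1 x)⟩
  have un : ∀ η : Zw, IsUnit η → ∀ x, wv L (ρ η * x) = wv L x := fun η h => sm η h.dvd h.dvd
  have M1 := mul_ne_zero M0 l0
  have tv := (Xs_trv (UM_open M1) (UM_le _)).1
  have T0 : ∑ y ∈ Xs (UM (9 * r * lam)) GK, de a (eta χ y G) = 0 := by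
    have := m3 (fun _ => 1) fun _ _ _ => rfl
    simp only [Nat.cast_one, one_mul, S1'] at this
    exact (mul_eq_zero.1 this.symm).resolve_left (h6 hε)
  have v3k : V3.v (3 ^ k : ℕ) = V3.v 3 ^ k := by rw [Nat.cast_pow, map_pow, Nat.cast_ofNat]
  have a6 := hA.cop.of_mul_right_left
  have S5 : V3.v (∑ y ∈ Xs (UM (9 * r * lam)) GK, wv L (ρ (ps (9 * r * lam) y * u₁)) *
      de a (eta χ y G) - Td χ r a lam L G) ≤ V3.v 3 ^ k * (1 / V3.v 9) := by
    rw [Td, ← sub_zero (_ - _), ← mul_zero ((L u₁).val : Qb), ← T0, mul_sum, ← sum_sub_distrib,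
      ← sum_sub_distrib]
    refine sum_CANA (by positivity) fun y hy => ?_
    have p1 := (PS_ok _ l0).1 y (tv y hy)
    have p2 : ¬ lam ∣ ps lam y := hg.pp.1.coprime_iff_not_dvd.1 p1.2.1.symm
    have p3 : ¬ lam ∣ ps (9 * r * lam) y := hg.pp.1.coprime_iff_not_dvd.1
      ((PS_ok _ M1).1 y (tv y hy)).2.1.of_mul_right_right.symm
    rw [← sub_mul, ← sub_mul, map_mul, V1 _ (hg.pp.1.not_dvd_mul p3 lu), hg.add _ _ p3 lu,
      hg.per _ _ p3 (p1.2.2.2.2.2.2.2.2 _ M1 (dvd_mul_left _ _))]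
    refine mul_le_mul ?_ (K0 (TAY_ok a V3 _ 0 a6 (V3_not (cop6.1 a6).2)
      ((hG.gd CYG_ok M1 ⟨3 * r * lam, by ring⟩).eta χ (tv y hy)) ((E1_iff _ _).2 (Or.inl rfl))
      (by simp)).1) (V3.v.nonneg _) (by positivity)
    have := congrArg (Nat.cast : ℕ → Qb) (Nat.mod_add_div ((L (ps lam y)).val + (L u₁).val) (3 ^ k))
    rw [Nat.cast_add, Nat.cast_add, Nat.cast_mul] at this
    rw [ZMod.val_add, sub_sub, ← this, sub_add_cancel_left, V3.v.map_neg, map_mul, v3k]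
    exact mul_le_of_le_one_right (by positivity) (bLocA_nat V3.na _)
  obtain ⟨z, hz⟩ := R2
  have S6 : V3.v (W.io (nn lam * ∑ ξ, wv L ξ * be (N0 r) ρ (Psi r κ e) ξ)) ≤
      max (V3.v 3 ^ k) (V3.v (W.io (AR r κ e lam L f))) := by
    rw [map_mul, eq_add_of_sub_eq hz, map_add]
    refine (bLocA_mul_le (V3.io_le _)).trans (bLocA_add_le V3.na (le_max_of_le_left ?_)
      (le_max_right _ _))
    rw [map_mul, map_mul, map_pow, map_pow, map_ofNat]
    exact mul_le_of_le_one_right (by positivity) (V3.io_le _)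
  rw [S3, m3 _ fun η x h => un η h x, v3k] at S4
  set X := max (V3.v 3 ^ k) (V3.v (W.io (AR r κ e lam L f)))
  set D := max (V3.v Γ) ((1 / V3.v 9) ^ 2)
  have X0 : V3.v 3 ^ k ≤ X := le_max_left _ _
  have X1 : 0 ≤ V3.v 3 ^ k := by positivity
  have K1 : V3.v 3 ^ k * (1 / V3.v 9) ^ 2 ≤ D * X := by
    rw [mul_comm]
    exact mul_le_mul (le_max_right _ _) X0 X1 D0.le
  have ve : V3.v (W.io ε) = 1 := not_Ov.1 (not_Ov_unit V3 hε)
  have S7 : V3.v (6 * W.io ε * Td χ r a lam L G * ∑ x, m' x) ≤ D * X := by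
    have h1 := bLocA_sub_le V3.na ((map_mul V3.v _ _).trans_le
      (mul_le_mul (le_max_left _ _) S6 (V3.v.nonneg _) D0.le)) (S4.trans K1)
    rw [sub_sub_cancel] at h1
    have h2 : V3.v (6 * W.io ε * (∑ y ∈ Xs (UM (9 * r * lam)) GK,
        wv L (ρ (ps (9 * r * lam) y * u₁)) * de a (eta χ y G) - Td χ r a lam L G) * ∑ x, m' x) ≤
        D * X := by
      refine le_trans ?_ K1
      rw [mul_assoc, mul_assoc, pow_two, ← mul_assoc (V3.v 3 ^ k)]
      refine (bLocA_mul_le (by simpa using bLocA_nat V3.na 6)).trans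
        ((bLocA_mul_le ve.le).trans ((map_mul V3.v _ _).trans_le ?_))
      exact mul_le_mul S5 (sum_CANA (by positivity) fun x _ => K0 (n1 x)) (V3.v.nonneg _)
        (by positivity)
    have h3 := bLocA_sub_le V3.na h1 h2
    rwa [mul_sub, sub_mul, sub_sub_cancel] at h3
  rw [S2] at S7
  simp only [map_mul V3.v, ve, star_CANA] at S7 hc τ0
  rw [lt_div_iff₀ D0] at hc
  refine le_of_mul_le_mul_right ?_ D0
  have := mul_nonneg (V3.v.nonneg (Td χ r a lam L G)) (V3.v.nonneg (W.io (lam - 1)))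
  nlinarith [mul_le_mul_of_nonneg_left hc.le this]

end Pool.Agent.MP_e23604_nt.Z
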