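import Pool.Agent.MP_e23604_nt.Z.CE

/-!
The weight of a logarithm and the arithmetic side.
-/

set_option autoImplicit false

open Finset QuadraticAlgebra
open scoped Classical BigOperators

namespace Pool.Agent.MP_e23604_nt.Z

open B R S W Un

theorem WV_pf : WV_st := by
  intro r k l _ a lam L ρ h _ hρ
  have h1 : ∀ g, ¬ lam ∣ g → wv L (ρ g) = (L g).val := fun g hg => by
    rw [wv, if_neg fun e => hg ((hρ g).1 e), h.per g (ρ g).val hg ((hρ _).1 (by simp))]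
  have h2 : ∀ x : ZMod l, x ≠ 0 → ∃ g, ¬ lam ∣ g ∧ ρ g = x := fun x hx =>
    ⟨x.val, fun e => hx (by simpa using (hρ _).2 e), by simp⟩
  have h3 : ∀ g g', ¬ lam ∣ g → ¬ lam ∣ g' → wv L (ρ g * ρ g') = (L g + L g').val :=
    fun g g' e e' => by rw [← map_mul, h1 _ (h.pp.1.not_dvd_mul e e'), h.add g g' e e']
  refine ⟨h1, fun x y hx hy => ?_, fun g hg e x => ?_⟩
  · obtain ⟨g, e, rfl⟩ := h2 x hx
    obtain ⟨g', e', rfl⟩ := h2 y hy
    rw [h3 g g' e e', h1 g e, h1 g' e', ZMod.val_add]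
    exact Nat.mod_modEq _ _
  · by_cases hx : x = 0
    · rw [hx, mul_zero]
    · obtain ⟨g', e', rfl⟩ := h2 x hx
      rw [h3 g g' hg e', e, zero_add, h1 g' e']

theorem ARI_pf (h1 : SUM_st) (h2 : PSI_st) : ARI_st := by
  intro r κ e k l hl a lam L f ρ hc hL hf hn hρ
  obtain ⟨w1, w2, -⟩ := WV_pf r k l a lam L ρ hL hn hρ
  obtain ⟨p1, -, -, -, p5, -⟩ := h2 r κ e hc
  obtain ⟨s1, s2⟩ := h1 _ (Ideal.Quotient.mk (Ideal.span {(3 : Zw) ^ k})) r l lam ρ (Psi r κ e)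
    hc.sf.ne_zero (by simpa [← nn_cast, hn, nn_one] using nw_congr (n := N0 r) hL.n0) hn hρ p1
    fun b => p5 0 b (dvd_zero _)
  refine ⟨s1, Ideal.mem_span_singleton.1 (Ideal.Quotient.eq.1 ?_)⟩
  have s3 := s2 (fun x => (wv L x : _)) f ⟨fun x y hx hy => ?_, fun p hp d => ?_⟩ hf
  · simp only [AR, map_sum, map_mul, map_natCast]
    rw [← sum_erase (a := 0) _ (by simp [wv]), s3]
    refine sum_congr rfl fun x hx => ?_
    obtain ⟨q1, q2, -⟩ := (mem_filter.1 hx).2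
    rw [Nat.cast_mul, ← w1 x.1 fun d => ?_, map_natCast]
    have d1 := nn_dvd d
    have d2 := nn_mod3 hL.pp.2.pw
    rw [nn_nat, hn] at d1
    rw [hn, (Nat.prime_dvd_prime_iff_eq hl.out q1).1 (hl.out.dvd_of_dvd_pow d1)] at d2
    omega
  · obtain ⟨c, hc⟩ := (w2 x y hx hy).dvd
    have := congrArg (fun z : ℤ => Ideal.Quotient.mk (Ideal.span {(3 : Zw) ^ k}) z) hc
    simp only [Int.cast_mul, map_mul, Int.cast_natCast, Nat.cast_pow, Nat.cast_ofNat, Int.cast_pow,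
      Int.cast_ofNat, Ideal.Quotient.mk_singleton_self, zero_mul, Int.cast_sub, map_sub,
      map_natCast, sub_eq_zero] at this
    rw [← this, Nat.cast_add]
  · rw [← map_natCast ρ]
    by_cases d' : lam ∣ p
    · simp [(hρ _).2 d', wv]
    · rw [w1 _ d', hL.sm _ (by
        exact_mod_cast (hp.dvd_of_dvd_pow (d.trans ⟨16 * r ^ 2, by rw [N0]; ring⟩ :
          p ∣ (6 * r) ^ 4)).natCast (α := Zw)), ZMod.val_zero, Nat.cast_zero]

end Pool.Agent.MP_e23604_nt.Z
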