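import Pool.Agent.MP_e23604_nt.Z.CE

/-!
The bilinear form modulo `n`.
-/

set_option autoImplicit false

open Finset QuadraticAlgebra
open scoped Classical BigOperators

namespace Pool.Agent.MP_e23604_nt.Z

open B R S W Un

theorem sum_CBIL (V : Plc) {ι : Type} {s : Finset ι} {f : ι → Qb} {c : ℝ} (h0 : 0 ≤ c)
    (h : ∀ i ∈ s, V.v (f i) ≤ c) : V.v (∑ i ∈ s, f i) ≤ c :=
  sum_induction f (V.v · ≤ c) (fun _ _ => bLocA_add_le V.na) (by simpa) h

theorem mod_CBIL (V : Plc) {a b n : ℕ} (h : a ≡ b [MOD n]) : V.v (b - a) ≤ V.v n := by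
  obtain ⟨c, e⟩ := h.dvd
  rw [show (b - a : Qb) = c * n by exact_mod_cast e.trans (mul_comm _ _)]
  exact bLocA_mul_le (IsNonarchimedean.apply_intCast_le_one V.na)

theorem BIL_pf : BIL_st := by
  intro l _ V n w m m' u K hu w0 hw m0 m0' hm hK
  have l0 := NeZero.ne l
  have h1 : ∀ t, t ≠ 0 → V.v (wa w t - wa w 1 - w t) ≤ V.v n := fun t ht => by
    have e1 : ∑ ξ : ZMod l, zt l ^ (ξ * t).val = 0 := by
      simpa [wa, wh, eZ_sum, ht, ← map_pow, ← map_sum] using eC_wa (fun _ => 1) t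
    have e2 : wa w 1 = ∑ ξ : ZMod l, w (ξ * t) * zt l ^ (ξ * t).val :=
      (Fintype.sum_equiv (Equiv.mulRight₀ t ht) _ _ fun ξ => by simp).symm
    have e3 := add_sum_erase univ
      (fun ξ : ZMod l => ((w ξ + w t : ℕ) - w (ξ * t) : Qb) * zt l ^ (ξ * t).val) (mem_univ 0)
    conv_rhs at e3 => simp only [Nat.cast_add, sub_mul, add_mul, sum_sub_distrib, sum_add_distrib,
      ← mul_sum, e1, ← e2]
    simp only [zero_mul, w0, ZMod.val_zero, pow_zero, zero_add, Nat.cast_zero, sub_zero, mul_one,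
      mul_zero, add_zero] at e3
    rw [wa, ← e3, add_sub_cancel_left]
    refine sum_CBIL V (V.v.nonneg _) fun ξ h => ?_
    rw [mul_comm]
    refine (bLocA_mul_le (le_of_eq ((pow_eq_one_iff_of_nonneg (V.v.nonneg _) l0).1 ?_))).trans
      (mod_CBIL V (hw ξ t (ne_of_mem_erase h) ht))
    rw [← map_pow, zt_val_pow l0, map_one]
  have K0 : 0 ≤ K := (V.v.nonneg _).trans (hK 0).1
  have e : ∑ x, ∑ y, wa w (u * x * y) * (m x * m' y) - (∑ x, w x * m x) * ∑ y, m' y =
      ∑ x, ∑ y, (wa w (u * x * y) - (wa w 1 + w u + w y) - w x) * (m x * m' y) := by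
    have : ∑ x, ∑ y, (wa w 1 + w u + w y) * (m x * m' y) = 0 := by
      simp only [mul_left_comm _ (m _), ← mul_sum, ← sum_mul, hm, zero_mul]
    simp only [sub_mul, sum_sub_distrib, this, sub_zero, sum_mul_sum, mul_assoc]
  rw [e]
  refine sum_CBIL V (by positivity) fun x _ => sum_CBIL V (by positivity) fun y _ => ?_
  by_cases h : x = 0 ∨ y = 0
  · rcases h with rfl | rfl <;> simp only [m0, m0', zero_mul, mul_zero, map_zero] <;> positivity
  push Not at h
  rw [map_mul, map_mul, sq]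
  refine mul_le_mul ?_ (mul_le_mul (hK x).1 (hK y).2 (V.v.nonneg _) K0) (by positivity)
    (V.v.nonneg _)
  have := bLocA_sub_le V.na (h1 _ (mul_ne_zero (mul_ne_zero hu h.1) h.2)) (mod_CBIL V
    ((hw _ _ (mul_ne_zero hu h.1) h.2).trans ((hw _ _ hu h.1).add_right _)))
  refine le_of_eq_of_le (congrArg _ ?_) this
  push_cast
  ring

end Pool.Agent.MP_e23604_nt.Z
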