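import Pool.Agent.MP_e23604_nt.Z.CD

/-!
One term of the coefficient.
-/

set_option autoImplicit false

open Finset QuadraticAlgebra
open scoped Classical BigOperators

namespace Pool.Agent.MP_e23604_nt.Z

open W Un

theorem COA_pf (h1 : TFL_st) : COA_st := by
  intro N l _ ρ w Φ a c₁ c₂ n k u hN h3 hl hw hΦ hb n0 ⟨m, hm⟩ hc hu
  have c1 : c₁ ≠ 0 := by rintro rfl; simp [hm] at n0
  have c2 : c₂ ≠ 0 := by rintro rfl; simp [hm] at n0
  have N1 : (N : ℂ) ≠ 0 := Nat.cast_ne_zero.2 hN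
  have c3 : (c₁ : ℂ) ≠ 0 := Nat.cast_ne_zero.2 c1
  have N2 : (N : ZMod l) ≠ 0 := fun e => by
    obtain ⟨t, ht⟩ := hl
    simpa [e] using congrArg (Int.cast : ℤ → ZMod l) ht
  have c4 : (c₁ : ZMod l) ≠ 0 := fun e => by
    obtain ⟨t, ht⟩ := hc
    simpa [e, N2] using congrArg (Nat.cast : ℕ → ZMod l) ht
  have hw' : ∀ c : ℕ, c ∣ N ^ k → ∀ x, w (c * x) = w x := fun c => by
    induction c using induction_on_primes with
    | zero => simp [hN]
    | one => simp
    | prime_mul p c hp ih =>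
      intro h x
      rw [Nat.cast_mul, mul_assoc, hw p hp (hp.dvd_of_dvd_pow (dvd_of_mul_right_dvd h)),
        ih (dvd_of_mul_left_dvd h)]
  set K : ℤ × Zw → ℂ := fun p => if IsCoprime p.1 c₁ then
    ex ((p.1 * (u * nw p.2 + c₁ * m) : ℤ) / (c₁ * N : ℤ)) else 0 with hK
  have kp : ∀ d b x y, K (d + c₁ * (N * x), b + c₁ * N * y) = K (d, b) := fun d b x y => by
    obtain ⟨t, ht⟩ := nw_congr (n := c₁ * N) (a := b + c₁ * N * y) (b := b) ⟨y, by simp⟩
    exact if_congr IsCoprime.add_mul_left_left_iff (ex_mod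
      ⟨x * (u * nw (b + c₁ * N * y) + c₁ * m) + d * u * t, by linear_combination d * u * ht⟩) rfl
  have : AddGroup.FG (ℤ × Zw) := Module.Finite.iff_addGroup_fg.1 inferInstance
  have := AddSubgroup.finiteIndex_range_nsmulAddMonoidHom_of_fg (ℤ × Zw) (mul_ne_zero c1 hN)
  have ka : AP K := .of_le (nsmulAddMonoidHom (c₁ * N)).range fun _ ⟨q, e⟩ p =>
    e ▸ (congrArg K (by ext1 <;> simp [mul_assoc])).trans (kp p.1 p.2 q.1 q.2)
  have fa : AP fun p : ℤ × Zw => Φ p.2 * K p :=
    ((hΦ.ap hN).comp (AddMonoidHom.snd ℤ Zw)).mul ka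
  obtain ⟨ga, ge⟩ := Mn_fin (Int.castAddHom (ZMod l)) ZMod.intCast_surjective fun y =>
    ∑ ξ : ZMod l, if ρ (star a) = ξ * (c₁ * c₂) then
      w ξ * eZ (y * ((ξ * ρ a + m : ZMod l) * (N : ZMod l)⁻¹)) else 0
  have e1 : (Mn fun b => Φ b * (c₁ * Mn fun d : ℤ => if IsCoprime d c₁ then
      ex (d * (u * ((nw b + n) / N) : ℤ) / c₁) else 0)) =
      c₁ * Mn fun d : ℤ => Mn fun b => Φ b * K (d, b) := by
    rw [Mn_comm fa, ← Mn_mul_left fa.swap.mn]
    refine congrArg _ (funext fun b => ?_)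
    dsimp only
    rw [Mn_mul_left (ka.left b), mul_left_comm]
    by_cases e : Φ b = 0
    · simp [e]
    obtain ⟨t, ht⟩ := hb b e
    obtain ⟨s, hs⟩ := hu
    congr 3
    ext d
    rw [ht, Int.mul_ediv_cancel_left _ (by exact_mod_cast hN), hK]
    refine if_congr Iff.rfl ((ex_mod (y := d * u * t * N) ⟨-(d * m * s * c₁), ?_⟩).trans ?_).symm rfl
    · rw [hm] at ht
      push_cast at ht
      linear_combination d * u * ht - d * c₁ * m * hs
    · congr 1
      push_cast
      field_simp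
  have e2 : (∑ ξ : ZMod l, if ρ (star a) = ξ * c₂ ∧ ξ * ρ a + (n / c₂ : ℕ) = 0 then w ξ
      else 0) = _ := Eq.trans (by
    rw [Fintype.expect_eq_sum_div_card, sum_comm, ZMod.card, sum_div,
      ← Equiv.sum_comp (Equiv.mulLeft₀ _ c4), hm, mul_right_comm, Nat.mul_div_cancel _ (by positivity)]
    refine sum_congr rfl fun ξ _ => ?_
    have : (l : ℂ) ≠ 0 := Nat.cast_ne_zero.2 (NeZero.ne l)
    rw [sum_ite_irrel, ← mul_sum, eZ_sum, Equiv.mulLeft₀_apply, hw' _ hc, Nat.cast_mul,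
      mul_assoc _ ξ (ρ a), ← mul_add, ite_and]
    simp [c4, N2, ite_div, this, mul_left_comm ξ, mul_assoc]) ge.symm
  rw [e1, e2, ← mul_assoc, mul_assoc, ← Mn_mul fa.mn ga fun x => ?_,
    ← Mn_mul_left (fa.mn.mul ga)]
  · refine congrArg _ (funext fun d => ?_)
    have := ex_split hN hl (d * m)
    rw [hm, Nat.mul_div_cancel_left _ (by positivity), ← Int.cast_natCast m, ← Int.cast_mul, this,
      Nat.cast_mul, h1 N Φ c₁ c₂ u d k hN h3 hΦ (by exact_mod_cast hc) (by exact_mod_cast c2) hu,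
      mul_mul_mul_comm, XL, sum_mul, ← mul_assoc (_ * _)]
    congr 1
    · split_ifs with e
      · have e3 : ∀ b, Φ b * ex (d * u * nw b / ((c₁ : ℤ) * N)) =
            Φ b * K (d, b) * ex (-(d * m / N)) := fun b => by
          rw [hK, mul_assoc (Φ b)]
          simp only [if_pos e, ← ex_add]
          congr 2
          push_cast
          field_simp
          ring
        simp only [e3]
        rw [Mn_mul_right (fa.right d), mul_assoc, mul_assoc (Mn _), ← ex_add]
        simp [ex_zero]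
      · simp [Mn_const, hK, e]
    · refine sum_congr rfl fun ξ _ => ?_
      push_cast
      rw [ite_mul, zero_mul, mul_assoc (w ξ), ← eZ_add]
      congr 3
      simp only [Int.coe_castAddHom]
      ring
  · obtain ⟨y, hy⟩ := ZMod.intCast_surjective ((x : ZMod l) * (c₁ * N : ZMod l)⁻¹)
    refine ⟨c₁ * (N * y), fun d => congrArg _ (funext fun b => congrArg _ ?_), fun d => ?_⟩
    · simpa using kp d b y 0
    · have : (c₁ * (N * y) : ZMod l) = x := by
        rw [hy]
        field_simp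
      simp [this]

end Pool.Agent.MP_e23604_nt.Z
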