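import Pool.Agent.MP_e23604_nt.Z.CD

/-!
The coefficient.
-/

set_option autoImplicit false

open Finset QuadraticAlgebra
open scoped Classical BigOperators

namespace Pool.Agent.MP_e23604_nt.Z

open W Un

theorem div_CCOE {R m : ℕ} (h : R.Coprime m) (f : ℕ → ℂ) :
    ∑ c ∈ (R * m).divisors, f c = ∑ c₂ ∈ m.divisors, ∑ c₁ ∈ R.divisors, f (c₁ * c₂) := by
  rw [Nat.divisors_mul, Finset.mul_def, sum_image (by simpa using h.mul_injOn_divisors),
    sum_product, sum_comm]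

theorem sup_CCOE {N l : ℕ} (hN : N ≠ 0) (h3 : 3 ∣ N) (hl : (N : ℤ) ∣ l - 1) {a b : Zw}
    (ha : nn a < N * l / 3) (h : ex ((nw a - nw b) / N) = ex (1 / 3)) :
    (N : ℤ) ∣ nw b + (N * l / 3 - nn a : ℕ) := by
  obtain ⟨M, rfl⟩ := h3
  have hM : (M : ℂ) ≠ 0 := by exact_mod_cast fun e => hN (by rw [e])
  have h1 : ((3 * M : ℕ) : ℤ) ∣ nw a - nw b - M := by
    rw [← ex_div_eq_one (by exact_mod_cast hN)]
    have e : (((nw a - nw b - M : ℤ) : ℂ) / ((3 * M : ℕ) : ℤ)) =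
        (nw a - nw b) / (3 * M : ℕ) + -(1 / 3) := by
      push_cast
      field_simp
      ring
    rw [e, ex_add, h, ← ex_add, add_neg_cancel, ex_zero]
  rw [mul_assoc, Nat.mul_div_cancel_left _ three_pos] at ha ⊢
  rw [Nat.cast_sub ha.le, nn_cast]
  obtain ⟨k, hk⟩ := hl
  obtain ⟨k', hk'⟩ := h1
  exact ⟨M * k - k', by push_cast at *; linear_combination M * hk - hk'⟩

theorem ram_CCOE (h2 : RAM_st) {N R n : ℕ} (hN : N ≠ 0) (hR : R ≠ 0) {Φ : Zw → ℂ} (hΦ : PN N Φ)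
    (hs : ∀ b, Φ b ≠ 0 → (N : ℤ) ∣ nw b + n) {u : ℤ} (hu : IsCoprime (R : ℤ) u) :
    ∑ c ∈ R.divisors, (Mn fun b => Φ b * (c * Mn fun d : ℤ =>
      if IsCoprime d c then ex (d * (u * ((nw b + n) / N) : ℤ) / c) else 0)) =
    R * Mn fun b => if (R * N : ℤ) ∣ nw b + n then Φ b else 0 := by
  have hN' : (N : ℤ) ≠ 0 := by exact_mod_cast hN
  have hk : ∀ (c : ℕ) (x y : Zw), ∃ k : ℤ, nw (x + (c * N : ℕ) * y) = nw x + N * (c * k) := by
    intro c x y
    obtain ⟨k, hk⟩ := nw_congr (n := (c * N : ℕ)) (a := x + (c * N : ℕ) * y) (b := x) ⟨y, by simp⟩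
    exact ⟨k, by push_cast at hk ⊢; linear_combination hk⟩
  have hp : ∀ (c : ℕ) (x y : Zw), Φ (x + (c * N : ℕ) * y) = Φ x := fun c x y => by
    rw [← hΦ.per x (c * y)]
    congr 1
    push_cast
    ring
  rw [← Mn_sum, ← Mn_mul_left]
  · congr 1
    ext b
    rw [← mul_sum, h2 R _ hR]
    by_cases hb : Φ b = 0
    · simp [hb]
    obtain ⟨k, hk⟩ := hs b hb
    rw [hk, Int.mul_ediv_cancel_left _ hN', mul_comm (R : ℤ)]
    simp only [mul_dvd_mul_iff_left hN']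
    by_cases h : (R : ℤ) ∣ k
    · rw [if_pos h, if_pos (h.mul_left u), mul_comm]
    · rw [if_neg h, if_neg fun e => h (hu.dvd_of_dvd_mul_left e), mul_zero, mul_zero]
  · refine (Mn_zw (mul_ne_zero hR hN) fun x y => ?_).1
    obtain ⟨k, e⟩ := hk R x y
    rw [hp, e, show nw x + N * (R * k) + n = nw x + n + R * N * k by ring]
    simp only [dvd_add_left (dvd_mul_right _ _)]
  · intro c hc
    refine (Mn_zw (mul_ne_zero (Nat.pos_of_mem_divisors hc).ne' hN) fun x y => ?_).1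
    obtain ⟨k, e⟩ := hk c x y
    rw [hp, e, show nw x + N * (c * k) + n = nw x + n + N * (c * k) by ring,
      Int.add_mul_ediv_left _ _ hN']
    congr 3
    ext d
    split_ifs
    · have := ex_mod (x := d * (u * ((nw x + n) / N + c * k))) (y := d * (u * ((nw x + n) / N)))
        (n := c) ⟨d * u * k, by ring⟩
      simpa only [Int.cast_mul d, Int.cast_natCast] using this
    · rfl

theorem COE_pf (h1 : COA_st) (h2 : RAM_st) (h3 : DEN_st) (h4 : NSL_st) : COE_st := by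
  intro N hN hd
  obtain ⟨κ, hκ, H⟩ := h3 N hN hd
  refine ⟨κ, hκ, fun l _ ρ w Ψ hl hw hP hI hs => ?_⟩
  simp only [co, be, XX, mul_sum]
  rw [sum_comm]
  refine sum_congr rfl fun a ha => ?_
  have hs' := fun b hb => sup_CCOE hN hd hl (mem_bl.1 ha) (hs a b hb)
  have hn : N * l / 3 - nn a ≠ 0 := Nat.sub_ne_zero_of_lt (mem_bl.1 ha)
  generalize N * l / 3 - nn a = n at hs' hn ⊢
  obtain ⟨d1, d2, c1, c2, -⟩ := h4 N n hN hn
  have hR : nS N n ≠ 0 := fun e => hn (by simpa [e] using d1)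
  have H' := H (Ψ a) n (hP a) (hI a) hn
  have e : n = nS N n * (n / nS N n) := (Nat.mul_div_cancel' d1).symm
  generalize n / nS N n = m at *
  generalize nS N n = R at *
  rw [sum_comm]
  conv_lhs => rw [show n.divisors = (R * m).divisors by rw [← e], div_CCOE c2]
  refine sum_congr rfl fun c₂ hc => ?_
  have hc' := Nat.dvd_of_mem_divisors hc
  obtain ⟨u, v, huv⟩ : IsCoprime (c₂ : ℤ) (R * N : ℕ) :=
    Nat.isCoprime_iff_coprime.2 ((c2.symm.mul_right c1).coprime_dvd_left hc')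
  push_cast at huv
  rw [sum_congr rfl fun c₁ hc₁ => h1 N l ρ w (Ψ a) a c₁ c₂ n n u hN hd hl hw (hP a) hs' hn
    (e ▸ mul_dvd_mul (Nat.dvd_of_mem_divisors hc₁) hc') ((Nat.dvd_of_mem_divisors hc₁).trans d2)
    ((mul_dvd_mul_right (Int.natCast_dvd_natCast.2 (Nat.dvd_of_mem_divisors hc₁)) _).trans
      ⟨-v, by linear_combination huv⟩), ← sum_mul, ← mul_sum,
    ram_CCOE h2 hN hR (hP a) hs' ⟨v * N, c₂, by linear_combination huv⟩, H', mul_sum]
  refine sum_congr rfl fun ξ _ => ?_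
  split_ifs <;> ring

end Pool.Agent.MP_e23604_nt.Z
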