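import Pool.Agent.MP_e23604_nt.Z.CD

/-!
The cubic character on Eisenstein integers.
-/

set_option autoImplicit false

open Finset QuadraticAlgebra
open scoped Classical BigOperators

namespace Pool.Agent.MP_e23604_nt.Z

open W Un

theorem wa_CCXL (x y : ZMod 3) : (ω : Zw) ^ (x + y).val = ω ^ x.val * ω ^ y.val := by
  revert x y; decide

theorem ws_CCXL (x : ZMod 3) : star ((ω : Zw) ^ x.val) = ω ^ (-x).val := by
  revert x; decide

theorem iz_CCXL : ∃ s : ℤ, ¬ 3 ∣ s ∧ ∀ m : ℤ, iz (ω ^ (m : ZMod 3).val) = ex (s * m / 3) := by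
  have h3 : ex (1 / 3) ^ 3 = 1 := by simpa [← ex_nat_mul] using ex_int 1
  have h1 : ex (1 / 3) - 1 ≠ 0 := fun h => by
    have := (ex_div_eq_one (m := 1) (N := 3) (by decide)).1 (by simpa [sub_eq_zero] using h)
    omega
  have h2 : ex (1 / 3) ^ 2 + ex (1 / 3) + 1 = 0 :=
    mul_left_cancel₀ h1 (by linear_combination h3)
  obtain ⟨s, hs, e⟩ : ∃ s : ℕ, ¬ (3 : ℤ) ∣ s ∧ zc3 = ex (1 / 3) ^ s := by
    rcases mul_eq_zero.1 (show (zc3 - ex (1 / 3)) * (zc3 - ex (1 / 3) ^ 2) = 0 by
      linear_combination zc3_spec - zc3 * h2 + h3) with h | h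
    · exact ⟨1, by decide, by linear_combination h⟩
    · exact ⟨2, by decide, by linear_combination h⟩
  refine ⟨s, hs, fun m => ?_⟩
  have := ex_mod (x := s * ((m : ZMod 3).val : ℤ)) (y := s * m) (n := 3) (by
    rw [← mul_sub]
    exact Dvd.dvd.mul_left ((ZMod.intCast_zmod_eq_zero_iff_dvd _ 3).1 (by simp)) _)
  rw [map_pow, iz_w, e, ← pow_mul, ← ex_nat_mul]
  push_cast at this ⊢
  rw [← this]
  congr 1
  ring

theorem CXL_pf  : CXL_st := by
  intro r κ e h
  have cs : ∀ u : Zw, IsCoprime (star u) (3 * r) ↔ IsCoprime u (3 * r) := fun u =>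
    ⟨fun a => by simpa using cop_star a, fun a => by simpa using cop_star a⟩
  have ks : ∀ u : Zw, IsCoprime u (3 * r) → κ (star u) = -κ u := fun u a => by
    have := h.add u _ a ((cs u).2 a)
    rw [mul_star_eq, h.int _ (by rw [← mul_star_eq]; exact a.mul_left ((cs u).2 a))] at this
    linear_combination -this
  have cu : ∀ u : Zw, IsUnit u → IsCoprime u (3 * r) := fun u a =>
    (isCoprime_one_left.of_isCoprime_of_dvd_left a.dvd)
  have kw : ∀ i : ℕ, κ (ω ^ i) = 0 := fun i => by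
    induction i with
    | zero => simpa using h.int 1 (by simpa using isCoprime_one_left)
    | succ i ih => rw [pow_succ, h.add _ _ (cu _ (w_unit.pow i)) (cu _ w_unit), ih, h.w, add_zero]
  have c1 : ∀ n : ℕ, IsCoprime (1 + 3 * n * e2 r : Zw) (3 * r) := fun n => by
    rw [show (1 + 3 * n * e2 r : Zw) = 1 + 3 * r * (n * ((ω : Zw) - 1)) by rw [e2]; ring]
    exact isCoprime_one_left.add_mul_left_left _
  have kn : ∀ n : ℕ, κ (1 + 3 * n * e2 r) = e * n := fun n => by
    induction n with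
    | zero => simpa using kw 0
    | succ n ih =>
      have a := c1 1
      rw [Nat.cast_one, mul_one] at a
      rw [h.per _ ((1 + 3 * n * e2 r) * (1 + 3 * e2 r)) (c1 _)
        ⟨-(n * r * ((ω : Zw) - 1) ^ 2), by rw [e2]; push_cast; ring⟩, h.add _ _ (c1 n) a, ih, h.he]
      push_cast
      ring
  refine ⟨fun u v => ?_, fun u => ?_, fun u z => ?_, fun u a => ?_, fun n => ?_, fun u a => ?_,
    fun t u a b => ?_, ?_⟩
  · unfold cx
    by_cases a : IsCoprime u (3 * r) <;> by_cases b : IsCoprime v (3 * r) <;>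
      simp [IsCoprime.mul_left_iff, a, b]
    rw [h.add _ _ a b, wa_CCXL]
  · unfold cx
    by_cases a : IsCoprime u (3 * r)
    · rw [if_pos a, if_pos ((cs u).2 a), ks u a, ws_CCXL]
    · simp [cs, a]
  · unfold cx
    have : IsCoprime (u + 9 * r * z) (3 * r) ↔ IsCoprime u (3 * r) := by
      rw [show u + 9 * r * z = u + 3 * r * (3 * z) by ring, IsCoprime.add_mul_left_left_iff]
    by_cases a : IsCoprime u (3 * r)
    · rw [if_pos a, if_pos (this.2 a), h.per _ u (this.2 a) ⟨z, by ring⟩]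
    · simp [this, a]
  · rw [cx, if_pos a, ws_CCXL, ← wa_CCXL]
    simp
  · have : IsCoprime (n : Zw) (3 * r) ↔ IsCoprime n (3 * r) := by
      have := cop_iff (a := n) (n := 3 * r)
      rw [nw_int, IsCoprime.pow_left_iff two_pos] at this
      exact_mod_cast this
    by_cases a : IsCoprime n (3 * r)
    · rw [cx, if_pos a, if_pos (this.2 a), h.int n (this.2 a)]
      simp
    · simp [cx, this, a]
  · have : κ u = 0 := by
      obtain ⟨i, rfl | rfl⟩ := unit6 a
      · exact kw i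
      · have b := h.int (-1) (cu _ (by simp))
        rw [Int.cast_neg, Int.cast_one] at b
        rw [neg_eq_neg_one_mul, h.add _ _ (cu _ (by simp)) (cu _ (w_unit.pow i)), b, kw, add_zero]
    rw [cx, if_pos (cu u a), this]
    simp
  · rw [cx, cx, if_pos a, if_pos b, ws_CCXL, ← wa_CCXL, sub_eq_add_neg]
  obtain ⟨s, hs, H⟩ := iz_CCXL
  obtain ⟨k, rfl⟩ := ZMod.intCast_surjective e
  have H2 : ∀ n : ℤ, iz (ω ^ ((k : ZMod 3) * n).val) = ex ((s * k : ℤ) * n / 3) := fun n => by
    rw [← Int.cast_mul, H]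
    push_cast
    rw [mul_assoc]
  refine ⟨s * k, fun a => ?_, H2, fun x y a => ?_⟩
  · exact (Int.prime_three.dvd_or_dvd a).elim hs fun b =>
      h.ne ((ZMod.intCast_zmod_eq_zero_iff_dvd k 3).2 b)
  have cxx : IsCoprime (x : Zw) (3 * r) := by
    rw [show (x + 3 * y * e2 r : Zw) = x + 3 * r * (y * ((ω : Zw) - 1)) by rw [e2]; ring] at a
    exact a.of_add_mul_left_left
  have x3 : IsCoprime x 3 := by
    have := (cop_iff (a := x) (n := 3)).1 (by simpa using cxx.of_mul_right_left)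
    rwa [nw_int, IsCoprime.pow_left_iff two_pos] at this
  obtain ⟨n, hn⟩ : ∃ n : ℕ, (n : ZMod 3) = (x * y : ℤ) := ⟨_, ZMod.natCast_zmod_val _⟩
  obtain ⟨j, hj⟩ : (3 : ℤ) ∣ y - x * n := by
    refine (ZMod.intCast_zmod_eq_zero_iff_dvd _ 3).1 ?_
    have : (x : ZMod 3) ≠ 0 := fun b => Int.prime_three.not_isUnit
      (x3.isUnit_of_dvd' ((ZMod.intCast_zmod_eq_zero_iff_dvd x 3).1 b) dvd_rfl)
    push_cast at hn ⊢
    rw [hn]
    revert this
    generalize (x : ZMod 3) = p, (y : ZMod 3) = q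
    revert p q
    decide
  have hj' : (y : Zw) = x * n + 3 * j := by
    rw [show y = x * n + 3 * j by linear_combination hj]
    push_cast
    rfl
  rw [cx, if_pos a, h.per _ (x * (1 + 3 * n * e2 r)) a ⟨j * ((ω : Zw) - 1), by rw [hj', e2]; ring⟩,
    h.add _ _ cxx (c1 n), h.int x cxx, kn, zero_add, hn, H2]
  push_cast
  ring_nf

end Pool.Agent.MP_e23604_nt.Z
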