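import Pool.Agent.MP_e23604_nt.Z.CD

/-!
The local density.
-/

set_option autoImplicit false

open Finset QuadraticAlgebra
open scoped Classical BigOperators

namespace Pool.Agent.MP_e23604_nt.Z

open W Un

theorem per_CDEN {M : ℕ} (c : ℤ) (x y : Zw) :
    (M : ℤ) ∣ nw (x + M * y) + c ↔ (M : ℤ) ∣ nw x + c :=
  dvd_iff_dvd_of_dvd_sub (by
    simpa using nw_congr (n := M) (a := x + M * y) (b := x) ⟨y, by push_cast; ring⟩)

theorem DEN_pf (h1 : FCT_st) (h2 : NSL_st) : DEN_st := by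
  intro N N0 N3
  have hI : ∀ (c : ℤ) (x y : Zw), (if (N : ℤ) ∣ nw (x + N * y) + c then (1 : ℂ) else 0) =
      if (N : ℤ) ∣ nw x + c then 1 else 0 := fun c x y => by simp only [per_CDEN]
  refine ⟨(Mn fun y : Zw => if (N : ℤ) ∣ nw y + -1 then 1 else 0) / 6, ?_, fun Φ n hP hJ n0 => ?_⟩
  · rw [(Mn_zw N0 (hI _)).2, sum_boole]
    refine div_ne_zero (div_ne_zero (Nat.cast_ne_zero.2 (card_pos.2 ⟨(1, 0), ?_⟩).ne')
      (pow_ne_zero _ (Nat.cast_ne_zero.2 N0))) (by norm_num)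
    have := Nat.le_of_dvd (Nat.pos_of_ne_zero N0) N3
    simp [nw_def]
    omega
  obtain ⟨a1, a2, a3, -⟩ := h2 N n N0 n0
  rw [Bs]
  generalize nS N n = R at *
  obtain ⟨m, rfl⟩ := a1
  have R0 : R ≠ 0 := left_ne_zero_of_mul n0
  have R1 : (R : ℤ) ≠ 0 := Nat.cast_ne_zero.2 R0
  rw [Nat.mul_div_cancel_left _ (Nat.pos_of_ne_zero R0)] at *
  have cm : ∀ x : ℤ, (N : ℤ) ∣ x + m → IsCoprime x N := fun x ⟨k, hk⟩ => by
    rw [show x = -m + N * k by linear_combination hk]
    exact (Nat.isCoprime_iff_coprime.2 a3).neg_left.add_mul_left_left k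
  set G : Zw → ℂ := fun b => if (R * N : ℤ) ∣ nw b + (R * m : ℕ) then Φ b else 0 with hG
  have gp : ∀ x y : Zw, G (x + (R * N : ℕ) * y) = G x := fun x y => by
    have := per_CDEN (M := R * N) (R * m : ℕ) x y
    rw [Nat.cast_mul R N] at this
    simp only [hG, this]
    rw [Nat.cast_mul R N, mul_comm (R : Zw), mul_assoc, hP.per]
  have RN : R * N ≠ 0 := mul_ne_zero R0 N0
  have sR : ∀ s ∈ el R, s ≠ 0 ∧ nw s = R ∧ s ∣ (R * N : ℕ) := fun s hs => by
    have e := mem_el.1 hs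
    refine ⟨fun e' => R0 (by rw [← e, e']; rfl), by rw [← nn_cast, e], star s * N, ?_⟩
    rw [← mul_assoc, mul_star_nn, e, Nat.cast_mul]
  have ap : ∀ s ∈ el R, AP fun b => if s ∣ b then G b else 0 := fun s hs =>
    (Mn_zw RN fun x y => by
      simp only [gp, dvd_add_left ((sR s hs).2.2.mul_right y)]).1
  have e1 : ∀ b, 6 * G b = ∑ s ∈ el R, if s ∣ b then G b else 0 := fun b => by
    by_cases e : (R * N : ℤ) ∣ nw b + (R * m : ℕ)
    · obtain ⟨k, hk⟩ := e
      rw [← sum_filter, sum_const, h1 R (N * k - m) b R0 (by push_cast at hk; linear_combination hk)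
        ((cm _ ⟨k, by ring⟩).pow_right.of_isCoprime_of_dvd_right
          (by exact_mod_cast a2)).symm, nsmul_eq_mul, Nat.cast_ofNat]
    · simp [show G b = 0 from if_neg e]
  have e2 : ∀ s ∈ el R, ∀ y, G (s * y) = if (N : ℤ) ∣ nw y + m then Φ (s * y) else 0 :=
    fun s hs y => by
      simp only [hG]
      rw [nw_mul, (sR s hs).2.1, Nat.cast_mul, ← mul_add]
      simp only [mul_dvd_mul_iff_left R1]
  have e3 : 6 * Mn G = (Mn fun y => ∑ s ∈ el R, G (s * y)) / R := by
    rw [← Mn_mul_left (Mn_zw RN gp).1, funext e1, Mn_sum ap,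
      Mn_sum (f := fun s y => G (s * y)) fun s _ =>
        (Mn_zw RN gp).1.comp (AddMonoidHom.mulLeft s), sum_div]
    refine sum_congr rfl fun s hs => ?_
    have e := index_mul (sR s hs).1
    rw [mem_el.1 hs] at e
    have : (AddMonoidHom.mulLeft s).range.FiniteIndex := ⟨e ▸ R0⟩
    rw [Mn_sub (ap s hs) (AddMonoidHom.mulLeft s) fun x hx => if_neg fun ⟨c, hc⟩ => hx ⟨c, hc.symm⟩,
      e]
    simp
  have R2 : (R : ℂ) ≠ 0 := Nat.cast_ne_zero.2 R0
  rw [show R * Mn G = (Mn fun y => ∑ s ∈ el R, G (s * y)) / 6 by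
    rw [eq_div_iff (by norm_num), mul_assoc, mul_comm _ (6 : ℂ), e3]; field_simp]
  split_ifs with h
  · have hu := h.choose_spec
    generalize h.choose = u at hu ⊢
    rw [show (fun y => ∑ s ∈ el R, G (s * y)) = fun y => (if (N : ℤ) ∣ nw y + m then 1 else 0) *
        ∑ s ∈ el R, Φ (s * u) from funext fun y => by
      rw [sum_congr rfl fun s hs => e2 s hs y]
      split_ifs with e
      · rw [one_mul, hJ R y u (cm _ e) (by simpa using dvd_sub e hu)]
      · simp, Mn_mul_right (Mn_zw N0 (hI _)).1, ← Mn_comp (Mn_zw N0 (hI m)).1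
      (AddMonoidHom.mulRight u) fun b => ?_, mul_div_right_comm]
    · congr 3
      ext y
      rw [AddMonoidHom.mulRight_apply, nw_mul, show nw y * nw u + m = (nw y + -1) * nw u +
        (nw u + m) by ring]
      simp only [dvd_add_left hu, show (N : ℤ) ∣ (nw y + -1) * nw u ↔ (N : ℤ) ∣ nw y + -1 from
        ⟨(cm _ hu).symm.dvd_of_dvd_mul_right, fun e => e.mul_right _⟩]
    · obtain ⟨x, y, e⟩ := cop_iff.2 (cm _ hu)
      refine ⟨b * x, fun t => ?_⟩
      rw [AddMonoidHom.mulRight_apply, show b * x * u - b = N * -(b * y) by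
        push_cast at e; linear_combination b * e]
      exact hI _ _ _
  · rw [show (fun y => ∑ s ∈ el R, G (s * y)) = fun _ => 0 from funext fun y =>
      sum_eq_zero fun s hs => by rw [e2 s hs, if_neg fun e => h ⟨y, e⟩], Mn_const]
    simp

end Pool.Agent.MP_e23604_nt.Z
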