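import Pool.Agent.MP_e23604_nt.Z.CD

/-!
Divisor sums of logarithms.
-/

set_option autoImplicit false

open Finset QuadraticAlgebra
open scoped Classical BigOperators

namespace Pool.Agent.MP_e23604_nt.Z

open W Un

theorem rh_CDLG {n : ℕ} (h : n % 3 = 2) : rh n = 0 := by
  have e : rh n = -rh n := by
    rw [rh, ← sum_neg_distrib, ← Nat.sum_div_divisors n fun c => et c]
    refine sum_congr rfl fun c hc => ?_
    obtain ⟨d, rfl⟩ := Nat.dvd_of_mem_divisors hc
    rw [Nat.mul_div_cancel_left _ (Nat.pos_of_mem_divisors hc)]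
    rw [Nat.mul_mod] at h
    have h1 : c % 3 = 0 ∨ c % 3 = 1 ∨ c % 3 = 2 := by omega
    have h2 : d % 3 = 0 ∨ d % 3 = 1 ∨ d % 3 = 2 := by omega
    unfold et
    rcases h1 with a | a | a <;> rcases h2 with b | b | b <;> simp only [a, b] at h <;>
      split_ifs <;> omega
  omega

theorem spl_CDLG {q m : ℕ} (hq : q.Prime) (hm : ¬ q ∣ m) (v : ℕ) (g : ℕ → ℤ) :
    ∑ c ∈ (q ^ v * m).divisors, et c * g (c.factorization q) =
      (∑ i ∈ range (v + 1), et q ^ i * g i) * rh m := by
  rw [Nat.divisors_mul, mul_def,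
    sum_image ((hq.coprime_iff_not_dvd.2 hm).pow_left v).mul_injOn_divisors, sum_product,
    Nat.sum_divisors_prime_pow hq, sum_mul]
  refine sum_congr rfl fun i _ => ?_
  rw [rh, mul_sum]
  refine sum_congr rfl fun d hd => ?_
  have e : ∀ i, et ((q : ℤ) ^ i) = et q ^ i := fun i => by
    induction i with
    | zero => simp [et_one]
    | succ i ih => rw [pow_succ, et_mul, ih, pow_succ]
  rw [Nat.factorization_mul (pow_ne_zero _ hq.ne_zero) (Nat.pos_of_mem_divisors hd).ne',
    Finsupp.add_apply, Nat.factorization_pow_self hq, Nat.factorization_eq_zero_of_not_dvd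
      fun k => hm (k.trans (Nat.dvd_of_mem_divisors hd)), add_zero]
  push_cast
  rw [et_mul, e]
  ring

theorem one_CDLG {n q : ℕ} (h : n % 3 = 2) (hq : q.Prime) (hd : q ∣ n) :
    ∑ c ∈ n.divisors, et c * c.factorization q =
      if q % 3 = 2 then -((1 + (n / q).factorization q / 2 : ℕ) * rh (n / q)) else 0 := by
  obtain ⟨n, rfl⟩ := hd
  obtain ⟨v, m, hm, rfl⟩ := Nat.exists_eq_pow_mul_and_not_dvd (n := n) (by rintro rfl; omega) q
    hq.ne_one
  have e := spl_CDLG hq hm v fun _ => 1
  have m0 : m ≠ 0 := by rintro rfl; simp at hm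
  simp only [mul_one] at e
  rw [Nat.mul_div_cancel_left _ hq.pos, rh, e, ← mul_assoc, ← pow_succ',
    spl_CDLG hq hm (v + 1) fun i => i, Nat.factorization_mul (pow_ne_zero _ hq.ne_zero) m0,
    Finsupp.add_apply, Nat.factorization_pow_self hq, Nat.factorization_eq_zero_of_not_dvd hm,
    add_zero]
  rw [← mul_assoc, ← pow_succ', Nat.mul_mod, Nat.pow_mod] at h
  obtain a | a | a : q % 3 = 0 ∨ q % 3 = 1 ∨ q % 3 = 2 := by omega
  · simp [a] at h
  · rw [rh_CDLG (n := m) (by simpa [a] using h)]
    simp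
  obtain ⟨k, rfl | rfl⟩ := v.even_or_odd'
  · rw [if_pos a, show et q = -1 by unfold et; split_ifs <;> omega, ← mul_assoc, ← neg_mul]
    congr 1
    rw [Nat.mul_div_cancel_left _ two_pos]
    clear h e
    induction k with
    | zero => simp [sum_range_succ]
    | succ k ih =>
      simp only [mul_add, mul_one, sum_range_succ, neg_one_geom_sum, pow_succ, pow_mul] at ih ⊢
      simp at ih ⊢
      linear_combination ih
  · rw [a, add_assoc, pow_add, pow_mul, Nat.mul_mod (_ ^ k), Nat.pow_mod] at h
    rw [rh_CDLG (n := m) (by simpa using h)]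
    simp

theorem DLG_pf : DLG_st := by
  intro R _ L n h hL
  have n0 : n ≠ 0 := by omega
  have e : ∀ c, c ∣ n → L c = ∑ q ∈ n.primeFactors, c.factorization q * L q := fun c => by
    induction c using Nat.recOnMul with
    | zero => exact fun k => absurd (zero_dvd_iff.1 k) n0
    | one => exact fun k => by simpa using hL 1 1 k
    | prime p hp =>
      intro k
      rw [sum_eq_single_of_mem p (Nat.mem_primeFactors.2 ⟨hp, k, n0⟩) fun q _ hq => by
        simp [hp.factorization, hq.symm], hp.factorization_self, Nat.cast_one, one_mul]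
    | mul a b ha hb =>
      intro k
      have := ne_zero_of_dvd_ne_zero n0 k
      rw [hL a b k, ha ((dvd_mul_right _ _).trans k), hb ((dvd_mul_left _ _).trans k),
        Nat.factorization_mul (left_ne_zero_of_mul this) (right_ne_zero_of_mul this),
        ← sum_add_distrib]
      simp [add_mul]
  refine ⟨rh_CDLG h, ?_⟩
  rw [sum_congr rfl fun c hc => by rw [e c (Nat.dvd_of_mem_divisors hc), mul_sum], sum_comm,
    sum_filter, ← sum_neg_distrib]
  refine sum_congr rfl fun q hq => ?_
  have := congrArg (Int.cast : ℤ → R) (one_CDLG h (Nat.prime_of_mem_primeFactors hq)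
    (Nat.dvd_of_mem_primeFactors hq))
  generalize 1 + (n / q).factorization q / 2 = j at this ⊢
  simp only [← mul_assoc, ← sum_mul]
  push_cast at this
  rw [this]
  split_ifs <;> ring

end Pool.Agent.MP_e23604_nt.Z
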