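import Pool.Agent.MP_e23604_nt.Z.CE

/-!
The factor at the auxiliary prime.
-/

set_option autoImplicit false

open Finset QuadraticAlgebra Filter Topology
open scoped Classical BigOperators

namespace Pool.Agent.MP_e23604_nt.Z

open B R S W Un

theorem EUL_pf (h : MM_st) : EUL_st := by
  intro r l hl χ p lam σ hr hp ⟨k, hk⟩ hσ
  have r0 : (9 * r : Zw) ≠ 0 := by simpa using hr
  have l0 : (l : Zw) ≠ 0 := Nat.cast_ne_zero.2 hl.out.ne_zero
  have m0 : lam ≠ 0 := ne_zero_of_dvd_ne_zero l0 ((hσ l).1 (by simp))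
  have ap : ∀ x, AP (rr p σ x) := fun x => AP_zw (mul_ne_zero r0 l0) fun g z => by
    simp [rr, mul_assoc _ (l : Zw), hp.per]
  have aq : AP fun g => iz (p g) := AP_zw r0 fun g z => by rw [hp.per]
  have p1 : p lam = 1 := by rw [eq_add_of_sub_eq' hk, hp.per, hp.eps 1 isUnit_one]
  constructor
  · have := h.1 _ univ (fun _ => 1) (rr p σ) fun x _ => ap x
    simpa [rr, Mr] using this.symm
  have n0 := zero_lt_one.trans_le (one_le_nw m0)
  have t : Tendsto (fun ε : ℝ => ε * nw lam) (𝓝[>] 0) (𝓝[>] 0) :=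
    tendsto_nhdsWithin_iff.2 ⟨by
      simpa using (tendsto_id.mul_const (nw lam : ℝ)).mono_left (nhdsWithin_le_nhds (a := (0 : ℝ))),
      eventually_mem_nhdsWithin.mono fun ε e => mul_pos e n0⟩
  refine tendsto_nhds_unique ((h.2 _ (ap 0)).const_mul _) (((h.2 _ aq).comp t).congr fun ε => ?_)
  symm
  rw [Function.comp, ← tsum_mul_left, ← (mul_right_injective₀ m0).tsum_eq]
  · refine tsum_congr fun g => ?_
    have := iz_ne m0
    rw [rr, if_pos ((hσ _).2 (dvd_mul_right _ _))]
    simp only [hp.mul, p1, one_mul, map_mul, Int.cast_mul, mul_assoc]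
    field_simp
  · intro g hg
    have : lam ∣ g := by_contra fun e => hg (by simp [rr, hσ, e])
    exact this.imp fun _ => Eq.symm

end Pool.Agent.MP_e23604_nt.Z
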