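import Pool.Agent.MP_e23604_nt.Z.CD

/-!
Divisors of given norm, and the part of a number made of the primes of the level.
-/

set_option autoImplicit false

open Finset QuadraticAlgebra
open scoped Classical BigOperators

namespace Pool.Agent.MP_e23604_nt.Z

open W Un

theorem one_CFCT : (el 1).card = 6 := by
  have : el 1 = ({(1, 0), (-1, 0), (0, 1), (0, -1), (1, 1), (-1, -1)} : Finset (ℤ × ℤ)).image
      fun p => (⟨p.1, p.2⟩ : Zw) := by
    ext ⟨x, y⟩
    rw [mem_el, ← Nat.cast_inj (R := ℤ), nn_cast, nw_def]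
    simp only [image_insert, image_singleton, mem_insert, mem_singleton, QuadraticAlgebra.mk.injEq,
      Nat.cast_one]
    refine ⟨fun h => ?_, fun h => by rcases h with h | h | h | h | h | h <;> simp [h.1, h.2]⟩
    have h1 : x ≤ 1 := by nlinarith [sq_nonneg (x - 2 * y), sq_nonneg (x - 2)]
    have h2 : -1 ≤ x := by nlinarith [sq_nonneg (x - 2 * y), sq_nonneg (x + 2)]
    have h3 : y ≤ 1 := by nlinarith [sq_nonneg (y - 2 * x), sq_nonneg (y - 2)]
    have h4 : -1 ≤ y := by nlinarith [sq_nonneg (y - 2 * x), sq_nonneg (y + 2)]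
    interval_cases x <;> interval_cases y <;> simp_all
  rw [this, card_image_of_injective _ fun p q e => Prod.ext (congrArg re e) (congrArg im e)]
  rfl

theorem FCT_pf : FCT_st := by
  intro R m y hR hy hc
  obtain ⟨g, hg⟩ : ∃ g, g = EuclideanDomain.gcd y (R : Zw) := ⟨_, rfl⟩
  have g1 : g ∣ y := hg ▸ EuclideanDomain.gcd_dvd_left _ _
  have g2 : g ∣ R := hg ▸ EuclideanDomain.gcd_dvd_right _ _
  have e := EuclideanDomain.gcd_eq_gcd_ab y (R : Zw)
  rw [← hg] at e
  generalize EuclideanDomain.gcdA y (R : Zw) = a, EuclideanDomain.gcdB y (R : Zw) = b at e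
  obtain ⟨k, hk⟩ : (R : ℤ) ∣ nw g := by
    have := nw_congr (n := R) (a := g) (b := y * a) ⟨b, by rw [e]; push_cast; ring⟩
    rw [nw_mul, hy, mul_assoc] at this
    exact (dvd_sub_left (dvd_mul_right _ _)).1 this
  have hR' : (R : ℤ) ≠ 0 := Nat.cast_ne_zero.2 hR
  have k1 : k ∣ m := by
    have := Int.natCast_dvd_natCast.2 (nn_dvd g1)
    rwa [nn_cast, nn_cast, hk, hy, mul_dvd_mul_iff_left hR'] at this
  have k2 : k ∣ R := by
    have := Int.natCast_dvd_natCast.2 (nn_dvd g2)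
    rwa [nn_cast, nn_nat, hk, Nat.cast_pow, sq, mul_dvd_mul_iff_left hR'] at this
  have hn : nn g = R := by
    rw [nn, hk, Int.natAbs_mul, Int.isUnit_iff_natAbs_eq.1 (hc.isUnit_of_dvd' k2 k1), mul_one,
      Int.natAbs_natCast]
  have g0 : g ≠ 0 := by
    rintro rfl
    exact hR (hn.symm.trans (by decide))
  rw [← one_CFCT, ← card_image_of_injective (el 1) (mul_right_injective₀ g0)]
  refine congrArg card (Finset.ext fun s => ?_)
  simp only [mem_filter, mem_image, mem_el]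
  refine ⟨fun ⟨h1, h2⟩ => ?_, ?_⟩
  · obtain ⟨t, rfl⟩ : s ∣ g := hg ▸ EuclideanDomain.dvd_gcd h2 ⟨star s, by rw [mul_star_nn, h1]⟩
    rw [nn_mul, h1] at hn
    have ht : nn t = 1 := mul_left_cancel₀ hR (hn.trans (mul_one R).symm)
    exact ⟨star t, (nn_star t).trans ht, by rw [mul_assoc, mul_star_nn, ht, Nat.cast_one, mul_one]⟩
  · rintro ⟨u, hu, rfl⟩
    exact ⟨by rw [nn_mul, hn, hu, mul_one], (nn_unit.2 hu).mul_right_dvd.2 g1⟩

theorem cop_CFCT {N n : ℕ} (hN : N ≠ 0) (hn : n ≠ 0) : (n / nS N n).Coprime N := by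
  refine Nat.coprime_of_dvd fun p hp h1 h2 => ?_
  have h3 := hp.factorization_pos_of_dvd (Nat.div_gcd_pos_of_pos_left _ hn.bot_lt).ne' h1
  have h4 := Nat.le_mul_of_pos_right n (hp.factorization_pos_of_dvd hN h2)
  have h5 := Nat.factorization_lt p hn
  rw [Nat.factorization_div (Nat.gcd_dvd_left _ _), Nat.factorization_gcd hn (pow_ne_zero _ hN),
    Nat.factorization_pow] at h3
  simp only [Finsupp.coe_tsub, Pi.sub_apply, Finsupp.inf_apply, Finsupp.smul_apply, smul_eq_mul] at h3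
  omega

theorem NSL_pf : NSL_st := by
  intro N n hN hn
  have d : ∀ k, nS N k * (k / nS N k) = k := fun k => Nat.mul_div_cancel' (Nat.gcd_dvd_left _ _)
  have c : ∀ {k j : ℕ}, j.Coprime N → (nS N k).Coprime j := fun {k j} h =>
    ((h.pow_right k).coprime_dvd_right (Nat.gcd_dvd_right _ _)).symm
  refine ⟨Nat.gcd_dvd_left _ _, Nat.gcd_dvd_right _ _, cop_CFCT hN hn, c (cop_CFCT hN hn), ?_⟩
  rintro m hm ⟨k, rfl⟩
  rw [Nat.mul_div_cancel_left _ (left_ne_zero_of_mul hn).bot_lt]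
  refine ⟨Nat.dvd_antisymm ((c (cop_CFCT hN hn)).dvd_of_dvd_mul_right ?_)
    ((c (cop_CFCT hN (right_ne_zero_of_mul hn))).dvd_of_dvd_mul_right ?_),
    (c (k := m * k) hm).symm.dvd_of_dvd_mul_left ?_⟩ <;> rw [d]
  exacts [(Nat.gcd_dvd_left _ _).mul_left _, (c hm).dvd_of_dvd_mul_left (Nat.gcd_dvd_left _ _),
    dvd_mul_right _ _]

end Pool.Agent.MP_e23604_nt.Z
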