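import Pool.Agent.MP_e23604_nt.Z.C0

/-!
The Gauss sum of the norm form.
-/

set_option autoImplicit false

open Finset QuadraticAlgebra
open scoped Classical BigOperators

namespace Pool.Agent.MP_e23604_nt.Z

open W Un

theorem per_CGAU (u c : ℤ) (y : Zw) : c * y ∈ St fun y : Zw => ex (u * nw y / c) := fun x => by
  have := ex_mod (x := u * nw (x + c * y)) (y := u * nw x) (n := c) (by
    rw [← mul_sub]
    exact (nw_congr ⟨y, by ring⟩).mul_left u)
  push_cast at this
  exact this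

theorem ap_CGAU (u : ℤ) {c : ℤ} (h : c ≠ 0) : AP fun y : Zw => ex (u * nw y / c) :=
  AP_zw (Int.cast_ne_zero.2 h) fun x y => per_CGAU u c y x

theorem sq_CGAU {p u m : ℤ} (h : IsCoprime p (3 * u)) (p0 : p ≠ 0) (hm : m ≠ 0) :
    (Mn fun y : Zw => ex (u * nw y / (p * (p * m) : ℤ))) =
      (Mn fun y : Zw => ex (u * nw y / m)) / p ^ 2 := by
  have p1 : (p : ℂ) ≠ 0 := by exact_mod_cast p0
  have m1 : (m : ℂ) ≠ 0 := by exact_mod_cast hm
  have a := ap_CGAU u (mul_ne_zero p0 (mul_ne_zero p0 hm))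
  set f : Zw → ℂ := fun y => ex (u * nw y / (p * (p * m) : ℤ))
  have p2 : (p : Zw) ≠ 0 := Int.cast_ne_zero.2 p0
  have i := index_mul p2
  have : (AddMonoidHom.mulLeft (p : Zw)).range.FiniteIndex := ⟨i ▸ (nn_pos p2).ne'⟩
  have k : ∀ y z : Zw, f (y + AddMonoidHom.mulLeft ((p * m : ℤ) : Zw) z) =
      f y * ex ((u * trw (y * star z) : ℤ) / p) := fun y z => by
    simp only [f, AddMonoidHom.coe_mulLeft]
    rw [← ex_add, nw_add, nw_mul, nw_int, star_mul, star_intCast, ← mul_assoc, mul_comm _ (_ : Zw),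
      trw_int_mul]
    refine ex_congr (u * m * nw z) ?_
    push_cast
    field_simp
  have e : Mn f = Mn fun y => f y * if y ∈ (AddMonoidHom.mulLeft (p : Zw)).range then 1 else 0 := by
    rw [Mn_smooth a (AddMonoidHom.mulLeft ((p * m : ℤ) : Zw))]
    congr 1
    ext y
    split_ifs with hy
    · obtain ⟨b, rfl⟩ := hy
      rw [← Mn_const (A := Zw) (_ * 1)]
      congr 1
      ext z
      rw [k, (ex_div_eq_one p0).2]
      rw [AddMonoidHom.coe_mulLeft, mul_assoc, trw_int_mul]
      exact ⟨u * trw (b * star z), by ring⟩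
    · obtain ⟨v, hv⟩ : ∃ v, ¬ p ∣ trw (y * star v) := by
        by_contra! hv
        obtain ⟨c, h1⟩ := hv 1
        obtain ⟨d, h2⟩ := hv ω
        simp [trw] at h1 h2
        obtain ⟨s, hs⟩ := h.of_mul_right_left.dvd_of_dvd_mul_left (z := y.re)
          ⟨2 * c + d, by linear_combination 2 * h1 + h2⟩
        obtain ⟨t, ht⟩ := h.of_mul_right_left.dvd_of_dvd_mul_left (z := y.im)
          ⟨2 * d + c, by linear_combination 2 * h2 + h1⟩
        exact hy ⟨⟨s, t⟩, by ext <;> simp [hs, ht]⟩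
      rw [mul_zero]
      refine Mn_char (by simpa only [add_comm y] using (a.shift y).comp _) (v := v)
        (ζ := ex ((u * trw (y * star v) : ℤ) / p)) (fun z => ?_) fun e =>
          hv (h.of_mul_right_right.dvd_of_dvd_mul_left ((ex_div_eq_one p0).1 e))
      rw [k, k, star_add, mul_add, trw_add, mul_add, Int.cast_add, add_div, ex_add]
      ring
  rw [e, Mn_sub (a.mul (Mn_ind _ 1).1) (AddMonoidHom.mulLeft (p : Zw)) fun x hx => by simp [hx], i,
    ← Int.cast_natCast, nn_cast, nw_int, Int.cast_pow]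
  congr 2
  ext b
  rw [if_pos ⟨b, rfl⟩, mul_one]
  simp only [f, AddMonoidHom.coe_mulLeft]
  rw [nw_mul, nw_int]
  congr 1
  push_cast
  field_simp

theorem pr_CGAU {p : ℕ} (hp : p.Prime) {u : ℤ} (h : IsCoprime (p : ℤ) (3 * u)) :
    (Mn fun y : Zw => ex (u * nw y / (p : ℤ))) = et p / (p : ℤ) := by
  have := Fact.mk hp
  have p1 : (p : ℂ) ≠ 0 := by exact_mod_cast hp.ne_zero
  have hi := Nat.prime_iff_prime_int.1 hp
  have h3 : p ≠ 3 := fun e => hi.coprime_iff_not_dvd.1 h.of_mul_right_left (by simp [e])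
  have u0 : (u : ZMod p) ≠ 0 := fun e => hi.coprime_iff_not_dvd.1 h.of_mul_right_right
    ((ZMod.intCast_zmod_eq_zero_iff_dvd _ p).1 e)
  have e : ∀ (u : ℤ) (y : Zw), ex (u * nw y / (p : ℤ)) = eZ (u * nw y : ZMod p) := fun u y => by
    simpa using (eZ_int (l := p) (u * nw y)).symm
  have a : ∀ x : ZMod p, AP fun y : Zw => eZ (x * (nw y : ZMod p)) := fun x => by
    obtain ⟨x, rfl⟩ := ZMod.intCast_surjective x
    simpa only [e] using ap_CGAU x hi.ne_zero
  simp only [e]
  rcases S.prime_mod hp h3 with h1 | h1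
  · obtain ⟨ϖ, h2⟩ := ex_nn_prime hp h1
    obtain ⟨ρ, -⟩ := ex_rho h2
    have := (Mn_fin (ρ.toAddMonoidHom.prod (ρ.comp (starRingEnd Zw)).toAddMonoidHom)
      (fun q => (rho_surj2 h3 ρ q.1 q.2).imp fun y hy => Prod.ext hy.1 hy.2)
      fun q => eZ (q.2 * (q.1 * (u : ZMod p)))).2
    rw [Fintype.expect_eq_sum_div_card, Fintype.sum_prod_type] at this
    simp only [eZ_sum] at this
    rw [show et p = 1 by rw [et, if_pos (by omega)]]
    refine Eq.trans ?_ (this.trans ?_)
    · congr 1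
      ext y
      rw [← rho_nw ρ]
      congr 1
      exact (mul_comm _ _).trans (by rw [mul_comm (ρ y), mul_assoc]; rfl)
    · simp [u0]
  · have i := index_mul (s := p) (Nat.cast_ne_zero.2 hp.ne_zero)
    rw [nn_nat] at i
    have : (AddMonoidHom.mulLeft (p : Zw)).range.FiniteIndex := ⟨i ▸ pow_ne_zero 2 hp.ne_zero⟩
    have k := (Mn_ind (AddMonoidHom.mulLeft (p : Zw)).range p).2
    have k1 : ∀ y : Zw, (nw y : ZMod p) = 0 ↔ (p : Zw) ∣ y := fun y => by
      rw [← nn_cast, Int.cast_natCast, ZMod.natCast_eq_zero_iff]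
      exact ⟨inert_dvd hp h1, fun e => (dvd_pow_self p two_ne_zero).trans (nn_nat p ▸ nn_dvd e)⟩
    have k2 : ∀ x ∈ univ.erase (0 : ZMod p), (Mn fun y : Zw => eZ (x * (nw y : ZMod p))) =
        Mn fun y : Zw => eZ (u * nw y : ZMod p) := fun x hx => by
      obtain ⟨t, ht⟩ := ZMod.intCast_surjective (x / (u : ZMod p))
      obtain ⟨s, hs⟩ := ex_norm hp h3 t
      rw [← ZMod.intCast_zmod_eq_zero_iff_dvd, Int.cast_sub, ht, sub_eq_zero] at hs
      obtain ⟨c, d, e1⟩ := (inert_prime hp h1).coprime_iff_not_dvd.2 fun e =>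
        div_ne_zero (ne_of_mem_erase hx) u0 (hs.symm.trans ((k1 s).2 e))
      rw [← Mn_comp (a u) (AddMonoidHom.mulLeft s) fun b => ⟨d * b, ?_⟩]
      · simp only [AddMonoidHom.coe_mulLeft, nw_mul, Int.cast_mul, hs, ← mul_assoc,
          mul_div_cancel₀ x u0]
      · rw [show AddMonoidHom.mulLeft s (d * b) - b = (p : ℤ) * -(c * b) by
          simp only [AddMonoidHom.coe_mulLeft, Int.cast_natCast]; linear_combination b * e1]
        simpa only [e] using per_CGAU u p _
    have k3 := Mn_sum (s := univ) fun x _ => a x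
    simp only [eZ_sum, k1] at k3
    rw [← add_sum_erase _ _ (mem_univ 0), sum_congr rfl k2, sum_const, card_erase_of_mem (mem_univ _),
      card_univ, ZMod.card, nsmul_eq_mul, Nat.cast_pred hp.pos] at k3
    simp only [zero_mul, eZ_zero, Mn_const] at k3
    have k4 : (Mn fun y : Zw => if (p : Zw) ∣ y then (p : ℂ) else 0) = p / (p ^ 2 : ℕ) := by
      rw [← i, ← k]
      simp [dvd_def, eq_comm]
    rw [show et p = -1 by rw [et, if_neg (by omega), if_pos (by omega)]]
    apply mul_left_cancel₀ (sub_ne_zero.2 (show (p : ℂ) ≠ 1 by exact_mod_cast hp.ne_one))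
    rw [← sub_eq_iff_eq_add', k4] at k3
    rw [← k3]
    push_cast
    field_simp
    ring

theorem GAU_pf : GAU_st := by
  intro c u h hc
  induction' hn : c.natAbs using Nat.strong_induction_on with n ih generalizing c u
  by_cases h1 : c.natAbs = 1
  · rcases Int.natAbs_eq_iff.1 h1 with rfl | rfl
    · simpa [← Int.cast_mul, ex_int, et] using Mn_const (A := Zw) 1
    · simpa [← Int.cast_mul, ex_int, et, div_neg, ex_neg] using Mn_const (A := Zw) 1
  obtain ⟨p, hp, hd⟩ := Nat.exists_prime_and_dvd h1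
  obtain ⟨m, rfl⟩ := Int.natCast_dvd.2 hd
  have p0 := left_ne_zero_of_mul hc
  have m0 := right_ne_zero_of_mul hc
  have lt : m.natAbs < n := by
    rw [← hn, Int.natAbs_mul, Int.natAbs_natCast]
    exact lt_mul_left (Int.natAbs_pos.2 m0) hp.one_lt
  by_cases hm : (p : ℤ) ∣ m
  · obtain ⟨m, rfl⟩ := hm
    have m1 := right_ne_zero_of_mul m0
    have h3 : et p * et p = 1 := by
      have : ¬ (3 : ℤ) ∣ p := Int.prime_three.coprime_iff_not_dvd.1
        h.of_mul_left_left.of_mul_right_left.symm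
      unfold et
      split_ifs <;> omega
    rw [sq_CGAU h.of_mul_left_left p0 m1, ih _ ((Int.natAbs_le_of_dvd_ne_zero (dvd_mul_left _ _)
      m0).trans_lt lt) m u h.of_mul_left_right.of_mul_left_right m1 rfl, et_mul, et_mul, ← mul_assoc,
      h3, one_mul, div_div]
    congr 1
    push_cast
    ring
  · obtain ⟨b, a, e⟩ := (Nat.prime_iff_prime_int.1 hp).coprime_iff_not_dvd.2 hm
    have k : ∀ y : Zw, ex (u * nw y / (p * m : ℤ)) =
        ex ((a * u : ℤ) * nw y / (p : ℤ)) * ex ((b * u : ℤ) * nw y / m) := fun y => by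
      simpa [mul_assoc] using ex_crt (u := a) (v := b) (u * nw y) p0 m0 (by linear_combination e)
    simp only [k]
    rw [Mn_mul (ap_CGAU _ p0) (ap_CGAU _ m0) fun x => ⟨_, per_CGAU _ _ (b * x), ?_⟩, pr_CGAU hp,
      ih _ lt m _ _ m0 rfl, et_mul, div_mul_div_comm, Int.cast_mul, Int.cast_mul]
    · rw [mul_left_comm]
      exact IsCoprime.mul_right ⟨a, p, by linear_combination e⟩ h.of_mul_left_right
    · rw [mul_left_comm]
      exact IsCoprime.mul_right ⟨b, m, by linear_combination e⟩ h.of_mul_left_left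
    · have := congrArg (Int.cast : ℤ → Zw) e
      rw [show ((p : ℤ) : Zw) * (b * x) - x = m * -(a * x) by
        push_cast at this ⊢; linear_combination x * this]
      exact per_CGAU _ _ _

end Pool.Agent.MP_e23604_nt.Z
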