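import Pool.Agent.MP_e23604_nt.Z.CD

/-!
Numbers of norm one modulo an integer.
-/

set_option autoImplicit false

open Finset QuadraticAlgebra
open scoped Classical BigOperators

namespace Pool.Agent.MP_e23604_nt.Z

open W Un

theorem sq_CH90 {p : ℕ} (hp : p.Prime) (h3 : p ≠ 3) {t : Zw} (h : (p : Zw) ∣ t * t) :
    (p : Zw) ∣ t := by
  obtain ⟨z, hz⟩ := h
  have hq := Nat.prime_iff_prime_int.1 hp
  have h1 : (p : ℤ) ∣ t.re * t.re - t.im * t.im :=
    ⟨z.re, by simpa [sub_eq_add_neg] using congrArg QuadraticAlgebra.re hz⟩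
  have h2 : (p : ℤ) ∣ t.im * (2 * t.re - t.im) :=
    ⟨z.im, by
      have := congrArg QuadraticAlgebra.im hz
      simp at this
      linear_combination this⟩
  have h4 : (p : ℤ) ∣ t.re ∧ (p : ℤ) ∣ t.im := by
    rcases hq.dvd_or_dvd h2 with h | h
    · exact ⟨(hq.dvd_or_dvd ((dvd_sub_left (h.mul_right _)).1 h1)).elim id id, h⟩
    · have h5 : (p : ℤ) ∣ 3 * (t.re * t.re) := by
        rw [show 3 * (t.re * t.re) = (2 * t.re - t.im) * (2 * t.re + t.im) -
          (t.re * t.re - t.im * t.im) by ring]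
        exact dvd_sub (h.mul_right _) h1
      have h6 : (p : ℤ) ∣ t.re := (hq.dvd_or_dvd ((hq.dvd_or_dvd h5).resolve_left fun e =>
        h3 ((Nat.prime_dvd_prime_iff_eq hp Nat.prime_three).1 (by exact_mod_cast e)))).elim id id
      exact ⟨h6, (dvd_sub_right (h6.mul_left 2)).1 h⟩
  obtain ⟨⟨a, ha⟩, b, hb⟩ := h4
  exact ⟨⟨a, b⟩, by ext <;> simp [ha, hb]⟩

theorem H90_pf : H90_st := by
  intro N v hN h3 ⟨k, hk⟩
  have hv : v * star v = 1 + N * k := by
    rw [mul_star_eq, show nw v = 1 + N * k by linear_combination hk]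
    push_cast
    rfl
  obtain ⟨ε, he, hA⟩ : ∃ ε : Zw, (ε = 1 ∨ ε = -1) ∧ ¬ pw ∣ 1 + ε * star v := by
    by_contra! h
    have := dvd_add (h 1 (Or.inl rfl)) (h (-1) (Or.inr rfl))
    rw [show 1 + 1 * star v + (1 + -1 * star v) = 2 by ring, pw_dvd_iff] at this
    exact absurd this (by decide)
  have e1 : star ε = ε := by rcases he with rfl | rfl <;> simp
  have e2 : ε * ε = 1 := by rcases he with rfl | rfl <;> simp
  set A := 1 + ε * star v with hAe
  set b := ∏ p ∈ N.primeFactors.filter fun p : ℕ => ¬ (p : Zw) ∣ A, p with hb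
  have hb1 : ∀ p : ℕ, p.Prime → p ∣ N → ¬ (p : Zw) ∣ A → (p : Zw) ∣ b := fun p h1 h2 h =>
    Nat.cast_dvd_cast (dvd_prod_of_mem _ (mem_filter.2 ⟨Nat.mem_primeFactors.2 ⟨h1, h2, hN⟩, h⟩))
  set t : Zw := A + (b : Zw) * ((ω : Zw) + ε * star v * star (ω : Zw)) with ht
  have hd : (N : Zw) ∣ v * t - ε * star t := ⟨(k : Zw) * ε * (1 + (b : Zw) * star (ω : Zw)), by
    simp only [ht, hAe, star_add, star_mul, star_one, star_star, star_natCast, e1]
    linear_combination ε * (1 + (b : Zw) * star (ω : Zw)) * hv - v * (1 + (b : Zw) * ω) * e2⟩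
  refine ⟨t, ε, ?_, he, hd⟩
  rw [← Int.cast_natCast, cop_iff, ← nn_cast, Nat.isCoprime_iff_coprime]
  refine Nat.coprime_of_dvd fun p hp h1 h2 => ?_
  by_cases e : p = 3
  · subst e
    exact hA ((dvd_add_left ((pw_dvd3.trans (hb1 3 hp h2 fun h => hA (pw_dvd3.trans h))).mul_right
      _)).1 (pw_dvd_iff.2 h1))
  have h4 : (p : Zw) ∣ N := Nat.cast_dvd_cast h2
  have h5 : (p : Zw) ∣ t * star t := mul_star_nn t ▸ Nat.cast_dvd_cast h1
  have h6 : (p : Zw) ∣ t := sq_CH90 hp e (by
    rw [show t * t = star v * t * (v * t - ε * star t) + t * star t * (ε * star v) -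
      N * (k * (t * t)) by linear_combination -(t * t) * hv]
    exact dvd_sub (dvd_add ((h4.trans hd).mul_left _) (h5.mul_right _)) (h4.mul_right _))
  by_cases h7 : (p : Zw) ∣ A
  · have h8 : IsCoprime (p : Zw) b := Nat.Coprime.cast (Nat.Coprime.prod_right fun q hq =>
      (Nat.coprime_primes hp (Nat.prime_of_mem_primeFactors (mem_filter.1 hq).1)).2 fun e =>
        (mem_filter.1 hq).2 (e ▸ h7))
    have h9 := nn_dvd (dvd_sub (h8.dvd_of_dvd_mul_left ((dvd_add_right h7).1 h6))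
      (h7.mul_right (star (ω : Zw))))
    rw [show (ω : Zw) + ε * star v * star (ω : Zw) - A * star (ω : Zw) = pw by
      rw [hAe, show pw = ω - star (ω : Zw) by decide]; ring, nn_nat, nn_pw] at h9
    exact e ((Nat.prime_dvd_prime_iff_eq hp Nat.prime_three).1
      ((dvd_pow_self p two_ne_zero).trans h9))
  · exact h7 ((dvd_add_left ((hb1 p hp h2 h7).mul_right _)).1 h6)

theorem IND_pf (h : H90_st) : IND_st := by
  intro R _ N Φ hN h3 hp hs m u u' ⟨x, y, e⟩ ⟨k, hk⟩
  obtain ⟨t, ε, h1, he, z, hz⟩ := h N (u' * star u * x) hN h3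
    ⟨-k * x ^ 2 * nw u - y * (x * nw u + 1), by
      rw [nw_mul, nw_mul, nw_star, nw_int]
      linear_combination (x * nw u + 1) * e - x ^ 2 * nw u * hk⟩
  obtain ⟨c, d, e1⟩ := id h1
  have e2 : (x : Zw) * (u * star u) + y * N = 1 := by
    rw [mul_star_eq]
    exact_mod_cast congrArg (Int.cast : ℤ → Zw) e
  have key : ∀ s, Φ (s * u') = Φ (ε * s * u) := fun s => by
    rw [show s * u' = ε * s * u * c * star t + N * (s * u * c * z + s * u' * (d + y * c * t)) by
        linear_combination s * u * c * hz - s * u' * c * t * e2 - s * u' * e1, hp, hs _ t h1,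
      show ε * s * u * c * t = ε * s * u + N * -(ε * s * u * d) by
        linear_combination ε * s * u * e1, hp]
  simp only [key]
  rcases he with rfl | rfl
  · simp only [one_mul]
  · exact sum_nbij' (fun s => -s) (fun s => -s) (by simp [mem_el, nn_neg]) (by simp [mem_el, nn_neg])
      (by simp) (by simp) (by simp)

end Pool.Agent.MP_e23604_nt.Z
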