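import Pool.Agent.MP_e23604_nt.Z.CE

/-!
Sums over the Galois group and regularised sums.
-/

set_option autoImplicit false

open Finset QuadraticAlgebra
open scoped Classical BigOperators

namespace Pool.Agent.MP_e23604_nt.Z

open B R S W Un

theorem dec_CKDS {M g v : Zw} (χ : GQ → ZMod 3) (hM : M ≠ 0) (h3 : 3 ∣ M) (hg : IsCoprime g M)
    (hv : IsCoprime v M) : ∃! i, i ∈ el 1 ×ˢ Xs (UM M) GK ∧
      M ∣ g - i.1 * ω ^ (χ i.2).val * ps M i.2 * v := by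
  have hX := Xs_trv (UM_open hM) (UM_le M)
  have hS := (W.PS_ok M hM).1
  refine existsUnique_of_exists_of_unique ?_ ?_
  · obtain ⟨v', c, e⟩ := hv
    have h1 : IsCoprime (g * v') M := hg.mul_left ⟨v, c, by linear_combination e⟩
    obtain ⟨u, hu, h2⟩ := ex_pry (a := g * v') fun d =>
      pw_prime.not_isUnit (h1.isUnit_of_dvd' d (pw_dvd3.trans h3))
    obtain ⟨g₀, k, h4⟩ := W.SURJ_ok M _ hM h2 ((isCoprime_mul_unit_left_left hu _ _).2 h1)
    obtain ⟨y, ⟨y1, y2⟩, -⟩ := hX.2 g₀ k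
    obtain ⟨z, hz⟩ := ((hS y (hX.1 y y1)).2.2.2.2.1 _).1 fun P hP =>
      (inv_AORB.1 (y2.2 P hP)).symm.trans (h4 P hP)
    obtain ⟨u', e1⟩ := hu.exists_right_inv
    obtain ⟨w', e2⟩ := (w_unit.pow (χ y).val).exists_right_inv
    refine ⟨(u' * w', y), mem_product.2 ⟨mem_el.2 (nn_unit.1
      ((IsUnit.of_mul_eq_one_right _ e1).mul (IsUnit.of_mul_eq_one_right _ e2))), y1⟩,
      g * c - u' * z * v, ?_⟩
    linear_combination (-u' * ps M y * v) * e2 - u' * v * hz - g * v' * v * e1 - g * e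
  · rintro ⟨ε, y⟩ ⟨ε', y'⟩ ⟨h1, e1⟩ ⟨h2, e2⟩
    obtain ⟨a1, k⟩ := mem_product.1 h1
    obtain ⟨a2, k'⟩ := mem_product.1 h2
    have u1 := (nn_unit.2 (mem_el.1 a1)).mul (w_unit.pow (χ y).val)
    have u2 := (nn_unit.2 (mem_el.1 a2)).mul (w_unit.pow (χ y').val)
    have e3 := dvd_sub e2 e1
    rw [sub_sub_sub_cancel_left, ← sub_mul] at e3
    replace e3 := hv.symm.dvd_of_dvd_mul_right e3
    obtain ⟨t, ht⟩ := u2.exists_right_inv
    have e4 : ε * ω ^ (χ y).val = ε' * ω ^ (χ y').val := by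
      obtain ⟨a, ha⟩ := h3.trans e3
      obtain ⟨b, hb⟩ := (hS y (hX.1 y k)).2.2.1 h3
      obtain ⟨c, hc⟩ := (hS y' (hX.1 y' k')).2.2.1 h3
      have := Pry.unit (u := ε * ω ^ (χ y).val * t) ⟨t * a - ε * ω ^ (χ y).val * t * b + c, by
        linear_combination t * ha - ε * ω ^ (χ y).val * t * hb + hc + ps M y' * ht⟩
        (u1.mul (IsUnit.of_mul_eq_one_right _ ht))
      linear_combination ε' * ω ^ (χ y').val * this - ε * ω ^ (χ y).val * ht
    rw [e4, ← mul_sub, u2.dvd_mul_left] at e3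
    obtain rfl : y = y' := (hX.2 y' (hX.1 y' k')).unique
      ⟨k, GK.mul_mem (GK.inv_mem (hX.1 y k)) (hX.1 y' k'), fun P hP => inv_AORB.2 (by
        rw [(hS y' (hX.1 y' k')).1 P hP, ((hS y (hX.1 y k)).2.2.2.2.1 _).2 e3 P hP])⟩ ⟨k', by simp⟩
    rw [mul_right_cancel₀ (w_unit.pow _).ne_zero e4]

theorem sum_CKDS (h2 : MM_st) {M v : Zw} (χ : GQ → ZMod 3) (hM : M ≠ 0) (h3 : 3 ∣ M)
    (hv : IsCoprime v M) {q : Zw → ℂ} (hq : ∀ x z, q (x + M * z) = q x)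
    (hs : ∀ x, q x ≠ 0 → IsCoprime x M) : Mq q = ∑ i ∈ el 1 ×ˢ Xs (UM M) GK,
      q (i.1 * ω ^ (χ i.2).val * ps M i.2 * v) *
        Mq (rc M (i.1 * ω ^ (χ i.2).val * ps M i.2 * v)) := by
  rw [← h2.1 _ _ _ _ fun i _ => AP_zw hM fun y t => by
    simp only [rc, add_sub_right_comm, dvd_add_left (dvd_mul_right M t)]]
  congr 1
  ext g
  have e : ∀ x, q x * rc M x g = if M ∣ g - x then q g else 0 := fun x => by
    unfold rc
    split_ifs with h
    · obtain ⟨z, hz⟩ := h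
      rw [mul_one, ← hq x z, ← hz, add_sub_cancel]
    · exact mul_zero _
  simp only [e]
  by_cases h : q g = 0
  · simp [h]
  obtain ⟨i, ⟨h1, h4⟩, h5⟩ := dec_CKDS χ hM h3 (hs g h) hv
  rw [sum_eq_single_of_mem i h1 fun j hj hn => if_neg fun d => hn (h5 j ⟨hj, d⟩), if_pos h4]

theorem KDS_pf (h1 : KDE_st) (h2 : MM_st) : KDS_st := by
  intro M G hM h3 hG
  have m0 := iz_ne hM
  obtain ⟨Q, -, hQ⟩ := ex_lg (nn_pos hM) (z := Om / iz M) (mem_L0.2 ⟨star M, by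
    rw [← map_natCast iz, ← mul_star_nn, map_mul]; field_simp⟩)
  have hq : Gen M Q := fun b => by
    rw [← lg_mem, ← L0.lattice.sub_mem_iff_left (lg_smul b Q), sub_sub_cancel,
      ← L0.lattice.sub_mem_iff_left (L0_mul b hQ), mem_L0]
    refine exists_congr fun c => ?_
    rw [← iz_inj.eq_iff, map_mul, ← mul_right_inj' (div_ne_zero Om_ne m0) (b := iz b), eq_comm]
    exact Eq.congr (by ring) (by field_simp)
  obtain ⟨u, rfl⟩ := (W.CYG_ok M hM).2.1 Q hq G hG.zero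
  obtain ⟨u', e⟩ := (W.CYG_ok M hM).2.1 _ hG Q hq.zero
  rw [← mul_smul, ← one_smul Zw Q, smul_smul, mul_one, hq.congr] at e
  obtain ⟨c, hc⟩ := e
  have hu : IsCoprime u M := ⟨u', c, by linear_combination -hc⟩
  refine ⟨u, hu, fun a χ p p' ha hp hp' hs hh => ?_⟩
  have hS := (W.PS_ok M hM).1
  rw [sum_CKDS h2 χ hM h3 hu hp hs, sum_CKDS h2 χ hM h3 (ha.mul_left hu) hp' fun x hx => ?_,
    ← sum_product', mul_sum, mul_sum, ← sum_sub_distrib, mul_sum]
  · refine sum_congr rfl fun i hi => ?_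
    obtain ⟨a1, k⟩ := mem_product.1 hi
    replace k := (Xs_trv (UM_open hM) (UM_le M)).1 _ k
    have n1 : ¬ M ∣ a * (i.1 * ω ^ (χ i.2).val * ps M i.2 * u) := fun d =>
      pw_prime.not_isUnit (isUnit_of_dvd_unit (pw_dvd3.trans h3) ((ha.mul_left
        (((isCoprime_mul_unit_left_left ((nn_unit.2 (mem_el.1 a1)).mul (w_unit.pow _)) _ _).2
          (hS _ k).2.1).mul_left hu)).isUnit_of_dvd' d dvd_rfl))
    rw [eta_apply, (hS _ k).1 _ hG.zero, smul_smul, smul_smul, smul_smul,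
      h1 a M _ Q hM (left_ne_zero_of_mul (fun e => n1 (e ▸ dvd_zero _))) hQ n1,
      mul_left_comm _ a u, hh]
    ring
  · obtain ⟨a', d, e⟩ := ha
    rw [show x = a * (a' * x) + M * (d * x) by linear_combination (-x) * e, hp', hh] at hx
    exact (hs _ hx).of_mul_left_right

end Pool.Agent.MP_e23604_nt.Z
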