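import Pool.Agent.MP_e23604_nt.Z.CD

/-!
The algebra of the matrices.
-/

set_option autoImplicit false

open Finset QuadraticAlgebra
open scoped Classical BigOperators

namespace Pool.Agent.MP_e23604_nt.Z

open W Un

theorem MTL_pf : MTL_st := by
  intro r hr
  have r0 : (r : ℤ) ≠ 0 := Nat.cast_ne_zero.2 hr
  have he : e2 r - star (e2 r) = pw * r := by
    ext <;> simp [e2, pw] <;> ring
  have h0 : pw * (r : Zw) ≠ 0 := mul_ne_zero (by decide) (Nat.cast_ne_zero.2 hr)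
  have i2 : ∀ a b v, Mx r a b v ↔
      a = 3 * (v 1 + v 3 * e2 r - star (e2 r) * (v 0 + 3 * v 2 * e2 r)) ∧
      b = -3 * (v 1 + v 3 * e2 r - e2 r * (v 0 + 3 * v 2 * e2 r)) := fun a b v => by
    unfold Mx mu
    refine ⟨fun ⟨h1, h2⟩ => ⟨mul_left_cancel₀ h0 ?_, mul_left_cancel₀ h0 ?_⟩, ?_⟩
    · linear_combination h2 - star (e2 r) * h1 - a * he
    · linear_combination e2 r * h1 - h2 - b * he
    · rintro ⟨rfl, rfl⟩
      exact ⟨by linear_combination 3 * (v 0 + 3 * v 2 * e2 r) * he,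
        by linear_combination 3 * (v 1 + v 3 * e2 r) * he⟩
  have ic : ∀ a b v, Mx r a b v ↔
      (a.re = 3 * (v 1 - r * v 3 + 2 * r * v 0 - 9 * r ^ 2 * v 2) ∧ a.im = 3 * r * (v 3 + v 0)) ∧
      b.re = -3 * (v 1 - r * v 3 + r * v 0) ∧ b.im = -3 * r * (v 3 - v 0 + 9 * r * v 2) :=
    fun a b v => by
      rw [i2, QuadraticAlgebra.ext_iff, QuadraticAlgebra.ext_iff]
      refine and_congr (and_congr ?_ ?_) (and_congr ?_ ?_) <;> refine Eq.congr_right ?_ <;>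
        simp [e2] <;> ring
  have i1 : ∀ a b v v', Mx r a b v → Mx r a b v' → v = v' := fun a b v v' h h' => by
    obtain ⟨⟨p1, p2⟩, p3, p4⟩ := (ic _ _ _).1 h
    obtain ⟨⟨q1, q2⟩, q3, q4⟩ := (ic _ _ _).1 h'
    have e0 : v 0 = v' 0 := mul_left_cancel₀ r0 (by linarith)
    have e3 : v 3 = v' 3 := mul_left_cancel₀ r0 (by rw [e0] at p2; linarith)
    rw [e0, e3] at p3 p4
    have e2 : v 2 = v' 2 := mul_left_cancel₀ (pow_ne_zero 2 r0) (by linarith)
    have e1 : v 1 = v' 1 := by linarith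
    funext i
    fin_cases i
    exacts [e0, e1, e2, e3]
  have i4 : ∀ a b v a' b' v', Mx r a b v → Mx r a' b' v' → Mx r (a + a') (b + b') (v + v') :=
    fun a b v a' b' v' h h' => by
      simp only [Mx, Pi.add_apply, Int.cast_add]
      exact ⟨by linear_combination h.1 + h'.1, by linear_combination h.2 + h'.2⟩
  have i5 : ∀ a b v (n : ℤ), Mx r a b v → Mx r (n * a) (n * b) (n • v) := fun a b v n h => by
    simp only [Mx, Pi.smul_apply, smul_eq_mul, Int.cast_mul]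
    exact ⟨by linear_combination n * h.1, by linear_combination n * h.2⟩
  have hz : ∀ z t : Zw, pw * z = N0 r * t → z = -27 * r ^ 2 * (pw * t) := fun z t h =>
    mul_left_cancel₀ (by decide : pw ≠ 0) (by
      rw [h, N0]
      push_cast
      linear_combination 27 * (r : Zw) ^ 2 * t * pw_sq)
  have i6 : ∀ z z' : Zw, (N0 r : Zw) ∣ pw * z → (N0 r : Zw) ∣ pw * z' →
      ∃ v, Mx r z z' (3 • v) := by
    rintro z z' ⟨t, ht⟩ ⟨s, hs⟩
    refine ⟨![-3 * r * (t.re + t.im + s.re + s.im), 9 * r ^ 2 * (s.re + t.im), -(t.im + s.im),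
      -3 * r * (t.re - 2 * t.im - s.re - s.im)], (ic _ _ _).2 ?_⟩
    rw [hz z t ht, hz z' s hs]
    refine ⟨⟨?_, ?_⟩, ?_, ?_⟩ <;> simp [pw, sq] <;> ring
  have i9 : ∀ (R : Type) [Zero R] (φ : (Fin 4 → ℤ) → R) a b v, Mx r a b v → onM r φ a b = φ v :=
    fun R _ φ a b v h => (dif_pos ⟨v, h⟩).trans (congrArg φ (i1 _ _ _ _ (Exists.choose_spec _) h))
  refine ⟨i1, i2, fun a b v h => ?_, i4, i5, i6, fun a b n hn ⟨v, h⟩ => ?_, fun a v h => ?_,
    fun R _ φ => ⟨i9 R φ, fun hφ a b z z' h h' => ?_⟩⟩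
  · obtain ⟨⟨p1, p2⟩, p3, p4⟩ := (ic _ _ _).1 h
    rw [nw, nw, norm_def, norm_def, p1, p2, p3, p4]
    ring
  · obtain ⟨x, y, e⟩ := hn.pow_right (n := 4)
    have e' := congrArg (Int.cast : ℤ → Zw) e
    have d : ∀ c : Zw, (N0 r : Zw) ∣ pw * (y * (3 * r) ^ 4 * c) := fun c =>
      ⟨pw * y * r ^ 2 * c, by rw [N0]; push_cast; ring⟩
    have k : ∀ c : Zw, x * (n * c) + y * (3 * r) ^ 4 * c = c := fun c => by
      push_cast at e'
      linear_combination c * e'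
    obtain ⟨w, hw⟩ := i6 _ _ (d a) (d b)
    have := i4 _ _ _ _ _ _ (i5 _ _ _ x h) hw
    rw [k, k] at this
    exact ⟨_, this⟩
  · obtain ⟨-, p3, p4⟩ := (ic _ _ _).1 h
    rw [re_zero] at p3
    rw [im_zero] at p4
    have e3 : v 3 = v 0 - 9 * r * v 2 := mul_left_cancel₀ r0 (by linarith)
    exact ⟨(add_zero a).symm.trans h.1, by rw [e3] at p3; linarith, e3⟩
  · obtain ⟨w, hw⟩ := i6 z z' h h'
    by_cases c : ∃ v, Mx r a b v
    · obtain ⟨v, hv⟩ := c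
      rw [i9 R φ _ _ _ hv, i9 R φ _ _ _ (i4 _ _ _ _ _ _ hv hw), hφ]
    · rw [onM, onM, dif_neg c, dif_neg fun ⟨v, hv⟩ => c ⟨_, by
        simpa using i4 _ _ _ _ _ _ hv (i5 _ _ _ (-1) hw)⟩]

end Pool.Agent.MP_e23604_nt.Z
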