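import Pool.Agent.MP_e23604_nt.Z.CD

/-!
The components of the geometric weight.
-/

set_option autoImplicit false

open Finset QuadraticAlgebra
open scoped Classical BigOperators

namespace Pool.Agent.MP_e23604_nt.Z

open W Un

theorem per_CPSE (v w : Fin 4 → ℤ) (i j : Fin 4) :
    3 ∣ (v + 3 • w) i * (v + 3 • w) j - v i * v j :=
  ⟨v i * w j + w i * v j + 3 * w i * w j, by simp; ring⟩

theorem beta_CPSE : ∃ β : ℂ, β ≠ 0 ∧ ∀ x : ℤ, (et x : ℂ) = β * (ex (x / 3) - ex (-x / 3)) := by
  have h0 : ex ((1 : ℤ) / 3) - ex (-(1 : ℤ) / 3) ≠ 0 := fun h => by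
    have h2 : ex ((2 : ℤ) / (3 : ℤ)) = 1 := by
      rw [← ex_zero, ← add_neg_cancel (((1 : ℤ) : ℂ) / 3), ex_add, ← neg_div, ← sub_eq_zero.1 h,
        ← ex_add]
      congr 1
      push_cast
      ring
    rw [ex_div_eq_one (by norm_num)] at h2
    omega
  refine ⟨_, inv_ne_zero h0, fun x => ?_⟩
  have k : ∀ a b : ℤ, 3 ∣ a - b → ex (a / 3) = ex (b / 3) := fun a b h => by
    simpa using ex_mod h
  rw [eq_inv_mul_iff_mul_eq₀ h0, ← Int.cast_neg, ← Int.cast_neg, et]
  split_ifs with h1 h2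
  · rw [k x 1 (by omega), k (-x) (-1) (by omega)]
    simp
  · rw [k x (-1) (by omega), k (-x) 1 (by omega)]
    simp
  · rw [k x 0 (by omega), k (-x) 0 (by omega)]
    simp

theorem PSE_pf (h1 : MTL_st) : PSE_st := by
  intro r κ e e' hr he
  have hz : ∀ a b, iz (Psi r κ e a b) = Ps r κ (fun v => iz (wt e v)) a b := fun a b => by
    simp only [Psi, Ps, map_sum, map_mul, onM, apply_dite iz, map_zero]
  refine ⟨fun i v w => ?_, fun v w => ?_, hz, fun a b ha => ?_, ?_⟩
  · have k := ex_mod (dvd_add ((per_CPSE v w 3 1).mul_left i) ((per_CPSE v w 3 2).mul_left e') |>.trans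
      (dvd_of_eq (b := i * (v + 3 • w) 3 * (v + 3 • w) 1 + e' * (v + 3 • w) 3 * (v + 3 • w) 2 -
        (i * v 3 * v 1 + e' * v 3 * v 2)) (by ring)))
    have := per_CPSE v w 0 3
    push_cast at k
    rw [ph1, ph1, k, show (v + 3 • w) 0 * (v + 3 • w) 3 % 3 = v 0 * v 3 % 3 by omega]
  · have := per_CPSE v w 0 3
    rw [wt, wt, et_congr (per_CPSE v w 3 1),
      (ZMod.intCast_eq_intCast_iff_dvd_sub _ _ 3).2 (per_CPSE v w 3 2),
      show (v + 3 • w) 0 * (v + 3 • w) 3 % 3 = v 0 * v 3 % 3 by omega]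
  · refine sum_eq_zero fun t _ => sum_eq_zero fun u _ => mul_eq_zero_of_right _ ?_
    unfold onM
    split_ifs with h
    · have h2 := (((h1 r hr).2.1 _ _ _).1 h.choose_spec).1
      generalize h.choose = v at h2
      have h3 := (ha.mul_left (star u)).mul_right t
      rw [h2, mul_dvd_mul_iff_left (by decide)] at h3
      have h4 : pw ∣ e2 r := pw_w.mul_left _
      have h5 : pw ∣ star (e2 r) := by
        have := map_dvd (starRingEnd Zw) h4
        rwa [starRingEnd_apply, star_pw, neg_dvd] at this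
      have h6 : pw ∣ (v 1 : Zw) := by
        simpa using dvd_sub (dvd_add h3 (h5.mul_right (v 0 + 3 * v 2 * e2 r))) (h4.mul_left (v 3))
      have h7 : 3 ∣ v 1 := by
        rw [pw_dvd_iff, ← Int.natCast_dvd_natCast, nn_cast, nw_int] at h6
        exact Int.prime_three.dvd_of_dvd_pow h6
      rw [wt, et_congr (n := 0) (by simpa using h7.mul_left _)]
      simp [et]
    · rfl
  · obtain ⟨β, h0, hb⟩ := beta_CPSE
    refine ⟨β, h0, fun a b => ?_⟩
    have k : ∀ v, iz (wt e v) = β * ph1 1 e' v + -β * ph1 (-1) e' v := fun v => by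
      unfold wt ph1
      split_ifs
      · rw [map_mul, map_intCast, he, hb, add_div, add_div, ex_add, ex_add]
        push_cast
        ring_nf
      · simp
    rw [hz]
    simp only [Ps, mul_sum, ← sum_add_distrib, onM, k]
    refine sum_congr rfl fun t _ => sum_congr rfl fun u _ => ?_
    split_ifs <;> ring

end Pool.Agent.MP_e23604_nt.Z
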