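import Pool.Agent.MP_e23604_nt.Z.CD

/-!
The Fourier transform of the twisted average.
-/

set_option autoImplicit false

open Finset QuadraticAlgebra
open scoped Classical BigOperators

namespace Pool.Agent.MP_e23604_nt.Z

open W Un

theorem ap2_CPSF {N : ℕ} (hN : N ≠ 0) {F : Zw × Zw → ℂ}
    (h : ∀ p y z, F (p + ((N : Zw) * y, (N : Zw) * z)) = F p) : AP F := by
  have h0 : (N : Zw) ≠ 0 := by exact_mod_cast hN
  have : (AddMonoidHom.mulLeft (N : Zw)).range.FiniteIndex :=
    ⟨by rw [index_mul h0]; exact (nn_pos h0).ne'⟩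
  have := fi_comap (AddMonoidHom.mulLeft (N : Zw)).range (AddMonoidHom.fst Zw Zw)
  have := fi_comap (AddMonoidHom.mulLeft (N : Zw)).range (AddMonoidHom.snd Zw Zw)
  refine AP.of_le ((AddMonoidHom.mulLeft (N : Zw)).range.comap (AddMonoidHom.fst Zw Zw) ⊓
    (AddMonoidHom.mulLeft (N : Zw)).range.comap (AddMonoidHom.snd Zw Zw)) ?_
  rintro ⟨y, z⟩ ⟨⟨y', rfl : _ = y⟩, z', rfl : _ = z⟩ p
  exact h p y' z'

theorem ex_trw_CPSF {N : ℕ} {x y x' y' : Zw} (h : (N : Zw) ∣ x - x') (h' : (N : Zw) ∣ y - y') :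
    ex ((trw x - trw y) / N) = ex ((trw x' - trw y') / N) := by
  obtain ⟨u, hu⟩ := h
  obtain ⟨v, hv⟩ := h'
  have := ex_mod (x := trw x - trw y) (y := trw x' - trw y') (n := N) ⟨trw u - trw v, by
    rw [show x = x' + (N : ℤ) * u by push_cast; linear_combination hu,
      show y = y' + (N : ℤ) * v by push_cast; linear_combination hv, trw_add, trw_add, trw_int_mul,
      trw_int_mul]
    ring⟩
  exact_mod_cast this

theorem ff_CPSF {N : ℕ} {Ψ : Zw → Zw → ℂ} {a b : Zw}
    (h : AP fun p : Zw × Zw => Ψ p.1 p.2 * ex ((trw (a * star p.1) - trw (b * star p.2)) / N))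
    (h0 : (Mn fun p : Zw × Zw =>
      Ψ p.1 p.2 * ex ((trw (a * star p.1) - trw (b * star p.2)) / N)) = 0) : FF2 N Ψ a b = 0 := by
  have e : ∀ y, Fo N (Ψ y) (-b) * ex (trw (a * star y) / N) = N / (Real.sqrt 3 : ℝ) *
      Mn fun z => Ψ y z * ex ((trw (a * star y) - trw (b * star z)) / N) := fun y => by
    have := Mn_mul_right (h.right y) (ex (-(trw (a * star y) / N)))
    rw [Fo, mul_assoc, ← mul_one (Mn fun z => Ψ y z * ex ((_ - _) / _)), ← ex_zero,
      ← neg_add_cancel (trw (a * star y) / N : ℂ), ex_add, ← mul_assoc (Mn _), ← this]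
    congr 3
    ext z
    rw [mul_assoc, ← ex_add, show -b * star z = (-1 : ℤ) * (b * star z) by push_cast; ring,
      trw_int_mul]
    congr 2
    push_cast
    ring
  rw [FF2, Fo]
  simp only [e]
  rw [Mn_mul_left h.mn, ← Mn_prod h, h0, mul_zero, mul_zero]

/-- one term of the transform -/
noncomputable def F_CPSF (r : ℕ) (φ : (Fin 4 → ℤ) → ℂ) (s s' a b : Zw) (p : Zw × Zw) : ℂ :=
  onM r φ (s * p.1) (s' * p.2) * ex ((trw (a * star p.1) - trw (b * star p.2)) / (N0 r : ℕ))

theorem PSF_pf (h1 : PSA_st) (h2 : PSG_st) (h3 : MTL_st) (h4 : PSE_st) : PSF_st := by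
  intro r κ e i e' j β hc he hj
  have hr : r ≠ 0 := hc.sf.ne_zero
  have hN := N0_ne hr
  have hP : P3 (ph1 i e') := fun v w => by
    simp only [ph1, Pi.add_apply, Pi.smul_apply]
    simp only [nsmul_eq_mul, Nat.cast_ofNat]
    rw [show (v 0 + 3 * w 0) * (v 3 + 3 * w 3) =
      v 0 * v 3 + 3 * (w 0 * v 3 + v 0 * w 3 + 3 * w 0 * w 3) by ring, Int.add_mul_emod_self_left,
      ex_congr (i * (w 3 * v 1 + v 3 * w 1 + 3 * w 3 * w 1) +
        e' * (w 3 * v 2 + v 3 * w 2 + 3 * w 3 * w 2)) (y := (i * v 3 * v 1 + e' * v 3 * v 2) / 3)]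
    push_cast
    ring
  obtain ⟨ha, hb, -, hT⟩ := h1 r κ e _ hc hP
  have hper := ((h3 r hr).2.2.2.2.2.2.2.2 ℂ (ph1 i e')).2 hP
  have key : ∀ a b, FF2 (N0 r) (fun a b => β * Ps r κ (ph1 i e') a b) a b ≠ 0 →
      ∃ s s' : Zw, IsCoprime s (N0 r) ∧ nw s' = nw s ∧
        ex (3 * (nw (a * s') - nw (b * s)) / (N0 r : ℕ)) = ex (-(i * e') / 3) ∧
        ¬ (N0 r : Zw) ∣ b * s := fun a b h => by
    by_contra hn
    have hG : ∀ (s s' a b : Zw) (p : Zw × Zw) (y z : Zw), F_CPSF r (ph1 i e') s s' a b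
        (p + ((N0 r : Zw) * y, (N0 r : Zw) * z)) = F_CPSF r (ph1 i e') s s' a b p :=
      fun s s' a b p y z => by
      simp only [F_CPSF, Prod.fst_add, Prod.snd_add, mul_add]
      rw [hper _ _ _ _ ⟨pw * s * y, by ring⟩ ⟨pw * s' * z, by ring⟩,
        ex_trw_CPSF (x' := a * star p.1) (y' := b * star p.2) ⟨a * star y, by simp; ring⟩
          ⟨b * star z, by simp; ring⟩]
    have hE : (fun p : Zw × Zw => β * Ps r κ (ph1 i e') p.1 p.2 *
        ex ((trw (a * star p.1) - trw (b * star p.2)) / (N0 r : ℕ))) = fun p =>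
        ∑ t ∈ Rs (N0 r), ∑ u ∈ Rs (N0 r), β * iz (ω ^ (κ u - κ t).val) *
          F_CPSF r (ph1 i e') (star u * t) (star u * star t) a b p := by
      ext p
      simp only [Ps, F_CPSF, mul_sum, sum_mul, mul_right_comm _ p.1, mul_right_comm _ p.2]
      simp only [mul_assoc]
    have hA := fun (s s' : Zw) (c : ℂ) => (ap2_CPSF hN (hG s s' a b)).map (c * ·)
    refine h (ff_CPSF (hE ▸ AP.sum fun t _ => AP.sum fun u _ => hA _ _ _) ?_)
    rw [hE, Mn_sum fun t _ => AP.sum fun u _ => hA _ _ _]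
    refine sum_eq_zero fun t ht => ?_
    rw [Mn_sum fun u _ => hA _ _ _]
    refine sum_eq_zero fun u hu => ?_
    rw [Mn_mul_left (ap2_CPSF hN (hG _ _ a b))]
    obtain ⟨t', x, hx⟩ := mem_Rs ht
    obtain ⟨u', y, hy⟩ := mem_Rs hu
    have hx' := congrArg star hx
    have hy' := congrArg star hy
    simp only [star_add, star_mul, star_natCast, star_one] at hx' hy'
    have hG' := hG 1 1 (a * (u' * star t')) (b * (u' * t'))
    refine mul_eq_zero_of_right _ (Eq.trans ?_ ((Mn_comp (ap2_CPSF hN hG')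
      ((AddMonoidHom.mulLeft (star u * t)).prodMap (AddMonoidHom.mulLeft (star u * star t)))
      fun p => ⟨(star u' * t' * p.1, star u' * star t' * p.2), fun q => ?_⟩).trans ?_))
    · congr 1
      ext p
      simp only [F_CPSF, AddMonoidHom.coe_prodMap, Prod.map_fst, Prod.map_snd, one_mul,
        AddMonoidHom.coe_mulLeft, star_mul, star_star]
      rw [ex_trw_CPSF ⟨a * star p.1 * (y + star x - y * star x * N0 r), _⟩
        ⟨b * star p.2 * (y + x - y * x * N0 r), _⟩]
      · linear_combination -(a * star p.1) * ((1 - y * N0 r) * hx' + star t * star t' * hy)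
      · linear_combination -(b * star p.2) * ((1 - y * N0 r) * hx + t' * t * hy)
    · refine Eq.trans ?_ (hG' q (-p.1 * (star y + x - star y * x * N0 r))
        (-p.2 * (star y + star x - star y * star x * N0 r)))
      congr 2
      refine Prod.ext ?_ ?_ <;> simp only [AddMonoidHom.coe_prodMap, Prod.map_fst, Prod.map_snd,
        AddMonoidHom.coe_mulLeft, Prod.fst_sub, Prod.snd_sub]
      · linear_combination p.1 * ((1 - star y * N0 r) * hx + t' * t * hy')
      · linear_combination p.2 * ((1 - star y * N0 r) * hx' + star t * star t' * hy')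
    · by_contra h0
      exact hn ⟨u' * t', u' * star t', IsCoprime.mul_left ⟨u, y, by rw [← hy]; ring⟩
        ⟨t, x, by rw [← hx]; ring⟩, by rw [nw_mul, nw_mul, nw_star], h2 r i e' _ _ hr he
          fun e => h0 (Eq.trans (by congr 1; ext; simp only [F_CPSF, one_mul]) e)⟩
  refine ⟨fun b x z hz => congrArg (β * ·) (ha b x z hz),
    fun a x z hz => congrArg (β * ·) (hb a x z hz),
    fun a b h => hT (fun v hv => by_contra fun h' => hv (if_neg h')) a b (right_ne_zero_of_mul h),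
    fun a b h => ?_, fun a => by_contra fun h => ?_⟩
  · obtain ⟨s, s', hs, hs', h, -⟩ := key a b h
    have hs1 : IsCoprime (nw s) (N0 r) := cop_iff.1 (by exact_mod_cast hs)
    have hs3 : 3 ∣ nw s - 1 := by
      have h3 : ¬ 3 ∣ nw s := fun h => by
        have := Int.isUnit_iff.1 (hs1.isUnit_of_dvd' h (by exact_mod_cast N0_dvd r))
        omega
      rw [nw_def] at h3 ⊢
      rcases (by omega : s.re % 3 = 0 ∨ s.re % 3 = 1 ∨ s.re % 3 = 2) with h | h | h <;>
        rcases (by omega : s.im % 3 = 0 ∨ s.im % 3 = 1 ∨ s.im % 3 = 2) with h' | h' | h' <;>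
        simp [Int.dvd_iff_emod_eq_zero, pow_two, Int.sub_emod, Int.add_emod, Int.mul_emod, h,
          h'] at h3 ⊢
    have hr' : (r : ℂ) ≠ 0 := by exact_mod_cast hr
    have h5 : (N0 r : ℤ) ∣ nw s * (3 * (nw a - nw b)) + 27 * r ^ 2 * (i * e') := by
      rw [← ex_div_eq_one (by exact_mod_cast hN), ← ex_zero, ← neg_add_cancel (i * e' / 3 : ℂ),
        ex_add, ← neg_div, ← h, ← ex_add, nw_mul, nw_mul, hs', N0]
      congr 1
      push_cast
      field_simp
      ring
    obtain ⟨m, hm⟩ := hj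
    obtain ⟨n, hn⟩ := hs3
    have h6 : (N0 r : ℤ) ∣ 3 * (nw a - nw b) - 27 * r ^ 2 * j := by
      refine hs1.symm.dvd_of_dvd_mul_left ?_
      have := h5.sub ⟨m + j * n, rfl⟩
      rwa [show _ - _ = nw s * (3 * (nw a - nw b) - 27 * r ^ 2 * j) by
        rw [N0]; push_cast; linear_combination 27 * r ^ 2 * (hm + j * hn)] at this
    have := ex_mod h6
    push_cast at this
    rw [this, N0]
    congr 1
    push_cast
    field_simp
    ring
  · obtain ⟨s, s', -, -, -, h⟩ := key a 0 h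
    exact h (by simp)

end Pool.Agent.MP_e23604_nt.Z
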