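import Pool.Agent.MP_e23604_nt.Z.CD

set_option autoImplicit false

open Finset QuadraticAlgebra
open scoped Classical BigOperators

namespace Pool.Agent.MP_e23604_nt.Z

open W Un

/-- the pairing with the pair of matrix `u` -/
def q_CPSG (r : ℕ) (a b : Zw) (u : Fin 4 → ℤ) : ℤ :=
  trw (a * star (3 * (u 1 + u 3 * e2 r - star (e2 r) * (u 0 + 3 * u 2 * e2 r)))) -
    trw (b * star (-3 * (u 1 + u 3 * e2 r - e2 r * (u 0 + 3 * u 2 * e2 r))))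

theorem id_CPSG (r : ℕ) (a b : Zw) : 3 * (81 * r ^ 2) * (nw a - nw b) =
    q_CPSG r a b ![3, 0, 0, 0] * q_CPSG r a b ![0, 0, 0, 3] -
      3 * q_CPSG r a b ![0, 1, 0, 0] * q_CPSG r a b ![0, 0, 1, 0] := by
  simp [q_CPSG, trw, e2, nw_def]
  ring

theorem dv_CPSG (r : ℕ) (a c : Zw) :
    q_CPSG r a (N0 r * c) ![0, 1, 0, 0] = 3 * trw a + 3 * (81 * r ^ 2) * trw c ∧
    q_CPSG r a (N0 r * c) ![0, 0, 1, 0] =
      -27 * r ^ 2 * trw a - 81 * r ^ 2 * trw (c * star (9 * e2 r * e2 r)) := by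
  constructor <;> simp [q_CPSG, trw, e2, N0, pow_two] <;> ring

theorem ap_CPSG (h1 : MTL_st) {r : ℕ} (hr : r ≠ 0) (a b : Zw) {φ : (Fin 4 → ℤ) → ℂ} (hφ : P3 φ) :
    AP fun p : Zw × Zw => onM r φ p.1 p.2 *
      ex ((trw (a * star p.1) - trw (b * star p.2)) / (N0 r : ℕ)) := by
  have hN : (N0 r : Zw) ≠ 0 := Nat.cast_ne_zero.2 (N0_ne hr)
  have hC : (N0 r : ℂ) ≠ 0 := Nat.cast_ne_zero.2 (N0_ne hr)
  set H := (AddMonoidHom.mulLeft (N0 r : Zw)).range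
  have : (H.prod H).FiniteIndex := ⟨by
    rw [AddSubgroup.index_prod, index_mul hN]
    exact mul_ne_zero (nn_pos hN).ne' (nn_pos hN).ne'⟩
  refine AP.of_le (H.prod H) ?_
  rintro ⟨_, _⟩ ⟨⟨y, rfl⟩, z, rfl⟩ p
  simp only [Prod.fst_add, Prod.snd_add, AddMonoidHom.coe_mulLeft]
  rw [((h1 r hr).2.2.2.2.2.2.2.2 ℂ φ).2 hφ _ _ _ _ ⟨pw * y, by ring⟩ ⟨pw * z, by ring⟩]
  refine congrArg _ (ex_congr (trw (a * star y) - trw (b * star z)) ?_)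
  have e : ∀ s t u : Zw, trw (s * star (t + N0 r * u)) =
      trw (s * star t) + N0 r * trw (s * star u) := fun s t u => by
    simp [trw]
    ring
  rw [e, e]
  push_cast
  field_simp
  ring

theorem ch_CPSG (h1 : MTL_st) {r : ℕ} (hr : r ≠ 0) {a b : Zw} {φ : (Fin 4 → ℤ) → ℂ} (hφ : P3 φ)
    (h : (Mn fun p : Zw × Zw => onM r φ p.1 p.2 *
      ex ((trw (a * star p.1) - trw (b * star p.2)) / (N0 r : ℕ))) ≠ 0) (u : Fin 4 → ℤ) (k : ℤ)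
    (hu : ∀ v, φ (v + u) = ex (k / 3) * φ v) :
    (81 * r ^ 2 : ℤ) ∣ q_CPSG r a b u + 27 * r ^ 2 * k := by
  obtain ⟨-, m2, -, m4, m5, -, -, -, m9⟩ := h1 r hr
  have hx := (m2 _ _ u).2 ⟨rfl, rfl⟩
  have r0 : (r : ℂ) ≠ 0 := Nat.cast_ne_zero.2 hr
  rw [← ex_div_eq_one (by positivity)]
  by_contra hc
  unfold q_CPSG at hc
  generalize 3 * (u 1 + u 3 * e2 r - star (e2 r) * (u 0 + 3 * u 2 * e2 r)) = x at hx hc
  generalize -3 * (u 1 + u 3 * e2 r - e2 r * (u 0 + 3 * u 2 * e2 r)) = y at hx hc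
  refine h (Mn_char (ap_CPSG h1 hr a b hφ) (v := (x, y)) (fun p => ?_) hc)
  simp only [Prod.fst_add, Prod.snd_add]
  have e : onM r φ (p.1 + x) (p.2 + y) = ex (k / 3) * onM r φ p.1 p.2 := by
    by_cases hv : ∃ v, Mx r p.1 p.2 v
    · obtain ⟨v, hv⟩ := hv
      rw [(m9 ℂ φ).1 _ _ _ hv, (m9 ℂ φ).1 _ _ _ (m4 _ _ _ _ _ _ hv hx), hu]
    · rw [onM, onM, dif_neg hv, dif_neg, mul_zero]
      rintro ⟨v, h'⟩
      exact hv ⟨_, by simpa using m4 _ _ _ _ _ _ h' (m5 _ _ _ (-1) hx)⟩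
  rw [e, mul_right_comm, ← ex_add, mul_left_comm, ← ex_add, mul_comm]
  congr 2
  simp only [star_add, mul_add, trw_add, N0]
  push_cast
  field_simp
  ring

/-- the two parts of the weight -/
noncomputable def f_CPSG (i e D : ℤ) (v : Fin 4 → ℤ) : ℂ :=
  if v 0 % 3 = D % 3 ∧ v 3 % 3 = D % 3 then ex ((D * (i * v 1 + e * v 2) : ℤ) / (3 : ℤ)) else 0

theorem tr_CPSG (i e D : ℤ) (u v : Fin 4 → ℤ) (h0 : 3 ∣ u 0) (h3 : 3 ∣ u 3) :
    f_CPSG i e D (v + u) = ex ((D * (i * u 1 + e * u 2) : ℤ) / 3) * f_CPSG i e D v := by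
  unfold f_CPSG
  rw [Pi.add_apply, Pi.add_apply, show (v 0 + u 0) % 3 = v 0 % 3 by omega,
    show (v 3 + u 3) % 3 = v 3 % 3 by omega]
  split_ifs
  · rw [← ex_add]
    congr 1
    simp only [Pi.add_apply]
    push_cast
    ring
  · simp

theorem p3_CPSG (i e D : ℤ) : P3 (f_CPSG i e D) := fun v w => by
  rw [tr_CPSG i e D _ v (by simp) (by simp), ex_eq_one.2 ⟨D * (i * w 1 + e * w 2), by
    simp; ring⟩, one_mul]

theorem sp_CPSG (i e : ℤ) (v : Fin 4 → ℤ) : ph1 i e v = f_CPSG i e 1 v + f_CPSG i e (-1) v := by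
  unfold ph1 f_CPSG
  rw [Int.mul_emod]
  have h0 : v 0 % 3 = 0 ∨ v 0 % 3 = 1 ∨ v 0 % 3 = 2 := by omega
  have h3 : v 3 % 3 = 0 ∨ v 3 % 3 = 1 ∨ v 3 % 3 = 2 := by omega
  have e3 : (v 3 : ℂ) = 3 * (v 3 / 3 : ℤ) + (v 3 % 3 : ℤ) := by
    exact_mod_cast (Int.mul_ediv_add_emod _ _).symm
  rcases h0 with h | h | h <;> rcases h3 with h' | h' | h' <;> simp [h, h']
  · refine ex_congr (v 3 / 3 * (i * v 1 + e * v 2)) ?_
    rw [e3, h']
    push_cast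
    ring
  · refine ex_congr ((v 3 / 3 + 1) * (i * v 1 + e * v 2)) ?_
    rw [e3, h']
    push_cast
    ring

theorem PSG_pf (h1 : MTL_st) : PSG_st := by
  intro r i e a b hr he h
  have r0 : (r : ℂ) ≠ 0 := Nat.cast_ne_zero.2 hr
  obtain ⟨D, hD, h⟩ : ∃ D : ℤ, D * D = 1 ∧ (Mn fun p : Zw × Zw => onM r (f_CPSG i e D) p.1 p.2 *
      ex ((trw (a * star p.1) - trw (b * star p.2)) / (N0 r : ℕ))) ≠ 0 := by
    by_contra hc
    push Not at hc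
    refine h ?_
    rw [← add_zero 0, ← congrArg₂ (· + ·) (hc 1 rfl) (hc (-1) rfl),
      ← Mn_add (ap_CPSG h1 hr a b (p3_CPSG _ _ _)) (ap_CPSG h1 hr a b (p3_CPSG _ _ _))]
    congr 1
    ext p
    rw [← add_mul]
    unfold onM
    split_ifs
    · rw [sp_CPSG]
    · rw [add_zero]
  have k := fun u h0 h3 => ch_CPSG h1 hr (p3_CPSG i e D) h u _ fun v => tr_CPSG i e D u v h0 h3
  obtain ⟨s0, a0⟩ := k ![3, 0, 0, 0] (by simp) (by simp)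
  obtain ⟨s1, a1⟩ := k ![0, 1, 0, 0] (by simp) (by simp)
  obtain ⟨s2, a2⟩ := k ![0, 0, 1, 0] (by simp) (by simp)
  obtain ⟨s3, a3⟩ := k ![0, 0, 0, 3] (by simp) (by simp)
  simp at a0 a1 a2 a3
  refine ⟨ex_congr (s0 * s3 - 3 * s1 * s2 + D * (s1 * e + s2 * i)) ?_, ?_⟩
  · have e1 := id_CPSG r a b
    rw [a0, a3, eq_sub_of_add_eq a1, eq_sub_of_add_eq a2] at e1
    have e2 : 3 * (nw a - nw b) =
        27 * r ^ 2 * (3 * (s0 * s3 - 3 * s1 * s2 + D * (s1 * e + s2 * i)) - i * e) :=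
      mul_left_cancel₀ (show (81 * r ^ 2 : ℤ) ≠ 0 by positivity) (by
        linear_combination e1 - 3 * (27 * r ^ 2) ^ 2 * i * e * hD)
    have e3 := congrArg (Int.cast : ℤ → ℂ) e2
    rw [N0]
    push_cast at e3 ⊢
    rw [e3]
    field_simp
    ring
  · rintro ⟨c, rfl⟩
    obtain ⟨b1, b2⟩ := dv_CPSG r a c
    generalize trw (c * star (9 * e2 r * e2 r)) = w at b2
    have e1 : D * e = 3 * (s2 + w + (9 * r ^ 2 * s1 - 3 * r ^ 2 * D * i - 27 * r ^ 2 * trw c)) :=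
      mul_left_cancel₀ (show (27 * r ^ 2 : ℤ) ≠ 0 by positivity) (by
        linear_combination a2 - b2 + 9 * r ^ 2 * (a1 - b1))
    have e2 := Dvd.dvd.mul_left (Dvd.intro _ e1.symm) D
    rw [← mul_assoc, hD, one_mul] at e2
    exact he e2

end Pool.Agent.MP_e23604_nt.Z
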