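import Pool.Agent.MP_e23604_nt.Z.CE

set_option autoImplicit false

open Finset QuadraticAlgebra
open scoped Classical BigOperators

namespace Pool.Agent.MP_e23604_nt.Z

open B R S W Un

theorem PSI_pf (h1 : PSA_st) (h2 : PSE_st) (h3 : IND_st) (h4 : CXL_st) : PSI_st := by
  intro r κ e h
  obtain ⟨e', -, c, -⟩ := (h4 r κ e h).2.2.2.2.2.2.2
  obtain ⟨-, a1, a2, a3, -⟩ := h2 r κ e e' h.sf.ne_zero c
  obtain ⟨-, b1, b2, b3⟩ := h1 r κ e (fun v => iz (wt e v)) h fun v w => congrArg iz (a1 v w)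
  have i : ∀ a, Ind (N0 r) fun b => iz (Psi r κ e a b) := fun a => by
    simp only [a2]
    exact h3 ℂ _ _ (N0_ne h.sf.ne_zero) (N0_dvd r) (b1 a).per fun b t ht =>
      (b2 a b t (cop_N0.1 ht)).2.2
  refine ⟨fun a m u u' k k' => iz_inj (by simpa only [map_sum] using i a m u u' k k'), i,
    by simpa only [a2] using b1, by
      simpa only [a2] using b3 fun v k => by_contra fun k' => k (by simp [wt, k']), a3,
    fun l ρ ξ => ?_⟩
  simp only [be, Bs, map_sum, map_mul, apply_dite iz, apply_ite iz, map_intCast, map_zero]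

end Pool.Agent.MP_e23604_nt.Z
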