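import Pool.Agent.MP_e23604_nt.Z.CD

/-!
The values of the twisted average on the first axis.
-/

set_option autoImplicit false

open Finset QuadraticAlgebra
open scoped Classical BigOperators

namespace Pool.Agent.MP_e23604_nt.Z

open W Un

theorem ex_CPSZ {x y : ℤ} (h : 3 ∣ x - y) : ex (x / 3) = ex (y / 3) := by simpa using ex_mod h

theorem p3_CPSZ (i e : ℤ) : P3 (ph1 i e) := fun v w => by
  have k : ∀ i j, ∃ c, (v + 3 • w) i * (v + 3 • w) j = v i * v j + 3 * c := fun i j =>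
    ⟨v i * w j + w i * v j + 3 * w i * w j, by simp; ring⟩
  obtain ⟨a, ha⟩ := k 0 3
  obtain ⟨b, hb⟩ := k 3 1
  obtain ⟨c, hc⟩ := k 3 2
  rw [ph1, ph1, ha, Int.add_mul_emod_self_left]
  congr 1
  exact_mod_cast ex_CPSZ ⟨i * b + e * c, by linear_combination i * hb + e * hc⟩

theorem dv_CPSZ {p : ℕ} (hp : p.Prime) {x : ℤ} {g : Zw} (h : ((p : ℤ) : Zw) ∣ g - x)
    (h' : (p : ℤ) ∣ nw g) : (p : ℤ) ∣ x :=
  (Nat.prime_iff_prime_int.1 hp).dvd_of_dvd_pow (n := 2)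
    (by simpa [nw_int] using dvd_sub h' (nw_congr h))

theorem PSZ_pf (h1 : MTL_st) (h2 : CXL_st) (h3 : PSA_st) : PSZ_st := by
  intro r κ e i e' hc hx
  have r0 := hc.sf.ne_zero
  obtain ⟨-, -, -, -, -, -, -, m8, m9⟩ := h1 r r0
  obtain ⟨m9, m10⟩ := m9 ℂ (ph1 i e')
  obtain ⟨c1, c2, -, c4, -, -, c7, -⟩ := h2 r κ e hc
  have ps := fun a t h => ((h3 r κ e _ hc (p3_CPSZ i e')).2.2.1 a 0 t h).1
  have m0 : mu r ≠ 0 := mul_ne_zero (mul_ne_zero (by decide) pw_ne) (Nat.cast_ne_zero.2 r0)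
  have cs : ∀ u : Zw, IsCoprime u (3 * r) → IsCoprime (star u) (3 * r) := fun u h => by
    simpa using cop_star h
  have k : ∀ {u α t v}, Mx r (star u * (mu r * α) * t) 0 v →
      star u * α * t = v 0 + 3 * v 2 * e2 r := fun h =>
    mul_left_cancel₀ m0 (Eq.trans (by ring) (m8 _ _ h).1)
  simp only [zero_mul] at ps
  refine ⟨fun a ha => sum_eq_zero fun t ht => sum_eq_zero fun u hu => ?_,
    Ps r κ (ph1 i e') (mu r * 1) 0, ?_, fun α => ?_⟩
  · have d : mu r ∣ (3 * r) ^ 2 := ⟨-pw * r, by rw [mu]; linear_combination 3 * r ^ 2 * pw_sq⟩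
    have c : ∀ u : Zw, IsCoprime u (3 * r) → IsCoprime (mu r) u := fun u h =>
      (h.pow_right.of_isCoprime_of_dvd_right d).symm
    rw [mul_zero, zero_mul, onM, dif_neg, mul_zero]
    exact fun ⟨v, hv⟩ => ha ((c _ (cs u (cop_N0.1 (mem_Rs hu)))).dvd_of_dvd_mul_left
      ((c t (cop_N0.1 (mem_Rs ht))).dvd_of_dvd_mul_right ⟨_, (m8 _ _ hv).1⟩))
  · have : Ps r κ (ph1 i e') (mu r * 1) 0 = (∑ t ∈ Rs (N0 r), ∑ u ∈ Rs (N0 r),
        if ∃ v, Mx r (star u * (mu r * 1) * t) 0 v then 1 else 0 : ℕ) := by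
      push_cast
      refine sum_congr rfl fun t ht => sum_congr rfl fun u hu => ?_
      rw [mul_zero, zero_mul]
      split_ifs with h
      swap
      · rw [onM, dif_neg h, mul_zero]
      obtain ⟨v, hv⟩ := h
      have hu := cop_N0.1 (mem_Rs hu)
      have ht := cop_N0.1 (mem_Rs ht)
      have e1 := k hv
      obtain ⟨-, e2', e3⟩ := m8 _ _ hv
      rw [mul_one] at e1
      have e4 := (cs u hu).mul_left ht
      have e5 : ¬ 3 ∣ v 0 := fun ⟨x, d⟩ => pw_prime.not_isUnit (e4.isUnit_of_dvd'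
        (pw_dvd3.trans ⟨x + v 2 * e2 r, by rw [e1, d]; push_cast; ring⟩) (pw_dvd3.mul_right _))
      have e6 : v 0 * v 3 % 3 = 1 := by
        rw [Int.mul_emod, show v 3 % 3 = v 0 % 3 by rw [e3, mul_assoc]; omega]
        obtain h | h : v 0 % 3 = 1 ∨ v 0 % 3 = 2 := by omega
        all_goals simp [h]
      have e7 := ex_CPSZ (x := i * v 3 * v 1 + e' * v 3 * v 2) (y := e' * v 0 * v 2)
        ⟨-3 * r * v 2 * (i * v 3 * r + e' * v 2), by
          linear_combination i * v 3 * e2' + e' * v 2 * e3⟩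
      push_cast at e7
      rw [m9 _ _ _ hv, ph1, if_pos e6, e7, ← hx _ _ (e1 ▸ e4), ← e1, c7 t u ht hu, c1, c2,
        ← map_mul, mul_mul_mul_comm, c4 u hu, mul_comm (star _), c4 t ht, mul_one, map_one]
    rw [this, Nat.cast_ne_zero]
    have o := one_mem_Rs (N := N0 r) (by rw [N0]; nlinarith [Nat.pos_of_ne_zero r0])
    refine fun h => one_ne_zero ((if_pos ⟨![1, 0, 0, 1], ?_⟩).symm.trans
      (sum_eq_zero_iff.1 (sum_eq_zero_iff.1 h 1 o) 1 o))
    simp [Mx]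
  by_cases hα : IsCoprime α (3 * r)
  · rw [mul_one, ps _ _ hα, mul_comm]
  rw [cx, if_neg hα, map_zero, mul_zero]
  obtain ⟨p, hp, p1, p2⟩ : ∃ p : ℕ, p.Prime ∧ p ∣ nn α ∧ p ∣ 3 * r :=
    Nat.Prime.not_coprime_iff_dvd.1 fun h => hα (by
      exact_mod_cast cop_iff.2 (nn_cast α ▸ Nat.isCoprime_iff_coprime.2 h))
  have p3 : ∀ u t s : Zw, (p : ℤ) ∣ nw (u * (α * s) * t) := fun u t s => by
    rw [nw_mul, nw_mul, nw_mul, ← nn_cast α]
    exact (((Int.natCast_dvd_natCast.2 p1).mul_right _).mul_left _).mul_right _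
  rcases hp.dvd_mul.1 p2 with p2 | p2
  · obtain rfl := (Nat.prime_dvd_prime_iff_eq hp Nat.prime_three).1 p2
    refine sum_eq_zero fun t _ => sum_eq_zero fun u _ => ?_
    rw [mul_zero, zero_mul, onM]
    split_ifs with h
    · obtain ⟨x, d⟩ := dv_CPSZ hp (x := h.choose 0) (g := star u * (α * 1) * t)
        ⟨h.choose 2 * e2 r, by rw [mul_one, k h.choose_spec]; push_cast; ring⟩ (p3 _ _ _)
      rw [ph1, if_neg (by rw [d, mul_assoc]; omega), mul_zero]
    · rw [mul_zero]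
  obtain ⟨s, s1, ⟨h, s2⟩, s3⟩ := hc.ram p hp p2
  obtain ⟨q, rfl⟩ := p2
  rw [Nat.mul_div_cancel_left _ hp.pos] at s2
  have k2 : ∀ {u s t} {v : Fin 4 → ℤ}, Mx (p * q) (star u * (mu (p * q) * (α * s)) * t) 0 v →
      (p : Zw) ∣ star u * (α * s) * t := fun {u s t v} h => by
    have d : ((p : ℤ) : Zw) ∣ star u * (α * s) * t - v 0 :=
      ⟨(ω - 1 : Zw) * 3 * (v 2 : ℤ) * q, by rw [k h, e2]; push_cast; ring⟩
    simpa using dvd_add d (int_dvd_int.2 (dv_CPSZ hp d (p3 _ _ _)))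
  have e1 : Ps (p * q) κ (ph1 i e') (mu (p * q) * α * s) 0 =
      Ps (p * q) κ (ph1 i e') (mu (p * q) * α) 0 := by
    refine sum_congr rfl fun t _ => sum_congr rfl fun u _ => congrArg _ ?_
    rw [mul_zero, zero_mul]
    by_cases d : (p : Zw) ∣ star u * (α * 1) * t
    · obtain ⟨g, d⟩ := d
      rw [← m10 (p3_CPSZ i e') (star u * (mu (p * q) * α) * t) 0 (mu (p * q) * (p * g) * (s - 1)) 0
        ⟨-g * h, by
          rw [s2, mu, N0]
          push_cast
          linear_combination 27 * (p * q) ^ 2 * g * h * pw_sq⟩ (by simp), add_zero, ← d]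
      congr 1
      ring
    · rw [onM, onM, dif_neg fun ⟨v, hv⟩ => d ((s1.of_isCoprime_of_dvd_right
        (show (p : Zw) ∣ _ from ⟨3 * q, by push_cast; ring⟩)).symm.dvd_of_dvd_mul_right
          ((k2 (mul_assoc (mu (p * q)) α s ▸ hv)).trans (dvd_of_eq (by ring)))),
        dif_neg fun ⟨v, hv⟩ => d (k2 (by rwa [mul_one]))]
  rw [ps _ _ s1, cx, if_pos s1] at e1
  refine by_contra fun h => ?_
  have := iz_inj ((mul_eq_right₀ h).1 e1 |>.trans (map_one iz).symm)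
  revert this s3
  generalize κ s = x
  revert x
  decide

end Pool.Agent.MP_e23604_nt.Z
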