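import Pool.Agent.MP_e23604_nt.Z.CD

/-!
Ramanujan sums.
-/

set_option autoImplicit false

open Finset QuadraticAlgebra
open scoped Classical BigOperators

namespace Pool.Agent.MP_e23604_nt.Z

open W Un

theorem RAM_pf : RAM_st := by
  intro R x hR
  have R0 : (R : ℤ) ≠ 0 := by exact_mod_cast hR
  have pe : ∀ d : ℤ, ex ((d + R : ℤ) * x / R) = ex (d * x / R) := fun d => by
    simpa using ex_mod (x := (d + R) * x) (y := d * x) (n := R) ⟨x, by ring⟩
  let T : ℕ → ℤ → ℂ := fun m d => if Int.gcd d R = m then ex (d * x / R) else 0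
  have ap : ∀ m, AP (T m) := fun m => (Mn_int hR fun d => by
    simp only [T, pe, Int.gcd_add_self_left]).1
  have key : ∀ c ∈ R.divisors,
      (c * Mn fun d : ℤ => if IsCoprime d c then ex (d * x / c) else 0) = R * Mn (T (R / c)) := by
    intro c hc
    obtain ⟨m, rfl⟩ := Nat.dvd_of_mem_divisors hc
    have c0 : c ≠ 0 := left_ne_zero_of_mul hR
    have m0 : m ≠ 0 := right_ne_zero_of_mul hR
    have m1 : (m : ℂ) ≠ 0 := by exact_mod_cast m0
    have ix : (zmultiplesHom ℤ (m : ℤ)).range.index = m := Int.index_zmultiples m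
    have : (zmultiplesHom ℤ (m : ℤ)).range.FiniteIndex := ⟨by rwa [ix]⟩
    have z : ∀ d, d ∉ (zmultiplesHom ℤ (m : ℤ)).range → T m d = 0 := fun d hd =>
      if_neg fun e => hd (Int.mem_zmultiples_iff.2 (by rw [← e]; exact Int.gcd_dvd_left _ _))
    rw [Nat.mul_div_cancel_left _ c0.bot_lt, Mn_sub (ap m) _ z, ix, Nat.cast_mul, mul_assoc,
      mul_div_cancel₀ _ m1]
    congr 2
    ext d
    simp only [T, zmultiplesHom_apply, smul_eq_mul, Nat.cast_mul, Int.gcd_mul_right,
      Int.natAbs_natCast, mul_eq_right₀ m0, Int.isCoprime_iff_gcd_eq_one, Int.cast_mul,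
      Int.cast_natCast, mul_right_comm _ (m : ℂ), mul_div_mul_right _ _ m1]
  rw [sum_congr rfl key, Nat.sum_div_divisors R fun m => R * Mn (T m), ← mul_sum,
    ← Mn_sum fun m _ => ap m]
  have e : ∀ d : ℤ, ∑ m ∈ R.divisors, T m d = ex (d * x / R) := fun d => by
    rw [sum_ite_eq, if_pos (Nat.mem_divisors.2 ⟨by exact_mod_cast Int.gcd_dvd_right d R, hR⟩)]
  simp only [e]
  split_ifs with h
  · have : ∀ d : ℤ, ex (d * x / R) = 1 := fun d => by
      simpa using (ex_div_eq_one R0).2 (h.mul_left d)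
    simp only [this, Mn_const, mul_one]
  · rw [Mn_char (Mn_int hR pe).1 (v := 1) (ζ := ex (x / R)) (fun d => by
      rw [← ex_add]
      congr 1
      push_cast
      ring) fun e => h ((ex_div_eq_one R0).1 (by simpa using e)), mul_zero]

end Pool.Agent.MP_e23604_nt.Z
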