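import Pool.Agent.MP_e23604_nt.Z.CD

set_option autoImplicit false

open Finset QuadraticAlgebra
open scoped Classical BigOperators

namespace Pool.Agent.MP_e23604_nt.Z

open W Un

theorem one_CSMA {R K : Type} [CommRing R] [Field K] [Fintype K] [DecidableEq K] (F : K → R) (e : R)
    (p : K → Prop) [DecidablePred p] (x : K) (hx : x ≠ 0) (h : ∀ ξ, p ξ ↔ ξ = x) :
    ∑ ξ ∈ univ.erase (0 : K), F ξ * (if p ξ then e else 0) = e * F x := by
  rw [sum_eq_single_of_mem x (by simp [hx]) fun ξ _ n => by simp [h, n], if_pos ((h x).2 rfl),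
    mul_comm]

theorem SMA_pf : SMA_st := by
  intro R _ l hl ρ F a n m v m₃ n0 ⟨k, hk⟩ hm h3 hq l1 hn hρ
  have lp := hl.out
  have m0 : m ≠ 0 := fun e => n0 (by rw [hk, e, zero_mul])
  have m30 : m₃ ≠ 0 := fun e => h3 (e ▸ dvd_zero l)
  rw [hk, Nat.mul_div_cancel_left _ (Nat.pos_of_ne_zero m0)] at hq
  have cz : ∀ c : ℕ, (c : ZMod l) = 0 ↔ l ∣ c := fun c => ZMod.natCast_eq_zero_iff c l
  rw [← rho_nw ρ a] at hn
  simp only [mul_sum]
  rw [sum_comm]
  symm
  by_cases hA : ρ (star a) = 0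
  · have hB : ρ a ≠ 0 := hρ.resolve_right (not_not.2 hA)
    have v0 : v ≠ 0 := by
      rintro rfl
      rw [hA, mul_zero, add_zero, cz, hk, hm, pow_zero, one_mul] at hn
      exact (lp.dvd_mul.1 hn).elim h3 hq
    refine sum_of_injOn (l ^ v * ·) (fun x _ y _ e => Nat.eq_of_mul_eq_mul_left
      (pow_pos lp.pos v) e) (fun c hc => ?_) (fun c hc hi => ?_) fun c hc => ?_
    · exact Nat.mem_divisors.2 ⟨hm ▸ Nat.mul_dvd_mul_left _ (Nat.dvd_of_mem_divisors hc), m0⟩
    · refine sum_eq_zero fun ξ hξ => ?_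
      rw [if_neg, mul_zero]
      rintro ⟨-, e⟩
      obtain ⟨d, hd⟩ := Nat.dvd_of_mem_divisors hc
      have c0 : 0 < c := Nat.pos_of_mem_divisors hc
      have ld : ¬ l ∣ d := fun h => mul_ne_zero (ne_of_mem_erase hξ) hB (by
        rw [hk, hd, mul_assoc, Nat.mul_div_cancel_left _ c0, (cz _).2 (h.mul_right k)] at e
        simpa using e)
      obtain ⟨c', rfl⟩ : l ^ v ∣ c := (((Nat.Prime.coprime_iff_not_dvd lp).2 ld).pow_left
        v).dvd_of_dvd_mul_right ⟨m₃, hd ▸ hm⟩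
      refine hi ⟨c', mem_coe.2 (Nat.mem_divisors.2 ⟨⟨d, ?_⟩, m30⟩), rfl⟩
      exact Nat.eq_of_mul_eq_mul_left (pow_pos lp.pos v) (by rw [← hm, hd, mul_assoc])
    · obtain ⟨d, hd⟩ := Nat.dvd_of_mem_divisors hc
      have c0 : (c : ZMod l) ≠ 0 := fun e => h3 (hd ▸ ((cz c).1 e).mul_right d)
      have d0 : ((d * k : ℕ) : ZMod l) ≠ 0 := fun e =>
        (lp.dvd_mul.1 ((cz _).1 e)).elim (fun e => h3 (hd ▸ e.mul_left c)) hq
      have e1 : n / (l ^ v * c) = d * k := Nat.div_eq_of_eq_mul_right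
        (mul_pos (pow_pos lp.pos v) (Nat.pos_of_mem_divisors hc)) (by rw [hk, hm, hd]; ring)
      have e2 : n / l ^ v = c * (d * k) :=
        Nat.div_eq_of_eq_mul_right (pow_pos lp.pos v) (by rw [hk, hm, hd]; ring)
      have e3 : et ((l ^ v * c : ℕ) : ℤ) = et c := et_congr (by
        have : (3 : ℤ) ∣ l ^ v - 1 :=
          (show (3 : ℤ) ∣ l - 1 by omega).trans (by simpa using sub_dvd_pow_sub_pow (l : ℤ) 1 v)
        push_cast
        exact (show (l : ℤ) ^ v * c - c = (l ^ v - 1) * c by ring) ▸ this.mul_right _)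
      rw [if_neg (not_not.2 hA), e1, e2, e3, Nat.cast_mul c, hA,
        (cz _).2 ((dvd_pow_self l v0).mul_right c), one_CSMA F _ _ (-((d * k : ℕ) : ZMod l) / ρ a)
          (div_ne_zero (neg_ne_zero.2 d0) hB) fun ξ => by
            rw [eq_div_iff hB, mul_zero, eq_neg_iff_add_eq_zero]; simp]
      congr 2
      field_simp
  · refine (sum_congr rfl fun c hc => ?_).trans (sum_subset (Nat.divisors_subset_of_dvd m0
      ⟨l ^ v, by rw [hm, mul_comm]⟩) fun c hc hi => sum_eq_zero fun ξ _ => ?_)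
    · obtain ⟨d, hd⟩ := Nat.dvd_of_mem_divisors hc
      have c0 : (c : ZMod l) ≠ 0 := fun e => h3 (hd ▸ ((cz c).1 e).mul_right d)
      have e1 : c * (n / c) = n := Nat.mul_div_cancel' ⟨d * l ^ v * k, by rw [hk, hm, hd]; ring⟩
      rw [if_pos hA, one_CSMA F _ _ _ (div_ne_zero hA c0) fun ξ => ?_]
      rw [eq_div_iff c0, eq_comm, and_iff_left_iff_imp]
      intro e
      refine mul_left_cancel₀ c0 ?_
      rw [← e1, Nat.cast_mul, ← e] at hn
      linear_combination hn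
    · rw [if_neg, mul_zero]
      rintro ⟨e, -⟩
      by_cases h : l ∣ c
      · exact hA (by rw [e, (cz c).2 h, mul_zero])
      · exact hi (Nat.mem_divisors.2 ⟨(((Nat.Prime.coprime_iff_not_dvd lp).2 h).symm.pow_right
          v).dvd_of_dvd_mul_left (hm ▸ Nat.dvd_of_mem_divisors hc), m30⟩)

end Pool.Agent.MP_e23604_nt.Z
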