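import Pool.Agent.MP_e23604_nt.Z.CD

/-!
The count of the second variable.
-/

set_option autoImplicit false

open Finset QuadraticAlgebra
open scoped Classical BigOperators

namespace Pool.Agent.MP_e23604_nt.Z

open W Un

theorem fac_CSMB (h1 : FCT_st) {r m : ℕ} (hr : r ≠ 0) (hc : r.Coprime m) (P : Zw → Prop)
    [DecidablePred P] (hP : ∀ s z, nn s = r → (P (s * z) ↔ P z)) (G : Zw → Zw) :
    6 * ∑ y ∈ el (r * m) with P y, G y = ∑ z ∈ el m with P z, ∑ s ∈ el r, G (s * z) := by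
  rw [sum_comm, mul_sum, sum_congr rfl (g := fun y => ∑ s ∈ el r, if s ∣ y then G y else 0)
    fun y hy => by
      rw [← sum_filter, sum_const, h1 r m y hr
        (by rw [← nn_cast, mem_el.1 (mem_filter.1 hy).1, Nat.cast_mul])
        (Nat.isCoprime_iff_coprime.2 hc), nsmul_eq_mul, Nat.cast_ofNat], sum_comm]
  refine sum_congr rfl fun s hs => ?_
  rw [mem_el] at hs
  have s0 : s ≠ 0 := fun e => hr (by rw [← hs, e]; rfl)
  rw [← sum_filter]
  refine (sum_bij (fun z _ => s * z) (fun z hz => ?_) (fun _ _ _ _ => mul_left_cancel₀ s0)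
    (fun y hy => ?_) fun _ _ => rfl).symm
  · simp only [mem_filter, mem_el] at hz ⊢
    exact ⟨⟨by rw [nn_mul, hs, hz.1], (hP s z hs).2 hz.2⟩, dvd_mul_right _ _⟩
  · simp only [mem_filter, mem_el] at hy ⊢
    obtain ⟨⟨a, b⟩, z, rfl⟩ := hy
    rw [nn_mul, hs] at a
    exact ⟨z, ⟨mul_left_cancel₀ hr a, (hP s z hs).1 b⟩, rfl⟩

theorem SMB_pf (h1 : FCT_st) (h2 : RPL_st) (h3 : REP_st) (h4 : NSL_st) : SMB_st := by
  intro N l q lam f a Φ n v m₃ hN N3 hl l3 hlam qN ql hq hI hf n0 qn e lm lN ln ha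
  obtain ⟨r1, r2, r3, r4, r5⟩ := h4 N n hN n0
  obtain ⟨m, rfl⟩ : q ∣ m₃ := (((Nat.coprime_primes hq hl).2 ql).pow_right v).dvd_of_dvd_mul_left
    (e ▸ (r5 q qN qn).2)
  have e1 : n = q * (nS N n * (l ^ v * m)) := by
    conv_lhs => rw [← Nat.mul_div_cancel' r1, e]
    ring
  have r0 : nS N n ≠ 0 := ne_zero_of_dvd_ne_zero n0 r1
  have d1 : l ^ v * m ∣ n / nS N n := e ▸ ⟨q, by ring⟩
  have pr : ∀ ϖ : Zw, nn ϖ = l → ∀ s z, nn s = nS N n → (ϖ ∣ s * z ↔ ϖ ∣ z) := fun ϖ h s z hs =>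
    ((prime_of_nn (h ▸ hl)).dvd_mul).trans (or_iff_right fun d => hl.one_lt.ne'
      ((lN.pow_right n).eq_one_of_dvd ((h ▸ hs ▸ nn_dvd d).trans r2)))
  have hs : nn (star lam) = l := (W.nn_star lam).trans hlam
  have lm' : ¬ l ∣ m := fun h => lm (h.mul_left q)
  have hc : ((el (l ^ v * m)).filter fun y => ¬ (lam ∣ a ∧ lam ∣ y) ∧
      ¬ (star lam ∣ a ∧ star lam ∣ y)).card = (el m).card := by
    by_cases a1 : lam ∣ a
    · simpa [a1, not_and.1 ha a1] using h2 lam l v m hl l3 hlam lm'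
    by_cases a2 : star lam ∣ a
    · simpa [a1, a2] using h2 _ l v m hl l3 hs lm'
    obtain rfl | hv := eq_or_ne v 0
    · simp [a1, a2]
    have d2 : l ∣ nn a := (Nat.dvd_add_right (((dvd_pow_self l hv).mul_right m).trans
      (d1.trans (Nat.div_dvd_of_dvd r1)))).1 ln
    have d3 : lam ∣ a * star a := by
      rw [mul_star_nn]
      exact (Dvd.intro _ (mul_star_nn lam)).trans (Nat.cast_dvd_cast (hlam ▸ d2))
    obtain ⟨c, hc⟩ := ((prime_of_nn (hlam ▸ hl)).dvd_or_dvd d3).resolve_left a1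
    exact absurd ⟨star c, by rw [← star_star a, hc, star_mul, mul_comm]⟩ a2
  refine mul_left_cancel₀ (show (6 : Zw) ≠ 0 by decide) ?_
  rw [Nat.mul_div_cancel_left _ hq.pos, Nat.div_eq_of_eq_mul_right hq.pos e1,
    fac_CSMB h1 r0 (r4.coprime_dvd_right d1) _
      (fun s z h => by rw [pr lam hlam s z h, pr _ hs s z h]) fun y => Φ (y * f),
    sum_congr rfl (g := fun _ => Bs N Φ n), sum_const, hc, nsmul_eq_mul, ← Int.cast_natCast,
    h3 m fun h => Nat.prime_three.one_lt.ne' (Nat.eq_one_of_dvd_coprimes r3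
      ((h.mul_left _).trans d1) N3), Int.cast_mul, Int.cast_ofNat, mul_assoc]
  intro z hz
  have k : (N : ℤ) ∣ nw (z * f) + (n / nS N n : ℕ) := by
    rw [nw_mul, ← nn_cast z, mem_el.1 (mem_filter.1 hz).1, e]
    exact (hf.mul_left (l ^ v * m : ℕ)).trans (dvd_of_eq (by push_cast; ring))
  have hx : ∃ u : Zw, (N : ℤ) ∣ nw u + (n / nS N n : ℕ) := ⟨_, k⟩
  rw [Bs, dif_pos hx, ← hI _ (z * f) _ ?_ (by simpa using dvd_sub k hx.choose_spec)]
  · simp only [mul_assoc]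
  · obtain ⟨c, hc⟩ := k
    rw [eq_sub_of_add_eq hc, sub_eq_neg_add, IsCoprime.add_mul_left_left_iff]
    exact (Nat.isCoprime_iff_coprime.2 r3).neg_left

end Pool.Agent.MP_e23604_nt.Z
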