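import Pool.Agent.MP_e23604_nt.Z.CD

set_option autoImplicit false

open Finset QuadraticAlgebra
open scoped Classical BigOperators

namespace Pool.Agent.MP_e23604_nt.Z

open W Un

theorem SMC_pf (h1 : SMA_st) (h2 : SMB_st) (h3 : DLG_st) (h4 : NSL_st) : SMC_st := by
  intro R _ φ N l hl lam a ρ Φ n hN N3 Nl hlam hρ hI hn hla hab
  have lp := hl.out
  obtain ⟨s1, s2, s3, -, -⟩ := h4 N n hN hn
  have e0 := Nat.mul_div_cancel' s1
  have m0 : n / nS N n ≠ 0 := fun e => hn (by rw [← e0, e, mul_zero])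
  obtain ⟨v, m, hm, e1⟩ := Nat.exists_eq_pow_mul_and_not_dvd m0 l lp.ne_one
  have l1 : l % 3 = 1 := by
    have := (Int.natCast_dvd_natCast.2 N3).trans Nl
    omega
  have lN : l.Coprime N := by
    obtain ⟨k, hk⟩ := Nl
    exact Nat.isCoprime_iff_coprime.1 ⟨1, -k, by linear_combination hk⟩
  have sN : ∀ q : ℕ, q.Prime → ¬ q ∣ N → ¬ q ∣ nS N n := fun q hq h e =>
    h (hq.dvd_of_dvd_pow (e.trans s2))
  have ls := sN l lp (lp.coprime_iff_not_dvd.1 lN)
  have en : n = nS N n * l ^ v * m := by rw [mul_assoc, ← e1, e0]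
  have mz : m ≠ 0 := fun e => hm (e ▸ dvd_zero _)
  have ha : ρ a ≠ 0 ∨ ρ (star a) ≠ 0 := by
    rw [Ne, Ne, hρ, hρ, ← not_and_or]
    exact fun h => hab ⟨h.1, star_star a ▸ map_dvd (starRingEnd Zw) h.2⟩
  have A := fun (R : Type) [CommRing R] (F : ZMod l → R) => h1 R l ρ F a n _ v m hn
    (Nat.div_dvd_of_dvd s1) e1 hm (by rwa [Nat.div_div_self s1 hn]) l1 (by
      rw [← nn_cast, Int.cast_natCast, ← Nat.cast_add]
      exact (ZMod.natCast_eq_zero_iff _ _).2 hla) ha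
  have m2 : Bs N Φ n ≠ 0 → m % 3 = 2 := fun h => by
    obtain ⟨u, hu⟩ : ∃ u : Zw, (N : ℤ) ∣ nw u + (n / nS N n : ℕ) := by
      by_contra e
      exact h (dif_neg e)
    have b1 := (Int.natCast_dvd_natCast.2 N3).trans hu
    have b2 := (Nat.Prime.coprime_iff_not_dvd Nat.prime_three).1 (s3.coprime_dvd_right N3).symm
    have b3 : nn u % 3 ≠ 2 := fun e => by
      have := nn_mod3 (mt pw_dvd_iff.1 (by omega) : ¬ pw ∣ u)
      omega
    have b4 : (l ^ v * m) % 3 = m % 3 := by rw [Nat.mul_mod, Nat.pow_mod, l1]; simp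
    rw [← nn_cast] at b1
    omega
  have nz : ∀ c : ℕ, c ∣ m → (c : ZMod l) ≠ 0 := fun c h e =>
    hm (((ZMod.natCast_eq_zero_iff _ _).1 e).trans h)
  refine ⟨?_, fun L f hL hf => ?_⟩
  · by_cases h : Bs N Φ n = 0
    · rw [h, zero_mul]
    have := A Zw fun _ => 1
    simp only [one_mul, mul_one] at this
    rw [this, ← Int.cast_sum, ← rh, (h3 Zw 0 m (m2 h) (by simp)).1, Int.cast_zero, mul_zero]
  have es : (n.primeFactors.filter fun q => q % 3 = 2 ∧ ¬ q ∣ N) =
      m.primeFactors.filter fun q => q % 3 = 2 := by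
    ext q
    simp only [mem_filter, Nat.mem_primeFactors, ne_eq, hn, mz, not_false_eq_true, and_true]
    refine ⟨fun ⟨⟨p, d⟩, q2, qN⟩ => ⟨⟨p, ?_⟩, q2⟩, fun ⟨⟨p, d⟩, q2⟩ =>
      ⟨⟨p, en ▸ d.mul_left _⟩, q2, p.coprime_iff_not_dvd.1 (s3.coprime_dvd_left
        (e1 ▸ d.mul_left _))⟩⟩
    rw [en] at d
    refine (p.dvd_mul.1 d).resolve_left fun d => (p.dvd_mul.1 d).elim (sN q p qN) fun d => ?_
    have := (Nat.prime_dvd_prime_iff_eq p lp).1 (p.dvd_of_dvd_pow d)
    omega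
  refine Eq.trans ?_ (sum_congr es (g := fun q : ℕ => φ (Bs N Φ n) * (L q *
    ((1 + (m / q).factorization q / 2 : ℕ) * (rh (m / q) : R)))) fun q hq => ?_).symm
  · rw [A, ← mul_sum]
    by_cases h : Bs N Φ n = 0
    · rw [h, map_zero, zero_mul, zero_mul]
    obtain ⟨d1, d2⟩ := h3 R (fun c => L c) m (m2 h) fun x y e => by
      rw [Nat.cast_mul, hL.add _ _ (nz _ ((dvd_mul_right _ _).trans e))
        (nz _ ((dvd_mul_left _ _).trans e))]
    obtain ⟨x, x0, hx⟩ : ∃ x : ZMod l, x ≠ 0 ∧ ∀ c : ZMod l, (if ρ (star a) ≠ 0 then ρ (star a) / c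
        else -((n / l ^ v : ℕ) : ZMod l) / ρ a / c) = x / c := by
      split_ifs with e
      · exact ⟨_, e, fun _ => rfl⟩
      · refine ⟨_, div_ne_zero (neg_ne_zero.2 fun d => ?_) (ha.resolve_right e), fun _ => rfl⟩
        rw [ZMod.natCast_eq_zero_iff, Nat.div_eq_of_eq_mul_left (pow_pos lp.pos v)
          (en.trans (mul_right_comm _ _ _))] at d
        exact (lp.dvd_mul.1 d).elim ls hm
    rw [← neg_eq_iff_eq_neg.2 d2, sum_congr rfl
      (g := fun c : ℕ => (et c : R) * L x - et c * L c) fun c hc => ?_, sum_sub_distrib, ← sum_mul,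
      ← Int.cast_sum, ← rh, d1, Int.cast_zero, zero_mul, zero_sub]
    have c0 := nz c (Nat.dvd_of_mem_divisors hc)
    rw [hx, ← mul_sub, ← div_mul_cancel₀ x c0, hL.add _ _ (div_ne_zero x0 c0) c0,
      div_mul_cancel₀ x c0, add_sub_cancel_right]
  · have qm := Nat.dvd_of_mem_primeFactors (mem_filter.1 hq).1
    obtain ⟨q1, q2, qN⟩ := mem_filter.1 (es ▸ hq)
    have p := Nat.prime_of_mem_primeFactors q1
    have ql : q ≠ l := by omega
    have fa : (n / q).factorization q = (m / q).factorization q := by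
      rw [show n / q = nS N n * l ^ v * (m / q) by rw [← Nat.mul_div_assoc _ qm, ← en],
        Nat.factorization_mul (mul_ne_zero (ne_zero_of_dvd_ne_zero hn s1) (pow_ne_zero _ lp.ne_zero))
          (Nat.div_ne_zero_iff_of_dvd qm |>.2 ⟨mz, p.ne_zero⟩), Finsupp.add_apply,
        Nat.factorization_eq_zero_of_not_dvd fun d => (p.dvd_mul.1 d).elim (sN q p qN) fun d =>
          ql ((Nat.prime_dvd_prime_iff_eq p lp).1 (p.dvd_of_dvd_pow d)), zero_add]
    rw [sum_congr rfl (g := fun y => L q * (1 + (m / q).factorization q / 2 : ℕ) * φ (Φ (y * f q)))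
      fun y hy => by rw [mem_el.1 (mem_filter.1 hy).1, fa], ← mul_sum, ← map_sum,
      h2 N l q lam (f q) a Φ n v m hN N3 lp (by omega) hlam (p.coprime_iff_not_dvd.2 qN) ql p hI
        (by rw [← nn_cast]; exact_mod_cast hf q p q2 qN) hn (Nat.dvd_of_mem_primeFactors q1) e1 hm
        lN hla hab, map_mul, map_intCast]
    ring

end Pool.Agent.MP_e23604_nt.Z
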