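import Pool.Agent.MP_e23604_nt.Z.CE

/-!
The sums over the Galois group, split into residue classes.
-/

set_option autoImplicit false

open Finset QuadraticAlgebra
open scoped Classical BigOperators

namespace Pool.Agent.MP_e23604_nt.Z

open B R S W Un

variable {r : ℕ} {χ : GQ → ZMod 3} {p : Zw → Zw} {M b u : Zw} {G : Pt}

theorem key_CSMT (h : Wq r χ p) (h0 : r ≠ 0) (M0 : M ≠ 0) (hM : (9 * r : Zw) ∣ M) (b0 : b ≠ 0)
    (hG : Gen M G) {ε : Zw} (hε : ε ∈ el 1) {y : GQ} (hy : y ∈ Xs (UM M) GK) :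
    Gd (eta χ y G) ∧ IsCoprime (ps M y) M ∧ W.io (p (ε * ω ^ (χ y).val * ps M y * u)) *
      de b (ε • eta χ y G) = W.io (p u) * de b (eta χ y G) := by
  have k0 := (Xs_trv (UM_open M0) (UM_le M)).1 y hy
  have k1 := nn_unit.2 (mem_el.1 hε)
  have k2 := (hG.gd W.CYG_ok M0 (dvd_trans ⟨3 * r, by ring⟩ hM)).eta χ k0
  obtain ⟨z, hz⟩ := ((W.PS_ok (9 * r) (mul_ne_zero (by decide) (Nat.cast_ne_zero.2 h0))).1 y
    k0).2.2.2.2.2.2.2.2 M M0 hM
  refine ⟨k2, ((W.PS_ok M M0).1 y k0).2.1, ?_⟩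
  rw [h.mul, h.mul, h.mul, h.eps ε k1, h.eps _ (w_unit.pow _), sub_eq_iff_eq_add'.1 hz, h.per,
    mul_assoc ε, mul_comm (ω ^ _), h.gal y k0, mul_one, mul_comm ε, map_mul, mul_assoc,
    ((W.THI_ok b b0).1 ε _ k1).2 k2.ne]

theorem cop_CSMT : IsCoprime u (9 * r) ↔ IsCoprime u (3 * r) :=
  ⟨fun h => h.of_isCoprime_of_dvd_right ⟨3, by ring⟩,
    fun h => (h.pow_right (n := 2)).of_isCoprime_of_dvd_right ⟨r, by ring⟩⟩

theorem mq_CSMT (h2 : MM_st) (M0 : M ≠ 0) {f : Zw → ℂ} (h : ∀ x z, f (x + M * z) = f x) (c : ℂ) :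
    Mq (fun g => c * f g) = c * Mq f := by
  simpa using h2.1 Unit univ (fun _ => c) (fun _ => f) fun _ _ => AP_zw M0 h

theorem st_CSMT (h : Wq r χ p) (hb : IsCoprime b (3 * r)) (x : Zw) :
    iz (star (p b)) * iz (p (b * x)) = iz (p x) := by
  rw [← map_mul, h.mul, ← mul_assoc, mul_comm (star _), h.uni b hb, one_mul]

theorem SM0_pf (h1 : KDS_st) (h2 : MM_st) : SM0_st := by
  intro r χ p G h0 h hG
  have M0 : (9 * r : Zw) ≠ 0 := mul_ne_zero (by decide) (Nat.cast_ne_zero.2 h0)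
  obtain ⟨u, hu, H⟩ := h1 _ G M0 ⟨3 * r, by ring⟩ hG
  refine ⟨p u, .of_mul_eq_one _ (h.uni u (cop_CSMT.1 hu)), fun b hb => ?_⟩
  have b0 : b ≠ 0 := fun e => pw_prime.not_isUnit (hb.isUnit_of_dvd' ⟨0, by rw [e, mul_zero]⟩
    (pw_dvd3.mul_right _))
  have k := H b χ (fun g => iz (p g)) (fun g => iz (star (p b)) * iz (p g)) (cop_CSMT.2 hb)
    (fun x z => by rw [h.per]) (fun x z => by rw [h.per])
    (fun x hx => cop_CSMT.2 (h.sup x fun e => hx (by rw [e, map_zero]))) (st_CSMT h hb)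
  have e := (sum_congr rfl fun ε hε => sum_congr rfl fun y hy => (map_mul eC _ _).symm.trans
    (congrArg eC (key_CSMT h h0 M0 dvd_rfl b0 hG hε hy).2.2)).symm.trans k
  rw [mq_CSMT h2 M0 (fun x z => by rw [h.per]), sum_const, card_el_one, ← map_sum, ← mul_sum] at e
  rw [mul_assoc (6 : Qb), map_mul, map_ofNat, map_mul iz b, W.tr]
  linear_combination e

theorem SMT_pf (h1 : KDS_st) (h2 : MM_st) : SMT_st := by
  intro r l _ χ p b lam σ G h0 h hb hσ hl hk hG
  have pl := prime_of_nn (hl ▸ Fact.out : (nn lam).Prime)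
  have M0 : 9 * r * lam ≠ 0 :=
    mul_ne_zero (mul_ne_zero (by decide) (Nat.cast_ne_zero.2 h0)) pl.ne_zero
  obtain ⟨u, hu, H⟩ := h1 _ G M0 ⟨3 * r * lam, by ring⟩ hG
  have b6 := hb.of_mul_right_left
  have b3 : IsCoprime b (3 * r) := hb.of_isCoprime_of_dvd_right ⟨2, by ring⟩
  have K := fun ε hε y hy => key_CSMT (u := u) (ε := ε) (y := y) h h0 M0 (dvd_mul_right _ _)
    (cop6_ne b6) hG hε hy
  have cp : ∀ x, IsCoprime x lam ↔ σ x ≠ 0 := fun x => by
    rw [Ne, hk, isCoprime_comm, pl.coprime_iff_not_dvd]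
  have pe : ∀ x g z, rr p σ x (g + 9 * r * lam * z) = rr p σ x g := fun x g z => by
    rw [rr, rr, map_add, (hk _).2 ((dvd_mul_left _ _).mul_right _), add_zero, mul_assoc _ lam,
      h.per]
  refine ⟨fun x => ∑ ε ∈ el 1, ∑ y ∈ Xs (UM (9 * r * lam)) GK,
    (if σ (ε * ω ^ (χ y).val * ps (9 * r * lam) y * u) = x then
      W.io (p (ε * ω ^ (χ y).val * ps (9 * r * lam) y * u)) else 0) * de b (ε • eta χ y G),
    u, p u, fun e => (cp u).1 hu.of_mul_right_right ((hk u).2 e),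
    .of_mul_eq_one _ (h.uni u (cop_CSMT.1 hu.of_mul_right_left)), ?_, fun x => ?_,
    fun x hx => ?_, fun w hw => ?_⟩
  · refine sum_eq_zero fun ε hε => sum_eq_zero fun y hy => ?_
    rw [if_neg, zero_mul]
    refine (cp _).1 (.mul_left (.mul_left ?_ (K ε hε y hy).2.1.of_mul_right_right)
      hu.of_mul_right_right)
    simpa using (isCoprime_mul_unit_left_left ((nn_unit.2 (mem_el.1 hε)).mul (w_unit.pow _)) 1
      lam).2 isCoprime_one_left
  · rw [← map_mul, sum_mul]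
    refine BValA_sum V3.na _ _ zero_le_one fun ε hε => ?_
    rw [sum_mul]
    refine BValA_sum V3.na _ _ zero_le_one fun y hy => ?_
    split_ifs
    · rw [(K ε hε y hy).2.2, mul_assoc]
      refine (bLocA_mul_le (V3.io_le _)).trans ((map_mul V3.v _ _).trans_le ?_)
      exact (W.TAY_ok b V3 _ 0 b6 (V3_not (cop6.1 b6).2) (K ε hε y hy).1 trivial
        (by rw [zz_zero, map_zero]; exact V3.v.pos (by norm_num))).1
    · simp
  · have k := H b χ (rr p σ x) (fun g => iz (star (p b)) * rr p σ (σ b * x) g)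
      ((cop_CSMT.2 b3).mul_right ((cp b).2 hσ)) (pe x) (fun g z => by rw [pe])
      (fun g hg => by
        have e : σ g = x := by_contra fun e => hg (if_neg e)
        refine (cop_CSMT.2 (h.sup g fun e' => hg ?_)).mul_right ((cp g).2 (e ▸ hx))
        rw [rr, e', map_zero, ite_self])
      fun g => by
        simp only [rr, map_mul σ, mul_right_inj' hσ, mul_ite, mul_zero, st_CSMT h b3]
    rw [mq_CSMT h2 M0 (pe _), ← mul_assoc (iz b), ← map_mul iz b] at k
    simp only [map_sum, map_mul eC, apply_ite eC, map_zero]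
    exact k
  · simp only [mul_sum]
    rw [sum_comm, sum_congr rfl (g := fun _ => ∑ y ∈ Xs (UM (9 * r * lam)) GK,
      W.io (p u) * (w (σ (ps (9 * r * lam) y * u)) * de b (eta χ y G))) fun ε hε => ?_,
      sum_const, card_el_one, nsmul_eq_mul, mul_sum]
    · exact sum_congr rfl fun y _ => by rw [mul_assoc 6, Nat.cast_ofNat]
    rw [sum_comm]
    refine sum_congr rfl fun y hy => ?_
    simp only [ite_mul, mul_ite, zero_mul, mul_zero, sum_ite_eq, mem_univ, if_true]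
    rw [(K ε hε y hy).2.2, mul_assoc (ε * _), map_mul σ,
      hw _ _ ((nn_unit.2 (mem_el.1 hε)).mul (w_unit.pow _)), mul_left_comm]

end Pool.Agent.MP_e23604_nt.Z
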