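import Pool.Agent.MP_e23604_nt.Z.C0

set_option autoImplicit false

open Finset QuadraticAlgebra
open scoped Classical BigOperators

namespace Pool.Agent.MP_e23604_nt.Z

open W Un

theorem dvd_CSUM {q r : ℕ} (hq : q.Prime) (h : q % 3 = 2) : q ∣ N0 r ↔ q ∣ r := by
  refine ⟨fun e => hq.dvd_of_dvd_pow ((hq.dvd_mul.1 e).resolve_left fun e => ?_),
    fun e => (dvd_pow e two_ne_zero).mul_left _⟩
  have := (Nat.prime_dvd_prime_iff_eq hq Nat.prime_three).1 (hq.dvd_of_dvd_pow (n := 4) e)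
  omega

theorem SUM_pf (h : SMC_st) : SUM_st := by
  intro R _ φ r l _ lam ρ Ψ hr hl hn hρ hI h0
  have hp : l.Prime := Fact.out
  have eM : N0 r * l / 3 = 27 * r ^ 2 * l := by
    rw [N0, show 81 * r ^ 2 * l = 3 * (27 * r ^ 2 * l) by ring, Nat.mul_div_cancel_left _ three_pos]
  have h1 : 81 * r ^ 2 < l := by
    have := Int.le_of_dvd (by have := hp.two_le; omega) hl
    rw [N0] at this
    omega
  have h2 := fun a (ha : a ∈ bl (27 * r ^ 2 * l)) (a0 : a ≠ 0) => h R φ (N0 r) l lam a ρ (Ψ a)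
    (27 * r ^ 2 * l - nn a) (N0_ne hr) (N0_dvd r) hl hn hρ (hI a) (Nat.sub_ne_zero_of_lt (mem_bl.1 ha))
    (by rw [Nat.sub_add_cancel (mem_bl.1 ha).le]; exact dvd_mul_left _ _) fun e => by
      have := Nat.le_of_dvd (nn_pos a0) (nn_dvd ((cop_conj hp (by
        have := pow_pos (Nat.pos_of_ne_zero hr) 2; omega) hn).mul_dvd e.1 e.2))
      rw [nn_mul, nn_star, hn] at this
      nlinarith [mem_bl.1 ha]
  have hB : ∀ n, Bs (N0 r) (Ψ 0) n = 0 := fun n => by simp [Bs, h0]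
  refine ⟨?_, fun L f hL hf => ?_⟩
  · simp only [be, eM]
    rw [sum_comm]
    refine sum_eq_zero fun a ha => ?_
    rw [← mul_sum]
    by_cases a0 : a = 0
    · rw [a0, hB, zero_mul]
    · exact (h2 a ha a0).1
  simp only [be, eM, map_sum φ, map_mul φ, apply_ite φ, map_intCast, map_zero, mul_sum (bl _),
    mul_left_comm (L _)]
  rw [sum_comm, sum_congr rfl (g := fun a => ∑ q ∈ (27 * r ^ 2 * l - nn a).primeFactors with
    q % 3 = 2 ∧ ¬ q ∣ N0 r, ∑ y ∈ el ((27 * r ^ 2 * l - nn a) / q) with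
    ¬ (lam ∣ a ∧ lam ∣ y) ∧ ¬ (star lam ∣ a ∧ star lam ∣ y),
    L q * (1 + (nn y).factorization q / 2 : ℕ) * φ (Ψ a (y * f q))) fun a ha => ?_]
  · simp only [sum_sigma']
    refine sum_bij' (fun x _ => (x.2.1, x.1, x.2.2)) (fun x _ => ⟨x.2.1, x.1, x.2.2⟩) ?_ ?_
      (fun _ _ => rfl) (fun _ _ => rfl) fun _ _ => rfl
    · rintro ⟨a, q, y⟩ e
      simp only [Tr, hn, mem_sigma, mem_filter, mem_product, mem_range, mem_nb, mem_bl, mem_el,
        Nat.mem_primeFactors] at e ⊢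
      obtain ⟨e1, ⟨⟨e2, e3, e4⟩, e5, e6⟩, e7, e8⟩ := e
      have e9 : q * nn y = 27 * r ^ 2 * l - nn a := by rw [e7, Nat.mul_div_cancel' e3]
      have := Nat.le_of_dvd (Nat.pos_of_ne_zero e4) e3
      have := Nat.div_le_self (27 * r ^ 2 * l - nn a) q
      exact ⟨by omega, e2, e5, (dvd_CSUM e2 e5).not.1 e6,
        fun e => e4 (by rw [← e9, e]; exact mul_zero q), by omega, e8⟩
    · rintro ⟨q, a, y⟩ e
      simp only [Tr, hn, mem_sigma, mem_filter, mem_product, mem_range, mem_nb, mem_bl, mem_el,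
        Nat.mem_primeFactors] at e ⊢
      obtain ⟨-, e1, e2, e3, e4, e5, e6⟩ := e
      have := mul_pos e1.pos (nn_pos e4)
      rw [show 27 * r ^ 2 * l - nn a = q * nn y by omega]
      exact ⟨by omega, ⟨⟨e1, dvd_mul_right _ _, this.ne'⟩, e2, (dvd_CSUM e1 e2).not.2 e3⟩,
        (Nat.mul_div_cancel_left _ e1.pos).symm, e6⟩
  · rw [← mul_sum]
    by_cases a0 : a = 0
    · simp [a0, hB, h0]
    · exact (h2 a ha a0).2 L f hL fun q q1 q2 q3 => hf q q1 q2 ((dvd_CSUM q1 q2).not.1 q3)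

end Pool.Agent.MP_e23604_nt.Z
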