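import Pool.Agent.MP_e23604_nt.Z.CD

/-!
The global weights form a system.
-/

set_option autoImplicit false

open Finset QuadraticAlgebra
open scoped Classical BigOperators

namespace Pool.Agent.MP_e23604_nt.Z

open W Un

theorem trw_CSYS (n : ℕ) (a y z : Zw) :
    trw (a * star (y + n * z)) = trw (a * star y) + n * trw (a * star z) := by
  rw [← trw_int_mul, ← trw_add, star_add, star_mul, star_natCast, Int.cast_natCast]
  congr 1
  ring

theorem SYS_pf (h1 : TFB_st) (h2 : TFS_st) (h3 : TFP_st) (h4 : XLL_st) : SYS_st := by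
  intro N l j hl ρ w Ψ hN h3N hd hw hW
  obtain ⟨k, hk⟩ := id hd
  obtain ⟨m, hm⟩ := id h3N
  have kz : (l : Zw) - 1 = N * k := by exact_mod_cast congrArg (Int.cast : ℤ → Zw) hk
  have l3 : l ≠ 3 := fun e => by
    subst e hm
    push_cast at hk
    rw [mul_assoc] at hk
    omega
  have N0 : (N : ZMod l) ≠ 0 := fun e => by
    simpa [e] using congrArg (Int.cast : ℤ → ZMod l) hk
  have xl := fun a c d => h4 N l ρ w a c d l3 N0 hw
  have tb := fun c d => h1 N c d hN h3N
  have cop : IsCoprime (l : Zw) pw := ⟨1, pw * m * k, by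
    rw [hm] at kz
    push_cast at kz
    linear_combination kz + m * k * pw_sq⟩
  have pa : ∀ Θ : Zw → Zw → ℂ, (∀ b, PN N fun a => Θ a b) → ∀ c d,
      PN (N * l) fun a => XX N ρ w Θ a c d := fun Θ p c d x z e => by
    push_cast at e
    obtain ⟨z, rfl⟩ := cop.dvd_of_dvd_mul_left (dvd_of_mul_left_dvd e)
    have := (xl x c d).2.2.1 z 0 0
    simp only [mul_zero, add_zero] at this
    simp only [XX, this, show Θ (x + l * z) = Θ x from
      funext fun b => p b x _ (dvd_of_mul_right_dvd e)]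
  have pc : ∀ Θ : Zw → Zw → ℂ, (∀ a, PN N (Θ a)) → ∀ a c d,
      XX N ρ w Θ a (c + (N * l : ℕ)) d = XX N ρ w Θ a c d ∧
      XX N ρ w Θ a c (d + (N * l : ℕ)) = XX N ρ w Θ a c d := fun Θ p a c d => by
    have e1 := (xl a c d).2.2.1 0 N 0
    have e2 := (xl a c d).2.2.1 0 0 N
    have e3 := (St fun c => tf N (Θ a) c d).nsmul_mem (x := (N : ℤ))
      (fun c => (h3 N _ c d hN h3N (p a)).1) l c
    have e4 := (St fun d => tf N (Θ a) c d).nsmul_mem (x := (N : ℤ))
      (fun d => (h3 N _ c d hN h3N (p a)).2) l d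
    simp only [mul_zero, add_zero, nsmul_eq_mul] at e1 e2 e3 e4
    simp only [XX, mul_comm N l, Nat.cast_mul, e1, e2, e3, e4, and_self]
  have od : ∀ (Θ : Zw → Zw → ℂ) a c d, XX N ρ w Θ a (-c) (-d) = -XX N ρ w Θ a c d :=
    fun Θ a c d => by rw [XX, XX, (tb c d).2.2.2.1, (xl a c d).2.1, neg_mul]
  have law : ∀ (Θ : Zw → Zw → ℂ) (n : ℤ) (t : ℂ), (∀ a, PN N (Θ a)) →
      (∀ a b, Θ a b ≠ 0 → ex (n * (nw a - nw b) / N) = ex t) → ∀ a c d,
      ex t * XX N ρ w Θ a c (d + n * c) = ex (n * nw a / (N * l : ℕ)) * XX N ρ w Θ a c d :=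
    fun Θ n t p q a c d => by
      have e : (fun b => Θ a b * ex (n * nw b / N)) = fun b => ex (n * nw a / N - t) * Θ a b := by
        funext b
        by_cases e : Θ a b = 0
        · simp [e]
        rw [sub_eq_add_neg, ex_add, ex_neg, ← q a b e, ← ex_neg, ← ex_add, mul_comm]
        congr 2
        ring
      have := ex_split hN hd (n * nw a)
      rw [Int.cast_mul] at this
      rw [XX, XX, (tb c d).2.2.1, (xl a c d).1, e, (tb c d).2.2.2.2.2.1 _ _ ((p a).ap hN), this,
        ← add_sub_cancel t (n * nw a / N), ← add_sub_assoc, add_sub_cancel_left, sub_eq_add_neg,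
        ex_add, ex_neg]
      have := ex_ne t
      field_simp
  have fa : ∀ b, PN N fun a => FF2 N Ψ a b := fun b => PN_Fo _
  have fb : ∀ a, PN N (FF2 N Ψ a) := fun a x z e => by
    simp only [FF2, neg_add, PN_Fo _ _ _ (show (N : Zw) ∣ pw * -z by simpa using e)]
  refine ⟨mul_ne_zero hN hl.out.ne_zero, h3N.mul_right l, fun c d => ⟨pa _ hW.pa c d, pa _ fa c d⟩,
    fun a c d => ⟨(pc _ hW.pb a c d).1, (pc _ fb a c d).1⟩,
    fun a c d => ⟨(pc _ hW.pb a c d).2, (pc _ fb a c d).2⟩, fun a c d => ⟨od _ a c d, od _ a c d⟩,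
    fun a c d => by simpa using law Ψ 1 (1 / 3) hW.pb (by simpa using hW.lawT) a c d,
    fun a c d => ?_, fun a c d => by
      simpa using law _ 3 (j / 3) fb (by simpa using hW.lawU) a c d,
    fun a d => by simp [XX, tf, hW.zero]⟩
  set F : Zw × Zw → ℂ := fun p => Fo N (Ψ p.1) (-p.2) * ex (trw (a * star p.1) / N) with hF
  have pF : ∀ y b y' b' : Zw, F (y + N * y', b + N * b') = F (y, b) := fun y b y' b' => by
    simp only [hF]
    rw [funext fun b => (hW.pa b).per y y', neg_add, ← mul_neg, (PN_Fo _).per, trw_CSYS,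
      ex_congr (y := trw (a * star y) / N) (trw (a * star y')) (by push_cast; field_simp)]
  have aF : AP F := by
    have : ((AddMonoidHom.mulLeft (N : Zw)).range.prod
        (AddMonoidHom.mulLeft (N : Zw)).range).FiniteIndex := ⟨by
      rw [AddSubgroup.index_prod, index_mul (Nat.cast_ne_zero.2 hN), nn_nat]
      positivity⟩
    refine AP.of_le ((AddMonoidHom.mulLeft (N : Zw)).range.prod
      (AddMonoidHom.mulLeft (N : Zw)).range) ?_
    rintro ⟨_, _⟩ ⟨⟨y', rfl⟩, b', rfl⟩ x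
    exact pF x.1 x.2 y' b'
  obtain ⟨a1, a2⟩ := (tb c d).2.2.2.2.2.2.2 F aF
  set g : Zw → ℂ := fun y => XL N ρ w y (-d) c *
    eZ ((trw (a * star y) : ZMod l) * (N : ZMod l)⁻¹) with hg
  have pg : ∀ y z : Zw, g (y + l * z) = g y := fun y z => by
    have := (xl y (-d) c).2.2.1 z 0 0
    simp only [mul_zero, add_zero] at this
    simp only [hg, this, trw_CSYS]
    simp
  have e : (fun y => XX N ρ w Ψ y (-d) c * ex (trw (a * star y) / (N * l : ℕ))) =
      fun y => Complex.I * (tf N (fun b => F (y, b)) c d * g y) := by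
    funext y
    have a3 := (PN_Fo (N := N) (Ψ y)).ap hN
    have a4 : AP fun b => Fo N (Ψ y) (-b) := a3.comp (-AddMonoidHom.id Zw)
    simp only [hF, hg, mul_comm (Fo N (Ψ y) _)]
    rw [XX, ex_split hN hd, h2 N _ c d hN h3N (hW.pb y), (tb c d).2.2.2.2.2.1 _ _ a4,
      (tb c d).2.2.2.2.1 _ a3]
    ring
  have ag : AP g := (Mn_zw hl.out.ne_zero pg).1
  rw [Fo, e, Mn_mul_left (a1.mul ag), Mn_mul a1 ag fun x => ⟨N * -(k * x), fun y => by
    simp only [← pF y _ (-(k * x)) 0, mul_zero, add_zero], fun y => by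
    rw [← pg y (-x)]; congr 2; linear_combination x * kz⟩, ← a2, XX, ← (xl a c d).2.2.2]
  have := (tb c d).2.2.2.2.2.1 _ (N / (Real.sqrt 3 : ℝ)) aF.swap.mn
  rw [show FF2 N Ψ a = _ from rfl, show tf N (FF2 N Ψ a) c d = _ from this]
  push_cast
  ring

end Pool.Agent.MP_e23604_nt.Z
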