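import Pool.Agent.MP_e23604_nt.Z.CD

/-!
Elementary properties of the transfer.
-/

set_option autoImplicit false

open Finset QuadraticAlgebra
open scoped Classical BigOperators

namespace Pool.Agent.MP_e23604_nt.Z

open W Un

theorem TFB_pf : TFB_st := by
  intro N c d hN ⟨M, hM⟩
  have n0 : (N : ℂ) ≠ 0 := Nat.cast_ne_zero.2 hN
  have hE : c ≠ 0 → AP fun b : Zw => ex (d * nw b / (c * N)) := fun hc =>
    AP_zw (M := (c * N : ℤ)) (Int.cast_ne_zero.2 (mul_ne_zero hc (Nat.cast_ne_zero.2 hN)))
      fun x y => by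
        exact_mod_cast ex_mod (n := c * N) (x := d * nw _) (y := d * nw x)
          (mul_sub d _ _ ▸ (nw_congr ⟨y, add_sub_cancel_left _ _⟩).mul_left d)
  refine ⟨fun x b z ⟨y, hy⟩ => ?_, fun Φ h hc => h.mul (hE hc), fun Φ k => ?_, fun Φ => ?_,
    fun Φ h => ?_, fun Φ k h => ?_, fun Φ Φ' h h' => ?_, fun F h => ?_⟩
  · have e : z = -(M * pw * y) := mul_left_cancel₀ (a := 3) (by decide) (by
      rw [hM] at hy
      push_cast at hy
      linear_combination -pw * hy + z * pw_sq)
    exact_mod_cast ex_mod (n := N) (x := x * nw (b + z)) (y := x * nw b)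
      ⟨x * (M * nw y - (b * star y).im), by simp [e, hM, nw_def, pw]; ring⟩
  all_goals unfold tf
  · rw [Int.gcd_add_mul_right_right]
    split_ifs with h1 h2
    · simp [h2, ex_zero]
    · have : (c : ℂ) ≠ 0 := Int.cast_ne_zero.2 h2
      simp only [mul_assoc (Φ _), ← ex_add]
      congr 5 with b
      push_cast
      field_simp
      ring_nf
    · rfl
  · simp only [Int.neg_gcd, Int.gcd_neg, neg_eq_zero, et_neg, Int.cast_neg, neg_mul, neg_div_neg_eq]
    split_ifs <;> ring
  · split_ifs with h1 h2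
    · simp only [neg_zero]
    · simp only [← Mn_neg (h.mul (hE h2)), nw_neg]
    · rfl
  · split_ifs with h1 h2
    · ring
    · simp only [mul_assoc k, Mn_mul_left (h.mul (hE h2))]
      ring
    · ring
  · split_ifs with h1 h2
    · ring
    · simp only [add_mul, Mn_add (h.mul (hE h2)) (h'.mul (hE h2)), mul_add]
    · ring
  · split_ifs with h1 h2
    · exact ⟨(h.left 0).map (_ * ·), (Mn_mul_left (h.left 0) _).symm⟩
    · have G := h.mul ((hE h2).comp (AddMonoidHom.snd Zw Zw))
      refine ⟨G.mn.map (_ * ·), .trans ?_ (Mn_mul_left G.mn _).symm⟩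
      simp only [← Mn_mul_right (h.left _)]
      exact congrArg _ (Mn_comm G).symm
    · exact ⟨AP.const 0, (Mn_const 0).symm⟩

end Pool.Agent.MP_e23604_nt.Z
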