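import Pool.Agent.MP_e23604_nt.Z.CD

/-!
The local formula for the transfer.
-/

set_option autoImplicit false

open Finset QuadraticAlgebra
open scoped Classical BigOperators

namespace Pool.Agent.MP_e23604_nt.Z

open W Un

theorem per_CTFL (x n : ℤ) (a y : Zw) : ex (x * nw (a + n * y) / n) = ex (x * nw a / n) := by
  have h := (nw_congr (n := n) (a := a + n * y) (b := a) ⟨y, by ring⟩).mul_left x
  rw [mul_sub] at h
  simpa using ex_mod h

theorem mn_CTFL (h1 : GAU_st) {N : ℕ} {Φ : Zw → ℂ} {c₁ c u v d : ℤ} (hN : N ≠ 0) (h3 : 3 ∣ N)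
    (hΦ : PN N Φ) (h0 : c₁ ≠ 0) (hc : c ≠ 0) (h : u * c + v * (c₁ * N) = 1) (hd : IsCoprime c d) :
    (Mn fun b => Φ b * ex (d * nw b / (c₁ * c * N))) =
      (Mn fun b => Φ b * ex (d * u * nw b / (c₁ * N))) * (et c / c) := by
  have hm : c₁ * N ≠ 0 := mul_ne_zero h0 (by exact_mod_cast hN)
  have p1 : ∀ x y : Zw, Φ (x + (c₁ * N : ℤ) * y) * ex (d * u * nw (x + (c₁ * N : ℤ) * y) /
      (c₁ * N)) = Φ x * ex (d * u * nw x / (c₁ * N)) := fun x y => by
    have e := per_CTFL (d * u) (c₁ * N) x y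
    simp only [Int.cast_mul d, Int.cast_mul (α := ℂ) c₁, Int.cast_natCast] at e
    rw [e, show x + (c₁ * N : ℤ) * y = x + N * (c₁ * y) by push_cast; ring, hΦ.per]
  have nz : ∀ n : ℤ, n ≠ 0 → (n : Zw) ≠ 0 := fun n hn e =>
    hn (by simpa using congrArg QuadraticAlgebra.re e)
  obtain ⟨r, hr⟩ := h3
  rw [← h1 c (v * d) (IsCoprime.mul_right ⟨u, v * c₁ * r, by rw [← h, hr]; push_cast; ring⟩
    (IsCoprime.mul_right ⟨u, c₁ * N, by linear_combination h⟩ hd)) hc,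
    ← Mn_mul (AP_zw (nz _ hm) p1) (AP_zw (nz _ hc) (per_CTFL _ _))]
  · congr 1
    ext b
    have e := ex_crt (d * nw b) hm hc h
    push_cast at e ⊢
    rw [mul_right_comm (c₁ : ℂ), e]
    ring_nf
  · intro x
    refine ⟨(c₁ * N : ℤ) * (v * x), fun z => p1 z _, fun z => ?_⟩
    have e := congrArg (Int.cast : ℤ → Zw) h
    rw [Int.cast_add, Int.cast_mul, Int.cast_mul v, Int.cast_one] at e
    rw [show (c₁ * N : ℤ) * (v * x) - x = c * -(u * x) by linear_combination x * e]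
    exact per_CTFL _ _ _ _

theorem TFL_pf (h1 : GAU_st) (h2 : TFB_st) : TFL_st := by
  intro N Φ c₁ c₂ u d k hN h3 hΦ hk hc ⟨v, hv⟩
  have h0 : c₁ ≠ 0 := fun e => by
    rw [e, zero_dvd_iff] at hk
    exact hN (by exact_mod_cast eq_zero_of_pow_eq_zero hk)
  have hb := Int.gcd_eq_gcd_ab (c₁ * c₂) d
  have g1 := Int.gcd_dvd_left (c₁ * c₂) d
  have g2 := Int.gcd_dvd_right (c₁ * c₂) d
  rw [tf, if_neg (mul_ne_zero h0 hc), ← Int.cast_natCast (R := ℂ) (Int.gcd _ _)]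
  generalize (Int.gcd (c₁ * c₂) d : ℤ) = g at *
  generalize Int.gcdA _ _ = a at hb
  generalize Int.gcdB _ _ = b at hb
  by_cases hd : IsCoprime d c₁
  · obtain ⟨c, rfl⟩ := (hd.of_isCoprime_of_dvd_left g2).dvd_of_dvd_mul_left g1
    obtain ⟨d, rfl⟩ := g2
    have hg : g ≠ 0 := left_ne_zero_of_mul hc
    have hc' : c ≠ 0 := right_ne_zero_of_mul hc
    rw [if_pos hd, if_pos ⟨u * c, -(c₁ * v), by linear_combination hv⟩]
    have e := mn_CTFL h1 (u := u * g) (v := -v) (d := d) hN h3 hΦ h0 hc' (by linear_combination hv)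
      ⟨c₁ * a, b, mul_left_cancel₀ hg (by linear_combination -hb)⟩
    have z1 : (g : ℂ) ≠ 0 := by exact_mod_cast hg
    have z2 : (c : ℂ) ≠ 0 := by exact_mod_cast hc'
    have e1 : ∀ x : ℂ, ((g * d : ℤ) : ℂ) * x / ((c₁ * (g * c) : ℤ) * N) = d * x / (c₁ * c * N) :=
      fun x => by
        push_cast
        rw [mul_assoc, mul_left_comm (c₁ : ℂ), mul_assoc, mul_div_mul_left _ _ z1]
    have e2 : ((g * d : ℤ) : ℂ) * u = d * (u * g : ℤ) := by push_cast; ring
    simp only [e1, e2]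
    rw [e, et_mul]
    push_cast
    field_simp
  · rw [if_neg hd, if_neg fun h => hd ?_]
    obtain ⟨x, y, e⟩ := (h.pow_right (n := k)).of_isCoprime_of_dvd_right hk
    exact ⟨x * b, x * a * c₂ + y, by linear_combination e - x * hb⟩

end Pool.Agent.MP_e23604_nt.Z
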