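import Pool.Agent.MP_e23604_nt.Z.CD

/-!
The transfer is periodic.
-/

set_option autoImplicit false

open Finset QuadraticAlgebra
open scoped Classical BigOperators

namespace Pool.Agent.MP_e23604_nt.Z

open W Un

theorem ex_CTFP {N : ℕ} (hN : N ≠ 0) {c d : ℤ} (h : IsCoprime (Int.gcd c d : ℤ) N) :
    ∃ k, IsCoprime (d + k * c) N := by
  refine ⟨∏ p ∈ N.primeFactors.filter fun p : ℕ => ¬ (p : ℤ) ∣ d, (p : ℤ), isCoprime_of_prime_dvd
    (fun e => hN (by exact_mod_cast e.2)) fun z hz h1 h2 => ?_⟩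
  have hp := Int.prime_iff_natAbs_prime.1 hz
  by_cases e : z ∣ d
  · rcases hz.dvd_or_dvd ((dvd_add_right e).1 h1) with h3 | h3
    · obtain ⟨q, hq, h4⟩ := (hz.dvd_finsetProd_iff _).1 h3
      obtain ⟨h5, h6⟩ := mem_filter.1 hq
      rw [← (Nat.prime_dvd_prime_iff_eq hp (Nat.prime_of_mem_primeFactors h5)).1
        (Int.dvd_natCast.1 h4)] at h6
      exact h6 (Int.natAbs_dvd.2 e)
    · exact hz.not_isUnit (h.isUnit_of_dvd' (Int.dvd_coe_gcd h3 e) h2)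
  · exact e ((dvd_add_left (Dvd.dvd.mul_right (Int.natAbs_dvd.1 (dvd_prod_of_mem _ (mem_filter.2
      ⟨Nat.mem_primeFactors.2 ⟨hp, Int.dvd_natCast.1 h2, hN⟩, fun h => e (Int.natAbs_dvd.1 h)⟩)))
      c)).1 h1)

theorem TFP_pf (h1 : TFS_st) (h2 : TFL_st) (h3 : TFB_st) : TFP_st := by
  intro N Φ c d hN n3 hΦ
  have z3 : (3 : ℤ) ∣ N := by exact_mod_cast n3
  have k1 : ∀ Φ, PN N Φ → ∀ c d u : ℤ, (N : ℤ) ∣ u * c - 1 →
      tf N Φ c d = et c * Mn fun b => Φ b * ex ((d * u * nw b : ℤ) / (N : ℤ)) := fun Φ h c d u e => by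
    simpa [isCoprime_one_right] using h2 N Φ 1 c u d 0 hN n3 h (by simp)
      (fun e0 => by have := z3.trans e; rw [e0] at this; omega) (by rwa [one_mul])
  have k2 : ∀ Φ, PN N Φ → ∀ c d c' d' : ℤ, IsCoprime c N → (N : ℤ) ∣ c' - c → (N : ℤ) ∣ d' - d →
      tf N Φ c' d' = tf N Φ c d := by
    rintro Φ h c d c' d' ⟨u, v, e⟩ ⟨x, hx⟩ ⟨y, hy⟩
    rw [k1 Φ h c d u ⟨-v, by linear_combination e⟩,
      k1 Φ h c' d' u ⟨u * x - v, by linear_combination e + u * hx⟩,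
      et_congr (z3.trans ⟨x, hx⟩)]
    congr 2
    funext b
    exact congrArg _ (ex_mod ⟨y * u * nw b, by linear_combination u * nw b * hy⟩)
  have k3 : ∀ c d c' d' : ℤ, IsCoprime (Int.gcd c d : ℤ) N → (N : ℤ) ∣ c' - c → (N : ℤ) ∣ d' - d →
      tf N Φ c' d' = tf N Φ c d := by
    rintro c d c' d' h ⟨x, hx⟩ ⟨y, hy⟩
    obtain ⟨k, hk⟩ := ex_CTFP hN h
    have e : ∀ c d, tf N Φ c d = Complex.I *
        tf N (Fo N fun b => Φ b * ex ((-k : ℤ) * nw b / N)) (d + k * c) (-c) := fun c d => by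
      rw [← h1 N _ _ _ hN n3 fun x z e => by
        rw [hΦ x z e]; exact congrArg _ ((h3 N c d hN n3).1 (-k) x z e), neg_neg,
        ← (h3 N c _ hN n3).2.2.1, neg_mul, add_neg_cancel_right]
    rw [e c d, e c' d', k2 _ (PN_Fo _) _ (-c) _ (-c') hk
      ⟨y + k * x, by linear_combination hy + k * hx⟩ ⟨-x, by linear_combination -hx⟩]
  have k4 : ∀ c' d' : ℤ, (N : ℤ) ∣ c' - c → (N : ℤ) ∣ d' - d → tf N Φ c' d' = tf N Φ c d := by
    intro c' d' a1 a2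
    by_cases b1 : IsCoprime (Int.gcd c d : ℤ) N
    · exact k3 c d c' d' b1 a1 a2
    by_cases b2 : IsCoprime (Int.gcd c' d' : ℤ) N
    · exact (k3 c' d' c d b2 (dvd_sub_comm.1 a1) (dvd_sub_comm.1 a2)).symm
    rw [tf, tf, if_neg b1, if_neg b2]
  exact ⟨k4 _ _ (by simp) (by simp), k4 _ _ (by simp) (by simp)⟩

end Pool.Agent.MP_e23604_nt.Z
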