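import Pool.Agent.MP_e23604_nt.Z.CD

/-!
The reciprocity law of the transfer.
-/

set_option autoImplicit false

open Finset QuadraticAlgebra
open scoped Classical BigOperators

namespace Pool.Agent.MP_e23604_nt.Z

open W Un

open Filter in
theorem lim_CTFS (h2 : LIM_st) {N N' : ℕ} (hN : N ≠ 0) (hN' : N' ≠ 0) {g g' : Zw → ℂ} (hg : AP g)
    (hg' : AP g') (r : ℝ) (k : ℂ) (h : ∀ z : ℂ, 0 < z.im → th0 N g (z - r) = k * th0 N' g' z) :
    g 0 = k * g' 0 := by
  have := (atTop_neBot (α := ℝ)).comap_of_surj Complex.im_surjective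
  have e : Tendsto (fun z : ℂ => z - r) (comap Complex.im atTop) (comap Complex.im atTop) :=
    tendsto_comap_iff.2 (by simpa [Function.comp_def] using tendsto_comap)
  exact tendsto_nhds_unique_of_eventuallyEq ((h2 N g hN hg).comp e) ((h2 N' g' hN' hg').const_mul k)
    ((tendsto_comap.eventually (eventually_gt_atTop 0)).mono h)

theorem inv_CTFS {τ : ℂ} (h : 0 < τ.im) : τ ≠ 0 ∧ 0 < (-1 / τ).im := by
  have h0 : τ ≠ 0 := fun e => by simp [e] at h
  refine ⟨h0, ?_⟩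
  rw [neg_div, one_div, Complex.neg_im, Complex.inv_im, neg_div, neg_neg]
  exact div_pos h (Complex.normSq_pos.2 h0)

theorem Fo_CTFS (N : ℕ) (g : Zw → ℂ) : Fo N g 0 = N / (Real.sqrt 3 : ℝ) * Mn g := by
  simp [Fo, trw, ex_zero]

theorem cusp_CTFS (h1 : THS_st) (h3 : TFB_st) {N : ℕ} {F : Zw → ℂ} {c : ℤ} (d : ℤ) (hN : N ≠ 0)
    (h : 3 ∣ N) (hF : PN N F) (hc : c ≠ 0) : ∃ (M : ℕ) (G : Zw → ℂ), M ≠ 0 ∧ AP G ∧
      G 0 = c ^ 2 * N / (Real.sqrt 3 : ℝ) * Mn (fun b => F b * ex (d * nw b / (c * N))) ∧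
      ∀ z : ℂ, 0 < z.im → th0 N F (d / c - 1 / (c ^ 2 * z)) = z / Complex.I * th0 M G z := by
  have a1 : c.natAbs ^ 2 * N ≠ 0 := by positivity
  have a2 : ((c.natAbs ^ 2 * N : ℕ) : ℂ) = c ^ 2 * N := by
    rw [Nat.cast_mul, ← Int.cast_natCast (_ ^ 2), Nat.cast_pow, Int.natAbs_sq, Int.cast_pow]
  have a3 : (c : ℂ) ≠ 0 := by exact_mod_cast hc
  have a4 : (N : ℂ) ≠ 0 := by exact_mod_cast hN
  have a5 : PN (c.natAbs ^ 2 * N) fun b => F b * ex (d * nw b / (c * N)) := fun x z e => by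
    have := (h3 _ 0 0 a1 (h.mul_left _)).1 (d * c) x z e
    simp only [a2, Int.cast_mul, show ∀ t : ℂ, d * c * t / (c ^ 2 * N) = d * t / (c * N) from
      fun t => by field_simp] at this
    simp only [this, hF x z ((Nat.cast_dvd_cast (dvd_mul_left _ _)).trans e)]
  refine ⟨_, _, a1, (PN_Fo _).ap a1, by rw [Fo_CTFS, a2], fun z hz => ?_⟩
  rw [← h1 _ _ z a1 (h.mul_left _) a5 hz]
  refine tsum_congr fun a => ?_
  rw [mul_assoc, ← ex_add, a2]
  congr 2
  field_simp
  ring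

theorem TFS_pf (h1 : THS_st) (h2 : LIM_st) (h3 : TFB_st) : TFS_st := by
  intro N Φ c d hN h hΦ
  have a4 : (N : ℂ) ≠ 0 := by exact_mod_cast hN
  have a5 : ((Real.sqrt 3 : ℝ) : ℂ) ≠ 0 := by exact_mod_cast (Real.sqrt_pos.2 three_pos).ne'
  have a6 : ∀ x : ℤ, x ≠ 0 → (et (x.natAbs : ℕ) : ℂ) * (x / (x.natAbs : ℕ)) = et x := fun x hx => by
    have : (x : ℂ) ≠ 0 := by exact_mod_cast hx
    rw [← Int.cast_natCast x.natAbs (R := ℂ), Int.natCast_natAbs]
    rcases abs_choice x with e | e <;> simp [e, et_neg, this]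
  rw [tf, tf, Int.neg_gcd, Int.gcd_comm d]
  split_ifs with h4 hd hc hc
  · simp [hc, neg_eq_zero.1 hd, et]
  · have := lim_CTFS h2 hN hN (hΦ.ap hN) ((PN_Fo (Fo N Φ)).ap hN) 0 1 fun z hz => by
      obtain ⟨b1, b2⟩ := inv_CTFS hz
      have := h1 N Φ _ hN h hΦ b2
      rw [show -1 / (-1 / z) = z by field_simp, h1 N _ z hN h (PN_Fo _) hz] at this
      rw [Complex.ofReal_zero, sub_zero, this]
      field_simp
      simp
    simp only [neg_eq_zero.1 hd, Int.gcd_zero_right, a6 c hc, this, Fo_CTFS, Int.cast_zero, zero_mul,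
      zero_div, ex_zero, mul_one]
    field_simp
  · simp only [hc, Int.gcd_zero_left, Fo_CTFS, Int.cast_zero, zero_mul, zero_div, ex_zero, mul_one,
      Int.cast_neg, neg_div, mul_neg, a6 d (neg_ne_zero.1 hd)]
    field_simp
    simp
  · have b1 : (c : ℂ) ≠ 0 := by exact_mod_cast hc
    have b2 : (d : ℂ) ≠ 0 := by exact_mod_cast neg_ne_zero.1 hd
    obtain ⟨M, G, m0, g1, g2, g3⟩ := cusp_CTFS h1 h3 c hN h hΦ hd
    obtain ⟨M', G', m0', g1', g2', g3'⟩ := cusp_CTFS h1 h3 d hN h (PN_Fo Φ) hc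
    have := lim_CTFS h2 m0 m0' g1 g1' (1 / (c * d)) (d / (c * Complex.I)) fun z hz => by
      have c1 : 0 < (z - (1 / (c * d) : ℝ)).im := by simpa only [Complex.sub_im, Complex.ofReal_im,
        sub_zero] using hz
      have c2 : 0 < (c ^ 2 * z).im := by
        rw [← Complex.ofReal_intCast, ← Complex.ofReal_pow, Complex.im_ofReal_mul]
        positivity
      have c3 : 0 < (d / c - 1 / (c ^ 2 * z) : ℂ).im := by
        rw [sub_eq_add_neg, ← neg_div, Complex.add_im, ← Complex.ofReal_intCast d,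
          ← Complex.ofReal_intCast c, ← Complex.ofReal_div, Complex.ofReal_im, zero_add]
        exact (inv_CTFS c2).2
      have c4 := g3 _ c1
      have c5 := (inv_CTFS c1).1
      have c6 := (inv_CTFS hz).1
      have c7 : (d / c - 1 / (c ^ 2 * z) : ℂ) = d * (z - (1 / (c * d) : ℝ)) / (c * z) := by
        push_cast
        field_simp
      have c8 : z = z - (1 / (c * d) : ℝ) + 1 / (c * d) := by simp
      have e := h1 N Φ _ hN h hΦ c3
      rw [g3' z hz, c7] at e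
      generalize z - (1 / (c * d) : ℝ) = y at *
      rw [show -1 / (d * y / (c * z)) = c / (-d : ℤ) - 1 / ((-d : ℤ) ^ 2 * y) by
        rw [c8]; push_cast; field_simp; ring, c4] at e
      refine mul_left_cancel₀ (div_ne_zero c5 Complex.I_ne_zero) (e.trans ?_)
      field_simp
    rw [g2, g2'] at this
    generalize Mn (A := Zw) _ = x at this ⊢
    generalize Mn (A := Zw) _ = y at this ⊢
    push_cast at this ⊢
    field_simp at this
    linear_combination (et (c.gcd d) : ℂ) / (c.gcd d : ℕ) * (Complex.I * this - d * x * Complex.I_sq)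
  · rw [mul_zero]

end Pool.Agent.MP_e23604_nt.Z
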