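import Pool.Agent.MP_e23604_nt.Z.CE

/-!
The two characters of weight one.
-/

set_option autoImplicit false

open Finset QuadraticAlgebra
open scoped Classical BigOperators

namespace Pool.Agent.MP_e23604_nt.Z

open B R S W Un

theorem WQ_pf (h : CXL_st) : WQ_st := by
  intro χ κ r e hc hl
  obtain ⟨c1, -, c3, -, -, c6, -⟩ := h r κ e hc
  have r0 : (9 * r : Zw) ≠ 0 := by exact_mod_cast mul_ne_zero (by norm_num) hc.sf.ne_zero
  have un : ∀ u, ¬ pw ∣ u → ep u * star (ep u) = 1 := fun u hu => by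
    rw [mul_star_nn, nn_unit.1 (ep_spec hu).1, Nat.cast_one]
  have np : ∀ u : Zw, IsCoprime u (3 * r : Zw) → ¬ pw ∣ u := fun u hu e =>
    pw_prime.not_isUnit (hu.isUnit_of_dvd' e (pw_dvd3.mul_right _))
  have pe : ∀ u z, ep (u + 9 * r * z) = ep u := fun u z => by
    have d : (3 : Zw) ∣ 9 * r * z := ⟨3 * r * z, by ring⟩
    by_cases hu : pw ∣ u
    · rw [ep_zero hu, ep_zero (dvd_add hu (pw_dvd3.trans d))]
    · refine ep_eq (ep_spec hu).1 ?_
      rw [Pry, mul_add, add_sub_right_comm]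
      exact dvd_add (ep_spec hu).2 (d.mul_left _)
  have su : ∀ u : Zw, cx r κ u ≠ 0 → IsCoprime u (3 * r : Zw) := fun u hu =>
    by_contra fun e => hu (if_neg e)
  have es : ∀ u, IsUnit u → star (ep u) = u := fun u hu => by
    have a : ¬ pw ∣ u := fun e => pw_prime.not_isUnit (isUnit_of_dvd_unit e hu)
    exact mul_left_cancel₀ (ep_spec a).1.ne_zero
      ((un u a).trans ((ep_spec a).2.unit ((ep_spec a).1.mul hu)).symm)
  have ga : ∀ g ∈ GK, ep (ps (9 * r) g) = 1 ∧ cx r κ (ps (9 * r) g) = ω ^ (-χ g).val :=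
    fun g hg => by
      obtain ⟨-, a, b, -⟩ := (W.PS_ok _ r0).1 g hg
      exact ⟨ep_eq isUnit_one (by rw [one_mul]; exact b ⟨3 * r, by ring⟩), by
        rw [cx, if_pos (a.of_isCoprime_of_dvd_right ⟨3, by ring⟩), hl g hg]⟩
  have w3 : ∀ x : ZMod 3, (ω : Zw) ^ (-x).val * ω ^ x.val = 1 ∧
      star ((ω : Zw) ^ x.val) * ω ^ x.val = 1 := by decide
  have un' : ∀ u : Zw, IsCoprime u (3 * r) →
      cx r κ u * star (cx r κ u) * (ep u * star (ep u)) = 1 := fun u hu => by
    rw [un u (np u hu), cx, if_pos hu, mul_one, mul_comm, (w3 _).2]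
  exact ⟨⟨fun u v => by simp only [Pw, c1, ep_mul, star_mul]; ring,
      fun u z => by rw [Pw, c3, pe, Pw], fun u hu => su u (left_ne_zero_of_mul hu),
      fun u hu => by
        rw [Pw, star_mul, star_star]
        linear_combination un' u hu,
      fun u hu => by rw [Pw, c6 u hu, es u hu, one_mul],
      fun g hg => by rw [Pw, (ga g hg).1, (ga g hg).2, star_one, mul_one, (w3 _).1]⟩,
    ⟨fun u v => by simp only [Qw, c1, ep_mul, star_mul]; ring,
      fun u z => by rw [Qw, c3, pe, Qw],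
      fun u hu => su u (left_ne_zero_of_mul (star_ne_zero.1 hu)),
      fun u hu => by
        rw [Qw, star_star, star_mul]
        linear_combination un' u hu,
      fun u hu => by rw [Qw, c6 u hu, one_mul, es u hu],
      fun g hg => by rw [Qw, (ga g hg).1, (ga g hg).2, mul_one, (w3 _).2]⟩⟩

end Pool.Agent.MP_e23604_nt.Z
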