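import Pool.Agent.MP_e23604_nt.Z.CD

set_option autoImplicit false

open Finset QuadraticAlgebra
open scoped Classical BigOperators

namespace Pool.Agent.MP_e23604_nt.Z

open W Un

theorem sur_CXLL {l : ℕ} [hl : Fact l.Prime] (ρ : Zw →+* ZMod l) (h : l ≠ 3) (v : ZMod l × ZMod l) :
    ∃ y, ρ y = v.1 ∧ ρ (star y) = v.2 := by
  have h1 : ρ (star ω) = -1 - ρ ω := by
    rw [show star (ω : Zw) = -1 - ω by decide, map_sub, map_neg, map_one]
  have h2 := rho_nw ρ ω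
  rw [h1, show nw ω = 1 by decide, Int.cast_one] at h2
  have h3 : 2 * ρ ω + 1 ≠ 0 := fun e => h ((Nat.prime_dvd_prime_iff_eq hl.out Nat.prime_three).1
    ((ZMod.natCast_eq_zero_iff 3 l).1 (by
      push_cast
      linear_combination -4 * h2 - (2 * ρ ω + 1) * e)))
  obtain ⟨q, hq⟩ := ZMod.intCast_surjective ((v.1 - v.2) / (2 * ρ ω + 1))
  obtain ⟨p, hp⟩ := ZMod.intCast_surjective (v.1 - (q : ZMod l) * ρ ω)
  rw [eq_div_iff h3] at hq
  refine ⟨(p : Zw) + (q : Zw) * ω, ?_, ?_⟩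
  · simp [hp]
  · simp only [star_add, star_mul', star_intCast, map_add, map_mul, map_intCast, h1, hp]
    linear_combination -hq

theorem XLL_pf : XLL_st := by
  intro N l _ ρ w a c d h3 hN hw
  refine ⟨fun k => ?_, ?_, fun z k k' => by simp [XL], ?_⟩
  · rw [XL, XL, mul_sum]
    refine sum_congr rfl fun ξ _ => ?_
    split_ifs with e
    · rw [mul_left_comm, ← eZ_add]
      push_cast
      rw [← rho_nw ρ a, e]
      ring_nf
    · rw [mul_zero]
  · exact Fintype.sum_equiv (Equiv.neg _) _ _ fun ξ => by simp [hw]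
  have ht : ∀ y, (trw (a * star y) : ZMod l) = ρ a * ρ (star y) + ρ (star a) * ρ y := fun y => by
    rw [← map_intCast ρ, trw_cast, star_mul', star_star, map_add, map_mul, map_mul]
  have h1 := (Mn_fin (ρ.toAddMonoidHom.prod (ρ.toAddMonoidHom.comp starAddEquiv.toAddMonoidHom))
    (fun v => (sur_CXLL ρ h3 v).imp fun _ h => Prod.ext h.1 h.2) fun v =>
      (∑ ξ : ZMod l, if v.2 = ξ * (-d : ℤ) then w ξ * eZ ((c : ZMod l) * ξ * v.1 * (N : ZMod l)⁻¹)
        else 0) * eZ ((ρ a * v.2 + ρ (star a) * v.1) * (N : ZMod l)⁻¹)).2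
  have h0 : (l : ℂ) ≠ 0 := Nat.cast_ne_zero.2 (NeZero.ne l)
  simp only [ht]
  refine (congrArg _ h1).trans ?_
  rw [Fintype.expect_eq_sum_div_card, Fintype.card_prod, ZMod.card, Fintype.sum_prod_type,
    Nat.cast_mul, mul_div_assoc', mul_div_mul_left _ _ h0, div_eq_iff h0, XL, sum_mul]
  simp only [sum_mul, ite_mul, zero_mul]
  rw [sum_congr rfl fun _ _ => sum_comm, sum_comm]
  simp only [sum_ite_eq', mem_univ, if_true]
  refine Fintype.sum_equiv (Equiv.neg _) _ _ fun ξ => ?_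
  have h2 : ∀ y : ZMod l, w ξ * eZ ((c : ZMod l) * ξ * y * (N : ZMod l)⁻¹) *
      eZ ((ρ a * (ξ * ((-d : ℤ) : ZMod l)) + ρ (star a) * y) * (N : ZMod l)⁻¹) =
      w ξ * eZ ((d : ZMod l) * -ξ * ρ a * (N : ZMod l)⁻¹) *
        eZ (y * ((ρ (star a) - -ξ * (c : ZMod l)) * (N : ZMod l)⁻¹)) := fun y => by
    rw [mul_assoc, mul_assoc (w ξ), ← eZ_add, ← eZ_add]
    push_cast
    ring_nf
  simp only [h2, ← mul_sum, eZ_sum, mul_eq_zero, inv_eq_zero, hN, or_false, sub_eq_zero,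
    Equiv.neg_apply, hw, mul_ite, mul_zero]

end Pool.Agent.MP_e23604_nt.Z
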