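import Pool.Agent.MP_e23604_nt.Z.BAll
import Pool.Agent.MP_e23604_nt.Z.CGAU
import Pool.Agent.MP_e23604_nt.Z.CTFB
import Pool.Agent.MP_e23604_nt.Z.CTFS
import Pool.Agent.MP_e23604_nt.Z.CTFL
import Pool.Agent.MP_e23604_nt.Z.CTFP
import Pool.Agent.MP_e23604_nt.Z.CXLL
import Pool.Agent.MP_e23604_nt.Z.CSYS
import Pool.Agent.MP_e23604_nt.Z.CMTL
import Pool.Agent.MP_e23604_nt.Z.CCXL
import Pool.Agent.MP_e23604_nt.Z.CPSA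
import Pool.Agent.MP_e23604_nt.Z.CPSE
import Pool.Agent.MP_e23604_nt.Z.CPSG
import Pool.Agent.MP_e23604_nt.Z.CPSF
import Pool.Agent.MP_e23604_nt.Z.CPSZ
import Pool.Agent.MP_e23604_nt.Z.CRAM
import Pool.Agent.MP_e23604_nt.Z.CH90
import Pool.Agent.MP_e23604_nt.Z.CFCT
import Pool.Agent.MP_e23604_nt.Z.CDEN
import Pool.Agent.MP_e23604_nt.Z.CCOA
import Pool.Agent.MP_e23604_nt.Z.CCOE
import Pool.Agent.MP_e23604_nt.Z.CRPL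
import Pool.Agent.MP_e23604_nt.Z.CDLG
import Pool.Agent.MP_e23604_nt.Z.CSMA
import Pool.Agent.MP_e23604_nt.Z.CSMB
import Pool.Agent.MP_e23604_nt.Z.CSMC
import Pool.Agent.MP_e23604_nt.Z.CSUM
import Pool.Agent.MP_e23604_nt.Z.CWQ
import Pool.Agent.MP_e23604_nt.Z.CKDS
import Pool.Agent.MP_e23604_nt.Z.CSMT
import Pool.Agent.MP_e23604_nt.Z.CEUL
import Pool.Agent.MP_e23604_nt.Z.CBIL
import Pool.Agent.MP_e23604_nt.Z.CAFC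
import Pool.Agent.MP_e23604_nt.Z.CAMN
import Pool.Agent.MP_e23604_nt.Z.CPSI
import Pool.Agent.MP_e23604_nt.Z.CARI
import Pool.Agent.MP_e23604_nt.Z.CANA

/-!
The analytic part, collected.
-/

set_option autoImplicit false

namespace Pool.Agent.MP_e23604_nt.Z

theorem TFS_ok : TFS_st := TFS_pf THS_ok LIM_ok TFB_pf

theorem TFL_ok : TFL_st := TFL_pf GAU_pf TFB_pf

theorem PSA_ok : PSA_st := PSA_pf MTL_pf CXL_pf

theorem PSE_ok : PSE_st := PSE_pf MTL_pf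

theorem IND_ok : IND_st := IND_pf H90_pf

theorem PSI_ok : PSI_st := PSI_pf PSA_ok PSE_ok IND_ok CXL_pf

theorem REP_ok : REP_st := REP_pf RPL_pf

theorem SUM_ok : SUM_st :=
  SUM_pf (SMC_pf SMA_pf (SMB_pf FCT_pf RPL_pf REP_ok NSL_pf) DLG_pf NSL_pf)

theorem WQ_ok : WQ_st := WQ_pf CXL_pf

theorem KDS_ok : KDS_st := KDS_pf KDE_ok MM_ok

theorem AMN_ok : AMN_st :=
  AMN_pf MAIN_ok MM_ok (SYS_pf TFB_pf TFS_ok (TFP_pf TFS_ok TFL_ok TFB_pf) XLL_pf) TFB_pf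
    (COE_pf (COA_pf TFL_ok) RAM_pf (DEN_pf FCT_pf NSL_pf) NSL_pf) PSE_ok
    (PSF_pf PSA_ok (PSG_pf MTL_pf) MTL_pf PSE_ok) (PSZ_pf MTL_pf CXL_pf PSA_ok) CXL_pf
    (AFC_pf CXL_pf WQ_ok) PSI_ok WQ_ok

theorem ANA_ok : ANA_st :=
  ANA_pf WQ_ok (SM0_pf KDS_ok MM_ok) (SMT_pf KDS_ok MM_ok) (EUL_pf MM_ok) BIL_pf AMN_ok WV_pf
    (ARI_pf SUM_ok PSI_ok)

end Pool.Agent.MP_e23604_nt.Z
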