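import Pool.Agent.MP_e23604_nt.Z.C0
import Pool.Agent.MP_e23604_nt.Z.B0
import Pool.Agent.MP_e23604_nt.Y.Ok

/-!
The analytic identity and its algebraic form: definitions and statements.
-/

set_option autoImplicit false

open Finset QuadraticAlgebra
open scoped Classical BigOperators

namespace Pool.Agent.MP_e23604_nt.Z

open B R S W Un

/-- the first character of weight one -/
noncomputable def Pw (r : ℕ) (κ : Zw → ZMod 3) (g : Zw) : Zw := cx r κ g * star (ep g)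

/-- the second character of weight one -/
noncomputable def Qw (r : ℕ) (κ : Zw → ZMod 3) (g : Zw) : Zw := star (cx r κ g * ep g)

/-- characters of weight one that belong to `χ` -/
structure Wq (r : ℕ) (χ : GQ → ZMod 3) (p : Zw → Zw) : Prop where
  mul : ∀ u v, p (u * v) = p u * p v
  per : ∀ u z, p (u + 9 * r * z) = p u
  sup : ∀ u, p u ≠ 0 → IsCoprime u (3 * r)
  uni : ∀ u : Zw, IsCoprime u (3 * r) → p u * star (p u) = 1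
  eps : ∀ u, IsUnit u → p u = u
  gal : ∀ g ∈ GK, p (ps (9 * r) g) * ω ^ (χ g).val = 1

/-- the restriction to a residue class -/
noncomputable def rr {l : ℕ} (p : Zw → Zw) (σ : Zw →+* ZMod l) (x : ZMod l) (g : Zw) : ℂ :=
  if σ g = x then iz (p g) else 0

/-- the regularised sum over a residue class -/
noncomputable def Mr {l : ℕ} (p : Zw → Zw) (σ : Zw →+* ZMod l) (x : ZMod l) : ℂ := Mq (rr p σ x)

/-- the conjugate residue map -/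
def cr {l : ℕ} (ρ : Zw →+* ZMod l) : Zw →+* ZMod l := ρ.comp (starRingEnd Zw)

theorem cr_apply {l : ℕ} (ρ : Zw →+* ZMod l) (g : Zw) : cr ρ g = ρ (star g) := rfl

/-- the finite Fourier transform -/
noncomputable def wh {l : ℕ} [Fact l.Prime] (w : ZMod l → ℂ) (x : ZMod l) : ℂ :=
  ∑ ξ : ZMod l, w ξ * eZ (ξ * x)

/-- the finite Fourier transform, algebraic form -/
noncomputable def wa {l : ℕ} [Fact l.Prime] (w : ZMod l → ℕ) (x : ZMod l) : Qb :=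
  ∑ ξ : ZMod l, w ξ * zt l ^ (ξ * x).val

theorem eC_wa {l : ℕ} [Fact l.Prime] (w : ZMod l → ℕ) (x : ZMod l) :
    eC (wa w x) = wh (fun ξ => w ξ) x := by
  simp only [wa, wh, map_sum, map_mul, map_natCast, map_pow, eC_zt (NeZero.ne l), eZ, ex,
    ← Complex.exp_nat_mul]
  exact sum_congr rfl fun ξ _ => by congr 2; ring

/-- the weight that belongs to a logarithm -/
noncomputable def wv {l n : ℕ} (L : Zw → ZMod n) (x : ZMod l) : ℕ :=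
  if x = 0 then 0 else (L x.val).val

/-- the characters -/
def WQ_st : Prop := ∀ (χ : GQ → ZMod 3) (κ : Zw → ZMod 3) (r : ℕ) (e : ZMod 3), Ch r κ e →
  Lk χ r κ → Wq r χ (Pw r κ) ∧ Wq r (fun g => -χ g) (Qw r κ)

/-- sums over the Galois group and regularised sums -/
def KDS_st : Prop := ∀ (M : Zw) (G : Pt), M ≠ 0 → 3 ∣ M → Gen M G → ∃ u, IsCoprime u M ∧
  ∀ (a : Zw) (χ : GQ → ZMod 3) (p p' : Zw → ℂ), IsCoprime a M → (∀ x z, p (x + M * z) = p x) →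
    (∀ x z, p' (x + M * z) = p' x) → (∀ x, p x ≠ 0 → IsCoprime x M) → (∀ x, p' (a * x) = p x) →
    ∑ ε ∈ el 1, ∑ y ∈ Xs (UM M) GK,
      p (ε * ω ^ (χ y).val * ps M y * u) * eC (de a (ε • eta χ y G)) =
      2 * iz M / Om * (nn a * Mq p - iz a * Mq p')

/-- the trace -/
def SM0_st : Prop := ∀ (r : ℕ) (χ : GQ → ZMod 3) (p : Zw → Zw) (G : Pt), r ≠ 0 → Wq r χ p →
  Gen (9 * r) G → ∃ u, IsUnit u ∧ ∀ b : Zw, IsCoprime b (3 * r) →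
    eC (6 * W.io u * tr χ b (9 * r) G) =
      2 * iz (9 * r) / Om * (nn b - iz (b * star (p b))) * Mq fun g => iz (p g)

/-- the sums over residue classes -/
def SMT_st : Prop := ∀ (r l : ℕ) [Fact l.Prime] (χ : GQ → ZMod 3) (p : Zw → Zw) (b lam : Zw)
  (σ : Zw →+* ZMod l) (G : Pt), r ≠ 0 → Wq r χ p → IsCoprime b (6 * r) → σ b ≠ 0 → nn lam = l →
  (∀ x, σ x = 0 ↔ lam ∣ x) → Gen (9 * r * lam) G →
  ∃ (m : ZMod l → Qb) (u ε : Zw), ¬ lam ∣ u ∧ IsUnit ε ∧ m 0 = 0 ∧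
    (∀ x, V3.v (m x) * V3.v 9 ≤ 1) ∧
    (∀ x ≠ 0, eC (m x) = 2 * iz (9 * r * lam) / Om *
      (nn b * Mr p σ x - iz (b * star (p b)) * Mr p σ (σ b * x))) ∧
    ∀ w : ZMod l → ℕ, (∀ η x, IsUnit η → w (σ η * x) = w x) → ∑ x, w x * m x = 6 * W.io ε *
      ∑ y ∈ Xs (UM (9 * r * lam)) GK, w (σ (ps (9 * r * lam) y * u)) * de b (eta χ y G)

/-- the factor at the auxiliary prime -/
def EUL_st : Prop := ∀ (r l : ℕ) [Fact l.Prime] (χ : GQ → ZMod 3) (p : Zw → Zw) (lam : Zw)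
  (σ : Zw →+* ZMod l), r ≠ 0 → Wq r χ p → (9 * r : Zw) ∣ lam - 1 → (∀ x, σ x = 0 ↔ lam ∣ x) →
  ∑ x, Mr p σ x = Mq (fun g => iz (p g)) ∧ iz lam * Mr p σ 0 = Mq fun g => iz (p g)

/-- the bilinear form modulo `n` -/
def BIL_st : Prop := ∀ (l : ℕ) [Fact l.Prime] (V : Plc) (n : ℕ) (w : ZMod l → ℕ)
  (m m' : ZMod l → Qb) (u : ZMod l) (K : ℝ), u ≠ 0 → w 0 = 0 →
  (∀ x y, x ≠ 0 → y ≠ 0 → w (x * y) ≡ w x + w y [MOD n]) → m 0 = 0 → m' 0 = 0 → ∑ x, m x = 0 →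
  (∀ x, V.v (m x) ≤ K ∧ V.v (m' x) ≤ K) →
  V.v (∑ x, ∑ y, wa w (u * x * y) * (m x * m' y) - (∑ x, w x * m x) * ∑ y, m' y) ≤ V.v n * K ^ 2

/-- the values at the cusp -/
def AFC_st : Prop := ∀ (r : ℕ) (κ : Zw → ZMod 3) (e : ZMod 3) (Ψ : Zw → Zw → ℂ) (β : ℂ),
  Ch r κ e → (∀ a, ¬ mu r ∣ a → Ψ a 0 = 0) → (∀ α, Ψ (mu r * α) 0 = β * iz (cx r κ α)) →
  ∀ (l : ℕ) [Fact l.Prime] (lam : Zw) (ρ : Zw →+* ZMod l) (w : ZMod l → ℂ), nn lam = l →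
    (N0 r : Zw) ∣ lam - 1 → (∀ x, ρ x = 0 ↔ lam ∣ x) →
    (∀ a d, ¬ mu r * star lam ∣ a → XX (N0 r) ρ w Ψ a 0 d = 0) ∧
    Fac (fun a d => XX (N0 r) ρ w Ψ (mu r * star lam * a) 0 d) univ
      (fun (x : ZMod l × ZMod l) g => Complex.I * (Real.sqrt 3 : ℝ) / (N0 r : ℕ) * β *
        wh w (ρ (mu r * star lam) * (N0 r : ZMod l)⁻¹ * x.1 * x.2) * rr (Pw r κ) ρ x.1 g)
      fun x => rr (Qw r κ) (cr ρ) x.2

/-- the analytic identity -/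
def AMN_st : Prop := ∀ (r : ℕ) (κ : Zw → ZMod 3) (e : ZMod 3), Ch r κ e → ∃ C : ℂ,
  ∀ (l : ℕ) [Fact l.Prime] (lam : Zw) (ρ : Zw →+* ZMod l), nn lam = l → (N0 r : Zw) ∣ lam - 1 →
    (∀ x, ρ x = 0 ↔ lam ∣ x) → ∃ u : ZMod l, u ≠ 0 ∧ ∀ w : ZMod l → ℂ, (∀ x, w (-x) = w x) →
      (∀ p : ℕ, p.Prime → p ∣ N0 r → ∀ x, w (p * x) = w x) →
      ∑ x, ∑ y, wh w (u * x * y) * (Mr (Pw r κ) ρ x * Mr (Qw r κ) (cr ρ) y) =
        C * ∑ ξ, w ξ * iz (be (N0 r) ρ (Psi r κ e) ξ)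

/-- the weight of the geometric part does not depend on the unit -/
def PSI_st : Prop := ∀ (r : ℕ) (κ : Zw → ZMod 3) (e : ZMod 3), Ch r κ e →
  (∀ a, Ind (N0 r) (Psi r κ e a)) ∧ (∀ a, Ind (N0 r) fun b => iz (Psi r κ e a b)) ∧
  (∀ a, PN (N0 r) fun b => iz (Psi r κ e a b)) ∧
  (∀ a b, iz (Psi r κ e a b) ≠ 0 → ex ((nw a - nw b) / (N0 r : ℕ)) = ex (1 / 3)) ∧
  (∀ a b, 3 * pw ∣ a → Psi r κ e a b = 0) ∧
  ∀ (l : ℕ) (ρ : Zw →+* ZMod l) (ξ : ZMod l),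
    be (N0 r) ρ (fun a b => iz (Psi r κ e a b)) ξ = iz (be (N0 r) ρ (Psi r κ e) ξ)

/-- the weight of a logarithm -/
def WV_st : Prop := ∀ (r k l : ℕ) [Fact l.Prime] (a lam : Zw) (L : Zw → ZMod (3 ^ k))
  (ρ : Zw →+* ZMod l), Lg r k a lam L → nn lam = l → (∀ x, ρ x = 0 ↔ lam ∣ x) →
  (∀ g, ¬ lam ∣ g → wv L (ρ g) = (L g).val) ∧
  (∀ x y : ZMod l, x ≠ 0 → y ≠ 0 → wv L (x * y) ≡ wv L x + wv L y [MOD 3 ^ k]) ∧
  (∀ g, ¬ lam ∣ g → L g = 0 → ∀ x, wv L (ρ g * x) = wv L x)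

/-- the arithmetic side -/
def ARI_st : Prop := ∀ (r : ℕ) (κ : Zw → ZMod 3) (e : ZMod 3) (k l : ℕ) [Fact l.Prime] (a lam : Zw)
  (L : Zw → ZMod (3 ^ k)) (f : ℕ → Zw) (ρ : Zw →+* ZMod l), Ch r κ e → Lg r k a lam L → Fq r f →
  nn lam = l → (∀ x, ρ x = 0 ↔ lam ∣ x) →
  ∑ ξ ∈ univ.erase (0 : ZMod l), be (N0 r) ρ (Psi r κ e) ξ = 0 ∧
  (3 : Zw) ^ k ∣ ∑ ξ, wv L ξ * be (N0 r) ρ (Psi r κ e) ξ - AR r κ e lam L f

end Pool.Agent.MP_e23604_nt.Z
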