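import Pool.Agent.MP_e23604_nt.Z.CD

set_option autoImplicit false

open Finset QuadraticAlgebra
open scoped Classical BigOperators

namespace Pool.Agent.MP_e23604_nt.Z

open W Un

theorem PSA_pf (h1 : MTL_st) (h2 : CXL_st) : PSA_st := by
  intro r κ e φ hC hφ
  have hr := hC.sf.ne_zero
  obtain ⟨-, -, m3, -, -, -, -, -, m9⟩ := h1 r hr
  obtain ⟨mv, mp⟩ := m9 ℂ φ
  obtain ⟨c1, c2, c3, c4, -, -, c7, -⟩ := h2 r κ e hC
  let G : Zw → Zw → Zw → Zw → ℂ := fun a b t u =>
    iz (cx r κ u * star (cx r κ t)) * onM r φ (star u * a * t) (star u * b * star t)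
  have eG : ∀ a b, Ps r κ φ a b = ∑ t ∈ Rs (N0 r), ∑ u ∈ Rs (N0 r), G a b t u := fun a b =>
    sum_congr rfl fun t ht => sum_congr rfl fun u hu => by
      rw [c7 t u (cop_N0.1 (mem_Rs ht)) (cop_N0.1 (mem_Rs hu))]
  have on : ∀ a b a' b' : Zw, (N0 r : Zw) ∣ pw * (a' - a) → (N0 r : Zw) ∣ pw * (b' - b) →
      onM r φ a' b' = onM r φ a b := fun a b a' b' e1 e2 => by
    simpa using mp hφ a b _ _ e1 e2
  have cp : ∀ x y, cx r κ (x + N0 r * y) = cx r κ x := fun x y => by
    rw [← c3 x (9 * r * y), N0]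
    push_cast
    ring_nf
  have pt : ∀ a b u x y, G a b (x + N0 r * y) u = G a b x u := fun a b u x y => by
    simp only [G, cp]
    rw [on (star u * a * x) (star u * b * star x) _ _ ⟨pw * (star u * a * y), by ring⟩
      ⟨pw * (star u * b * star y), by rw [star_add, star_mul', star_natCast]; ring⟩]
  have pu : ∀ a b t x y, G a b t (x + N0 r * y) = G a b t x := fun a b t x y => by
    simp only [G, cp]
    rw [on (star x * a * t) (star x * b * star t) _ _
      ⟨pw * (star y * a * t), by rw [star_add, star_mul', star_natCast]; ring⟩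
      ⟨pw * (star y * b * star t), by rw [star_add, star_mul', star_natCast]; ring⟩]
  have k1 : ∀ a b t : Zw, IsCoprime t (3 * r) →
      Ps r κ φ (a * t) (b * star t) = iz (cx r κ t) * Ps r κ φ a b := fun a b t ht => by
    rw [eG, eG, ← sum_Rs_mul (N0_ne hr) (f := fun x => ∑ u ∈ Rs (N0 r), G a b x u)
      (fun x y => by simp only [pt]) (cop_N0.2 ht), mul_sum]
    refine sum_congr rfl fun x _ => ?_
    rw [mul_sum]
    refine sum_congr rfl fun u _ => ?_
    simp only [G]
    rw [← mul_assoc (iz _), ← map_mul, c1, star_mul', star_mul']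
    congr 2
    · linear_combination (-cx r κ u * star (cx r κ x)) * c4 t ht
    · ring
    · ring
  have k2 : ∀ a b t : Zw, IsCoprime t (3 * r) →
      Ps r κ φ (a * t) (b * t) = iz (cx r κ t) * Ps r κ φ a b := fun a b t ht => by
    rw [eG, eG, mul_sum]
    refine sum_congr rfl fun x _ => ?_
    rw [← sum_Rs_mul (N0_ne hr) (pu a b x) (u := star t)
      (cop_N0.2 (by simpa using cop_star ht)), mul_sum]
    refine sum_congr rfl fun u _ => ?_
    simp only [G]
    rw [← mul_assoc (iz _), ← map_mul, c1, c2, star_mul', star_star]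
    congr 2
    · linear_combination (-cx r κ u * star (cx r κ x)) * c4 t ht
    · ring
    · ring
  refine ⟨fun b x z hz => ?_, fun a x z hz => ?_, fun a b t ht => ⟨k1 a b t ht, k2 a b t ht, ?_⟩,
    fun hs a b h0 => ?_⟩
  · refine sum_congr rfl fun t _ => sum_congr rfl fun u _ => ?_
    rw [on (star u * x * t) (star u * b * star t) _ _
      ((hz.mul_right (star u * t)).trans (dvd_of_eq (by ring))) ⟨0, by ring⟩]
  · refine sum_congr rfl fun t _ => sum_congr rfl fun u _ => ?_
    rw [on (star u * a * t) (star u * x * star t) _ _ ⟨0, by ring⟩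
      ((hz.mul_right (star u * star t)).trans (dvd_of_eq (by ring)))]
  · have : iz (cx r κ t) ≠ 0 := left_ne_zero_of_mul_eq_one (by rw [← map_mul, c4 t ht, map_one])
    refine mul_left_cancel₀ this ?_
    rw [← k2 a _ t ht, ← k1 a _ t ht, mul_right_comm]
  · obtain ⟨t, ht, h3⟩ := exists_ne_zero_of_sum_ne_zero h0
    obtain ⟨u, hu, h4⟩ := exists_ne_zero_of_sum_ne_zero h3
    have h5 := right_ne_zero_of_mul h4
    obtain ⟨v, hv⟩ : ∃ v, Mx r (star u * a * t) (star u * b * star t) v := by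
      by_contra e
      exact h5 (dif_neg e)
    rw [mv _ _ _ hv] at h5
    have h6 := hs v h5
    have h7 := m3 _ _ _ hv
    have hc : IsCoprime (nw (u * t)) (3 * r : ℤ) := cop_iff.1 (by
      simpa using (cop_N0.1 (mem_Rs hu)).mul_left (cop_N0.1 (mem_Rs ht)))
    have h8 : nw (u * t) % 3 = 1 := by
      have := nn_mod3 (a := u * t) fun e => by
        have e' : (3 : ℤ) ∣ nw (u * t) := by rw [← nn_cast]; exact_mod_cast pw_dvd_iff.1 e
        exact absurd (hc.isUnit_of_dvd' e' (dvd_mul_right _ _)) (by decide)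
      rw [← nn_cast]
      omega
    have h9 : nw (u * t) * (nw a - nw b) = 27 * r ^ 2 * (v 0 * v 3 - 3 * v 1 * v 2) := by
      rw [← h7]
      simp only [nw_mul, nw_star]
      ring
    obtain ⟨k, hk⟩ : (27 * r ^ 2 : ℤ) ∣ nw a - nw b :=
      ((hc.pow_right (n := 3)).of_isCoprime_of_dvd_right ⟨r, by ring⟩).symm.dvd_of_dvd_mul_left
        ⟨_, h9⟩
    have hr' : (r : ℤ) ≠ 0 := by exact_mod_cast hr
    rw [hk, mul_left_comm, mul_right_inj' (by positivity), mul_assoc] at h9
    obtain ⟨m, hm⟩ : ∃ m, nw (u * t) = 3 * m + 1 := ⟨nw (u * t) / 3, by omega⟩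
    rw [hm, add_mul, mul_assoc, one_mul] at h9
    obtain ⟨j, rfl⟩ : ∃ j, k = 3 * j + 1 := ⟨k / 3, by omega⟩
    have hr'' : (r : ℂ) ≠ 0 := by exact_mod_cast hr
    refine ex_congr j ?_
    rw [← Int.cast_sub, hk, N0]
    push_cast
    field_simp
    ring

end Pool.Agent.MP_e23604_nt.Z
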