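import Pool.Agent.MP_e23604_nt.Z.CD

/-!
The number of Eisenstein integers of given norm.
-/

set_option autoImplicit false

open Finset QuadraticAlgebra
open scoped Classical BigOperators

namespace Pool.Agent.MP_e23604_nt.Z

open W Un

theorem conj_CRPL {ϖ : Zw} {p : ℕ} (hp : p.Prime) (h3 : p ≠ 3) (h : nn ϖ = p) :
    ¬ ϖ ∣ star ϖ := fun e => by
  have hq := Nat.prime_iff_prime_int.1 hp
  have h0 : nw ϖ = p := by rw [← nn_cast, h]
  have h1 := Int.natCast_dvd_natCast.2 (nn_dvd (dvd_sub (dvd_refl ϖ) e))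
  rw [h, nn_cast, show nw (ϖ - star ϖ) = (3 : ℕ) * ϖ.im ^ 2 by simp [nw_def]; ring] at h1
  have h2 := (hq.dvd_or_dvd h1).resolve_left fun d =>
    h3 ((Nat.prime_dvd_prime_iff_eq hp Nat.prime_three).1 (Int.natCast_dvd_natCast.1 d))
  have h4 := nn_dvd (dvd_of_im hq h0.symm.dvd (hq.dvd_of_dvd_pow h2))
  rw [Int.cast_natCast, nn_nat, h] at h4
  exact absurd (Nat.le_of_dvd hp.pos h4) (by nlinarith [hp.one_lt])

theorem img_CRPL {g : Zw} (hg : g ≠ 0) (m : ℕ) :
    ((el (nn g * m)).filter fun y => g ∣ y) = (el m).image (g * ·) := by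
  ext y
  simp only [mem_filter, mem_image, mem_el]
  refine ⟨fun ⟨h, z, e⟩ => ⟨z, ?_, e.symm⟩, fun ⟨z, h, e⟩ => ⟨by rw [← e, nn_mul, h], z, e.symm⟩⟩
  rw [e, nn_mul] at h
  exact Nat.eq_of_mul_eq_mul_left (nn_pos hg) h

theorem card_CRPL {g : Zw} (hg : g ≠ 0) (m : ℕ) :
    ((el (nn g * m)).filter fun y => g ∣ y).card = (el m).card := by
  rw [img_CRPL hg, card_image_of_injective _ (mul_right_injective₀ hg)]

theorem RPL_pf : RPL_st := by
  intro ϖ p v m hp h3 h hm
  have h1 : Prime ϖ := prime_of_nn (h ▸ hp)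
  have h2 : nn (star ϖ ^ v) = p ^ v := by rw [nn_pow, nn_star, h]
  rw [← card_CRPL (pow_ne_zero v (star_ne_zero.2 h1.ne_zero)) m, h2]
  congr 1
  refine filter_congr fun y hy => ⟨fun e => ?_, fun ⟨z, e⟩ d => ?_⟩
  · have h4 : ϖ ^ v ∣ y * star y := ⟨star ϖ ^ v * m, by
      rw [mul_star_nn, mem_el.1 hy, ← mul_assoc, ← mul_pow, mul_star_nn, h]; push_cast; rfl⟩
    obtain ⟨z, hz⟩ := (h1.coprime_iff_not_dvd.2 e).pow_left.dvd_of_dvd_mul_left h4
    exact ⟨star z, by simpa using congrArg star hz⟩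
  · have h4 := mem_el.1 hy
    rw [e, nn_mul, h2] at h4
    rw [e] at d
    refine (h1.dvd_or_dvd d).elim (fun d => conj_CRPL hp h3 h (h1.dvd_of_dvd_pow d)) fun d => hm ?_
    rw [← h, ← Nat.eq_of_mul_eq_mul_left (pow_pos hp.pos v) h4]
    exact nn_dvd d

theorem rh_CRPL {p a : ℕ} (hp : p.Prime) (h : ¬ p ∣ a) (n : ℕ) :
    rh (p ^ n * a) = (∑ i ∈ range (n + 1), et p ^ i) * rh a := by
  have hc : (p ^ n).Coprime a := ((Nat.Prime.coprime_iff_not_dvd hp).2 h).pow_left n
  have e : ∀ i : ℕ, et ((p ^ i : ℕ) : ℤ) = et p ^ i := fun i => by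
    induction i with
    | zero => simp [et_one]
    | succ i ih => rw [pow_succ, Nat.cast_mul, et_mul, ih, pow_succ]
  unfold rh
  rw [Nat.divisors_mul, Finset.mul_def, sum_image hc.mul_injOn_divisors, sum_product]
  simp only [Nat.cast_mul, et_mul, ← mul_sum, ← sum_mul, Nat.sum_divisors_prime_pow hp, e]

theorem REP_pf (h : RPL_st) : REP_st := by
  intro m
  induction m using Nat.recOnPrimePow with
  | zero => exact fun e => absurd (dvd_zero 3) e
  | one => exact fun _ => by unfold el bl rh; decide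
  | prime_pow_mul a p n hp ha hn ih =>
    intro h3
    have p3 : ¬ 3 ∣ p := fun e => h3 ((e.trans (dvd_pow_self p hn.ne')).mul_right a)
    rw [rh_CRPL hp ha, mul_left_comm, ← ih fun e => h3 (e.mul_left _)]
    clear hn h3
    obtain e | e : p % 3 = 1 ∨ p % 3 = 2 := by omega
    · have := Fact.mk hp
      obtain ⟨-, ϖ, -, -, h1, -⟩ := exists_gauss p e
      have h2 : nn ϖ = p := by rw [nn, h1, Int.natAbs_natCast]
      have h4 : et p = 1 := by unfold et; rw [if_pos (by omega)]
      induction n with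
      | zero => simp
      | succ n ih =>
        rw [sum_range_succ, add_mul, ← ih, h4, one_pow, one_mul,
          ← card_filter_add_card_filter_not (fun y => ϖ ∣ y),
          h ϖ p _ a hp (by omega) h2 ha, pow_succ', mul_assoc, ← h2,
          card_CRPL (prime_of_nn (h2 ▸ hp)).ne_zero, Nat.cast_add]
    · have h4 : et p = -1 := by unfold et; rw [if_neg (by omega), if_pos (by omega)]
      have h5 : ∀ k, el (p * k) = (el (p * k)).filter fun y => (p : Zw) ∣ y := fun k =>
        (filter_true_of_mem fun y hy => inert_dvd hp e ⟨k, mem_el.1 hy⟩).symm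
      rw [h4]
      induction n using Nat.twoStepInduction with
      | zero => simp
      | one =>
        rw [pow_one, h5, filter_false_of_mem fun y hy d => ha ?_]
        · simp [sum_range_succ]
        · have := nn_dvd d
          rwa [nn_nat, mem_el.1 hy, sq, Nat.mul_dvd_mul_iff_left hp.pos] at this
      | more n ih _ =>
        rw [show p ^ (n + 2) * a = p * (p * (p ^ n * a)) by ring, h5, ← mul_assoc, ← sq, ← nn_nat,
          card_CRPL (Nat.cast_ne_zero.2 hp.ne_zero), ih, sum_range_succ _ (n + 2),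
          sum_range_succ _ (n + 1)]
        ring

end Pool.Agent.MP_e23604_nt.Z
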