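import Pool.Agent.MP_e23604_nt.Z.GS

set_option autoImplicit false

open Finset QuadraticAlgebra Polynomial
open scoped Classical

namespace Pool.Agent.MP_e23604_nt.Z.G

open B R S W Un NC

theorem neg_GCGP {V : Plc} {a b : Qb} (h : Cg V a b) : Cg V (-a) (-b) := by
  simpa using (Cg.rfl' (V := V) (a := -1) (by simp)).mul h

theorem frm_GCGP (hVGR : VGR_st) (hVEL : VEL_st) {V : Plc} {d : Lv} (h : d.Gd V) :
    dc d.pt = -(d.ka * d.x1) / 3 ∧ V.v (dc d.pt) = 1 ∧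
    da d.pt = (d.ka * d.x1 * (d.ka * d.x2) + d.ka * d.x1 * (d.ka * d.x3) +
      d.ka * d.x2 * (d.ka * d.x3)) / dc d.pt ∧
    V.v (3 * (d.ka * d.x4) + da d.pt ^ 2) = 1 ∧
    xc d.pt = (da d.pt + -1) ^ 3 / (3 * (d.ka * d.x4) + da d.pt ^ 2) + -da d.pt ∧
    yc d.pt = w3 ^ 2 + (w3 + -w3 ^ 2) * da d.pt := by
  obtain ⟨h1, -, -, hk, h4, -, -, hx, ha, -⟩ := hVGR V d h
  obtain ⟨r, -⟩ := hVEL.2 d h.ok
  have e := (hVEL.1 _ r.ne).1
  have h3 := v_three h.fg.n3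
  have c : dc d.pt = -(d.ka * d.x1) / 3 := by linear_combination r.r4 / 3
  have m : (xc d.pt + da d.pt) * (3 * (d.ka * d.x4) + da d.pt ^ 2) = (da d.pt - 1) ^ 3 := by
    rw [← e, ← mul_assoc 3, r.r5, dc]; ring
  have a1 : V.v (da d.pt) ≤ 1 := by simpa using bLocA_add_le V.na ha.le (map_one V.v).le
  have n1 : V.v (3 * (d.ka * d.x4) + da d.pt ^ 2) = 1 := by
    refine le_antisymm (bLocA_add_le V.na (bLocA_mul_one h3.le (bLocA_mul_one hk.le h4))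
      (sq (da d.pt) ▸ bLocA_mul_one a1 a1)) ?_
    have := bLocA_mul_le (b := 3 * (d.ka * d.x4) + da d.pt ^ 2) (bLocA_add_le V.na hx.le a1)
    rwa [m, map_pow, ha, one_pow] at this
  have n0 : 3 * (d.ka * d.x4) + da d.pt ^ 2 ≠ 0 := fun z => by simp [z] at n1
  refine ⟨c, by simp [c, hk, h1, h3], ?_, n1, ?_, ?_⟩
  · rw [eq_div_iff r.c0]; linear_combination -r.r2
  · rw [← sub_eq_add_neg _ 1, ← m, mul_div_cancel_right₀ _ n0]; ring
  · have : (1 - w3) * da d.pt = w3 ^ 2 * yc d.pt - w3 :=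
      mul_div_cancel₀ _ (sub_ne_zero.2 w3_ne_one.symm)
    linear_combination -w3 * this - yc d.pt * w3_cube

theorem CGP_pf (hVGR : VGR_st) (hVEL : VEL_st) : CGP_st := by
  intro V d d' u h h' hu e1 e2 e3 e4
  obtain ⟨c, -, a, -, x, y⟩ := frm_GCGP hVGR hVEL h
  obtain ⟨c', c1, a', n1, x', y'⟩ := frm_GCGP hVGR hVEL h'
  obtain ⟨h1, h2, h3, -, h4, -, hp', -⟩ := hVGR V d' h'
  obtain ⟨-, -, -, -, -, -, hp, -⟩ := hVGR V d h
  have t := v_three h.fg.n3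
  have t3 : Cg V 3 3 := Cg.rfl' t.le
  have g : ∀ {z z' : Qb}, V.v z' ≤ 1 → V.v (z - u * z') < 1 → Cg V z (u * z') :=
    fun p q => Cg.mk' (bLocA_mul_one hu.le p) q
  have u0 : u ≠ 0 := fun z => by simp [z] at hu
  have k : ∀ {z z' : Qb}, Cg V z (u * z') → Cg V (d.ka * z) (d'.ka * z') := fun {z z'} p => by
    have := ((neg_GCGP (g h1.le e1)).div (((Cg.rfl' (v_nine h.fg.n3).le).mul (g h2.le e2)).mul
      (g h3.le e3)) (by simp [hu, h2, h3, v_nine h.fg.n3])).mul p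
    have : d'.x2 ≠ 0 := fun z => by simp [z] at h2
    have : d'.x3 ≠ 0 := fun z => by simp [z] at h3
    unfold Lv.ka
    convert ‹Cg V _ _› using 1
    field_simp
  have k1 := k (g h1.le e1)
  have k2 := k (g h2.le e2)
  have k3 := k (g h3.le e3)
  have C : Cg V (dc d.pt) (dc d'.pt) := by
    rw [c, c']; exact (neg_GCGP k1).div t3 t
  have A : Cg V (da d.pt) (da d'.pt) := by
    rw [a, a']; exact (((k1.mul k2).add (k1.mul k3)).add (k2.mul k3)).div C c1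
  have w : Cg V w3 w3 := Cg.rfl' (v_w3 V).le
  refine CLO_ok V _ _ hp hp' ?_ ?_ <;> rw [t]
  · rw [x, x']
    exact ((((A.add (neg_GCGP Cg.one)).pow 3).div ((t3.mul (k (g h4 e4))).add (A.pow 2)) n1).add
      (neg_GCGP A)).2.2
  · rw [y, y']
    exact ((w.pow 2).add ((w.add (neg_GCGP (w.pow 2))).mul A)).2.2

end Pool.Agent.MP_e23604_nt.Z.G
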