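import Pool.Agent.MP_e23604_nt.Z.Defs
import Pool.Agent.MP_e23604_nt.Y.INF
import Pool.Agent.MP_e23604_nt.Un.Nmul
import Pool.Agent.MP_e23604_nt.Un.Ncong

/-!
The geometric part: definitions and elementary facts.
-/

set_option autoImplicit false

open Finset QuadraticAlgebra Polynomial
open scoped Classical

namespace Pool.Agent.MP_e23604_nt.Z.G

open B R S W Un

/-! ### Curves with good reduction -/

/-- the points of a curve -/
abbrev PW (E : WeierstrassCurve Qb) : Type := E.toAffine.Point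

/-- good reduction -/
structure Gw (V : Plc) (E : WeierstrassCurve Qb) : Prop where
  int : Intg V.v E
  disc : V.v E.Δ = 1

section curve

variable {E E' : WeierstrassCurve Qb}

/-- the first coordinate -/
noncomputable def xw : PW E → Qb
  | .zero => 0
  | .some x _ _ => x

/-- the second coordinate -/
noncomputable def yw : PW E → Qb
  | .zero => 0
  | .some _ y _ => y

/-- the distance to the origin -/
noncomputable def zs (V : Plc) (P : PW E) : ℝ := if E1 V.v P then V.v (zz P) else 1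

/-- normalised homogeneous first coordinates -/
def Nr (V : Plc) (P : PW E) (u v : Qb) : Prop :=
  (∃ c : Qb, c ≠ 0 ∧ P.xRep = c • ![u, v]) ∧ max (V.v u) (V.v v) = 1

/-- congruent integral points -/
def Cp (V : Plc) (e : ℕ) (s : ℝ) (P : PW E) (P' : PW E') : Prop :=
  ¬ E1 V.v P ∧ ¬ E1 V.v P' ∧ V.v (xw P' - xw P ^ e) ≤ s ∧ V.v (yw P' - yw P ^ e) ≤ s

/-- approximate homomorphisms -/
structure Ap (V : Plc) (e : ℕ) (s : ℝ) (D : AddSubgroup (PW E × PW E')) : Prop where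
  onto : ∀ P, ∃ P', (P, P') ∈ D
  one : ∀ P P', (P, P') ∈ D → (E1 V.v P ↔ E1 V.v P')
  dist : ∀ P P', (P, P') ∈ D → E1 V.v P → max (V.v (zz P')) s = max (V.v (zz P) ^ e) s
  cong : ∀ P P', ¬ E1 V.v P → ((P, P') ∈ D ↔ Cp V e s P P')

theorem xw_xc (P : Pt) : xw (E := EQ) P = xc P := by cases P <;> rfl

theorem yw_yc (P : Pt) : yw (E := EQ) P = yc P := by cases P <;> rfl

@[simp] theorem xw_zero : xw (0 : PW E) = 0 := rfl

@[simp] theorem yw_zero : yw (0 : PW E) = 0 := rfl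

theorem E1_xw (V : Plc) (P : PW E) : E1 V.v P ↔ P = 0 ∨ 1 < V.v (xw P) := by
  rcases P with _ | ⟨x, y, h⟩
  · exact iff_of_true trivial (Or.inl rfl)
  · exact (or_iff_right (WeierstrassCurve.Affine.Point.some_ne_zero h)).symm

theorem nE1_xw {V : Plc} {P : PW E} : ¬ E1 V.v P ↔ P ≠ 0 ∧ V.v (xw P) ≤ 1 := by
  rw [E1_xw, not_or, not_lt]

theorem xRep_xw {P : PW E} (h : P ≠ 0) : P.xRep = ![xw P, 1] := by
  rcases P with _ | ⟨x, y, h'⟩
  · exact absurd rfl h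
  · rfl

theorem Nr.int {V : Plc} {P : PW E} (h : ¬ E1 V.v P) : Nr V P (xw P) 1 :=
  ⟨⟨1, one_ne_zero, by rw [one_smul, xRep_xw (nE1_xw.1 h).1]⟩, by
    rw [map_one, max_eq_right (nE1_xw.1 h).2]⟩

theorem zs_nonneg (V : Plc) (P : PW E) : 0 ≤ zs V P := by
  unfold zs
  split_ifs
  exacts [V.v.nonneg _, zero_le_one]

theorem zs_of {V : Plc} {P : PW E} (h : E1 V.v P) : zs V P = V.v (zz P) := if_pos h

theorem zs_not {V : Plc} {P : PW E} (h : ¬ E1 V.v P) : zs V P = 1 := if_neg h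

theorem Gw.zs_lt {V : Plc} (h : Gw V E) {P : PW E} : zs V P < 1 ↔ E1 V.v P :=
  ⟨fun e => by_contra fun k => (zs_not k ▸ e).false, fun e => zs_of e ▸ E1_lt V.na h.int e⟩

theorem Gw.zs_le {V : Plc} (h : Gw V E) (P : PW E) : zs V P ≤ 1 := by
  by_cases e : E1 V.v P
  exacts [(h.zs_lt.2 e).le, (zs_not e).le]

theorem Gw.ell {V : Plc} (h : Gw V E) : E.IsElliptic :=
  ⟨Ne.isUnit fun e => by simpa [e] using h.disc⟩

theorem Gw.add {V : Plc} (h : Gw V E) {P Q : PW E} (a : E1 V.v P) (b : E1 V.v Q) :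
    E1 V.v (P + Q) := (E1_add V.na h.int a b).1

theorem Gw.neg {V : Plc} (h : Gw V E) {P : PW E} (a : E1 V.v P) : E1 V.v (-P) :=
  (E1_neg V.na h.int a).1

theorem Gw.sub {V : Plc} (h : Gw V E) {P Q : PW E} (a : E1 V.v P) (b : E1 V.v Q) :
    E1 V.v (P - Q) := sub_eq_add_neg P Q ▸ h.add a (h.neg b)

theorem gw_EQ {V : Plc} (h : ¬ Ov V 3) : Gw V EQ := ⟨intg_EQ _, v_Δ h⟩

end curve

/-- powers that are additive up to `s` -/
def Ph (V : Plc) (e : ℕ) (s : ℝ) : Prop := 0 < e ∧ 0 ≤ s ∧ s < 1 ∧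
  ∀ x y : Qb, V.v x ≤ 1 → V.v y ≤ 1 → V.v ((x + y) ^ e - x ^ e - y ^ e) ≤ s

/-- congruent curves -/
def Cw (V : Plc) (e : ℕ) (s : ℝ) (E E' : WeierstrassCurve Qb) : Prop :=
  V.v (E'.a₁ - E.a₁ ^ e) ≤ s ∧ V.v (E'.a₂ - E.a₂ ^ e) ≤ s ∧ V.v (E'.a₃ - E.a₃ ^ e) ≤ s ∧
    V.v (E'.a₄ - E.a₄ ^ e) ≤ s ∧ V.v (E'.a₆ - E.a₆ ^ e) ≤ s

/-- polynomials with bounded coefficients -/
def Bd (V : Plc) (f : Qb[X]) (ε : ℝ) : Prop := ∀ i, V.v (f.coeff i) ≤ ε

/-- the summation polynomial -/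
def s3 {A : Type} [CommRing A] (b₂ b₄ b₆ b₈ u₁ v₁ u₂ v₂ u₃ v₃ : A) : A :=
  (u₁ * v₂ - u₂ * v₁) ^ 2 * u₃ ^ 2 -
    (2 * (u₁ * v₂ + u₂ * v₁) * (u₁ * u₂) + b₂ * (u₁ * u₂) * (v₁ * v₂) +
      b₄ * (u₁ * v₂ + u₂ * v₁) * (v₁ * v₂) + b₆ * (v₁ * v₂) ^ 2) * (u₃ * v₃) +
    ((u₁ * u₂) ^ 2 - b₄ * (u₁ * u₂) * (v₁ * v₂) - b₆ * (u₁ * v₂ + u₂ * v₁) * (v₁ * v₂) -
      b₈ * (v₁ * v₂) ^ 2) * v₃ ^ 2

/-- the product of the four distances -/
noncomputable def z4 (V : Plc) {E : WeierstrassCurve Qb} (P Q R : PW E) : ℝ :=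
  zs V (P + Q + R) * zs V (P + Q - R) * zs V (P - Q + R) * zs V (P - Q - R)

/-! ### Sums over finite subgroups and level structures -/

/-- the sum of the first coordinates -/
noncomputable def sX (C : AddSubgroup Pt) (P : Pt) : Qb := ∑ c ∈ els C, xc (P + c)

theorem vX_eq (C : AddSubgroup Pt) (T P : Pt) : vX C T P = sX C P - sX C T := rfl

/-- `P` is not congruent to a point of `C` -/
def Fr (V : Plc) (C : AddSubgroup Pt) (P : Pt) : Prop := ∀ c ∈ C, ¬ E1 V.v (P - c)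

/-- finite subgroups that reduce injectively -/
structure Fg (V : Plc) (C : AddSubgroup Pt) : Prop where
  fin : (C : Set Pt).Finite
  n3 : ¬ Ov V 3
  inj : ∀ c ∈ C, E1 V.v c → c = 0

/-- torsion points of order prime to the place -/
noncomputable def TT (V : Plc) : AddSubgroup Pt where
  carrier := {P | ∃ n : Zw, ¬ Ov V n ∧ n • P = 0}
  zero_mem' := ⟨1, not_Ov_unit V isUnit_one, smul_zero _⟩
  add_mem' := by
    rintro P Q ⟨n, h, e⟩ ⟨m, h', e'⟩
    exact ⟨n * m, fun k => (Ov_mul.1 k).elim h h', by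
      rw [smul_add, dvd_smul e (dvd_mul_right _ _), dvd_smul e' (dvd_mul_left _ _), add_zero]⟩
  neg_mem' := by
    rintro P ⟨n, h, e⟩
    exact ⟨n, h, by rw [smul_neg, e, neg_zero]⟩

theorem mem_TT {V : Plc} {P : Pt} : P ∈ TT V ↔ ∃ n : Zw, ¬ Ov V n ∧ n • P = 0 := Iff.rfl

theorem TT_smul {V : Plc} {P : Pt} (h : P ∈ TT V) (b : Zw) : b • P ∈ TT V := by
  obtain ⟨n, h, e⟩ := h
  exact ⟨n, h, by rw [smul_comm, e, smul_zero]⟩

theorem TT_of {V : Plc} {P : Pt} {b : Zw} (hb : ¬ Ov V b) (h : b • P ∈ TT V) : P ∈ TT V := by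
  obtain ⟨n, h, e⟩ := h
  exact ⟨n * b, fun k => (Ov_mul.1 k).elim h hb, by rw [mul_smul, e]⟩

theorem TT_E1 {V : Plc} {P : Pt} (h : P ∈ TT V) (e : E1 V.v P) : P = 0 := by
  obtain ⟨n, h, e'⟩ := h
  exact E1_tor e h e'

/-- level structures -/
structure Lv where
  C : AddSubgroup Pt
  S : Pt
  R : Pt

namespace Lv

variable (d : Lv)

/-- the point of order three -/
noncomputable def T : Pt := 3 • d.R

/-- admissible structures -/
def Ok : Prop := DD d.C d.S d.R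

/-- the point of the modular curve -/
noncomputable def pt : Pt := Hp d.C d.S d.R

/-- the abscissae -/
noncomputable def x1 : Qb := vX d.C d.T d.S

/-- the abscissae -/
noncomputable def x2 : Qb := vX d.C d.T (d.S + d.T)

/-- the abscissae -/
noncomputable def x3 : Qb := vX d.C d.T (d.S - d.T)

/-- the abscissae -/
noncomputable def x4 : Qb := vX d.C d.T d.R + vX d.C d.T (d.R + d.T) + vX d.C d.T (d.R - d.T)

theorem pt_eq : d.pt = fp d.x1 d.x2 d.x3 d.x4 := rfl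

/-- the scaling factor -/
noncomputable def ka : Qb := -d.x1 / (9 * d.x2 * d.x3)

/-- the image under an automorphism -/
noncomputable def mp (g : GQ) : Lv := ⟨d.C.map (gal g), gal g d.S, gal g d.R⟩

/-- good structures -/
structure Gd (V : Plc) : Prop where
  ok : d.Ok
  fg : Fg V d.C

/-- tame structures -/
structure Tm (V : Plc) : Prop where
  ok : d.Ok
  n3 : ¬ Ov V 3
  le : d.C ≤ TT V

variable {d} {V : Plc}

theorem Tm.gd (h : d.Tm V) : d.Gd V := ⟨h.ok, h.ok.fin, h.n3, fun _ hc => TT_E1 (h.le hc)⟩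

theorem Tm.R (h : d.Tm V) : d.R ∈ TT V :=
  TT_of (b := 3 ^ 2) (fun e => h.n3 (Ov_pow e)) (h.le (by
    have := h.ok.r9
    rwa [← Nat.cast_smul_eq_nsmul Zw] at this))

theorem Tm.S (h : d.Tm V) : d.S ∈ TT V :=
  TT_of h.n3 (h.le (by
    have := h.ok.s3
    rwa [← Nat.cast_smul_eq_nsmul Zw] at this))

theorem Tm.T (h : d.Tm V) : d.T ∈ TT V := (TT V).nsmul_mem h.R 3

end Lv

/-- the first coefficient of the normal form -/
noncomputable def da (P : Pt) : Qb := (w3 ^ 2 * yc P - w3) / (1 - w3)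

/-- the third coefficient of the normal form -/
noncomputable def dc (P : Pt) : Qb := -xc P ^ 3 / 27

/-- the curve that belongs to a point of the modular curve -/
noncomputable def Wd (P : Pt) : WeierstrassCurve Qb := ⟨da P, 0, dc P, 0, 0⟩

/-- the relations between four abscissae and the point -/
structure Rl (κ x y z u : Qb) (P : Pt) : Prop where
  ne : P ≠ 0
  c0 : dc P ≠ 0
  a1 : da P ≠ 1
  k0 : κ ≠ 0
  r1 : κ * (x + y + z) = -da P ^ 2 / 3
  r2 : κ ^ 2 * (x * y + x * z + y * z) = da P * dc P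
  r3 : κ ^ 3 * (x * y * z) = -dc P ^ 2
  r4 : κ * x = -3 * dc P
  r5 : 3 * κ * u = xc P * (xc P - da P)

/-- the quotient map -/
structure Vl (d : Lv) (φ : Pt →+ PW (Wd d.pt)) : Prop where
  sur : Function.Surjective φ
  ker : ∀ P, φ P = 0 ↔ P ∈ d.C
  xx : ∀ P, P ∉ d.C → xw (φ P) = d.ka * vX d.C d.T P
  yT : yw (φ d.T) = 0

/-! ### Inert places -/

/-- a place over an odd inert prime and a Frobenius element -/
structure Iq (V : Plc) (σ : GQ) : Prop where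
  inr : Y.In V σ
  n2 : V.l ≠ 2

/-- the map `a + b σ` -/
noncomputable def be (σ : GQ) (a b : Zw) : Pt →+ Pt :=
  DistribSMul.toAddMonoidHom Pt a + (DistribSMul.toAddMonoidHom Pt b).comp (gal σ)

theorem be_apply (σ : GQ) (a b : Zw) (P : Pt) : be σ a b P = a • P + b • gal σ P := rfl

/-- its norm -/
def nq (V : Plc) (a b : Zw) : ℕ := nn a + V.l * nn b

/-- the preimage of a subgroup -/
noncomputable def pb (V : Plc) (σ : GQ) (a b : Zw) (C : AddSubgroup Pt) : AddSubgroup Pt :=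
  TT V ⊓ C.comap (be σ a b)

/-- the map `a + b σ` divided by `k` is an isomorphism of level structures -/
structure Iso (V : Plc) (σ : GQ) (d d' : Lv) (a b k : Zw) : Prop where
  nrm : cd d.C * nn k = cd d'.C * nq V a b
  ker : ∀ P, k • P ∈ d.C → be σ a b P ∈ d'.C
  hS : ∀ P, k • P = d.S → be σ a b P - d'.S ∈ d'.C ∨ be σ a b P + d'.S ∈ d'.C
  hR : ∃ u : ℤ, ¬ 3 ∣ u ∧ ∀ P, k • P = d.R → be σ a b P - u • d'.R ∈ d'.C

/-- two congruent level structures -/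
structure Cx (V : Plc) (σ : GQ) (d d' : Lv) (φ : Pt →+ PW (Wd d.pt)) (φ' : Pt →+ PW (Wd d'.pt))
    (s : ℝ) (D : AddSubgroup (PW (Wd d.pt) × PW (Wd d'.pt))) (F : AddSubgroup (Pt × Pt)) :
    Prop where
  iq : Iq V σ
  tm : d.Tm V
  tm' : d'.Tm V
  vl : Vl d φ
  vl' : Vl d' φ'
  s0 : 0 ≤ s
  s1 : s ≤ V.v V.l
  hx : V.v (xc d'.pt - xc d.pt) ≤ s
  hy : V.v (yc d'.pt - yc d.pt) ≤ s
  hD : Ap V 1 s D
  hF : Ap (E := EQ) (E' := EQ) V V.l (V.v V.l) F

/-- an approximate relation between the three maps -/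
def Hm (V : Plc) {E E' : WeierstrassCurve Qb} (φ : Pt →+ PW E) (φ' : Pt →+ PW E')
    (D : AddSubgroup (PW E × PW E')) (F : AddSubgroup (Pt × Pt)) (t : ℝ) (a b k : Zw) : Prop :=
  ∀ P P₁ P₃ : Pt, (P, P₁) ∈ F → (φ (k • P), φ' P₃) ∈ D → zs V (φ' (a • P + b • P₁ - P₃)) ≤ t

/-- the solutions of the norm equation -/
noncomputable def Sol (q n : ℕ) : Finset (Zw × Zw) :=
  (nb n ×ˢ nb n).filter fun p => p.2 ≠ 0 ∧ nn p.1 + q * nn p.2 = n

/-- the local intersection number -/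
noncomputable def li (V : Plc) (σ : GQ) (d d' : Lv) (k : Zw) (n : ℕ) : ℕ :=
  ∑ p ∈ Sol V.l n, if Iso V σ d d' p.1 p.2 k then 1 + (nn p.2).factorization V.l / 2 else 0

/-! ### Heights -/

/-- the denominator of the norm -/
noncomputable def Dn (X : Finset GQ) (P : Pt) : Zw := Classical.epsilon fun D =>
  D ≠ 0 ∧ ∀ V : Plc, V.v (W.io D) * ∏ y ∈ X, max 1 (V.v (xc (gal y P))) = 1

/-- points fixed by a group -/
noncomputable def Fp (U : Subgroup GQ) : AddSubgroup Pt where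
  carrier := {P | ∀ g ∈ U, gal g P = P}
  zero_mem' _ _ := map_zero _
  add_mem' h h' g hg := by rw [map_add, h g hg, h' g hg]
  neg_mem' h g hg := by rw [map_neg, h g hg]

theorem mem_Fp {U : Subgroup GQ} {P : Pt} : P ∈ Fp U ↔ ∀ g ∈ U, gal g P = P := Iff.rfl

/-- open subgroups with abelian quotient -/
structure Ab (U : Subgroup GQ) : Prop where
  opn : IsOpen (U : Set GQ)
  le : U ≤ GK
  ab : ∀ g ∈ GK, ∀ h ∈ GK, (g * h)⁻¹ * (h * g) ∈ U

/-- a logarithm that kills the norms -/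
structure Lh (k : ℕ) (U : Subgroup GQ) (φ : GQ) : Prop where
  gk : φ ∈ GK
  cyc : W.cy (3 ^ k) φ = 1
  six : ∀ b : Zw, b ∣ 6 → lk k φ b = 0
  nrm : ∀ (x : Qb) (X : Finset GQ), x ≠ 0 → Fix U x → Trv U GK X →
    km (3 ^ k) φ (∏ y ∈ X, y x) = 0

/-- the group that fixes the points killed by `N0 r` and the subgroups generated by a point
killed by `l` -/
noncomputable def UL (r l : ℕ) : Subgroup GQ where
  carrier := {g | g ∈ UM (N0 r) ∧ ∀ P : Pt, (l : Zw) • P = 0 →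
    (AddSubgroup.zmultiples P).map (gal g) = AddSubgroup.zmultiples P}
  one_mem' := ⟨one_mem _, fun P _ => by
    rw [show gal 1 = AddMonoidHom.id Pt from AddMonoidHom.ext W.gal_one, AddSubgroup.map_id]⟩
  mul_mem' {g h} a b := ⟨mul_mem a.1 b.1, fun P e => by
    rw [show gal (g * h) = (gal g).comp (gal h) from AddMonoidHom.ext (W.gal_mul g h),
      ← AddSubgroup.map_map, b.2 P e, a.2 P e]⟩
  inv_mem' {g} a := ⟨inv_mem a.1, fun P e => by
    conv_lhs => rw [← a.2 P e, AddSubgroup.map_map]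
    rw [show (gal g⁻¹).comp (gal g) = AddMonoidHom.id Pt from AddMonoidHom.ext fun Q => by
      rw [AddMonoidHom.comp_apply, ← W.gal_mul, inv_mul_cancel, W.gal_one, AddMonoidHom.id_apply],
      AddSubgroup.map_id]⟩

theorem mem_UL {r l : ℕ} {g : GQ} : g ∈ UL r l ↔ g ∈ UM (N0 r) ∧ ∀ P : Pt, (l : Zw) • P = 0 →
    (AddSubgroup.zmultiples P).map (gal g) = AddSubgroup.zmultiples P := Iff.rfl

/-- the level structures that occur -/
noncomputable def lv (r : ℕ) (L : AddSubgroup Pt) (G : Pt) (i j : ℕ) : Lv :=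
  ⟨AddSubgroup.zmultiples ((9 : Zw) • G) ⊔ L, (3 * e2 r) • G + i • 3 • G, G + j • (3 * e2 r) • G⟩

theorem lv_pt (r : ℕ) (L : AddSubgroup Pt) (G : Pt) : (lv r L G 0 0).pt = hq r L G := by
  simp [lv, Lv.pt, hq]

/-- the inert primes that occur -/
def Qs (r n : ℕ) : Finset ℕ := (range (n + 1)).filter fun q => q.Prime ∧ q % 3 = 2 ∧ ¬ q ∣ r

/-- the auxiliary prime -/
structure Ax (r : ℕ) (lam : Zw) : Prop where
  r0 : r ≠ 0
  n3 : ¬ 3 ∣ r
  pp : PP lam
  deg : (nn lam).Prime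
  n0 : (N0 r : Zw) ∣ lam - 1
  big : 27 * r ^ 2 < nn lam

/-- a choice of places and Frobenius elements -/
def Fam (Vq : ℕ → Plc) (σ : ℕ → GQ) : Prop :=
  ∀ q : ℕ, q.Prime → q % 3 = 2 → (Vq q).l = q ∧ Y.In (Vq q) (σ q)

/-- the sum of the local intersection numbers of the conjugates -/
noncomputable def ls (X : Finset GQ) (V : Plc) (σ : GQ) (d d' : Lv) (k : Zw) (n : ℕ) : ℕ :=
  ∑ y ∈ X, li V σ (d.mp y) (d'.mp y) k n

theorem INF_ok' : Y.INF_st := Y.INF_pf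

theorem ZEQ_ok' : ZEQ_st := ZEQ_pf H5_ok

theorem RAMQ_ok' : RAMQ_st := RAMQ_of PLK_ok

end Pool.Agent.MP_e23604_nt.Z.G
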