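import Pool.Agent.MP_e23604_nt.Z.GS

set_option autoImplicit false

open Finset QuadraticAlgebra Polynomial
open scoped Classical

namespace Pool.Agent.MP_e23604_nt.Z.G

open B R S W Un

theorem FACT_pf : FACT_st := by
  intro A _ L m D D' h1 h2 _ h3
  have ex : ∀ p : Zw, Prime p → ¬ p ∣ m → ∃ V, ¬ Ov V m ∧ ∀ b, Ov V b ↔ p ∣ b := fun p hp e => by
    obtain ⟨V, hV⟩ := PLK_ok.2.1 p hp
    have := (PLK_ok.2.2.1 V p hp hV).1
    exact ⟨V, fun a => e ((this m).1 a), this⟩
  induction D using UniqueFactorizationMonoid.induction_on_prime generalizing D' with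
  | h₁ => exact absurd rfl h3
  | h₂ u hu =>
    intro h4 h5
    have h6 : ∀ V, ¬ Ov V m → ¬ Ov V D' := fun V e =>
      not_Ov.2 ((h5 V e).symm.trans (not_Ov.1 (not_Ov_unit V hu)))
    rw [h2 u hu.dvd]
    clear h5
    induction D' using UniqueFactorizationMonoid.induction_on_prime with
    | h₁ => exact absurd rfl h4
    | h₂ x hx => exact (h2 x hx.dvd).symm
    | h₃ a p ha hp ih =>
      rw [h1 p a hp.ne_zero ha, ← ih ha fun V e e' => h6 V e (e'.dvd (dvd_mul_left _ _)),
        h2 p (by_contra fun e => ?_), add_zero]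
      obtain ⟨V, a1, a2⟩ := ex p hp e
      exact h6 V a1 ((a2 _).2 (dvd_mul_right _ _))
  | h₃ a p ha hp ih =>
    intro h4 h5
    rw [h1 p a hp.ne_zero ha]
    by_cases e : p ∣ m
    · rw [h2 p e, zero_add]
      exact ih D' ha h4 fun V hV => by
        rw [← h5 V hV, map_mul, map_mul, not_Ov.1 fun a => hV (a.dvd e), one_mul]
    obtain ⟨V, a1, a2⟩ := ex p hp e
    obtain ⟨b, rfl⟩ := (a2 D').1 ((h5 V a1).symm.trans_lt ((a2 _).2 (dvd_mul_right _ _)))
    rw [h1 p b hp.ne_zero (right_ne_zero_of_mul h4),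
      ih b ha (right_ne_zero_of_mul h4) fun V hV => ?_]
    simpa [map_eq_zero_iff _ W.io_inj, hp.ne_zero] using h5 V hV

end Pool.Agent.MP_e23604_nt.Z.G
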