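import Pool.Agent.MP_e23604_nt.Z.GS

set_option autoImplicit false

open Finset QuadraticAlgebra Polynomial
open scoped Classical

namespace Pool.Agent.MP_e23604_nt.Z.G

open B R S W Un

theorem abs_GGH {A A' : Type} [AddCommGroup A] [AddCommGroup A'] (H : AddSubgroup A)
    (c : A → A' → Prop) (c1 : ∀ {P P'}, c P P' → c (-P) (-P'))
    (c3 : ∀ {P P' Q Q'}, c P P' → c Q Q' → P + Q ∉ H → P - Q ∉ H → c (P + Q) (P' + Q'))
    (c4 : ∀ Q, Q ∉ H → Q + Q ∉ H → ∃ Q', c Q Q')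
    (G : ∀ a b d f : A, ∃ U U', c U U' ∧ U + U ∉ H ∧ U + a ∉ H ∧ U + b ∉ H ∧ U + d ∉ H ∧
      U + f ∉ H) : ∃ D : AddSubgroup (A × A'), (∀ P, ∃ P', (P, P') ∈ D) ∧
      ∀ P P', P ∉ H → ((P, P') ∈ D ↔ c P P') := by
  have n1 : ∀ {x y : A}, x ∉ H → y = x → y ∉ H := fun h e => e ▸ h
  have n2 : ∀ {x y : A}, x ∉ H → y = -x → y ∉ H := fun h e => e ▸ mt neg_mem_iff.1 h
  have c2 : ∀ {x y x' y'}, c x x' → y = x → y' = x' → c y y' := fun h e e' => e ▸ e' ▸ h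
  have K : ∀ {P P' Q Q'}, c P P' → c Q Q' → P + Q ∉ H → c (P + Q) (P' + Q') := by
    intro P P' Q Q' hP hQ h
    by_cases e : P - Q ∈ H
    · obtain ⟨U, U', w, w2, a1, a2, a3, a4⟩ := G P (-P) Q (-Q)
      refine c2 (c3 (c3 hP w (n1 a1 (by abel)) (n2 a2 (by abel)))
        (c3 hQ (c1 w) (n2 a4 (by abel)) (n1 a3 (by abel))) (n1 h (by abel))
        fun k => n1 w2 ?_ (H.sub_mem k e)) (by abel) (by abel)
      abel
    · exact c3 hP hQ h e
  let D : AddSubgroup (A × A') :=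
    { carrier := {x | ∀ U U', c U U' → U + x.1 ∉ H → c (U + x.1) (U' + x.2)}
      zero_mem' := fun U U' h _ => by simpa using h
      add_mem' := fun {x y} hx hy T T' h e => by
        obtain ⟨U, U', w, -, a1, a2, a3, -⟩ := G x.1 (x.1 + y.1) (-T) 0
        rw [Prod.fst_add, Prod.snd_add] at *
        exact c2 (K (K h (c1 w) (n2 a3 (by abel))) (hy _ _ (hx _ _ w a1) (n1 a2 (by abel)))
          (n1 e (by abel))) (by abel) (by abel)
      neg_mem' := fun {x} hx T T' h e => by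
        obtain ⟨U, U', w, -, a1, a2, -, -⟩ := G x.1 T 0 0
        rw [Prod.fst_neg, Prod.snd_neg] at *
        exact c2 (K (K h w (n1 a2 (by abel))) (c1 (hx _ _ w a1)) (n1 e (by abel))) (by abel)
          (by abel) }
  have d1 : ∀ {P P'}, c P P' → (P, P') ∈ D := fun h _ _ w e => K w h e
  refine ⟨D, fun P => ?_, fun P P' h => ⟨fun e => ?_, d1⟩⟩
  · by_cases e : P + P ∈ H
    · obtain ⟨U, U', w, w2, a1, -⟩ := G P 0 0 0
      obtain ⟨Q', k⟩ := c4 _ a1 fun k => n1 w2 (by abel) (H.sub_mem k e)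
      exact ⟨Q' - U', by simpa using D.sub_mem (d1 k) (d1 w)⟩
    · exact (c4 P (fun k => e (H.add_mem k k)) e).imp fun _ => d1
  · obtain ⟨U, U', w, -, a1, -⟩ := G P 0 0 0
    exact c2 (K (e _ _ w a1) (c1 w) (n1 h (by abel))) (by abel) (by abel)

theorem GH_pf (hPARW : PARW_st) (hPIK : PIK_st) (hGHA : GHA_st) : GH_st := by
  intro V E E' e s hE hE' h2 hP hC
  obtain ⟨a1, a2, a4⟩ := hGHA V E E' e s hE hE' h2 hP hC
  have X := (hPARW V E hE).2.2.2.1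
  have X' := (hPARW V E' hE').2.2.2.1
  let H : AddSubgroup (PW E) := ⟨⟨⟨{P | E1 V.v P}, hE.add⟩, trivial⟩, hE.neg⟩
  have G : ∀ a b d f : PW E, ∃ U U', Cp V e s U (U' : PW E') ∧ U + U ∉ H ∧ U + a ∉ H ∧
      U + b ∉ H ∧ U + d ∉ H ∧ U + f ∉ H := fun a b d f => by
    obtain ⟨U, u1, u2, u3⟩ := (hPIK V).1 E hE h2 {-a, -b, -d, -f}
    obtain ⟨U', w⟩ := a4 U u1 u2
    simp only [mem_insert, mem_singleton, forall_eq_or_imp, forall_eq, sub_neg_eq_add] at u3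
    exact ⟨U, U', w, two_nsmul U ▸ u2, u3⟩
  obtain ⟨D, d1, d2⟩ := abs_GGH H (Cp V e s) (fun h => (a1 _ _ h).1)
    (fun h h' k k' => (a2 _ _ _ _ h h').2 (by rw [X _ _ h.1 h'.1, zs_not k, zs_not k', mul_one]))
    (fun Q h k => a4 Q h (two_nsmul Q ▸ k)) G
  have key : ∀ P P', (P, P') ∈ D → E1 V.v P →
      E1 V.v P' ∧ max (V.v (zz P')) s = max (V.v (zz P) ^ e) s := fun P P' h k => by
    obtain ⟨U, U', w, w2, -⟩ := G 0 0 0 0
    have m := (d2 _ _ w.1).2 w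
    have c1 := (d2 (U - P) (U' - P') fun j => w.1 (by simpa using hE.add j k)).1 (D.sub_mem m h)
    have c2 := (d2 (U + (U - P)) (U' + (U' - P')) fun j =>
      w2 (by simpa [add_assoc] using H.add_mem j k)).1 (D.add_mem m (D.sub_mem m h))
    have q := (a2 _ _ _ _ w c1).1
    rw [X _ _ w.1 c1.1, X' _ _ w.2.1 c1.2.1, zs_not c2.1, zs_not c2.2.1, one_mul, one_mul,
      sub_sub_cancel, sub_sub_cancel] at q
    have k' := hE'.zs_lt.1 ((le_max_left _ s).trans_lt (q.trans_lt (max_lt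
      (pow_lt_one₀ (zs_nonneg _ _) (hE.zs_lt.2 k) hP.1.ne') hP.2.2.1)))
    exact ⟨k', by rwa [zs_of k, zs_of k'] at q⟩
  exact ⟨D, d1, fun P P' h => ⟨fun k => (key P P' h k).1,
    fun k => by_contra fun j => ((d2 P P' j).1 h).2.1 k⟩, fun P P' h k => (key P P' h k).2, d2⟩

end Pool.Agent.MP_e23604_nt.Z.G
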