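import Pool.Agent.MP_e23604_nt.Z.GS

set_option autoImplicit false

open Finset QuadraticAlgebra Polynomial
open scoped Classical

namespace Pool.Agent.MP_e23604_nt.Z.G

open B R S W Un

/-- a local coordinate -/
theorem xi_GLBB (hPARW : PARW_st) {V : Plc} (h3 : ¬ Ov V 3) (O : Pt) : ∃ ξ : Pt → Qb,
    (∀ P Q : Pt, E1 V.v (P - O) → E1 V.v (Q - O) → V.v (ξ P - ξ Q) = zs (E := EQ) V (P - Q)) ∧
    ∀ P ∈ Fp V.D, Fix V.D (ξ P) := by
  obtain ⟨R, hg, hR⟩ : ∃ R : Pt, (∀ g, gal g R = R) ∧ ¬ E1 V.v (O + R + (O + R)) := by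
    by_cases h : E1 V.v (O + O)
    · refine ⟨T0, gal_T0, fun e => T0_E1 V ?_⟩
      have t : T0 + T0 + T0 = 0 := by
        rw [← three_T0, show (3 : Zw) = 1 + 1 + 1 by norm_num, add_smul, add_smul, one_smul]
      have := E1s h e
      rwa [show O + O - (O + T0 + (O + T0)) = T0 - (T0 + T0 + T0) by abel, t, sub_zero] at this
    · exact ⟨0, fun g => map_zero _, by simpa using h⟩
  have n1 : ∀ P : Pt, E1 V.v (P - O) → ¬ E1 V.v (P + R) := fun P h e => hR <| by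
    have := E1s e h
    rw [show P + R - (P - O) = O + R by abel] at this
    exact E1a this this
  refine ⟨fun P => xc (P + R), fun P Q hP hQ => ?_, fun P hP g k => ?_⟩
  · have := (hPARW V EQ (gw_EQ h3)).2.2.2.1 _ _ (n1 P hP) (n1 Q hQ)
    rwa [xw_xc, xw_xc, add_sub_add_right_eq_sub, zs_not (E := EQ) (P := P + R + (Q + R)) (by
      rw [show P + R + (Q + R) = O + R + (O + R) + (P - O + (Q - O)) by abel]
      exact not_E1_add hR (E1a hP hQ)), one_mul] at this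
  · rw [← (xc_gal g _).1, map_add, hg, hP g k]

theorem LBB_pf (hPARW : PARW_st) (hVGR : VGR_st) (hSIG : SIG_st) (hISA : ISA_st) (hISB : ISB_st)
    (hEX : EX_st) (hRAT : RAT_st) (hRES : RES_st) (hLBA : LBA_st) : LBB_st := by
  intro V σ d d' a b k hI hd hd' hk h
  have S := hSIG V σ hI.inr
  have u1 := not_Ov_unit V isUnit_one
  by_cases hb : b = 0
  · rw [(hEX V σ d d' a b k hI hd hd' hk h).2 hb, sub_self, zs_of (E := EQ) (P := 0) trivial,
      zz_eq, xc_zero, neg_zero, zero_div, map_zero]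
    exact mul_nonneg S.q0.le (V.v.nonneg _)
  have vb := S.vb b hb
  generalize (nn b).factorization V.l / 2 = m at vb
  obtain ⟨Y, y0, yi, ys⟩ := hRES V σ m hI.inr
  obtain ⟨ξ, x1, x2⟩ := xi_GLBB hPARW S.n3 d'.pt
  choose f ft fi using fun g => (hISB V σ hI.inr).2 d' 1 g hd' u1
  have l0 : (V.l : Qb) ≠ 0 := V.v.pos_iff.1 S.q0
  have C : ∀ (e : Lv) (a b k : Zw), e.Tm V → ¬ Ov V k → Iso V σ e d' a b k →
      ∃ y ∈ Y, V.v ((ξ e.pt - ξ d'.pt) / V.l - W.io y) ≤ V.v V.l ^ m := fun e a b k t n i => by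
    refine ys _ (fun g c => ?_) ?_
    · rw [map_div₀, map_sub, map_natCast, x2 _ ((hRAT V σ hI.inr).1 e t) g c,
        x2 _ ((hRAT V σ hI.inr).1 d' hd') g c]
    · rw [map_div₀, div_le_one S.q0, x1 _ _ (hEX V σ e d' a b k hI t hd' n i).1
        (by rw [sub_self]; trivial)]
      exact (hLBA V σ e d' a b k hI t hd' n i).2
  choose ρ ρY ρv using fun g => C _ _ _ _ (ft g) u1 (fi g)
  have K : ∀ (e : Lv) (a b k g : Zw), e.Tm V → ¬ Ov V k → Iso V σ e d' a b k →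
      V.v ((ξ e.pt - ξ d'.pt) / V.l - W.io (ρ g)) ≤ V.v V.l ^ m →
      zs (E := EQ) V (e.pt - (f g).pt) ≤ V.v V.l * V.v V.l ^ m ∧
        V.v (W.io (b - g * star a)) ≤ V.v V.l ^ m := fun e a b k g t n i c => by
    have z : zs (E := EQ) V (e.pt - (f g).pt) ≤ V.v V.l * V.v V.l ^ m := by
      rw [← x1 _ _ (hEX V σ e d' a b k hI t hd' n i).1 (hEX V σ _ d' _ _ _ hI (ft g) hd' u1 (fi g)).1,
        show ξ e.pt - ξ (f g).pt = V.l * ((ξ e.pt - ξ d'.pt) / V.l - W.io (ρ g) -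
          ((ξ (f g).pt - ξ d'.pt) / V.l - W.io (ρ g))) by field_simp; ring, map_mul]
      exact mul_le_mul_of_nonneg_left (bLocA_sub_le V.na c (ρv g)) S.q0.le
    have := (hLBA V σ _ _ _ _ _ hI t (ft g) (fun o => (Ov_mul.1 o).elim
      (fun o => u1 ((S.on 1 g).1 o)) n) ((hISB V σ hI.inr).1 e (f g) d' a b k 1 g 1 t (ft g) hd' n u1
        i (fi g))).1
    rw [star_one, one_mul, one_mul] at this
    exact ⟨z, le_of_mul_le_mul_left (this.trans z) S.q0⟩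
  obtain ⟨y, hy, c⟩ := C d a b k hd hk h
  obtain ⟨g, hg, rfl⟩ := surjOn_of_injOn_of_card_le ρ (fun g _ => ρY g) (fun g c g' c' e =>
    yi g c g' c' (by simpa using (K _ _ _ _ g' (ft g) u1 (fi g) (e ▸ ρv g)).2)) le_rfl hy
  obtain ⟨z, w⟩ := K d a b k g hd hk h c
  have := bLocA_sub_le V.na vb.le w
  rw [← map_sub, sub_sub_cancel, map_mul, map_mul, S.vs,
    not_Ov.1 ((hISA V σ hI.inr d d' a b k).2.2.2 hd hd' hk h).1, mul_one, ← sub_zero g] at this
  rwa [(hEX V σ _ d' _ _ _ hI (ft g) hd' u1 (fi g)).2 (yi g hg 0 y0 this), ← vb] at z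

end Pool.Agent.MP_e23604_nt.Z.G
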