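import Pool.Agent.MP_e23604_nt.Z.GS

set_option autoImplicit false

open Finset QuadraticAlgebra Polynomial
open scoped Classical

namespace Pool.Agent.MP_e23604_nt.Z.G

open B R S W Un

theorem prod_GREPA (V : Plc) (s : Finset Pt) (f : Pt → Qb) (h : ∀ c ∈ s, V.v (f c) ≤ 1) :
    ∃ p : Qb[X], p.Monic ∧ p.natDegree = s.card ∧ ∀ x, p.eval x = ∏ c ∈ s, (x - f c) ∧
      (V.v x ≤ 1 → V.v (p.eval x) ≤ 1) ∧ (1 < V.v x → V.v (p.eval x) = V.v x ^ s.card) := by
  refine ⟨∏ c ∈ s, (X - C (f c)), monic_prod_of_monic _ _ fun c _ => monic_X_sub_C _,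
    natDegree_finsetProd_X_sub_C_eq_card _ _, fun x => ?_⟩
  have e : (∏ c ∈ s, (X - C (f c))).eval x = ∏ c ∈ s, (x - f c) := by simp [eval_prod]
  rw [e, map_prod]
  refine ⟨rfl, fun hx => prod_le_one (fun _ _ => V.v.nonneg _) fun c hc =>
    bLocA_sub_le V.na hx (h c hc), fun hx => prod_eq_pow_card fun c hc => ?_⟩
  rw [sub_eq_add_neg]
  exact bLocA_add_eq V.na (by rw [V.v.map_neg]; exact (h c hc).trans_lt hx)

theorem REPA_pf (hLAG : LAG_st) (hPARW : PARW_st) (hVPF : VPF_st) (hVUN : VUN_st)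
    (hVGR : VGR_st) : REPA_st := by
  intro V d φ hd hφ
  have fin := hd.fg.fin
  have hU := (hVUN d.C).2 V hd.fg
  have hT : Fr V d.C d.T := (hU d.T).1 (by
    rw [Lv.T, smul_comm]; exact d.C.nsmul_mem hd.ok.r9 3) hd.ok.r3
  have hk := (hVGR V d hd).2.2.2.1
  have k0 : d.ka ≠ 0 := fun e => by simp [e] at hk
  have nT : ∀ c ∈ d.C, ¬ E1 V.v (d.T + c) := fun c hc => by
    simpa using hT (-c) (d.C.neg_mem hc)
  obtain ⟨A, mA, dA, eA⟩ := prod_GREPA V (els d.C) (fun c => xc (d.T + c)) fun c hc =>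
    (not_E1.1 (nT c ((mem_els fin).1 hc))).2
  obtain ⟨B, -, dB, eB⟩ := prod_GREPA V ((els d.C).erase 0) xc fun c hc =>
    (not_E1.1 fun e => (mem_erase.1 hc).1 (hd.fg.inj c ((mem_els fin).1 (mem_erase.1 hc).2) e)).2
  have cd1 : ((els d.C).erase 0).card + 1 = cd d.C := card_erase_add_one ((mem_els fin).2 d.C.zero_mem)
  replace dA : A.natDegree = cd d.C := dA
  have vA : ∀ x, V.v ((C d.ka * A).eval x) = V.v (A.eval x) := fun x => by
    rw [eval_mul, eval_C, map_mul, hk, one_mul]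
  refine ⟨C d.ka * A, B, (natDegree_C_mul_le _ _).trans dA.le, by omega, ?_,
    coeff_eq_zero_of_natDegree_lt (by omega), ((hLAG V).2 _ 1).2.1 fun x hx => vA x ▸ (eA x).2.1 hx,
    ((hLAG V).2 _ 1).2.1 fun x hx => (eB x).2.1 hx, fun x => ?_, fun P hP => ?_⟩
  · rw [coeff_C_mul, ← dA, mA.coeff_natDegree, mul_one, hk]
  · rw [vA]
    rcases lt_or_ge 1 (V.v x) with hx | hx
    · rw [(eA x).2.2 hx, (eB x).2.2 hx, max_eq_right hx.le]
      exact max_eq_left (pow_le_pow_right₀ hx.le (card_erase_le))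
    rw [max_eq_left hx, one_pow]
    obtain ⟨P, hP, rfl⟩ := ex_pt x
    by_cases hF : Fr V d.C P
    · have e : V.v (B.eval (xc P)) = 1 := (eB _).1 ▸ ((hU P).2.2.2 hF).2.2.1
      rw [e, max_eq_right ((eA _).2.1 hx)]
    obtain ⟨c₀, h0, h1⟩ : ∃ c₀ ∈ d.C, E1 V.v (P - c₀) := by simpa [Fr] using hF
    have e : V.v (A.eval (xc P)) = 1 := by
      rw [(eA _).1, map_prod]
      refine prod_eq_one fun c hc => ?_
      have hc' := (mem_els fin).1 hc
      have e1 := (hPARW V EQ (gw_EQ hd.fg.n3)).2.2.2.1 P (d.T + c) (not_E1.2 ⟨hP, hx⟩) (nT c hc')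
      rw [xw_xc, xw_xc, zs_not, zs_not, mul_one] at e1
      · exact e1
      · exact fun e => nT (c - c₀) (d.C.sub_mem hc' h0) (by convert E1s h1 e using 1; abel)
      · exact fun e => nT (c + c₀) (d.C.add_mem hc' h0) (by convert E1s e h1 using 1; abel)
    rw [e, max_eq_left ((eB _).2.1 hx)]
  rw [eval_mul, eval_C, (eA _).1, (eB _).1]
  by_cases hC : P ∈ d.C
  · have a0 : d.ka * ∏ c ∈ els d.C, (xc P - xc (d.T + c)) ≠ 0 := by
      refine mul_ne_zero k0 (prod_ne_zero_iff.2 fun c hc e => hd.ok.r3 ?_)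
      have hc' := (mem_els fin).1 hc
      rcases xc_eq hP (not_E1.1 (nT c hc')).1 (sub_eq_zero.1 e) with e1 | e1
      · exact (d.C.add_mem_cancel_right hc').1 (show d.T + c ∈ d.C from e1 ▸ hC)
      · exact (d.C.add_mem_cancel_right hc').1 (d.C.neg_mem_iff.1 (show -(d.T + c) ∈ d.C from e1 ▸ hC))
    refine ⟨_, inv_ne_zero a0, ?_⟩
    rw [(hφ.ker P).2 hC, prod_eq_zero (mem_erase.2 ⟨hP, (mem_els fin).2 hC⟩) (sub_self _)]
    ext i
    fin_cases i <;> simp [-mul_inv_rev, a0]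
  · have b0 : Un.kk d.C (xc P) ≠ 0 := prod_ne_zero_iff.2 fun c hc e => hC (by
      have hc' := (mem_els fin).1 (mem_erase.1 hc).2
      rcases xc_eq hP (mem_erase.1 hc).1 (sub_eq_zero.1 e) with rfl | rfl
      exacts [hc', d.C.neg_mem hc'])
    refine ⟨_, inv_ne_zero b0, ?_⟩
    rw [xRep_xw fun e => hC ((hφ.ker P).1 e), hφ.xx P hC, hVPF d.C P d.T fin hC hd.ok.r3, vX_eq, ← Un.kk]
    ext i
    fin_cases i <;> simp [b0]
    field_simp

end Pool.Agent.MP_e23604_nt.Z.G
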