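import Pool.Agent.MP_e23604_nt.Z.GD

/-!
The geometric part: statements of the steps.
-/

set_option autoImplicit false

open Finset QuadraticAlgebra Polynomial
open scoped Classical

namespace Pool.Agent.MP_e23604_nt.Z.G

open B R S W Un

/-! ### General curves -/

/-- interpolation -/
def LAG_st : Prop := ∀ V : Plc,
  (∀ Y : Finset Qb, (∀ y ∈ Y, V.v y ≤ 1) → ∃ x, V.v x ≤ 1 ∧ ∀ y ∈ Y, V.v (x - y) = 1) ∧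
  ∀ (f : Qb[X]) (ε : ℝ),
    (∀ Y : Finset Qb, f.natDegree < Y.card → (∀ x ∈ Y, V.v x ≤ 1 ∧ V.v (f.eval x) ≤ ε) →
      (∀ x ∈ Y, ∀ y ∈ Y, x ≠ y → V.v (x - y) = 1) → Bd V f ε) ∧
    ((∀ x, V.v x ≤ 1 → V.v (f.eval x) ≤ ε) → Bd V f ε) ∧
    (Bd V f ε → ∀ x, V.v x ≤ 1 → V.v (f.eval x) ≤ ε ∧
      ∀ y, V.v y ≤ 1 → V.v (f.eval x - f.eval y) ≤ ε * V.v (x - y)) ∧
    ∀ (g : Qb[X]) (δ : ℝ), Bd V f ε → Bd V g δ → Bd V (f * g) (ε * δ) ∧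
      Bd V (f + g) (max ε δ) ∧ Bd V (f - g) (max ε δ)

/-- the addition law on first coordinates -/
def S3W_st : Prop := ∀ E : WeierstrassCurve Qb, E.Δ ≠ 0 → ∀ P Q : PW E, ∃ c : Qb, c ≠ 0 ∧
  ∀ i, MvPolynomial.eval (P.sym2x Q) (E.addSubMap i) = c * (P + Q).sym2x (P - Q) i

/-- the chordal distance -/
def PARW_st : Prop := ∀ (V : Plc) (E : WeierstrassCurve Qb), Gw V E →
  (∀ P : PW E, P ≠ 0 → zs V P ^ 2 * max 1 (V.v (xw P)) = 1) ∧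
  (∀ P : PW E, ∃ u v, Nr V P u v) ∧ (∀ (P : PW E) u v, Nr V P u v → V.v v = zs V P ^ 2) ∧
  (∀ P Q : PW E, ¬ E1 V.v P → ¬ E1 V.v Q → V.v (xw P - xw Q) = zs V (P + Q) * zs V (P - Q)) ∧
  ∀ (P Q : PW E) u₁ v₁ u₂ v₂, Nr V P u₁ v₁ → Nr V Q u₂ v₂ →
    V.v (u₁ * v₂ - u₂ * v₁) = zs V (P + Q) * zs V (P - Q) ∧ ∀ (R : PW E) u₃ v₃, Nr V R u₃ v₃ →
      V.v (s3 E.b₂ E.b₄ E.b₆ E.b₈ u₁ v₁ u₂ v₂ u₃ v₃) = z4 V P Q R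

/-- generic points -/
def PIK_st : Prop := ∀ V : Plc,
  (∀ E : WeierstrassCurve Qb, Gw V E → V.v 2 = 1 → ∀ F : Finset (PW E),
    ∃ Q : PW E, ¬ E1 V.v Q ∧ ¬ E1 V.v (2 • Q) ∧ ∀ P ∈ F, ¬ E1 V.v (Q - P)) ∧
  (¬ Ov V 3 →
    (∀ P ∈ TT V, P ≠ 0 → V.v (xc P) ≤ 1 ∧
      ∀ Q ∈ TT V, Q ≠ 0 → P ≠ Q → P ≠ -Q → V.v (xc P - xc Q) = 1) ∧
    (∀ (B : Set Pt) (n : ℕ), B.Finite → ∃ X : Finset Pt, n < X.card ∧
      ∀ P ∈ X, P ∈ TT V ∧ P ∉ B ∧ P ≠ 0 ∧ ∀ Q ∈ X, P ≠ Q → P ≠ -Q) ∧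
    ∀ g : Zw, g ≠ 0 → ∃ A B : Qb[X], W.Rep g A B ∧ Bd V A 1 ∧ Bd V B 1 ∧
      ∀ P : Pt, ¬ E1 V.v P → Nr (E := EQ) V (g • P) (A.eval (xc P)) (B.eval (xc P)))

/-- congruent points -/
def GHA_st : Prop := ∀ (V : Plc) (E E' : WeierstrassCurve Qb) (e : ℕ) (s : ℝ), Gw V E → Gw V E' →
  V.v 2 = 1 → Ph V e s → Cw V e s E E' →
  (∀ (P : PW E) (P' : PW E'), Cp V e s P P' → Cp V e s (-P) (-P') ∧
    (¬ E1 V.v (2 • P) → ¬ E1 V.v (2 • P'))) ∧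
  (∀ (P Q : PW E) (P' Q' : PW E'), Cp V e s P P' → Cp V e s Q Q' →
    max (V.v (xw P' - xw Q')) s = max (V.v (xw P - xw Q) ^ e) s ∧
    (V.v (xw P - xw Q) = 1 → Cp V e s (P + Q) (P' + Q'))) ∧
  ∀ Q : PW E, ¬ E1 V.v Q → ¬ E1 V.v (2 • Q) → ∃ Q' : PW E', Cp V e s Q Q'

/-- approximate homomorphisms exist -/
def GH_st : Prop := ∀ (V : Plc) (E E' : WeierstrassCurve Qb) (e : ℕ) (s : ℝ), Gw V E → Gw V E' →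
  V.v 2 = 1 → Ph V e s → Cw V e s E E' → ∃ D : AddSubgroup (PW E × PW E'), Ap V e s D

/-! ### Quotient curves -/

/-- the product formula -/
def VPF_st : Prop := ∀ (C : AddSubgroup Pt) (P Q : Pt), (C : Set Pt).Finite → P ∉ C → Q ∉ C →
  ∏ c ∈ els C, (xc P - xc (Q + c)) = (sX C P - sX C Q) * kk C (xc P)

/-- the quotient curve -/
def VEL0_st : Prop := ∀ C : AddSubgroup Pt, (C : Set Pt).Finite →
  ∃ (E : WeierstrassCurve Qb) (φ : Pt →+ PW E) (r : Qb), E.Δ ≠ 0 ∧ Function.Surjective φ ∧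
    (∀ P, φ P = 0 ↔ P ∈ C) ∧ ∀ P, P ∉ C → xw (φ P) = sX C P + r

/-- torsion points on the normal form -/
def DEU1_st : Prop := ∀ (a c : Qb) (S R : PW ⟨a, 0, c, 0, 0⟩),
  (⟨a, 0, c, 0, 0⟩ : WeierstrassCurve Qb).Δ ≠ 0 → 9 • R = 0 → 3 • S = 0 → 3 • R ≠ 0 → S ≠ 0 →
  S + 3 • R ≠ 0 → S - 3 • R ≠ 0 → xw (3 • R) = 0 → yw (3 • R) = 0 →
  xw S + xw (S + 3 • R) + xw (S - 3 • R) = -a ^ 2 / 3 ∧
  xw S * xw (S + 3 • R) + xw S * xw (S - 3 • R) + xw (S + 3 • R) * xw (S - 3 • R) = a * c ∧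
  xw S * xw (S + 3 • R) * xw (S - 3 • R) = -c ^ 2 ∧
  ∀ N D : Qb, N = 3 * (xw R + xw (R + 3 • R) + xw (R - 3 • R)) + a ^ 2 → D = a ^ 3 - 27 * c →
    N ^ 3 - 3 * a ^ 2 * N ^ 2 + 3 * a * D * N - D ^ 2 = 0

/-- the normal form -/
def DEU_st : Prop := ∀ (E : WeierstrassCurve Qb) (S R : PW E) (x y z u : Qb), E.Δ ≠ 0 →
  9 • R = 0 → 3 • S = 0 → 3 • R ≠ 0 → S ≠ 0 → S + 3 • R ≠ 0 → S - 3 • R ≠ 0 →
  x = xw S - xw (3 • R) → y = xw (S + 3 • R) - xw (3 • R) → z = xw (S - 3 • R) - xw (3 • R) →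
  u = (xw R - xw (3 • R)) + (xw (R + 3 • R) - xw (3 • R)) + (xw (R - 3 • R) - xw (3 • R)) →
  Rl (-x / (9 * y * z)) x y z u (fp x y z u) ∧ ∃ Ψ : PW E ≃+ PW (Wd (fp x y z u)),
    (∀ P, P ≠ 0 → xw (Ψ P) = -x / (9 * y * z) * (xw P - xw (3 • R))) ∧ yw (Ψ (3 • R)) = 0

/-- the quotient map exists -/
def VEL_st : Prop := (∀ P : Pt, P ≠ 0 → da P ^ 3 - 27 * dc P = (da P - 1) ^ 3 ∧
    (Wd P).Δ = dc P ^ 3 * (da P - 1) ^ 3) ∧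
  ∀ d : Lv, d.Ok → Rl d.ka d.x1 d.x2 d.x3 d.x4 d.pt ∧ ∃ φ, Vl d φ

/-- the size of the sums -/
def VUN_st : Prop := ∀ C : AddSubgroup Pt,
  ((C : Set Pt).Finite → ∀ P, sX C (-P) = sX C P ∧ ∀ c ∈ C, sX C (P + c) = sX C P) ∧
  ∀ V : Plc, Fg V C → ∀ P,
    (9 • P ∈ C → P ∉ C → Fr V C P) ∧ (C ≤ TT V → P ∈ TT V → P ∉ C → Fr V C P) ∧
    (E1 V.v P → P ≠ 0 → V.v (sX C P) = V.v (xc P)) ∧
    (Fr V C P → P ∉ C ∧ V.v (sX C P) ≤ 1 ∧ V.v (kk C (xc P)) = 1 ∧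
      (∀ e : Pt, E1 V.v e → Fr V C (P + e) ∧ V.v (sX C (P + e) - sX C P) < 1) ∧
      ∀ Q, Fr V C Q → Fr V C (P - Q) → Fr V C (P + Q) → V.v (sX C P - sX C Q) = 1)

/-- good reduction of the quotient -/
def VGR_st : Prop := ∀ (V : Plc) (d : Lv), d.Gd V →
  V.v d.x1 = 1 ∧ V.v d.x2 = 1 ∧ V.v d.x3 = 1 ∧ V.v d.ka = 1 ∧ V.v d.x4 ≤ 1 ∧
  V.v (d.x1 + d.x2 + d.x3 - d.x4) = 1 ∧ ¬ E1 V.v d.pt ∧ V.v (xc d.pt) = 1 ∧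
  V.v (da d.pt - 1) = 1 ∧ Gw V (Wd d.pt) ∧ ∀ φ, Vl d φ →
    (∀ P, E1 V.v (φ P) ↔ ∃ c ∈ d.C, E1 V.v (P - c)) ∧
    ∀ P : Pt, E1 V.v P → V.v (zz (φ P)) = V.v (zz P)

/-- the dependence on the two points -/
def DEP_st : Prop := ∀ (d : Lv) (S' R' : Pt) (u : ℤ), d.Ok → (S' - d.S ∈ d.C ∨ S' + d.S ∈ d.C) →
  ¬ 3 ∣ u → R' - u • d.R ∈ d.C → Lv.Ok ⟨d.C, S', R'⟩ ∧ Lv.pt ⟨d.C, S', R'⟩ = d.pt

/-- complex multiplication -/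
def SCL_st : Prop := ∀ (d : Lv) (g : Zw) (S' R' : Pt), d.Ok → g ≠ 0 → g • S' = d.S →
  g • R' = d.R → Lv.Ok ⟨qC g d.C, S', R'⟩ ∧ Lv.pt ⟨qC g d.C, S', R'⟩ = d.pt

/-- congruent abscissae give congruent points -/
def CGP_st : Prop := ∀ (V : Plc) (d d' : Lv) (u : Qb), d.Gd V → d'.Gd V → V.v u = 1 →
  V.v (d.x1 - u * d'.x1) < 1 → V.v (d.x2 - u * d'.x2) < 1 → V.v (d.x3 - u * d'.x3) < 1 →
  V.v (d.x4 - u * d'.x4) < 1 → E1 V.v (d.pt - d'.pt)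

/-- the quotient map in terms of polynomials -/
def REPA_st : Prop := ∀ (V : Plc) (d : Lv) (φ : Pt →+ PW (Wd d.pt)), d.Gd V → Vl d φ →
  ∃ A B : Qb[X], A.natDegree ≤ cd d.C ∧ B.natDegree ≤ cd d.C ∧ V.v (A.coeff (cd d.C)) = 1 ∧
    B.coeff (cd d.C) = 0 ∧ Bd V A 1 ∧ Bd V B 1 ∧
    (∀ x, max (V.v (A.eval x)) (V.v (B.eval x)) = max 1 (V.v x) ^ cd d.C) ∧
    ∀ P : Pt, P ≠ 0 → ∃ c : Qb, c ≠ 0 ∧ (φ P).xRep = c • ![A.eval (xc P), B.eval (xc P)]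

/-- its composition with a multiplication -/
def REPS_st : Prop := ∀ (V : Plc) (d : Lv) (φ : Pt →+ PW (Wd d.pt)) (g : Zw), d.Gd V → Vl d φ →
  ∃ A B : Qb[X], A.natDegree ≤ cd d.C * nn g ∧ B.natDegree ≤ cd d.C * nn g ∧ Bd V A 1 ∧
    Bd V B 1 ∧ ∀ P : Pt, ¬ E1 V.v P → Nr V (φ (g • P)) (A.eval (xc P)) (B.eval (xc P))

/-- congruent points give congruent curves -/
def DXE_st : Prop := ∀ V : Plc,
  (∀ (d d' : Lv) (s : ℝ), d.Gd V → d'.Gd V → V.v 2 = 1 → s < 1 → zs V (d.pt - d'.pt) ≤ s →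
    V.v (xc d'.pt - xc d.pt) ≤ s ∧ V.v (yc d'.pt - yc d.pt) ≤ s ∧
      ∃ D : AddSubgroup (PW (Wd d.pt) × PW (Wd d'.pt)), Ap V 1 s D) ∧
  ∀ σ, Iq V σ → V.v 2 = 1 ∧
    ∃ F : AddSubgroup (Pt × Pt), Ap (E := EQ) (E' := EQ) V V.l (V.v V.l) F

/-! ### Inert places -/

/-- the action of a Frobenius element -/
structure Sg (V : Plc) (σ : GQ) : Prop where
  n3 : ¬ Ov V 3
  nk : σ ∉ GK
  dec : ∀ x, V.v (σ x) = V.v x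
  fr : ∀ x, V.v x ≤ 1 → V.v (σ x - x ^ V.l) < 1
  ov : ∀ b, Ov V b ↔ (V.l : Zw) ∣ b
  pr : Prime (V.l : Zw)
  q0 : 0 < V.v V.l
  q1 : V.v V.l < 1
  vs : ∀ b, V.v (W.io (star b)) = V.v (W.io b)
  vb : ∀ b, b ≠ 0 → V.v (W.io b) = V.v V.l ^ ((nn b).factorization V.l / 2)
  dv : ∀ (b : Zw) (m : ℕ), (V.l : Zw) ^ m ∣ b ↔ V.v (W.io b) ≤ V.v V.l ^ m
  val : ∀ x, x ≠ 0 → Fix V.D x → ∃ m : ℤ, V.v x = V.v V.l ^ m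
  tt : ∀ P ∈ TT V, gal σ P ∈ TT V ∧ gal σ (gal σ P) = -((V.l : Zw) • P)
  bt : ∀ a b, ∀ P ∈ TT V, be σ a b P ∈ TT V
  bs : ∀ a b j P, be σ a b (j • P) = be σ (a * j) (b * star j) P
  sb : ∀ a b j P, j • be σ a b P = be σ (j * a) (j * b) P
  bb : ∀ a b a' b', ∀ P ∈ TT V,
    be σ a' b' (be σ a b P) = be σ (a' * a - V.l * b' * star b) (a' * b + b' * star a) P
  nm : ∀ a b a' b', nq V (a' * a - V.l * b' * star b) (a' * b + b' * star a) =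
    nq V a' b' * nq V a b
  ad : ∀ a b, ∀ P ∈ TT V, be σ (star a) (-b) (be σ a b P) = (nq V a b : Zw) • P ∧
    be σ a b (be σ (star a) (-b) P) = (nq V a b : Zw) • P
  on : ∀ a b, Ov V (nq V a b) ↔ Ov V a
  su : ∀ a b, ¬ Ov V a → ∀ Q ∈ TT V, ∃ P ∈ TT V, be σ a b P = Q
  cd : ∀ C : AddSubgroup Pt, (C : Set Pt).Finite → C ≤ TT V → ¬ Ov V (cd C)
  rat : ∀ N : Zw, ¬ Ov V N → ∀ g ∈ V.D,
    ∃ u : ℤ, IsCoprime (u : Zw) N ∧ ∀ P : Pt, N • P = 0 → gal g P = u • P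

/-- the action of a Frobenius element -/
def SIG_st : Prop := ∀ V σ, Y.In V σ → Sg V σ

/-- the order of the kernel -/
def KER0_st : Prop := ∀ V σ (a b : Zw), Y.In V σ → ¬ Ov V a →
  (pb V σ a b ⊥ : Set Pt).Finite ∧ cd (pb V σ a b ⊥) = nq V a b

/-- the order of a preimage, and sums over it -/
def KERN_st : Prop := ∀ V σ (a b : Zw) (C : AddSubgroup Pt), Y.In V σ → ¬ Ov V a →
  (C : Set Pt).Finite → C ≤ TT V →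
  (pb V σ a b C : Set Pt).Finite ∧ cd (pb V σ a b C) = nq V a b * cd C ∧
  ∀ p : Pt → Pt, (∀ c ∈ C, p c ∈ TT V ∧ be σ a b (p c) = c) →
    ∀ P, sX (pb V σ a b C) P = ∑ c ∈ els C, sX (pb V σ a b ⊥) (P + p c)

/-- isomorphisms of level structures -/
def ISA_st : Prop := ∀ V σ, Y.In V σ → ∀ (d d' : Lv) (a b k : Zw),
  Iso V σ d d 1 0 1 ∧ (Iso V σ d d' a b k → Iso V σ d d' (-a) (-b) k) ∧
  (∀ j, j ≠ 0 → (Iso V σ d d' a b k ↔ Iso V σ d d' (a * j) (b * star j) (k * j))) ∧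
  (d.Tm V → d'.Tm V → ¬ Ov V k → Iso V σ d d' a b k →
    ¬ Ov V a ∧ (∀ P ∈ TT V, be σ a b P ∈ d'.C → k • P ∈ d.C) ∧
    ∀ m : Zw, star k = k → (∀ c ∈ d'.C, m • c = 0) → k ∣ a * (pw * m) ∧ k ∣ b * (pw * m))

/-- composition and preimages -/
def ISB_st : Prop := ∀ V σ, Y.In V σ →
  (∀ (d d' d'' : Lv) (a b k a' b' k' : Zw), d.Tm V → d'.Tm V → d''.Tm V → ¬ Ov V k → ¬ Ov V k' →
    Iso V σ d d'' a b k → Iso V σ d' d'' a' b' k' →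
    Iso V σ d d' (k' * (star a' * a + V.l * b' * star b)) (k' * (star a' * b - b' * star a))
      (nq V a' b' * k)) ∧
  ∀ (d' : Lv) (a b : Zw), d'.Tm V → ¬ Ov V a → ∃ d : Lv, d.Tm V ∧ Iso V σ d d' a b 1

/-- automorphisms -/
def UNQ_st : Prop := ∀ V σ (d : Lv) (a b : Zw) (k : ℕ), Y.In V σ → d.Tm V → ¬ Ov V k →
  Iso V σ d d a b k → b = 0 ∧ (a = k ∨ a = -k)

/-- uniqueness -/
def UNR_st : Prop := ∀ V σ (d d' : Lv) (a b k a' b' k' : Zw), Y.In V σ → d.Tm V → d'.Tm V →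
  ¬ Ov V k → ¬ Ov V k' → Iso V σ d d' a b k → Iso V σ d d' a' b' k' →
  (a' * k = a * k' ∧ b' * star k = b * star k') ∨
    (a' * k = -(a * k') ∧ b' * star k = -(b * star k'))

/-- the points killed by the prime -/
def TAU_st : Prop := ∀ V σ, Iq V σ → ∃ T : Pt, (V.l : Zw) • T = 0 ∧ T ≠ 0 ∧ E1 V.v T ∧
  V.v (zz T) ^ (V.l ^ 2 - 1) = V.v V.l ∧ ∀ X : Pt, E1 V.v X → V.v (zz X) < V.v (zz T) →
    V.v (zz ((V.l : Zw) • X)) = V.v V.l * V.v (zz X)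

/-- the pigeonhole principle -/
def PGH_st : Prop := ∀ c q : ℕ, q.Prime → ∃ N : ℕ, ¬ q ∣ N ∧ ∀ (A : Type) [AddCommGroup A]
  (f : Zw × Zw × Zw →+ A) (Y : Finset A), Y.card ≤ N ^ 4 → (∀ x, f x ∈ Y) →
  ∃ x, x ≠ 0 ∧ f x = 0 ∧ c * (nn x.1 + nn x.2.1 + nn x.2.2 + 1) < N ^ 2

section cx

/-- a relation on torsion points -/
def HO0_st : Prop := ∀ V σ d d' φ φ' s D F, Cx V σ d d' φ φ' s D F → ∀ c : ℕ,
  ∃ (N : ℕ) (a b k : Zw), ¬ Ov V N ∧ (a, b, k) ≠ 0 ∧ c * (nn a + nn b + nn k + 1) < N ^ 2 ∧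
    ∀ P P₃ : Pt, (N : Zw) • P = 0 → (φ (k • P), φ' P₃) ∈ D → E1 V.v (φ' (be σ a b P - P₃))

/-- a relation up to signs -/
def HO1_st : Prop := ∀ V σ d d' φ φ' s D F, Cx V σ d d' φ φ' s D F →
  ∃ (a b k : Zw) (t : ℝ), (a, b, k) ≠ 0 ∧ t < 1 ∧ ∀ P P₁ P₃ : Pt, ¬ E1 V.v P →
    (k = 0 ∨ ¬ E1 V.v (φ (k • P))) → (P, P₁) ∈ F → (φ (k • P), φ' P₃) ∈ D →
    z4 V (φ' (a • P)) (φ' (b • P₁)) (φ' P₃) ≤ t

/-- a relation -/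
def HO2_st : Prop := ∀ V σ d d' φ φ' s D F, Cx V σ d d' φ φ' s D F →
  ∃ (a b k : Zw) (t : ℝ), (a, b, k) ≠ 0 ∧ t < 1 ∧ Hm V φ φ' D F t a b k

/-- contraction -/
def CT1_st : Prop := ∀ V σ d d' φ φ' s D F, Cx V σ d d' φ φ' s D F → ∀ (a b k : Zw) (t : ℝ),
  t < 1 → Hm V φ φ' D F t a b k → Hm V φ φ' D F (max s (V.v V.l * V.v (W.io b))) a b k

/-- the test on points killed by the prime -/
def CT2_st : Prop := ∀ V σ d d' φ φ' s D F, Cx V σ d d' φ φ' s D F → ∀ (a b k : Zw) (t : ℝ),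
  t < 1 → (a, b, k) ≠ 0 → Hm V φ φ' D F t a b k → ∃ (a' b' k' : Zw) (t' : ℝ), t' < 1 ∧
    Hm V φ φ' D F t' a' b' k' ∧ ¬ Ov V k' ∧ ¬ Ov V a' ∧
    (b' = 0 ∨ V.v (W.io b') * V.v V.l ^ 2 < s)

/-- the level structures match -/
def MAT_st : Prop := ∀ V σ d d' φ φ' s D F, Cx V σ d d' φ φ' s D F → ∀ (a b k : Zw) (t : ℝ),
  t < 1 → Hm V φ φ' D F t a b k → ¬ Ov V k → ¬ Ov V a → Iso V σ d d' a b k

end cx

/-- congruent points come from isomorphisms -/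
def UB_st : Prop := ∀ V σ (d d' : Lv) (s : ℝ), Iq V σ → d.Tm V → d'.Tm V → s ≤ V.v V.l →
  zs V (d.pt - d'.pt) ≤ s → ∃ a b k : Zw, ¬ Ov V k ∧ Iso V σ d d' a b k ∧
    (b = 0 ∨ V.v (W.io b) * V.v V.l ^ 2 < s)

/-- the polynomial that vanishes on the fibres -/
def EG1_st : Prop := ∀ V σ (a b : Zw), Y.In V σ → a ≠ 0 → b ≠ 0 → ∃ E₀ E₁ E₂ : Qb[X],
  Bd V E₀ 1 ∧ Bd V E₁ 1 ∧ Bd V E₂ 1 ∧
  (∀ v, (E₀ - C v * E₁ + C (v ^ 2) * E₂).Monic ∧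
    (E₀ - C v * E₁ + C (v ^ 2) * E₂).natDegree = 2 * nq V a b) ∧
  ∀ P ∈ TT V, P ≠ 0 → (be σ a (-b) P = 0 → V.v (E₂.eval (xc P)) < 1) ∧
    ∀ Q ∈ TT V, Q ≠ 0 → (be σ a b P = Q ∨ be σ a (-b) P = Q) →
      V.v ((E₀ - C (xc Q) * E₁ + C (xc Q ^ 2) * E₂).eval (xc P)) < 1

/-- the quotient by the kernel, at generic points -/
def EXG_st : Prop := ∀ V σ (a b : Zw), Iq V σ → ¬ Ov V a → b ≠ 0 → ∃ (u r : Qb) (B : Set Pt),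
  B.Finite ∧ V.v u = 1 ∧ V.v r ≤ 1 ∧ ∀ P ∈ TT V, P ∉ B →
    V.v (sX (pb V σ a b ⊥) P - (u * xc (be σ a b P) + r)) < 1

/-- extension to all points -/
def EXT_st : Prop := ∀ (V : Plc) (K : AddSubgroup Pt) (β : Pt →+ Pt) (u r : Qb) (B : Set Pt),
  ¬ Ov V 3 → V.v 2 = 1 → (K : Set Pt).Finite → K ≤ TT V →
  (∀ P ∈ TT V, β P ∈ TT V ∧ (β P = 0 ↔ P ∈ K)) → B.Finite → V.v u = 1 → V.v r ≤ 1 →
  (∀ P ∈ TT V, P ∉ B → V.v (sX K P - (u * xc (β P) + r)) < 1) →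
  ∀ P ∈ TT V, P ∉ K → V.v (sX K P - (u * xc (β P) + r)) < 1

/-- isomorphic structures give congruent points -/
def EX_st : Prop := ∀ V σ (d d' : Lv) (a b k : Zw), Iq V σ → d.Tm V → d'.Tm V → ¬ Ov V k →
  Iso V σ d d' a b k → E1 V.v (d.pt - d'.pt) ∧ (b = 0 → d.pt = d'.pt)

/-- the points are rational over the completion -/
def RAT_st : Prop := ∀ V σ, Y.In V σ → (∀ d : Lv, d.Tm V → d.pt ∈ Fp V.D) ∧
  ∀ P ∈ Fp V.D, E1 V.v P → P ≠ 0 → ∃ m : ℕ, V.v (zz P) = V.v V.l ^ (m + 1)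

/-- residue classes -/
def RES_st : Prop := ∀ V σ (m : ℕ), Y.In V σ → ∃ Y : Finset Zw, 0 ∈ Y ∧
  (∀ g ∈ Y, ∀ g' ∈ Y, V.v (W.io (g - g')) ≤ V.v V.l ^ m → g = g') ∧
  ∀ x, Fix V.D x → V.v x ≤ 1 → ∃ g ∈ Y, V.v (x - W.io g) ≤ V.v V.l ^ m

/-- the lower bound for the distance -/
def LBA_st : Prop := ∀ V σ (d d' : Lv) (a b k : Zw), Iq V σ → d.Tm V → d'.Tm V → ¬ Ov V k →
  Iso V σ d d' a b k →
  V.v V.l * V.v (W.io b) ≤ zs V (d.pt - d'.pt) ∧ zs V (d.pt - d'.pt) ≤ V.v V.l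

/-- the upper bound for the distance -/
def LBB_st : Prop := ∀ V σ (d d' : Lv) (a b k : Zw), Iq V σ → d.Tm V → d'.Tm V → ¬ Ov V k →
  Iso V σ d d' a b k → zs V (d.pt - d'.pt) ≤ V.v V.l * V.v (W.io b)

/-- the local intersection number -/
def LOC_st : Prop := ∀ V σ (d d' : Lv) (k m : Zw) (n : ℕ), Iq V σ → d.Tm V → d'.Tm V →
  ¬ Ov V k → (∀ c ∈ d'.C, m • c = 0) → pw * m ∣ k → star m = m → cd d.C * nn k = cd d'.C * n →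
  d.pt ≠ d'.pt → max 1 (V.v (xc (d.pt - d'.pt))) * V.v V.l ^ li V σ d d' k n = 1

/-- split places -/
def SPL_st : Prop := ∀ (V : Plc) (d d' : Lv), V.l % 3 = 1 → d.Gd V → d'.Gd V →
  E1 V.v (d.pt - d'.pt) → ∀ b : Zw, b • d.S = 0 → E1 V.v ((b * cd d'.C) • d'.S)

/-! ### Heights -/

/-- the denominator exists -/
def HT_st : Prop := ∀ (U : Subgroup GQ) (X : Finset GQ) (P : Pt), Trv U GK X → P ∈ Fp U →
  Dn X P ≠ 0 ∧ ∀ V : Plc, V.v (W.io (Dn X P)) * ∏ y ∈ X, max 1 (V.v (xc (gal y P))) = 1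

/-- a number is determined by its absolute values -/
def FACT_st : Prop := ∀ (A : Type) [AddCommGroup A] (L : Zw → A) (m D D' : Zw),
  (∀ x y, x ≠ 0 → y ≠ 0 → L (x * y) = L x + L y) → (∀ b, b ∣ m → L b = 0) → m ≠ 0 → D ≠ 0 →
  D' ≠ 0 → (∀ V : Plc, ¬ Ov V m → V.v (W.io D) = V.v (W.io D')) → L D = L D'

/-- the parallelogram law -/
def PAL_st : Prop := ∀ (k : ℕ) (U : Subgroup GQ) (φ : GQ) (X : Finset GQ), Ab U → Lh k U φ →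
  Trv U GK X → (∀ x y, x ≠ 0 → y ≠ 0 → lk k φ (x * y) = lk k φ x + lk k φ y) ∧ ∀ P ∈ Fp U,
    (∀ g ∈ GK, gal g P ∈ Fp U ∧ lk k φ (Dn X (gal g P)) = lk k φ (Dn X P)) ∧
    ∀ Q ∈ Fp U, lk k φ (Dn X (P + Q)) + lk k φ (Dn X (P - Q)) =
      2 * lk k φ (Dn X P) + 2 * lk k φ (Dn X Q)

/-- inertia at the auxiliary prime -/
def NRA_st : Prop := ∀ (r : ℕ) (lam : Zw), Ax r lam → Ab (UL r (nn lam)) ∧
  ∀ (V : Plc) (φ : GQ), Ov V lam → FK V lam φ → (∃ τ ∈ V.I, φ * τ ∈ UL r (nn lam)) ∧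
    ∃ Y : Finset GQ, Trv (UL r (nn lam)) (UM (N0 r)) Y ∧ (∀ y ∈ Y, y ∈ V.I) ∧
      Y.card = nn lam - 1

/-- the logarithm kills the norms -/
def NRB_st : Prop := ∀ (r k : ℕ) (lam : Zw) (V : Plc) (φ : GQ), Ax r lam →
  Sp (3 ^ (k + 1)) V lam φ → (∀ b, b ∣ 6 → lk k φ b = 0) →
  ∃ φ', Lh k (UL r (nn lam)) φ' ∧ ∀ b, ¬ lam ∣ b → lk k φ' b = lk k φ b

/-- sums of a quadratic form -/
def QSUM_st : Prop := ∀ (k N : ℕ) (M : AddSubgroup Pt) (h : Pt → ZMod (3 ^ k)) (s : Finset Zw)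
  (P : Zw → Pt) (κ : Zw → ZMod 3) (Q : Pt) (h₀ : ZMod (3 ^ k)),
  (∀ P ∈ M, ∀ Q ∈ M, h (P + Q) + h (P - Q) = 2 * h P + 2 * h Q) →
  (∀ t ∈ s, P t ∈ M ∧ h (P t) = h₀) → Q ∈ M → N • ∑ t ∈ s, (ω : Zw) ^ (-κ t).val • P t = 0 →
  N • ∑ t ∈ s, (ω : Zw) ^ (κ t).val • P t = 0 → ∑ t ∈ s, (ω : Zw) ^ (-κ t).val = 0 →
  (3 : Zw) ^ k ∣ 3 * N * ∑ t ∈ s, (ω : Zw) ^ (-κ t).val * (h (P t - Q)).val

/-- sums over prime residue classes -/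
def RSM_st : Prop := ∀ N : ℕ, N ≠ 0 → (Rs N).Nonempty ∧ (∀ t ∈ Rs N, IsCoprime t N) ∧
  ∀ (A : Type) [AddCommMonoid A] (F : Zw → A) (s : Zw), IsCoprime s N →
    (∀ t t' : Zw, IsCoprime t N → (N : Zw) ∣ t - t' → F t = F t') →
    ∑ t ∈ Rs N, F (s * t) = ∑ t ∈ Rs N, F t

/-- the level structures that occur -/
def LVD_st : Prop := ∀ (r : ℕ) (G : Pt) (i j : ℕ), r ≠ 0 → ¬ 3 ∣ r → Gen (9 * r) G →
  (∀ L, ∀ g ∈ GK, (lv r L G i j).mp g = lv r (L.map (gal g)) (gal g G) i j) ∧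
  ((lv r ⊥ G i j).Ok ∧ cd (lv r ⊥ G i j).C = r ∧ ∀ V, ¬ Ov V (3 * r) → (lv r ⊥ G i j).Tm V) ∧
  ∀ (lam : Zw) (H : Pt) (d : Lv), Ax r lam → Gen (nn lam) H →
    d = lv r (AddSubgroup.zmultiples H) G i j → d.Ok ∧ cd d.C = r * nn lam ∧
    (∀ c ∈ d.C, (r * nn lam : Zw) • c = 0) ∧ (¬ 3 ∣ i → (pw * cd d.C) • d.S ≠ 0) ∧
    (3 * (r * nn lam) : Zw) • d.S = 0 ∧
    ∀ V, ¬ Ov V (3 * r) → d.Gd V ∧ (¬ Ov V (nn lam) → d.Tm V)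

/-- the sums over residue classes have finite order -/
def TOR_st : Prop := ∀ (χ : GQ → ZMod 3) (κ : Zw → ZMod 3) (r : ℕ) (e : ZMod 3) (G : Pt),
  Tw χ r → Ch r κ e → Lk χ r κ → Gen (9 * r) G → Tor (hv χ r ⊥ G) →
  Tor (hv (fun g => -χ g) r ⊥ G) →
  (∀ t ∈ Rs (N0 r), ∃ g ∈ GK, hq r ⊥ (t • G) = gal g (hq r ⊥ G)) ∧
  ∑ t ∈ Rs (N0 r), (ω : Zw) ^ (-κ t).val = 0 ∧ ∃ N : ℕ, N ≠ 0 ∧
    N • ∑ t ∈ Rs (N0 r), (ω : Zw) ^ (-κ t).val • hq r ⊥ (t • G) = 0 ∧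
    N • ∑ t ∈ Rs (N0 r), (ω : Zw) ^ (κ t).val • hq r ⊥ (t • G) = 0

/-- the height as a sum of local terms -/
def HFO_st : Prop := ∀ (r i j : ℕ) (lam : Zw) (G G' H : Pt) (d d' : Lv) (Vq : ℕ → Plc)
  (σ : ℕ → GQ) (X : Finset GQ) (A : Type) [AddCommGroup A] (L : Zw → A), Ax r lam →
  Gen (9 * r) G → Gen (9 * r) G' → Gen (nn lam) H → ¬ 3 ∣ i → d = lv r ⊥ G 0 0 →
  d' = lv r (AddSubgroup.zmultiples H) G' i j → Fam Vq σ → Trv (UL r (nn lam)) GK X →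
  (∀ x y, x ≠ 0 → y ≠ 0 → L (x * y) = L x + L y) → (∀ b : Zw, b ∣ 6 * r → L b = 0) →
  d.pt ∈ Fp (UL r (nn lam)) ∧ d'.pt ∈ Fp (UL r (nn lam)) ∧
  L (Dn X (d.pt - d'.pt)) = ∑ q ∈ Qs r (27 * r ^ 2 * nn lam),
    ls X (Vq q) (σ q) d d' (mu r * nn lam) (27 * r ^ 2 * nn lam) • L q

/-- the data for the translation into matrices -/
structure Tx (r : ℕ) (lam : Zw) (V : Plc) (σ : GQ) (G₀ : Pt) (f : Zw) : Prop where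
  ax : Ax r lam
  inr : Y.In V σ
  nr : ¬ V.l ∣ r
  gen : Gen (N0 r * nn lam) G₀
  hf : gal σ G₀ = -(f • G₀)

/-- isomorphisms give matrices -/
def TRA_st : Prop := ∀ r lam V σ G₀ f, Tx r lam V σ G₀ f → N0 r ∣ nn f + V.l ∧
  ∀ (t u a b : Zw) (H : Pt) (i j : ℕ), IsCoprime t (N0 r) → IsCoprime u (N0 r) →
  (nn lam : Zw) • H = 0 → nn a + V.l * nn b = 27 * r ^ 2 * nn lam →
  Iso V σ (lv r ⊥ (t • (9 * r * nn lam : Zw) • G₀) 0 0)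
    (lv r (AddSubgroup.zmultiples H) (u • (9 * r * nn lam : Zw) • G₀) i j) a b (mu r * nn lam) →
  (∀ P : Pt, (nn lam : Zw) • P = 0 → be σ a b P ∈ AddSubgroup.zmultiples H) ∧
    ∃ v, Mx r (star u * a * t) (star u * (b * f) * star t) v ∧ v 0 * v 3 % 3 = 1 ∧
      3 ∣ v 3 * v 1 - i ∧ 3 ∣ v 3 * v 2 - j

/-- matrices give isomorphisms -/
def TRB_st : Prop := ∀ r lam V σ G₀ f, Tx r lam V σ G₀ f → ∀ (t u a b : Zw) (H : Pt) (i j : ℕ)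
  (v : Fin 4 → ℤ), IsCoprime t (N0 r) → IsCoprime u (N0 r) → Gen (nn lam) H →
  nn a + V.l * nn b = 27 * r ^ 2 * nn lam →
  (∀ P : Pt, (nn lam : Zw) • P = 0 → be σ a b P ∈ AddSubgroup.zmultiples H) →
  Mx r (star u * a * t) (star u * (b * f) * star t) v → v 0 * v 3 % 3 = 1 →
  3 ∣ v 3 * v 1 - i → 3 ∣ v 3 * v 2 - j →
  Iso V σ (lv r ⊥ (t • (9 * r * nn lam : Zw) • G₀) 0 0)
    (lv r (AddSubgroup.zmultiples H) (u • (9 * r * nn lam : Zw) • G₀) i j) a b (mu r * nn lam)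

/-- the weights -/
def TR1_st : Prop := ∀ r lam V σ G₀ f, Tx r lam V σ G₀ f → N0 r ∣ nn f + V.l ∧
  ∀ (e : ZMod 3) (t u a b : Zw) (H : Pt), IsCoprime t (N0 r) → IsCoprime u (N0 r) →
    Gen (nn lam) H → nn a + V.l * nn b = 27 * r ^ 2 * nn lam →
    ∑ i ∈ range 3, ∑ j ∈ range 3, (et i : Zw) * (ω : Zw) ^ (e * j).val *
      (if Iso V σ (lv r ⊥ (t • (9 * r * nn lam : Zw) • G₀) 0 0)
        (lv r (AddSubgroup.zmultiples H) (u • (9 * r * nn lam : Zw) • G₀) i j) a b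
        (mu r * nn lam) then 1 else 0) =
    if ∀ P : Pt, (nn lam : Zw) • P = 0 → be σ a b P ∈ AddSubgroup.zmultiples H then
      onM r (wt e) (star u * a * t) (star u * (b * f) * star t) else 0

/-- the lines at the auxiliary prime -/
def TR2_st : Prop := ∀ (r : ℕ) (lam : Zw) V σ (H : Pt) (J : Finset GQ) (a b : Zw), Ax r lam →
  Y.In V σ → Gen (nn lam) H → Trv (UL r (nn lam)) (UM (N0 r)) J →
  nn a + V.l * nn b = 27 * r ^ 2 * nn lam →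
  (J.filter fun y => ∀ P : Pt, (nn lam : Zw) • P = 0 →
    be σ a b P ∈ AddSubgroup.zmultiples (gal y H)).card =
  if ¬ (lam ∣ a ∧ lam ∣ b) ∧ ¬ (star lam ∣ a ∧ star lam ∣ b) then 1 else 0

/-- the sum of the local terms -/
def TRS_st : Prop := ∀ r lam V σ G₀ f, Tx r lam V σ G₀ f → ∀ (κ : Zw → ZMod 3) (e : ZMod 3)
  (H : Pt) (X : Finset GQ), Ch r κ e → Gen (nn lam) H → Trv (UL r (nn lam)) GK X →
  ∑ u ∈ Rs (N0 r), ∑ i ∈ range 3, ∑ j ∈ range 3, ∑ t ∈ Rs (N0 r),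
    (ω : Zw) ^ (κ u).val * (et i * (ω : Zw) ^ (e * j).val) * (ω : Zw) ^ (-κ t).val *
      (ls X V σ (lv r ⊥ (t • (9 * r * nn lam : Zw) • G₀) 0 0)
        (lv r (AddSubgroup.zmultiples H) (u • (9 * r * nn lam : Zw) • G₀) i j) (mu r * nn lam)
        (27 * r ^ 2 * nn lam) : ℕ) =
  ((UM (N0 r)).relIndex GK : ℕ) * ∑ p ∈ (Sol V.l (27 * r ^ 2 * nn lam)).filter
    (fun p => ¬ (lam ∣ p.1 ∧ lam ∣ p.2) ∧ ¬ (star lam ∣ p.1 ∧ star lam ∣ p.2)),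
      (1 + (nn p.2).factorization V.l / 2 : ℕ) * Psi r κ e p.1 (p.2 * f)

end Pool.Agent.MP_e23604_nt.Z.G
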