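import Pool.Agent.MP_e23604_nt.Z.GS

set_option autoImplicit false

open Finset QuadraticAlgebra Polynomial
open scoped Classical

namespace Pool.Agent.MP_e23604_nt.Z.G

open B R S W Un

theorem S3W_pf : S3W_st := fun E h P Q => by
  have : E.IsElliptic := ⟨Ne.isUnit h⟩
  obtain ⟨c, h0, e⟩ := addSub P Q
  exact ⟨c, h0, fun i => congrFun e i⟩

end Pool.Agent.MP_e23604_nt.Z.G
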