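import Pool.Agent.MP_e23604_nt.Z.GS
import Pool.Agent.MP_e23604_nt.Z.CMTL

/-!
Isomorphisms of level structures give matrices.
-/

set_option autoImplicit false

open Finset QuadraticAlgebra Polynomial
open scoped Classical

namespace Pool.Agent.MP_e23604_nt.Z.G

open B R S W Un

theorem cop_TRA {m n : ℕ} (h : IsCoprime (m : Zw) (n : Zw)) : IsCoprime (m : ℤ) (n : ℤ) := by
  obtain ⟨a, b, e⟩ := h
  exact ⟨a.re, b.re, by simpa using congrArg QuadraticAlgebra.re e⟩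

theorem mem_TRA {K : AddSubgroup Pt} {X : Pt} {n l : ℕ} (h : IsCoprime (n : ℤ) (l : ℤ))
    (h1 : n • X ∈ K) (h2 : (l : Zw) • X = 0) : X ∈ K := by
  obtain ⟨a, b, e⟩ := h
  rw [Nat.cast_smul_eq_nsmul] at h2
  have : X = a • n • X + b • l • X := by
    rw [← natCast_zsmul, ← natCast_zsmul, ← mul_smul, ← mul_smul, ← add_smul, e, one_smul]
  rw [this, h2, smul_zero, add_zero]
  exact K.zsmul_mem h1 a

theorem ord_TRA (r : ℕ) (w : Zw) : ∃ m n : ℤ, r * w = m + n * e2 r :=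
  ⟨r * (w.re + w.im), w.im, by
    ext <;> simp [e2] <;> ring⟩

theorem star_N0 (r : ℕ) : star (N0 r : Zw) = N0 r := star_natCast _

theorem N0_cast (r : ℕ) : (N0 r : Zw) = 81 * r ^ 2 := by simp [N0]

section

variable {r : ℕ} {lam : Zw}

theorem Ax.l3 (h : Ax r lam) : nn lam % 3 = 1 := nn_mod3 h.pp.2.pw

theorem Ax.l0 (h : Ax r lam) : (nn lam : Zw) ≠ 0 := Nat.cast_ne_zero.2 h.deg.ne_zero

theorem Ax.cop (h : Ax r lam) : IsCoprime (r : ℤ) (nn lam : ℤ) := by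
  refine Nat.isCoprime_iff_coprime.2 ((Nat.Prime.coprime_iff_not_dvd h.deg).2 fun e => ?_).symm
  have := Nat.le_of_dvd (Nat.pos_of_ne_zero h.r0) e
  have := h.big
  nlinarith

theorem Ax.cop3 (h : Ax r lam) : IsCoprime (3 : ℤ) (nn lam : ℤ) :=
  ⟨-(nn lam / 3 : ℕ), 1, by have := h.l3; omega⟩

theorem Ax.copN (h : Ax r lam) : IsCoprime (N0 r : ℤ) (nn lam : ℤ) := by
  rw [N0, show ((81 * r ^ 2 : ℕ) : ℤ) = 3 ^ 4 * r ^ 2 by push_cast; ring]
  exact h.cop3.pow_left.mul_left h.cop.pow_left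

theorem nn3_TRA {u : Zw} (h : IsCoprime u (N0 r)) : nn u % 3 = 1 :=
  nn_mod3 fun e => pw_prime.not_isUnit (h.isUnit_of_dvd' e (by
    rw [N0_cast]; exact (pw_dvd3.trans ⟨27, by norm_num⟩).mul_right _))

theorem cst_TRA {u : Zw} (h : IsCoprime u (N0 r)) : IsCoprime (star u) (N0 r) := by
  obtain ⟨a, b, e⟩ := h
  exact ⟨star a, star b, by
    rw [← star_N0, ← star_mul', ← star_mul', ← star_add, e, star_one]⟩

variable {V : Plc} {σ : GQ} {G₀ : Pt} {f : Zw}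

theorem be_TRA (hS : Sg V σ) (h : Tx r lam V σ G₀ f) (a b x : Zw) :
    be σ a b (x • G₀) = (a * x - b * star x * f) • G₀ := by
  rw [be_apply, gal_star hS.nk, h.hf]
  module

theorem nf_TRA (hS : Sg V σ) (h : Tx r lam V σ G₀ f) : N0 r ∣ nn f + V.l := by
  have hl := V.hl.out
  have h3 := h.inr.l3
  have c : IsCoprime (V.l : ℤ) ((N0 r * nn lam : ℕ) : ℤ) := by
    refine Nat.isCoprime_iff_coprime.2 ((Nat.Prime.coprime_iff_not_dvd hl).2 fun e => ?_)
    rcases hl.dvd_mul.1 e with e | e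
    · rcases hl.dvd_mul.1 e with e | e
      · have := (Nat.prime_dvd_prime_iff_eq hl Nat.prime_three).1
          (hl.dvd_of_dvd_pow (show V.l ∣ 3 ^ 4 from e))
        omega
      · exact h.nr (hl.dvd_of_dvd_pow e)
    · have := (Nat.prime_dvd_prime_iff_eq hl h.ax.deg).1 e
      have := h.ax.l3
      omega
  have t : G₀ ∈ TT V := ⟨N0 r * nn lam, (Ov_l V).cop (by
    simpa using c.map (Int.castRingHom Zw)), h.gen.zero⟩
  have e := (hS.tt G₀ t).2
  rw [h.hf, map_neg, gal_star hS.nk, h.hf, smul_neg, neg_neg, ← mul_smul, ← neg_smul,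
    h.gen.congr, mul_comm (star f), mul_star_nn, sub_neg_eq_add] at e
  obtain ⟨z, e⟩ := (dvd_mul_right _ _).trans e
  have := congrArg QuadraticAlgebra.re e
  refine Int.natCast_dvd_natCast.1 ⟨z.re, ?_⟩
  simpa using this

theorem det_TRA (hS : Sg V σ) (h : Tx r lam V σ G₀ f) {t u a b : Zw} {v : Fin 4 → ℤ}
    (ht : IsCoprime t (N0 r)) (hu : IsCoprime u (N0 r))
    (hn : nn a + V.l * nn b = 27 * r ^ 2 * nn lam)
    (hv : Mx r (star u * a * t) (star u * (b * f) * star t) v) : v 0 * v 3 % 3 = 1 := by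
  have e := (MTL_pf r h.ax.r0).2.2.1 _ _ _ hv
  obtain ⟨c, hc⟩ := nf_TRA hS h
  simp only [← nn_cast, nn_mul, nn_star] at e
  have hn' : (nn a : ℤ) + V.l * nn b = 27 * r ^ 2 * nn lam := by exact_mod_cast hn
  have hc' : (nn f : ℤ) + V.l = 81 * r ^ 2 * c := by rw [N0] at hc; exact_mod_cast hc
  have r0 : (27 * r ^ 2 : ℤ) ≠ 0 := by have := h.ax.r0; positivity
  have k : v 0 * v 3 - 3 * v 1 * v 2 = nn u * nn t * (nn lam - 3 * c * nn b) := by
    refine mul_left_cancel₀ r0 ?_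
    push_cast at e
    linear_combination -e + nn u * nn t * hn' - nn u * nn t * nn b * hc'
  obtain ⟨x, hx⟩ : ∃ x : ℤ, (nn u : ℤ) = 3 * x + 1 := ⟨nn u / 3, by have := nn3_TRA hu; omega⟩
  obtain ⟨y, hy⟩ : ∃ y : ℤ, (nn t : ℤ) = 3 * y + 1 := ⟨nn t / 3, by have := nn3_TRA ht; omega⟩
  obtain ⟨z, hz⟩ : ∃ z : ℤ, (nn lam : ℤ) = 3 * z + 1 := ⟨nn lam / 3, by have := h.ax.l3; omega⟩
  have : v 0 * v 3 = 1 + 3 * (v 1 * v 2 + (3 * x * y + x + y) * (nn lam - 3 * c * nn b) +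
      z - c * nn b) := by
    rw [hx, hy] at k
    linear_combination k + hz
  omega

theorem co_TRA (h : Tx r lam V σ G₀ f) {u x : Zw} {H : Pt} {i j : ℕ} (hH : (nn lam : Zw) • H = 0)
    (e : x • G₀ ∈ (lv r (AddSubgroup.zmultiples H) (u • (9 * r * nn lam : Zw) • G₀) i j).C) :
    ∃ m n : ℤ, star u * x = 81 * r * (m + n * e2 r) := by
  obtain ⟨_, ⟨m, rfl⟩, _, ⟨n, rfl⟩, e⟩ := AddSubgroup.mem_sup.1 e
  have k : (nn lam * x) • G₀ = (nn lam * (m * 81 * r * nn lam * u) : Zw) • G₀ := by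
    rw [mul_smul, ← e, smul_add, smul_comm (nn lam : Zw) n, hH, smul_zero, add_zero]
    dsimp only
    rw [← Int.cast_smul_eq_zsmul Zw]
    module
  rw [h.gen.congr, ← mul_sub, mul_comm, mul_dvd_mul_iff_left h.ax.l0, N0_cast] at k
  obtain ⟨z, k⟩ := k
  obtain ⟨m', n', e'⟩ := ord_TRA r (star u * z)
  refine ⟨m * nn lam * nn u + m', n', ?_⟩
  push_cast
  linear_combination star u * k + 81 * r * e' + m * 81 * r * nn lam * mul_star_nn u

theorem p1_TRA (t y : Zw) : (mu r * nn lam) • (-pw * t * y) • G₀ =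
    y • t • (9 * r * nn lam : Zw) • G₀ := by
  simp only [← mul_smul, mu]
  congr 1
  linear_combination -3 * r * nn lam * t * y * pw_sq

/-- isomorphisms give matrices -/
theorem TRA_of (hS : Sg V σ) (h : Tx r lam V σ G₀ f) {t u a b : Zw} {H : Pt} {i j : ℕ}
    (ht : IsCoprime t (N0 r)) (hu : IsCoprime u (N0 r)) (hH : (nn lam : Zw) • H = 0)
    (hn : nn a + V.l * nn b = 27 * r ^ 2 * nn lam)
    (hI : Iso V σ (lv r ⊥ (t • (9 * r * nn lam : Zw) • G₀) 0 0)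
      (lv r (AddSubgroup.zmultiples H) (u • (9 * r * nn lam : Zw) • G₀) i j) a b (mu r * nn lam)) :
    (∀ P : Pt, (nn lam : Zw) • P = 0 → be σ a b P ∈ AddSubgroup.zmultiples H) ∧
    ∃ v, Mx r (star u * a * t) (star u * (b * f) * star t) v ∧
      3 ∣ v 3 * v 1 - i ∧ 3 ∣ v 3 * v 2 - j := by
  refine ⟨fun P hP => ?_, ?_⟩
  · obtain ⟨_, ⟨m, rfl⟩, z, hz, e⟩ := AddSubgroup.mem_sup.1
      (hI.ker P (by rw [mul_smul (mu r), hP, smul_zero]; exact zero_mem _))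
    refine mem_TRA h.ax.cop ?_ (by
      rw [Nat.cast_smul_eq_nsmul, ← map_nsmul, ← Nat.cast_smul_eq_nsmul Zw, hP, map_zero])
    have : r • m • (9 : Zw) • u • (9 * r * nn lam : Zw) • G₀ = 0 := by
      rw [← Int.cast_smul_eq_zsmul Zw, ← Nat.cast_smul_eq_nsmul Zw]
      simp only [← mul_smul]
      exact (h.gen _).2 ⟨m * u, by rw [N0_cast]; ring⟩
    rw [← e, smul_add, this, zero_add]
    exact nsmul_mem hz r
  obtain ⟨c, -, hR⟩ := hI.hR
  have e1 := hR ((-pw * t * 1) • G₀) (by rw [p1_TRA]; simp [lv])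
  obtain ⟨s, hs, e2'⟩ : ∃ s : ℤ, s * s = 1 ∧ be σ a b ((-pw * t * (3 * e2 r)) • G₀) -
      s • (lv r (AddSubgroup.zmultiples H) (u • (9 * r * nn lam : Zw) • G₀) i j).S ∈
      (lv r (AddSubgroup.zmultiples H) (u • (9 * r * nn lam : Zw) • G₀) i j).C := by
    rcases hI.hS ((-pw * t * (3 * e2 r)) • G₀) (by rw [p1_TRA]; simp [lv]) with k | k
    exacts [⟨1, rfl, by rwa [one_smul]⟩, ⟨-1, rfl, by rwa [neg_smul, one_smul, sub_neg_eq_add]⟩]
  rw [be_TRA hS h] at e1 e2'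
  obtain ⟨m, n, k⟩ := co_TRA h (x := a * (-pw * t * 1) - b * star (-pw * t * 1) * f -
    c * (1 + j * (3 * e2 r)) * u * (9 * r * nn lam)) hH (by
      convert e1 using 1
      simp only [lv]
      rw [← Int.cast_smul_eq_zsmul Zw, ← Nat.cast_smul_eq_nsmul Zw]
      module)
  obtain ⟨m', n', k'⟩ := co_TRA h (x := a * (-pw * t * (3 * e2 r)) -
    b * star (-pw * t * (3 * e2 r)) * f - s * (3 * e2 r + i * 3) * u * (9 * r * nn lam)) hH (by
      convert e2' using 1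
      simp only [lv]
      rw [← Int.cast_smul_eq_zsmul Zw, ← Nat.cast_smul_eq_nsmul Zw i, ← Nat.cast_smul_eq_nsmul Zw 3]
      module)
  simp only [star_mul', star_neg, star_pw, star_one, star_ofNat] at k k'
  have hv : Mx r (star u * a * t) (star u * (b * f) * star t)
      ![nn lam * nn u * c + 9 * m, s * nn lam * nn u * i + 3 * m', j * nn lam * nn u * c + 3 * n,
        s * nn lam * nn u + 3 * n'] := by
    refine ⟨mul_left_cancel₀ pw_ne ?_, mul_left_cancel₀ (show pw * 3 ≠ 0 by decide) ?_⟩ <;>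
      simp only [mu, Matrix.cons_val] <;> push_cast
    · linear_combination -k - c * (1 + j * (3 * e2 r)) * (9 * r * nn lam) * mul_star_nn u -
        3 * r * (nn lam * nn u * c + 9 * m + 3 * (j * nn lam * nn u * c + 3 * n) * e2 r) * pw_sq
    · linear_combination -k' - s * (3 * e2 r + i * 3) * (9 * r * nn lam) * mul_star_nn u -
        9 * r * (s * nn lam * nn u * i + 3 * m' + (s * nn lam * nn u + 3 * n') * e2 r) * pw_sq
  have hd := det_TRA hS h ht hu hn hv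
  refine ⟨_, hv, ?_, ?_⟩ <;> simp only [Matrix.cons_val] at hd ⊢
  · obtain ⟨x, hx⟩ : ∃ x : ℤ, (nn lam : ℤ) * nn u = 3 * x + 1 := ⟨nn lam * nn u / 3, by
      have := Nat.mul_mod (nn lam) (nn u) 3
      rw [h.ax.l3, nn3_TRA hu] at this
      omega⟩
    refine ⟨s * nn lam * nn u * m' + n' * (s * nn lam * nn u * i + 3 * m') + i * (3 * x ^ 2 + 2 * x),
      ?_⟩
    linear_combination i * (nn lam * nn u) ^ 2 * hs + i * (nn lam * nn u + 3 * x + 1) * hx
  · obtain ⟨x, hx⟩ : ∃ x : ℤ, (nn lam * nn u * c + 9 * m) * (s * nn lam * nn u + 3 * n') =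
      3 * x + 1 := ⟨_, by rw [← hd]; exact (Int.mul_ediv_add_emod _ 3).symm⟩
    exact ⟨j * x + (n - 3 * j * m) * (s * nn lam * nn u + 3 * n'), by linear_combination j * hx⟩

end

end Pool.Agent.MP_e23604_nt.Z.G
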