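import Pool.Agent.MP_e23604_nt.Z.GTRA

/-!
Matrices give isomorphisms of level structures.
-/

set_option autoImplicit false

open Finset QuadraticAlgebra Polynomial
open scoped Classical

namespace Pool.Agent.MP_e23604_nt.Z.G

open B R S W Un

theorem mem_GTRB {K : AddSubgroup Pt} {X : Pt} {m n : ℤ} (h : IsCoprime m n)
    (h1 : (m : Zw) • X ∈ K) (h2 : (n : Zw) • X ∈ K) : X ∈ K := by
  obtain ⟨a, b, e⟩ := h
  rw [Int.cast_smul_eq_zsmul] at h1 h2
  have := K.add_mem (K.zsmul_mem h1 a) (K.zsmul_mem h2 b)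
  rwa [← mul_smul, ← mul_smul, ← add_smul, e, one_smul] at this

theorem key_GTRB {r : ℕ} {lam : Zw} {V : Plc} {σ : GQ} {G₀ : Pt} {f : Zw} (hS : Sg V σ)
    (h : Tx r lam V σ G₀ f) {t u a b : Zw} {H : Pt} {v : Fin 4 → ℤ}
    (ht : IsCoprime t (N0 r)) (hu : IsCoprime u (N0 r))
    (hH : ∀ P : Pt, (nn lam : Zw) • P = 0 → be σ a b P ∈ AddSubgroup.zmultiples H)
    (hv : Mx r (star u * a * t) (star u * (b * f) * star t) v) {P : Pt} (y : Zw) (m₀ n₀ m₁ n₁ : ℤ)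
    (hP : (mu r * nn lam) • P = (m₀ + n₀ * e2 r) • t • (9 * r * nn lam : Zw) • G₀)
    (hy : m₀ * (v 0 + 3 * v 2 * e2 r) + n₀ * (v 1 + v 3 * e2 r) - nn lam * nn u * y =
      9 * (m₁ + n₁ * e2 r)) :
    be σ a b P - y • u • (9 * r * nn lam : Zw) • G₀ ∈
      AddSubgroup.zmultiples ((9 : Zw) • u • (9 * r * nn lam : Zw) • G₀) ⊔
        AddSubgroup.zmultiples H := by
  have r0 : (r : Zw) ≠ 0 := Nat.cast_ne_zero.2 h.ax.r0
  have p0 : (N0 r * nn lam : Zw) • P = 0 := by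
    rw [show (N0 r * nn lam : Zw) = -(9 * r * pw) * (mu r * nn lam) by
      rw [N0_cast, mu]; linear_combination 27 * r ^ 2 * nn lam * pw_sq, mul_smul, hP]
    simp only [← mul_smul]
    exact (h.gen _).2 ⟨-pw * (m₀ + n₀ * e2 r) * t, by rw [N0_cast]; ring⟩
  obtain ⟨x, rfl⟩ := (CYG_ok _ (mul_ne_zero (Nat.cast_ne_zero.2 (N0_ne h.ax.r0)) h.ax.l0)).2.1 G₀
    h.gen P p0
  refine mem_GTRB (m := nn lam * nw u) (n := N0 r) (h.ax.copN.symm.mul_left (cop_iff.1
    (by simpa using hu))) (AddSubgroup.mem_sup_left ?_) (AddSubgroup.mem_sup_right ?_)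
  · simp only [← mul_smul] at hP
    obtain ⟨z, hz⟩ := h.gen.congr.1 hP
    obtain ⟨t', c, e⟩ := ht
    obtain ⟨m, n, e'⟩ := ord_TRA r (t' * z)
    obtain ⟨w, rfl⟩ : ∃ w, x = -pw * t * ((m₀ + 9 * m : ℤ) + (n₀ + 9 * n : ℤ) * e2 r) + N0 r * w :=
      ⟨-pw * 9 * r * c * z, mul_left_cancel₀ (mul_ne_zero (mul_ne_zero (show 3 * pw ≠ 0 by decide)
        r0) h.ax.l0) (by
          rw [mu] at hz
          push_cast
          rw [N0_cast] at hz
          linear_combination hz + 81 * r * nn lam * t * e' - 81 * r ^ 2 * nn lam * z * e +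
            3 * r * nn lam * (t * (m₀ + 9 * m + (n₀ + 9 * n) * e2 r) + N0 r * 9 * r * c * z) *
              pw_sq)⟩
    refine ⟨m₁ + m * v 0 + n * v 1, ?_⟩
    rw [be_TRA hS h, Int.cast_mul, ← mul_star_eq]
    dsimp only
    rw [← Int.cast_smul_eq_zsmul Zw]
    simp only [← mul_smul, ← sub_smul, star_add, star_mul', star_neg, star_pw, star_intCast,
      star_natCast]
    refine h.gen.congr.2 ⟨-u * (((ω : Zw) - 1) * (n₁ + 3 * m * v 2 + n * v 3) +
      star u * (a * w - b * star w * f)), ?_⟩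
    obtain ⟨v1, v2⟩ := hv
    rw [mu] at v1 v2
    rw [← mul_star_nn u] at hy
    have he : 81 * r * e2 r = N0 r * ((ω : Zw) - 1) := by rw [N0_cast, e2]; ring
    push_cast
    linear_combination nn lam * u * (pw * (m₀ + 9 * m) * v1 + pw * (n₀ + 9 * n) * v2 + 3 * r *
      ((m₀ + 9 * m) * (v 0 + 3 * v 2 * e2 r) + (n₀ + 9 * n) * (v 1 + v 3 * e2 r)) * pw_sq -
      9 * r * hy - (n₁ + 3 * m * v 2 + n * v 3) * he)
  · rw [smul_sub, Int.cast_natCast, Nat.cast_smul_eq_nsmul, ← map_nsmul,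
      ← Nat.cast_smul_eq_nsmul Zw, show (N0 r : Zw) • y • u • (9 * r * nn lam : Zw) • G₀ = 0 by
        simp only [← mul_smul]
        exact (h.gen _).2 ⟨y * u * 9 * r, by ring⟩, sub_zero]
    exact hH _ (by rw [← mul_smul, mul_comm, p0])

theorem TRB_pf (hSIG : SIG_st) (hLVD : LVD_st) : TRB_st := by
  intro r lam V σ G₀ f h t u a b H i j v ht hu hH hn hb hv h0 h1 h2
  have K := @key_GTRB _ _ _ _ _ _ (hSIG V σ h.inr) h _ _ _ _ _ _ ht hu hb hv
  have g : ∀ {t : Zw}, IsCoprime t (N0 r) → Gen (9 * r) (t • (9 * r * nn lam : Zw) • G₀) :=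
    fun ht => (Gen.smul ((show (N0 r * nn lam : Zw) = 9 * r * nn lam * (9 * r) by
      rw [N0_cast]; ring) ▸ h.gen) (mul_ne_zero (mul_ne_zero (by decide)
        (Nat.cast_ne_zero.2 h.ax.r0)) h.ax.l0)).cop
      (ht.of_isCoprime_of_dvd_right ⟨9 * r, by rw [N0_cast]; ring⟩)
  obtain ⟨x, hx⟩ : ∃ x : ℤ, (nn lam : ℤ) * nn u = 3 * x + 1 := ⟨nn lam * nn u / 3, by
    have := Nat.mul_mod (nn lam) (nn u) 3
    rw [h.ax.l3, nn3_TRA hu] at this
    omega⟩
  have hx' : (nn lam : Zw) * nn u = 3 * x + 1 := by exact_mod_cast congrArg (Int.cast (R := Zw)) hx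
  obtain ⟨p, h0⟩ : ∃ p, v 0 * v 3 = 3 * p + 1 := ⟨v 0 * v 3 / 3, by omega⟩
  obtain ⟨c, h1⟩ := h1
  obtain ⟨d, h2⟩ := h2
  refine ⟨?_, fun P hP => ?_, fun P hP => ?_, (3 * x + 1) ^ 2 * v 0, fun e => ?_, fun P hP => ?_⟩
  · rw [(hLVD r _ 0 0 h.ax.r0 h.ax.n3 (g ht)).2.1.2.1,
      ((hLVD r _ i j h.ax.r0 h.ax.n3 (g hu)).2.2 lam H _ h.ax hH rfl).2.1, nq, hn, mu, nn_mul,
      nn_mul, nn_nat, nn_nat, show nn (3 * pw) = 27 by decide]
    ring
  · rw [lv, sup_bot_eq] at hP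
    obtain ⟨m, hm⟩ := hP
    simpa [lv] using K 0 (9 * m) 0 (m * v 0) (m * 3 * v 2) (by
      rw [← hm]
      dsimp only
      rw [← Int.cast_smul_eq_zsmul Zw]
      push_cast
      module) (by push_cast; ring)
  · have S : ∀ s q : ℤ, s * s = 1 → v 3 = s + 3 * q → be σ a b P - s • (lv r
        (AddSubgroup.zmultiples H) (u • (9 * r * nn lam : Zw) • G₀) i j).S ∈ _ := fun s q e e' => by
      have := K (P := P) (s * (3 * e2 r + i * 3)) 0 3 (-s * (q * v 1 - c) - s * i * x) (q - s * x)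
        (by simpa [lv] using hP) (by
          have k1 := congrArg (Int.cast (R := Zw)) h1
          have k2 := congrArg (Int.cast (R := Zw)) e
          have k3 := congrArg (Int.cast (R := Zw)) e'
          push_cast at k1 k2 k3 ⊢
          linear_combination 3 * s * k1 - 3 * v 1 * k2 + 3 * (e2 r - s * v 1) * k3 -
            s * (3 * e2 r + i * 3) * hx')
      rwa [show (s * (3 * e2 r + i * 3)) • u • (9 * r * nn lam : Zw) • G₀ = s • ((3 * e2 r) • u •
        (9 * r * nn lam : Zw) • G₀ + i • 3 • u • (9 * r * nn lam : Zw) • G₀) by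
          rw [← Int.cast_smul_eq_zsmul Zw, ← Nat.cast_smul_eq_nsmul Zw i,
            ← Nat.cast_smul_eq_nsmul Zw 3]
          module] at this
    obtain e | e | e : v 3 % 3 = 0 ∨ v 3 % 3 = 1 ∨ v 3 % 3 = 2 := by omega
    · have := (Int.dvd_of_emod_eq_zero e).mul_left (v 0)
      omega
    · exact Or.inl (by simpa [lv] using S 1 (v 3 / 3) rfl (by omega))
    · have := S (-1) (v 3 / 3 + 1) rfl (by omega)
      rw [neg_smul, one_smul, sub_neg_eq_add] at this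
      exact Or.inr this
  · have := e.mul_right (v 3)
    rw [mul_assoc, h0, show (3 * x + 1) ^ 2 * (3 * p + 1) =
      3 * ((3 * x + 1) ^ 2 * p + 3 * x ^ 2 + 2 * x) + 1 by ring] at this
    omega
  · have := K (P := P) (((3 * x + 1) ^ 2 * v 0 : ℤ) * (1 + j * (3 * e2 r))) 1 0
      (-(x + 3 * x ^ 2 + 3 * x ^ 3) * v 0)
      (d * v 0 - p * v 2 - 3 * (x + 3 * x ^ 2 + 3 * x ^ 3) * v 0 * j) (by simpa [lv] using hP) (by
        have k1 := congrArg (Int.cast (R := Zw)) h0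
        have k2 := congrArg (Int.cast (R := Zw)) h2
        push_cast at k1 k2 ⊢
        linear_combination 3 * e2 r * (v 0 * k2 - v 2 * k1) -
          (3 * x + 1) ^ 2 * v 0 * (1 + j * (3 * e2 r)) * hx')
    rwa [mul_smul _ _ (u • _), Int.cast_smul_eq_zsmul, add_smul, one_smul, mul_smul (j : Zw),
      Nat.cast_smul_eq_nsmul] at this

end Pool.Agent.MP_e23604_nt.Z.G
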