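import Pool.Agent.MP_e23604_nt.Z.GS

set_option autoImplicit false

open Finset QuadraticAlgebra Polynomial
open scoped Classical

namespace Pool.Agent.MP_e23604_nt.Z.G

open B R S W Un

theorem UB_pf (hVEL : VEL_st) (hDXE : DXE_st) (hHO2 : HO2_st) (hCT2 : CT2_st) (hMAT : MAT_st) :
    UB_st := by
  intro V σ d d' s iq tm tm' s1 hs
  obtain ⟨φ, vl⟩ := (hVEL.2 d tm.ok).2
  obtain ⟨φ', vl'⟩ := (hVEL.2 d' tm'.ok).2
  obtain ⟨v2, F, hF⟩ := (hDXE V).2 σ iq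
  obtain ⟨hx, hy, D, hD⟩ := (hDXE V).1 d d' s tm.gd tm'.gd v2 (s1.trans_lt (nv_lt _ _)) hs
  have c : Cx V σ d d' φ φ' s D F :=
    ⟨iq, tm, tm', vl, vl', (zs_nonneg _ _).trans hs, s1, hx, hy, hD, hF⟩
  obtain ⟨a, b, k, t, h0, t1, h⟩ := hHO2 _ _ _ _ _ _ _ _ _ c
  obtain ⟨a', b', k', t', t2, h', k0, a0, e⟩ := hCT2 _ _ _ _ _ _ _ _ _ c a b k t t1 h0 h
  exact ⟨a', b', k', k0, hMAT _ _ _ _ _ _ _ _ _ c a' b' k' t' t2 h' k0 a0, e⟩

theorem LBA_pf (hSIG : SIG_st) (hUB : UB_st) (hUNR : UNR_st) (hEX : EX_st) (hRAT : RAT_st) :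
    LBA_st := by
  intro V σ d d' a b k iq tm tm' k0 h
  have g := hSIG V σ iq.inr
  obtain ⟨r1, r2⟩ := hRAT V σ iq.inr
  have e1 := (hEX V σ d d' a b k iq tm tm' k0 h).1
  have r3 := r2 _ (sub_mem (r1 d tm) (r1 d' tm')) e1
  have z : zs (E := EQ) V (d.pt - d'.pt) = V.v (zz (d.pt - d'.pt)) := zs_of e1
  have u : zs (E := EQ) V (d.pt - d'.pt) ≤ V.v V.l := by
    rw [z]
    by_cases e : d.pt - d'.pt = 0
    · rw [e, zz_zero, map_zero]
      exact g.q0.le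
    · obtain ⟨m, hm⟩ := r3 e
      rw [hm, pow_succ]
      exact mul_le_of_le_one_left g.q0.le (pow_le_one₀ g.q0.le g.q1.le)
  refine ⟨?_, u⟩
  obtain ⟨a', b', k', k1, h', e⟩ := hUB V σ d d' _ iq tm tm' u le_rfl
  have vb : V.v (W.io b') = V.v (W.io b) := by
    rcases hUNR V σ d d' a b k a' b' k' iq.inr tm tm' k0 k1 h h' with c | c <;>
      simpa [g.vs, not_Ov.1 k0, not_Ov.1 k1] using congrArg (fun x => V.v (W.io x)) c.2
  rw [← vb]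
  by_cases b0 : b' = 0
  · rw [b0, map_zero, map_zero, mul_zero]
    exact zs_nonneg _ _
  replace e := e.resolve_left b0
  rw [g.vb _ b0, ← pow_add, z] at e
  obtain ⟨m, hm⟩ := r3 fun c => by
    rw [c, zz_zero, map_zero] at e
    exact (pow_pos g.q0 _).not_gt e
  rw [hm, pow_lt_pow_iff_right_of_lt_one₀ g.q0 g.q1] at e
  rw [g.vb _ b0, ← pow_succ', z, hm]
  exact pow_le_pow_of_le_one g.q0.le g.q1.le (by omega)

end Pool.Agent.MP_e23604_nt.Z.G
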