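import Pool.Agent.MP_e23604_nt.Z.KSt

/-! Existence of admissible elements. -/

set_option autoImplicit false

open Finset QuadraticAlgebra
open scoped Classical

namespace Pool.Agent.MP_e23604_nt.Z

open B R S W

theorem dvd_KAEX {R : Type} [CommRing R] (φ : Zw →+* R) {n C : ℕ} (h3 : (3 : R) ^ n = 0) {x : Zw}
    (hx : x ≠ 0) (hC : nn x ≤ C) : φ x ∣ 3 ^ C := by
  obtain ⟨i, c, hc, e⟩ := Nat.exists_eq_pow_mul_and_not_dvd (nn_pos hx).ne' 3 (by decide)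
  have hu : IsUnit (c : R) := by
    have : IsCoprime (c : R) ((3 ^ n : ℕ) : R) :=
      Nat.Coprime.cast ((Nat.prime_three.coprime_iff_not_dvd.2 hc).symm.pow_right n)
    rwa [Nat.cast_pow, Nat.cast_ofNat, h3, isCoprime_zero_right] at this
  have hi : i ≤ C := (Nat.lt_pow_self (by decide : 1 < 3)).le.trans
    ((Nat.le_of_dvd (nn_pos hx) ⟨c, e⟩).trans hC)
  calc φ x ∣ φ (x * star x) := map_dvd φ (dvd_mul_right _ _)
    _ = 3 ^ i * c := by rw [mul_star_nn, e, map_natCast]; simp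
    _ ∣ 3 ^ i := hu.mul_right_dvd.2 dvd_rfl
    _ ∣ 3 ^ C := pow_dvd_pow _ hi

theorem ps_KAEX {L : Zw} (h : L ≠ 0) : ∃ Ψ : GK →* (Zw ⧸ Ideal.span {L})ˣ,
    ∀ g, (Ψ g : Zw ⧸ Ideal.span {L}) = Ideal.Quotient.mk _ (ps L g) :=
  ⟨MonoidHom.toHomUnits
    { toFun g := Ideal.Quotient.mk _ (ps L g)
      map_one' := (Ideal.Quotient.eq.2 (Ideal.mem_span_singleton.2
        (((PS_ok L h).1 1 (one_mem _)).2.2.2.1.1 (one_mem _)))).trans (map_one _)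
      map_mul' g k := (Ideal.Quotient.eq.2 (Ideal.mem_span_singleton.2
        (((PS_ok L h).1 g g.2).2.2.2.2.2.1 k k.2))).trans (map_mul _ _ _) }, fun _ => rfl⟩

theorem grp_KAEX {G A : Type} [Group G] [CommGroup A] (Ψ : G →* A) (s g h : G) (k : ℕ) :
    Ψ (s * (g * h⁻¹) * s⁻¹ * ((g * h⁻¹) ^ (k + 1))⁻¹) * Ψ g ^ k = Ψ h ^ k := by
  simp only [map_mul, map_inv, map_pow]
  rw [mul_inv_cancel_comm, pow_succ', mul_inv, mul_inv_cancel_left, mul_pow, inv_pow,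
    mul_inv_rev, inv_inv, inv_mul_cancel_right]

theorem cy_KAEX {N : ℕ} (h : N ≠ 0) : ∃ c : GQ →* (ZMod N)ˣ, ∀ g, (c g : ZMod N) = W.cy N g :=
  ⟨MonoidHom.toHomUnits ⟨⟨W.cy N, cy_one h⟩, cy_mul h⟩, fun _ => rfl⟩

theorem km_KAEX {N D : ℕ} (h : N ≠ 0) {s g : GQ} (hs : s ∈ GK) (hg : g ∈ GK) (h1 : W.cy N g = 1)
    (h2 : W.cy N s = D) {b : Zw} (hb : b ≠ 0) : km N (s * g * s⁻¹ * (g ^ D)⁻¹) (W.io b) = 0 := by
  obtain ⟨c, hc⟩ := cy_KAEX h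
  have c1 : c g = 1 := Units.ext (by rw [hc, h1, Units.val_one])
  have h0 : W.io b ≠ 0 := io_ne hb
  have e1 : ∀ i : ℕ, km N (g ^ i) (W.io b) = i * km N g (W.io b) := fun i => by
    induction i with
    | zero => simp [km_one h h0]
    | succ i ih =>
      rw [pow_succ', km_mul h _ _ h0, io_fix (pow_mem hg i), h1, ih]
      push_cast
      ring
  have e2 := km_mul h (g ^ D) (g ^ D)⁻¹ h0
  have e3 := km_conj (y := s) h h0 (io_fix hg b) h1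
  rw [mul_inv_cancel, km_one h h0, io_fix (inv_mem (pow_mem hg D)), e1, ← hc] at e2
  rw [io_fix hs] at e3
  rw [km_mul h _ _ h0, io_fix (inv_mem (pow_mem hg D)), e3, h2, ← hc]
  simp only [map_mul, map_pow, map_inv, c1, one_pow, mul_one, mul_inv_cancel, Units.val_one] at e2 ⊢
  exact e2.symm

theorem el_KAEX {c : Zw} (h3 : 3 ∣ c) (h0 : c ≠ 0) (hs : star c = c) :
    Pry (1 + c * ω) ∧ IsCoprime (1 + c * ω) c ∧ IsCoprime (star (1 + c * ω)) c ∧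
    1 + c * ω - star (1 + c * ω) = c * pw ∧ ¬ IsUnit (1 + c * ω) ∧ c * ω ≠ 0 ∧ c * pw ≠ 0 := by
  have h1 : Pry (1 + c * ω) := by simpa [Pry] using h3.mul_right ω
  have h2 : c * ω ≠ 0 := mul_ne_zero h0 (by decide)
  have h4 : star (1 + c * ω) = 1 + c * star ω := by rw [star_add, star_one, star_mul', hs]
  refine ⟨h1, ⟨1, -ω, by ring⟩, ⟨1, -star ω, by rw [h4]; ring⟩, ?_, fun e => h2 ?_, h2,
    mul_ne_zero h0 (by decide)⟩
  · rw [← show (ω : Zw) - star ω = pw by decide, h4]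
    ring
  · simpa using h1.unit e

theorem AEX_pf : AEX_st := by
  intro χ r a hT _
  have r0 := hT.sf.ne_zero
  have n0 : N0 r ≠ 0 := by simp [N0, r0]
  have n1 : (N0 r : Zw) = 9 * r * (9 * r) := by simp [N0]; ring
  have n2 : (9 * r : Zw) ∣ N0 r := ⟨_, n1⟩
  have r9 : (9 * r : Zw) ≠ 0 := mul_ne_zero (by decide) (Nat.cast_ne_zero.2 r0)
  obtain ⟨b1, b2, b3, b4, b5, -, -⟩ := el_KAEX (c := N0 r) (dvd_trans ⟨3 * r, by ring⟩ n2)
    (Nat.cast_ne_zero.2 n0) (star_natCast _)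
  obtain ⟨d1, d2, -, d4, d5, d6, d7⟩ := el_KAEX (c := 9 * r) ⟨3 * r, by ring⟩ r9 (by simp)
  set b : Zw := 1 + (N0 r : Zw) * ω with hb
  set d : Zw := 1 + 9 * (r : Zw) * ω with hd
  obtain ⟨k, hk⟩ : ∃ k, nn d = k + 1 := ⟨_, (Nat.succ_pred_eq_of_pos (nn_pos d1.ne)).symm⟩
  have k0 : k ≠ 0 := fun e => d5 (nn_unit.2 (by rw [hk, e]))
  have hx : star b ^ k - b ^ k ≠ 0 := fun e => b5 (by
    have h1 : IsCoprime b (N0 r * pw) := b2.mul_right (b2.of_isCoprime_of_dvd_right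
      (pw_dvd3.trans (dvd_trans ⟨3 * r, by ring⟩ n2)))
    have h2 : IsCoprime b (star b) := by
      obtain ⟨u, v, e⟩ := h1
      exact ⟨u + v, -v, by rw [← b4] at e; linear_combination e⟩
    exact (h2.pow_right (n := k)).isUnit_of_dvd' dvd_rfl
      (sub_eq_zero.1 e ▸ dvd_pow_self b k0))
  refine ⟨nn (star b ^ k - b ^ k) + nn (9 * (r : Zw) * ω) + nn (9 * r * pw), ?_⟩
  intro R _ n M φ j hC M0 h9 h3 _ hp hφ
  set L : Zw := 3 ^ (n + 1) * (M * N0 r)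
  have L0 : L ≠ 0 := mul_ne_zero (pow_ne_zero _ (by decide)) (mul_ne_zero M0 (Nat.cast_ne_zero.2 n0))
  have ML : M ∣ L := (dvd_mul_right _ _).mul_left _
  have cop : ∀ u : Zw, IsCoprime u (9 * r) → IsCoprime u L := fun u h => by
    refine (h.of_isCoprime_of_dvd_right ⟨3 * r, by ring⟩).pow_right.mul_right
      (IsCoprime.mul_right ?_ (n1 ▸ h.mul_right h))
    exact isCoprime_of_prime_dvd (fun e => M0 e.2) fun z h1 h2 h3 =>
      h1.not_isUnit (h.isUnit_of_dvd' h2 ((hp z h1 h3).trans ⟨3, by ring⟩))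
  obtain ⟨g₁, k1, a1⟩ := SURJ_ok L b L0 b1 (cop _ (b2.of_isCoprime_of_dvd_right n2))
  obtain ⟨g₂, k2, a2⟩ := SURJ_ok L _ L0 b1.star (cop _ (b3.of_isCoprime_of_dvd_right n2))
  obtain ⟨s, ks, a3⟩ := SURJ_ok L d L0 d1 (cop _ d2)
  have pl : ∀ {g u}, g ∈ GK → (∀ P : Pt, L • P = 0 → gal g P = u • P) → L ∣ ps L g - u :=
    fun hg h => (((PS_ok L L0).1 _ hg).2.2.2.2.1 _).1 h
  have um : ∀ {g u M'}, g ∈ GK → (∀ P : Pt, L • P = 0 → gal g P = u • P) → M' ∣ L → M' ∣ u - 1 →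
      g ∈ UM M' := fun {g u M'} hg h ⟨c, e⟩ ⟨c', e'⟩ => ⟨hg, fun P hP => by
    rw [h P (by rw [e, mul_comm, mul_smul, hP, smul_zero]), eq_add_of_sub_eq e', add_smul, mul_comm,
      mul_smul, hP, smul_zero, zero_add, one_smul]⟩
  have NL : (N0 r : Zw) ∣ L := (dvd_mul_left _ _).mul_left _
  have gU : g₁ * g₂⁻¹ ∈ UM (N0 r) := mul_mem (um k1 a1 NL (by simp [hb]))
    (inv_mem (um k2 a2 NL (by simp [hb])))
  have gK := gU.1
  have g0U : s * (g₁ * g₂⁻¹) * s⁻¹ * ((g₁ * g₂⁻¹) ^ nn d)⁻¹ ∈ UM (N0 r) :=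
    mul_mem (((PS_ok _ (Nat.cast_ne_zero.2 n0)).1 s ks).2.2.2.2.2.2.2.1 _ gU)
      (inv_mem (pow_mem gU _))
  have cv : ∀ (N : ℕ) {g u}, (N : Zw) ∣ L → g ∈ GK → (∀ P : Pt, L • P = 0 → gal g P = u • P) →
      W.cy N g = nn u := fun N g u hN hg h =>
    (CYC1_ok N L L0 hN g hg).trans (nn_CHR (hN.trans (pl hg h)))
  have c1 : ∀ N : ℕ, N ≠ 0 → (N : Zw) ∣ L → W.cy N (g₁ * g₂⁻¹) = 1 := fun N h hN => by
    obtain ⟨c, hc⟩ := cy_KAEX h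
    have : c g₁ = c g₂ := Units.ext (by rw [hc, hc, cv N hN k1 a1, cv N hN k2 a2, nn_star])
    simp [← hc, this]
  have t0 : ∀ i : ℕ, 3 ^ i ≠ 0 := fun i => pow_ne_zero _ (by decide)
  have t1 : ((3 ^ (n + 1) : ℕ) : Zw) ∣ L := by simp [L]
  have t2 : ((3 ^ n : ℕ) : Zw) ∣ M := by simpa using h3
  have kz := fun b hb => km_KAEX (t0 n) ks gK (c1 _ (t0 n) (t2.trans ML))
    (cv _ (t2.trans ML) ks a3) (b := b) hb
  obtain ⟨c, hc⟩ := cy_KAEX (t0 (n + 1))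
  have c2 : c (g₁ * g₂⁻¹) = 1 := Units.ext (by rw [hc, c1 _ (t0 _) t1, Units.val_one])
  have c3 : W.cy (3 ^ (n + 1)) (s * (g₁ * g₂⁻¹) * s⁻¹ * ((g₁ * g₂⁻¹) ^ nn d)⁻¹) = 1 := by
    rw [← hc, map_mul, map_mul, map_mul, map_inv, map_inv, map_pow, c2]
    simp
  have key : L ∣ ps L (s * (g₁ * g₂⁻¹) * s⁻¹ * ((g₁ * g₂⁻¹) ^ nn d)⁻¹) * b ^ k - star b ^ k := by
    obtain ⟨Ψ, hΨ⟩ := ps_KAEX L0
    have : Ψ (⟨s, ks⟩ * (⟨g₁, k1⟩ * ⟨g₂, k2⟩⁻¹) * ⟨s, ks⟩⁻¹ * ((⟨g₁, k1⟩ * ⟨g₂, k2⟩⁻¹) ^ nn d)⁻¹) *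
        Ψ ⟨g₁, k1⟩ ^ k = Ψ ⟨g₂, k2⟩ ^ k := by
      rw [hk]
      exact grp_KAEX (A := (Zw ⧸ Ideal.span {L})ˣ) Ψ _ _ _ k
    have := congrArg Units.val this
    rw [Units.val_mul, Units.val_pow_eq_pow_val, Units.val_pow_eq_pow_val, hΨ, hΨ, hΨ,
      Ideal.Quotient.eq.2 (Ideal.mem_span_singleton.2 (pl k1 a1)),
      Ideal.Quotient.eq.2 (Ideal.mem_span_singleton.2 (pl k2 a2)), ← map_pow, ← map_pow,
      ← map_mul] at this
    exact Ideal.mem_span_singleton.1 (Ideal.Quotient.eq.1 this)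
  generalize s * (g₁ * g₂⁻¹) * s⁻¹ * ((g₁ * g₂⁻¹) ^ nn d)⁻¹ = g₀ at g0U kz c3 key
  have f3 : φ (3 ^ n) = 0 := (hφ.ker _).2 dvd_rfl
  have f4 : (3 : R) ^ n = 0 := by rwa [map_pow, map_ofNat] at f3
  have fz : ∀ {u v : Zw}, 3 ^ n ∣ u - v → φ u = φ v := fun h => by
    rw [← sub_eq_zero, ← map_sub]
    exact (hφ.ker _).2 h
  have lm : ∀ g ∈ UM (9 * r), 3 ^ n ∣ ω ^ (χ g).val * ps M g - ps L g := fun g hg => by
    rw [hT.fac g hg, ZMod.val_zero, pow_zero, one_mul, dvd_sub_comm]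
    exact h3.trans (((PS_ok M M0).1 g hg.1).2.2.2.2.2.2.2.2 L L0 ML)
  have ls : 3 ^ n ∣ ω ^ (χ s).val * ps M s - d := by
    simpa using dvd_add (lm s (um ks a3 (h9.trans ML) (by simp [hd]))) ((h3.trans ML).trans (pl ks a3))
  have p0 : pw ^ (n + 1) ≠ 0 := pow_ne_zero _ (by decide)
  have pL : pw ^ (n + 1) ∣ L := (pow_dvd_pow_of_dvd pw_dvd3 _).mul_right _
  have nm : g₀ ∉ UM (pw ^ (n + 1)) := fun e => by
    have h1 := ((PS_ok _ p0).1 g₀ e.1).2.2.2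
    have h2 : pw ^ (n + 1) ∣ star b ^ k - b ^ k := by
      convert dvd_sub ((dvd_add (h1.1.1 e) (h1.2.2.2.2.2 L L0 pL)).mul_right (b ^ k))
        (pL.trans key) using 1
      ring
    have h3 := Nat.le_of_dvd (nn_pos hx) (nn_dvd h2)
    rw [nn_pow, nn_pw] at h3
    have := Nat.lt_pow_self (n := n + 1) (by decide : 1 < 3)
    omega
  refine ⟨g₀, s, ks, ?_, ?_, ?_, ⟨g0U, c3, kz, nm⟩, fun u hu v hv => ?_⟩
  · refine Dvd.dvd.trans ⟨φ b ^ k, ?_⟩ (dvd_KAEX φ f4 hx (by omega))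
    have := fz ((h3.trans ML).trans key)
    rw [lamZ, fz (lm g₀ (UM_mono n2 g0U)), map_sub, ← this, map_mul, map_pow]
    ring
  · rw [lamZ, fz ls, hd, map_add, map_one, add_sub_cancel_left]
    exact dvd_KAEX φ f4 d6 (by omega)
  · obtain ⟨t, ht⟩ := ls
    rw [(COJ_ok χ r M hT M0 h9).2.2 R φ _ j ((hφ.ker _).2 h3) t2 s ks, lamZ, fz ⟨t, ht⟩,
      fz (u := star _) (v := star d)
        ⟨star t, by rw [← star_sub, ht, star_mul', star_pow, star_ofNat]⟩, ← map_sub, d4]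
    exact dvd_KAEX φ f4 d7 (by omega)
  · have cU : ∀ M' : Zw, M' ≠ 0 → u * v * u⁻¹ * v⁻¹ ∈ UM M' := fun M' h => by
      simpa [mul_assoc] using
        ((PS_ok M' h).1 _ (inv_mem hv.1)).2.2.2.2.2.2.1 _ (inv_mem hu.1)
    have cu : ∀ u ∈ UM M, W.cy (3 ^ n) u = 1 := fun u hu =>
      (CYC1_ok _ M M0 t2 u hu.1).trans (by
        simpa [nn_one] using nn_CHR (t2.trans (((PS_ok M M0).1 u hu.1).2.2.2.1.1 hu)))
    refine ⟨mul_mem g0U (cU _ (Nat.cast_ne_zero.2 n0)), ?_, fun b hb => ?_, fun e => nm ?_⟩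
    · rw [cy_mul (t0 _), c3, ← hc]
      simp
    · have := km_KAEX (D := 1) (t0 n) hu.1 hv.1 (cu v hv) (by rw [cu u hu, Nat.cast_one]) hb
      rw [pow_one] at this
      rw [km_mul (t0 n) _ _ (io_ne hb), this, io_fix (cU _ p0).1, kz b hb,
        mul_zero, add_zero]
    · simpa only [mul_inv_cancel_right] using mul_mem e (inv_mem (cU _ p0))

end Pool.Agent.MP_e23604_nt.Z
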