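import Pool.Agent.MP_e23604_nt.Z.Defs
import Pool.Agent.MP_e23604_nt.Y.Ok
import Pool.Agent.MP_e23604_nt.Y.INF
import Pool.Agent.MP_e23604_nt.W.All4
import Pool.Agent.MP_e23604_nt.X.NHB

/-!
The character on numbers, and the point of infinite order.
-/

set_option autoImplicit false

open Finset QuadraticAlgebra
open scoped Classical

namespace Pool.Agent.MP_e23604_nt.Z

open B R S W

variable {χ : GQ → ZMod 3} {r : ℕ}

theorem zero_KEnd (h : Adt GK χ) : χ 1 = 0 := by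
  have := h 1 GK.one_mem 1 GK.one_mem
  rwa [mul_one, left_eq_add] at this

theorem eq_KEnd (h : Tw χ r) {g g' : GQ} (hg : g ∈ GK) (hg' : g' ∈ GK)
    (e : (9 * r : Zw) ∣ ps (9 * r) g - ps (9 * r) g') : χ g = χ g' := by
  have : g⁻¹ * g' ∈ UM (9 * r) := ⟨GK.mul_mem (GK.inv_mem hg) hg', fun P hP => gal_inj g (by
    rw [← W.gal_mul, mul_inv_cancel_left, ((PS_ok _ h.ne).1 g hg).1 P hP,
      ((PS_ok _ h.ne).1 g' hg').1 P hP, smul_congr hP e])⟩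
  rw [← mul_inv_cancel_left g g', h.add g hg _ this.1, h.fac _ this, add_zero]

theorem kap_KEnd (h : Tw χ r) : ∃ κ : Zw → ZMod 3, (∀ g ∈ GK, ∀ ε u : Zw, IsUnit ε →
    (9 * r : Zw) ∣ ps (9 * r) g - ε * u → κ u = -χ g) ∧ ∀ u : Zw, IsCoprime u (3 * r) →
      ∃ g ∈ GK, ∃ ε : Zw, IsUnit ε ∧ (9 * r : Zw) ∣ ps (9 * r) g - ε * u := by
  have h3 : (3 : Zw) ∣ 9 * r := Dvd.dvd.mul_right ⟨3, by norm_num⟩ _
  refine ⟨fun u => if e : ∃ g ∈ GK, ∃ ε : Zw, IsUnit ε ∧ (9 * r : Zw) ∣ ps (9 * r) g - ε * u then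
    -χ e.choose else 0, fun g hg ε u hε e => ?_, fun u hu => ?_⟩
  · have e' : ∃ g ∈ GK, ∃ ε : Zw, IsUnit ε ∧ (9 * r : Zw) ∣ ps (9 * r) g - ε * u :=
      ⟨g, hg, ε, hε, e⟩
    beta_reduce
    rw [dif_pos e']
    obtain ⟨h1, ε', h2, h4⟩ := e'.choose_spec
    generalize e'.choose = g' at *
    obtain ⟨η, rfl⟩ := hε.dvd (a := ε')
    have p1 := ((PS_ok _ h.ne).1 g hg).2.2.1 h3
    have p2 := ((PS_ok _ h.ne).1 g' h1).2.2.1 h3
    have : η = 1 := Pry.unit (by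
      have := dvd_sub (dvd_add (dvd_sub p2 (h3.trans h4)) ((h3.trans e).mul_left η)) (p1.mul_left η)
      unfold Pry
      convert this using 1
      ring) (isUnit_of_mul_isUnit_right h2)
    rw [this, mul_one] at h4
    rw [eq_KEnd h h1 hg (by convert dvd_sub h4 e using 1; ring)]
  · obtain ⟨ε, e1, e2⟩ := ex_pry (a := u) fun k =>
      pw_prime.not_isUnit (hu.isUnit_of_dvd' k (pw_dvd3.mul_right _))
    obtain ⟨g, hg, e⟩ := SURJ_ok _ _ h.ne e2 ((isCoprime_mul_unit_left_left e1 _ _).2 (by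
      rw [show (9 * r : Zw) = 3 * (3 * r) by ring]
      exact hu.of_mul_right_left.mul_right hu))
    exact ⟨g, hg, ε, e1, (((PS_ok _ h.ne).1 g hg).2.2.2.2.1 _).1 e⟩

theorem CHE_pf : CHE_st := by
  intro χ r h ha ⟨g₀, hg₀, hne⟩
  obtain ⟨κ, k1, k2⟩ := kap_KEnd h
  have lk : Lk χ r κ := fun g hg => k1 g hg 1 _ isUnit_one (by simp)
  have cp : ∀ g ∈ GK, IsCoprime (ps (9 * r) g) (3 * r) := fun g hg =>
    ((PS_ok _ h.ne).1 g hg).2.1.of_isCoprime_of_dvd_right ⟨3, by ring⟩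
  have add : ∀ u v : Zw, IsCoprime u (3 * r) → IsCoprime v (3 * r) → κ (u * v) = κ u + κ v := by
    intro u v hu hv
    obtain ⟨g, hg, ε, e1, e2⟩ := k2 u hu
    obtain ⟨g', hg', ε', e3, e4⟩ := k2 v hv
    rw [k1 g hg ε u e1 e2, k1 g' hg' ε' v e3 e4, k1 _ (GK.mul_mem hg hg') _ _ (e1.mul e3) (by
      convert dvd_add (dvd_add (((PS_ok _ h.ne).1 g hg).2.2.2.2.2.1 g' hg')
        (e2.mul_right (ps (9 * r) g'))) (e4.mul_left (ε * u)) using 1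
      ring), h.add g hg g' hg', neg_add]
  have per : ∀ u v : Zw, IsCoprime u (3 * r) → (9 * r : Zw) ∣ u - v → κ u = κ v := by
    intro u v hu e
    obtain ⟨g, hg, ε, e1, e2⟩ := k2 u hu
    rw [k1 g hg ε u e1 e2, k1 g hg ε v e1 (by convert dvd_add e2 (e.mul_left ε) using 1; ring)]
  have int : ∀ n : ℤ, IsCoprime (n : Zw) (3 * r) → κ n = 0 := by
    intro n hn
    obtain ⟨g, hg, ε, e1, e2⟩ := k2 n hn
    obtain ⟨c, hc, hc2⟩ := Y.INF_pf.1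
    have hg' := (Plc.cj_GK c g).1 hg
    have := k1 _ hg' (star ε) n e1.star ((((PS_ok _ h.ne).1 _ hg').2.2.2.2.1 _).1 fun P hP => by
      have hP' : (9 * r : Zw) • gal c⁻¹ P = 0 := by
        have := gal_star (mt GK.inv_mem_iff.1 hc) (9 * r) P
        rw [hP, map_zero] at this
        simpa using this.symm
      rw [W.gal_mul, W.gal_mul, ((PS_ok _ h.ne).1 g hg).1 _ hP', smul_congr hP' e2, gal_star hc,
        ← W.gal_mul, mul_inv_cancel, W.gal_one]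
      simp)
    rw [ha c hc g hg, k1 g hg ε n e1 e2] at this
    rw [k1 g hg ε n e1 e2]
    generalize χ g = x at *
    revert x
    decide
  have c1 : ∀ t : Zw, IsCoprime (1 + 3 * r * t) (3 * r) := fun t => ⟨1, -t, by ring⟩
  have f1 : ∀ t t' : Zw, κ (1 + 3 * r * (t + t')) = κ (1 + 3 * r * t) + κ (1 + 3 * r * t') :=
    fun t t' => by rw [← add _ _ (c1 t) (c1 t')]; exact per _ _ (c1 _) ⟨-(r * t * t'), by ring⟩
  refine ⟨κ, _, ⟨h.sf, h.n3, add, per, ?_, int, fun p hp hr => ?_, rfl, fun e => hne ?_⟩, lk⟩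
  · rw [k1 1 GK.one_mem (ω ^ 2) ω (w_unit.pow 2) (by
      rw [← pow_succ, www]
      exact ((PS_ok _ h.ne).1 1 GK.one_mem).2.2.2.1.1 (UM _).one_mem), zero_KEnd h.add, neg_zero]
  · have := Fact.mk hp
    obtain ⟨s, rfl⟩ := hr
    have p3 : ¬ p ∣ 3 := fun e => h.n3
      ((Nat.prime_dvd_prime_iff_eq hp Nat.prime_three).1 e ▸ dvd_mul_right _ _)
    obtain ⟨τ, h1, h2⟩ := h.ram ⟨p, 1⟩ ((PLK_ok.2.2.2.1 _ _).2 (dvd_mul_right _ _))
    rw [Nat.mul_div_cancel_left _ hp.pos]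
    have s0 : ((9 * s : ℕ) : Zw) ≠ 0 := Nat.cast_ne_zero.2
      (mul_ne_zero (by norm_num) (right_ne_zero_of_mul h.r0))
    have h3 := (INE_ok ⟨p, 1⟩ (fun e => p3 ((PLK_ok.2.2.2.1 _ 3).1 (by simpa using e))) τ h1).2.2
      ((9 * s : ℕ) : Zw) fun e => (hp.dvd_mul.1 ((PLK_ok.2.2.2.1 _ _).1 e)).elim
        (fun e => p3 (hp.dvd_of_dvd_pow (n := 2) e))
        fun e => hp.not_isUnit (h.sf p (mul_dvd_mul_left p e))
    refine ⟨_, cp τ h1.2, ?_, by rwa [lk τ h1.2, neg_ne_zero]⟩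
    convert dvd_add (((PS_ok _ s0).1 τ h1.2).2.2.2.2.2.2.2.2 _ h.ne ⟨p, by push_cast; ring⟩)
      (((PS_ok _ s0).1 τ h1.2).2.2.2.1.1 h3) using 1
    ring
  · have s0 : (3 * r : Zw) ≠ 0 := mul_ne_zero (by decide) (Nat.cast_ne_zero.2 h.r0)
    obtain ⟨t, ht⟩ := dvd_add (((PS_ok _ s0).1 _ hg₀.1).2.2.2.2.2.2.2.2 _ h.ne ⟨3, by ring⟩)
      (((PS_ok _ s0).1 _ hg₀.1).2.2.2.1.1 hg₀)
    have f0 : ∀ n : ℤ, κ (1 + 3 * r * n) = 0 := fun n => by
      simpa using int (1 + 3 * r * n) (by simpa using c1 n)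
    have f2 : ∀ n : ℕ, κ (1 + 3 * r * (n * ((ω : Zw) - 1))) = 0 := fun n => by
      induction n with
      | zero => simpa using f0 0
      | succ n ih => rw [Nat.cast_succ, add_one_mul, f1, ih, zero_add, mul_assoc]; exact e
    obtain ⟨n, k, hk⟩ : ∃ (n : ℕ) (k : ℤ), t.im = n + 3 * k :=
      ⟨(t.im % 3).toNat, t.im / 3, by omega⟩
    rw [← neg_eq_zero, ← lk _ hg₀.1, per _ (1 + 3 * r * ((t.re + n : ℤ) + n * ((ω : Zw) - 1)))
      (cp _ hg₀.1) ⟨k * (ω : Zw), ?_⟩, f1, f0, f2, add_zero]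
    have := Zw_eq t
    rw [hk] at this
    push_cast at this ⊢
    linear_combination ht + 3 * r * this

theorem neg_KEnd (h : Tw χ r) : Tw (fun g => -χ g) r :=
  ⟨h.sf, h.n3, fun g hg k hk => by rw [h.add g hg k hk, neg_add], h.lc.map _,
    fun V hV τ hτ => by rw [h.unr V hV τ hτ, neg_zero],
    fun V hV => (h.ram V hV).imp fun _ e => ⟨e.1, neg_ne_zero.2 e.2⟩,
    fun g hg => by rw [h.fac g hg, neg_zero]⟩

theorem NT_ok : NT_st := NT_of KM_ok PLK_ok FRK_ok CHB_ok TAME_ok TPR_ok CNJ_ok LIN_ok RCC_ok CYL_ok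
  KGEN_ok BRN_ok R2_ok DM4_ok NDG_ok FIH_ok FUN_ok

theorem NZ_ok : NZ_st := by
  have H := H5_ok
  have ahm := AHM_pf H COI_ok
  have zeq := ZEQ_pf H
  have pig := PIG_pf H
  have rst := RST_pf H
  have dpi := DPI_pf H zeq pig
  exact NZ_pf H NT_ok COI_ok zeq (FXP_pf H) ALG_pf (TRU_pf H)
    (EXB_pf H (NRE_pf H zeq PFA_ok (NRS_pf H)) (EXR_pf H COI_ok ahm (TFR_pf H)
      (LCP_pf H COI_ok ahm (NMZ_pf H COI_ok)) (NFA_pf H ahm))) rst
    (CNT_pf H COI_ok COJ_ok dpi (LOCI_pf H COI_ok zeq pig dpi) (KER_pf H COI_ok COJ_ok BZC_ok rst))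

/-- the fixed points have finite order when the Selmer group is bounded -/
theorem tor_KEnd (h : Tw χ r) (hb : HB χ r) {P : Pt} (hP : Fx χ GK P) : Tor P := by
  obtain ⟨k₀, hk⟩ := hb
  obtain ⟨N, N0, hN⟩ := PIG_pf H5_ok
  have Z := fun Q => ZEQ_pf H5_ok V3 pw Q pw_prime (Ov_three.1 V3_three)
  have v1 : V3.v 3 < 1 := by simpa [Ov, map_ofNat] using V3_three
  have v0 : 0 < V3.v 3 := V3.v.pos three_ne_zero
  have t0 : ∀ i, (3 : Zw) ^ i ≠ 0 := fun i => pow_ne_zero i (by decide)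
  have cs : ∀ (i : ℕ) (Q : Pt), 3 ^ i • Q = (3 : Zw) ^ i • Q := fun i Q => by
    rw [← Nat.cast_smul_eq_nsmul Zw]; norm_cast
  have sm : ∀ Q, Fx χ GK Q → ∀ i : ℕ, E1 V3.v (N • Q) ∧
      V3.v (zz ((3 : Zw) ^ i • N • Q)) ≤ V3.v 3 ^ i * V3.v (zz (N • Q)) ∧
      V3.v (zz (N • Q)) ^ 3 ≤ V3.v (W.io pw) := fun Q hQ i => by
    have f : Fx χ V3.D Q := fun g hg => hQ g hg.2
    have e := hN χ V3 Q h.add V3_three f
    have b := (Z _ e).2.2 χ (f.smul V3.D_le N)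
    exact ⟨e, by simpa [map_ofNat] using (Z _ e).2.1 b (3 ^ i), b⟩
  have key : ∀ k, V3.v (zz ((3 : Zw) ^ (k₀ + 1) • N • P)) ≤ V3.v 3 ^ k := fun k => by
    obtain ⟨S, hS⟩ := smul_onto (t0 k) P
    have h2 : ∀ g ∈ GK, 3 ^ k • bd χ S g = 0 := fun g hg => by
      rw [cs, ← bd_smul hg, hS, bd, hP g hg, sub_self]
    obtain ⟨T, ⟨i, hT⟩, e⟩ := hk k _ (X.bd_NHB h S h2) h2
    have f1 : Fx χ GK ((3 : Zw) ^ k₀ • S - T) := fun g hg => by
      rw [← sub_eq_zero]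
      change bd χ _ g = 0
      rw [bd_sub, bd_smul hg, ← cs, e g hg, bd, sub_self]
    have e1 : (3 : Zw) ^ k • T = (3 : Zw) ^ k₀ • P - (3 : Zw) ^ k • ((3 : Zw) ^ k₀ • S - T) := by
      rw [smul_sub, smul_comm, hS, sub_sub_cancel]
    have f2 : Fx χ GK ((3 : Zw) ^ k • T) := e1 ▸ (hP.smul le_rfl _).sub (f1.smul le_rfl _)
    obtain ⟨a1, a2, a3⟩ := sm _ f2 1
    have a4 := (E1m a1 (3 ^ 1)).1
    have a5 := (Z _ a4).1 ((pow_le_pow_left₀ (V3.v.nonneg _) a2 3).trans_lt (by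
      rw [mul_pow]
      refine (mul_le_mul_of_nonneg_left a3 (by positivity)).trans_lt ?_
      exact mul_lt_of_lt_one_left (V3.v.pos (io_ne pw_ne))
        (pow_lt_one₀ (by positivity) (by simpa using v1) three_ne_zero))) (3 ^ i)
    rw [cs] at hT
    rw [smul_comm _ ((3 : Zw) ^ 1), smul_comm _ N, smul_comm _ ((3 : Zw) ^ k), hT, smul_zero,
      smul_zero, smul_zero, zz_zero, map_zero, eq_comm, mul_eq_zero,
      or_iff_right (V3.v.ne_zero (io_ne (t0 i))), map_eq_zero, zz_zero_iff a4, e1, smul_sub, smul_sub, sub_eq_zero] at a5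
    obtain ⟨b1, b2, -⟩ := sm _ f1 (1 + k)
    rw [add_comm, pow_add, mul_smul, ← smul_comm N, a5, smul_comm N, ← mul_smul, ← pow_add]
    refine b2.trans ((mul_le_of_le_one_right (by positivity) (zz_lt b1).le).trans ?_)
    exact pow_le_pow_of_le_one v0.le v1.le (by omega)
  have z0 : V3.v (zz ((3 : Zw) ^ (k₀ + 1) • N • P)) = 0 :=
    le_antisymm (not_lt.1 fun e => by
      obtain ⟨k, hk⟩ := exists_pow_lt_of_lt_one e v1
      exact (key k).not_gt hk) (V3.v.nonneg _)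
  rw [map_eq_zero, zz_zero_iff (E1m (sm P hP 0).1 _).1, ← mul_smul] at z0
  refine ⟨nn (3 ^ (k₀ + 1) * N), (nn_pos (mul_ne_zero (t0 _) N0)).ne', ?_⟩
  rw [← Nat.cast_smul_eq_nsmul Zw, ← mul_star_nn]
  exact dvd_smul z0 (dvd_mul_right _ _)

theorem END_of (h1 : ANA_st) (h2 : GEO_st) (h3 : GAL_st) (h4 : HSX_st) : END_st := by
  intro χ r a G hT ha hg ad nt nb nz ft hG ht
  obtain ⟨κ, e, hc, hl⟩ := CHE_pf χ r hT ha hg
  obtain ⟨c₁, k1⟩ := h1 χ κ r e a hT hc hl ad nz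
  obtain ⟨c₂, k2⟩ := h2 χ κ r e G hT hc hl hG ht (ft _ (h4 _ r G (neg_KEnd hT) hG).g0)
  refine nb (h3 χ r a hT ad nt ⟨c₁ + c₂, fun k lam V φ G' s1 s2 s3 => ?_⟩)
  obtain ⟨f, f1, t, f2⟩ := k2 k a lam V φ s1 s2
  have v1 : V3.v 3 ≤ 1 := by simpa [map_ofNat] using V3.io_le 3
  have v0 : 0 < V3.v 3 := V3.v.pos three_ne_zero
  rw [pow_add, ← mul_assoc]
  refine (mul_le_mul_of_nonneg_right (k1 k lam _ f G' s2 f1 s3) (by positivity)).trans ?_
  rw [max_mul_of_nonneg _ _ (by positivity)]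
  refine max_le (mul_le_of_le_one_right (by positivity) (pow_le_one₀ v0.le v1)) ?_
  have := congrArg (fun x => V3.v (W.io x)) f2
  simp only [map_mul, map_pow, map_ofNat] at this
  rw [mul_comm, this]
  exact mul_le_of_le_one_right (by positivity) (V3.io_le t)

end Pool.Agent.MP_e23604_nt.Z
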