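import Pool.Agent.MP_e23604_nt.Z.KSt

/-!
The local computation over `p`, for a general modulus and with an exponent.
-/

set_option autoImplicit false

open Finset QuadraticAlgebra
open scoped Classical

namespace Pool.Agent.MP_e23604_nt.Z

open B R S W

theorem LCE_pf : LCE_st := by
  intro R _ χ r p n a M b Q' P' φ j V hX hP y hy
  have H := H5_ok
  have hCOI := COI_ok
  have hAHM := AHM_pf H hCOI
  have hNMZ := NMZ_pf H hCOI
  have hN : (p : Zw) ^ n ≠ 0 := pow_ne_zero _ hX.p0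
  have hN' : p ^ n ≠ 0 := pow_ne_zero _ hX.pp.ne_zero
  have hχ := (H.LZ χ r M hX.tw hX.ne hX.dr).1
  have hC := hX.chr H.LZ j
  obtain ⟨-, t2, t3, -⟩ := H.THI a hX.a0
  have hu : ∀ u ∈ UM M, ∀ T, eta χ u T = gal u T := fun u hu T => by
    rw [eta_apply, hχ u hu, ZMod.val_zero, pow_zero, one_smul]
  have hQ := hX.genQ.zero
  have hY := (hX.gd H.CYG).eta χ hy
  obtain ⟨-, c2, -⟩ := hCOI R φ _ _ hN hX.genG hX.φn
  have a1 := (hAHM R φ _ M Q' hN hX.ne hX.dn hX.gen hX.φn).2.2.2.2.2 χ y hy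
  have eY : (p : Zw) ^ n • eta χ y Q' = eta χ y ((p : Zw) ^ n • Q') := (eta_smul χ hy _ _).symm
  generalize hQ' : (p : Zw) ^ n • Q' = Q at *
  have hM : M • eta χ y Q = 0 := by rw [← eta_smul χ hy, hQ, map_zero]
  have key : ∀ P'' : Pt, E1 V.v ((p : Zw) ^ n • P'') → Fx χ V.D ((p : Zw) ^ n • P'') →
      Fix (V.D ⊓ UM M) (Th a (eta χ y Q + (p : Zw) ^ n • P'')) ∧
      Bo2 (cj j) (V.D ⊓ UM M) fun g h => j (km (p ^ n) g (Th a (eta χ y Q + (p : Zw) ^ n • P''))) *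
        (lamZ φ χ M y * Ah φ M Q' h + ic φ (M • Q') (bd χ P'' h)) := by
    intro P'' k1 k2
    have e : ((p ^ n : ℕ) : Zw) • (eta χ y Q' + P'') = eta χ y Q + (p : Zw) ^ n • P'' := by
      rw [Nat.cast_pow, smul_add, eY]
    have f : ∀ g ∈ V.D ⊓ UM M, gal g (eta χ y Q + (p : Zw) ^ n • P'') =
        eta χ y Q + (p : Zw) ^ n • P'' := fun g hg => by
      rw [map_add, hg.2.2 _ hM, ← hu g hg.2, k2 g hg.1]
    refine ⟨fun g hg => by rw [← (t2 g hg.2.1 _).1, f g hg], ?_⟩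
    have := hNMZ R (p ^ n) j φ (V.D ⊓ UM M) a (M • Q') (eta χ y Q' + P'') hN'
      (by simpa using hX.genG) (hX.cop.of_isCoprime_of_dvd_right (mul_dvd_mul_left 6 hX.dN))
      (inf_le_right.trans (UM_mono hX.dN)) (fun g hg => hC.cyc g hg.2)
      (by
        rw [mul_smul, e]
        simpa using Gd.two_add (b := 1) (Y := eta χ y Q) (by simpa using hY) k1)
      (by
        rw [e, smul_add]
        exact (not_E1.1 (not_E1_add ((hY.smul (cop6.1 hX.a6).2).nE1 V) (E1m k1 a).1)).1)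
      (by rw [e]; exact f)
    refine (((H.LIN R _ _).1 _ _ 0).2.2.2 _ _ le_rfl (fun _ _ => rfl) fun g _ h hh => ?_).2 this
    have k3 : (p : Zw) ^ n • bd χ P'' h = 0 := by rw [← bd_smul hh.2.1, bd, k2 h hh.1, sub_self]
    rw [e, map_add, add_sub_add_comm, ← hu h hh.2 P'',
      ((c2 _ (a1 h hh.2).1).2.2.2 (eta χ h P'' - P'') k3).1, (a1 h hh.2).2, bd]
  obtain ⟨f1, b1⟩ := key P' hP.e1 hP.fx
  obtain ⟨f2, b2⟩ := key (-P') (by rw [smul_neg]; exact E1n hP.e1) fun g hg => by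
    rw [smul_neg, map_neg, hP.fx g hg]
  have k4 : ∀ h ∈ V.D, ic φ (M • Q') (bd χ (-P') h) = -ic φ (M • Q') (bd χ P' h) := fun h hh => by
    rw [← neg_one_smul Zw P', bd_smul hh.2, (c2 _ (by
      rw [← bd_smul hh.2, bd, hP.fx h hh, sub_self])).2.1, map_neg, map_one, neg_one_mul]
  rw [smul_neg, ← sub_eq_add_neg] at f2 b2
  generalize (p : Zw) ^ n • P' = P at *
  have p1 : V.v p ≤ 1 := bLocA_nat V.na p
  have p0 := V.v.nonneg p
  have n9 : 0 < V.v 9 := V.v.pos (by norm_num)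
  have z0 := V.v.nonneg (zz P)
  obtain ⟨ρ, hρ⟩ : ∃ ρ, ρ = V.v (zz P) / V.v 9 := ⟨_, rfl⟩
  have r0 : 0 ≤ ρ := hρ ▸ div_nonneg z0 n9.le
  have r1 : ρ ^ 2 < V.v p ^ (n + 2) := by
    have := hP.sm
    rw [show (81 : Qb) = 9 ^ 2 by norm_num, map_pow] at this
    rw [hρ, div_pow, div_lt_iff₀ (pow_pos n9 2)]
    exact this
  have r2 : ρ < V.v p ^ 2 := lt_of_pow_lt_pow_left₀ 2 (by positivity) (by
    rw [← pow_mul]
    exact r1.trans_le (pow_le_pow_of_le_one p0 p1 (by have := hX.n2; omega)))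
  have r3 : ρ < 1 := r2.trans_le (pow_le_one₀ p0 p1)
  obtain ⟨s1, s2, s3, s4, s5, s6⟩ := H.TAY a V _ P hX.a6
    (hP.ov.cop (hX.aM.of_isCoprime_of_dvd_right hX.dp).symm) hY hP.e1
    ((div_lt_one n9).1 (hρ ▸ r3))
  rw [← hρ] at s4 s5 s6
  have r4 : ρ ^ 2 ≤ ρ := by nlinarith
  have s7 : V.v (de a (eta χ y Q) * zz P) ≤ ρ := by
    rw [map_mul, hρ, le_div_iff₀ n9]
    nlinarith
  have e1 : eP χ a Q P y = Th a (eta χ y Q + P) / Th a (eta χ y Q) /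
      (Th a (eta χ y Q - P) / Th a (eta χ y Q)) := by rw [eP, div_div_div_cancel_right₀ s2]
  have s8 : V.v (Th a (eta χ y Q - P) / Th a (eta χ y Q)) = 1 := by
    have := bLocA_add_eq V.na (a := 1) ((bLocA_sub_le V.na (s5.trans r4) s7).trans_lt
      (by rwa [map_one]))
    rw [map_one] at this
    rw [← this]
    congr 1
    ring
  have B0 : Th a (eta χ y Q - P) / Th a (eta χ y Q) ≠ 0 := fun e => by simp [e] at s8
  have A0 : Th a (eta χ y Q + P) / Th a (eta χ y Q) ≠ 0 := fun e => by simp [e] at s3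
  have s9 : V.v (eP χ a Q P y) = 1 := by rw [e1, map_div₀, s3, s8, div_one]
  refine ⟨?_, fun h hh => ?_, fun u hu' => ?_, fun β i hβ hv => ?_⟩
  · rw [e1, div_sub_one B0, map_div₀, s8, div_one]
    refine lt_of_eq_of_lt (congrArg V.v ?_) ((bLocA_add_le V.na (bLocA_add_le V.na
      (bLocA_sub_le V.na (s4.trans r4) (s5.trans r4)) s7) s7).trans_lt r2)
    ring
  · rw [eP, eP, map_div₀, ← (t3 χ h hh.2 _).1, ← (t3 χ h hh.2 _).1, map_add, map_sub, hP.fx h hh,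
      eta_mul hX.tw.add hh.2 hy]
  · rw [eP, eP, eta_mul hX.tw.add hy hu'.1, hu u hu', hu'.2 Q hQ]
  have Z : ∀ u : Qb, Fix (V.D ⊓ UM M) u → V.v (u - 1) < V.v p ^ (n + 1) →
      u ≠ 0 ∧ ∀ g ∈ V.D ⊓ UM M, km (p ^ n) g u = 0 := fun u u1 u2 => by
    refine ⟨fun e => ?_, fun g hg => ?_⟩
    · rw [e, zero_sub, V.v.map_neg, map_one] at u2
      exact u2.not_ge (pow_le_one₀ p0 p1)
    · obtain ⟨w, hw⟩ := (H.POW p n V _ u hX.pp (inf_le_left.trans inf_le_left) u1 u2).2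
      have := hw g hg
      rwa [hC.cyc g hg.2, sub_self, zero_mul] at this
  have f0 : Fix (V.D ⊓ UM M) (Th a (eta χ y Q)) := fun g hg => by
    rw [← (t2 g hg.2.1 _).1, hg.2.2 _ hM]
  have tp := (div_ne_zero_iff.1 A0).1
  have tm := (div_ne_zero_iff.1 B0).1
  have e0 : eP χ a Q P y ≠ 0 := div_ne_zero tp tm
  have f3 : Fix (V.D ⊓ UM M) (eP χ a Q P y) := fun g hg => by rw [eP, map_div₀, f1 g hg, f2 g hg]
  have ei : eP χ a Q P y ^ i ≠ 0 := pow_ne_zero i e0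
  have f4 : Fix (V.D ⊓ UM M) (β / eP χ a Q P y ^ i) := fun g hg => by
    rw [map_div₀, map_pow, hβ g hg, f3 g hg]
  have f5 : Fix (V.D ⊓ UM M) (Th a (eta χ y Q + P) / Th a (eta χ y Q) *
      (Th a (eta χ y Q - P) / Th a (eta χ y Q))) := fun g hg => by
    rw [map_mul, map_div₀, map_div₀, f0 g hg, f1 g hg, f2 g hg]
  obtain ⟨u1, u2⟩ := Z _ f4 (by rwa [div_sub_one ei, map_div₀, map_pow, s9, one_pow, div_one])
  obtain ⟨u3, u4⟩ := Z _ f5 (s6.trans_lt (r1.trans_le (pow_le_pow_of_le_one p0 p1 (by omega))))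
  have L := (H.LIN R (cj j) (V.D ⊓ UM M)).1
  refine ((L _ _ 0).2.2.2 _ _ le_rfl (fun _ _ => rfl) fun g hg h hh => ?_).2
    ((L _ (fun _ _ => 0) (i * lamZ φ χ M y⁻¹)).2.1 ((L _ _ 0).2.1 b1 b2).2.1
      ⟨fun _ => 0, Lc.const _ _, by simp⟩).2.2
  have hc := hC.cyc g hg.2
  have m1 := km_fix_mul hN' u1 ei (f4 g hg) (by rw [map_pow, f3 g hg]) hc
  rw [div_mul_cancel₀ _ ei, u2 g hg, zero_add, km_fix_pow hN' e0 (f3 g hg) hc] at m1
  have m2 := km_fix_mul hN' e0 tm (f3 g hg) (f2 g hg) hc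
  rw [eP, div_mul_cancel₀ _ tm, ← eP] at m2
  have m3 := km_fix_mul hN' tp tm (f1 g hg) (f2 g hg) hc
  have m4 := km_fix_mul hN' u3 (mul_ne_zero s2 s2) (f5 g hg) (by rw [map_mul, f0 g hg]) hc
  rw [mul_mul_mul_comm, div_mul_cancel₀ _ s2, div_mul_cancel₀ _ s2, m3, u4 g hg, zero_add,
    km_fix_mul hN' s2 s2 (f0 g hg) (f0 g hg) hc] at m4
  have m5 := hC.mul _ (GK.inv_mem hy) y hy
  rw [inv_mul_cancel, hC.one 1 (UM M).one_mem] at m5
  have m6 := congrArg j m2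
  have m7 := congrArg j m4
  rw [map_add] at m6
  rw [map_add, map_add] at m7
  rw [k4 h hh.1, ← (t3 χ y hy Q).1, m1, map_mul, map_natCast]
  linear_combination (i * j (km (p ^ n) g (eP χ a Q P y)) * Ah φ M Q' h) * m5 -
    i * lamZ φ χ M y⁻¹ * lamZ φ χ M y * Ah φ M Q' h * m6 -
      i * lamZ φ χ M y⁻¹ * ic φ (M • Q') (bd χ P' h) * m7

end Pool.Agent.MP_e23604_nt.Z
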