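import Pool.Agent.MP_e23604_nt.Z.Defs
import Pool.Agent.MP_e23604_nt.Y.Ok
import Pool.Agent.MP_e23604_nt.X.Red3

/-!
Statements of the steps of the derived reciprocity law.
-/

set_option autoImplicit false

open Finset QuadraticAlgebra
open scoped Classical

namespace Pool.Agent.MP_e23604_nt.Z

open B R S W

/-- the global data for a general modulus -/
structure XE {R : Type} [CommRing R] (χ : GQ → ZMod 3) (r p n : ℕ) (a M b : Zw) (Q' : Pt)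
    (φ : Zw →+* R) : Prop where
  tw : Tw χ r
  pp : p.Prime
  n2 : 2 ≤ n
  ne : M ≠ 0
  dr : (9 * r : Zw) ∣ M
  dn : (p : Zw) ^ n ∣ M
  cop : IsCoprime a (6 * M)
  gen : Gen ((p : Zw) ^ n * M) Q'
  qt : Qt φ b
  bp : b ∣ (p : Zw) ^ n

section basic

variable {R : Type} [CommRing R] {χ : GQ → ZMod 3} {r p n : ℕ} {a M b : Zw} {Q' : Pt}
  {φ : Zw →+* R}

theorem XE.p0 (h : XE χ r p n a M b Q' φ) : (p : Zw) ≠ 0 := Nat.cast_ne_zero.2 h.pp.ne_zero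

theorem XE.dN (h : XE χ r p n a M b Q' φ) : ((p ^ n : ℕ) : Zw) ∣ M := by simpa using h.dn

theorem XE.dp (h : XE χ r p n a M b Q' φ) : (p : Zw) ∣ M :=
  (dvd_pow_self _ (by have := h.n2; omega)).trans h.dn

theorem XE.nine (h : XE χ r p n a M b Q' φ) : 9 ∣ M := (dvd_mul_right _ _).trans h.dr

theorem XE.three (h : XE χ r p n a M b Q' φ) : 3 ∣ M := dvd_trans ⟨3, by norm_num⟩ h.nine

theorem XE.genQ (h : XE χ r p n a M b Q' φ) : Gen M ((p : Zw) ^ n • Q') :=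
  h.gen.smul (pow_ne_zero _ h.p0)

theorem XE.genG (h : XE χ r p n a M b Q' φ) : Gen ((p : Zw) ^ n) (M • Q') :=
  Gen.smul (by rw [mul_comm]; exact h.gen) h.ne

theorem XE.φn (h : XE χ r p n a M b Q' φ) : φ ((p : Zw) ^ n) = 0 := (h.qt.ker _).2 h.bp

theorem XE.φM (h : XE χ r p n a M b Q' φ) : φ M = 0 := (h.qt.ker _).2 (h.bp.trans h.dn)

theorem XE.pn (h : XE χ r p n a M b Q' φ) : (p : R) ^ n = 0 := by simpa using h.φn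

theorem XE.a6 (h : XE χ r p n a M b Q' φ) : IsCoprime a 6 := h.cop.of_mul_right_left

theorem XE.aM (h : XE χ r p n a M b Q' φ) : IsCoprime a M := h.cop.of_mul_right_right

theorem XE.a0 (h : XE χ r p n a M b Q' φ) : a ≠ 0 := cop6_ne h.a6

theorem XE.chr (h : XE χ r p n a M b Q' φ) (hl : LZ_st) (j : ZMod (p ^ n) →+* R) :
    Chr j (UM M) (lamZ φ χ M) := (((hl χ r M h.tw h.ne h.dr).2.2 R φ h.φM).1 _ j h.dN).1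

theorem XE.gd (h : XE χ r p n a M b Q' φ) (hc : CYG_st) : Gd ((p : Zw) ^ n • Q') :=
  h.genQ.gd hc h.ne h.three

theorem XE.th (h : XE χ r p n a M b Q' φ) (hc : CYG_st) (ht : THI_st) :
    Th a ((p : Zw) ^ n • Q') ≠ 0 ∧ Fix (UM M) (Th a ((p : Zw) ^ n • Q')) :=
  ⟨(ht a h.a0).2.2.2 h.a6 _ ((h.gd hc).smul (cop6.1 h.a6).2).ne, fun g hg => by
    rw [← ((ht a h.a0).2.1 g hg.1 _).1, hg.2 _ h.genQ.zero]⟩

end basic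

section ring

variable {R : Type} [CommRing R]

/-- the weighted twisted norm of a Kummer cocycle -/
noncomputable def zw {N : ℕ} (j : ZMod N →+* R) (U : Subgroup GQ) (lam A : GQ → R) (θ : Qb)
    (g : GQ) : R := ∑ y ∈ Xs U GK, A (g * y) * lam (g * y)⁻¹ * j (km N g (y θ))

/-- the triple product -/
def mas (κ lam A β y γ : GQ → R) (g h : GQ) : R := β g * lam g * y h - A g * κ g * γ h

/-- the local term -/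
def La (lam z y γ : GQ → R) (g : GQ) : R := (lam g - 1) * γ g + z g * lam g * y g

/-- two cocycles whose cup product is the boundary of `γ` -/
structure Tri (H : Subgroup GQ) (κ ρ lam z y γ : GQ → R) : Prop where
  mr : Mu H ρ
  ml : Mu H lam
  eq : ∀ g ∈ H, κ g = ρ g * lam g
  cz : Co ρ H z
  cl : Co lam H y
  lc : Lc H γ
  bd : ∀ g ∈ H, ∀ h ∈ H, cup lam z y g h = κ g * γ h - γ (g * h) + γ g

end ring

/-- the local computation over `p` -/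
def LCE_st : Prop := ∀ (R : Type) [CommRing R] (χ : GQ → ZMod 3) (r p n : ℕ) (a M b : Zw)
  (Q' P' : Pt) (φ : Zw →+* R) (j : ZMod (p ^ n) →+* R) (V : Plc), XE χ r p n a M b Q' φ →
  LP χ p n V ((p : Zw) ^ n • P') → ∀ y ∈ GK,
  V.v (eP χ a ((p : Zw) ^ n • Q') ((p : Zw) ^ n • P') y - 1) < V.v p ^ 2 ∧
  (∀ h ∈ V.D, eP χ a ((p : Zw) ^ n • Q') ((p : Zw) ^ n • P') (h * y) =
    h (eP χ a ((p : Zw) ^ n • Q') ((p : Zw) ^ n • P') y)) ∧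
  (∀ u ∈ UM M, eP χ a ((p : Zw) ^ n • Q') ((p : Zw) ^ n • P') (y * u) =
    eP χ a ((p : Zw) ^ n • Q') ((p : Zw) ^ n • P') y) ∧
  ∀ (β : Qb) (i : ℕ), Fix (V.D ⊓ UM M) β →
    V.v (β - eP χ a ((p : Zw) ^ n • Q') ((p : Zw) ^ n • P') y ^ i) < V.v p ^ (n + 1) →
    Bo2 (cj j) (V.D ⊓ UM M) fun g h => j (km (p ^ n) g β) * Ah φ M Q' h +
      i * lamZ φ χ M y⁻¹ * j (km (p ^ n) g (y (Th a ((p : Zw) ^ n • Q')))) *
        (2 * ic φ (M • Q') (bd χ P' h))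

/-- the transfer of a cup product, with weights -/
def TFW_st : Prop := ∀ (R : Type) [CommRing R] (N : ℕ) (j : ZMod N →+* R) (U : Subgroup GQ)
  (lam A : GQ → R) (α : Qb), Chr j U lam → Adt U A → Lc U A →
  (∀ g ∈ GK, ∀ u ∈ U, A (g⁻¹ * u * g) = A u) → α ≠ 0 → Fix U α →
  ∃ f : GQ → GQ → R, Co2 (cj j) GK f ∧
    (∀ (H : Subgroup GQ) (θ : Qb) (κ w : GQ → R), H ≤ GK → θ ≠ 0 → Fix U θ → Co lam H κ →
      (∀ y ∈ GK, (∀ u ∈ U, w (y * u) = w y) ∧ ∀ k ∈ H, w (k * y) = w y) →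
      (∀ y ∈ GK, Bo2 (cj j) (H ⊓ U) fun g h =>
        j (km N g (y α)) * A h + w y * lam y⁻¹ * j (km N g (y θ)) * κ h) →
      Bo2 (cj j) H fun g h => f g h + cup lam (zw j U lam w θ) κ g h) ∧
    (∀ H : Subgroup GQ, H ≤ GK → (∀ y ∈ GK, ∀ g ∈ H ⊓ U, km N g (y α) = 0) → Bo2 (cj j) H f) ∧
    (∀ g ∈ U, ∀ h ∈ U, f g h = j (km N g (∏ y ∈ Xs U GK, y α)) * A h) ∧
    ∀ W : Plc, W.v N = 1 → W.I ≤ U → (∀ τ ∈ W.I, A τ = 0) → (∀ y ∈ GK, W.v (y α) = 1) →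
      Un2 W.D W.I f

/-- the estimate, with weights -/
def NRW_st : Prop := ∀ (χ : GQ → ZMod 3) (r n m : ℕ) (a M₀ : Zw) (Q P : Pt) (w : Pt → ℕ),
  Tw χ r → M₀ ≠ 0 → (9 * r : Zw) ∣ M₀ → IsCoprime a (6 * M₀) → Gen (3 ^ m * M₀) Q →
  LP χ 3 n V3 P → ∃ c : Qb, V3.v c ≤ V3.v 3 ^ m ∧
    V3.v (∏ y ∈ Xs (UM (3 ^ m * M₀)) GK, eP χ a Q P y ^ w ((3 : Zw) ^ m • eta χ y Q) - 1 -
      2 * c * zz P * ∑ y ∈ Xs (UM M₀) GK, w (eta χ y ((3 : Zw) ^ m • Q)) *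
        de a (eta χ y ((3 : Zw) ^ m • Q))) ≤ V3.v 3 ^ (2 * m + n + 2)

/-- the derived cochain -/
def DER_st : Prop := ∀ (R : Type) [CommRing R] (N : ℕ) (j : ZMod N →+* R) (U : Subgroup GQ)
  (lam A : GQ → R) (θ : Qb), Chr j U lam → Adt GK A → (∀ u ∈ U, A u = 0) → θ ≠ 0 → Fix U θ →
  Lc GK (zw j U lam A θ) ∧
  (∀ g ∈ GK, ∀ h ∈ GK, zw j U lam A θ (g * h) = zw j U lam A θ g +
    rho j lam g * zw j U lam A θ h + rho j lam g * A g * zc j U lam θ h) ∧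
  ∀ V : Plc, V.v N = 1 → V.I ≤ U → (∀ y ∈ GK, V.v (y θ) = 1) → ∀ τ ∈ V.I, zw j U lam A θ τ = 0

/-- the triple product is a cocycle; its restrictions -/
def MAS_st : Prop := ∀ (R : Type) [CommRing R] (H : Subgroup GQ) (κ ρ lam z y γ A β : GQ → R),
  Tri H κ ρ lam z y γ → Adt H A → Lc H A → Lc H β →
  (∀ g ∈ H, ∀ h ∈ H, β (g * h) = β g + ρ g * β h + ρ g * A g * z h) →
  Co2 κ H (mas κ lam A β y γ) ∧
  (∀ D ≤ H, (∀ g ∈ D, A g = 0) → Bo lam D y → Bo2 κ D (mas κ lam A β y γ)) ∧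
  (∀ I ≤ H, (∀ τ ∈ I, ρ τ = 1 ∧ lam τ = 1 ∧ z τ = 0 ∧ y τ = 0 ∧ γ τ = 0 ∧ A τ = 0 ∧ β τ = 0) →
    Un2 H I (mas κ lam A β y γ)) ∧
  ∀ D ≤ H, ∀ l₀ y₀ : R, (∀ g ∈ D, κ g = 1 ∧ (l₀ - 1) * y g = (lam g - 1) * y₀) →
    Bia D (fun g h => -A g * ((l₀ - 1) * γ h + z h * lam h * y₀)) ∧
    Bo2 κ D fun g h => (l₀ - 1) * mas κ lam A β y γ g h -
      -A g * ((l₀ - 1) * γ h + z h * lam h * y₀)

/-- unramified cocycles are determined by their value at a Frobenius element -/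
def UCO_st : Prop := ∀ (R : Type) [CommRing R] (V : Plc) (ϖ : Zw) (σ : GQ) (lam y : GQ → R),
  Prime ϖ → Ov V ϖ → FK V ϖ σ → Mu V.D lam → Co lam V.D y → (∀ τ ∈ V.I, lam τ = 1 ∧ y τ = 0) →
  ∀ g ∈ V.D, (lam σ - 1) * y g = (lam g - 1) * y σ

/-- the local-global principle without a condition at three, for all levels -/
def R2N_st : Prop := ∀ (R : Type) [CommRing R] (t : R) (N n : ℕ) (j : ZMod (3 ^ n) →+* R)
  (f : GQ → GQ → R) (b : Zw), Chn t N → 1 ≤ n → pw ∣ b → Co2 (cj j) GK f → f 1 1 = 0 →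
  (∀ V : Plc, ¬ Ov V b → Un2 GK V.I f) →
  (∀ V : Plc, Ov V b → V.l ≠ 3 → Bo2 (cj j) V.D f) →
  ∃ γ, Lc GK γ ∧ Unr b γ ∧ ∀ g ∈ GK, ∀ h ∈ GK, f g h = cj j g * γ h - γ (g * h) + γ g

/-- the logarithm -/
def LGK_st : Prop := ∀ (k : ℕ) (V : Plc) (lam : Zw) (φ : GQ), Sp (3 ^ (k + 1)) V lam φ →
  (∀ u v, u ≠ 0 → v ≠ 0 → lk k φ (u * v) = lk k φ u + lk k φ v) ∧
  (∀ u v, ¬ lam ∣ u → lam ∣ u - v → lk k φ u = lk k φ v) ∧ (∀ u, IsUnit u → lk k φ u = 0) ∧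
  ∃ u, ¬ lam ∣ u ∧ IsUnit (lk k φ u)

/-- the additive character of conductor `lam` -/
def ALK_st : Prop := ∀ (r k : ℕ) (a lam : Zw) (V : Plc) (φ : GQ), r ≠ 0 →
  Sp (3 ^ (k + 1)) V lam φ → Lg r k a lam (lk k φ) →
  Adt GK (fun g => lk k φ (ps lam g)) ∧ (∀ g ∈ UM lam, lk k φ (ps lam g) = 0) ∧
  (∀ X : Plc, Ov X (3 * r) → ∀ g ∈ X.D, lk k φ (ps lam g) = 0) ∧
  ∀ τ ∈ V.I, km (3 ^ k) τ V.l = 1 → IsUnit (lk k φ (ps lam τ))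

/-- the derived reciprocity law -/
def EXW_st : Prop := ∀ (R : Type) [CommRing R] (χ : GQ → ZMod 3) (r p n : ℕ) (a M b ϖ q : Zw)
  (Q' P' : Pt) (φ : Zw →+* R) (j : ZMod (p ^ n) →+* R) (V W : Plc) (y γ : GQ → R)
  (A : GQ → ZMod (p ^ n)) (σ τ : GQ) (ε : ℝ), XE χ r p n a M b Q' φ → Prime ϖ → ϖ ∣ p → Ov V ϖ →
  LP χ p n V ((p : Zw) ^ n • P') →
  Tri GK (cj j) (rho j (lamZ φ χ M)) (lamZ φ χ M)
    (zc j (UM M) (lamZ φ χ M) (Th a ((p : Zw) ^ n • Q'))) y γ →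
  (∀ g ∈ V.D, y g = ic φ (M • Q') (bd χ P' g) ∧ A g = 0) → Unr M y → Unr M γ → Adt GK A →
  (∀ g ∈ UM M, A g = 0) →
  (∀ X : Plc, Ov X M → ¬ Ov X ϖ → ¬ Ov X q → Bo (lamZ φ χ M) X.D y ∧ ∀ g ∈ X.D, A g = 0) →
  Sp (p ^ n) W q σ → q ∣ M → ¬ Ov W p → τ ∈ W.I → km (p ^ n) τ W.l = 1 →
  (∀ g ∈ W.I, lamZ φ χ M g = 1 ∧ y g = 0 ∧ γ g = 0 ∧
    zc j (UM M) (lamZ φ χ M) (Th a ((p : Zw) ^ n • Q')) g = 0) → 0 < ε →
  ∃ ν : Zw, V.v (MP_e23604_nt.W.io (1 + M * ν) -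
      ∏ x ∈ Xs (UM M) GK, eP χ a ((p : Zw) ^ n • Q') ((p : Zw) ^ n • P') x ^ (A x).val) < ε ∧
    4 * ((lamZ φ χ M σ - 1) * φ ν) = 8 * (j (A τ) *
      La (lamZ φ χ M) (zc j (UM M) (lamZ φ χ M) (Th a ((p : Zw) ^ n • Q'))) y γ σ)

/-- the norm relation for the bottom class -/
def ZNR_st : Prop := ∀ (R : Type) [CommRing R] (χ : GQ → ZMod 3) (r n : ℕ) (a M q : Zw) (Q : Pt)
  (φ : Zw →+* R) (j : ZMod (3 ^ n) →+* R) (W : Plc) (σ : GQ), Tw χ r → M ≠ 0 →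
  (9 * r : Zw) ∣ M → (3 : Zw) ^ n ∣ M → φ M = 0 → IsCoprime a (6 * (M * q)) → PP q → Ov W q →
  FK W q σ → ¬ q ∣ M → Gen (M * q) Q →
  (∀ g ∈ GK, lamZ φ χ (M * q) g = lamZ φ χ M g) ∧ ∃ m : R, ∀ g ∈ GK,
    zc j (UM (M * q)) (lamZ φ χ (M * q)) (Th a Q) g =
      (1 - lamZ φ χ M σ⁻¹) * zc j (UM M) (lamZ φ χ M) (Th a (q • Q)) g +
        (rho j (lamZ φ χ M) g - 1) * m

/-- the data at a fixed level -/
structure KD {R : Type} [CommRing R] (χ : GQ → ZMod 3) (r n m : ℕ) (a M : Zw) (Q' P' : Pt)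
    (φ : Zw →+* R) (j : ZMod (3 ^ n) →+* R) (y γ : GQ → R) : Prop where
  xd : XD χ r 3 n m a M (3 ^ n) Q' φ
  lp : LP χ 3 n V3 ((3 : Zw) ^ n • P')
  tri : Tri GK (cj j) (rho j (lamZ φ χ M)) (lamZ φ χ M)
    (zc j (UM M) (lamZ φ χ M) (Th a ((3 : Zw) ^ n • Q'))) y γ
  uy : Unr (3 * r) y
  ug : Unr (3 * r) γ
  str : ∀ W : Plc, Ov W r → Bo (lamZ φ χ M) W.D y
  loc : ∀ g ∈ V3.D, y g = ic φ (M • Q') (bd χ P' g)

/-- the local term vanishes at admissible Frobenius elements -/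
def KEY_st : Prop := ∀ (R : Type) [CommRing R] (χ : GQ → ZMod 3) (r n m c : ℕ) (a M q : Zw)
  (Q' P' : Pt) (φ : Zw →+* R) (j : ZMod (3 ^ n) →+* R) (y γ : GQ → R) (W : Plc) (σ : GQ),
  KD χ r n m a M Q' P' φ j y γ → Adm r a → Sp (3 ^ (n + 1)) W q σ → Lg r n a q (lk n σ) →
  (∀ G, Gen (9 * r * q) G →
    V3.v (Td χ r a q (lk n σ) G) * V3.v (MP_e23604_nt.W.io (q - 1)) * V3.v 3 ^ c ≤ V3.v 3 ^ n) →
  3 ^ (c + 2) * ((lamZ φ χ M σ - 1) *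
    La (lamZ φ χ M) (zc j (UM M) (lamZ φ χ M) (Th a ((3 : Zw) ^ n • Q'))) y γ σ) = 0

/-- admissible elements -/
structure Ae (r k : ℕ) (g : GQ) : Prop where
  um : g ∈ UM (N0 r)
  c1 : W.cy (3 ^ (k + 1)) g = 1
  k0 : ∀ b : Zw, b ≠ 0 → km (3 ^ k) g (W.io b) = 0
  nm : g ∉ UM (pw ^ (k + 1))

/-- admissible Frobenius elements -/
def CHO_st : Prop := ∀ (r k : ℕ) (a : Zw) (N : Subgroup GQ) (g : GQ), r ≠ 0 → a ≠ 0 → ON N →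
  Ae r k g → ∃ (W : Plc) (q : Zw) (σ : GQ) (i : ℕ), Sp (3 ^ (k + 1)) W q σ ∧
    Lg r k a q (lk k σ) ∧ (σ ^ i)⁻¹ * g ∈ N

/-- admissible elements exist -/
def AEX_st : Prop := ∀ (χ : GQ → ZMod 3) (r : ℕ) (a : Zw), Tw χ r → Adm r a → ∃ C : ℕ,
  ∀ (R : Type) [CommRing R] (n : ℕ) (M : Zw) (φ : Zw →+* R) (j : ZMod (3 ^ n) →+* R), C ≤ n →
    M ≠ 0 → (9 * r : Zw) ∣ M → (3 : Zw) ^ n ∣ M → IsCoprime a M → (∀ b, Prime b → b ∣ M → b ∣ 3 * r) →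
    Qt φ (3 ^ n) → ∃ g₀ s : GQ, s ∈ GK ∧ lamZ φ χ M g₀ - 1 ∣ 3 ^ C ∧ lamZ φ χ M s - 1 ∣ 3 ^ C ∧
      lamZ φ χ M s - rho j (lamZ φ χ M) s ∣ 3 ^ C ∧ Ae r n g₀ ∧
      ∀ u ∈ UM M, ∀ v ∈ UM M, Ae r n (g₀ * (u * v * u⁻¹ * v⁻¹))

/-- from a generator of a cyclic group to its powers -/
def TRA_st : Prop := ∀ (R : Type) [CommRing R] (κ ρ lam z y γ : GQ → R),
  Tri GK κ ρ lam z y γ → ∃ N, ON N ∧ ∀ (c : R) (σ g : GQ) (i : ℕ), σ ∈ GK → g ∈ GK → κ σ = 1 →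
    (σ ^ i)⁻¹ * g ∈ N → c * ((lam σ - 1) * La lam z y γ σ) = 0 →
    c * ((lam g - 1) * La lam z y γ g) = 0

/-- commutators -/
def COM_st : Prop := ∀ (R : Type) [CommRing R] (κ ρ lam z y γ : GQ → R) (U : Subgroup GQ) (c : R)
  (g₀ s : GQ), Tri GK κ ρ lam z y γ → U ≤ GK → (∀ g ∈ GK, ∀ u ∈ U, g * u * g⁻¹ ∈ U) →
  (∀ u ∈ U, ρ u = 1 ∧ lam u = 1) → g₀ ∈ GK → s ∈ GK → κ g₀ = 1 →
  (∀ u ∈ U, ∀ v ∈ U, c * ((lam (g₀ * (u * v * u⁻¹ * v⁻¹)) - 1) *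
    La lam z y γ (g₀ * (u * v * u⁻¹ * v⁻¹))) = 0) →
  ∀ u ∈ U, ∀ v ∈ U, c * (lam g₀ - 1) ^ 2 * (lam s - ρ s) * z v ^ 2 * y u = 0

end Pool.Agent.MP_e23604_nt.Z
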