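import Pool.Agent.MP_e23604_nt.Z.OLat
import Pool.Agent.MP_e23604_nt.Z.OTl

/-!
The Hecke relation at an inert prime.
-/

set_option autoImplicit false

namespace Pool.Agent.MP_e23604_nt.Z

theorem HTL_ok : HTL_st := HTL_of LAT_pf

end Pool.Agent.MP_e23604_nt.Z
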